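import Pool.Agent.H69.BG.Defs
import Pool.Agent.H69.LB.Zdf

/-!
# Beyond the GRH barrier: definitions of the analytic part

Overview: /team-store/H69_F_beyond.md, section 1.
-/

open Finset H69LB MeasureTheory
open scoped ContDiff

namespace H69BG

/-- the window in the frequencies: smooth, nonnegative, supported in `[1/4, 1/2]` -/
structure PH (φ : ℝ → ℝ) : Prop where
  smooth : ContDiff ℝ ∞ φ
  zero : ∀ θ, θ ≤ 1 / 4 ∨ 1 / 2 ≤ θ → φ θ = 0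
  nonneg : ∀ θ, 0 ≤ φ θ
  pos : 0 < ∫ θ, φ θ

/-- `Φ(v) = ∫ φ(Hθ) e(θv) dθ` -/
noncomputable def Ph (φ : ℝ → ℝ) (H v : ℝ) : ℂ := ∫ θ, ((φ (H * θ) : ℝ) : ℂ) * ee (θ * v)

/-- `β2(v) = ∑_m g2(m) Φ(v - m)` -/
noncomputable def be2 (φ : ℝ → ℝ) (M x H v : ℝ) : ℂ := ∑ m ∈ Icc 1 (NN (M + 1) x), (g2 x m : ℂ) * Ph φ H (v - m)

/-- `H = cH T^(α-1)` -/
noncomputable def HH (P : Par) (T α : ℝ) : ℝ := P.cH * T ^ (α - 1)

/-- the second comparison function of a piece -/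
noncomputable def b2 (φ χ : ℝ → ℝ) (M : ℝ) (P : Par) (T α ξ : ℝ) : ℂ :=
  -(((Real.exp (ξ / 2) * Real.exp (-|ξ - α * Real.log T|) * χ (ξ - α * Real.log T) : ℝ) : ℂ) *
    be2 φ M (T ^ α) (HH P T α) (Real.exp ξ))

/-- `W(log(u/x))`, extended by `0` to `u ≤ 0` -/
noncomputable def Wl (W : ℝ → ℝ) (x u : ℝ) : ℝ := if u ≤ 0 then 0 else W (Real.log (u / x))

/-- `e^{-2|η|} χ(η)²` -/
noncomputable def Wof2 (χ : ℝ → ℝ) (η : ℝ) : ℝ := Real.exp (-(2 * |η|)) * χ η ^ 2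

end H69BG
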