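import Pool.Agent.H69.BG.ArDefs

/-!
# ARA: Ramanujan sums

`cr r n = ∑_{d ∣ r, d ∣ n} d μ(r/d)`.
* `cr_mul`: for fixed `n` the function `r ↦ cr r n` is the Dirichlet convolution of the multiplicative functions `d ↦ d·[d ∣ n]` (for coprime `a, b`: `ab ∣ n ↔ a ∣ n ∧ b ∣ n`,
  `IsCoprime.mul_dvd`) and `μ` (as arithmetic functions with values in `ℝ`; `ArithmeticFunction.IsMultiplicative.mul`, `ArithmeticFunction.isMultiplicative_moebius.intCast`). For `r = 0` both
  sides are `0` (`Nat.divisors_zero`), and the same for `s = 0`.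
* `cr_coprime_mul`: for `d ∣ r`, `(d, s) = 1`, so `d ∣ s n ↔ d ∣ n` (`Int.isCoprime_iff_gcd_eq_one`, `IsCoprime.dvd_of_dvd_mul_left`): the filters agree (`r = 0`: no divisors).
* `cr_of_dvd`: all divisors `d` of `r` divide `n`, and `∑_{d ∣ r} d μ(r/d) = φ(r)` (`φ * ζ = id` by `Nat.sum_totient`, Moebius inversion
  `ArithmeticFunction.sum_eq_iff_sum_mul_moebius_eq`; or Mathlib's `ArithmeticFunction` version of `totient`). `r = 0` is trivial.
* `cr_coprime`: the only divisor of `r` which divides `n` is `1` (a common divisor divides `gcd(r, n) = 1`).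
* `cr_sqf`: `r = g (r/g)`, `g = gcd(r, n)`, coprime factors since `r` is squarefree (`Nat.coprime_of_squarefree_mul`), `cr_mul`, `cr_of_dvd`, and `gcd(r/g, n) = 1`: a prime `p ∣ r/g`, `p ∣ n`
  divides `g` as well, so `p² ∣ r`.
* `abs_cr_le`: triangle inequality, `|μ| ≤ 1` (`ArithmeticFunction.abs_moebius_le_one`).
* `sg_le`: `σ(q) = ∑_{d ∣ q} q/d ≤ q ∑_{d ≤ q} 1/d ≤ q (1 + log q)` (`Nat.sum_div_divisors`, `H69LB.sum_inv_le`).
-/

open Finset H69LB

namespace H69BG

/-- `d ↦ d [d ∣ n]` -/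
noncomputable def ARA_f (n : ℤ) : ArithmeticFunction ℝ :=
  ⟨fun d => if (d : ℤ) ∣ n then (d : ℝ) else 0, by simp⟩

theorem ARA_f_apply (n : ℤ) (d : ℕ) : ARA_f n d = if (d : ℤ) ∣ n then (d : ℝ) else 0 := rfl

theorem ARA_f_mult (n : ℤ) : (ARA_f n).IsMultiplicative := by
  constructor
  · rw [ARA_f_apply]
    simp
  · intro a b hab
    rw [ARA_f_apply, ARA_f_apply, ARA_f_apply]
    have hiff : ((a * b : ℕ) : ℤ) ∣ n ↔ (a : ℤ) ∣ n ∧ (b : ℤ) ∣ n := by
      constructor
      · intro h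
        push_cast at h
        exact ⟨(Dvd.intro _ rfl).trans h, (Dvd.intro_left _ rfl).trans h⟩
      · rintro ⟨h1, h2⟩
        push_cast
        exact IsCoprime.mul_dvd (Nat.isCoprime_iff_coprime.2 hab) h1 h2
    by_cases h1 : (a : ℤ) ∣ n
    · by_cases h2 : (b : ℤ) ∣ n
      · rw [if_pos (hiff.2 ⟨h1, h2⟩), if_pos h1, if_pos h2]
        push_cast
        ring
      · rw [if_neg (fun h => h2 (hiff.1 h).2), if_neg h2, mul_zero]
    · rw [if_neg (fun h => h1 (hiff.1 h).1), if_neg h1, zero_mul]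

theorem ARA_cr (r : ℕ) (n : ℤ) : cr r n =
    (ARA_f n * ((ArithmeticFunction.moebius : ArithmeticFunction ℤ) : ArithmeticFunction ℝ)) r := by
  rw [ArithmeticFunction.mul_apply]
  have h := Nat.sum_divisorsAntidiagonal (n := r)
    (fun a b => ARA_f n a * ((ArithmeticFunction.moebius : ArithmeticFunction ℤ) : ArithmeticFunction ℝ) b)
  rw [h]
  unfold cr
  rw [sum_filter]
  refine Finset.sum_congr rfl fun d _ => ?_
  rw [ARA_f_apply, ArithmeticFunction.intCoe_apply]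
  split_ifs <;> simp

theorem cr_one (n : ℤ) : cr 1 n = 1 := by
  unfold cr
  rw [Nat.divisors_one, Finset.filter_singleton]
  simp

theorem cr_mul {r s : ℕ} (h : Nat.Coprime r s) (n : ℤ) : cr (r * s) n = cr r n * cr s n := by
  rw [ARA_cr, ARA_cr, ARA_cr]
  exact ((ARA_f_mult n).mul ArithmeticFunction.isMultiplicative_moebius.intCast).map_mul_of_coprime h

theorem cr_coprime_mul {r s : ℕ} (h : Nat.Coprime r s) (n : ℤ) : cr r (s * n) = cr r n := by
  unfold cr
  congr 1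
  refine Finset.filter_congr fun d hd => ?_
  have h1 : Nat.Coprime d s := Nat.Coprime.coprime_dvd_left (Nat.dvd_of_mem_divisors hd) h
  constructor
  · intro h2
    exact IsCoprime.dvd_of_dvd_mul_left (Nat.isCoprime_iff_coprime.2 h1) h2
  · intro h2
    exact Dvd.dvd.mul_left h2 _

theorem cr_of_dvd {r : ℕ} {n : ℤ} (h : (r : ℤ) ∣ n) : cr r n = Nat.totient r := by
  rcases Nat.eq_zero_or_pos r with h0 | h0
  · subst h0
    unfold cr
    simp
  unfold cr
  have h1 : r.divisors.filter (fun d : ℕ => (d : ℤ) ∣ n) = r.divisors := by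
    rw [Finset.filter_eq_self]
    intro d hd
    exact (Int.natCast_dvd_natCast.2 (Nat.dvd_of_mem_divisors hd)).trans h
  rw [h1]
  have h2 := (ArithmeticFunction.sum_eq_iff_sum_mul_moebius_eq (R := ℝ)
    (f := fun k => (Nat.totient k : ℝ)) (g := fun k => (k : ℝ))).1 (by
      intro k _
      exact_mod_cast Nat.sum_totient k) r h0
  have h3 := Nat.sum_divisorsAntidiagonal' (n := r)
    (fun a b => ((ArithmeticFunction.moebius a : ℤ) : ℝ) * (b : ℝ))
  rw [← h2, h3]
  refine Finset.sum_congr rfl fun d _ => ?_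
  ring

theorem cr_coprime {r n : ℕ} (h : Nat.Coprime r n) : cr r (n : ℤ) = (ArithmeticFunction.moebius r : ℝ) := by
  rcases Nat.eq_zero_or_pos r with h0 | h0
  · subst h0
    unfold cr
    simp
  have h1 : r.divisors.filter (fun d : ℕ => (d : ℤ) ∣ (n : ℤ)) = {1} := by
    ext d
    rw [mem_filter, Nat.mem_divisors, mem_singleton, Int.natCast_dvd_natCast]
    constructor
    · rintro ⟨⟨a1, _⟩, a2⟩
      have := Nat.dvd_gcd a1 a2
      rw [h] at this
      exact Nat.dvd_one.1 this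
    · rintro rfl
      exact ⟨⟨one_dvd _, by omega⟩, one_dvd _⟩
  unfold cr
  rw [h1]
  simp

theorem cr_sqf {r : ℕ} (hr : Squarefree r) (n : ℕ) :
    cr r (n : ℤ) = (ArithmeticFunction.moebius (r / Nat.gcd r n) : ℝ) * (Nat.totient (Nat.gcd r n) : ℝ) := by
  obtain ⟨g, hg⟩ : ∃ g, g = Nat.gcd r n := ⟨_, rfl⟩
  obtain ⟨k, hk⟩ : ∃ k, k = r / g := ⟨_, rfl⟩
  have hgr : g ∣ r := hg ▸ Nat.gcd_dvd_left r n
  have hgn : g ∣ n := hg ▸ Nat.gcd_dvd_right r n
  have hrk : r = g * k := by rw [hk, Nat.mul_div_cancel' hgr]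
  have hcop : Nat.Coprime g k := Nat.coprime_of_squarefree_mul (hrk ▸ hr)
  have hkn : Nat.Coprime k n := by
    apply Nat.Coprime.symm
    apply Nat.coprime_of_dvd
    intro p hp hpn hpk
    have h1 : p ∣ r := hrk ▸ hpk.mul_left g
    have h2 : p ∣ g := hg ▸ Nat.dvd_gcd h1 hpn
    have h3 := Nat.dvd_gcd h2 hpk
    rw [hcop] at h3
    exact hp.one_lt.ne' (Nat.dvd_one.1 h3)
  rw [← hg, ← hk]
  conv_lhs => rw [hrk]
  rw [cr_mul hcop, cr_of_dvd (Int.natCast_dvd_natCast.2 hgn), cr_coprime hkn]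
  ring

theorem abs_cr_le (r : ℕ) (n : ℤ) : |cr r n| ≤ sg r := by
  unfold cr sg
  refine (Finset.abs_sum_le_sum_abs _ _).trans ?_
  refine (Finset.sum_le_sum fun d _ => ?_).trans
    (Finset.sum_le_sum_of_subset_of_nonneg (Finset.filter_subset _ _)
      (f := fun d : ℕ => (d : ℝ)) fun d _ _ => Nat.cast_nonneg d)
  rw [abs_mul, abs_of_nonneg (Nat.cast_nonneg d)]
  have h1 : |(ArithmeticFunction.moebius (r / d) : ℝ)| ≤ 1 := by
    have := ArithmeticFunction.abs_moebius_le_one (n := r / d)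
    exact_mod_cast this
  exact mul_le_of_le_one_right (Nat.cast_nonneg d) h1

theorem sg_nonneg (q : ℕ) : 0 ≤ sg q := Finset.sum_nonneg fun d _ => Nat.cast_nonneg d

theorem sg_le {q : ℕ} (hq : 1 ≤ q) : sg q ≤ q * (1 + Real.log q) := by
  unfold sg
  rw [← Nat.sum_div_divisors q (fun d : ℕ => (d : ℝ))]
  have h1 : ∀ d ∈ q.divisors, ((q / d : ℕ) : ℝ) ≤ q * ((d : ℝ))⁻¹ := by
    intro d _
    exact Nat.cast_div_le.trans (le_of_eq (div_eq_mul_inv _ _))
  refine (Finset.sum_le_sum h1).trans ?_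
  rw [← Finset.mul_sum]
  refine mul_le_mul_of_nonneg_left ?_ (Nat.cast_nonneg q)
  have hs : ∑ k ∈ Finset.Icc 1 q, ((k : ℝ))⁻¹ ≤ 1 + Real.log q := by
    have h := harmonic_le_one_add_log q
    rw [harmonic_eq_sum_Icc] at h
    push_cast at h
    exact h
  refine le_trans ?_ hs
  refine Finset.sum_le_sum_of_subset_of_nonneg ?_ fun d _ _ => by positivity
  intro d hd
  exact Finset.mem_Icc.2 ⟨Nat.pos_of_mem_divisors hd, Nat.divisor_le hd⟩

end H69BG
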