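import Pool.Agent.H69.BG.ArA
import Pool.Agent.H69.LB.Div

/-!
# ARB: `G^{(s)}_R(n)` as a sum over the divisors of `n`

* `LL_le`: `1/φ(q) ≤ 2(1 + log q)/q ≤ 2(1 + log R)/q` (`H69LB.le_totient`), `∑ 1/q ≤ 1 + log R` (`H69LB.sum_inv_le`); `R = 0`: the left side is `0`.
* `one_le_LL`: the term `q = 1`. `LL_mono`: more nonnegative terms. `SZ_le`: fewer nonnegative terms.
* `GS_eq`: only squarefree `r` contribute. For squarefree `r ≤ R` coprime to `s` put `g = gcd(r, n)`, `k = r/g`: `(g, k) = 1`, `(k, n) = 1`, `(k, s) = (g, s) = 1`, and by `cr_sqf`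
  `(μ(r)/φ(r)) c_r(n) = μ(g) μ(k)/(φ(g) φ(k)) · μ(k) φ(g) = μ(g) μ(k)²/φ(k)`. Conversely if `g ∣ n` is squarefree, coprime to `s`, and `k ≤ R/g` is squarefree, coprime to `n s`, then `r = g k ≤ R` is
  squarefree, coprime to `s`, and `gcd(r, n) = g` (`(k, n) = 1`, `g ∣ n`). (`Finset.sum_bij'` or `Finset.sum_nbij'` between the squarefree `r` and the pairs `(g, k)`, `Finset.sum_sigma'`; the pairs with
  `μ(g) = 0` or `μ(k) = 0` contribute `0`. `k ≤ R / g ↔ g k ≤ R`: `Nat.le_div_iff_mul_le`. `Nat.Coprime k (n * s)`.)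
* `abs_GS_le`: from `GS_eq`: at most `τ(n)` terms, each at most `SZ (R/g) (n s) ≤ LL (R/g) ≤ LL R`.
* `GG_eq_GS`: all `r` are coprime to `1`.
* `GG_prime`: for a prime `p > y` and `q ≤ y`: `cr q p = μ(q)` (`cr_coprime`), so `G_y(p) = ∑ μ(q)²/φ(q)`.
-/

open Finset H69LB

namespace H69BG

theorem ARB_term (q : ℕ) : 0 ≤ (ArithmeticFunction.moebius q : ℝ) ^ 2 / (Nat.totient q : ℝ) := by
  positivity

theorem LL_nonneg (R : ℕ) : 0 ≤ LL R := Finset.sum_nonneg fun q _ => ARB_term q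

theorem one_le_LL {R : ℕ} (hR : 1 ≤ R) : 1 ≤ LL R := by
  have h := Finset.single_le_sum (f := fun q : ℕ =>
    (ArithmeticFunction.moebius q : ℝ) ^ 2 / (Nat.totient q : ℝ)) (fun q _ => ARB_term q)
    (Finset.mem_Icc.2 ⟨le_rfl, hR⟩)
  unfold LL
  simpa using h

theorem LL_mono {R R' : ℕ} (h : R ≤ R') : LL R ≤ LL R' :=
  Finset.sum_le_sum_of_subset_of_nonneg (Finset.Icc_subset_Icc_right h) fun q _ _ => ARB_term q

theorem ARB_mu (q : ℕ) : (ArithmeticFunction.moebius q : ℝ) ^ 2 ≤ 1 := by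
  have h1 : |(ArithmeticFunction.moebius q : ℝ)| ≤ 1 := by
    have := ArithmeticFunction.abs_moebius_le_one (n := q)
    exact_mod_cast this
  rw [← sq_abs]
  exact pow_le_one₀ (abs_nonneg _) h1

theorem LL_le (R : ℕ) : LL R ≤ 2 * (1 + Real.log R) ^ 2 := by
  have h1 : ∀ q ∈ Finset.Icc 1 R, (ArithmeticFunction.moebius q : ℝ) ^ 2 / (Nat.totient q : ℝ) ≤
      2 * (1 + Real.log R) * ((q : ℝ))⁻¹ := by
    intro q hq
    rw [Finset.mem_Icc] at hq
    have hq0 : (0 : ℝ) < q := by exact_mod_cast hq.1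
    have hφ : (0 : ℝ) < Nat.totient q := by exact_mod_cast Nat.totient_pos.2 hq.1
    have e1 := le_totient hq.1
    have e2 : Real.log q ≤ Real.log R := Real.log_le_log hq0 (by exact_mod_cast hq.2)
    rw [div_le_iff₀ hφ]
    refine (ARB_mu q).trans ?_
    have e3 : (q : ℝ) ≤ 2 * (1 + Real.log R) * Nat.totient q := by
      refine e1.trans ?_
      exact mul_le_mul_of_nonneg_right (by linarith) hφ.le
    calc (1 : ℝ) = (q : ℝ) * (q : ℝ)⁻¹ := (mul_inv_cancel₀ hq0.ne').symm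
      _ ≤ 2 * (1 + Real.log R) * Nat.totient q * (q : ℝ)⁻¹ :=
          mul_le_mul_of_nonneg_right e3 (by positivity)
      _ = _ := by ring
  have h2 : 0 ≤ Real.log (R : ℝ) := Real.log_natCast_nonneg R
  refine (Finset.sum_le_sum h1).trans ?_
  rw [← Finset.mul_sum]
  calc 2 * (1 + Real.log R) * ∑ q ∈ Finset.Icc 1 R, ((q : ℝ))⁻¹
      ≤ 2 * (1 + Real.log R) * (1 + Real.log R) :=
        mul_le_mul_of_nonneg_left (sum_inv_le R) (by linarith)
    _ = _ := by ring

theorem SZ_nonneg (z m : ℕ) : 0 ≤ SZ z m := Finset.sum_nonneg fun q _ => ARB_term q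

theorem SZ_le (z m : ℕ) : SZ z m ≤ LL z :=
  Finset.sum_le_sum_of_subset_of_nonneg (Finset.filter_subset _ _) fun q _ _ => ARB_term q

theorem GG_eq_GS (R : ℕ) (n : ℤ) : GG R n = GS 1 R n := by
  unfold GG GS
  rw [Finset.filter_true_of_mem fun r _ => Nat.coprime_one_right r]

theorem ARB_key {r n : ℕ} (hr : Squarefree r) :
    r = Nat.gcd r n * (r / Nat.gcd r n) ∧ Nat.Coprime (r / Nat.gcd r n) n ∧
      (ArithmeticFunction.moebius r : ℝ) / (Nat.totient r : ℝ) * cr r (n : ℤ) =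
        (ArithmeticFunction.moebius (Nat.gcd r n) : ℝ) *
          ((ArithmeticFunction.moebius (r / Nat.gcd r n) : ℝ) ^ 2 /
            (Nat.totient (r / Nat.gcd r n) : ℝ)) := by
  have hc := cr_sqf hr n
  obtain ⟨g, hg⟩ : ∃ g, g = Nat.gcd r n := ⟨_, rfl⟩
  obtain ⟨k, hk⟩ : ∃ k, k = r / g := ⟨_, rfl⟩
  have hr0 : r ≠ 0 := hr.ne_zero
  have hgr : g ∣ r := hg ▸ Nat.gcd_dvd_left r n
  have hrk : r = g * k := by rw [hk, Nat.mul_div_cancel' hgr]
  have hcop : Nat.Coprime g k := Nat.coprime_of_squarefree_mul (hrk ▸ hr)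
  have hkn : Nat.Coprime k n := by
    apply Nat.Coprime.symm
    apply Nat.coprime_of_dvd
    intro p hp hpn hpk
    have h1 : p ∣ r := hrk ▸ hpk.mul_left g
    have h2 : p ∣ g := hg ▸ Nat.dvd_gcd h1 hpn
    have h3 := Nat.dvd_gcd h2 hpk
    rw [hcop] at h3
    exact hp.one_lt.ne' (Nat.dvd_one.1 h3)
  rw [← hg, ← hk] at hc ⊢
  refine ⟨hrk, hkn, ?_⟩
  have hg0 : 0 < g := Nat.pos_of_ne_zero (by rintro rfl; rw [zero_mul] at hrk; exact hr0 hrk)
  have hk0 : 0 < k := Nat.pos_of_ne_zero (by rintro rfl; rw [mul_zero] at hrk; exact hr0 hrk)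
  have m1 : (ArithmeticFunction.moebius r : ℝ) =
      (ArithmeticFunction.moebius g : ℝ) * (ArithmeticFunction.moebius k : ℝ) := by
    rw [hrk, ArithmeticFunction.isMultiplicative_moebius.map_mul_of_coprime hcop]
    push_cast
    ring
  have m2 : (Nat.totient r : ℝ) = (Nat.totient g : ℝ) * (Nat.totient k : ℝ) := by
    rw [hrk, Nat.totient_mul hcop]
    push_cast
    ring
  have t1 : (Nat.totient g : ℝ) ≠ 0 := by
    have := Nat.totient_pos.2 hg0
    positivity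
  have t2 : (Nat.totient k : ℝ) ≠ 0 := by
    have := Nat.totient_pos.2 hk0
    positivity
  rw [hc, m1, m2]
  field_simp

theorem GS_eq (s R : ℕ) {n : ℕ} (hn : 1 ≤ n) :
    GS s R n = ∑ g ∈ n.divisors.filter (fun g => Nat.Coprime g s),
      (ArithmeticFunction.moebius g : ℝ) * SZ (R / g) (n * s) := by
  unfold GS SZ
  simp_rw [Finset.mul_sum]
  rw [Finset.sum_sigma']
  have hsq : ∀ r : ℕ, (ArithmeticFunction.moebius r : ℝ) / (Nat.totient r : ℝ) * cr r (n : ℤ) ≠ 0 →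
      Squarefree r := by
    intro r h
    by_contra hns
    apply h
    rw [ArithmeticFunction.moebius_eq_zero_of_not_squarefree hns]
    simp
  refine Finset.sum_bij_ne_zero (fun r _ _ => (⟨Nat.gcd r n, r / Nat.gcd r n⟩ : (_ : ℕ) × ℕ))
    ?_ ?_ ?_ ?_
  · intro r hr hne
    obtain ⟨e1, e2, e3⟩ := ARB_key (n := n) (hsq r hne)
    rw [mem_filter, Finset.mem_Icc] at hr
    obtain ⟨⟨r1, r2⟩, r3⟩ := hr
    rw [Finset.mem_sigma, mem_filter, mem_filter, Finset.mem_Icc, Nat.mem_divisors]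
    have hgpos : 0 < Nat.gcd r n := Nat.gcd_pos_of_pos_left _ r1
    refine ⟨⟨⟨Nat.gcd_dvd_right r n, by omega⟩,
      Nat.Coprime.coprime_dvd_left (Nat.gcd_dvd_left r n) r3⟩, ⟨?_, ?_⟩, ?_⟩
    · exact Nat.div_pos (Nat.le_of_dvd r1 (Nat.gcd_dvd_left r n)) hgpos
    · exact Nat.div_le_div_right r2
    · exact Nat.Coprime.mul_right e2
        (Nat.Coprime.coprime_dvd_left (Nat.div_dvd_of_dvd (Nat.gcd_dvd_left r n)) r3)
  · intro r hr hne r' hr' hne' heq
    obtain ⟨e1, -, -⟩ := ARB_key (n := n) (hsq r hne)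
    obtain ⟨e1', -, -⟩ := ARB_key (n := n) (hsq r' hne')
    rw [Sigma.mk.injEq] at heq
    obtain ⟨h1, h2⟩ := heq
    have h3 := eq_of_heq h2
    calc r = Nat.gcd r n * (r / Nat.gcd r n) := e1
      _ = Nat.gcd r' n * (r' / Nat.gcd r' n) := congrArg₂ (· * ·) h1 h3
      _ = r' := e1'.symm
  · rintro ⟨g, k⟩ hgk hne
    simp only at hne
    rw [Finset.mem_sigma, mem_filter, mem_filter, Finset.mem_Icc, Nat.mem_divisors] at hgk
    obtain ⟨⟨⟨g1, _⟩, g2⟩, ⟨k1, k2⟩, k3⟩ := hgk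
    simp only at g1 g2 k1 k2 k3
    have hg0 : 0 < g := Nat.pos_of_dvd_of_pos g1 (by omega)
    have hgsq : Squarefree g := by
      by_contra hns
      apply hne
      rw [ArithmeticFunction.moebius_eq_zero_of_not_squarefree hns]
      simp
    have hksq : Squarefree k := by
      by_contra hns
      apply hne
      rw [ArithmeticFunction.moebius_eq_zero_of_not_squarefree hns]
      simp
    have kn : Nat.Coprime k n := Nat.Coprime.coprime_mul_right_right k3
    have ks : Nat.Coprime k s := Nat.Coprime.coprime_mul_left_right k3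
    have gk : Nat.Coprime g k := (Nat.Coprime.coprime_dvd_right g1 kn).symm
    have hsq' : Squarefree (g * k) := (Nat.squarefree_mul gk).2 ⟨hgsq, hksq⟩
    have hgcd : Nat.gcd (g * k) n = g := by
      rw [Nat.Coprime.gcd_mul_right_cancel g kn]
      exact Nat.gcd_eq_left g1
    have hdiv : g * k / g = k := Nat.mul_div_cancel_left k hg0
    have hle : g * k ≤ R := by
      have := (Nat.le_div_iff_mul_le hg0).1 k2
      rwa [mul_comm] at this
    obtain ⟨-, -, e3⟩ := ARB_key (n := n) hsq'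
    rw [hgcd, hdiv] at e3
    refine ⟨g * k, ?_, ?_, ?_⟩
    · rw [mem_filter, Finset.mem_Icc]
      exact ⟨⟨Nat.mul_pos hg0 k1, hle⟩, Nat.Coprime.mul_left g2 ks⟩
    · rw [e3]
      exact hne
    · rw [hgcd, hdiv]
  · intro r hr hne
    exact (ARB_key (n := n) (hsq r hne)).2.2

theorem abs_GS_le (s R : ℕ) {n : ℕ} (hn : 1 ≤ n) : |GS s R n| ≤ (n.divisors.card : ℝ) * LL R := by
  rw [GS_eq s R hn]
  refine (Finset.abs_sum_le_sum_abs _ _).trans ?_
  have h1 : ∀ g ∈ n.divisors.filter (fun g => Nat.Coprime g s),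
      |(ArithmeticFunction.moebius g : ℝ) * SZ (R / g) (n * s)| ≤ LL R := by
    intro g _
    rw [abs_mul, abs_of_nonneg (SZ_nonneg _ _)]
    have e1 : |(ArithmeticFunction.moebius g : ℝ)| ≤ 1 := by
      have := ArithmeticFunction.abs_moebius_le_one (n := g)
      exact_mod_cast this
    refine (mul_le_of_le_one_left (SZ_nonneg _ _) e1).trans ?_
    exact (SZ_le _ _).trans (LL_mono (Nat.div_le_self R g))
  refine (Finset.sum_le_card_nsmul _ _ _ h1).trans ?_
  rw [nsmul_eq_mul]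
  refine mul_le_mul_of_nonneg_right ?_ (LL_nonneg R)
  exact_mod_cast card_filter_le _ _

theorem GG_prime {y p : ℕ} (hp : p.Prime) (h : y < p) : GG y p = LL y := by
  unfold GG LL
  refine Finset.sum_congr rfl fun r hr => ?_
  rw [Finset.mem_Icc] at hr
  have h1 : Nat.Coprime r p :=
    ((Nat.Prime.coprime_iff_not_dvd hp).2 (Nat.not_dvd_of_pos_of_lt hr.1 (by omega))).symm
  rw [cr_coprime h1]
  ring

end H69BG
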