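import Pool.Agent.H69.BG.ArA

/-!
# ARC: `G_R(s n)`

* `GG_mul_small`: termwise by `cr_coprime_mul` (every `q ≤ y` is coprime to `s`).
* `GG_mul`: only squarefree `r` contribute (`μ(r) = 0` otherwise). For squarefree `r ≤ R` put `T = gcd(r, s) ∣ s`, `r' = r/T`: `(T, r') = 1` and `(r', s) = 1` (a prime dividing `r'` and `s` divides `T`, so its
  square divides `r`); `cr_mul`: `c_r(sn) = c_T(sn) c_{r'}(sn) = φ(T) c_{r'}(n)` by `cr_of_dvd` (`T ∣ s n`) and `cr_coprime_mul`; so `(μ(r)/φ(r)) c_r(sn) = μ(T) (μ(r')/φ(r')) c_{r'}(n)`.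
  Conversely for `T ∣ s` and `r' ≤ R/T` squarefree and coprime to `s`, `r = T r' ≤ R` is squarefree (`s` squarefree) with `gcd(r, s) = T`. (`Finset.sum_bij'`/`Finset.sum_nbij'`,
  `Finset.sum_sigma'`, or `Finset.sum_fiberwise_of_maps_to` with `r ↦ gcd(r, s)`; `r' ≤ R / T ↔ T r' ≤ R`: `Nat.le_div_iff_mul_le`.) `s ≠ 0` as `s` is squarefree.
-/

open Finset H69LB

namespace H69BG

theorem GG_mul_small {y s : ℕ} (h : ∀ q, 1 ≤ q → q ≤ y → Nat.Coprime q s) (n : ℤ) : GG y (s * n) = GG y n := by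
  unfold GG
  refine Finset.sum_congr rfl fun q hq => ?_
  rw [Finset.mem_Icc] at hq
  rw [cr_coprime_mul (h q hq.1 hq.2)]

private lemma ARC_term {s T r : ℕ} (hT : T ∣ s) (hT0 : T ≠ 0) (hr : Nat.Coprime r s) (n : ℤ) :
    (ArithmeticFunction.moebius (T * r) : ℝ) / (Nat.totient (T * r) : ℝ) * cr (T * r) (s * n) =
      (ArithmeticFunction.moebius T : ℝ) *
        ((ArithmeticFunction.moebius r : ℝ) / (Nat.totient r : ℝ) * cr r n) := by
  have hc : Nat.Coprime T r := (Nat.Coprime.coprime_dvd_right hT hr).symm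
  have hTn : ((T : ℕ) : ℤ) ∣ (s : ℤ) * n := Dvd.dvd.mul_right (Int.natCast_dvd_natCast.2 hT) n
  rw [cr_mul hc, cr_of_dvd hTn, cr_coprime_mul hr, Nat.totient_mul hc,
    ArithmeticFunction.isMultiplicative_moebius.map_mul_of_coprime hc]
  have hφ : ((Nat.totient T : ℕ) : ℝ) ≠ 0 := by
    exact_mod_cast (Nat.totient_pos.2 (Nat.pos_of_ne_zero hT0)).ne'
  push_cast
  rcases eq_or_ne ((Nat.totient r : ℕ) : ℝ) 0 with h0 | h0
  · rw [h0]; simp
  · field_simp

private lemma ARC_gcd {s T r : ℕ} (hT : T ∣ s) (hr : Nat.Coprime r s) : Nat.gcd (T * r) s = T := by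
  rw [Nat.Coprime.gcd_mul_right_cancel T hr]
  exact Nat.gcd_eq_left hT

theorem GG_mul {s : ℕ} (hs : Squarefree s) (R : ℕ) (n : ℤ) :
    GG R (s * n) = ∑ T ∈ s.divisors, (ArithmeticFunction.moebius T : ℝ) * GS s (R / T) n := by
  classical
  have hs0 : s ≠ 0 := hs.ne_zero
  set F : ℕ → ℝ := fun r =>
    (ArithmeticFunction.moebius r : ℝ) / (Nat.totient r : ℝ) * cr r (s * n) with hF
  set I : ℕ → Finset ℕ := fun T => (Icc 1 (R / T)).filter (fun r => Nat.Coprime r s) with hI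
  have hR : ∑ T ∈ s.divisors, (ArithmeticFunction.moebius T : ℝ) * GS s (R / T) n =
      ∑ x ∈ s.divisors.sigma I, F (x.1 * x.2) := by
    rw [Finset.sum_sigma]
    refine Finset.sum_congr rfl fun T hT => ?_
    unfold GS
    rw [Finset.mul_sum]
    refine Finset.sum_congr rfl fun r hr => ?_
    rw [Finset.mem_filter] at hr
    exact (ARC_term (Nat.dvd_of_mem_divisors hT) (Nat.pos_of_mem_divisors hT).ne' hr.2 n).symm
  have hinj : Set.InjOn (fun x : (_ : ℕ) × ℕ => x.1 * x.2) (s.divisors.sigma I : Set ((_ : ℕ) × ℕ)) := by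
    rintro ⟨T, r⟩ hx ⟨T', r'⟩ hx' hxx
    simp only [Finset.coe_sigma, Set.mem_sigma_iff, Finset.mem_coe] at hx hx'
    have hr := (Finset.mem_filter.1 hx.2).2
    have hr' := (Finset.mem_filter.1 hx'.2).2
    have hTs := Nat.dvd_of_mem_divisors hx.1
    have hTs' := Nat.dvd_of_mem_divisors hx'.1
    have hT0 := Nat.pos_of_mem_divisors hx.1
    have h1 := ARC_gcd hTs hr
    have h2 := ARC_gcd hTs' hr'
    simp only at hxx
    rw [hxx, h2] at h1
    subst h1
    have h3 := Nat.eq_of_mul_eq_mul_left hT0 hxx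
    rw [h3]
  rw [hR, ← Finset.sum_image (f := F) hinj]
  symm
  show ∑ r ∈ (s.divisors.sigma I).image (fun x : (_ : ℕ) × ℕ => x.1 * x.2), F r = ∑ r ∈ Icc 1 R, F r
  refine Finset.sum_subset ?_ ?_
  · intro r hr
    obtain ⟨⟨T, r'⟩, hx, rfl⟩ := Finset.mem_image.1 hr
    rw [Finset.mem_sigma] at hx
    have hT0 := Nat.pos_of_mem_divisors hx.1
    have h1 := (Finset.mem_filter.1 hx.2).1
    rw [Finset.mem_Icc] at h1 ⊢
    refine ⟨Nat.mul_pos hT0 h1.1, ?_⟩
    calc T * r' ≤ T * (R / T) := Nat.mul_le_mul_left T h1.2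
      _ ≤ R := Nat.mul_div_le R T
  · intro r hr hnot
    rw [Finset.mem_Icc] at hr
    have hμ : ArithmeticFunction.moebius r = 0 := by
      refine ArithmeticFunction.moebius_eq_zero_of_not_squarefree fun hsq => hnot ?_
      have hg0 : 0 < Nat.gcd r s := Nat.gcd_pos_of_pos_left s hr.1
      have hgr : Nat.gcd r s ∣ r := Nat.gcd_dvd_left r s
      have hgs : Nat.gcd r s ∣ s := Nat.gcd_dvd_right r s
      have hmul : Nat.gcd r s * (r / Nat.gcd r s) = r := Nat.mul_div_cancel' hgr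
      have hcop : Nat.Coprime (r / Nat.gcd r s) s := by
        rw [Nat.coprime_iff_gcd_eq_one]
        by_contra hne
        obtain ⟨p, hp, hpd⟩ := Nat.exists_prime_and_dvd hne
        have hp1 : p ∣ r / Nat.gcd r s := hpd.trans (Nat.gcd_dvd_left _ _)
        have hp2 : p ∣ s := hpd.trans (Nat.gcd_dvd_right _ _)
        have hp3 : p ∣ Nat.gcd r s :=
          Nat.dvd_gcd (hp1.trans (Nat.div_dvd_of_dvd hgr)) hp2
        have hpp : p * p ∣ r := by
          rw [← hmul]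
          exact Nat.mul_dvd_mul hp3 hp1
        exact hp.one_lt.ne' (Nat.isUnit_iff.1 (hsq p hpp))
      refine Finset.mem_image.2 ⟨⟨Nat.gcd r s, r / Nat.gcd r s⟩, ?_, hmul⟩
      rw [Finset.mem_sigma]
      refine ⟨Nat.mem_divisors.2 ⟨hgs, hs0⟩, Finset.mem_filter.2 ⟨Finset.mem_Icc.2 ⟨?_, ?_⟩, hcop⟩⟩
      · exact Nat.div_pos (Nat.le_of_dvd hr.1 hgr) hg0
      · exact Nat.div_le_div_right hr.2
    simp only [hF, hμ]
    simp

end H69BG
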