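import Pool.Agent.H69.BG.ArDefs

/-!
# ARD: smooth sums over the multiples of `d`

Let `F(v) = W(log(d v/X))` for `v > 0` and `F(v) = 0` for `v ≤ 0`; `F(v) = 0` for `v ≤ (X/d) e^{-M}` and for `v ≥ (X/d) e^M`, so `F` is `C¹` on `ℝ`. The sum is `∑_{m=1}^{N} F(m)` with `N = NN M X / d` (`n = d m`,
`n ≤ NN M X ↔ m ≤ NN M X / d`); `N = ⌊(X/d) e^M⌋` (`Nat.floor_div_natCast`), so `F(v) = 0` for `v ≥ N + 1`. For every `m`: `|F(m) - ∫_{m-1}^{m} F| ≤ ∫_{m-1}^m |F'|`
(`F(m) - F(v) = ∫_v^m F'`, `intervalIntegral.integral_eq_sub_of_hasDerivAt`). Summing over `m = 1, ..., N+1` (`F(N+1) = 0`): `|∑_{m ≤ N} F(m) - ∫_0^{N+1} F| ≤ ∫_0^{N+1} |F'| ≤ ∫_0^∞ |W'(log(dv/X))| dv/v = ∫ |W'(η)| dη =: C`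
(substitution `v = (X/d) e^η`), and `∫_0^{N+1} F = ∫_0^∞ W(log(dv/X)) dv = (X/d) ∫ W(η) e^η dη = (X/d) Wm W`. The substitution: for continuous `G` with compact support in `(0,∞)`,
`∫_{v>0} G(v) dv = ∫_η G(e^η) e^η dη` (`MeasureTheory.integral_image_eq_integral_abs_deriv_smul` with `Real.exp`, `Set.univ`; or `integral_comp_mul_deriv`-type lemmas on the interval `[-M, M]`:
`∫_{c e^{-M}}^{c e^{M}} G = ∫_{-M}^{M} G(c e^η) c e^η dη`, `intervalIntegral.integral_comp_mul_deriv`). One may also work only with interval integrals over `[c e^{-M}, c e^M]`, `c = X/d`.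
-/

open Finset H69LB

namespace H69BG

private theorem Ard_step {F F' : ℝ → ℝ} (hF : ∀ v, HasDerivAt F (F' v) v) (hc : Continuous F') (m : ℝ) :
    |F (m + 1) - ∫ v in m..(m + 1), F v| ≤ ∫ v in m..(m + 1), |F' v| := by
  have hFc : Continuous F := continuous_iff_continuousAt.2 fun v => (hF v).continuousAt
  have h1 : F (m + 1) - ∫ v in m..(m + 1), F v = ∫ v in m..(m + 1), (F (m + 1) - F v) := by
    rw [intervalIntegral.integral_sub (by simp) (hFc.intervalIntegrable _ _)]
    simp
  rw [h1, ← Real.norm_eq_abs]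
  have h2 := intervalIntegral.norm_integral_le_of_norm_le_const (a := m) (b := m + 1)
    (f := fun v => F (m + 1) - F v) (C := ∫ v in m..(m + 1), |F' v|) (fun v hv => ?_)
  · refine h2.trans (le_of_eq ?_)
    simp
  · rw [Set.uIoc_of_le (by linarith)] at hv
    have h3 : F (m + 1) - F v = ∫ w in v..(m + 1), F' w :=
      (intervalIntegral.integral_eq_sub_of_hasDerivAt (fun w _ => hF w) (hc.intervalIntegrable _ _)).symm
    rw [h3, Real.norm_eq_abs]
    refine (intervalIntegral.abs_integral_le_integral_abs hv.2).trans ?_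
    exact intervalIntegral.integral_mono_interval hv.1.le hv.2 le_rfl
      (Filter.Eventually.of_forall fun w => abs_nonneg _) (hc.abs.intervalIntegrable _ _)

private theorem Ard_sum {F F' : ℝ → ℝ} (hF : ∀ v, HasDerivAt F (F' v) v) (hc : Continuous F') (N : ℕ) :
    |∑ m ∈ range N, F (m + 1) - ∫ v in (0 : ℝ)..N, F v| ≤ ∫ v in (0 : ℝ)..N, |F' v| := by
  have hFc : Continuous F := continuous_iff_continuousAt.2 fun v => (hF v).continuousAt
  have h1 := intervalIntegral.sum_integral_adjacent_intervals (f := F) (μ := MeasureTheory.volume)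
    (a := fun k : ℕ => (k : ℝ)) (n := N) (fun k _ => hFc.intervalIntegrable _ _)
  have h2 := intervalIntegral.sum_integral_adjacent_intervals (f := fun v => |F' v|) (μ := MeasureTheory.volume)
    (a := fun k : ℕ => (k : ℝ)) (n := N) (fun k _ => hc.abs.intervalIntegrable _ _)
  simp only [Nat.cast_zero, Nat.cast_add, Nat.cast_one] at h1 h2
  rw [← h1, ← h2, ← Finset.sum_sub_distrib]
  exact (Finset.abs_sum_le_sum_abs _ _).trans (Finset.sum_le_sum fun m _ => Ard_step hF hc m)

private theorem Ard_deriv {M : ℝ} {W : ℝ → ℝ} (hW : WS M W) {η : ℝ} (h : M < |η|) : deriv W η = 0 := by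
  have h1 : W =ᶠ[nhds η] fun _ => 0 := by
    filter_upwards [(isOpen_lt continuous_const continuous_abs).mem_nhds h] with y hy
    exact hW.zero y (le_of_lt hy)
  rw [h1.deriv_eq]
  simp

/-- the sum over all `m` -/
private theorem Ard_main {M : ℝ} (hM : 0 < M) {W : ℝ → ℝ} (hW : WS M W) {c : ℝ} (hc : 0 < c) (N : ℕ)
    (hN : c * Real.exp M < N + 1) :
    |∑ m ∈ Icc 1 N, W (Real.log (m / c)) - c * Wm W| ≤ ∫ η in (-M)..M, |deriv W η| := by
  have hdW : Continuous (deriv W) := hW.smooth.continuous_deriv (by simp)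
  have hWd : ∀ η, HasDerivAt W (deriv W η) η := fun η =>
    (hW.smooth.differentiable (by simp)).differentiableAt.hasDerivAt
  have hWc : Continuous W := hW.smooth.continuous
  set F : ℝ → ℝ := fun v => if 0 < v then W (Real.log (v / c)) else 0 with hFdef
  set F' : ℝ → ℝ := fun v => if 0 < v then deriv W (Real.log (v / c)) / v else 0 with hF'def
  set a0 := c * Real.exp (-M) with ha0
  set b0 := c * Real.exp M with hb0
  have ha0p : 0 < a0 := by positivity
  have hab : a0 ≤ b0 := mul_le_mul_of_nonneg_left (Real.exp_le_exp.2 (by linarith)) hc.le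
  have hlow : ∀ v, 0 < v → v < a0 → Real.log (v / c) < -M := by
    intro v hv0 hv
    rw [Real.log_lt_iff_lt_exp (by positivity), div_lt_iff₀ hc, mul_comm]
    exact hv
  have hup : ∀ v, b0 ≤ v → M ≤ Real.log (v / c) := by
    intro v hv
    have hv0 : 0 < v := lt_of_lt_of_le (lt_of_lt_of_le ha0p hab) hv
    rw [Real.le_log_iff_exp_le (by positivity), le_div_iff₀ hc, mul_comm]
    exact hv
  have hF0 : ∀ v, v < a0 → F v = 0 := by
    intro v hv
    simp only [hFdef]
    split_ifs with h
    · apply hW.zero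
      have := hlow v h hv
      rw [abs_of_neg (by linarith)]
      linarith
    · rfl
  have hF0' : ∀ v, v < a0 → F' v = 0 := by
    intro v hv
    simp only [hF'def]
    split_ifs with h
    · have := hlow v h hv
      rw [Ard_deriv hW (by rw [abs_of_neg (by linarith)]; linarith), zero_div]
    · rfl
  have hF1 : ∀ v, b0 ≤ v → F v = 0 := by
    intro v hv
    have := hup v hv
    simp only [hFdef]
    split_ifs with h
    · apply hW.zero
      rw [abs_of_pos (by linarith)]
      exact this
    · rfl
  have hFder : ∀ v, HasDerivAt F (F' v) v := by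
    intro v
    rcases lt_or_ge v a0 with hv | hv
    · rw [hF0' v hv]
      have h1 : F =ᶠ[nhds v] fun _ => 0 := by
        filter_upwards [isOpen_Iio.mem_nhds hv] with y hy
        exact hF0 y hy
      exact (hasDerivAt_const v (0 : ℝ)).congr_of_eventuallyEq h1
    · have hv0 : 0 < v := lt_of_lt_of_le ha0p hv
      have h1 : F =ᶠ[nhds v] fun v => W (Real.log (v / c)) := by
        filter_upwards [isOpen_Ioi.mem_nhds hv0] with y hy
        simp only [hFdef, if_pos (Set.mem_Ioi.1 hy)]
      have h2 : HasDerivAt (fun v => Real.log (v / c)) (1 / v) v := by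
        have h3 : HasDerivAt (fun v : ℝ => v / c) (1 / c) v := (hasDerivAt_id v).div_const c
        have h4 := h3.log (by positivity)
        convert h4 using 1
        field_simp
      have h3 := (hWd (Real.log (v / c))).comp v h2
      refine (h3.congr_of_eventuallyEq h1).congr_deriv ?_
      simp only [hF'def, if_pos hv0]
      ring
  have hF'c : Continuous F' := by
    rw [continuous_iff_continuousAt]
    intro v
    rcases lt_or_ge v a0 with hv | hv
    · have h1 : F' =ᶠ[nhds v] fun _ => 0 := by
        filter_upwards [isOpen_Iio.mem_nhds hv] with y hy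
        exact hF0' y hy
      exact continuousAt_const.congr h1.symm
    · have hv0 : 0 < v := lt_of_lt_of_le ha0p hv
      have h1 : F' =ᶠ[nhds v] fun v => deriv W (Real.log (v / c)) / v := by
        filter_upwards [isOpen_Ioi.mem_nhds hv0] with y hy
        simp only [hF'def, if_pos (Set.mem_Ioi.1 hy)]
      refine ContinuousAt.congr ?_ h1.symm
      refine ContinuousAt.div ?_ continuousAt_id hv0.ne'
      refine hdW.continuousAt.comp ?_
      refine ContinuousAt.log (by fun_prop) (by positivity)
  have hFc : Continuous F := continuous_iff_continuousAt.2 fun v => (hFder v).continuousAt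
  -- the three intervals
  have hN1 : b0 ≤ ((N + 1 : ℕ) : ℝ) := by
    push_cast
    exact hN.le
  have hI : ∫ v in (0 : ℝ)..((N + 1 : ℕ) : ℝ), F v = c * Wm W := by
    have e1 : ∫ v in (0 : ℝ)..a0, F v = 0 := by
      rw [intervalIntegral.integral_of_le ha0p.le, MeasureTheory.integral_Ioc_eq_integral_Ioo]
      refine MeasureTheory.setIntegral_eq_zero_of_forall_eq_zero fun v hv => hF0 v hv.2
    have e2 : ∫ v in b0..((N + 1 : ℕ) : ℝ), F v = 0 := by
      rw [intervalIntegral.integral_of_le hN1]
      exact MeasureTheory.setIntegral_eq_zero_of_forall_eq_zero fun v hv => hF1 v hv.1.le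
    have e3 : ∫ v in a0..b0, F v = c * Wm W := by
      have := intervalIntegral.integral_comp_mul_deriv (a := -M) (b := M) (f := fun η => c * Real.exp η)
        (f' := fun η => c * Real.exp η) (g := F) (fun η _ => (Real.hasDerivAt_exp η).const_mul c)
        (by fun_prop) hFc
      rw [← ha0, ← hb0] at this
      rw [← this]
      have e4 : Wm W = ∫ η in (-M)..M, W η * Real.exp η := by
        unfold Wm
        refine (intervalIntegral.integral_eq_integral_of_support_subset ?_).symm
        intro η hη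
        have h1 : W η ≠ 0 := fun h => hη (by simp [h])
        have h2 : |η| < M := by
          by_contra h
          exact h1 (hW.zero η (not_lt.1 h))
        exact ⟨(abs_lt.1 h2).1, (abs_lt.1 h2).2.le⟩
      rw [e4, ← intervalIntegral.integral_const_mul]
      refine intervalIntegral.integral_congr fun η _ => ?_
      have h5 : 0 < c * Real.exp η := by positivity
      simp only [Function.comp_apply, hFdef, if_pos h5]
      rw [mul_div_cancel_left₀ _ hc.ne', Real.log_exp]
      ring
    rw [← intervalIntegral.integral_add_adjacent_intervals (hFc.intervalIntegrable 0 b0)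
      (hFc.intervalIntegrable _ _), ← intervalIntegral.integral_add_adjacent_intervals
      (hFc.intervalIntegrable 0 a0) (hFc.intervalIntegrable _ _), e1, e2, e3]
    ring
  have hI' : ∫ v in (0 : ℝ)..((N + 1 : ℕ) : ℝ), |F' v| ≤ ∫ η in (-M)..M, |deriv W η| := by
    have e1 : ∫ v in (0 : ℝ)..a0, |F' v| = 0 := by
      rw [intervalIntegral.integral_of_le ha0p.le, MeasureTheory.integral_Ioc_eq_integral_Ioo]
      refine MeasureTheory.setIntegral_eq_zero_of_forall_eq_zero fun v hv => ?_
      rw [hF0' v hv.2, abs_zero]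
    have e2 : ∫ v in b0..((N + 1 : ℕ) : ℝ), |F' v| = 0 := by
      rw [intervalIntegral.integral_of_le hN1]
      refine MeasureTheory.setIntegral_eq_zero_of_forall_eq_zero fun v hv => ?_
      have hv0 : 0 < v := (lt_of_lt_of_le ha0p hab).trans hv.1
      have h1 : M < Real.log (v / c) := by
        rw [Real.lt_log_iff_exp_lt (by positivity), lt_div_iff₀ hc, mul_comm]
        exact hv.1
      simp only [hF'def, if_pos hv0]
      rw [Ard_deriv hW (by rw [abs_of_pos (by linarith)]; exact h1), zero_div, abs_zero]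
    have e3 : ∫ v in a0..b0, |F' v| = ∫ η in (-M)..M, |deriv W η| := by
      have := intervalIntegral.integral_comp_mul_deriv (a := -M) (b := M) (f := fun η => c * Real.exp η)
        (f' := fun η => c * Real.exp η) (g := fun v => |F' v|)
        (fun η _ => (Real.hasDerivAt_exp η).const_mul c) (by fun_prop) hF'c.abs
      rw [← ha0, ← hb0] at this
      rw [← this]
      refine intervalIntegral.integral_congr fun η _ => ?_
      have h5 : 0 < c * Real.exp η := by positivity
      simp only [Function.comp_apply, hF'def, if_pos h5]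
      rw [mul_div_cancel_left₀ _ hc.ne', Real.log_exp, abs_div, abs_of_pos h5, div_mul_cancel₀ _ h5.ne']
    rw [← intervalIntegral.integral_add_adjacent_intervals (hF'c.abs.intervalIntegrable 0 b0)
      (hF'c.abs.intervalIntegrable _ _), ← intervalIntegral.integral_add_adjacent_intervals
      (hF'c.abs.intervalIntegrable 0 a0) (hF'c.abs.intervalIntegrable _ _), e1, e2, e3]
    simp
  have hS := Ard_sum hFder hF'c (N + 1)
  rw [hI] at hS
  refine le_trans (le_of_eq ?_) (hS.trans hI')
  congr 2
  rw [Finset.sum_range_succ]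
  have h1 : F ((N : ℝ) + 1) = 0 := hF1 _ (by push_cast at hN1; exact hN1)
  rw [h1, add_zero, Finset.range_eq_Ico]
  have h2 := Finset.sum_Ico_add' (fun k : ℕ => F (k : ℝ)) 0 N 1
  simp only [Nat.cast_add, Nat.cast_one] at h2
  rw [h2]
  refine Finset.sum_congr (by ext; simp [Nat.lt_succ_iff]) fun k hk => ?_
  have hk1 : 0 < (k : ℝ) := by
    have := (Finset.mem_Icc.1 hk).1
    exact_mod_cast this
  simp only [hFdef, if_pos hk1]

theorem sum_dvd {M : ℝ} (hM : 0 < M) {W : ℝ → ℝ} (hW : WS M W) :
    ∃ C : ℝ, 0 ≤ C ∧ ∀ X : ℝ, 0 < X → ∀ d : ℕ, 1 ≤ d →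
      |∑ n ∈ (Icc 1 (NN M X)).filter (fun n => d ∣ n), W (Real.log (n / X)) - X / d * Wm W| ≤ C := by
  refine ⟨∫ η in (-M)..M, |deriv W η|, ?_, fun X hX d hd => ?_⟩
  · exact intervalIntegral.integral_nonneg (by linarith) fun _ _ => abs_nonneg _
  have hd0 : (0 : ℝ) < d := by exact_mod_cast hd
  have hc : 0 < X / d := by positivity
  have hN : X / d * Real.exp M < ((NN M X / d : ℕ) : ℝ) + 1 := by
    have h1 : NN M X / d = ⌊X * Real.exp M / d⌋₊ := by
      rw [NN, Nat.floor_div_natCast]
    rw [h1]
    have h2 := Nat.lt_floor_add_one (X * Real.exp M / d)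
    calc X / d * Real.exp M = X * Real.exp M / d := by ring
      _ < _ := h2
  have h := Ard_main hM hW hc _ hN
  refine le_trans (le_of_eq ?_) h
  congr 2
  refine Finset.sum_nbij' (fun n => n / d) (fun m => d * m) ?_ ?_ ?_ ?_ ?_
  · intro n hn
    rw [Finset.mem_filter, Finset.mem_Icc] at hn
    rw [Finset.mem_Icc]
    exact ⟨Nat.div_pos (Nat.le_of_dvd hn.1.1 hn.2) hd, Nat.div_le_div_right hn.1.2⟩
  · intro m hm
    rw [Finset.mem_Icc] at hm
    rw [Finset.mem_filter, Finset.mem_Icc]
    refine ⟨⟨Nat.mul_pos hd hm.1, ?_⟩, Dvd.intro m rfl⟩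
    rw [mul_comm]
    exact (Nat.le_div_iff_mul_le hd).1 hm.2
  · intro n hn
    exact Nat.mul_div_cancel' (Finset.mem_filter.1 hn).2
  · intro m _
    exact Nat.mul_div_cancel_left m hd
  · intro n hn
    obtain ⟨m, rfl⟩ := (Finset.mem_filter.1 hn).2
    rw [Nat.mul_div_cancel_left m hd]
    congr 2
    push_cast
    field_simp

end H69BG
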