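import Pool.Agent.H69.BG.Kap

/-!
# Definitions for section 6 (orthogonality of `g1` and `g2`) and for (F2), (F4), (F5)
-/

open Finset H69LB

namespace H69BG

/-- `σ(q) = ∑_{d ∣ q} d` -/
noncomputable def sg (q : ℕ) : ℝ := ∑ d ∈ q.divisors, (d : ℝ)

/-- `G^{(s)}_R(n) = ∑_{r ≤ R, (r,s)=1} (μ(r)/φ(r)) c_r(n)` -/
noncomputable def GS (s R : ℕ) (n : ℤ) : ℝ :=
  ∑ r ∈ (Icc 1 R).filter (fun r => Nat.Coprime r s),
    (ArithmeticFunction.moebius r : ℝ) / (Nat.totient r : ℝ) * cr r n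

/-- `B(s, R) = ∑_{n ≤ x e^M / s} W(log(sn/x)) G_y(n) G^{(s)}_R(n)` -/
noncomputable def BS (W : ℝ → ℝ) (M x : ℝ) (y s R : ℕ) : ℝ :=
  ∑ n ∈ Icc 1 (NN M x / s), W (Real.log ((s * n : ℕ) / x)) * GG y n * GS s R n

/-- `S(z; m) = ∑_{k ≤ z, (k,m)=1} μ(k)²/φ(k)` -/
noncomputable def SZ (z m : ℕ) : ℝ :=
  ∑ k ∈ (Icc 1 z).filter (fun k => Nat.Coprime k m),
    (ArithmeticFunction.moebius k : ℝ) ^ 2 / (Nat.totient k : ℝ)

/-- `f_m(k) = k μ(k)²/φ(k)` if `(k, m) = 1`, otherwise `0` -/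
noncomputable def ff (m : ℕ) : ArithmeticFunction ℝ :=
  ⟨fun k => if Nat.Coprime k m then (k : ℝ) * (ArithmeticFunction.moebius k : ℝ) ^ 2 / (Nat.totient k : ℝ) else 0,
    by simp⟩

/-- `h_m = f_m * μ` (Dirichlet convolution), so that `∑_{a ∣ k} h_m(a) = f_m(k)` -/
noncomputable def hh (m : ℕ) : ArithmeticFunction ℝ :=
  ff m * ((ArithmeticFunction.moebius : ArithmeticFunction ℤ) : ArithmeticFunction ℝ)

end H69BG
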