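import Pool.Agent.H69.BG.ArA
import Pool.Agent.H69.BG.ArD

/-!
# ARE: orthogonality of Ramanujan sums

* `orth`: `gcd(d, e) = ∑_{f ∣ d, f ∣ e} φ(f)` (`Nat.sum_totient` for `gcd(d,e)`), so the left side is `∑_{f ∣ q, f ∣ r} φ(f) (∑_{d : f ∣ d ∣ q} μ(q/d)) (∑_{e : f ∣ e ∣ r} μ(r/e))`, and
  `∑_{d : f ∣ d ∣ q} μ(q/d) = ∑_{d' ∣ q/f} μ((q/f)/d') = [q = f]` (`ArithmeticFunction.moebius_mul_coe_zeta`, `Nat.sum_div_divisors`); so only `f = q = r` remains.
* `ram`: insert the definitions: `c_q(n) c_r(n) = ∑_{d ∣ q, e ∣ r, d ∣ n, e ∣ n} d e μ(q/d) μ(r/e)`, and `d ∣ n ∧ e ∣ n ↔ lcm(d,e) ∣ n`. By `sum_dvd` with `lcm(d, e)`: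
  `∑_{n, lcm ∣ n} W = X/lcm(d,e) Wm + O(C)`; `d e/lcm(d,e) = gcd(d,e)`, so the main terms give `X Wm ∑ μ(q/d) μ(r/e) gcd(d,e)` (`orth`), the errors at most `C ∑ d ∑ e = C σ(q) σ(r)`.
-/

open Finset H69LB

namespace H69BG

private theorem ArE_sum_mu (m : ℕ) :
    ∑ d ∈ m.divisors, (ArithmeticFunction.moebius d : ℝ) = if m = 1 then 1 else 0 := by
  have h := congrArg (fun f : ArithmeticFunction ℤ => f m) ArithmeticFunction.moebius_mul_coe_zeta
  simp only [ArithmeticFunction.coe_mul_zeta_apply, ArithmeticFunction.one_apply] at h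
  have h2 := congrArg (fun z : ℤ => (z : ℝ)) h
  push_cast at h2
  rw [h2]

private theorem ArE_inner {q f : ℕ} (hq : 1 ≤ q) (hf : 1 ≤ f) :
    ∑ d ∈ q.divisors, (if f ∣ d then (ArithmeticFunction.moebius (q / d) : ℝ) else 0) =
      if f = q then 1 else 0 := by
  by_cases hfq : f ∣ q
  · obtain ⟨m, rfl⟩ := hfq
    have hm : 1 ≤ m := by
      rcases Nat.eq_zero_or_pos m with h | h
      · subst h
        simp at hq
      · exact h
    have h1 := Nat.sum_div_divisors (f * m)
      (fun d => if f ∣ (f * m) / d then (ArithmeticFunction.moebius d : ℝ) else 0)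
    have h2 : ∀ d ∈ (f * m).divisors,
        (if f ∣ (f * m) / ((f * m) / d) then (ArithmeticFunction.moebius ((f * m) / d) : ℝ) else 0) =
          (if f ∣ d then (ArithmeticFunction.moebius ((f * m) / d) : ℝ) else 0) := by
      intro d hd
      rw [Nat.div_div_self (Nat.dvd_of_mem_divisors hd) (by positivity)]
    rw [Finset.sum_congr rfl h2] at h1
    rw [h1]
    have h3 : ∑ d ∈ (f * m).divisors,
        (if f ∣ (f * m) / d then (ArithmeticFunction.moebius d : ℝ) else 0) =
          ∑ d ∈ m.divisors, (ArithmeticFunction.moebius d : ℝ) := by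
      rw [← Finset.sum_filter]
      refine Finset.sum_congr ?_ fun _ _ => rfl
      ext d
      simp only [Finset.mem_filter, Nat.mem_divisors]
      constructor
      · rintro ⟨⟨h4, -⟩, h5⟩
        refine ⟨?_, by omega⟩
        obtain ⟨c, hc⟩ := h4
        have hd : 0 < d := by
          rcases Nat.eq_zero_or_pos d with h | h
          · subst h
            simp at hc
            omega
          · exact h
        rw [hc, Nat.mul_div_cancel_left _ hd] at h5
        obtain ⟨c', rfl⟩ := h5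
        refine ⟨c', ?_⟩
        have : f * m = f * (d * c') := by rw [hc]; ring
        exact Nat.eq_of_mul_eq_mul_left hf this
      · rintro ⟨⟨c, rfl⟩, -⟩
        have hd : 0 < d := by
          rcases Nat.eq_zero_or_pos d with h | h
          · subst h
            simp at hm
          · exact h
        refine ⟨⟨⟨f * c, by ring⟩, ?_⟩, ?_⟩
        · have : 1 ≤ f * (d * c) := hq
          omega
        · refine ⟨c, ?_⟩
          have : f * (d * c) = d * (f * c) := by ring
          rw [this, Nat.mul_div_cancel_left _ hd]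
    rw [h3, ArE_sum_mu]
    by_cases h4 : m = 1
    · rw [if_pos h4, if_pos (by rw [h4, mul_one])]
    · rw [if_neg h4, if_neg]
      intro h5
      apply h4
      have : f * 1 = f * m := by rw [mul_one]; exact h5
      exact (Nat.eq_of_mul_eq_mul_left hf this).symm
  · rw [if_neg (show ¬ f = q from fun h => hfq (h ▸ dvd_rfl))]
    refine Finset.sum_eq_zero fun d hd => ?_
    rw [if_neg]
    intro h
    exact hfq (h.trans (Nat.dvd_of_mem_divisors hd))

theorem orth {q r : ℕ} (hq : 1 ≤ q) (hr : 1 ≤ r) :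
    ∑ d ∈ q.divisors, ∑ e ∈ r.divisors,
      (ArithmeticFunction.moebius (q / d) : ℝ) * (ArithmeticFunction.moebius (r / e) : ℝ) * (Nat.gcd d e : ℝ)
      = if q = r then (Nat.totient q : ℝ) else 0 := by
  have hg : ∀ d ∈ q.divisors, ∀ e ∈ r.divisors, (Nat.gcd d e : ℝ) =
      ∑ f ∈ q.divisors, (Nat.totient f : ℝ) * ((if f ∣ d then 1 else 0) * (if f ∣ e then 1 else 0)) := by
    intro d hd e he
    have h1 := Nat.sum_totient (Nat.gcd d e)
    have h2 : (Nat.gcd d e : ℝ) = ∑ f ∈ (Nat.gcd d e).divisors, (Nat.totient f : ℝ) := by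
      rw [← Nat.cast_sum, h1]
    rw [h2]
    have hd0 : 0 < d := Nat.pos_of_mem_divisors hd
    have h3 : (Nat.gcd d e).divisors = q.divisors.filter (fun f => f ∣ d ∧ f ∣ e) := by
      ext f
      simp only [Finset.mem_filter, Nat.mem_divisors]
      constructor
      · rintro ⟨h4, -⟩
        exact ⟨⟨(h4.trans (Nat.gcd_dvd_left _ _)).trans (Nat.dvd_of_mem_divisors hd), by omega⟩,
          h4.trans (Nat.gcd_dvd_left _ _), h4.trans (Nat.gcd_dvd_right _ _)⟩
      · rintro ⟨-, h5, h6⟩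
        exact ⟨Nat.dvd_gcd h5 h6, (Nat.gcd_pos_of_pos_left _ hd0).ne'⟩
    rw [h3, Finset.sum_filter]
    refine Finset.sum_congr rfl fun f _ => ?_
    by_cases h4 : f ∣ d <;> by_cases h5 : f ∣ e <;> simp [h4, h5]
  have h1 : ∑ d ∈ q.divisors, ∑ e ∈ r.divisors,
      (ArithmeticFunction.moebius (q / d) : ℝ) * (ArithmeticFunction.moebius (r / e) : ℝ) * (Nat.gcd d e : ℝ) =
      ∑ f ∈ q.divisors, (Nat.totient f : ℝ) *
        ((∑ d ∈ q.divisors, (if f ∣ d then (ArithmeticFunction.moebius (q / d) : ℝ) else 0)) *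
          (∑ e ∈ r.divisors, (if f ∣ e then (ArithmeticFunction.moebius (r / e) : ℝ) else 0))) := by
    have h2 : ∀ d ∈ q.divisors, ∑ e ∈ r.divisors,
        (ArithmeticFunction.moebius (q / d) : ℝ) * (ArithmeticFunction.moebius (r / e) : ℝ) * (Nat.gcd d e : ℝ) =
        ∑ e ∈ r.divisors, ∑ f ∈ q.divisors, (Nat.totient f : ℝ) *
          ((if f ∣ d then (ArithmeticFunction.moebius (q / d) : ℝ) else 0) *
            (if f ∣ e then (ArithmeticFunction.moebius (r / e) : ℝ) else 0)) := by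
      intro d hd
      refine Finset.sum_congr rfl fun e he => ?_
      rw [hg d hd e he, Finset.mul_sum]
      refine Finset.sum_congr rfl fun f _ => ?_
      by_cases h4 : f ∣ d <;> by_cases h5 : f ∣ e <;> simp [h4, h5]
      ring
    rw [Finset.sum_congr rfl h2]
    have h3 : ∀ d ∈ q.divisors, ∑ e ∈ r.divisors, ∑ f ∈ q.divisors, (Nat.totient f : ℝ) *
          ((if f ∣ d then (ArithmeticFunction.moebius (q / d) : ℝ) else 0) *
            (if f ∣ e then (ArithmeticFunction.moebius (r / e) : ℝ) else 0)) =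
        ∑ f ∈ q.divisors, ∑ e ∈ r.divisors, (Nat.totient f : ℝ) *
          ((if f ∣ d then (ArithmeticFunction.moebius (q / d) : ℝ) else 0) *
            (if f ∣ e then (ArithmeticFunction.moebius (r / e) : ℝ) else 0)) :=
      fun d _ => Finset.sum_comm
    rw [Finset.sum_congr rfl h3, Finset.sum_comm]
    refine Finset.sum_congr rfl fun f _ => ?_
    rw [Finset.sum_mul_sum, Finset.mul_sum]
    refine Finset.sum_congr rfl fun d _ => ?_
    rw [Finset.mul_sum]
  rw [h1]
  have h4 : ∀ f ∈ q.divisors, (Nat.totient f : ℝ) *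
        ((∑ d ∈ q.divisors, (if f ∣ d then (ArithmeticFunction.moebius (q / d) : ℝ) else 0)) *
          (∑ e ∈ r.divisors, (if f ∣ e then (ArithmeticFunction.moebius (r / e) : ℝ) else 0))) =
      if f = q then (if q = r then (Nat.totient q : ℝ) else 0) else 0 := by
    intro f hf
    have hf0 : 1 ≤ f := Nat.pos_of_mem_divisors hf
    rw [ArE_inner hq hf0, ArE_inner hr hf0]
    by_cases h5 : f = q
    · subst h5
      by_cases h6 : f = r
      · simp [h6]
      · simp [h6]
    · simp [h5]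
  rw [Finset.sum_congr rfl h4, Finset.sum_ite_eq' q.divisors q, if_pos (Nat.mem_divisors_self q (by omega))]

theorem ram {M : ℝ} (hM : 0 < M) {W : ℝ → ℝ} (hW : WS M W) :
    ∃ C : ℝ, 0 ≤ C ∧ ∀ X : ℝ, 0 < X → ∀ q r : ℕ, 1 ≤ q → 1 ≤ r →
      |∑ n ∈ Icc 1 (NN M X), W (Real.log (n / X)) * cr q n * cr r n
        - (if q = r then X * Wm W * (Nat.totient q : ℝ) else 0)| ≤ C * sg q * sg r := by
  obtain ⟨C, hC, H⟩ := sum_dvd hM hW
  refine ⟨C, hC, fun X hX q r hq hr => ?_⟩
  -- the inner sums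
  set S : ℕ → ℕ → ℝ := fun d e =>
    ∑ n ∈ (Icc 1 (NN M X)).filter (fun n => Nat.lcm d e ∣ n), W (Real.log (n / X)) with hS
  set a : ℕ → ℕ → ℝ := fun d e => ((d : ℝ) * (ArithmeticFunction.moebius (q / d) : ℝ)) *
    ((e : ℝ) * (ArithmeticFunction.moebius (r / e) : ℝ)) with ha
  have h1 : ∑ n ∈ Icc 1 (NN M X), W (Real.log (n / X)) * cr q n * cr r n =
      ∑ d ∈ q.divisors, ∑ e ∈ r.divisors, a d e * S d e := by
    have h2 : ∀ n ∈ Icc 1 (NN M X), W (Real.log (n / X)) * cr q n * cr r n =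
        ∑ d ∈ q.divisors, ∑ e ∈ r.divisors,
          a d e * (if Nat.lcm d e ∣ n then W (Real.log (n / X)) else 0) := by
      intro n _
      unfold cr
      rw [Finset.sum_filter, Finset.sum_filter, mul_assoc, Finset.sum_mul_sum, Finset.mul_sum]
      refine Finset.sum_congr rfl fun d _ => ?_
      rw [Finset.mul_sum]
      refine Finset.sum_congr rfl fun e _ => ?_
      rw [ha]
      simp only
      have e1 : ((d : ℤ) ∣ (n : ℤ)) ↔ d ∣ n := Int.natCast_dvd_natCast
      have e2 : ((e : ℤ) ∣ (n : ℤ)) ↔ e ∣ n := Int.natCast_dvd_natCast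
      have e3 : Nat.lcm d e ∣ n ↔ d ∣ n ∧ e ∣ n := Nat.lcm_dvd_iff
      by_cases h4 : d ∣ n <;> by_cases h5 : e ∣ n <;> simp [e1, e2, e3, h4, h5]
      ring
    rw [Finset.sum_congr rfl h2, Finset.sum_comm]
    refine Finset.sum_congr rfl fun d _ => ?_
    rw [Finset.sum_comm]
    refine Finset.sum_congr rfl fun e _ => ?_
    rw [hS]
    simp only
    rw [Finset.sum_filter, Finset.mul_sum]
  have h2 : (if q = r then X * Wm W * (Nat.totient q : ℝ) else 0) =
      ∑ d ∈ q.divisors, ∑ e ∈ r.divisors, a d e * (X / (Nat.lcm d e : ℕ) * Wm W) := by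
    have h3 : (if q = r then X * Wm W * (Nat.totient q : ℝ) else 0) =
        X * Wm W * (if q = r then (Nat.totient q : ℝ) else 0) := by
      split_ifs <;> simp
    rw [h3, ← orth hq hr, Finset.mul_sum]
    refine Finset.sum_congr rfl fun d hd => ?_
    rw [Finset.mul_sum]
    refine Finset.sum_congr rfl fun e he => ?_
    have hd0 : 0 < d := Nat.pos_of_mem_divisors hd
    have he0 : 0 < e := Nat.pos_of_mem_divisors he
    have hl0 : (0 : ℝ) < (Nat.lcm d e : ℕ) := by exact_mod_cast Nat.lcm_pos hd0 he0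
    have h4 : (Nat.gcd d e : ℝ) * (Nat.lcm d e : ℕ) = d * e := by
      exact_mod_cast Nat.gcd_mul_lcm d e
    rw [ha]
    simp only
    have h5 : (Nat.gcd d e : ℝ) = d * e / (Nat.lcm d e : ℕ) := by
      rw [eq_div_iff hl0.ne', h4]
    rw [h5]
    ring
  rw [h1, h2, ← Finset.sum_sub_distrib]
  have h3 : ∀ d ∈ q.divisors, |∑ e ∈ r.divisors, a d e * S d e -
      ∑ e ∈ r.divisors, a d e * (X / (Nat.lcm d e : ℕ) * Wm W)| ≤ ∑ e ∈ r.divisors, C * (d * e) := by
    intro d hd
    rw [← Finset.sum_sub_distrib]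
    refine (Finset.abs_sum_le_sum_abs _ _).trans (Finset.sum_le_sum fun e he => ?_)
    have hd0 : 0 < d := Nat.pos_of_mem_divisors hd
    have he0 : 0 < e := Nat.pos_of_mem_divisors he
    rw [← mul_sub, abs_mul]
    have h6 := H X hX (Nat.lcm d e) (Nat.lcm_pos hd0 he0)
    have h7 : |a d e| ≤ d * e := by
      rw [ha]
      simp only
      rw [abs_mul, abs_mul, abs_mul, Nat.abs_cast, Nat.abs_cast]
      have m1 : |(ArithmeticFunction.moebius (q / d) : ℝ)| ≤ 1 := by
        rw [← Int.cast_abs]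
        exact_mod_cast ArithmeticFunction.abs_moebius_le_one
      have m2 : |(ArithmeticFunction.moebius (r / e) : ℝ)| ≤ 1 := by
        rw [← Int.cast_abs]
        exact_mod_cast ArithmeticFunction.abs_moebius_le_one
      have n1 : (d : ℝ) * |(ArithmeticFunction.moebius (q / d) : ℝ)| ≤ d :=
        mul_le_of_le_one_right (Nat.cast_nonneg _) m1
      have n2 : (e : ℝ) * |(ArithmeticFunction.moebius (r / e) : ℝ)| ≤ e :=
        mul_le_of_le_one_right (Nat.cast_nonneg _) m2
      exact mul_le_mul n1 n2 (by positivity) (Nat.cast_nonneg _)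
    calc |a d e| * |S d e - X / (Nat.lcm d e : ℕ) * Wm W| ≤ (d * e) * C :=
          mul_le_mul h7 h6 (abs_nonneg _) (by positivity)
      _ = C * (d * e) := by ring
  refine (Finset.abs_sum_le_sum_abs _ _).trans ((Finset.sum_le_sum h3).trans (le_of_eq ?_))
  unfold sg
  rw [mul_assoc, Finset.sum_mul_sum, Finset.mul_sum]
  refine Finset.sum_congr rfl fun d _ => ?_
  rw [Finset.mul_sum]

end H69BG
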