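import Pool.Agent.H69.BG.ArB
import Pool.Agent.H69.BG.ArE

/-!
# ARF: `B(s, R)` for small `s y R`

`NN M x / s = NN M (x/s)` (`Nat.floor_div_natCast`), `(s n)/x = n/(x/s)`. Insert the definitions of `GG y`, `GS s R`: `BS = ∑_{q ≤ y} ∑_{r ≤ R, (r,s)=1} (μ(q)/φ(q)) (μ(r)/φ(r)) ∑_n W(log(n/X)) c_q(n) c_r(n)`, `X = x/s`. By `ram` this is
`X Wm ∑_{q ≤ y, q ≤ R, (q,s)=1} μ(q)²/φ(q)² φ(q)` + error; every `q ≤ y` is coprime to `s`, so the main term is `X Wm LL (min y R)` (`Icc 1 y ∩ Icc 1 R = Icc 1 (min y R)`, `φ(q) ≠ 0`).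
Error at most `C (∑_{q ≤ y} σ(q)/φ(q)) (∑_{r ≤ R} σ(r)/φ(r))`, and `σ(q)/φ(q) ≤ q(1 + log q) · 2(1 + log q)/q ≤ 2(1 + log y)²` (`sg_le`, `H69LB.le_totient`), so the sums are `≤ 2 y (1 + log y)²`, `≤ 2 R (1 + log R)²`.
-/

open Finset H69LB

namespace H69BG

/-- the coefficients -/
noncomputable def ARF_a (q : ℕ) : ℝ := (ArithmeticFunction.moebius q : ℝ) / (Nat.totient q : ℝ)

theorem ARF_abs_a {q : ℕ} (hq : 1 ≤ q) : |ARF_a q| ≤ 1 / (Nat.totient q : ℝ) := by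
  have h1 : (0:ℝ) < (Nat.totient q : ℝ) := by exact_mod_cast Nat.totient_pos.2 hq
  unfold ARF_a
  rw [abs_div, abs_of_pos h1]
  refine div_le_div_of_nonneg_right ?_ h1.le
  have h2 := ArithmeticFunction.abs_moebius_le_one (n := q)
  exact_mod_cast h2

theorem ARF_term {q y : ℕ} (hq : 1 ≤ q) (hy : q ≤ y) :
    |ARF_a q| * sg q ≤ 2 * (1 + Real.log y) ^ 2 := by
  have h1 : (0:ℝ) < (Nat.totient q : ℝ) := by exact_mod_cast Nat.totient_pos.2 hq
  have hq1 : (1:ℝ) ≤ q := by exact_mod_cast hq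
  have hl0 : 0 ≤ Real.log q := Real.log_nonneg hq1
  have hl : Real.log q ≤ Real.log y := Real.log_le_log (by linarith) (by exact_mod_cast hy)
  have h2 : |ARF_a q| * sg q ≤ 1 / (Nat.totient q : ℝ) * (q * (1 + Real.log q)) :=
    mul_le_mul (ARF_abs_a hq) (sg_le hq) (sg_nonneg q) (by positivity)
  have h3 : 1 / (Nat.totient q : ℝ) * (q * (1 + Real.log q)) ≤ 2 * (1 + Real.log q) ^ 2 := by
    rw [one_div, inv_mul_le_iff₀ h1]
    have h4 := le_totient hq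
    nlinarith
  have h5 : 2 * (1 + Real.log (q:ℝ)) ^ 2 ≤ 2 * (1 + Real.log y) ^ 2 := by
    have : (1 + Real.log (q:ℝ)) ^ 2 ≤ (1 + Real.log y) ^ 2 :=
      pow_le_pow_left₀ (by linarith) (by linarith) 2
    linarith
  exact h2.trans (h3.trans h5)

theorem ARF_sum {y : ℕ} {S : Finset ℕ} (hS : S ⊆ Icc 1 y) :
    ∑ q ∈ S, |ARF_a q| * sg q ≤ 2 * (y * (1 + Real.log y) ^ 2) := by
  have h1 : ∑ q ∈ S, |ARF_a q| * sg q ≤ ∑ q ∈ Icc 1 y, |ARF_a q| * sg q :=
    Finset.sum_le_sum_of_subset_of_nonneg hS fun q _ _ =>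
      mul_nonneg (abs_nonneg _) (sg_nonneg q)
  have h2 : ∑ q ∈ Icc 1 y, |ARF_a q| * sg q ≤ ∑ _q ∈ Icc 1 y, 2 * (1 + Real.log y) ^ 2 :=
    Finset.sum_le_sum fun q hq => ARF_term (Finset.mem_Icc.1 hq).1 (Finset.mem_Icc.1 hq).2
  rw [Finset.sum_const, Nat.card_Icc, Nat.add_sub_cancel, nsmul_eq_mul] at h2
  linarith

theorem BS_main {M : ℝ} (hM : 0 < M) {W : ℝ → ℝ} (hW : WS M W) :
    ∃ C : ℝ, 0 ≤ C ∧ ∀ x : ℝ, 0 < x → ∀ y s R : ℕ, 1 ≤ s → (∀ q, 1 ≤ q → q ≤ y → Nat.Coprime q s) →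
      |BS W M x y s R - x / s * Wm W * LL (min y R)|
        ≤ C * (y * (1 + Real.log y) ^ 2) * (R * (1 + Real.log R) ^ 2) := by
  obtain ⟨C, hC, hram⟩ := ram hM hW
  refine ⟨4 * C, by positivity, fun x hx y s R hs hco => ?_⟩
  have hs0 : (0:ℝ) < s := by exact_mod_cast hs
  obtain ⟨X, hX⟩ : ∃ X, X = x / (s:ℝ) := ⟨_, rfl⟩
  have hX0 : 0 < X := by rw [hX]; positivity
  obtain ⟨F, hF⟩ : ∃ F, F = (Icc 1 R).filter (fun r => Nat.Coprime r s) := ⟨_, rfl⟩
  have hNN : NN M x / s = NN M X := by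
    unfold NN
    rw [hX, show x / (s:ℝ) * Real.exp M = (x * Real.exp M) / (s:ℝ) by ring,
      Nat.floor_div_natCast]
  obtain ⟨T, hT⟩ : ∃ T : ℕ → ℕ → ℝ, T = fun q r =>
    ∑ n ∈ Icc 1 (NN M X), W (Real.log (n / X)) * cr q n * cr r n := ⟨_, rfl⟩
  have hBS : BS W M x y s R = ∑ q ∈ Icc 1 y, ∑ r ∈ F, ARF_a q * ARF_a r * T q r := by
    unfold BS
    rw [hNN]
    have h1 : ∀ n ∈ Icc 1 (NN M X), W (Real.log ((s * n : ℕ) / x)) * GG y n * GS s R n =
        ∑ q ∈ Icc 1 y, ∑ r ∈ F, ARF_a q * ARF_a r *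
          (W (Real.log (n / X)) * cr q n * cr r n) := by
      intro n _
      have h2 : ((s * n : ℕ) : ℝ) / x = n / X := by
        rw [hX]
        push_cast
        field_simp
      unfold GG GS
      rw [h2, mul_assoc, ← hF, Finset.sum_mul_sum, Finset.mul_sum]
      refine Finset.sum_congr rfl fun q _ => ?_
      rw [Finset.mul_sum]
      refine Finset.sum_congr rfl fun r _ => ?_
      unfold ARF_a
      ring
    rw [Finset.sum_congr rfl h1, Finset.sum_comm]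
    refine Finset.sum_congr rfl fun q _ => ?_
    rw [Finset.sum_comm]
    refine Finset.sum_congr rfl fun r _ => ?_
    rw [hT, Finset.mul_sum]
  have hmain : ∑ q ∈ Icc 1 y, ∑ r ∈ F, ARF_a q * ARF_a r *
      (if q = r then X * Wm W * (Nat.totient q : ℝ) else 0) = X * Wm W * LL (min y R) := by
    have h1 : ∀ q ∈ Icc 1 y, ∑ r ∈ F, ARF_a q * ARF_a r *
        (if q = r then X * Wm W * (Nat.totient q : ℝ) else 0) =
        if q ≤ R then X * Wm W * ((ArithmeticFunction.moebius q : ℝ) ^ 2 / (Nat.totient q : ℝ))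
          else 0 := by
      intro q hq
      rw [Finset.mem_Icc] at hq
      simp only [mul_ite, mul_zero]
      rw [Finset.sum_ite_eq]
      have h2 : q ∈ F ↔ q ≤ R := by
        rw [hF, Finset.mem_filter, Finset.mem_Icc]
        exact ⟨fun h => h.1.2, fun h => ⟨⟨hq.1, h⟩, hco q hq.1 hq.2⟩⟩
      simp only [h2]
      split_ifs
      · have h3 : (Nat.totient q : ℝ) ≠ 0 := by
          have := Nat.totient_pos.2 hq.1
          positivity
        unfold ARF_a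
        field_simp
      · rfl
    rw [Finset.sum_congr rfl h1, ← Finset.sum_filter]
    unfold LL
    rw [Finset.mul_sum]
    refine Finset.sum_congr ?_ fun _ _ => rfl
    ext q
    simp only [Finset.mem_filter, Finset.mem_Icc, le_min_iff]
    tauto
  have hdiff : BS W M x y s R - x / s * Wm W * LL (min y R) =
      ∑ q ∈ Icc 1 y, ∑ r ∈ F, ARF_a q * ARF_a r *
        (T q r - if q = r then X * Wm W * (Nat.totient q : ℝ) else 0) := by
    rw [hBS, ← hX, ← hmain, ← Finset.sum_sub_distrib]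
    refine Finset.sum_congr rfl fun q _ => ?_
    rw [← Finset.sum_sub_distrib]
    refine Finset.sum_congr rfl fun r _ => ?_
    ring
  have hFs : F ⊆ Icc 1 R := by rw [hF]; exact Finset.filter_subset _ _
  have herr : |∑ q ∈ Icc 1 y, ∑ r ∈ F, ARF_a q * ARF_a r *
      (T q r - if q = r then X * Wm W * (Nat.totient q : ℝ) else 0)| ≤
      C * ((∑ q ∈ Icc 1 y, |ARF_a q| * sg q) * (∑ r ∈ F, |ARF_a r| * sg r)) := by
    rw [Finset.sum_mul_sum, Finset.mul_sum]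
    refine (Finset.abs_sum_le_sum_abs _ _).trans (Finset.sum_le_sum fun q hq => ?_)
    rw [Finset.mul_sum]
    refine (Finset.abs_sum_le_sum_abs _ _).trans (Finset.sum_le_sum fun r hr => ?_)
    rw [abs_mul, abs_mul]
    have h1 := hram X hX0 q r (Finset.mem_Icc.1 hq).1 (Finset.mem_Icc.1 (hFs hr)).1
    have h2 : T q r = ∑ n ∈ Icc 1 (NN M X), W (Real.log (n / X)) * cr q n * cr r n := by rw [hT]
    rw [← h2] at h1
    calc |ARF_a q| * |ARF_a r| * |T q r - if q = r then X * Wm W * (Nat.totient q : ℝ) else 0|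
        ≤ |ARF_a q| * |ARF_a r| * (C * sg q * sg r) :=
          mul_le_mul_of_nonneg_left h1 (by positivity)
      _ = C * (|ARF_a q| * sg q * (|ARF_a r| * sg r)) := by ring
  rw [hdiff]
  refine herr.trans ?_
  have h1 := ARF_sum (y := y) (S := Icc 1 y) (Finset.Subset.refl _)
  have h2 := ARF_sum hFs
  have h3 : 0 ≤ ∑ r ∈ F, |ARF_a r| * sg r :=
    Finset.sum_nonneg fun r _ => mul_nonneg (abs_nonneg _) (sg_nonneg r)
  have h4 : (∑ q ∈ Icc 1 y, |ARF_a q| * sg q) * (∑ r ∈ F, |ARF_a r| * sg r) ≤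
      (2 * (y * (1 + Real.log y) ^ 2)) * (2 * (R * (1 + Real.log R) ^ 2)) :=
    mul_le_mul h1 h2 h3 (by positivity)
  calc C * ((∑ q ∈ Icc 1 y, |ARF_a q| * sg q) * (∑ r ∈ F, |ARF_a r| * sg r))
      ≤ C * ((2 * (y * (1 + Real.log y) ^ 2)) * (2 * (R * (1 + Real.log R) ^ 2))) :=
        mul_le_mul_of_nonneg_left h4 hC
    _ = 4 * C * (y * (1 + Real.log y) ^ 2) * (R * (1 + Real.log R) ^ 2) := by ring

end H69BG
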