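import Pool.Agent.H69.BG.ArDefs

/-!
# ARG: the harmonic sum

`H(t) = ∑_{j ≤ t} 1/j`, `γ` = `Real.eulerMascheroniConstant`. `t ≥ 1`, `n = ⌊t⌋ ≥ 1`: `0 ≤ H_n - log n - γ`-type bounds: `Real.eulerMascheroniSeq n = H_n - log(n+1) < γ < Real.eulerMascheroniSeq' n = H_n - log n`
(`Real.eulerMascheroniSeq_lt_eulerMascheroniConstant`, `Real.eulerMascheroniConstant_lt_eulerMascheroniSeq'`), so `0 ≤ H_n - log n - γ ≤ log((n+1)/n) ≤ 1/n`, and `0 ≤ log t - log n ≤ 1/n`; `1/n ≤ 2/t ≤ 2 t^{-1/4}`.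
`0 < t < 1`: `H = 0`, `|log t| = -log t ≤ 4 t^{-1/4}` (`Real.add_one_le_exp` or `Real.log_le_rpow_div`), `|γ| ≤ 1 ≤ t^{-1/4}`. So `C = 8` works.
-/

open Finset H69LB

namespace H69BG

theorem harm : ∃ C : ℝ, 0 ≤ C ∧ ∀ t : ℝ, 0 < t →
    |∑ j ∈ Icc 1 ⌊t⌋₊, (1 / (j : ℝ)) - (Real.log t + Real.eulerMascheroniConstant)| ≤ C * t ^ (-(1 / 4) : ℝ) := by
  have hg1 := Real.one_half_lt_eulerMascheroniConstant
  have hg2 := Real.eulerMascheroniConstant_lt_two_thirds
  refine ⟨8, by norm_num, fun t ht => ?_⟩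
  have hexp : t ^ (-(1 / 4) : ℝ) = Real.exp (Real.log t * (-(1 / 4))) := Real.rpow_def_of_pos ht _
  rcases lt_or_ge t 1 with h1 | h1
  · have h0 : ⌊t⌋₊ = 0 := Nat.floor_eq_zero.2 h1
    rw [h0]
    have h2 : Real.log t * (-(1 / 4)) + 1 ≤ t ^ (-(1 / 4) : ℝ) := by
      rw [hexp]; exact Real.add_one_le_exp _
    have h3 : Real.log t < 0 := Real.log_neg ht h1
    have h4 : ∑ j ∈ Icc 1 (0 : ℕ), (1 / (j : ℝ)) = 0 := by simp
    rw [h4, zero_sub, abs_neg, abs_le]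
    constructor <;> nlinarith
  · set n := ⌊t⌋₊ with hn
    have hn1 : 1 ≤ n := Nat.le_floor (by simpa using h1)
    have hnt : (n : ℝ) ≤ t := Nat.floor_le ht.le
    have htn : t < n + 1 := Nat.lt_floor_add_one t
    have hn0 : (0 : ℝ) < n := by exact_mod_cast hn1
    have hH : ∑ j ∈ Icc 1 n, (1 / (j : ℝ)) = (harmonic n : ℝ) := by
      rw [harmonic_eq_sum_Icc]
      push_cast
      refine sum_congr rfl fun j _ => ?_
      rw [one_div]
    have e1 := Real.eulerMascheroniSeq_lt_eulerMascheroniConstant n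
    have e2 := Real.eulerMascheroniConstant_lt_eulerMascheroniSeq' n
    unfold Real.eulerMascheroniSeq at e1
    unfold Real.eulerMascheroniSeq' at e2
    rw [if_neg (by omega)] at e2
    rw [hH]
    have e3 : Real.log n ≤ Real.log t := Real.log_le_log hn0 hnt
    have e4 : Real.log t ≤ Real.log (n + 1) := Real.log_le_log ht htn.le
    have e5 : Real.log (n + 1) - Real.log n ≤ 1 / n := by
      rw [← Real.log_div (by positivity) (by positivity)]
      have := Real.log_le_sub_one_of_pos (show (0 : ℝ) < ((n : ℝ) + 1) / n by positivity)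
      have h5 : ((n : ℝ) + 1) / n - 1 = 1 / n := by field_simp; ring
      rwa [h5] at this
    have e6 : 1 / (n : ℝ) ≤ 2 / t := by
      rw [div_le_div_iff₀ hn0 ht]
      have : (1 : ℝ) ≤ n := by exact_mod_cast hn1
      linarith
    have e7 : 2 / t ≤ 2 * t ^ (-(1 / 4) : ℝ) := by
      have h6 : t ^ (-1 : ℝ) ≤ t ^ (-(1 / 4) : ℝ) := Real.rpow_le_rpow_of_exponent_le h1 (by norm_num)
      rw [Real.rpow_neg_one] at h6
      rw [div_eq_mul_inv]
      linarith
    have e8 : 0 < t ^ (-(1 / 4) : ℝ) := Real.rpow_pos_of_pos ht _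
    rw [abs_le]
    constructor <;> linarith

end H69BG
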