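import Pool.Agent.H69.BG.ArDefs

/-!
# ARH: the multiplicative function `h_m`

* `hh_sum`: `h_m * ζ = f_m * (μ * ζ) = f_m` (`ArithmeticFunction.coe_moebius_mul_coe_zeta`, `ArithmeticFunction.coe_mul_zeta_apply`).
* `ff_mult`: `f_m(1) = 1`; for coprime `a, b`: `(ab, m) = 1 ↔ (a,m) = 1 ∧ (b,m) = 1` (`Nat.Coprime.mul_left_iff`-type lemma `Nat.coprime_mul_iff_left`), `μ`, `φ` multiplicative.
* `hh_mult`: convolution of multiplicative functions.
* `hh_prime_pow`: `h(p^j) = ∑_{i ≤ j} f(p^i) μ(p^{j-i}) = f(p^j) - f(p^{j-1})` for `j ≥ 1` (`Nat.divisors_prime_pow`, `ArithmeticFunction.moebius_apply_prime_pow`); `f(1) = 1`, `f(p) = p/(p-1)` if `p ∤ m`, `f(p) = 0` if `p ∣ m`,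
  `f(p^i) = 0` for `i ≥ 2` (`μ(p^i) = 0`). So `h(p) = 1/(p-1)` or `-1`; `h(p²) = -p/(p-1)` or `0`; `h(p^j) = 0` for `j ≥ 3`.
-/

open Finset H69LB

namespace H69BG

theorem hh_sum (m : ℕ) {k : ℕ} (hk : 1 ≤ k) : ∑ a ∈ k.divisors, hh m a = ff m k := by
  have h1 : hh m * ((ArithmeticFunction.zeta : ArithmeticFunction ℕ) : ArithmeticFunction ℝ) = ff m := by
    unfold hh
    rw [mul_assoc, ArithmeticFunction.coe_moebius_mul_coe_zeta, mul_one]
  have h2 := congrArg (fun f : ArithmeticFunction ℝ => f k) h1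
  simp only [ArithmeticFunction.coe_mul_zeta_apply] at h2
  exact h2

theorem ff_apply (m k : ℕ) : ff m k = if Nat.Coprime k m then
    (k : ℝ) * (ArithmeticFunction.moebius k : ℝ) ^ 2 / (Nat.totient k : ℝ) else 0 := rfl

theorem ff_mult (m : ℕ) : (ff m).IsMultiplicative := by
  refine ⟨?_, ?_⟩
  · rw [ff_apply]
    simp
  · intro a b hab
    rw [ff_apply, ff_apply, ff_apply]
    by_cases ha : Nat.Coprime a m
    · by_cases hb : Nat.Coprime b m
      · have hc : Nat.Coprime (a * b) m := Nat.coprime_mul_iff_left.mpr ⟨ha, hb⟩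
        rw [if_pos ha, if_pos hb, if_pos hc, ArithmeticFunction.isMultiplicative_moebius.map_mul_of_coprime hab,
          Nat.totient_mul hab]
        push_cast
        rw [div_mul_div_comm]
        congr 1
        ring
      · have hc : ¬ Nat.Coprime (a * b) m := fun h => hb (Nat.coprime_mul_iff_left.mp h).2
        rw [if_neg hc, if_neg hb, mul_zero]
    · have hc : ¬ Nat.Coprime (a * b) m := fun h => ha (Nat.coprime_mul_iff_left.mp h).1
      rw [if_neg hc, if_neg ha, zero_mul]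

theorem hh_mult (m : ℕ) : (hh m).IsMultiplicative :=
  (ff_mult m).mul ArithmeticFunction.isMultiplicative_moebius.intCast

/-- `h(p^{j+1}) = f(p^{j+1}) - f(p^j)` -/
theorem hh_pow_succ (m : ℕ) {p : ℕ} (hp : p.Prime) (j : ℕ) :
    hh m (p ^ (j + 1)) = ff m (p ^ (j + 1)) - ff m (p ^ j) := by
  have h1 := hh_sum m (k := p ^ (j + 1)) (Nat.one_le_iff_ne_zero.mpr (pow_ne_zero _ hp.ne_zero))
  have h2 := hh_sum m (k := p ^ j) (Nat.one_le_iff_ne_zero.mpr (pow_ne_zero _ hp.ne_zero))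
  rw [Nat.sum_divisors_prime_pow hp] at h1 h2
  rw [Finset.sum_range_succ] at h1
  linarith

theorem ff_prime (m : ℕ) {p : ℕ} (hp : p.Prime) :
    ff m p = if p ∣ m then 0 else (p : ℝ) / ((p : ℝ) - 1) := by
  rw [ff_apply]
  by_cases h : p ∣ m
  · rw [if_pos h, if_neg]
    intro hc
    exact (Nat.Prime.coprime_iff_not_dvd hp).mp hc h
  · rw [if_neg h, if_pos ((Nat.Prime.coprime_iff_not_dvd hp).mpr h),
      ArithmeticFunction.moebius_apply_prime hp, Nat.totient_prime hp]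
    rw [Nat.cast_sub hp.one_lt.le]
    simp

theorem ff_prime_pow (m : ℕ) {p j : ℕ} (hp : p.Prime) (hj : 2 ≤ j) : ff m (p ^ j) = 0 := by
  rw [ff_apply]
  split_ifs
  · rw [ArithmeticFunction.moebius_apply_prime_pow hp (by omega), if_neg (by omega)]
    simp
  · rfl

theorem ff_one (m : ℕ) : ff m 1 = 1 := (ff_mult m).map_one

theorem hh_prime (m : ℕ) {p : ℕ} (hp : p.Prime) : hh m p = if p ∣ m then -1 else 1 / ((p : ℝ) - 1) := by
  have h := hh_pow_succ m hp 0
  rw [zero_add, pow_one, pow_zero, ff_one, ff_prime m hp] at h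
  rw [h]
  have hp1 : (p : ℝ) - 1 ≠ 0 := by
    have : (1 : ℝ) < p := by exact_mod_cast hp.one_lt
    linarith
  split_ifs
  · norm_num
  · field_simp
    ring

theorem hh_prime_sq (m : ℕ) {p : ℕ} (hp : p.Prime) :
    hh m (p ^ 2) = if p ∣ m then 0 else -((p : ℝ) / ((p : ℝ) - 1)) := by
  have h := hh_pow_succ m hp 1
  rw [show 1 + 1 = 2 from rfl, pow_one, ff_prime_pow m hp le_rfl, ff_prime m hp] at h
  rw [h]
  split_ifs <;> ring

theorem hh_prime_pow (m : ℕ) {p j : ℕ} (hp : p.Prime) (hj : 3 ≤ j) : hh m (p ^ j) = 0 := by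
  obtain ⟨i, rfl⟩ : ∃ i, j = i + 1 := ⟨j - 1, by omega⟩
  rw [hh_pow_succ m hp i, ff_prime_pow m hp (by omega), ff_prime_pow m hp (by omega), sub_zero]

end H69BG
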