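import Pool.Agent.H69.BG.ArH

/-!
# ARI: the series of `h_m`

For a nonnegative multiplicative `F` and every `N`: `∑_{a ≤ N} F(a) ≤ ∏_{p ≤ N} ∑_{j ≤ J} F(p^j)` with `J` large; here `F(a) = |h_m(a)| a^{-3/4}` vanishes at `p^j`, `j ≥ 3`, so the product is
`∏_{p ≤ N} (1 + F(p) + F(p²))`. (Use `EulerProduct.summable_and_hasSum_smoothNumbers_prod_primesBelow_tsum` with `N + 1`, all `a ≤ N` are `(N+1)`-smooth (`Nat.mem_smoothNumbers_of_lt`), or prove the finite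
inequality by induction.) For `p ∤ m`: `F(p) + F(p²) = p^{-3/4}/(p-1) + p/(p-1) p^{-3/2} ≤ 4 p^{-3/2}` (`p - 1 ≥ p/2`), and `1 + 4 p^{-3/2} ≤ exp(4 p^{-3/2})`; for `p ∣ m`: `F(p) + F(p²) = p^{-3/4} ≤ 1`.
So the product is at most `2^{#{p ∣ m}} exp(4 ∑_p p^{-3/2}) ≤ C τ(m)`, `C = exp(4 ∑_{n ≥ 1} n^{-3/2})` (`2^{ω(m)} ≤ τ(m)`: `ArithmeticFunction.two_pow_cardDistinctFactors_le_card_divisors` or: the squarefree divisors
`∏_{p ∈ A} p`, `A ⊆ primeFactors`). So the sums over finite sets are bounded: summable (`summable_of_sum_le`) with `∑' ≤ C τ(m)` (`Real.tsum_le_of_sum_le`).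
`hh_tsum`: `a ↦ h_m(a)/a` is multiplicative and absolutely summable (`1/a ≤ a^{-3/4}`), so by `EulerProduct.eulerProduct_hasProd` (`∏_p ∑'_j h(p^j)/p^j = ∑'_a`) the sum is the product over primes of
`1 + h(p)/p + h(p²)/p²`, which is `1 + 1/(p(p-1)) - 1/(p(p-1)) = 1` for `p ∤ m` and `1 - 1/p` for `p ∣ m`; the product is finite (`hasProd_prod_of_ne_finset_one`), and
`∏_{p ∣ m} (1 - 1/p) = φ(m)/m` (`Nat.totient_eq_mul_prod_factors`).
-/

open Finset H69LB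

namespace H69BG

private theorem ArI_tsum {f : ℕ → ℝ} (h1 : f 1 = 1) {p : ℕ} (h3 : ∀ j, 3 ≤ j → f (p ^ j) = 0) :
    Summable (fun n : ℕ => ‖f (p ^ n)‖) ∧ ∑' n : ℕ, f (p ^ n) = 1 + f p + f (p ^ 2) := by
  have h0 : ∀ n ∉ range 3, f (p ^ n) = 0 := fun n hn =>
    h3 n (by simpa using hn)
  constructor
  · refine summable_of_ne_finset_zero (s := range 3) fun n hn => ?_
    rw [h0 n hn, norm_zero]
  · rw [tsum_eq_sum h0]
    simp [Finset.sum_range_succ, h1]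

private theorem ArI_mul (m : ℕ) (r : ℝ) {a b : ℕ} (hab : Nat.Coprime a b) :
    |hh m (a * b)| * ((a * b : ℕ) : ℝ) ^ r = (|hh m a| * (a : ℝ) ^ r) * (|hh m b| * (b : ℝ) ^ r) := by
  rw [(hh_mult m).2 hab, abs_mul, Nat.cast_mul, Real.mul_rpow (Nat.cast_nonneg a) (Nat.cast_nonneg b)]
  ring

private theorem ArI_local (m : ℕ) {p : ℕ} (hp : p.Prime) :
    1 + |hh m p| * (p : ℝ) ^ (-(3 / 4) : ℝ) + |hh m (p ^ 2)| * ((p ^ 2 : ℕ) : ℝ) ^ (-(3 / 4) : ℝ) ≤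
      (if p ∣ m then 2 else 1) * Real.exp (4 * (p : ℝ) ^ (-(3 / 2) : ℝ)) := by
  have hp2 : (2 : ℝ) ≤ p := by exact_mod_cast hp.two_le
  have hp0 : (0 : ℝ) < p := by linarith
  have hp1 : (0 : ℝ) < p - 1 := by linarith
  have he : 1 ≤ Real.exp (4 * (p : ℝ) ^ (-(3 / 2) : ℝ)) := Real.one_le_exp (by positivity)
  by_cases h : p ∣ m
  · rw [hh_prime m hp, hh_prime_sq m hp, if_pos h, if_pos h, if_pos h, abs_neg, abs_one, one_mul,
      abs_zero, zero_mul, add_zero]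
    have h1 : (p : ℝ) ^ (-(3 / 4) : ℝ) ≤ 1 :=
      Real.rpow_le_one_of_one_le_of_nonpos (by linarith) (by norm_num)
    linarith
  · rw [hh_prime m hp, hh_prime_sq m hp, if_neg h, if_neg h, if_neg h, one_mul, abs_neg,
      abs_of_pos (by positivity), abs_of_pos (by positivity)]
    have h2 : ((p ^ 2 : ℕ) : ℝ) ^ (-(3 / 4) : ℝ) = (p : ℝ) ^ (-(3 / 2) : ℝ) := by
      rw [Nat.cast_pow, ← Real.rpow_natCast, ← Real.rpow_mul hp0.le]
      norm_num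
    have h3 : 1 / ((p : ℝ) - 1) ≤ 2 * (p : ℝ) ^ (-1 : ℝ) := by
      rw [Real.rpow_neg_one, div_le_iff₀ hp1]
      have : (p : ℝ) * (p : ℝ)⁻¹ = 1 := mul_inv_cancel₀ hp0.ne'
      have h4 : (p : ℝ)⁻¹ ≤ 1 / 2 := by
        rw [inv_le_comm₀ hp0 (by norm_num)]
        linarith
      nlinarith
    have h4 : (p : ℝ) / ((p : ℝ) - 1) ≤ 2 := by
      rw [div_le_iff₀ hp1]
      linarith
    have h5 : (p : ℝ) ^ (-1 : ℝ) * (p : ℝ) ^ (-(3 / 4) : ℝ) ≤ (p : ℝ) ^ (-(3 / 2) : ℝ) := by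
      rw [← Real.rpow_add hp0]
      exact Real.rpow_le_rpow_of_exponent_le (by linarith) (by norm_num)
    have h6 : 0 < (p : ℝ) ^ (-(3 / 4) : ℝ) := by positivity
    have h7 : 0 < (p : ℝ) ^ (-(3 / 2) : ℝ) := by positivity
    have h8 : 1 / ((p : ℝ) - 1) * (p : ℝ) ^ (-(3 / 4) : ℝ) ≤ 2 * (p : ℝ) ^ (-(3 / 2) : ℝ) := by
      have := mul_le_mul_of_nonneg_right h3 h6.le
      nlinarith
    have h9 : (p : ℝ) / ((p : ℝ) - 1) * (p : ℝ) ^ (-(3 / 2) : ℝ) ≤ 2 * (p : ℝ) ^ (-(3 / 2) : ℝ) :=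
      mul_le_mul_of_nonneg_right h4 h7.le
    rw [h2]
    have h10 := Real.add_one_le_exp (4 * (p : ℝ) ^ (-(3 / 2) : ℝ))
    linarith

private theorem ArI_two {m : ℕ} (hm : 1 ≤ m) (N : ℕ) :
    ∏ p ∈ N.primesBelow, (if p ∣ m then (2 : ℝ) else 1) ≤ (m.divisors.card : ℝ) := by
  rw [Finset.prod_ite, Finset.prod_const_one, mul_one, Finset.prod_const]
  have h1 : (N.primesBelow.filter (fun p => p ∣ m)).card ≤ m.primeFactors.card := by
    refine Finset.card_le_card fun p hp => ?_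
    rw [Finset.mem_filter] at hp
    exact Nat.mem_primeFactors.2 ⟨Nat.prime_of_mem_primesBelow hp.1, hp.2, by omega⟩
  have h2 : (2 : ℝ) ^ m.primeFactors.card ≤ (m.divisors.card : ℝ) := by
    rw [Nat.card_divisors (by omega : m ≠ 0)]
    push_cast
    rw [← Finset.prod_const]
    refine Finset.prod_le_prod (fun _ _ => by norm_num) fun p hp => ?_
    have h3 : 1 ≤ m.factorization p := by
      have hp' := Nat.mem_primeFactors.1 hp
      exact (hp'.1.dvd_iff_one_le_factorization (by omega)).1 hp'.2.1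
    have h4 : (1 : ℝ) ≤ m.factorization p := by exact_mod_cast h3
    linarith
  exact (pow_le_pow_right₀ (by norm_num) h1).trans h2

private theorem ArI_Z : Summable (fun n : ℕ => (n : ℝ) ^ (-(3 / 2) : ℝ)) :=
  Real.summable_nat_rpow.2 (by norm_num)

private theorem ArI_fin {m : ℕ} (hm : 1 ≤ m) (s : Finset ℕ) :
    ∑ a ∈ s, |hh m a| * (a : ℝ) ^ (-(3 / 4) : ℝ) ≤
      Real.exp (4 * ∑' n : ℕ, (n : ℝ) ^ (-(3 / 2) : ℝ)) * (m.divisors.card : ℝ) := by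
  obtain ⟨N, hN⟩ := s.exists_nat_subset_range
  have h11 : |hh m 1| * ((1 : ℕ) : ℝ) ^ (-(3 / 4) : ℝ) = 1 := by
    rw [(hh_mult m).1, abs_one, Nat.cast_one, Real.one_rpow, one_mul]
  have hpow : ∀ {p : ℕ}, p.Prime → ∀ j, 3 ≤ j →
      |hh m (p ^ j)| * ((p ^ j : ℕ) : ℝ) ^ (-(3 / 4) : ℝ) = 0 := fun hp j hj => by
    rw [hh_prime_pow m hp hj, abs_zero, zero_mul]
  obtain ⟨-, hsum⟩ := EulerProduct.summable_and_hasSum_smoothNumbers_prod_primesBelow_tsum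
    (f := fun a : ℕ => |hh m a| * (a : ℝ) ^ (-(3 / 4) : ℝ)) h11 (fun {a b} hab => ArI_mul m _ hab)
    (fun {p} hp => (ArI_tsum (f := fun a : ℕ => |hh m a| * (a : ℝ) ^ (-(3 / 4) : ℝ)) h11
      (hpow hp)).1) N
  have hsum2 := (hasSum_subtype_iff_indicator
    (f := fun a : ℕ => |hh m a| * (a : ℝ) ^ (-(3 / 4) : ℝ)) (s := N.smoothNumbers)).1 hsum
  have h1 := sum_le_hasSum s (fun a _ => Set.indicator_nonneg (fun a _ => by positivity) a) hsum2
  have h2 : ∑ a ∈ s, |hh m a| * (a : ℝ) ^ (-(3 / 4) : ℝ) = ∑ a ∈ s, N.smoothNumbers.indicator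
      (fun a : ℕ => |hh m a| * (a : ℝ) ^ (-(3 / 4) : ℝ)) a := by
    refine Finset.sum_congr rfl fun a ha => ?_
    by_cases ha0 : a = 0
    · have h3 : |hh m a| * (a : ℝ) ^ (-(3 / 4) : ℝ) = 0 := by
        rw [ha0, ArithmeticFunction.map_zero, abs_zero, zero_mul]
      rw [h3]
      by_cases h4 : a ∈ N.smoothNumbers
      · rw [Set.indicator_of_mem h4, h3]
      · rw [Set.indicator_of_notMem h4]
    · rw [Set.indicator_of_mem (Nat.mem_smoothNumbers_of_lt (Nat.pos_of_ne_zero ha0)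
        (Finset.mem_range.1 (hN ha)))]
  rw [h2]
  refine h1.trans ?_
  have h3 : ∏ p ∈ N.primesBelow, ∑' n : ℕ, |hh m (p ^ n)| * ((p ^ n : ℕ) : ℝ) ^ (-(3 / 4) : ℝ) ≤
      ∏ p ∈ N.primesBelow, ((if p ∣ m then 2 else 1) * Real.exp (4 * (p : ℝ) ^ (-(3 / 2) : ℝ))) := by
    refine Finset.prod_le_prod (fun p _ => tsum_nonneg fun n => by positivity) fun p hp => ?_
    have hp' := Nat.prime_of_mem_primesBelow hp
    have h4 := (ArI_tsum (f := fun a : ℕ => |hh m a| * (a : ℝ) ^ (-(3 / 4) : ℝ)) h11 (hpow hp')).2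
    exact (le_of_eq h4).trans (ArI_local m hp')
  refine h3.trans ?_
  rw [Finset.prod_mul_distrib, ← Real.exp_sum, ← Finset.mul_sum, mul_comm]
  have h5 : ∑ p ∈ N.primesBelow, (p : ℝ) ^ (-(3 / 2) : ℝ) ≤ ∑' n : ℕ, (n : ℝ) ^ (-(3 / 2) : ℝ) :=
    ArI_Z.sum_le_tsum _ fun n _ => by positivity
  have h6 := ArI_two hm N
  gcongr

theorem hh_summable : ∃ C : ℝ, 0 ≤ C ∧ ∀ m : ℕ, 1 ≤ m →
    Summable (fun a : ℕ => |hh m a| * (a : ℝ) ^ (-(3 / 4) : ℝ)) ∧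
      ∑' a : ℕ, |hh m a| * (a : ℝ) ^ (-(3 / 4) : ℝ) ≤ C * (m.divisors.card : ℝ) := by
  refine ⟨Real.exp (4 * ∑' n : ℕ, (n : ℝ) ^ (-(3 / 2) : ℝ)), (Real.exp_pos _).le, fun m hm => ?_⟩
  have h1 : Summable (fun a : ℕ => |hh m a| * (a : ℝ) ^ (-(3 / 4) : ℝ)) :=
    summable_of_sum_le (fun a => by positivity) (ArI_fin hm)
  exact ⟨h1, h1.tsum_le_of_sum_le (ArI_fin hm)⟩

theorem hh_tsum {m : ℕ} (hm : 1 ≤ m) : ∑' a : ℕ, hh m a / a = (Nat.totient m : ℝ) / m := by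
  obtain ⟨C, -, hC⟩ := hh_summable
  have h1 := (hC m hm).1
  have hm0 : m ≠ 0 := by omega
  have h11 : hh m 1 / ((1 : ℕ) : ℝ) = 1 := by rw [(hh_mult m).1, Nat.cast_one, div_one]
  have hmul : ∀ {a b : ℕ}, Nat.Coprime a b →
      hh m (a * b) / ((a * b : ℕ) : ℝ) = hh m a / a * (hh m b / b) := fun {a b} hab => by
    rw [(hh_mult m).2 hab, Nat.cast_mul, mul_div_mul_comm]
  have hs : Summable (fun a : ℕ => ‖hh m a / (a : ℝ)‖) := by
    refine Summable.of_nonneg_of_le (fun a => norm_nonneg _) (fun a => ?_) h1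
    rw [norm_div, Real.norm_eq_abs, Real.norm_eq_abs, Nat.abs_cast, div_eq_mul_inv]
    refine mul_le_mul_of_nonneg_left ?_ (abs_nonneg _)
    rcases Nat.eq_zero_or_pos a with ha | ha
    · rw [ha, Nat.cast_zero, inv_zero]
      positivity
    · have ha1 : (1 : ℝ) ≤ a := by exact_mod_cast ha
      rw [← Real.rpow_neg_one]
      exact Real.rpow_le_rpow_of_exponent_le ha1 (by norm_num)
  have h0 : hh m 0 / ((0 : ℕ) : ℝ) = 0 := by
    rw [ArithmeticFunction.map_zero, zero_div]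
  have hE := EulerProduct.eulerProduct (f := fun a : ℕ => hh m a / (a : ℝ)) h11 hmul hs h0
  refine tendsto_nhds_unique hE (tendsto_const_nhds.congr' ?_)
  filter_upwards [Filter.eventually_gt_atTop m] with n hn
  have h2 : ∀ p ∈ n.primesBelow, ∑' e : ℕ, hh m (p ^ e) / ((p ^ e : ℕ) : ℝ) =
      if p ∣ m then 1 - (p : ℝ)⁻¹ else 1 := by
    intro p hp
    have hp' := Nat.prime_of_mem_primesBelow hp
    have hp2 : (2 : ℝ) ≤ p := by exact_mod_cast hp'.two_le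
    have hp0 : (p : ℝ) ≠ 0 := by linarith
    have hp1 : (p : ℝ) - 1 ≠ 0 := by linarith
    have h3 := (ArI_tsum (f := fun a : ℕ => hh m a / (a : ℝ)) h11 (p := p) fun j hj => by
      rw [hh_prime_pow m hp' hj, zero_div]).2
    refine h3.trans ?_
    rw [hh_prime m hp', hh_prime_sq m hp']
    by_cases h : p ∣ m
    · rw [if_pos h, if_pos h, if_pos h, zero_div, add_zero, neg_div, one_div, sub_eq_add_neg]
    · rw [if_neg h, if_neg h, if_neg h, Nat.cast_pow]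
      field_simp
      ring
  rw [Finset.prod_congr rfl h2, Finset.prod_ite, Finset.prod_const_one, mul_one]
  have h3 : n.primesBelow.filter (fun p => p ∣ m) = m.primeFactors := by
    ext p
    rw [Finset.mem_filter, Nat.mem_primesBelow, Nat.mem_primeFactors]
    constructor
    · rintro ⟨⟨-, hp⟩, hd⟩
      exact ⟨hp, hd, hm0⟩
    · rintro ⟨hp, hd, -⟩
      exact ⟨⟨(Nat.le_of_dvd hm hd).trans_lt hn, hp⟩, hd⟩
  rw [h3]
  have h4 := Nat.totient_eq_mul_prod_factors m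
  have h5 : (Nat.totient m : ℝ) = m * ∏ p ∈ m.primeFactors, (1 - (p : ℝ)⁻¹) := by
    have h6 := congrArg (fun q : ℚ => (q : ℝ)) h4
    push_cast at h6
    exact h6
  rw [h5, mul_div_cancel_left₀ _ (Nat.cast_ne_zero.2 hm0)]

end H69BG
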