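import Pool.Agent.H69.BG.ArI
import Pool.Agent.H69.BG.ArG

/-!
# ARJ: the asymptotic formula for `S(z; m)`

For `t > 0`: `SZ ⌊t⌋ m = ∑_{k ≤ t} f_m(k)/k = ∑_{k ≤ t} (1/k) ∑_{a ∣ k} h_m(a) = ∑'_a (h_m(a)/a) H(t/a)`, `H(v) = ∑_{j ≤ ⌊v⌋} 1/j` (`k = a j`, `hh_sum`; for `a > t` the inner sum is empty: a finite sum over `a ∈ Icc 1 ⌊t⌋`;
`Nat.sum_divisors`/`Finset.sum_sigma'` exchange, `⌊t⌋ / a = ⌊t/a⌋`: `Nat.floor_div_natCast`). The function `a ↦ (h_m(a)/a) (log(t/a) + γ)` is summable: `|log(t/a) + γ| ≤ C' (t/a)^{-1/4} + |H(t/a)|`... simply: `|log a| ≤ 4 a^{1/4}`, so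
`∑ |h_m(a)|/a (|log t| + |γ| + |log a|)` converges by `hh_summable` (`a^{-1} a^{1/4} = a^{-3/4}`). Put `B = ∑'_a (h_m(a)/a)(γ - log a)`. By `hh_tsum`: `∑'_a (h_m(a)/a)(log(t/a) + γ) = (φ(m)/m) log t + B`. By `harm` the difference
is at most `∑'_a (|h_m(a)|/a) C (t/a)^{-1/4} = C t^{-1/4} ∑' |h_m(a)| a^{-3/4} ≤ C C'' τ(m) t^{-1/4}`.
(The term `a = 0` is `0`: `hh m 0 = 0`.)
-/

open Finset H69LB

namespace H69BG

lemma ARJ_ff {m k : ℕ} (hk : 1 ≤ k) :
    (if Nat.Coprime k m then (ArithmeticFunction.moebius k : ℝ) ^ 2 / (Nat.totient k : ℝ) else 0) =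
      ff m k / k := by
  have h1 : ff m k = if Nat.Coprime k m then
      (k : ℝ) * (ArithmeticFunction.moebius k : ℝ) ^ 2 / (Nat.totient k : ℝ) else 0 := rfl
  have hk0 : (k : ℝ) ≠ 0 := by
    have : k ≠ 0 := by omega
    exact_mod_cast this
  rw [h1]
  split_ifs
  · field_simp
  · rw [zero_div]

lemma ARJ_finite (m N : ℕ) : SZ N m =
    ∑ a ∈ Icc 1 N, hh m a / a * ∑ j ∈ Icc 1 (N / a), (1 / (j : ℝ)) := by
  have h1 : SZ N m = ∑ k ∈ Icc 1 N, ∑ a ∈ k.divisors, hh m a / k := by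
    unfold SZ
    rw [Finset.sum_filter]
    refine Finset.sum_congr rfl fun k hk => ?_
    rw [Finset.mem_Icc] at hk
    rw [ARJ_ff hk.1, ← hh_sum m hk.1, Finset.sum_div]
  rw [h1, Finset.sum_comm' (t' := Icc 1 N) (s' := fun a => (Icc 1 N).filter (fun k => a ∣ k))]
  · refine Finset.sum_congr rfl fun a ha => ?_
    rw [Finset.mem_Icc] at ha
    have ha0 : 0 < a := by omega
    rw [Finset.mul_sum]
    symm
    refine Finset.sum_nbij (fun j => a * j) ?_ ?_ ?_ ?_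
    · intro j hj
      rw [Finset.mem_Icc] at hj
      rw [Finset.mem_filter, Finset.mem_Icc]
      refine ⟨⟨Nat.mul_pos ha0 (by omega), ?_⟩, dvd_mul_right _ _⟩
      have := (Nat.le_div_iff_mul_le ha0).1 hj.2
      rwa [mul_comm] at this
    · intro j _ j' _ h
      exact Nat.eq_of_mul_eq_mul_left ha0 h
    · intro k hk
      rw [Finset.mem_coe, Finset.mem_filter, Finset.mem_Icc] at hk
      obtain ⟨j, rfl⟩ := hk.2
      refine ⟨j, ?_, rfl⟩
      rw [Finset.mem_coe, Finset.mem_Icc]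
      constructor
      · rcases Nat.eq_zero_or_pos j with h | h
        · rw [h, mul_zero] at hk
          omega
        · exact h
      · rw [Nat.le_div_iff_mul_le ha0, mul_comm]
        exact hk.1.2
    · intro j _
      push_cast
      rw [div_mul_div_comm, mul_one]
  · intro k a
    rw [Finset.mem_filter, Finset.mem_Icc, Finset.mem_Icc, Nat.mem_divisors]
    constructor
    · rintro ⟨⟨h1, h2⟩, h3, h4⟩
      exact ⟨⟨⟨h1, h2⟩, h3⟩, Nat.pos_of_dvd_of_pos h3 (by omega), (Nat.le_of_dvd (by omega) h3).trans h2⟩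
    · rintro ⟨⟨⟨h1, h2⟩, h3⟩, h4, h5⟩
      exact ⟨⟨h1, h2⟩, h3, by omega⟩

theorem SZ_asym : ∃ C : ℝ, 0 ≤ C ∧ ∀ m : ℕ, 1 ≤ m → ∃ B : ℝ, ∀ t : ℝ, 0 < t →
    |SZ ⌊t⌋₊ m - ((Nat.totient m : ℝ) / m * Real.log t + B)| ≤ C * (m.divisors.card : ℝ) * t ^ (-(1 / 4) : ℝ) := by
  obtain ⟨C, hC0, hC⟩ := harm
  obtain ⟨D, hD0, hD⟩ := hh_summable
  refine ⟨C * D, mul_nonneg hC0 hD0, fun m hm => ?_⟩
  obtain ⟨hs, hsD⟩ := hD m hm
  have h0 : hh m 0 = 0 := (hh m).map_zero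
  have hpow : ∀ a : ℕ, 1 ≤ a → (a : ℝ)⁻¹ * (a : ℝ) ^ (1 / 4 : ℝ) = (a : ℝ) ^ (-(3 / 4) : ℝ) := by
    intro a ha
    have ha' : (0 : ℝ) < a := by exact_mod_cast ha
    rw [← Real.rpow_neg_one, ← Real.rpow_add ha']
    norm_num
  have hinv : ∀ a : ℕ, 1 ≤ a → (a : ℝ)⁻¹ ≤ (a : ℝ) ^ (-(3 / 4) : ℝ) := by
    intro a ha
    have ha' : (1 : ℝ) ≤ a := by exact_mod_cast ha
    rw [← Real.rpow_neg_one]
    exact Real.rpow_le_rpow_of_exponent_le ha' (by norm_num)
  have hs1 : Summable (fun a : ℕ => hh m a / a) := by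
    refine Summable.of_norm_bounded hs fun a => ?_
    rcases Nat.eq_zero_or_pos a with h | h
    · subst h
      rw [h0, zero_div, norm_zero, abs_zero, zero_mul]
    · rw [norm_div, Real.norm_eq_abs, Real.norm_natCast, div_eq_mul_inv]
      exact mul_le_mul_of_nonneg_left (hinv a h) (abs_nonneg _)
  have hs2 : Summable (fun a : ℕ => hh m a / a * Real.log a) := by
    refine Summable.of_norm_bounded (hs.mul_left 4) fun a => ?_
    rcases Nat.eq_zero_or_pos a with h | h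
    · subst h
      rw [h0, zero_div, zero_mul, norm_zero, abs_zero, zero_mul, mul_zero]
    · have h1 : (1 : ℝ) ≤ a := by exact_mod_cast h
      have h2 : |Real.log a| ≤ 4 * (a : ℝ) ^ (1 / 4 : ℝ) := by
        rw [abs_of_nonneg (Real.log_nonneg h1)]
        have := Real.log_le_rpow_div (x := (a : ℝ)) (by linarith) (show (0 : ℝ) < 1 / 4 by norm_num)
        linarith
      rw [norm_mul, norm_div, Real.norm_eq_abs, Real.norm_natCast, Real.norm_eq_abs]
      calc |hh m a| / a * |Real.log a| ≤ |hh m a| / a * (4 * (a : ℝ) ^ (1 / 4 : ℝ)) :=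
            mul_le_mul_of_nonneg_left h2 (by positivity)
        _ = 4 * (|hh m a| * ((a : ℝ)⁻¹ * (a : ℝ) ^ (1 / 4 : ℝ))) := by ring
        _ = _ := by rw [hpow a h]
  set γ : ℝ := Real.eulerMascheroniConstant with hγ
  have hsB : Summable (fun a : ℕ => hh m a / a * (γ - Real.log a)) := by
    have := (hs1.mul_right γ).sub hs2
    refine this.congr fun a => ?_
    ring
  refine ⟨∑' a : ℕ, hh m a / a * (γ - Real.log a), fun t ht => ?_⟩
  -- the main term
  have hmain : (Nat.totient m : ℝ) / m * Real.log t + ∑' a : ℕ, hh m a / a * (γ - Real.log a) =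
      ∑' a : ℕ, hh m a / a * (Real.log t + (γ - Real.log a)) := by
    rw [← hh_tsum hm, ← tsum_mul_right, ← (hs1.mul_right _).tsum_add hsB]
    refine tsum_congr fun a => ?_
    ring
  have hsM : Summable (fun a : ℕ => hh m a / a * (Real.log t + (γ - Real.log a))) := by
    refine ((hs1.mul_right (Real.log t)).add hsB).congr fun a => ?_
    ring
  set N : ℕ := ⌊t⌋₊ with hN
  set G : ℕ → ℝ := fun a => hh m a / a * ∑ j ∈ Icc 1 ⌊t / a⌋₊, (1 / (j : ℝ)) with hG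
  have hGz : ∀ a ∉ Icc 1 N, G a = 0 := by
    intro a ha
    rcases Nat.eq_zero_or_pos a with h | h
    · subst h
      simp only [hG]
      rw [h0, zero_div, zero_mul]
    · have h1 : N < a := by
        by_contra h2
        exact ha (Finset.mem_Icc.2 ⟨h, not_lt.1 h2⟩)
      simp only [hG]
      rw [Nat.floor_div_natCast, ← hN, Nat.div_eq_of_lt h1]
      simp
  have hsG : Summable G := summable_of_ne_finset_zero hGz
  have hSZ : SZ N m = ∑' a : ℕ, G a := by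
    rw [tsum_eq_sum hGz, ARJ_finite]
    refine Finset.sum_congr rfl fun a _ => ?_
    simp only [hG]
    rw [Nat.floor_div_natCast]
  rw [hmain, hSZ, ← hsG.tsum_sub hsM]
  have hterm : ∀ a : ℕ, ‖G a - hh m a / a * (Real.log t + (γ - Real.log a))‖ ≤
      C * t ^ (-(1 / 4) : ℝ) * (|hh m a| * (a : ℝ) ^ (-(3 / 4) : ℝ)) := by
    intro a
    rcases Nat.eq_zero_or_pos a with h | h
    · subst h
      simp only [hG]
      rw [h0, zero_div, zero_mul, zero_mul, sub_zero, norm_zero, abs_zero, zero_mul, mul_zero]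
    · have ha : (0 : ℝ) < a := by exact_mod_cast h
      have h1 := hC (t / a) (div_pos ht ha)
      rw [Real.log_div ht.ne' ha.ne'] at h1
      have h2 : G a - hh m a / a * (Real.log t + (γ - Real.log a)) =
          hh m a / a * (∑ j ∈ Icc 1 ⌊t / a⌋₊, (1 / (j : ℝ)) - (Real.log t - Real.log a + γ)) := by
        simp only [hG]
        ring
      rw [h2, norm_mul, norm_div, Real.norm_eq_abs, Real.norm_natCast, Real.norm_eq_abs]
      have h3 : (t / a) ^ (-(1 / 4) : ℝ) = t ^ (-(1 / 4) : ℝ) * (a : ℝ) ^ (1 / 4 : ℝ) := by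
        rw [Real.div_rpow ht.le ha.le, Real.rpow_neg ha.le, div_inv_eq_mul]
      rw [h3] at h1
      calc |hh m a| / a * |∑ j ∈ Icc 1 ⌊t / a⌋₊, (1 / (j : ℝ)) - (Real.log t - Real.log a + γ)| ≤
          |hh m a| / a * (C * (t ^ (-(1 / 4) : ℝ) * (a : ℝ) ^ (1 / 4 : ℝ))) :=
            mul_le_mul_of_nonneg_left h1 (by positivity)
        _ = C * t ^ (-(1 / 4) : ℝ) * (|hh m a| * ((a : ℝ)⁻¹ * (a : ℝ) ^ (1 / 4 : ℝ))) := by ring
        _ = _ := by rw [hpow a h]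
  have hle := tsum_of_norm_bounded (hs.mul_left (C * t ^ (-(1 / 4) : ℝ))).hasSum hterm
  rw [← Real.norm_eq_abs]
  refine hle.trans ?_
  rw [tsum_mul_left]
  have hCt : 0 ≤ C * t ^ (-(1 / 4) : ℝ) := mul_nonneg hC0 (Real.rpow_nonneg ht.le _)
  refine (mul_le_mul_of_nonneg_left hsD hCt).trans (le_of_eq ?_)
  ring

end H69BG
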