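import Pool.Agent.H69.BG.ArB
import Pool.Agent.H69.BG.ArJ

/-!
# ARK: `G^{(s)}_R(n)` for `n ≤ R`

`GS_eq` (all divisors `g` of `n` are coprime to `s`): `G^{(s)}_R(n) = ∑_{g ∣ n} μ(g) SZ (R/g) (n s)`, `R / g = ⌊(R:ℝ)/g⌋₊` (`Nat.floor_div_natCast`, `Nat.floor_natCast`). `SZ_asym` with `m = n s`, `t = R/g`:
`= ∑_{g ∣ n} μ(g) ((φ(m)/m)(log R - log g) + B) + O(C τ(ns) ∑_{g ∣ n} (g/R)^{1/4})`. `∑_{g ∣ n} μ(g) = 0` as `n > 1` (`ArithmeticFunction.coe_zeta_mul_moebius` or `ArithmeticFunction.sum_eq_iff...`), `∑_{g ∣ n} μ(g) log g = -Λ(n)`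
(`ArithmeticFunction.sum_moebius_mul_log_eq`), so the main term is `(φ(m)/m) Λ(n)`; `(g/R)^{1/4} ≤ (n/R)^{1/4}`, at most `τ(n)` terms.
-/

open Finset H69LB

namespace H69BG

theorem GS_asym : ∃ C : ℝ, 0 ≤ C ∧ ∀ s R n : ℕ, 1 ≤ s → 1 ≤ R → 1 < n → Nat.Coprime n s →
    |GS s R n - (Nat.totient (n * s) : ℝ) / ((n * s : ℕ) : ℝ) * ArithmeticFunction.vonMangoldt n|
      ≤ C * (n.divisors.card : ℝ) * ((n * s).divisors.card : ℝ) * ((n : ℝ) / R) ^ (1 / 4 : ℝ) := by
  obtain ⟨C, hC, h⟩ := SZ_asym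
  refine ⟨C, hC, fun s R n hs hR hn hcop => ?_⟩
  obtain ⟨B, hB⟩ := h (n * s) (Nat.mul_pos (by omega) (by omega))
  have hfil : n.divisors.filter (fun g => Nat.Coprime g s) = n.divisors :=
    filter_true_of_mem fun g hg => Nat.Coprime.coprime_dvd_left (Nat.dvd_of_mem_divisors hg) hcop
  rw [GS_eq s R (by omega : 1 ≤ n), hfil]
  set A : ℝ := (Nat.totient (n * s) : ℝ) / ((n * s : ℕ) : ℝ) with hA
  have hR0 : (0 : ℝ) < R := by exact_mod_cast hR
  have hμ : ∑ g ∈ n.divisors, (ArithmeticFunction.moebius g : ℝ) = 0 := by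
    have h1 : (∑ g ∈ n.divisors, ArithmeticFunction.moebius g : ℤ) = 0 := by
      rw [← ArithmeticFunction.coe_mul_zeta_apply, ArithmeticFunction.moebius_mul_coe_zeta,
        ArithmeticFunction.one_apply_ne (by omega)]
    exact_mod_cast h1
  have hlog : ∑ g ∈ n.divisors, (ArithmeticFunction.moebius g : ℝ) *
      (A * Real.log ((R : ℝ) / g) + B) = A * ArithmeticFunction.vonMangoldt n := by
    have h1 : ∀ g ∈ n.divisors, (ArithmeticFunction.moebius g : ℝ) *
        (A * Real.log ((R : ℝ) / g) + B) = (A * Real.log R + B) *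
          (ArithmeticFunction.moebius g : ℝ) -
          A * ((ArithmeticFunction.moebius g : ℝ) * Real.log g) := by
      intro g hg
      have hg0 : (0 : ℝ) < g := by exact_mod_cast Nat.pos_of_mem_divisors hg
      rw [Real.log_div hR0.ne' hg0.ne']
      ring
    have h2 : ∑ g ∈ n.divisors, (ArithmeticFunction.moebius g : ℝ) * Real.log g =
        -ArithmeticFunction.vonMangoldt n := by
      rw [← ArithmeticFunction.sum_moebius_mul_log_eq]
      refine Finset.sum_congr rfl fun g _ => ?_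
      rw [ArithmeticFunction.log_apply]
    rw [Finset.sum_congr rfl h1, Finset.sum_sub_distrib, ← Finset.mul_sum, ← Finset.mul_sum, hμ, h2]
    ring
  rw [← hlog, ← Finset.sum_sub_distrib]
  refine (abs_sum_le_sum_abs _ _).trans ?_
  have hterm : ∀ g ∈ n.divisors, |(ArithmeticFunction.moebius g : ℝ) * SZ (R / g) (n * s) -
      (ArithmeticFunction.moebius g : ℝ) * (A * Real.log ((R : ℝ) / g) + B)| ≤
        C * ((n * s).divisors.card : ℝ) * ((n : ℝ) / R) ^ (1 / 4 : ℝ) := by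
    intro g hg
    have hgn : g ≤ n := Nat.divisor_le hg
    have hg0 : (0 : ℝ) < g := by exact_mod_cast Nat.pos_of_mem_divisors hg
    have ht : (0 : ℝ) < (R : ℝ) / g := by positivity
    have h1 := hB _ ht
    rw [Nat.floor_div_natCast, Nat.floor_natCast] at h1
    rw [← mul_sub, abs_mul]
    have h2 : |(ArithmeticFunction.moebius g : ℝ)| ≤ 1 := by
      have h3 := ArithmeticFunction.abs_moebius_le_one (n := g)
      exact_mod_cast h3
    have h3 : ((R : ℝ) / g) ^ (-(1 / 4) : ℝ) ≤ ((n : ℝ) / R) ^ (1 / 4 : ℝ) := by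
      rw [Real.rpow_neg ht.le, ← Real.inv_rpow ht.le, inv_div]
      refine Real.rpow_le_rpow (by positivity) ?_ (by norm_num)
      exact div_le_div_of_nonneg_right (by exact_mod_cast hgn) hR0.le
    calc |(ArithmeticFunction.moebius g : ℝ)| *
          |SZ (R / g) (n * s) - (A * Real.log ((R : ℝ) / g) + B)|
        ≤ 1 * (C * ((n * s).divisors.card : ℝ) * ((R : ℝ) / g) ^ (-(1 / 4) : ℝ)) :=
          mul_le_mul h2 h1 (abs_nonneg _) zero_le_one
      _ ≤ C * ((n * s).divisors.card : ℝ) * ((n : ℝ) / R) ^ (1 / 4 : ℝ) := by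
          rw [one_mul]
          exact mul_le_mul_of_nonneg_left h3 (by positivity)
  refine (Finset.sum_le_sum hterm).trans (le_of_eq ?_)
  rw [Finset.sum_const, nsmul_eq_mul]
  ring

end H69BG
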