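import Pool.Agent.H69.BG.ArK
import Pool.Agent.H94.WeylC

/-!
# ARL: `B(s, R)` for `s` in the full product set: reduction to `Λ`

Notation: `u = uu`, `X' = x/s`, `N' = NN M x / s = NN M X'`. `pps_sy`, `SI_range`, `eI_range9`: `x^{50005u} ≤ s ≤ x^{50006u}`, so `N' ≤ e^M x^{49995u}`, `N'/R ≤ e^M x^{-3.5u}`, and `X' ≥ x^{49994u}`. Divisor bound
`Pool.Agent.H94.Weyl.card_divisors_le` with `ε = 1/10^8 ≤ u/100` (e.g. `ε = uu/100`): `τ(n) ≤ C x^{u/100}` for `n ≤ N' ≤ x`, and `τ(ns) ≤ τ(n) τ(s) ≤ C x^{u/50}` (`s ≤ x`; or bound `τ(ns) ≤ C (ns)^ε`, `ns ≤ e^M x`).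
`|W| ≤ Cw`, `|GG y n| ≤ τ(n) LL y` (`GG_eq_GS`, `abs_GS_le`), `|GS s R n| ≤ τ(n) LL R`, `LL y, LL R ≤ 2(1 + log x)²` (`LL_le`, `yy x ≤ x`, `R ≤ x`).
The difference of the two sides is at most the sum of
(a) the term `n = 1`: `≤ Cw LL(y) LL(R) ≤ C log⁴ x`;
(b) `n` with `(n, s) > 1`: `n` is divisible by a prime `p ∣ s`, `p > zz x ≥ x^{200u} - 1`; there are `9` primes (`SI_primeFactors`), so at most `9 N'/(x^{200u} - 1)` such `n`; each term `≤ C x^{u/10} log⁴ x`;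
(c) `1 < n ≤ N'`, `(n, s) = 1`: `GS_asym`: each term is at most `Cw τ(n) LL(y) C τ(n) τ(ns) (N'/R)^{1/4} ≤ C log² x · x^{u/20} x^{-0.875u}`, at most `N' ≤ C X'` terms.
Total `≤ C X' (x^{-0.8u} log² x + x^{-199u} ...) + C log⁴ x ≤ X' x^{-0.7u}` for large `x` (`isLittleO_log_rpow_atTop`; `X' ≥ x^{0.49}`).
-/

open Finset H69LB

namespace H69BG

private lemma ARL_log (K s : ℝ) (hs : 0 < s) :
    ∀ᶠ x : ℝ in Filter.atTop, K * (1 + Real.log x) ^ 4 ≤ x ^ s := by
  have h1 := (isLittleO_log_rpow_rpow_atTop 4 hs).bound (c := 1 / (16 * (|K| + 1))) (by positivity)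
  filter_upwards [h1, Filter.eventually_ge_atTop (Real.exp 1), Filter.eventually_gt_atTop 0]
    with x hx hx1 hx0
  have hL : 1 ≤ Real.log x := (Real.le_log_iff_exp_le hx0).2 hx1
  have hpos : 0 < x ^ s := Real.rpow_pos_of_pos hx0 s
  have e4 : Real.log x ^ (4 : ℝ) = Real.log x ^ 4 := by
    rw [← Real.rpow_natCast]
    norm_num
  rw [Real.norm_eq_abs, Real.norm_eq_abs, abs_of_pos hpos, e4,
    abs_of_nonneg (by positivity)] at hx
  have h2 : (1 + Real.log x) ^ 4 ≤ 16 * Real.log x ^ 4 := by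
    calc (1 + Real.log x) ^ 4 ≤ (2 * Real.log x) ^ 4 :=
          pow_le_pow_left₀ (by linarith) (by linarith) 4
      _ = 16 * Real.log x ^ 4 := by ring
  have h3 : Real.log x ^ 4 * (16 * (|K| + 1)) ≤ x ^ s := by
    rw [one_div, inv_mul_eq_div, le_div_iff₀ (by positivity)] at hx
    exact hx
  have hK : 0 ≤ |K| + 1 := by positivity
  calc K * (1 + Real.log x) ^ 4 ≤ (|K| + 1) * (1 + Real.log x) ^ 4 :=
        mul_le_mul_of_nonneg_right (by linarith [le_abs_self K]) (by positivity)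
    _ ≤ (|K| + 1) * (16 * Real.log x ^ 4) := mul_le_mul_of_nonneg_left h2 hK
    _ ≤ x ^ s := by linarith

private lemma ARL_bdd {M : ℝ} {W : ℝ → ℝ} (hW : WS M W) : ∃ Cw : ℝ, 0 ≤ Cw ∧ ∀ η, |W η| ≤ Cw := by
  have h1 : HasCompactSupport W := by
    refine HasCompactSupport.intro (isCompact_Icc (a := -M) (b := M)) fun η hη => ?_
    apply hW.zero
    by_contra hcon
    push Not at hcon
    exact hη ⟨(abs_lt.1 hcon).1.le, (abs_lt.1 hcon).2.le⟩
  obtain ⟨Cw, hCw⟩ := hW.smooth.continuous.bounded_above_of_compact_support h1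
  exact ⟨Cw, (norm_nonneg _).trans (hCw 0), fun η => hCw η⟩

/-- the number of `n ≤ N` which are not coprime to `s` -/
private lemma ARL_card {s N : ℕ} {z : ℝ} (hz : 0 < z) (hp : ∀ p ∈ s.primeFactors, z ≤ p) (hs : s ≠ 0) :
    (((Icc 1 N).filter (fun n => ¬ Nat.Coprime n s)).card : ℝ) ≤ s.primeFactors.card * (N / z) := by
  classical
  have h1 : (Icc 1 N).filter (fun n => ¬ Nat.Coprime n s) ⊆
      s.primeFactors.biUnion (fun p => (Ioc 0 N).filter (fun n => p ∣ n)) := by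
    intro n hn
    rw [mem_filter, mem_Icc] at hn
    obtain ⟨p, hp1, hp2, hp3⟩ := Nat.Prime.not_coprime_iff_dvd.1 hn.2
    rw [mem_biUnion]
    refine ⟨p, ?_, ?_⟩
    · rw [Nat.mem_primeFactors]
      exact ⟨hp1, hp3, hs⟩
    · rw [mem_filter, mem_Ioc]
      exact ⟨⟨by omega, hn.1.2⟩, hp2⟩
  have h2 := (Finset.card_le_card h1).trans Finset.card_biUnion_le
  calc (((Icc 1 N).filter (fun n => ¬ Nat.Coprime n s)).card : ℝ)
      ≤ ((∑ p ∈ s.primeFactors, ((Ioc 0 N).filter (fun n => p ∣ n)).card : ℕ) : ℝ) := by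
        exact_mod_cast h2
    _ = ∑ p ∈ s.primeFactors, ((N / p : ℕ) : ℝ) := by
        rw [Nat.cast_sum]
        refine Finset.sum_congr rfl fun p _ => ?_
        rw [Nat.Ioc_filter_dvd_card_eq_div]
    _ ≤ ∑ p ∈ s.primeFactors, (N : ℝ) / z := by
        refine Finset.sum_le_sum fun p hpp => ?_
        refine Nat.cast_div_le.trans ?_
        exact div_le_div_of_nonneg_left (Nat.cast_nonneg _) hz (hp p hpp)
    _ = s.primeFactors.card * (N / z) := by rw [Finset.sum_const, nsmul_eq_mul]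

/-- summing the bounds of the three types of terms -/
private lemma ARL_sum {N s : ℕ} (F : ℕ → ℝ) {A B Cc : ℝ} (hA : 0 ≤ A) (hB : 0 ≤ B)
    (hC : 0 ≤ Cc) (h1 : |F 1| ≤ A) (h2 : ∀ n ∈ Icc 1 N, ¬ Nat.Coprime n s → |F n| ≤ B)
    (h3 : ∀ n ∈ Icc 2 N, Nat.Coprime n s → |F n| ≤ Cc) :
    |∑ n ∈ Icc 1 N, F n| ≤
      A + B * (((Icc 1 N).filter (fun n => ¬ Nat.Coprime n s)).card : ℝ) + Cc * N := by
  have h4 : ∀ n ∈ Icc 1 N, |F n| ≤ (if n = 1 then A else 0) +
      (if ¬ Nat.Coprime n s then B else 0) + Cc := by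
    intro n hn
    have hn' := mem_Icc.1 hn
    by_cases e1 : n = 1
    · subst e1
      rw [if_pos rfl, if_neg (not_not.2 (Nat.coprime_one_left s))]
      linarith
    · rw [if_neg e1]
      by_cases e2 : Nat.Coprime n s
      · rw [if_neg (not_not.2 e2)]
        have := h3 n (mem_Icc.2 ⟨by omega, hn'.2⟩) e2
        linarith
      · rw [if_pos e2]
        have := h2 n hn e2
        linarith
  refine (abs_sum_le_sum_abs _ _).trans ((Finset.sum_le_sum h4).trans ?_)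
  rw [Finset.sum_add_distrib, Finset.sum_add_distrib, Finset.sum_const, Nat.card_Icc,
    Nat.add_sub_cancel, nsmul_eq_mul, ← Finset.sum_filter, ← Finset.sum_filter, Finset.sum_const,
    Finset.sum_const, nsmul_eq_mul, nsmul_eq_mul]
  have h5 : (((Icc 1 N).filter (fun n => n = 1)).card : ℝ) ≤ 1 := by
    have : ((Icc 1 N).filter (fun n => n = 1)).card ≤ 1 := by
      rw [Finset.card_le_one]
      intro a ha b hb
      rw [(mem_filter.1 ha).2, (mem_filter.1 hb).2]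
    exact_mod_cast this
  have h6 : (((Icc 1 N).filter (fun n => n = 1)).card : ℝ) * A ≤ A := by
    calc _ ≤ 1 * A := mul_le_mul_of_nonneg_right h5 hA
      _ = A := one_mul A
  have h7 : (N : ℝ) * Cc = Cc * N := mul_comm _ _
  have h8 : (((Icc 1 N).filter (fun n => ¬ Nat.Coprime n s)).card : ℝ) * B =
      B * (((Icc 1 N).filter (fun n => ¬ Nat.Coprime n s)).card : ℝ) := mul_comm _ _
  linarith

/-- the numerical part -/
private lemma ARL_fin {x L u Cw C E X Np : ℝ} (hx : 1 ≤ x) (hL : 1 ≤ L) (hu : 0 < u) (hCw : 0 ≤ Cw)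
    (hC : 0 ≤ C) (hE : 1 ≤ E) (hX : x ^ (u * 2) ≤ X) (hX0 : 0 < X) (hNp : Np ≤ E * X)
    (hK : (16 * Cw + 144 * Cw * E + 8 * C * Cw * E * E) * (1 + L) ^ 4 ≤ x ^ (u / 10)) :
    Cw * (2 * (1 + L) ^ 2) * (2 * (1 + L) ^ 2) +
      Cw * (x ^ (u / 100) * (2 * (1 + L) ^ 2)) * (x ^ (u / 100) * (2 * (1 + L) ^ 2)) *
        (9 * (Np / x ^ (200 * u))) +
      Cw * (x ^ (u / 100) * (2 * (1 + L) ^ 2)) *
        (C * x ^ (u / 100) * x ^ (u / 100) * (E * x ^ (-(7 / 8 * u)))) * Np ≤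
      X * x ^ (-(7 / 10 * u)) := by
  have hx0 : 0 < x := by linarith
  have hpos : ∀ a : ℝ, 0 < x ^ a := fun a => Real.rpow_pos_of_pos hx0 a
  have hmono : ∀ a b : ℝ, a ≤ b → x ^ a ≤ x ^ b := fun a b hab =>
    Real.rpow_le_rpow_of_exponent_le hx hab
  have hmul : ∀ a b : ℝ, x ^ a * x ^ b = x ^ (a + b) := fun a b => (Real.rpow_add hx0 a b).symm
  have hP2 : 0 ≤ (1 + L) ^ 2 := by positivity
  have hP : (1 + L) ^ 2 ≤ (1 + L) ^ 4 := by
    have e1 : (1 : ℝ) ≤ (1 + L) ^ 2 := one_le_pow₀ (by linarith)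
    nlinarith
  have hP4 : 0 ≤ (1 + L) ^ 4 := by positivity
  have k1 : 16 * Cw * (1 + L) ^ 4 ≤ x ^ (u / 10) := by
    refine le_trans (mul_le_mul_of_nonneg_right ?_ hP4) hK
    have e1 : 0 ≤ 144 * Cw * E := by positivity
    have e2 : 0 ≤ 8 * C * Cw * E * E := by positivity
    linarith
  have k2 : 144 * Cw * E * (1 + L) ^ 4 ≤ x ^ (u / 10) := by
    refine le_trans (mul_le_mul_of_nonneg_right ?_ hP4) hK
    have e1 : 0 ≤ 16 * Cw := by positivity
    have e2 : 0 ≤ 8 * C * Cw * E * E := by positivity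
    linarith
  have k3 : 8 * C * Cw * E * E * (1 + L) ^ 4 ≤ x ^ (u / 10) := by
    refine le_trans (mul_le_mul_of_nonneg_right ?_ hP4) hK
    have e1 : 0 ≤ 16 * Cw := by positivity
    have e2 : 0 ≤ 144 * Cw * E := by positivity
    linarith
  have g1 : Cw * (2 * (1 + L) ^ 2) * (2 * (1 + L) ^ 2) ≤ 1 / 4 * (X * x ^ (-(7 / 10 * u))) := by
    have e1 : Cw * (2 * (1 + L) ^ 2) * (2 * (1 + L) ^ 2) = 1 / 4 * (16 * Cw * (1 + L) ^ 4) := by ring
    rw [e1]
    refine mul_le_mul_of_nonneg_left (k1.trans ?_) (by norm_num)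
    calc x ^ (u / 10) ≤ x ^ (u * 2) * x ^ (-(7 / 10 * u)) := by
          rw [hmul]
          exact hmono _ _ (by linarith)
      _ ≤ X * x ^ (-(7 / 10 * u)) := mul_le_mul_of_nonneg_right hX (hpos _).le
  have hz : x ^ (200 * u) ≠ 0 := (hpos _).ne'
  have g2 : Cw * (x ^ (u / 100) * (2 * (1 + L) ^ 2)) * (x ^ (u / 100) * (2 * (1 + L) ^ 2)) *
        (9 * (Np / x ^ (200 * u))) ≤ 1 / 4 * (X * x ^ (-(7 / 10 * u))) := by
    have e0 : Np / x ^ (200 * u) ≤ (E * X) * x ^ (-(200 * u)) := by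
      rw [Real.rpow_neg hx0.le, ← div_eq_mul_inv]
      exact div_le_div_of_nonneg_right hNp (hpos _).le
    calc Cw * (x ^ (u / 100) * (2 * (1 + L) ^ 2)) * (x ^ (u / 100) * (2 * (1 + L) ^ 2)) *
        (9 * (Np / x ^ (200 * u))) ≤
          Cw * (x ^ (u / 100) * (2 * (1 + L) ^ 2)) * (x ^ (u / 100) * (2 * (1 + L) ^ 2)) *
          (9 * ((E * X) * x ^ (-(200 * u)))) := by
          refine mul_le_mul_of_nonneg_left (mul_le_mul_of_nonneg_left e0 (by norm_num)) ?_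
          exact mul_nonneg (mul_nonneg hCw (mul_nonneg (hpos _).le (by positivity)))
            (mul_nonneg (hpos _).le (by positivity))
      _ = 1 / 4 * (X * ((144 * Cw * E * (1 + L) ^ 4) *
            (x ^ (u / 100) * (x ^ (u / 100) * x ^ (-(200 * u)))))) := by ring
      _ ≤ 1 / 4 * (X * (x ^ (u / 10) * (x ^ (u / 100) * (x ^ (u / 100) * x ^ (-(200 * u)))))) := by
          refine mul_le_mul_of_nonneg_left (mul_le_mul_of_nonneg_left
            (mul_le_mul_of_nonneg_right k2 ?_) hX0.le) (by norm_num)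
          exact mul_nonneg (hpos _).le (mul_nonneg (hpos _).le (hpos _).le)
      _ ≤ 1 / 4 * (X * x ^ (-(7 / 10 * u))) := by
          rw [hmul, hmul, hmul]
          exact mul_le_mul_of_nonneg_left (mul_le_mul_of_nonneg_left
            (hmono _ _ (by linarith)) hX0.le) (by norm_num)
  have g3 : Cw * (x ^ (u / 100) * (2 * (1 + L) ^ 2)) *
        (C * x ^ (u / 100) * x ^ (u / 100) * (E * x ^ (-(7 / 8 * u)))) * Np ≤
        1 / 4 * (X * x ^ (-(7 / 10 * u))) := by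
    have hcoef : 0 ≤ Cw * (x ^ (u / 100) * (2 * (1 + L) ^ 2)) *
        (C * x ^ (u / 100) * x ^ (u / 100) * (E * x ^ (-(7 / 8 * u)))) := by
      refine mul_nonneg (mul_nonneg hCw (mul_nonneg (hpos _).le (by positivity))) ?_
      exact mul_nonneg (mul_nonneg (mul_nonneg hC (hpos _).le) (hpos _).le)
        (mul_nonneg (by linarith) (hpos _).le)
    have hk : 8 * C * Cw * E * E * (1 + L) ^ 2 ≤ x ^ (u / 10) := by
      refine le_trans (mul_le_mul_of_nonneg_left hP ?_) k3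
      positivity
    calc Cw * (x ^ (u / 100) * (2 * (1 + L) ^ 2)) *
        (C * x ^ (u / 100) * x ^ (u / 100) * (E * x ^ (-(7 / 8 * u)))) * Np ≤
          Cw * (x ^ (u / 100) * (2 * (1 + L) ^ 2)) *
          (C * x ^ (u / 100) * x ^ (u / 100) * (E * x ^ (-(7 / 8 * u)))) * (E * X) :=
          mul_le_mul_of_nonneg_left hNp hcoef
      _ = 1 / 4 * (X * ((8 * C * Cw * E * E * (1 + L) ^ 2) *
            (x ^ (u / 100) * (x ^ (u / 100) * (x ^ (u / 100) * x ^ (-(7 / 8 * u))))))) := by ring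
      _ ≤ 1 / 4 * (X * (x ^ (u / 10) *
            (x ^ (u / 100) * (x ^ (u / 100) * (x ^ (u / 100) * x ^ (-(7 / 8 * u))))))) := by
          refine mul_le_mul_of_nonneg_left (mul_le_mul_of_nonneg_left
            (mul_le_mul_of_nonneg_right hk ?_) hX0.le) (by norm_num)
          exact mul_nonneg (hpos _).le (mul_nonneg (hpos _).le (mul_nonneg (hpos _).le (hpos _).le))
      _ ≤ 1 / 4 * (X * x ^ (-(7 / 10 * u))) := by
          rw [hmul, hmul, hmul, hmul]
          exact mul_le_mul_of_nonneg_left (mul_le_mul_of_nonneg_left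
            (hmono _ _ (by linarith)) hX0.le) (by norm_num)
  have g4 : 0 < X * x ^ (-(7 / 10 * u)) := mul_pos hX0 (hpos _)
  linarith

/-- the main sum of `B(s, R)` -/
noncomputable def BL (W : ℝ → ℝ) (M x : ℝ) (y s : ℕ) : ℝ :=
  ∑ n ∈ (Icc 2 (NN M x / s)).filter (fun n => Nat.Coprime n s), W (Real.log ((s * n : ℕ) / x)) * GG y n *
    ((Nat.totient (n * s) : ℝ) / ((n * s : ℕ) : ℝ) * ArithmeticFunction.vonMangoldt n)

theorem BS_sub {M : ℝ} (hM : 0 < M) {W : ℝ → ℝ} (hW : WS M W) :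
    ∃ x0 : ℝ, ∀ x, x0 ≤ x → ∀ s ∈ SI (PP x) (range 9), ∀ R : ℕ, x ^ (99997 / 2 * uu) ≤ R →
      (R : ℝ) ≤ x ^ (1 / 2 : ℝ) →
      |BS W M x (yy x) s R - BL W M x (yy x) s| ≤ x / s * x ^ (-(7 / 10 * uu)) := by
  obtain ⟨Cw, hCw0, hCw⟩ := ARL_bdd hW
  obtain ⟨C, hC0, hGS⟩ := GS_asym
  have huu : (0 : ℝ) < uu := by unfold uu; norm_num
  have hu1 : 100000 * uu = 1 := by unfold uu; norm_num
  obtain ⟨Cd, hCd1, hCd⟩ := Pool.Agent.H94.Weyl.card_divisors_le (uu / 400) (by linarith)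
  have ev1 := ARL_log (16 * Cw + 144 * Cw * Real.exp M + 8 * C * Cw * Real.exp M * Real.exp M)
    (uu / 10) (by linarith)
  have ev2 := (tendsto_rpow_atTop (show (0 : ℝ) < uu / 200 by linarith)).eventually_ge_atTop Cd
  have ev := ev1.and (ev2.and ((Filter.eventually_ge_atTop (Real.exp 1)).and
    (Filter.eventually_ge_atTop (Real.exp M))))
  obtain ⟨x0, hx0⟩ := Filter.eventually_atTop.1 ev
  refine ⟨x0, fun x hx s hs R hR1 hR2 => ?_⟩
  obtain ⟨h1, h2, h3, h4⟩ := hx0 x hx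
  have hx00 : 0 < x := (Real.exp_pos 1).trans_le h3
  have hL : 1 ≤ Real.log x := (Real.le_log_iff_exp_le hx00).2 h3
  have hx1 : 1 < x := by
    have := Real.add_one_lt_exp (one_ne_zero)
    linarith
  have hE1 : 1 ≤ Real.exp M := Real.one_le_exp hM.le
  have hpos : ∀ a : ℝ, 0 < x ^ a := fun a => Real.rpow_pos_of_pos hx00 a
  have hmono : ∀ a b : ℝ, a ≤ b → x ^ a ≤ x ^ b := fun a b hab =>
    Real.rpow_le_rpow_of_exponent_le hx1.le hab
  have hmul : ∀ a b : ℝ, x ^ a * x ^ b = x ^ (a + b) := fun a b => (Real.rpow_add hx00 a b).symm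
  have hx1' : x ^ (1 : ℝ) = x := Real.rpow_one x
  have hSy := pps_sy hx1
  obtain ⟨hs1, hs2⟩ := SI_range hx1 (Finset.Subset.refl _) hs
  obtain ⟨hsp1, -, hsp3⟩ := SI_primeFactors hSy hs
  rw [eI_range9] at hs1 hs2
  have hs0 : (0 : ℝ) < s := (hpos _).trans_le hs1
  have hsn : s ≠ 0 := by
    rintro rfl
    simp at hs0
  have hsn1 : 1 ≤ s := Nat.one_le_iff_ne_zero.2 hsn
  -- the range
  set N := NN M x / s with hN
  set X := x / s with hX
  have hX0 : 0 < X := div_pos hx00 hs0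
  have hNN : (NN M x : ℝ) ≤ x * Real.exp M := Nat.floor_le (by positivity)
  have hNX : (N : ℝ) ≤ Real.exp M * X := by
    refine Nat.cast_div_le.trans ?_
    rw [hX, mul_div_assoc']
    refine div_le_div_of_nonneg_right ?_ hs0.le
    rw [mul_comm]
    exact hNN
  have hXlow : x ^ (uu * 2) ≤ X := by
    rw [hX, le_div_iff₀ hs0]
    calc x ^ (uu * 2) * s ≤ x ^ (uu * 2) * x ^ (50005 * uu + uu) :=
          mul_le_mul_of_nonneg_left hs2 (hpos _).le
      _ ≤ x := by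
          rw [hmul]
          refine (hmono _ 1 ?_).trans hx1'.le
          linarith
  have hXup : X ≤ x ^ (1 - 50005 * uu) := by
    rw [hX, div_le_iff₀ hs0]
    calc x = x ^ (1 - 50005 * uu) * x ^ (50005 * uu) := by
          rw [hmul]
          rw [sub_add_cancel, hx1']
      _ ≤ x ^ (1 - 50005 * uu) * s := mul_le_mul_of_nonneg_left hs1 (hpos _).le
  have hR0 : (0 : ℝ) < R := (hpos _).trans_le hR1
  have hRn1 : 1 ≤ R := by
    have : R ≠ 0 := by
      rintro rfl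
      simp at hR0
    omega
  have hRx : (R : ℝ) ≤ x := hR2.trans ((hmono _ 1 (by norm_num)).trans hx1'.le)
  have hyx : ((yy x : ℕ) : ℝ) ≤ x := by
    unfold yy
    refine (Nat.floor_le (hpos _).le).trans ((hmono _ 1 ?_).trans hx1'.le)
    linarith
  have hLLb : ∀ k : ℕ, (k : ℝ) ≤ x → LL k ≤ 2 * (1 + Real.log x) ^ 2 := by
    intro k hk
    refine (LL_le k).trans ?_
    rcases Nat.eq_zero_or_pos k with hk0 | hk0
    · subst hk0
      simp only [Nat.cast_zero, Real.log_zero, add_zero]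
      have e1 : (1 : ℝ) ^ 2 ≤ (1 + Real.log x) ^ 2 := pow_le_pow_left₀ (by norm_num) (by linarith) 2
      linarith
    · have e1 := Real.log_le_log (by exact_mod_cast hk0 : (0 : ℝ) < k) hk
      have e2 : 0 ≤ Real.log k := Real.log_natCast_nonneg k
      have e3 : (1 + Real.log k) ^ 2 ≤ (1 + Real.log x) ^ 2 :=
        pow_le_pow_left₀ (by linarith) (by linarith) 2
      linarith
  have hLy := hLLb _ hyx
  have hLR := hLLb _ hRx
  have hLy0 := LL_nonneg (yy x)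
  have hLR0 := LL_nonneg R
  -- divisor bound
  have hD : ∀ n : ℕ, 1 ≤ n → (n : ℝ) ≤ x ^ (2 : ℝ) → (n.divisors.card : ℝ) ≤ x ^ (uu / 100) := by
    intro n hn1 hn2
    refine (hCd n hn1).trans ?_
    have e2 : (n : ℝ) ^ (uu / 400) ≤ x ^ (uu / 200) := by
      calc (n : ℝ) ^ (uu / 400) ≤ (x ^ (2 : ℝ)) ^ (uu / 400) :=
            Real.rpow_le_rpow (Nat.cast_nonneg _) hn2 (by linarith)
        _ = x ^ (uu / 200) := by
            rw [← Real.rpow_mul hx00.le]
            congr 1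
            ring
    calc Cd * (n : ℝ) ^ (uu / 400) ≤ x ^ (uu / 200) * x ^ (uu / 200) :=
          mul_le_mul h2 e2 (by positivity) (hpos _).le
      _ = x ^ (uu / 100) := by rw [hmul]; congr 1; ring
  have hxx : x * Real.exp M ≤ x ^ (2 : ℝ) := by
    rw [Real.rpow_two, pow_two]
    exact mul_le_mul_of_nonneg_left h4 hx00.le
  have hns : ∀ n ∈ Icc 1 N, ((n * s : ℕ) : ℝ) ≤ x ^ (2 : ℝ) := by
    intro n hn
    rw [mem_Icc, hN, Nat.le_div_iff_mul_le (by omega)] at hn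
    refine le_trans ?_ (hNN.trans hxx)
    exact_mod_cast hn.2
  have hn2 : ∀ n ∈ Icc 1 N, (n : ℝ) ≤ x ^ (2 : ℝ) := by
    intro n hn
    refine le_trans ?_ (hns n hn)
    have : n ≤ n * s := Nat.le_mul_of_pos_right _ (by omega)
    exact_mod_cast this
  have hDn : ∀ n ∈ Icc 1 N, (n.divisors.card : ℝ) ≤ x ^ (uu / 100) := fun n hn =>
    hD n (mem_Icc.1 hn).1 (hn2 n hn)
  have hDns : ∀ n ∈ Icc 1 N, ((n * s).divisors.card : ℝ) ≤ x ^ (uu / 100) := fun n hn =>
    hD (n * s) (Nat.mul_pos (mem_Icc.1 hn).1 (by omega)) (hns n hn)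
  have hGG : ∀ n ∈ Icc 1 N, |GG (yy x) n| ≤ x ^ (uu / 100) * (2 * (1 + Real.log x) ^ 2) := by
    intro n hn
    rw [GG_eq_GS]
    refine (abs_GS_le 1 (yy x) (mem_Icc.1 hn).1).trans ?_
    exact mul_le_mul (hDn n hn) hLy hLy0 (hpos _).le
  have hGSb : ∀ n ∈ Icc 1 N, |GS s R n| ≤ x ^ (uu / 100) * (2 * (1 + Real.log x) ^ 2) := by
    intro n hn
    refine (abs_GS_le s R (mem_Icc.1 hn).1).trans ?_
    exact mul_le_mul (hDn n hn) hLR hLR0 (hpos _).le
  -- the difference as one sum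
  set F : ℕ → ℝ := fun n => W (Real.log ((s * n : ℕ) / x)) * GG (yy x) n *
    (GS s R n - if 2 ≤ n ∧ Nat.Coprime n s then (Nat.totient (n * s) : ℝ) / ((n * s : ℕ) : ℝ) *
      ArithmeticFunction.vonMangoldt n else 0) with hF
  have hdiff : BS W M x (yy x) s R - BL W M x (yy x) s = ∑ n ∈ Icc 1 N, F n := by
    have e1 : BL W M x (yy x) s = ∑ n ∈ Icc 1 N, (if 2 ≤ n ∧ Nat.Coprime n s then
        W (Real.log ((s * n : ℕ) / x)) * GG (yy x) n * ((Nat.totient (n * s) : ℝ) / ((n * s : ℕ) : ℝ) *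
          ArithmeticFunction.vonMangoldt n) else 0) := by
      unfold BL
      rw [← Finset.sum_filter]
      refine Finset.sum_congr ?_ fun _ _ => rfl
      ext n
      simp only [mem_filter, mem_Icc]
      constructor
      · rintro ⟨⟨e2, e3⟩, e4⟩
        exact ⟨⟨by omega, e3⟩, e2, e4⟩
      · rintro ⟨⟨-, e3⟩, e2, e4⟩
        exact ⟨⟨e2, e3⟩, e4⟩
    rw [e1]
    unfold BS
    rw [← Finset.sum_sub_distrib]
    refine Finset.sum_congr rfl fun n _ => ?_
    rw [hF]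
    simp only
    split_ifs
    · ring
    · ring
  rw [hdiff]
  have hP2 : 0 ≤ 2 * (1 + Real.log x) ^ 2 := by positivity
  have hA : |F 1| ≤ Cw * (2 * (1 + Real.log x) ^ 2) * (2 * (1 + Real.log x) ^ 2) := by
    rw [hF]
    simp only
    rw [if_neg (by omega), sub_zero, abs_mul, abs_mul]
    have e1 : |GG (yy x) ((1 : ℕ) : ℤ)| ≤ 2 * (1 + Real.log x) ^ 2 := by
      rw [GG_eq_GS]
      refine (abs_GS_le 1 (yy x) le_rfl).trans ?_
      simpa using hLy
    have e2 : |GS s R ((1 : ℕ) : ℤ)| ≤ 2 * (1 + Real.log x) ^ 2 := by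
      refine (abs_GS_le s R le_rfl).trans ?_
      simpa using hLR
    exact mul_le_mul (mul_le_mul (hCw _) e1 (abs_nonneg _) hCw0) e2 (abs_nonneg _)
      (mul_nonneg hCw0 hP2)
  have hB : ∀ n ∈ Icc 1 N, ¬ Nat.Coprime n s → |F n| ≤
      Cw * (x ^ (uu / 100) * (2 * (1 + Real.log x) ^ 2)) *
        (x ^ (uu / 100) * (2 * (1 + Real.log x) ^ 2)) := by
    intro n hn hns'
    rw [hF]
    simp only
    rw [if_neg (fun h => hns' h.2), sub_zero, abs_mul, abs_mul]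
    exact mul_le_mul (mul_le_mul (hCw _) (hGG n hn) (abs_nonneg _) hCw0) (hGSb n hn) (abs_nonneg _)
      (mul_nonneg hCw0 (mul_nonneg (hpos _).le hP2))
  have hNR : ∀ n ∈ Icc 1 N, ((n : ℝ) / R) ^ (1 / 4 : ℝ) ≤ Real.exp M * x ^ (-(7 / 8 * uu)) := by
    intro n hn
    have e1 : (n : ℝ) / R ≤ Real.exp M * x ^ (-(7 / 2 * uu)) := by
      rw [div_le_iff₀ hR0]
      have e2 : (n : ℝ) ≤ N := by exact_mod_cast (mem_Icc.1 hn).2
      calc (n : ℝ) ≤ Real.exp M * X := e2.trans hNX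
        _ ≤ Real.exp M * x ^ (1 - 50005 * uu) := mul_le_mul_of_nonneg_left hXup (by positivity)
        _ ≤ Real.exp M * (x ^ (-(7 / 2 * uu)) * x ^ (99997 / 2 * uu)) := by
            refine mul_le_mul_of_nonneg_left ?_ (by positivity)
            rw [hmul]
            exact hmono _ _ (by linarith)
        _ ≤ Real.exp M * (x ^ (-(7 / 2 * uu)) * R) := by
            refine mul_le_mul_of_nonneg_left (mul_le_mul_of_nonneg_left hR1 (hpos _).le)
              (by positivity)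
        _ = Real.exp M * x ^ (-(7 / 2 * uu)) * R := by ring
    calc ((n : ℝ) / R) ^ (1 / 4 : ℝ) ≤ (Real.exp M * x ^ (-(7 / 2 * uu))) ^ (1 / 4 : ℝ) :=
          Real.rpow_le_rpow (by positivity) e1 (by norm_num)
      _ = (Real.exp M) ^ (1 / 4 : ℝ) * x ^ (-(7 / 8 * uu)) := by
          rw [Real.mul_rpow (by positivity) (hpos _).le, ← Real.rpow_mul hx00.le]
          congr 2
          ring
      _ ≤ (Real.exp M) ^ (1 : ℝ) * x ^ (-(7 / 8 * uu)) := by
          refine mul_le_mul_of_nonneg_right ?_ (hpos _).le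
          exact Real.rpow_le_rpow_of_exponent_le hE1 (by norm_num)
      _ = Real.exp M * x ^ (-(7 / 8 * uu)) := by rw [Real.rpow_one]
  have hCc : ∀ n ∈ Icc 2 N, Nat.Coprime n s → |F n| ≤
      Cw * (x ^ (uu / 100) * (2 * (1 + Real.log x) ^ 2)) *
        (C * x ^ (uu / 100) * x ^ (uu / 100) * (Real.exp M * x ^ (-(7 / 8 * uu)))) := by
    intro n hn hns'
    have hn' := mem_Icc.1 hn
    have hn1 : n ∈ Icc 1 N := mem_Icc.2 ⟨by omega, hn'.2⟩
    rw [hF]
    simp only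
    rw [if_pos ⟨hn'.1, hns'⟩, abs_mul, abs_mul]
    refine mul_le_mul (mul_le_mul (hCw _) (hGG n hn1) (abs_nonneg _) hCw0) ?_ (abs_nonneg _)
      (mul_nonneg hCw0 (mul_nonneg (hpos _).le hP2))
    refine (hGS s R n hsn1 hRn1 (by omega) hns').trans ?_
    refine mul_le_mul (mul_le_mul (mul_le_mul_of_nonneg_left (hDn n hn1) hC0) (hDns n hn1)
      (Nat.cast_nonneg _) (mul_nonneg hC0 (hpos _).le)) (hNR n hn1) (by positivity) ?_
    exact mul_nonneg (mul_nonneg hC0 (hpos _).le) (hpos _).le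
  have hcard : (((Icc 1 N).filter (fun n => ¬ Nat.Coprime n s)).card : ℝ) ≤
      9 * ((N : ℝ) / x ^ (200 * uu)) := by
    have e1 := ARL_card (s := s) (N := N) (z := x ^ (200 * uu)) (hpos _) (by
      intro p hp
      rw [Nat.mem_primeFactors] at hp
      obtain ⟨i, -, hi⟩ := hsp1 p hp.1 hp.2.1
      have e2 := hSy.gt i p hi
      exact (Nat.lt_of_floor_lt e2).le) hsn
    rw [hsp3] at e1
    simpa using e1
  have hBn : 0 ≤ Cw * (x ^ (uu / 100) * (2 * (1 + Real.log x) ^ 2)) *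
        (x ^ (uu / 100) * (2 * (1 + Real.log x) ^ 2)) :=
    mul_nonneg (mul_nonneg hCw0 (mul_nonneg (hpos _).le hP2)) (mul_nonneg (hpos _).le hP2)
  have hCn : 0 ≤ Cw * (x ^ (uu / 100) * (2 * (1 + Real.log x) ^ 2)) *
        (C * x ^ (uu / 100) * x ^ (uu / 100) * (Real.exp M * x ^ (-(7 / 8 * uu)))) := by
    refine mul_nonneg (mul_nonneg hCw0 (mul_nonneg (hpos _).le hP2)) ?_
    exact mul_nonneg (mul_nonneg (mul_nonneg hC0 (hpos _).le) (hpos _).le)
      (mul_nonneg (by linarith) (hpos _).le)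
  have hAn : 0 ≤ Cw * (2 * (1 + Real.log x) ^ 2) * (2 * (1 + Real.log x) ^ 2) :=
    mul_nonneg (mul_nonneg hCw0 hP2) hP2
  refine (ARL_sum F hAn hBn hCn hA hB hCc).trans ?_
  refine le_trans ?_ (ARL_fin hx1.le hL huu hCw0 hC0 hE1 hXlow hX0 hNX h1)
  exact add_le_add (add_le_add le_rfl (mul_le_mul_of_nonneg_left hcard hBn)) le_rfl

end H69BG
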