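import Pool.Agent.H69.BG.ArL
import Pool.Agent.H69.LB.Pnw

/-!
# ARM: the main sum by the prime number theorem (RH), `B(s, R)` for `s` in the full product set

Notation of `ArL`. `BL = ∑_{2 ≤ n ≤ N', (n,s)=1} W(log(n/X')) GG y n (φ(ns)/(ns)) Λ(n)` (`(sn)/x = n/X'`).
* Nonprime prime powers: with `g(n) = GG y n φ(ns)/(ns)` for `n ≤ N'` coprime to `s`, `0` otherwise: `|g(n)| ≤ τ(n) LL(y) ≤ x^{u}` for large `x` (divisor bound), so by `psW_sub_thW` (for `g/x^u`) the sum over the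
  nonprime `n` is at most `x^u C √X' (1 + log X')`.
* Primes `p`, `2 ≤ p ≤ N'`, `(p, s) = 1`, with `W(log(p/X')) ≠ 0`: `p ≥ X' e^{-M} > yy x` (`X' ≥ x^{49994u}`, `yy x ≤ x^{2u}`), so `GG y p = LL y` (`GG_prime`); `φ(ps)/(ps) = (1 - 1/p) ∏_{p' ∣ s} (1 - 1/p')` with `9` primes
  `p' > zz x` (`SI_primeFactors`; `Nat.totient_mul`, `Nat.totient_eq_mul_prod_factors`), so `0 ≤ 1 - φ(ps)/(ps) ≤ 10/(x^{200u} - 1)`. So the term is `W(log(p/X')) log p LL(y)` up to the factor `1 + O(x^{-199u})`.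
* The primes dividing `s`: at most `9`, terms `≤ Cw log x LL(y)`.
* So `|BL - LL(y) thW W M X' 1| ≤ C x^u √X' (1 + log X') + C X' x^{-198u} + C log³ x` (`∑_{p ≤ N'} log p |W| ≤ Cw ψ(N') ≤ C X'`: Chebyshev, `Chebyshev.theta_le_log4_mul_x` or `thW_one`), and by `thW_one`
  `|thW W M X' 1 - X' Wm W| ≤ C √X' (1 + log X')`; `X' ≥ x^{49994u} ≥ x^{0.4}` for large `x`. Total `≤ X' x^{-u}`.
* `BS_big`: `BS_sub` and `BL_main`.
-/

open Finset H69LB

namespace H69BG

variable {ι : Type} [Countable ι] {γ w : ι → ℝ} {F : ℝ → Finset ι} {A : ℝ → ℝ} {k0 : ℝ}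

private lemma ARM_log (K s : ℝ) (hs : 0 < s) :
    ∀ᶠ x : ℝ in Filter.atTop, K * (1 + Real.log x) ^ 4 ≤ x ^ s := by
  have h1 := (isLittleO_log_rpow_rpow_atTop 4 hs).bound (c := 1 / (16 * (|K| + 1))) (by positivity)
  filter_upwards [h1, Filter.eventually_ge_atTop (Real.exp 1), Filter.eventually_gt_atTop 0]
    with x hx hx1 hx0
  have hL : 1 ≤ Real.log x := (Real.le_log_iff_exp_le hx0).2 hx1
  have hpos : 0 < x ^ s := Real.rpow_pos_of_pos hx0 s
  have e4 : Real.log x ^ (4 : ℝ) = Real.log x ^ 4 := by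
    rw [← Real.rpow_natCast]
    norm_num
  rw [Real.norm_eq_abs, Real.norm_eq_abs, abs_of_pos hpos, e4,
    abs_of_nonneg (by positivity)] at hx
  have h2 : (1 + Real.log x) ^ 4 ≤ 16 * Real.log x ^ 4 := by
    calc (1 + Real.log x) ^ 4 ≤ (2 * Real.log x) ^ 4 :=
          pow_le_pow_left₀ (by linarith) (by linarith) 4
      _ = 16 * Real.log x ^ 4 := by ring
  have h3 : Real.log x ^ 4 * (16 * (|K| + 1)) ≤ x ^ s := by
    rw [one_div, inv_mul_eq_div, le_div_iff₀ (by positivity)] at hx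
    exact hx
  have hK : 0 ≤ |K| + 1 := by positivity
  calc K * (1 + Real.log x) ^ 4 ≤ (|K| + 1) * (1 + Real.log x) ^ 4 :=
        mul_le_mul_of_nonneg_right (by linarith [le_abs_self K]) (by positivity)
    _ ≤ (|K| + 1) * (16 * Real.log x ^ 4) := mul_le_mul_of_nonneg_left h2 hK
    _ ≤ x ^ s := by linarith

private lemma ARM_bdd {M : ℝ} {W : ℝ → ℝ} (hW : WS M W) : ∃ Cw : ℝ, 0 ≤ Cw ∧ ∀ η, |W η| ≤ Cw := by
  have h1 : HasCompactSupport W := by
    refine HasCompactSupport.intro (isCompact_Icc (a := -M) (b := M)) fun η hη => ?_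
    apply hW.zero
    by_contra hcon
    push Not at hcon
    exact hη ⟨(abs_lt.1 hcon).1.le, (abs_lt.1 hcon).2.le⟩
  obtain ⟨Cw, hCw⟩ := hW.smooth.continuous.bounded_above_of_compact_support h1
  exact ⟨Cw, (norm_nonneg _).trans (hCw 0), fun η => hCw η⟩

private lemma ARM_prod (S : Finset ℕ) (a : ℕ → ℝ) (h0 : ∀ i ∈ S, 0 ≤ a i) (h1 : ∀ i ∈ S, a i ≤ 1) :
    1 - ∑ i ∈ S, a i ≤ ∏ i ∈ S, (1 - a i) ∧ ∏ i ∈ S, (1 - a i) ≤ 1 ∧ 0 ≤ ∏ i ∈ S, (1 - a i) := by
  classical
  induction S using Finset.induction_on with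
  | empty => simp
  | insert j S hj ih =>
    obtain ⟨i1, i2, i3⟩ := ih (fun i hi => h0 i (mem_insert_of_mem hi))
      (fun i hi => h1 i (mem_insert_of_mem hi))
    have hj0 := h0 j (mem_insert_self _ _)
    have hj1 := h1 j (mem_insert_self _ _)
    rw [Finset.sum_insert hj, Finset.prod_insert hj]
    refine ⟨?_, ?_, ?_⟩
    · nlinarith
    · nlinarith
    · exact mul_nonneg (by linarith) i3

/-- the density factor -/
private lemma ARM_phi {m k : ℕ} (hm : m ≠ 0) {z : ℝ} (hz : 1 ≤ z) (hp : ∀ p ∈ m.primeFactors, z ≤ p)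
    (hk : m.primeFactors.card ≤ k) :
    1 - k / z ≤ (Nat.totient m : ℝ) / m ∧ (Nat.totient m : ℝ) / m ≤ 1 := by
  have h1 : (Nat.totient m : ℝ) / m = ∏ p ∈ m.primeFactors, (1 - (p : ℝ)⁻¹) := by
    have h2 := Nat.totient_eq_mul_prod_factors m
    have h3 : ((Nat.totient m : ℚ) : ℝ) = ((m * ∏ p ∈ m.primeFactors, (1 - (p : ℚ)⁻¹) : ℚ) : ℝ) := by
      rw [h2]
    push_cast at h3
    rw [h3, mul_div_cancel_left₀]
    exact_mod_cast hm
  have h4 := ARM_prod m.primeFactors (fun p => (p : ℝ)⁻¹) (fun p _ => by positivity)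
    (fun p hpp => by
      have : (1 : ℝ) ≤ p := by
        have := (Nat.prime_of_mem_primeFactors hpp).one_lt
        exact_mod_cast this.le
      exact inv_le_one_of_one_le₀ this)
  rw [h1]
  refine ⟨le_trans ?_ h4.1, h4.2.1⟩
  have h5 : ∑ p ∈ m.primeFactors, (p : ℝ)⁻¹ ≤ k / z := by
    calc ∑ p ∈ m.primeFactors, (p : ℝ)⁻¹ ≤ ∑ p ∈ m.primeFactors, z⁻¹ := by
          refine Finset.sum_le_sum fun p hpp => ?_
          exact inv_anti₀ (by linarith) (hp p hpp)
      _ = m.primeFactors.card * z⁻¹ := by rw [Finset.sum_const, nsmul_eq_mul]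
      _ ≤ k * z⁻¹ := by
          apply mul_le_mul_of_nonneg_right _ (by positivity)
          exact_mod_cast hk
      _ = k / z := by rw [div_eq_mul_inv]
  linarith

/-- the numerical part -/
private lemma ARM_fin {x L u C1 C2 Cw E X N D z LLy : ℝ} (hx : 1 ≤ x) (hL : 1 ≤ L) (hu : 0 < u)
    (hC1 : 0 ≤ C1) (hC2 : 0 ≤ C2) (hCw : 0 ≤ Cw) (hE : 0 ≤ E) (hX0 : 0 < X)
    (hX : x ^ (24997 * u) ≤ Real.sqrt X) (hlX : Real.log X ≤ L) (hlX0 : 0 ≤ Real.log X)
    (hN : N ≤ E * X) (hN0 : 0 ≤ N) (hD0 : 0 ≤ D)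
    (hD : D ≤ x ^ (u / 100) * (2 * (1 + L) ^ 2)) (hz : z = x ^ (200 * u)) (hLL0 : 0 ≤ LLy)
    (hLL : LLy ≤ 2 * (1 + L) ^ 2)
    (hK : (2 * C1 + 40 * Cw * E + 2 * C2) * (1 + L) ^ 4 ≤ x ^ (2 * u)) :
    D * (C1 * Real.sqrt X * (1 + Real.log X)) + LLy * (10 / z) * (Cw * (N * (2 * L))) +
      LLy * (C2 * Real.sqrt X * (1 + Real.log X)) ≤ X * x ^ (-u) := by
  have hx0 : 0 < x := by linarith
  have hpos : ∀ a : ℝ, 0 < x ^ a := fun a => Real.rpow_pos_of_pos hx0 a
  have hmono : ∀ a b : ℝ, a ≤ b → x ^ a ≤ x ^ b := fun a b hab =>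
    Real.rpow_le_rpow_of_exponent_le hx hab
  have hmul : ∀ a b : ℝ, x ^ a * x ^ b = x ^ (a + b) := fun a b => (Real.rpow_add hx0 a b).symm
  have hsX : Real.sqrt X ≤ X * x ^ (-(24997 * u)) := by
    have h1 : Real.sqrt X * Real.sqrt X = X := Real.mul_self_sqrt hX0.le
    rw [Real.rpow_neg hx0.le, ← div_eq_mul_inv, le_div_iff₀ (hpos _)]
    calc Real.sqrt X * x ^ (24997 * u) ≤ Real.sqrt X * Real.sqrt X :=
          mul_le_mul_of_nonneg_left hX (Real.sqrt_nonneg _)
      _ = X := h1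
  have hX3 : Real.sqrt X ≤ X * x ^ (-(4 * u)) :=
    hsX.trans (mul_le_mul_of_nonneg_left (hmono _ _ (by nlinarith)) hX0.le)
  have hl : 1 + Real.log X ≤ 1 + L := by linarith
  have g1 : D * (C1 * Real.sqrt X * (1 + Real.log X)) ≤
      2 * C1 * (1 + L) ^ 4 * (X * x ^ (-(3 * u))) := by
    calc D * (C1 * Real.sqrt X * (1 + Real.log X)) ≤
        (x ^ (u / 100) * (2 * (1 + L) ^ 2)) * (C1 * (X * x ^ (-(4 * u))) * (1 + L)) := by
          refine mul_le_mul hD ?_ ?_ ?_
          · exact mul_le_mul (mul_le_mul_of_nonneg_left hX3 hC1) hl (by linarith)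
              (mul_nonneg hC1 (mul_nonneg hX0.le (hpos _).le))
          · exact mul_nonneg (mul_nonneg hC1 (Real.sqrt_nonneg _)) (by linarith)
          · exact mul_nonneg (hpos _).le (by positivity)
      _ = 2 * C1 * (1 + L) ^ 3 * (X * (x ^ (u / 100) * x ^ (-(4 * u)))) := by ring
      _ ≤ 2 * C1 * (1 + L) ^ 4 * (X * x ^ (-(3 * u))) := by
          refine mul_le_mul ?_ ?_ ?_ ?_
          · apply mul_le_mul_of_nonneg_left _ (by positivity)
            exact pow_le_pow_right₀ (by linarith) (by norm_num)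
          · apply mul_le_mul_of_nonneg_left _ hX0.le
            rw [hmul]
            exact hmono _ _ (by linarith)
          · exact mul_nonneg hX0.le (mul_nonneg (hpos _).le (hpos _).le)
          · positivity
  have g3 : LLy * (C2 * Real.sqrt X * (1 + Real.log X)) ≤
      2 * C2 * (1 + L) ^ 4 * (X * x ^ (-(3 * u))) := by
    calc LLy * (C2 * Real.sqrt X * (1 + Real.log X)) ≤
        (2 * (1 + L) ^ 2) * (C2 * (X * x ^ (-(4 * u))) * (1 + L)) := by
          refine mul_le_mul hLL ?_ ?_ ?_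
          · exact mul_le_mul (mul_le_mul_of_nonneg_left hX3 hC2) hl (by linarith)
              (mul_nonneg hC2 (mul_nonneg hX0.le (hpos _).le))
          · exact mul_nonneg (mul_nonneg hC2 (Real.sqrt_nonneg _)) (by linarith)
          · positivity
      _ = 2 * C2 * (1 + L) ^ 3 * (X * x ^ (-(4 * u))) := by ring
      _ ≤ 2 * C2 * (1 + L) ^ 4 * (X * x ^ (-(3 * u))) := by
          refine mul_le_mul ?_ ?_ ?_ ?_
          · apply mul_le_mul_of_nonneg_left _ (by positivity)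
            exact pow_le_pow_right₀ (by linarith) (by norm_num)
          · apply mul_le_mul_of_nonneg_left _ hX0.le
            exact hmono _ _ (by linarith)
          · exact mul_nonneg hX0.le (hpos _).le
          · positivity
  have g2 : LLy * (10 / z) * (Cw * (N * (2 * L))) ≤ 40 * Cw * E * (1 + L) ^ 4 * (X * x ^ (-(3 * u))) := by
    have e1 : 10 / z = 10 * x ^ (-(200 * u)) := by
      rw [hz, Real.rpow_neg hx0.le, div_eq_mul_inv]
    rw [e1]
    calc LLy * (10 * x ^ (-(200 * u))) * (Cw * (N * (2 * L))) ≤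
        (2 * (1 + L) ^ 2) * (10 * x ^ (-(200 * u))) * (Cw * ((E * X) * (2 * (1 + L)))) := by
          refine mul_le_mul ?_ ?_ ?_ ?_
          · exact mul_le_mul_of_nonneg_right hLL (mul_nonneg (by norm_num) (hpos _).le)
          · refine mul_le_mul_of_nonneg_left ?_ hCw
            refine mul_le_mul hN (by linarith) (by linarith) (by positivity)
          · exact mul_nonneg hCw (mul_nonneg hN0 (by linarith))
          · exact mul_nonneg (by positivity) (mul_nonneg (by norm_num) (hpos _).le)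
      _ = 40 * Cw * E * (1 + L) ^ 3 * (X * x ^ (-(200 * u))) := by ring
      _ ≤ 40 * Cw * E * (1 + L) ^ 4 * (X * x ^ (-(3 * u))) := by
          refine mul_le_mul ?_ ?_ ?_ ?_
          · apply mul_le_mul_of_nonneg_left _ (by positivity)
            exact pow_le_pow_right₀ (by linarith) (by norm_num)
          · apply mul_le_mul_of_nonneg_left _ hX0.le
            exact hmono _ _ (by linarith)
          · exact mul_nonneg hX0.le (hpos _).le
          · positivity
  have g4 : (2 * C1 + 40 * Cw * E + 2 * C2) * (1 + L) ^ 4 * (X * x ^ (-(3 * u))) ≤ X * x ^ (-u) := by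
    calc (2 * C1 + 40 * Cw * E + 2 * C2) * (1 + L) ^ 4 * (X * x ^ (-(3 * u))) ≤
        x ^ (2 * u) * (X * x ^ (-(3 * u))) :=
          mul_le_mul_of_nonneg_right hK (mul_nonneg hX0.le (hpos _).le)
      _ = X * (x ^ (2 * u) * x ^ (-(3 * u))) := by ring
      _ = X * x ^ (-u) := by
          rw [hmul]
          congr 2
          ring
  linarith

theorem BL_main (Z : Zer γ w F A k0) {M : ℝ} (hM : 0 < M) {W : ℝ → ℝ} (hW : WS M W) :
    ∃ x0 : ℝ, ∀ x, x0 ≤ x → ∀ s ∈ SI (PP x) (range 9),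
      |BL W M x (yy x) s - x / s * Wm W * LL (yy x)| ≤ x / s * x ^ (-uu) := by
  obtain ⟨Cw, hCw0, hCw⟩ := ARM_bdd hW
  obtain ⟨C1, hC1, hps⟩ := psW_sub_thW hM hW
  obtain ⟨C2, x2, hC2, hth⟩ := thW_one Z hM hW
  have huu : (0 : ℝ) < uu := by unfold uu; norm_num
  have hu1 : 100000 * uu = 1 := by unfold uu; norm_num
  obtain ⟨Cd, hCd1, hCd⟩ := Pool.Agent.H94.Weyl.card_divisors_le (uu / 400) (by linarith)
  have ev1 := ARM_log (2 * C1 + 40 * Cw * Real.exp M + 2 * C2) (2 * uu) (by linarith)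
  have ev2 := (tendsto_rpow_atTop (show (0 : ℝ) < uu / 200 by linarith)).eventually_ge_atTop Cd
  have ev3 := (tendsto_rpow_atTop (show (0 : ℝ) < 49994 * uu by linarith)).eventually_ge_atTop x2
  have ev4 := (tendsto_rpow_atTop (show (0 : ℝ) < 25193 * uu by linarith)).eventually_ge_atTop
    (Real.exp M)
  have ev := ev1.and (ev2.and (ev3.and (ev4.and ((Filter.eventually_ge_atTop (Real.exp 1)).and
    (Filter.eventually_ge_atTop (Real.exp M))))))
  obtain ⟨x0, hx0⟩ := Filter.eventually_atTop.1 ev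
  refine ⟨x0, fun x hx s hs => ?_⟩
  obtain ⟨h1, h2, h3, h4, h5, h6⟩ := hx0 x hx
  have hx00 : 0 < x := (Real.exp_pos 1).trans_le h5
  have hL : 1 ≤ Real.log x := (Real.le_log_iff_exp_le hx00).2 h5
  have hx1 : 1 < x := by
    have := Real.add_one_lt_exp (one_ne_zero)
    linarith
  have hE1 : 1 ≤ Real.exp M := Real.one_le_exp hM.le
  have hpos : ∀ a : ℝ, 0 < x ^ a := fun a => Real.rpow_pos_of_pos hx00 a
  have hmono : ∀ a b : ℝ, a ≤ b → x ^ a ≤ x ^ b := fun a b hab =>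
    Real.rpow_le_rpow_of_exponent_le hx1.le hab
  have hmul : ∀ a b : ℝ, x ^ a * x ^ b = x ^ (a + b) := fun a b => (Real.rpow_add hx00 a b).symm
  have hx1' : x ^ (1 : ℝ) = x := Real.rpow_one x
  have hSy := pps_sy hx1
  obtain ⟨hs1, hs2⟩ := SI_range hx1 (Finset.Subset.refl _) hs
  obtain ⟨hsp1, -, hsp3⟩ := SI_primeFactors hSy hs
  rw [eI_range9] at hs1 hs2
  have hs0 : (0 : ℝ) < s := (hpos _).trans_le hs1
  have hsn : s ≠ 0 := by
    rintro rfl
    simp at hs0
  -- the range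
  set N := NN M x / s with hN
  set X := x / s with hX
  have hX0 : 0 < X := div_pos hx00 hs0
  have hNN : (NN M x : ℝ) ≤ x * Real.exp M := Nat.floor_le (by positivity)
  have hNX : (N : ℝ) ≤ Real.exp M * X := by
    refine Nat.cast_div_le.trans ?_
    rw [hX, mul_div_assoc']
    refine div_le_div_of_nonneg_right ?_ hs0.le
    rw [mul_comm]
    exact hNN
  have hNeq : NN M X = N := by
    rw [hN, hX]
    unfold NN
    rw [div_mul_eq_mul_div, Nat.floor_div_natCast]
  have hXlow : x ^ (49994 * uu) ≤ X := by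
    rw [hX, le_div_iff₀ hs0]
    calc x ^ (49994 * uu) * s ≤ x ^ (49994 * uu) * x ^ (50005 * uu + uu) :=
          mul_le_mul_of_nonneg_left hs2 (hpos _).le
      _ ≤ x := by
          rw [hmul]
          refine (hmono _ 1 ?_).trans hx1'.le
          linarith
  have hX1 : 1 ≤ X := le_trans (Real.one_le_rpow hx1.le (by linarith)) hXlow
  have hs1' : (1 : ℝ) ≤ s := le_trans (Real.one_le_rpow hx1.le (by linarith)) hs1
  have hXx : X ≤ x := div_le_self hx00.le hs1'
  have hlX : Real.log X ≤ Real.log x := Real.log_le_log hX0 hXx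
  have hlX0 : 0 ≤ Real.log X := Real.log_nonneg hX1
  have hsq : x ^ (24997 * uu) ≤ Real.sqrt X := by
    apply Real.le_sqrt_of_sq_le
    rw [← Real.rpow_natCast, ← Real.rpow_mul hx00.le]
    refine le_trans (hmono _ _ ?_) hXlow
    push_cast
    linarith
  have hyx : ((yy x : ℕ) : ℝ) ≤ x ^ (2 * uu) := by
    unfold yy
    exact Nat.floor_le (hpos _).le
  have hyx' : ((yy x : ℕ) : ℝ) ≤ x := hyx.trans ((hmono _ 1 (by linarith)).trans hx1'.le)
  have hLy : LL (yy x) ≤ 2 * (1 + Real.log x) ^ 2 := by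
    refine (LL_le _).trans ?_
    rcases Nat.eq_zero_or_pos (yy x) with hk0 | hk0
    · rw [hk0]
      simp only [Nat.cast_zero, Real.log_zero, add_zero]
      have e1 : (1 : ℝ) ^ 2 ≤ (1 + Real.log x) ^ 2 := pow_le_pow_left₀ (by norm_num) (by linarith) 2
      linarith
    · have e1 := Real.log_le_log (by exact_mod_cast hk0 : (0 : ℝ) < (yy x : ℕ)) hyx'
      have e2 : 0 ≤ Real.log (yy x : ℕ) := Real.log_natCast_nonneg _
      have e3 : (1 + Real.log (yy x : ℕ)) ^ 2 ≤ (1 + Real.log x) ^ 2 :=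
        pow_le_pow_left₀ (by linarith) (by linarith) 2
      linarith
  have hLy0 := LL_nonneg (yy x)
  -- divisor bound
  have hD : ∀ n : ℕ, 1 ≤ n → (n : ℝ) ≤ x ^ (2 : ℝ) → (n.divisors.card : ℝ) ≤ x ^ (uu / 100) := by
    intro n hn1 hn2
    refine (hCd n hn1).trans ?_
    have e2 : (n : ℝ) ^ (uu / 400) ≤ x ^ (uu / 200) := by
      calc (n : ℝ) ^ (uu / 400) ≤ (x ^ (2 : ℝ)) ^ (uu / 400) :=
            Real.rpow_le_rpow (Nat.cast_nonneg _) hn2 (by linarith)
        _ = x ^ (uu / 200) := by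
            rw [← Real.rpow_mul hx00.le]
            congr 1
            ring
    calc Cd * (n : ℝ) ^ (uu / 400) ≤ x ^ (uu / 200) * x ^ (uu / 200) :=
          mul_le_mul h2 e2 (by positivity) (hpos _).le
      _ = x ^ (uu / 100) := by rw [hmul]; congr 1; ring
  have hNx2 : (N : ℝ) ≤ x ^ (2 : ℝ) := by
    refine hNX.trans ?_
    rw [Real.rpow_two, pow_two]
    exact mul_le_mul h6 hXx hX0.le hx00.le
  have hphi : ∀ m : ℕ, m ≠ 0 → 0 ≤ (Nat.totient m : ℝ) / m ∧ (Nat.totient m : ℝ) / m ≤ 1 := by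
    intro m hm
    refine ⟨by positivity, ?_⟩
    rw [div_le_one (by exact_mod_cast Nat.pos_of_ne_zero hm)]
    exact_mod_cast Nat.totient_le m
  -- the function g
  set D : ℝ := x ^ (uu / 100) * (2 * (1 + Real.log x) ^ 2) with hDdef
  have hD0 : 0 < D := mul_pos (hpos _) (by positivity)
  set gr : ℕ → ℝ := fun n => if 2 ≤ n ∧ n ≤ N ∧ Nat.Coprime n s then
    GG (yy x) n * ((Nat.totient (n * s) : ℝ) / ((n * s : ℕ) : ℝ)) else 0 with hgr
  have hgb : ∀ n, |gr n| ≤ D := by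
    intro n
    simp only [hgr]
    split_ifs with h
    · obtain ⟨g1, g2, g3⟩ := h
      have hn1 : 1 ≤ n := by omega
      have e1 : |GG (yy x) n| ≤ D := by
        rw [GG_eq_GS]
        refine (abs_GS_le 1 (yy x) hn1).trans ?_
        refine mul_le_mul (hD n hn1 (le_trans ?_ hNx2)) hLy hLy0 (hpos _).le
        exact_mod_cast g2
      have e2 := hphi (n * s) (Nat.mul_ne_zero (by omega) hsn)
      rw [abs_mul, abs_of_nonneg e2.1]
      calc |GG (yy x) n| * ((Nat.totient (n * s) : ℝ) / ((n * s : ℕ) : ℝ)) ≤ D * 1 :=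
            mul_le_mul e1 e2.2 e2.1 hD0.le
        _ = D := mul_one D
    · rw [abs_zero]
      exact hD0.le
  have hBL : ((BL W M x (yy x) s : ℝ) : ℂ) = psW W M X (fun n => ((gr n : ℝ) : ℂ)) := by
    unfold BL psW
    rw [hNeq, ← hN, Complex.ofReal_sum, Finset.sum_filter]
    have e1 : Icc 2 N ⊆ Icc 1 N := Finset.Icc_subset_Icc (by norm_num) le_rfl
    rw [← Finset.sum_subset e1 (f := fun n => ((ArithmeticFunction.vonMangoldt n *
      W (Real.log (n / X)) : ℝ) : ℂ) * ((gr n : ℝ) : ℂ))]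
    · refine Finset.sum_congr rfl fun n hn => ?_
      have hn' := mem_Icc.1 hn
      have e2 : ((s * n : ℕ) : ℝ) / x = n / X := by
        rw [hX]
        push_cast
        field_simp
      simp only [hgr]
      split_ifs with c1 c2 c2
      · rw [e2]
        push_cast
        ring
      · exact absurd ⟨hn'.1, hn'.2, c1⟩ c2
      · exact absurd c2.2.2 c1
      · simp
    · intro n hn hn2
      have e3 : ¬ (2 ≤ n ∧ n ≤ N ∧ Nat.Coprime n s) := fun h => hn2 (mem_Icc.2 ⟨h.1, h.2.1⟩)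
      simp only [hgr]
      rw [if_neg e3]
      simp
  -- from `psW` to `thW`
  have hlin : ∀ g : ℕ → ℂ, psW W M X (fun n => (D : ℂ) * g n) - thW W M X (fun n => (D : ℂ) * g n) =
      (D : ℂ) * (psW W M X g - thW W M X g) := by
    intro g
    unfold psW thW
    rw [mul_sub, Finset.mul_sum, Finset.mul_sum]
    congr 1 <;> exact Finset.sum_congr rfl fun n _ => by ring
  have hstep1 : ‖psW W M X (fun n => ((gr n : ℝ) : ℂ)) - thW W M X (fun n => ((gr n : ℝ) : ℂ))‖ ≤
      D * (C1 * Real.sqrt X * (1 + Real.log X)) := by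
    have e1 : (fun n => ((gr n : ℝ) : ℂ)) = fun n => (D : ℂ) * (((gr n / D : ℝ)) : ℂ) := by
      funext n
      push_cast
      rw [mul_div_cancel₀]
      exact_mod_cast hD0.ne'
    rw [e1, hlin, norm_mul, Complex.norm_real, Real.norm_of_nonneg hD0.le]
    refine mul_le_mul_of_nonneg_left (hps X hX1 _ fun n => ?_) hD0.le
    rw [Complex.norm_real, Real.norm_eq_abs, abs_div, abs_of_pos hD0, div_le_one hD0]
    exact hgb n
  -- the primes
  have hprime : ∀ p ∈ (Icc 1 N).filter Nat.Prime,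
      ‖((Real.log p * W (Real.log (p / X)) : ℝ) : ℂ) * (((gr p : ℝ) : ℂ) - ((LL (yy x) : ℝ) : ℂ))‖ ≤
        LL (yy x) * (10 / x ^ (200 * uu)) * (Cw * (2 * Real.log x)) := by
    intro p hp
    rw [mem_filter, mem_Icc] at hp
    obtain ⟨⟨hp1, hpN⟩, hpp⟩ := hp
    have hp0 : (0 : ℝ) < p := by exact_mod_cast hp1
    have hrhs : 0 ≤ LL (yy x) * (10 / x ^ (200 * uu)) * (Cw * (2 * Real.log x)) := by
      have := (hpos (200 * uu)).le
      positivity
    by_cases hW0 : W (Real.log (p / X)) = 0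
    · rw [hW0]
      simpa using hrhs
    have habs : |Real.log (p / X)| < M := by
      by_contra hcon
      exact hW0 (hW.zero _ (not_lt.1 hcon))
    have hpbig : x ^ (24801 * uu) < p := by
      have e1 : -M < Real.log (p / X) := (abs_lt.1 habs).1
      have e2 : Real.exp (-M) < p / X := (Real.lt_log_iff_exp_lt (div_pos hp0 hX0)).1 e1
      rw [lt_div_iff₀ hX0, Real.exp_neg, inv_mul_eq_div, div_lt_iff₀ (Real.exp_pos M)] at e2
      have e3 : x ^ (24801 * uu) * x ^ (25193 * uu) < p * x ^ (25193 * uu) := by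
        calc x ^ (24801 * uu) * x ^ (25193 * uu) = x ^ (49994 * uu) := by
              rw [hmul]; congr 1; ring
          _ ≤ X := hXlow
          _ < p * Real.exp M := e2
          _ ≤ p * x ^ (25193 * uu) := mul_le_mul_of_nonneg_left h4 hp0.le
      exact lt_of_mul_lt_mul_right e3 (hpos _).le
    have hpy : yy x < p := by
      have e1 : ((yy x : ℕ) : ℝ) < p := hyx.trans_lt ((hmono _ _ (by linarith)).trans_lt hpbig)
      exact_mod_cast e1
    have hps : Nat.Coprime p s := by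
      rw [hpp.coprime_iff_not_dvd]
      intro hdvd
      obtain ⟨i, hi, hpi⟩ := hsp1 p hpp hdvd
      obtain ⟨k1, -, -, k4⟩ := Sir_mem_PP hpi
      have e1 : ex i ≤ 24800 * uu := by
        unfold ex
        apply mul_le_mul_of_nonneg_right _ huu.le
        have : exN i ≤ 24800 := by
          interval_cases i <;> simp [exN]
        exact_mod_cast this
      have e2 : x ^ (ex i + uu / 10) ≤ x ^ (24801 * uu) := hmono _ _ (by linarith)
      linarith
    have hgp : gr p = LL (yy x) * ((Nat.totient (p * s) : ℝ) / ((p * s : ℕ) : ℝ)) := by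
      simp only [hgr]
      rw [if_pos ⟨hpp.two_le, hpN, hps⟩, GG_prime hpp hpy]
    have hph := ARM_phi (m := p * s) (k := 10) (Nat.mul_ne_zero hpp.ne_zero hsn) (z := x ^ (200 * uu))
      (Real.one_le_rpow hx1.le (by linarith)) (by
        intro q hq
        rw [Nat.primeFactors_mul hpp.ne_zero hsn, mem_union] at hq
        rcases hq with hq | hq
        · rw [hpp.primeFactors, mem_singleton] at hq
          rw [hq]
          exact ((hmono _ _ (by linarith)).trans_lt hpbig).le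
        · have hq' := Nat.mem_primeFactors.1 hq
          obtain ⟨i, hi, hpi⟩ := hsp1 q hq'.1 hq'.2.1
          obtain ⟨k1, -, k3, -⟩ := Sir_mem_PP hpi
          exact ((hmono _ _ (Sir_ex_ge k1)).trans_lt k3).le) (by
        rw [Nat.primeFactors_mul hpp.ne_zero hsn]
        refine (card_union_le _ _).trans ?_
        rw [hpp.primeFactors, card_singleton, hsp3, card_range])
    have hdiff : |gr p - LL (yy x)| ≤ LL (yy x) * (10 / x ^ (200 * uu)) := by
      rw [hgp]
      have e1 : LL (yy x) * ((Nat.totient (p * s) : ℝ) / ((p * s : ℕ) : ℝ)) - LL (yy x) =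
          -(LL (yy x) * (1 - (Nat.totient (p * s) : ℝ) / ((p * s : ℕ) : ℝ))) := by ring
      rw [e1, abs_neg, abs_of_nonneg (mul_nonneg hLy0 (by linarith [hph.2]))]
      refine mul_le_mul_of_nonneg_left ?_ hLy0
      have := hph.1
      push_cast at this ⊢
      linarith
    have hlogp : 0 ≤ Real.log p ∧ Real.log p ≤ 2 * Real.log x := by
      refine ⟨Real.log_natCast_nonneg p, ?_⟩
      have e1 : (p : ℝ) ≤ x ^ (2 : ℝ) := le_trans (by exact_mod_cast hpN) hNx2
      calc Real.log p ≤ Real.log (x ^ (2 : ℝ)) := Real.log_le_log hp0 e1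
        _ = 2 * Real.log x := Real.log_rpow hx00 2
    rw [← Complex.ofReal_sub, ← Complex.ofReal_mul, Complex.norm_real, Real.norm_eq_abs, abs_mul,
      abs_mul, abs_of_nonneg hlogp.1, mul_comm]
    refine mul_le_mul hdiff ?_ (by positivity) (mul_nonneg hLy0 (div_nonneg (by norm_num) (hpos _).le))
    rw [mul_comm Cw]
    exact mul_le_mul hlogp.2 (hCw _) (abs_nonneg _) (by linarith)
  have hstep2 : ‖thW W M X (fun n => ((gr n : ℝ) : ℂ)) -
      ((LL (yy x) : ℝ) : ℂ) * thW W M X (fun _ => 1)‖ ≤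
      LL (yy x) * (10 / x ^ (200 * uu)) * (Cw * (N * (2 * Real.log x))) := by
    unfold thW
    rw [hNeq, Finset.mul_sum, ← Finset.sum_sub_distrib]
    refine (norm_sum_le _ _).trans ?_
    have e1 : ∀ p ∈ (Icc 1 N).filter Nat.Prime,
        ‖((Real.log p * W (Real.log (p / X)) : ℝ) : ℂ) * ((gr p : ℝ) : ℂ) -
          ((LL (yy x) : ℝ) : ℂ) * (((Real.log p * W (Real.log (p / X)) : ℝ) : ℂ) * 1)‖ ≤
        LL (yy x) * (10 / x ^ (200 * uu)) * (Cw * (2 * Real.log x)) := by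
      intro p hp
      have := hprime p hp
      convert this using 2
      ring
    refine (Finset.sum_le_sum e1).trans ?_
    rw [Finset.sum_const, nsmul_eq_mul]
    have e2 : (((Icc 1 N).filter Nat.Prime).card : ℝ) ≤ N := by
      have := Finset.card_filter_le (Icc 1 N) Nat.Prime
      rw [Nat.card_Icc, Nat.add_sub_cancel] at this
      exact_mod_cast this
    have hrhs : 0 ≤ LL (yy x) * (10 / x ^ (200 * uu)) * (Cw * (2 * Real.log x)) := by
      have := (hpos (200 * uu)).le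
      positivity
    calc (((Icc 1 N).filter Nat.Prime).card : ℝ) *
        (LL (yy x) * (10 / x ^ (200 * uu)) * (Cw * (2 * Real.log x))) ≤
        N * (LL (yy x) * (10 / x ^ (200 * uu)) * (Cw * (2 * Real.log x))) :=
          mul_le_mul_of_nonneg_right e2 hrhs
      _ = _ := by ring
  have hstep3 : ‖((LL (yy x) : ℝ) : ℂ) * thW W M X (fun _ => 1) -
      ((X * Wm W * LL (yy x) : ℝ) : ℂ)‖ ≤ LL (yy x) * (C2 * Real.sqrt X * (1 + Real.log X)) := by
    have e1 := hth X (h3.trans hXlow)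
    have e2 : ((LL (yy x) : ℝ) : ℂ) * thW W M X (fun _ => 1) - ((X * Wm W * LL (yy x) : ℝ) : ℂ) =
        ((LL (yy x) : ℝ) : ℂ) * (thW W M X (fun _ => 1) - ((X * ∫ η, W η * Real.exp η : ℝ) : ℂ)) := by
      unfold Wm
      push_cast
      ring
    rw [e2, norm_mul, Complex.norm_real, Real.norm_of_nonneg hLy0]
    exact mul_le_mul_of_nonneg_left e1 hLy0
  have hfin := ARM_fin (x := x) (L := Real.log x) (u := uu) (C1 := C1) (C2 := C2) (Cw := Cw)
    (E := Real.exp M) (X := X) (N := N) (D := D) (z := x ^ (200 * uu)) (LLy := LL (yy x)) hx1.le hL huu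
    hC1 hC2 hCw0 (Real.exp_pos M).le hX0 hsq hlX hlX0 hNX (Nat.cast_nonneg _) hD0.le le_rfl rfl hLy0 hLy h1
  have htot : |BL W M x (yy x) s - X * Wm W * LL (yy x)| =
      ‖((BL W M x (yy x) s : ℝ) : ℂ) - ((X * Wm W * LL (yy x) : ℝ) : ℂ)‖ := by
    rw [← Complex.ofReal_sub, Complex.norm_real, Real.norm_eq_abs]
  rw [htot, hBL]
  have htri : psW W M X (fun n => ((gr n : ℝ) : ℂ)) - ((X * Wm W * LL (yy x) : ℝ) : ℂ) =
      (psW W M X (fun n => ((gr n : ℝ) : ℂ)) - thW W M X (fun n => ((gr n : ℝ) : ℂ))) +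
      (thW W M X (fun n => ((gr n : ℝ) : ℂ)) - ((LL (yy x) : ℝ) : ℂ) * thW W M X (fun _ => 1)) +
      (((LL (yy x) : ℝ) : ℂ) * thW W M X (fun _ => 1) - ((X * Wm W * LL (yy x) : ℝ) : ℂ)) := by ring
  rw [htri]
  refine (norm_add_le _ _).trans ((add_le_add ((norm_add_le _ _).trans (add_le_add hstep1 hstep2))
    hstep3).trans hfin)

theorem BS_big (Z : Zer γ w F A k0) {M : ℝ} (hM : 0 < M) {W : ℝ → ℝ} (hW : WS M W) :
    ∃ x0 : ℝ, ∀ x, x0 ≤ x → ∀ s ∈ SI (PP x) (range 9), ∀ R : ℕ, x ^ (99997 / 2 * uu) ≤ R →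
      (R : ℝ) ≤ x ^ (1 / 2 : ℝ) →
      |BS W M x (yy x) s R - x / s * Wm W * LL (yy x)| ≤ x / s * x ^ (-(6 / 10 * uu)) := by
  obtain ⟨x1, hx1⟩ := BS_sub hM hW
  obtain ⟨x2, hx2⟩ := BL_main Z hM hW
  have huu : (0 : ℝ) < uu := by unfold uu; norm_num
  obtain ⟨x3, hx3⟩ := Filter.eventually_atTop.1
    ((tendsto_rpow_atTop (show (0 : ℝ) < uu / 10 by linarith)).eventually_ge_atTop 2)
  refine ⟨max (max x1 x2) (max x3 1), fun x hx s hs R hR1 hR2 => ?_⟩
  have h1 : x1 ≤ x := (le_max_left _ _).trans ((le_max_left _ _).trans hx)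
  have h2 : x2 ≤ x := (le_max_right _ _).trans ((le_max_left _ _).trans hx)
  have h3 : x3 ≤ x := (le_max_left _ _).trans ((le_max_right _ _).trans hx)
  have h4 : 1 ≤ x := (le_max_right _ _).trans ((le_max_right _ _).trans hx)
  have h0 : 0 < x := by linarith
  have e1 := hx1 x h1 s hs R hR1 hR2
  have e2 := hx2 x h2 s hs
  have e3 := hx3 x h3
  have e4 : |BS W M x (yy x) s R - x / s * Wm W * LL (yy x)| ≤
      x / s * x ^ (-(7 / 10 * uu)) + x / s * x ^ (-uu) := by
    have e5 : BS W M x (yy x) s R - x / s * Wm W * LL (yy x) =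
        (BS W M x (yy x) s R - BL W M x (yy x) s) +
        (BL W M x (yy x) s - x / s * Wm W * LL (yy x)) := by ring
    rw [e5]
    exact (abs_add_le _ _).trans (add_le_add e1 e2)
  refine e4.trans ?_
  have hxs : 0 ≤ x / s := by positivity
  have e6 : x ^ (-uu) ≤ x ^ (-(7 / 10 * uu)) := Real.rpow_le_rpow_of_exponent_le h4 (by linarith)
  have e7 : x ^ (-(7 / 10 * uu)) * 2 ≤ x ^ (-(6 / 10 * uu)) := by
    have e8 : x ^ (-(7 / 10 * uu)) * x ^ (uu / 10) = x ^ (-(6 / 10 * uu)) := by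
      rw [← Real.rpow_add h0]
      congr 1
      ring
    rw [← e8]
    exact mul_le_mul_of_nonneg_left e3 (Real.rpow_nonneg h0.le _)
  calc x / s * x ^ (-(7 / 10 * uu)) + x / s * x ^ (-uu) ≤
      x / s * x ^ (-(7 / 10 * uu)) + x / s * x ^ (-(7 / 10 * uu)) := by
        linarith [mul_le_mul_of_nonneg_left e6 hxs]
    _ = x / s * (x ^ (-(7 / 10 * uu)) * 2) := by ring
    _ ≤ x / s * x ^ (-(6 / 10 * uu)) := mul_le_mul_of_nonneg_left e7 hxs

end H69BG
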