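import Pool.Agent.H69.BG.ArDefs

/-!
# ARN: divisors of the elements of `SI P I`, and the vanishing of the main terms

* `sum_SI_divisors`: induct on `I` (`Finset.induction_on`). `I = ∅`: `SI = {1}`. Step `insert i I` (`i ∉ I`): `sum_SI_union` for `{i}`, `I` (`SI_singleton`): `s = p s0`; the divisors of `p s0` (`p` prime, `p ∤ s0`) are the `T` and the
  `p T`, `T ∣ s0` (`Nat.Coprime` factors; `Nat.divisors_mul`-type lemma or `Nat.Coprime.sum_divisors_mul`). Use the induction hypothesis for `(T, s0) ↦ F T (p s0)` and for `(T, s0) ↦ F (p T) (p s0)`, and on the right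
  `(insert i I).powerset` = the subsets `I'` of `I` and the sets `insert i I'` (`Finset.sum_powerset_insert`), with `sum_SI_union` again: for `I' ⊆ I`: `insert i I \ I' = insert i (I \ I')`; for `insert i I'`:
  `insert i I \ insert i I' = I \ I'`. Alternatively directly: `T ↦ (I' = the i with a prime of P i dividing T)`.
* `main_zero`: by `sum_SI_divisors` and `sum_inv_SI` the left side is `∑_I (-1)^{|I|} κ_{range 9 \ I} ∑_{I' ⊆ I} ∑_{T ∈ SI I'} (μ(T)/T) Φ(T) κ_{I \ I'}`. Exchange: `∑_{I'} (∑_{T ∈ SI I'} (μ(T)/T) Φ(T)) ∑_{I' ⊆ I ⊆ range 9} (-1)^{|I|}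
  κ_{range 9 \ I} κ_{I \ I'}`, and `κ_{range 9 \ I} κ_{I \ I'} = κ_{range 9 \ I'}`, `∑_{I' ⊆ I ⊆ range 9} (-1)^{|I|} = 0` for `I' ≠ range 9` (`Finset.sum_powerset_neg_one_pow_card` for `range 9 \ I'`, `I = I' ∪ J`;
  Mathlib: `Finset.sum_powerset_neg_one_pow_card_of_nonempty`); for `I' = range 9` all `Φ(T)` are `0`.
-/

open Finset H69LB

namespace H69BG

private theorem ArN_div {p s : ℕ} (hp : p.Prime) (h : Nat.Coprime p s) (hs : s ≠ 0) (G : ℕ → ℝ) :
    ∑ T ∈ (p * s).divisors, G T = ∑ T ∈ s.divisors, G T + ∑ T ∈ s.divisors, G (p * T) := by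
  classical
  have h1 : (p * s).divisors = s.divisors ∪ s.divisors.image (fun T => p * T) := by
    ext T
    rw [Finset.mem_union, Finset.mem_image, Nat.mem_divisors, Nat.mem_divisors]
    constructor
    · rintro ⟨hT, -⟩
      by_cases hpT : p ∣ T
      · obtain ⟨T', rfl⟩ := hpT
        exact Or.inr ⟨T', Nat.mem_divisors.2 ⟨Nat.dvd_of_mul_dvd_mul_left hp.pos hT, hs⟩, rfl⟩
      · left
        have hc : Nat.Coprime T p := ((hp.coprime_iff_not_dvd).2 hpT).symm
        exact ⟨hc.dvd_of_dvd_mul_left hT, hs⟩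
    · rintro (⟨hT, -⟩ | ⟨T', hT', rfl⟩)
      · exact ⟨hT.mul_left p, mul_ne_zero hp.ne_zero hs⟩
      · exact ⟨Nat.mul_dvd_mul_left p (Nat.mem_divisors.1 hT').1, mul_ne_zero hp.ne_zero hs⟩
  have h2 : Disjoint s.divisors (s.divisors.image (fun T => p * T)) := by
    rw [Finset.disjoint_left]
    intro T hT hT'
    obtain ⟨T', -, rfl⟩ := Finset.mem_image.1 hT'
    have h3 : p ∣ s := (Dvd.intro _ rfl).trans (Nat.mem_divisors.1 hT).1
    exact (hp.coprime_iff_not_dvd.1 h) h3
  rw [h1, Finset.sum_union h2, Finset.sum_image]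
  intro a _ b _ hab
  exact Nat.eq_of_mul_eq_mul_left hp.pos hab

private theorem ArN_pow (x : Finset ℕ) (h0 : x.Nonempty) : ∑ m ∈ x.powerset, (-1 : ℝ) ^ m.card = 0 := by
  have h := Finset.sum_powerset_neg_one_pow_card_of_nonempty h0
  exact_mod_cast congrArg (Int.cast : ℤ → ℝ) h

private theorem ArN_kI (P : ℕ → Finset ℕ) {A B : Finset ℕ} (h : Disjoint A B) :
    kI P (A ∪ B) = kI P A * kI P B := Finset.prod_union h

theorem sum_SI_divisors {P : ℕ → Finset ℕ} {z : ℕ} (hS : Sy P z) (I : Finset ℕ) (F : ℕ → ℕ → ℝ) :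
    ∑ s ∈ SI P I, ∑ T ∈ s.divisors, F T s
      = ∑ I' ∈ I.powerset, ∑ T ∈ SI P I', ∑ s' ∈ SI P (I \ I'), F T (T * s') := by
  classical
  induction I using Finset.induction_on generalizing F with
  | empty =>
    rw [Finset.powerset_empty, Finset.sum_singleton, Finset.sdiff_self, SI_empty, Finset.sum_singleton,
      Finset.sum_singleton, Finset.sum_singleton, Nat.divisors_one, Finset.sum_singleton, mul_one]
  | insert i I hi ih =>
    have hd : Disjoint {i} I := Finset.disjoint_singleton_left.2 hi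
    have hpos : ∀ s0 ∈ SI P I, s0 ≠ 0 := fun s0 hs0 => (SI_squarefree hS hs0).ne_zero
    have e1 : ∑ s ∈ SI P (insert i I), ∑ T ∈ s.divisors, F T s
        = ∑ p ∈ P i, (∑ s0 ∈ SI P I, ∑ T ∈ s0.divisors, F T (p * s0)
          + ∑ s0 ∈ SI P I, ∑ T ∈ s0.divisors, F (p * T) (p * s0)) := by
      rw [Finset.insert_eq, sum_SI_union hS hd, SI_singleton]
      refine Finset.sum_congr rfl fun p hp => ?_
      rw [← Finset.sum_add_distrib]
      refine Finset.sum_congr rfl fun s0 hs0 => ?_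
      refine ArN_div (hS.prime i p hp) ?_ (hpos s0 hs0) fun T => F T (p * s0)
      refine SI_coprime hS hd ?_ hs0
      rw [SI_singleton]
      exact hp
    have e2 : ∀ p, ∑ s0 ∈ SI P I, ∑ T ∈ s0.divisors, F T (p * s0)
        = ∑ I' ∈ I.powerset, ∑ T ∈ SI P I', ∑ s' ∈ SI P (I \ I'), F T (p * (T * s')) :=
      fun p => ih fun T s => F T (p * s)
    have e3 : ∀ p, ∑ s0 ∈ SI P I, ∑ T ∈ s0.divisors, F (p * T) (p * s0)
        = ∑ I' ∈ I.powerset, ∑ T ∈ SI P I', ∑ s' ∈ SI P (I \ I'), F (p * T) (p * (T * s')) :=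
      fun p => ih fun T s => F (p * T) (p * s)
    rw [e1, Finset.sum_powerset_insert hi, Finset.sum_add_distrib]
    congr 1
    · simp only [e2]
      rw [Finset.sum_comm]
      refine Finset.sum_congr rfl fun I' hI' => ?_
      have hI'' : I' ⊆ I := Finset.mem_powerset.1 hI'
      have hi' : i ∉ I' := fun h => hi (hI'' h)
      rw [Finset.sum_comm]
      refine Finset.sum_congr rfl fun T _ => ?_
      have hd' : Disjoint {i} (I \ I') :=
        Finset.disjoint_singleton_left.2 fun h => hi (Finset.mem_sdiff.1 h).1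
      rw [Finset.insert_sdiff_of_notMem _ hi', Finset.insert_eq, sum_SI_union hS hd', SI_singleton]
      refine Finset.sum_congr rfl fun p _ => Finset.sum_congr rfl fun s' _ => ?_
      rw [mul_left_comm]
    · simp only [e3]
      rw [Finset.sum_comm]
      refine Finset.sum_congr rfl fun I' hI' => ?_
      have hI'' : I' ⊆ I := Finset.mem_powerset.1 hI'
      have hi' : i ∉ I' := fun h => hi (hI'' h)
      have hd' : Disjoint {i} I' := Finset.disjoint_singleton_left.2 hi'
      have e4 : insert i I \ insert i I' = I \ I' := by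
        ext j
        simp only [Finset.mem_sdiff, Finset.mem_insert, not_or]
        constructor
        · rintro ⟨h1, h2, h3⟩
          exact ⟨h1.resolve_left h2, h3⟩
        · rintro ⟨h1, h2⟩
          exact ⟨Or.inr h1, fun h => hi (h ▸ h1), h2⟩
      rw [e4, Finset.insert_eq, sum_SI_union hS hd', SI_singleton]
      refine Finset.sum_congr rfl fun p _ => Finset.sum_congr rfl fun T _ =>
        Finset.sum_congr rfl fun s' _ => ?_
      rw [mul_assoc]

private theorem ArN_zero {P : ℕ → Finset ℕ} {z : ℕ} (hS : Sy P z) (Φ : ℕ → ℝ) (R : Finset ℕ)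
    (hΦ : ∀ T ∈ SI P R, Φ T = 0) :
    ∑ I ∈ R.powerset, (-1 : ℝ) ^ I.card * kI P (R \ I) *
      ∑ s ∈ SI P I, ∑ T ∈ s.divisors, (ArithmeticFunction.moebius T : ℝ) * ((1 / (s : ℝ)) * Φ T) = 0 := by
  classical
  have e1 : ∀ I ∈ R.powerset, (-1 : ℝ) ^ I.card * kI P (R \ I) *
      ∑ s ∈ SI P I, ∑ T ∈ s.divisors, (ArithmeticFunction.moebius T : ℝ) * ((1 / (s : ℝ)) * Φ T)
      = ∑ I' ∈ I.powerset, (∑ T ∈ SI P I', (ArithmeticFunction.moebius T : ℝ) * (1 / (T : ℝ)) * Φ T) *
          kI P (R \ I') * (-1 : ℝ) ^ I.card := by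
    intro I hI
    have hIR : I ⊆ R := Finset.mem_powerset.1 hI
    rw [sum_SI_divisors hS I fun T s => (ArithmeticFunction.moebius T : ℝ) * ((1 / (s : ℝ)) * Φ T),
      Finset.mul_sum]
    refine Finset.sum_congr rfl fun I' hI' => ?_
    have hI'' : I' ⊆ I := Finset.mem_powerset.1 hI'
    have hk : kI P (R \ I') = kI P (R \ I) * kI P (I \ I') := by
      rw [← ArN_kI]
      · congr 1
        ext j
        simp only [Finset.mem_sdiff, Finset.mem_union]
        constructor
        · rintro ⟨h1, h2⟩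
          by_cases hj : j ∈ I
          · exact Or.inr ⟨hj, h2⟩
          · exact Or.inl ⟨h1, hj⟩
        · rintro (⟨h1, h2⟩ | ⟨h1, h2⟩)
          · exact ⟨h1, fun h => h2 (hI'' h)⟩
          · exact ⟨hIR h1, h2⟩
      · rw [Finset.disjoint_left]
        intro j hj hj'
        exact (Finset.mem_sdiff.1 hj).2 (Finset.mem_sdiff.1 hj').1
    have e2 : ∑ T ∈ SI P I', ∑ s' ∈ SI P (I \ I'),
        (ArithmeticFunction.moebius T : ℝ) * ((1 / ((T * s' : ℕ) : ℝ)) * Φ T)
        = (∑ T ∈ SI P I', (ArithmeticFunction.moebius T : ℝ) * (1 / (T : ℝ)) * Φ T) * kI P (I \ I') := by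
      rw [← sum_inv_SI hS, Finset.sum_mul]
      refine Finset.sum_congr rfl fun T _ => ?_
      rw [Finset.mul_sum]
      refine Finset.sum_congr rfl fun s' _ => ?_
      rw [Nat.cast_mul, ← one_div_mul_one_div]
      ring
    rw [e2, hk]
    ring
  rw [Finset.sum_congr rfl e1, Finset.sum_sigma']
  have e5 : ∑ x ∈ R.powerset.sigma fun I => I.powerset,
      (∑ T ∈ SI P x.2, (ArithmeticFunction.moebius T : ℝ) * (1 / (T : ℝ)) * Φ T) *
          kI P (R \ x.2) * (-1 : ℝ) ^ x.1.card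
      = ∑ y ∈ R.powerset.sigma fun I' => (R \ I').powerset,
        (∑ T ∈ SI P y.1, (ArithmeticFunction.moebius T : ℝ) * (1 / (T : ℝ)) * Φ T) *
          kI P (R \ y.1) * ((-1 : ℝ) ^ y.1.card * (-1 : ℝ) ^ y.2.card) := by
    refine Finset.sum_bij' (fun x _ => ⟨x.2, x.1 \ x.2⟩) (fun y _ => ⟨y.1 ∪ y.2, y.1⟩) ?_ ?_ ?_ ?_ ?_
    · rintro ⟨I, I'⟩ h
      simp only [Finset.mem_sigma, Finset.mem_powerset] at h ⊢
      exact ⟨h.2.trans h.1, Finset.sdiff_subset_sdiff h.1 (Finset.Subset.refl _)⟩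
    · rintro ⟨I', J⟩ h
      simp only [Finset.mem_sigma, Finset.mem_powerset] at h ⊢
      exact ⟨Finset.union_subset h.1 (h.2.trans Finset.sdiff_subset), Finset.subset_union_left⟩
    · rintro ⟨I, I'⟩ h
      simp only [Finset.mem_sigma, Finset.mem_powerset] at h
      simp only [Finset.union_sdiff_of_subset h.2]
    · rintro ⟨I', J⟩ h
      simp only [Finset.mem_sigma, Finset.mem_powerset] at h
      have hdj : Disjoint I' J := by
        rw [Finset.disjoint_left]
        intro j hj hj'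
        exact (Finset.mem_sdiff.1 (h.2 hj')).2 hj
      simp only [Finset.union_sdiff_cancel_left hdj]
    · rintro ⟨I, I'⟩ h
      simp only [Finset.mem_sigma, Finset.mem_powerset] at h
      simp only
      rw [← pow_add, ← Finset.card_sdiff_add_card_eq_card h.2, add_comm (I \ I').card]
  rw [e5, Finset.sum_sigma]
  refine Finset.sum_eq_zero fun I' hI' => ?_
  simp only
  rw [← Finset.mul_sum, ← Finset.mul_sum]
  by_cases h9 : I' = R
  · have h0 : ∑ T ∈ SI P I', (ArithmeticFunction.moebius T : ℝ) * (1 / (T : ℝ)) * Φ T = 0 := by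
      refine Finset.sum_eq_zero fun T hT => ?_
      rw [hΦ T (h9 ▸ hT), mul_zero]
    rw [h0, zero_mul, zero_mul]
  · have hne : (R \ I').Nonempty := by
      rw [Finset.sdiff_nonempty]
      intro h
      exact h9 (Finset.Subset.antisymm (Finset.mem_powerset.1 hI') h)
    rw [ArN_pow _ hne, mul_zero, mul_zero]

theorem main_zero {P : ℕ → Finset ℕ} {z : ℕ} (hS : Sy P z) (Φ : ℕ → ℝ) (hΦ : ∀ T ∈ SI P (range 9), Φ T = 0) :
    ∑ I ∈ (range 9).powerset, (-1 : ℝ) ^ I.card * kI P (range 9 \ I) *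
      ∑ s ∈ SI P I, ∑ T ∈ s.divisors, (ArithmeticFunction.moebius T : ℝ) * ((1 / (s : ℝ)) * Φ T) = 0 := by
  exact ArN_zero hS Φ (range 9) hΦ

end H69BG
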