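import Pool.Agent.H69.BG.ArC

/-!
# ARO: the expansion of the correlation

`corr W M x (GG R) 0 = ∑_{n ≤ N} W(log(n/x)) GG R n · GG y n · g9 x n`, `N = NN M x`, `y = yy x`. `gI_eq` (`pps_sy`): `g9 x n = ∑_{I ⊆ range 9} (-1)^{|I|} κ_{range 9 \ I} #{s ∈ SI I : s ∣ n}`. Exchange the sums: for `s ∈ SI I` the sum over
`n ≤ N`, `s ∣ n`, `n = s n'`, `n' ≤ N / s` (`s ≥ 1`; `Nat.le_div_iff_mul_le`; `Finset.sum_bij'` or `sum_nbij'`), of `W(log(s n'/x)) GG R (s n') GG y (s n')`. `GG_mul_small`: every `q ≤ y ≤ zz x` (`x^{2u} ≤ x^{200u}`, `Nat.floor_mono`) is coprime to `s`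
(`SI_coprime_small`), so `GG y (s n') = GG y n'`; `GG_mul` (`SI_squarefree`): `GG R (s n') = ∑_{T ∣ s} μ(T) GS s (R/T) n'`. The inner sum is `∑_{T ∣ s} μ(T) BS W M x y s (R/T)`.
-/

open Finset H69LB

namespace H69BG

theorem yy_le_zz {x : ℝ} (hx : 1 ≤ x) : yy x ≤ zz x := by
  have hu : (0 : ℝ) < uu := Sir_uu_pos
  unfold yy zz
  refine Nat.floor_le_floor (Real.rpow_le_rpow_of_exponent_le hx ?_)
  linarith

private theorem ArO_mult {s N : ℕ} (hs : 1 ≤ s) (F : ℕ → ℝ) :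
    ∑ n ∈ (Icc 1 N).filter (fun n => s ∣ n), F n = ∑ n ∈ Icc 1 (N / s), F (s * n) := by
  symm
  refine Finset.sum_bij' (fun n _ => s * n) (fun n _ => n / s) ?_ ?_ ?_ ?_ ?_
  · intro n hn
    rw [Finset.mem_Icc] at hn
    rw [Finset.mem_filter, Finset.mem_Icc]
    refine ⟨⟨Nat.mul_pos hs hn.1, ?_⟩, Dvd.intro _ rfl⟩
    have := (Nat.le_div_iff_mul_le (by omega : 0 < s)).1 hn.2
    rwa [mul_comm] at this
  · intro n hn
    rw [Finset.mem_filter, Finset.mem_Icc] at hn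
    rw [Finset.mem_Icc]
    obtain ⟨⟨h1, h2⟩, h3⟩ := hn
    refine ⟨?_, Nat.div_le_div_right h2⟩
    exact Nat.div_pos (Nat.le_of_dvd (by omega) h3) (by omega)
  · intro n _
    exact Nat.mul_div_cancel_left n (by omega)
  · intro n hn
    rw [Finset.mem_filter] at hn
    exact Nat.mul_div_cancel' hn.2
  · intro n _
    rfl

theorem corr_eq (W : ℝ → ℝ) (M : ℝ) {x : ℝ} (hx : 1 < x) (R : ℕ) :
    corr W M x (fun n => GG R n) 0 = ∑ I ∈ (range 9).powerset, (-1 : ℝ) ^ I.card * kI (PP x) (range 9 \ I) *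
      ∑ s ∈ SI (PP x) I, ∑ T ∈ s.divisors, (ArithmeticFunction.moebius T : ℝ) * BS W M x (yy x) s (R / T) := by
  have hS := pps_sy hx
  set F : ℕ → ℝ := fun n => W (Real.log (n / x)) * GG R n * GG (yy x) n with hF
  have h1 : corr W M x (fun n => GG R n) 0 = ∑ n ∈ Icc 1 (NN M x), ∑ I ∈ (range 9).powerset,
      ∑ s ∈ SI (PP x) I, (-1 : ℝ) ^ I.card * kI (PP x) (range 9 \ I) * (if s ∣ n then F n else 0) := by
    unfold corr
    refine Finset.sum_congr rfl fun n _ => ?_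
    rw [sub_zero]
    unfold g2 g9
    rw [gI_eq hS, Finset.mul_sum, Finset.mul_sum]
    refine Finset.sum_congr rfl fun I _ => ?_
    rw [Finset.card_filter, Nat.cast_sum, Finset.mul_sum, Finset.mul_sum, Finset.mul_sum]
    refine Finset.sum_congr rfl fun s _ => ?_
    rw [hF]
    by_cases h : s ∣ n
    · rw [if_pos h, if_pos (Int.natCast_dvd_natCast.2 h)]
      push_cast
      ring
    · rw [if_neg h, if_neg (fun h' => h (Int.natCast_dvd_natCast.1 h'))]
      push_cast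
      ring
  rw [h1, Finset.sum_comm]
  refine Finset.sum_congr rfl fun I _ => ?_
  rw [Finset.sum_comm, Finset.mul_sum]
  refine Finset.sum_congr rfl fun s hs => ?_
  rw [← Finset.mul_sum]
  congr 1
  have hsq := SI_squarefree hS hs
  have hs1 : 1 ≤ s := Nat.pos_of_ne_zero hsq.ne_zero
  rw [← Finset.sum_filter, ArO_mult hs1]
  have h2 : ∀ n : ℕ, F (s * n) = ∑ T ∈ s.divisors, (ArithmeticFunction.moebius T : ℝ) *
      (W (Real.log ((s * n : ℕ) / x)) * GG (yy x) n * GS s (R / T) n) := by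
    intro n
    rw [hF]
    simp only
    have h3 : GG R ((s * n : ℕ) : ℤ) = ∑ T ∈ s.divisors, (ArithmeticFunction.moebius T : ℝ) * GS s (R / T) n := by
      have := GG_mul hsq R (n : ℤ)
      rwa [← Nat.cast_mul] at this
    have h4 : GG (yy x) ((s * n : ℕ) : ℤ) = GG (yy x) n := by
      have := GG_mul_small (y := yy x) (s := s) (fun q hq hqy =>
        (SI_coprime_small hS hs hq (hqy.trans (yy_le_zz hx.le))).symm) (n : ℤ)
      rwa [← Nat.cast_mul] at this
    rw [h3, h4, Finset.mul_sum, Finset.sum_mul]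
    refine Finset.sum_congr rfl fun T _ => ?_
    ring
  rw [Finset.sum_congr rfl fun n _ => h2 n, Finset.sum_comm]
  refine Finset.sum_congr rfl fun T _ => ?_
  unfold BS
  rw [← Finset.mul_sum]

end H69BG
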