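import Pool.Agent.H69.BG.ArPa
import Pool.Agent.H69.BG.ArM
import Pool.Agent.H69.BG.ArN

/-!
# ARP: (F3), the orthogonality of `g1` and `g2`

Notation: `u = uu`, `y = yy x`. Insert `BS W M x y s R' = (x/s) Wm LL(min y R') + (error of absolute value er W M x s R')`, `R' = R/T`, into `corr_eq`: the main terms are
`x Wm W · ∑_I (-1)^{|I|} κ_{range 9 \ I} ∑_s ∑_{T ∣ s} μ(T) ((1/s) Φ(T))`, `Φ(T) = LL(min y (R/T))`; for `T ∈ SI (range 9)`: `T > x^{50005u} > x^{1/2} ≥ R` (`SI_range'`, `eI_range9`), so `R/T = 0`, `Φ(T) = LL 0 = 0`, and the sum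
vanishes by `main_zero`. So `|corr| ≤ ∑_I κ_{range 9 \ I} ∑_{s ∈ SI I} ∑_{T ∣ s} er W M x s (R/T)` (`|μ| ≤ 1`), `0 ≤ κ_J ≤ Cd^9` (`pps_b`: `kap ≤ Cd`, `1 ≤ Cd`).
* `I ≠ range 9`: `er_small`. `I = range 9`, `T ≠ 1`: `er_div`. `I = range 9`, `T = 1`, `R ≤ x^{2/5}`: `er_low`.
* `I = range 9`, `T = 1`, `R ≥ x^{99997/2 u}`: `min y R = y` (`y ≤ x^{2u} ≤ R`), so by `BS_big` `∑_s er ≤ ∑_s (x/s) x^{-0.6u} = x^{1 - 0.6u} κ* ≤ Cd^9 x^{1 - 0.6u}` (`sum_inv_SI`).
Altogether `≤ 2^9 Cd^9 · 3 x^{1 - 100u} + Cd^9 x^{1 - 0.6u} ≤ x^{1 - u/2}` for large `x`.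
-/

open Finset H69LB

namespace H69BG

variable {ι : Type} [Countable ι] {γ w : ι → ℝ} {F : ℝ → Finset ι} {A : ℝ → ℝ} {k0 : ℝ}

theorem ArP_kI {P : ℕ → Finset ℕ} {N Cd : ℕ} (hB : SyB P N Cd) {J : Finset ℕ}
    (hJ : J ⊆ range 9) : 0 ≤ kI P J ∧ kI P J ≤ (Cd : ℝ) ^ 9 := by
  have hC : (1 : ℝ) ≤ Cd := by exact_mod_cast hB.one_le
  have h3 : ∀ i, 0 ≤ kap P i := fun i => Finset.sum_nonneg fun p _ => by positivity
  unfold kI
  refine ⟨Finset.prod_nonneg fun i _ => h3 i, ?_⟩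
  calc ∏ i ∈ J, kap P i ≤ ∏ _i ∈ J, (Cd : ℝ) :=
        Finset.prod_le_prod (fun i _ => h3 i) fun i hi => hB.kap i (Finset.mem_range.1 (hJ hi))
    _ = (Cd : ℝ) ^ J.card := by rw [Finset.prod_const]
    _ ≤ (Cd : ℝ) ^ 9 := by
        apply pow_le_pow_right₀ hC
        have := Finset.card_le_card hJ
        simpa using this

/-- the correlation is bounded by the sum of the errors -/
theorem ArP_corr (W : ℝ → ℝ) (M : ℝ) {x : ℝ} (hx : 1 < x) {N Cd : ℕ} (hB : SyB (PP x) N Cd)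
    {R : ℕ} (hR : (R : ℝ) ≤ x ^ (1 / 2 : ℝ)) :
    |corr W M x (fun n => GG R n) 0| ≤ ∑ I ∈ (range 9).powerset, (Cd : ℝ) ^ 9 *
      ∑ s ∈ SI (PP x) I, ∑ T ∈ s.divisors, er W M x s (R / T) := by
  have hu := Sir_uu_pos
  have hz := main_zero (pps_sy hx) (fun T => LL (min (yy x) (R / T))) (by
    intro T hT
    have h1 := (SI_range hx (Finset.Subset.refl _) hT).1
    rw [eI_range9] at h1
    have h2 : x ^ (1 / 2 : ℝ) < x ^ (50005 * uu) := by
      apply Real.rpow_lt_rpow_of_exponent_lt hx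
      unfold uu
      norm_num
    have h3 : R < T := by
      have : (R : ℝ) < T := by linarith
      exact_mod_cast this
    rw [Nat.div_eq_of_lt h3]
    simp [LL])
  have e : corr W M x (fun n => GG R n) 0 = ∑ I ∈ (range 9).powerset,
      (-1 : ℝ) ^ I.card * kI (PP x) (range 9 \ I) * ∑ s ∈ SI (PP x) I, ∑ T ∈ s.divisors,
        (ArithmeticFunction.moebius T : ℝ) *
          (BS W M x (yy x) s (R / T) - x / s * Wm W * LL (min (yy x) (R / T))) := by
    have e1 : ∑ I ∈ (range 9).powerset,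
      (-1 : ℝ) ^ I.card * kI (PP x) (range 9 \ I) * ∑ s ∈ SI (PP x) I, ∑ T ∈ s.divisors,
        (ArithmeticFunction.moebius T : ℝ) *
          (BS W M x (yy x) s (R / T) - x / s * Wm W * LL (min (yy x) (R / T))) =
      (∑ I ∈ (range 9).powerset, (-1 : ℝ) ^ I.card * kI (PP x) (range 9 \ I) *
        ∑ s ∈ SI (PP x) I, ∑ T ∈ s.divisors,
          (ArithmeticFunction.moebius T : ℝ) * BS W M x (yy x) s (R / T)) -
      x * Wm W * ∑ I ∈ (range 9).powerset, (-1 : ℝ) ^ I.card * kI (PP x) (range 9 \ I) *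
      ∑ s ∈ SI (PP x) I, ∑ T ∈ s.divisors, (ArithmeticFunction.moebius T : ℝ) *
        ((1 / (s : ℝ)) * LL (min (yy x) (R / T))) := by
      rw [Finset.mul_sum, ← Finset.sum_sub_distrib]
      refine Finset.sum_congr rfl fun I _ => ?_
      rw [mul_left_comm, ← mul_sub]
      congr 1
      rw [Finset.mul_sum, ← Finset.sum_sub_distrib]
      refine Finset.sum_congr rfl fun s _ => ?_
      rw [Finset.mul_sum, ← Finset.sum_sub_distrib]
      refine Finset.sum_congr rfl fun T _ => ?_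
      ring
    rw [e1, hz, mul_zero, sub_zero]
    exact corr_eq W M hx R
  rw [e]
  refine (abs_sum_le_sum_abs _ _).trans (Finset.sum_le_sum fun I _ => ?_)
  rw [abs_mul]
  have hk := ArP_kI hB (J := range 9 \ I) sdiff_subset
  have hk' : |(-1 : ℝ) ^ I.card * kI (PP x) (range 9 \ I)| ≤ (Cd : ℝ) ^ 9 := by
    rw [abs_mul, abs_pow, abs_neg, abs_one, one_pow, one_mul, abs_of_nonneg hk.1]
    exact hk.2
  refine mul_le_mul hk' ?_ (abs_nonneg _) (by positivity)
  refine (abs_sum_le_sum_abs _ _).trans (Finset.sum_le_sum fun s _ => ?_)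
  refine (abs_sum_le_sum_abs _ _).trans (Finset.sum_le_sum fun T _ => ?_)
  rw [abs_mul]
  have hmu : |(ArithmeticFunction.moebius T : ℝ)| ≤ 1 := by
    have h := ArithmeticFunction.abs_moebius_le_one (n := T)
    exact_mod_cast h
  exact mul_le_of_le_one_left (abs_nonneg _) hmu

theorem F3 (Z : Zer γ w F A k0) {M : ℝ} (hM : 0 < M) {W : ℝ → ℝ} (hW : WS M W) :
    ∃ x0 : ℝ, ∀ x, x0 ≤ x → ∀ R : ℕ, (R : ℝ) ≤ x ^ (1 / 2 : ℝ) →
      ((R : ℝ) ≤ x ^ (2 / 5 : ℝ) ∨ x ^ (99997 / 2 * uu) ≤ R) →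
      |corr W M x (fun n => GG R n) 0| ≤ x ^ (1 - uu / 2) := by
  have hu := Sir_uu_pos
  obtain ⟨x1, h1⟩ := er_small hM hW
  obtain ⟨x2, h2⟩ := er_div hM hW
  obtain ⟨x3, h3⟩ := er_low hM hW
  obtain ⟨x4, h4⟩ := BS_big Z hM hW
  obtain ⟨Cd, x5, h5⟩ := pps_b
  obtain ⟨C, hCd⟩ : ∃ C, C = (Cd : ℝ) ^ 9 := ⟨_, rfl⟩
  have hC0 : 0 ≤ C := by rw [hCd]; positivity
  obtain ⟨K, hK⟩ : ∃ K, K = 512 * C * (2 + C) := ⟨_, rfl⟩
  have hK0 : 0 ≤ K := by rw [hK]; positivity
  refine ⟨max (max (max x1 x2) (max x3 x4)) (max (max x5 2) (K ^ (10 / uu))),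
    fun x hx R hR hR' => ?_⟩
  have hxa : max (max x1 x2) (max x3 x4) ≤ x := (le_max_left _ _).trans hx
  have hxb : max (max x5 2) (K ^ (10 / uu)) ≤ x := (le_max_right _ _).trans hx
  have hx1 : x1 ≤ x := ((le_max_left _ _).trans (le_max_left _ _)).trans hxa
  have hx2 : x2 ≤ x := ((le_max_right _ _).trans (le_max_left _ _)).trans hxa
  have hx3 : x3 ≤ x := ((le_max_left _ _).trans (le_max_right _ _)).trans hxa
  have hx4 : x4 ≤ x := ((le_max_right _ _).trans (le_max_right _ _)).trans hxa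
  have hx5 : x5 ≤ x := ((le_max_left _ _).trans (le_max_left _ _)).trans hxb
  have hx6 : 2 ≤ x := ((le_max_right _ _).trans (le_max_left _ _)).trans hxb
  have hx7 : K ^ (10 / uu) ≤ x := (le_max_right _ _).trans hxb
  have hx' : 1 < x := by linarith
  have hx0 : 0 < x := by linarith
  have hB := h5 x hx5
  have hKx : K ≤ x ^ (uu / 10) := by
    have h := Real.rpow_le_rpow (by positivity) hx7 (show 0 ≤ uu / 10 by positivity)
    rw [← Real.rpow_mul hK0] at h
    have h5 : 10 / uu * (uu / 10) = 1 := by field_simp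
    rw [h5, Real.rpow_one] at h
    exact h
  have hpow : x ^ (1 - 100 * uu) ≤ x ^ (1 - 6 / 10 * uu) :=
    Real.rpow_le_rpow_of_exponent_le hx'.le (by linarith)
  have hE0 : 0 ≤ x ^ (1 - 6 / 10 * uu) := by positivity
  have hE : ∀ I ∈ (range 9).powerset, ∑ s ∈ SI (PP x) I, ∑ T ∈ s.divisors, er W M x s (R / T) ≤
      (2 + C) * x ^ (1 - 6 / 10 * uu) := by
    intro I hI
    rw [Finset.mem_powerset] at hI
    by_cases hI9 : I = range 9
    · subst hI9
      have e1 : ∑ s ∈ SI (PP x) (range 9), ∑ T ∈ s.divisors, er W M x s (R / T) =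
          ∑ s ∈ SI (PP x) (range 9), er W M x s R +
          ∑ s ∈ SI (PP x) (range 9), ∑ T ∈ s.divisors.erase 1, er W M x s (R / T) := by
        rw [← Finset.sum_add_distrib]
        refine Finset.sum_congr rfl fun s hs => ?_
        have hs0 : s ≠ 0 := by
          have := (SI_range hx' (Finset.Subset.refl _) hs).1
          rintro rfl
          have h7 : 0 < x ^ eI (range 9) := by positivity
          push_cast at this
          linarith
        rw [← Finset.add_sum_erase _ _ (Nat.one_mem_divisors.2 hs0), Nat.div_one]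
      have e2 := h2 x hx2 R hR
      have e3 : ∑ s ∈ SI (PP x) (range 9), er W M x s R ≤ x ^ (1 - 100 * uu) + C * x ^ (1 - 6 / 10 * uu) := by
        rcases hR' with hlow | hhigh
        · have := h3 x hx3 R hlow
          have h8 : 0 ≤ C * x ^ (1 - 6 / 10 * uu) := by positivity
          linarith
        · have hmin : min (yy x) R = yy x := by
            apply min_eq_left
            have h8 : ((yy x : ℕ) : ℝ) ≤ x ^ (2 * uu) := Nat.floor_le (by positivity)
            have h9 : x ^ (2 * uu) ≤ x ^ (99997 / 2 * uu) :=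
              Real.rpow_le_rpow_of_exponent_le hx'.le (by linarith)
            have : ((yy x : ℕ) : ℝ) ≤ R := by linarith
            exact_mod_cast this
          have h10 : ∑ s ∈ SI (PP x) (range 9), er W M x s R ≤
              ∑ s ∈ SI (PP x) (range 9), x ^ (1 - 6 / 10 * uu) * (1 / (s : ℝ)) := by
            refine Finset.sum_le_sum fun s hs => ?_
            unfold er
            rw [hmin]
            refine (h4 x hx4 s hs R hhigh hR).trans (le_of_eq ?_)
            rw [sub_eq_add_neg, Real.rpow_add hx0, Real.rpow_one]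
            ring
          rw [← Finset.mul_sum, sum_inv_SI (pps_sy hx')] at h10
          have h11 := (ArP_kI hB (Finset.Subset.refl (range 9))).2
          rw [← hCd] at h11
          have h12 := mul_le_mul_of_nonneg_left h11 hE0
          have h13 : 0 ≤ x ^ (1 - 100 * uu) := by positivity
          linarith
      rw [e1]
      linarith
    · have := h1 x hx1 R hR I hI hI9
      have h8 : 0 ≤ (1 + C) * x ^ (1 - 6 / 10 * uu) := by positivity
      linarith
  calc |corr W M x (fun n => GG R n) 0| ≤ ∑ I ∈ (range 9).powerset, (Cd : ℝ) ^ 9 *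
      ∑ s ∈ SI (PP x) I, ∑ T ∈ s.divisors, er W M x s (R / T) := ArP_corr W M hx' hB hR
    _ ≤ ∑ _I ∈ (range 9).powerset, C * ((2 + C) * x ^ (1 - 6 / 10 * uu)) := by
        refine Finset.sum_le_sum fun I hI => ?_
        rw [← hCd]
        exact mul_le_mul_of_nonneg_left (hE I hI) hC0
    _ = K * x ^ (1 - 6 / 10 * uu) := by
        rw [Finset.sum_const, Finset.card_powerset, Finset.card_range, nsmul_eq_mul, hK]
        norm_num
        ring
    _ ≤ x ^ (uu / 10) * x ^ (1 - 6 / 10 * uu) := mul_le_mul_of_nonneg_right hKx hE0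
    _ = x ^ (1 - uu / 2) := by
        rw [← Real.rpow_add hx0]
        congr 1
        ring

end H69BG
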