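import Pool.Agent.H69.BG.ArF
import Pool.Agent.H69.BG.ArO
import Pool.Agent.H94.WeylC

/-!
# ARPA: the errors with small `s y R`

Notation: `u = uu`, `y = yy x`. `BS_main` (every `q ≤ y ≤ zz x` is coprime to `s ∈ SI (PP x) I`: `SI_coprime_small`, `yy_le_zz`, `pps_sy`): `er W M x s R' ≤ C y (1 + log y)² R' (1 + log R')² ≤ C x^{2u} (1 + log x)^4 R'` (`1 ≤ y ≤ x^{2u} ≤ x`, `R' ≤ R ≤ x`;
`R' = 0`: both sides `0`). The number of pairs `(s, T)`, `s ∈ SI I`, `T ∣ s`, is at most `x^{e_I + u} · max τ(s)` (`card_SI_le`), `τ(s) ≤ C x^{u/100}` (`Pool.Agent.H94.Weyl.card_divisors_le`, `s ≤ x^{e_I + u} ≤ x` by `SI_range`).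
`(1 + log x)^4 ≤ x^{u/2}` and `C ≤ x^{u/4}` for large `x`.
* `er_small`, `I ≠ range 9`: `R/T ≤ R ≤ x^{1/2}`; some `i < 9` is not in `I`, `ex i ≥ 200u`, so `eI I ≤ eI (range 9) - 200u = 49805u` (`eI_range9`): total `≤ x^{(49805 + 1 + 2 + 50000 + 1) u} ≤ x^{1 - 100u}` (`1 = 100000u`).
* `er_div`: `T ≠ 1`, `T ∣ s`: `T` has a prime factor, which is `> zz x ≥ x^{200u} - 1 ≥ x^{199u}` (`SI_primeFactors`, `Sy.gt`), so `R/T ≤ x^{(50000 - 199)u}`: total `≤ x^{(50005 + 1 + 2 + 49801 + 1) u} ≤ x^{1 - 100u}`.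
* `er_low`: `R ≤ x^{2/5} = x^{40000u}`: total `≤ x^{(50005 + 1 + 2 + 40000 + 1) u} ≤ x^{1 - 100u}`.
-/

open Finset H69LB

namespace H69BG

/-- the error term of `B(s, R)` -/
noncomputable def er (W : ℝ → ℝ) (M x : ℝ) (s R : ℕ) : ℝ :=
  |BS W M x (yy x) s R - x / s * Wm W * LL (min (yy x) R)|

/-- powers of the logarithm -/
theorem ArPa_log {x : ℝ} (hx : 1 ≤ x) : (1 + Real.log x) ^ 4 ≤ (1 + 4 / uu) ^ 4 * x ^ uu := by
  have hu := Sir_uu_pos
  have hx0 : 0 < x := by linarith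
  have h1 := Real.log_le_rpow_div hx0.le (show 0 < uu / 4 by positivity)
  have h2 : (1 : ℝ) ≤ x ^ (uu / 4) := Real.one_le_rpow hx (by positivity)
  have h0 : 0 ≤ Real.log x := Real.log_nonneg hx
  have h3 : 1 + Real.log x ≤ (1 + 4 / uu) * x ^ (uu / 4) := by
    have e : x ^ (uu / 4) / (uu / 4) = 4 / uu * x ^ (uu / 4) := by field_simp
    rw [e] at h1
    linarith
  calc (1 + Real.log x) ^ 4 ≤ ((1 + 4 / uu) * x ^ (uu / 4)) ^ 4 :=
        pow_le_pow_left₀ (by linarith) h3 4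
    _ = (1 + 4 / uu) ^ 4 * x ^ uu := by
        rw [mul_pow, ← Real.rpow_natCast (x ^ (uu / 4)) 4, ← Real.rpow_mul hx0.le]
        congr 2
        push_cast
        ring

/-- the bound of one error term -/
theorem ArPa_er {M : ℝ} (hM : 0 < M) {W : ℝ → ℝ} (hW : WS M W) :
    ∃ C : ℝ, 0 ≤ C ∧ ∀ x : ℝ, 1 < x → ∀ I : Finset ℕ, ∀ s ∈ SI (PP x) I, ∀ R : ℕ, (R : ℝ) ≤ x →
      er W M x s R ≤ C * x ^ (3 * uu) * R := by
  obtain ⟨C, hC, hB⟩ := BS_main hM hW
  have hu := Sir_uu_pos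
  refine ⟨C * (1 + 4 / uu) ^ 4, by positivity, fun x hx I s hs R hR => ?_⟩
  have hx0 : 0 < x := by linarith
  have hS := pps_sy hx
  have hs1 : 1 ≤ s := Nat.pos_of_ne_zero (SI_squarefree hS hs).ne_zero
  have h1 := hB x hx0 (yy x) s R hs1 (fun q hq hqy =>
    (SI_coprime_small hS hs hq (hqy.trans (yy_le_zz hx.le))).symm)
  have hy : ((yy x : ℕ) : ℝ) ≤ x ^ (2 * uu) := Nat.floor_le (Real.rpow_nonneg hx0.le _)
  have hyx : x ^ (2 * uu) ≤ x := by
    have := Real.rpow_le_rpow_of_exponent_le hx.le (show 2 * uu ≤ 1 by unfold uu; norm_num)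
    rwa [Real.rpow_one] at this
  have hy1 : 1 ≤ yy x := (Nat.one_le_floor_iff _).2 (Real.one_le_rpow hx.le (by positivity))
  have hy1' : (1 : ℝ) ≤ (yy x : ℕ) := by exact_mod_cast hy1
  have hl0 : 0 ≤ Real.log x := Real.log_nonneg hx.le
  have hly : Real.log (yy x : ℕ) ≤ Real.log x := Real.log_le_log (by linarith) (by linarith)
  have hly0 : 0 ≤ Real.log (yy x : ℕ) := Real.log_nonneg hy1'
  have a1 : ((yy x : ℕ) : ℝ) * (1 + Real.log (yy x : ℕ)) ^ 2 ≤ x ^ (2 * uu) * (1 + Real.log x) ^ 2 :=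
    mul_le_mul hy (pow_le_pow_left₀ (by linarith) (by linarith) 2) (by positivity) (by positivity)
  have a2 : (R : ℝ) * (1 + Real.log R) ^ 2 ≤ R * (1 + Real.log x) ^ 2 := by
    rcases Nat.eq_zero_or_pos R with h0 | h0
    · rw [h0]; simp
    · have hR1 : (1 : ℝ) ≤ R := by exact_mod_cast h0
      have hlR : Real.log R ≤ Real.log x := Real.log_le_log (by linarith) hR
      have hlR0 : 0 ≤ Real.log (R : ℝ) := Real.log_nonneg hR1
      exact mul_le_mul_of_nonneg_left (pow_le_pow_left₀ (by linarith) (by linarith) 2) (by positivity)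
  unfold er
  refine h1.trans ?_
  calc C * (((yy x : ℕ) : ℝ) * (1 + Real.log (yy x : ℕ)) ^ 2) * ((R : ℝ) * (1 + Real.log R) ^ 2)
      ≤ C * (x ^ (2 * uu) * (1 + Real.log x) ^ 2) * (R * (1 + Real.log x) ^ 2) :=
        mul_le_mul (mul_le_mul_of_nonneg_left a1 hC) a2 (by positivity) (by positivity)
    _ = C * x ^ (2 * uu) * R * (1 + Real.log x) ^ 4 := by ring
    _ ≤ C * x ^ (2 * uu) * R * ((1 + 4 / uu) ^ 4 * x ^ uu) :=
        mul_le_mul_of_nonneg_left (ArPa_log hx.le) (by positivity)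
    _ = C * (1 + 4 / uu) ^ 4 * (x ^ (2 * uu) * x ^ uu) * R := by ring
    _ = C * (1 + 4 / uu) ^ 4 * x ^ (3 * uu) * R := by
        rw [← Real.rpow_add hx0]
        congr 3
        ring

theorem ArPa_eI_le {I : Finset ℕ} (hI : I ⊆ range 9) : eI I ≤ 50005 * uu := by
  rw [← eI_range9]
  unfold eI
  apply Finset.sum_le_sum_of_subset_of_nonneg hI
  intro i _ _
  unfold ex uu
  positivity

theorem ArPa_sum {M : ℝ} (hM : 0 < M) {W : ℝ → ℝ} (hW : WS M W) :
    ∃ x0 : ℝ, ∀ x, x0 ≤ x → 1 < x ∧ ∀ I ⊆ range 9, ∀ R : ℕ, (R : ℝ) ≤ x → ∀ Ts : ℕ → Finset ℕ,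
      (∀ s, Ts s ⊆ s.divisors) → ∀ Y : ℝ, 0 ≤ Y →
      (∀ s ∈ SI (PP x) I, ∀ T ∈ Ts s, ((R / T : ℕ) : ℝ) ≤ Y) →
      ∑ s ∈ SI (PP x) I, ∑ T ∈ Ts s, er W M x s (R / T) ≤ x ^ (eI I + 10 * uu) * Y := by
  obtain ⟨C, hC, hE⟩ := ArPa_er hM hW
  have hu := Sir_uu_pos
  obtain ⟨D, hD, hdiv⟩ := Pool.Agent.H94.Weyl.card_divisors_le uu hu
  have g1 := (tendsto_rpow_atTop (show (0 : ℝ) < 5 * uu by positivity)).eventually_ge_atTop (C * D)
  obtain ⟨x1, h1⟩ := Filter.eventually_atTop.1 g1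
  refine ⟨max x1 2, fun x hx => ?_⟩
  have hx1 : x1 ≤ x := (le_max_left _ _).trans hx
  have hx2 : 2 ≤ x := (le_max_right _ _).trans hx
  have hx : 1 < x := by linarith
  have hx0 : 0 < x := by linarith
  have k1 := h1 x hx1
  refine ⟨hx, fun I hI R hR Ts hTs Y hY hRT => ?_⟩
  have hterm : ∀ s ∈ SI (PP x) I, ∑ T ∈ Ts s, er W M x s (R / T) ≤
      D * x ^ uu * (C * x ^ (3 * uu) * Y) := by
    intro s hs
    have hS := pps_sy hx
    have hs1 : 1 ≤ s := Nat.pos_of_ne_zero (SI_squarefree hS hs).ne_zero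
    have hsx : (s : ℝ) ≤ x := by
      refine (SI_range hx hI hs).2.trans ?_
      have h3 : eI I + uu ≤ 1 := by
        have := ArPa_eI_le hI
        have h4 : 50005 * uu + uu ≤ 1 := by unfold uu; norm_num
        linarith
      have := Real.rpow_le_rpow_of_exponent_le hx.le h3
      rwa [Real.rpow_one] at this
    have hc : ((Ts s).card : ℝ) ≤ D * x ^ uu := by
      have h3 : ((Ts s).card : ℝ) ≤ s.divisors.card := by exact_mod_cast Finset.card_le_card (hTs s)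
      refine h3.trans ((hdiv s hs1).trans ?_)
      exact mul_le_mul_of_nonneg_left (Real.rpow_le_rpow (by positivity) hsx hu.le) (by linarith)
    have h4 : ∀ T ∈ Ts s, er W M x s (R / T) ≤ C * x ^ (3 * uu) * Y := by
      intro T hT
      have h5 : ((R / T : ℕ) : ℝ) ≤ x :=
        le_trans (by exact_mod_cast Nat.div_le_self R T) hR
      refine (hE x hx I s hs (R / T) h5).trans ?_
      exact mul_le_mul_of_nonneg_left (hRT s hs T hT) (by positivity)
    calc ∑ T ∈ Ts s, er W M x s (R / T) ≤ ∑ T ∈ Ts s, C * x ^ (3 * uu) * Y := Finset.sum_le_sum h4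
      _ = ((Ts s).card : ℝ) * (C * x ^ (3 * uu) * Y) := by rw [Finset.sum_const, nsmul_eq_mul]
      _ ≤ D * x ^ uu * (C * x ^ (3 * uu) * Y) := mul_le_mul_of_nonneg_right hc (by positivity)
  calc ∑ s ∈ SI (PP x) I, ∑ T ∈ Ts s, er W M x s (R / T)
      ≤ ∑ s ∈ SI (PP x) I, D * x ^ uu * (C * x ^ (3 * uu) * Y) := Finset.sum_le_sum hterm
    _ = ((SI (PP x) I).card : ℝ) * (D * x ^ uu * (C * x ^ (3 * uu) * Y)) := by
        rw [Finset.sum_const, nsmul_eq_mul]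
    _ ≤ x ^ (eI I + uu) * (D * x ^ uu * (C * x ^ (3 * uu) * Y)) :=
        mul_le_mul_of_nonneg_right (card_SI_le hx hI) (by positivity)
    _ = (C * D) * (x ^ (eI I + uu) * x ^ uu * x ^ (3 * uu)) * Y := by ring
    _ ≤ x ^ (5 * uu) * (x ^ (eI I + uu) * x ^ uu * x ^ (3 * uu)) * Y := by
        apply mul_le_mul_of_nonneg_right _ hY
        exact mul_le_mul_of_nonneg_right k1 (by positivity)
    _ = x ^ (eI I + 10 * uu) * Y := by
        rw [← Real.rpow_add hx0, ← Real.rpow_add hx0, ← Real.rpow_add hx0]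
        congr 2
        ring

theorem er_small {M : ℝ} (hM : 0 < M) {W : ℝ → ℝ} (hW : WS M W) :
    ∃ x0 : ℝ, ∀ x, x0 ≤ x → ∀ R : ℕ, (R : ℝ) ≤ x ^ (1 / 2 : ℝ) → ∀ I ⊆ range 9, I ≠ range 9 →
      ∑ s ∈ SI (PP x) I, ∑ T ∈ s.divisors, er W M x s (R / T) ≤ x ^ (1 - 100 * uu) := by
  obtain ⟨x0, h0⟩ := ArPa_sum hM hW
  refine ⟨x0, fun x hx R hR I hI hI9 => ?_⟩
  obtain ⟨hx1, h1⟩ := h0 x hx
  have hx0 : 0 < x := by linarith
  have hu := Sir_uu_pos
  have hRx : (R : ℝ) ≤ x := by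
    refine hR.trans ?_
    have := Real.rpow_le_rpow_of_exponent_le hx1.le (show (1 / 2 : ℝ) ≤ 1 by norm_num)
    rwa [Real.rpow_one] at this
  have h2 := h1 I hI R hRx (fun s => s.divisors) (fun s => le_rfl) (x ^ (1 / 2 : ℝ)) (by positivity)
    (fun s _ T _ => le_trans (by exact_mod_cast Nat.div_le_self R T) hR)
  refine h2.trans ?_
  rw [← Real.rpow_add hx0]
  apply Real.rpow_le_rpow_of_exponent_le hx1.le
  obtain ⟨i, hi, hiI⟩ := Finset.exists_of_ssubset (hI.ssubset_of_ne hI9)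
  have h3 : eI I + ex i ≤ 50005 * uu := by
    rw [← eI_range9]
    unfold eI
    rw [add_comm, ← Finset.sum_insert hiI]
    apply Finset.sum_le_sum_of_subset_of_nonneg
    · intro j hj
      rcases Finset.mem_insert.1 hj with rfl | hj
      · exact hi
      · exact hI hj
    · intro j _ _
      unfold ex uu
      positivity
  have h4 := Sir_ex_ge (Finset.mem_range.1 hi)
  have h5 : 50005 * uu - 200 * uu + 10 * uu + 1 / 2 ≤ 1 - 100 * uu := by unfold uu; norm_num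
  linarith

theorem er_div {M : ℝ} (hM : 0 < M) {W : ℝ → ℝ} (hW : WS M W) :
    ∃ x0 : ℝ, ∀ x, x0 ≤ x → ∀ R : ℕ, (R : ℝ) ≤ x ^ (1 / 2 : ℝ) →
      ∑ s ∈ SI (PP x) (range 9), ∑ T ∈ s.divisors.erase 1, er W M x s (R / T) ≤ x ^ (1 - 100 * uu) := by
  obtain ⟨x0, h0⟩ := ArPa_sum hM hW
  refine ⟨x0, fun x hx R hR => ?_⟩
  obtain ⟨hx1, h1⟩ := h0 x hx
  have hx0 : 0 < x := by linarith
  have hu := Sir_uu_pos
  have hRx : (R : ℝ) ≤ x := by
    refine hR.trans ?_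
    have := Real.rpow_le_rpow_of_exponent_le hx1.le (show (1 / 2 : ℝ) ≤ 1 by norm_num)
    rwa [Real.rpow_one] at this
  have h2 := h1 (range 9) (Finset.Subset.refl _) R hRx (fun s => s.divisors.erase 1)
    (fun s => Finset.erase_subset _ _) (x ^ (1 / 2 - 200 * uu)) (by positivity)
    (fun s hs T hT => by
      obtain ⟨hT1, hTs⟩ := Finset.mem_erase.1 hT
      have hTs' := (Nat.mem_divisors.1 hTs).1
      obtain ⟨p, hp, hpT⟩ := Nat.exists_prime_and_dvd hT1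
      have hS := pps_sy hx1
      obtain ⟨i, _, hpi⟩ := (SI_primeFactors hS hs).1 p hp (hpT.trans hTs')
      have hz := hS.gt i p hpi
      have hTpos : 0 < T := Nat.pos_of_mem_divisors hTs
      have hpT' : p ≤ T := Nat.le_of_dvd hTpos hpT
      have h3 : x ^ (200 * uu) < T := by
        have h4 : x ^ (200 * uu) < (zz x : ℝ) + 1 := Nat.lt_floor_add_one _
        have h5 : ((zz x : ℕ) : ℝ) + 1 ≤ T := by exact_mod_cast (by omega : zz x + 1 ≤ T)
        linarith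
      have hT0 : (0 : ℝ) < T := by exact_mod_cast hTpos
      calc ((R / T : ℕ) : ℝ) ≤ (R : ℝ) / T := Nat.cast_div_le
        _ ≤ x ^ (1 / 2 : ℝ) / x ^ (200 * uu) :=
          div_le_div₀ (by positivity) hR (by positivity) h3.le
        _ = x ^ (1 / 2 - 200 * uu) := by rw [Real.rpow_sub hx0])
  refine h2.trans ?_
  rw [← Real.rpow_add hx0]
  apply Real.rpow_le_rpow_of_exponent_le hx1.le
  rw [eI_range9]
  unfold uu
  norm_num

theorem er_low {M : ℝ} (hM : 0 < M) {W : ℝ → ℝ} (hW : WS M W) :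
    ∃ x0 : ℝ, ∀ x, x0 ≤ x → ∀ R : ℕ, (R : ℝ) ≤ x ^ (2 / 5 : ℝ) →
      ∑ s ∈ SI (PP x) (range 9), er W M x s R ≤ x ^ (1 - 100 * uu) := by
  obtain ⟨x0, h0⟩ := ArPa_sum hM hW
  refine ⟨x0, fun x hx R hR => ?_⟩
  obtain ⟨hx1, h1⟩ := h0 x hx
  have hx0 : 0 < x := by linarith
  have hu := Sir_uu_pos
  have hRx : (R : ℝ) ≤ x := by
    refine hR.trans ?_
    have := Real.rpow_le_rpow_of_exponent_le hx1.le (show (2 / 5 : ℝ) ≤ 1 by norm_num)
    rwa [Real.rpow_one] at this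
  have h2 := h1 (range 9) (Finset.Subset.refl _) R hRx (fun s => s.divisors.filter (fun T => T = 1))
    (fun s => Finset.filter_subset _ _) (x ^ (2 / 5 : ℝ)) (by positivity)
    (fun s _ T _ => le_trans (by exact_mod_cast Nat.div_le_self R T) hR)
  have h3 : ∑ s ∈ SI (PP x) (range 9), er W M x s R =
      ∑ s ∈ SI (PP x) (range 9), ∑ T ∈ s.divisors.filter (fun T => T = 1), er W M x s (R / T) := by
    refine Finset.sum_congr rfl fun s hs => ?_
    have hs1 := (SI_squarefree (pps_sy hx1) hs).ne_zero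
    have h4 : s.divisors.filter (fun T => T = 1) = {1} := by
      ext T
      simp only [Finset.mem_filter, Nat.mem_divisors, Finset.mem_singleton]
      constructor
      · exact fun h => h.2
      · rintro rfl
        exact ⟨⟨one_dvd _, hs1⟩, rfl⟩
    rw [h4, Finset.sum_singleton, Nat.div_one]
  rw [h3]
  refine h2.trans ?_
  rw [← Real.rpow_add hx0]
  apply Real.rpow_le_rpow_of_exponent_le hx1.le
  rw [eI_range9]
  unfold uu
  norm_num

end H69BG
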