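import Pool.Agent.H69.BG.ArDefs
import Pool.Agent.H69.LB.Pnw

/-!
# ARQ: (F5), lower bound for `κ_i`

Fix a smooth `W0`, `0 ≤ W0 ≤ 1`, with support in `[1/4, 3/4]` and `c1 = ∫ W0(η) e^η dη > 0` (`ContDiffBump` centred at `1/2`, radii `1/8`, `1/4`; `WS 1 W0`; the integral of a continuous nonnegative function, positive at `1/2`). `thW_one` with `M = 1`:
there is `X0 ≥ 1` with `∑_{p ≤ eX} log p W0(log(p/X)) ≥ c1 X/2` for `X ≥ X0`. The primes with `W0 ≠ 0` lie in `(X, eX]`, so `∑_{X < p ≤ eX} 1/p ≥ (1/(eX log(eX))) ∑ log p W0 ≥ c1/(2e log(eX))`.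
For `i < 9`: `(x^{e_i}, x^{e_i + u/10}]` contains the disjoint intervals `(X_j, e X_j]`, `X_j = x^{e_i} e^j`, `0 ≤ j < J = ⌊(u/10) log x⌋`, and `e X_j ≤ x^{e_i + u/10} ≤ x`, so `κ_i ≥ J c1/(2 e log x) ≥ (u/20) c1/(2e)` for large `x` (`X_0 ≥ x^{200u} ≥ X0`;
`J ≥ (u/20) log x`). `PP x i` is the filter of `range (⌊x⌋₊ + 1)` (`i < 9`).
`kst_lower`: product over `i < 9`.
-/

open Finset H69LB MeasureTheory

namespace H69BG

variable {ι : Type} [Countable ι] {γ w : ι → ℝ} {F : ℝ → Finset ι} {A : ℝ → ℝ} {k0 : ℝ}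

private theorem arq_bump : ∃ W0 : ℝ → ℝ, WS 1 W0 ∧ (∀ η, 0 ≤ W0 η) ∧ (∀ η, W0 η ≤ 1) ∧
    (∀ η, W0 η ≠ 0 → 1 / 4 < η ∧ η < 3 / 4) ∧ 0 < Wm W0 := by
  let f : ContDiffBump (1 / 2 : ℝ) := ⟨1 / 8, 1 / 4, by norm_num, by norm_num⟩
  have hs : ∀ η, f η ≠ 0 → 1 / 4 < η ∧ η < 3 / 4 := by
    intro η hη
    have h : η ∈ Function.support f := hη
    rw [f.support_eq, Metric.mem_ball, Real.dist_eq, abs_lt] at h
    have : f.rOut = 1 / 4 := rfl
    rw [this] at h
    exact ⟨by linarith, by linarith⟩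
  have hcs : HasCompactSupport f := f.hasCompactSupport
  refine ⟨f, ⟨f.contDiff, ?_⟩, fun η => f.nonneg, fun η => f.le_one, hs, ?_⟩
  · intro η hη
    by_contra h
    have := hs η h
    have h2 : |η| < 1 := by rw [abs_lt]; constructor <;> linarith
    linarith
  · unfold Wm
    have h1 : f (1 / 2 : ℝ) * Real.exp (1 / 2) ≠ 0 := by
      have : f (1 / 2 : ℝ) = 1 := f.one_of_mem_closedBall (Metric.mem_closedBall_self (by norm_num [f]))
      rw [this, one_mul]
      exact (Real.exp_pos _).ne'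
    exact Continuous.integral_pos_of_hasCompactSupport_nonneg_nonzero
      (f := fun η => f η * Real.exp η) (x := 1 / 2) (f.continuous.mul Real.continuous_exp)
      hcs.mul_right (fun η => mul_nonneg f.nonneg (Real.exp_pos _).le) h1

open Classical in
/-- the primes in `(X, eX]` -/
private noncomputable def arqT (X : ℝ) : Finset ℕ :=
  (range (⌊Real.exp 1 * X⌋₊ + 1)).filter (fun p => p.Prime ∧ X < p ∧ (p : ℝ) ≤ Real.exp 1 * X)

private theorem arq_mem {X : ℝ} {p : ℕ} : p ∈ arqT X ↔ p.Prime ∧ X < p ∧ (p : ℝ) ≤ Real.exp 1 * X := by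
  unfold arqT
  rw [mem_filter, mem_range]
  constructor
  · exact fun h => h.2
  · exact fun h => ⟨Nat.lt_succ_of_le (Nat.le_floor h.2.2), h⟩

private theorem arq_blk (Z : Zer γ w F A k0) : ∃ c X0 : ℝ, 0 < c ∧ 1 ≤ X0 ∧ ∀ X, X0 ≤ X →
    c ≤ Real.log (Real.exp 1 * X) * ∑ p ∈ arqT X, (1 / (p : ℝ)) := by
  obtain ⟨W0, hW, h0, h1, hs, hm⟩ := arq_bump
  obtain ⟨C, x0, hC, h⟩ := thW_one Z one_pos hW
  set c1 := Wm W0 with hc1
  -- error term
  have hev : ∀ᶠ X : ℝ in Filter.atTop, C * Real.sqrt X * (1 + Real.log X) ≤ X * c1 / 2 := by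
    have hl : Filter.Tendsto (fun X : ℝ => (1 + Real.log X) / X ^ (1 / 2 : ℝ)) Filter.atTop (nhds 0) := by
      have ha : Filter.Tendsto (fun X : ℝ => Real.log X / X ^ (1 / 2 : ℝ)) Filter.atTop (nhds 0) :=
        (isLittleO_log_rpow_atTop (by norm_num)).tendsto_div_nhds_zero
      have hb : Filter.Tendsto (fun X : ℝ => 1 / X ^ (1 / 2 : ℝ)) Filter.atTop (nhds 0) := by
        refine ((tendsto_rpow_atTop (y := (1 / 2 : ℝ)) (by norm_num)).inv_tendsto_atTop).congr fun X => ?_
        simp [one_div]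
      have := hb.add ha
      simp only [add_zero] at this
      refine this.congr fun X => ?_
      rw [add_div]
    have h2 : ∀ᶠ X : ℝ in Filter.atTop, (1 + Real.log X) / X ^ (1 / 2 : ℝ) < c1 / (2 * (C + 1)) := by
      refine (tendsto_order.1 hl).2 _ ?_
      positivity
    filter_upwards [h2, Filter.eventually_gt_atTop 0, Filter.eventually_ge_atTop 1] with X h3 hX hX1
    rw [← Real.sqrt_eq_rpow, div_lt_div_iff₀ (Real.sqrt_pos.2 hX) (by positivity)] at h3
    have hsq : Real.sqrt X * Real.sqrt X = X := Real.mul_self_sqrt hX.le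
    have hlog : 0 ≤ Real.log X := Real.log_nonneg hX1
    have hsp := Real.sqrt_nonneg X
    calc C * Real.sqrt X * (1 + Real.log X) ≤ (C + 1) * Real.sqrt X * (1 + Real.log X) := by
          have : C * Real.sqrt X ≤ (C + 1) * Real.sqrt X := by nlinarith
          exact mul_le_mul_of_nonneg_right this (by linarith)
      _ = Real.sqrt X * ((1 + Real.log X) * (2 * (C + 1))) / 2 := by ring
      _ ≤ Real.sqrt X * (c1 * Real.sqrt X) / 2 := by
          have := mul_le_mul_of_nonneg_left h3.le hsp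
          linarith
      _ = (Real.sqrt X * Real.sqrt X) * c1 / 2 := by ring
      _ = X * c1 / 2 := by rw [hsq]
  obtain ⟨X1, hX1⟩ := Filter.eventually_atTop.1 hev
  refine ⟨c1 / (2 * Real.exp 1), max (max x0 X1) 1, by positivity, le_max_right _ _, fun X hX => ?_⟩
  have hXx0 : x0 ≤ X := (le_max_left _ _).trans ((le_max_left _ _).trans hX)
  have hXX1 : X1 ≤ X := (le_max_right _ _).trans ((le_max_left _ _).trans hX)
  have hX1' : 1 ≤ X := (le_max_right _ _).trans hX
  have hXp : 0 < X := by linarith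
  have e1 := h X hXx0
  have e2 := hX1 X hXX1
  have he : 0 < Real.exp 1 := Real.exp_pos 1
  have hlog : 0 ≤ Real.log (Real.exp 1 * X) := by
    apply Real.log_nonneg
    have := Real.one_le_exp (zero_le_one)
    nlinarith
  -- real version of thW
  have hre : (thW W0 1 X fun _ => 1) =
      ((∑ p ∈ (Icc 1 (NN 1 X)).filter Nat.Prime, Real.log p * W0 (Real.log (p / X)) : ℝ) : ℂ) := by
    unfold thW
    push_cast
    refine sum_congr rfl fun p _ => ?_
    rw [mul_one]
  rw [hre, ← Complex.ofReal_sub, Complex.norm_real, Real.norm_eq_abs] at e1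
  have e3 := (abs_le.1 e1).1
  have e4 : X * c1 / 2 ≤ ∑ p ∈ (Icc 1 (NN 1 X)).filter Nat.Prime, Real.log p * W0 (Real.log (p / X)) := by
    have : (X * ∫ η, W0 η * Real.exp η) = X * c1 := rfl
    rw [this] at e3
    linarith
  have e5 : ∑ p ∈ (Icc 1 (NN 1 X)).filter Nat.Prime, Real.log p * W0 (Real.log (p / X)) ≤
      ∑ p ∈ arqT X, Real.log (Real.exp 1 * X) * (Real.exp 1 * X) * (1 / (p : ℝ)) := by
    calc ∑ p ∈ (Icc 1 (NN 1 X)).filter Nat.Prime, Real.log p * W0 (Real.log (p / X))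
        = ∑ p ∈ ((Icc 1 (NN 1 X)).filter Nat.Prime).filter (fun p : ℕ => W0 (Real.log (p / X)) ≠ 0),
          Real.log p * W0 (Real.log (p / X)) := by
          symm
          refine sum_filter_of_ne (s := (Icc 1 (NN 1 X)).filter Nat.Prime)
            (p := fun p : ℕ => W0 (Real.log (p / X)) ≠ 0) ?_
          intro p _ hne h0'
          exact hne (by rw [h0', mul_zero])
      _ ≤ ∑ p ∈ ((Icc 1 (NN 1 X)).filter Nat.Prime).filter (fun p : ℕ => W0 (Real.log (p / X)) ≠ 0),
          Real.log (Real.exp 1 * X) * (Real.exp 1 * X) * (1 / (p : ℝ)) := by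
          refine sum_le_sum fun p hp => ?_
          rw [mem_filter, mem_filter, mem_Icc] at hp
          obtain ⟨⟨⟨hp1, hpN⟩, hpp⟩, hne⟩ := hp
          have hp0 : (0 : ℝ) < p := by exact_mod_cast hp1
          have hle : (p : ℝ) ≤ Real.exp 1 * X := by
            have := (Nat.le_floor_iff (by positivity)).1 hpN
            linarith
          have hlp : Real.log p ≤ Real.log (Real.exp 1 * X) := Real.log_le_log hp0 hle
          have hlp0 : 0 ≤ Real.log p := Real.log_nonneg (by exact_mod_cast hp1)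
          have h5 : 1 ≤ (Real.exp 1 * X) * (1 / (p : ℝ)) := by
            rw [mul_one_div, le_div_iff₀ hp0]; linarith
          calc Real.log p * W0 (Real.log (p / X)) ≤ Real.log p * 1 :=
                mul_le_mul_of_nonneg_left (h1 _) hlp0
            _ ≤ Real.log (Real.exp 1 * X) * ((Real.exp 1 * X) * (1 / (p : ℝ))) := by
                exact mul_le_mul hlp h5 (by norm_num) hlog
            _ = _ := by ring
      _ ≤ ∑ p ∈ arqT X, Real.log (Real.exp 1 * X) * (Real.exp 1 * X) * (1 / (p : ℝ)) := by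
          refine sum_le_sum_of_subset_of_nonneg ?_ fun p _ _ => by positivity
          intro p hp
          rw [mem_filter, mem_filter, mem_Icc] at hp
          obtain ⟨⟨⟨hp1, hpN⟩, hpp⟩, hne⟩ := hp
          have hp0 : (0 : ℝ) < p := by exact_mod_cast hp1
          rw [arq_mem]
          obtain ⟨h6, h7⟩ := hs _ hne
          refine ⟨hpp, ?_, ?_⟩
          · have h8 : 0 < Real.log (p / X) := by linarith
            have h9 : 1 < (p : ℝ) / X := by
              by_contra h10
              push Not at h10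
              have := Real.log_nonpos (by positivity) h10
              linarith
            rwa [lt_div_iff₀ hXp, one_mul] at h9
          · have := (Nat.le_floor_iff (by positivity)).1 hpN
            linarith
  rw [← mul_sum] at e5
  have e6 := e4.trans e5
  rw [div_le_iff₀ (by positivity)]
  have e7 : X * c1 / 2 ≤ X * (Real.exp 1 * (Real.log (Real.exp 1 * X) * ∑ p ∈ arqT X, (1 / (p : ℝ)))) := by
    calc X * c1 / 2 ≤ _ := e6
      _ = _ := by ring
  have e8 : c1 / 2 ≤ Real.exp 1 * (Real.log (Real.exp 1 * X) * ∑ p ∈ arqT X, (1 / (p : ℝ))) := by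
    have : X * (c1 / 2) ≤ X * (Real.exp 1 * (Real.log (Real.exp 1 * X) * ∑ p ∈ arqT X, (1 / (p : ℝ)))) := by
      linarith
    exact le_of_mul_le_mul_left this hXp
  linarith

private theorem arq_ex {i : ℕ} (hi : i < 9) : 200 * uu ≤ ex i ∧ ex i ≤ 24800 * uu := by
  have hu : 0 < uu := by unfold uu; norm_num
  unfold ex
  have h : 200 ≤ exN i ∧ exN i ≤ 24800 := by
    interval_cases i <;> simp [exN]
  have h1 : (200 : ℝ) ≤ exN i := by exact_mod_cast h.1
  have h2 : (exN i : ℝ) ≤ 24800 := by exact_mod_cast h.2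
  exact ⟨mul_le_mul_of_nonneg_right h1 hu.le, mul_le_mul_of_nonneg_right h2 hu.le⟩

theorem kap_lower (Z : Zer γ w F A k0) : ∃ c x0 : ℝ, 0 < c ∧ ∀ x, x0 ≤ x → ∀ i < 9, c ≤ kap (PP x) i := by
  obtain ⟨c, X0, hc, hX01, hblk⟩ := arq_blk Z
  have hu : 0 < uu := by unfold uu; norm_num
  have hev : ∀ᶠ x : ℝ in Filter.atTop, X0 ≤ x ^ (200 * uu) ∧ 1 < x ∧ 20 ≤ uu * Real.log x := by
    refine ((tendsto_rpow_atTop (by positivity)).eventually_ge_atTop X0).and
      ((Filter.eventually_gt_atTop 1).and ?_)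
    exact (Real.tendsto_log_atTop.const_mul_atTop hu).eventually_ge_atTop 20
  obtain ⟨x0, hx0⟩ := Filter.eventually_atTop.1 hev
  refine ⟨uu / 20 * c, x0, by positivity, fun x hx i hi => ?_⟩
  obtain ⟨hxX, hx1, hxl⟩ := hx0 x hx
  have hxp : 0 < x := by linarith
  have hlx : 0 < Real.log x := Real.log_pos hx1
  obtain ⟨hex1, hex2⟩ := arq_ex hi
  set J : ℕ := ⌊uu / 10 * Real.log x⌋₊ with hJ
  have hJle : (J : ℝ) ≤ uu / 10 * Real.log x := Nat.floor_le (by positivity)
  have hJge : uu / 20 * Real.log x ≤ J := by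
    have := Nat.lt_floor_add_one (uu / 10 * Real.log x)
    rw [← hJ] at this
    linarith
  set X : ℕ → ℝ := fun j => x ^ ex i * Real.exp j with hX
  have hXj : ∀ j, X0 ≤ X j := by
    intro j
    have h1 : x ^ (200 * uu) ≤ x ^ ex i := Real.rpow_le_rpow_of_exponent_le hx1.le hex1
    have h2 : 1 ≤ Real.exp (j : ℝ) := Real.one_le_exp (by positivity)
    have h3 : 0 < x ^ ex i := Real.rpow_pos_of_pos hxp _
    show X0 ≤ x ^ ex i * Real.exp j
    nlinarith
  have hXe : ∀ j, Real.exp 1 * X j = X (j + 1) := by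
    intro j
    show Real.exp 1 * (x ^ ex i * Real.exp j) = x ^ ex i * Real.exp ((j + 1 : ℕ) : ℝ)
    rw [Nat.cast_add, Nat.cast_one, Real.exp_add]
    ring
  have hXmono : ∀ a b, a ≤ b → X a ≤ X b := by
    intro a b hab
    have h3 : 0 < x ^ ex i := Real.rpow_pos_of_pos hxp _
    exact mul_le_mul_of_nonneg_left (Real.exp_le_exp.2 (by exact_mod_cast hab)) h3.le
  have hXJ : X J ≤ x ^ (ex i + uu / 10) := by
    show x ^ ex i * Real.exp J ≤ _
    rw [Real.rpow_add hxp]
    refine mul_le_mul_of_nonneg_left ?_ (Real.rpow_pos_of_pos hxp _).le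
    rw [Real.rpow_def_of_pos hxp, Real.exp_le_exp]
    linarith
  have hle1 : x ^ (ex i + uu / 10) ≤ x := by
    calc x ^ (ex i + uu / 10) ≤ x ^ (1 : ℝ) := by
          refine Real.rpow_le_rpow_of_exponent_le hx1.le ?_
          have : uu = 1 / 100000 := rfl
          rw [this] at hex2 ⊢
          linarith
      _ = x := Real.rpow_one x
  have hdisj : ∀ a ∈ range J, ∀ b ∈ range J, a ≠ b → Disjoint (arqT (X a)) (arqT (X b)) := by
    have key : ∀ a b, a < b → Disjoint (arqT (X a)) (arqT (X b)) := by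
      intro a b hab
      rw [disjoint_left]
      intro p hpa hpb
      rw [arq_mem] at hpa hpb
      have h1 := hpa.2.2
      rw [hXe a] at h1
      have h2 := hXmono (a + 1) b hab
      linarith [hpb.2.1]
    intro a _ b _ hab
    rcases lt_or_gt_of_ne hab with h | h
    · exact key a b h
    · exact (key b a h).symm
  have hsub : (range J).biUnion (fun j => arqT (X j)) ⊆ PP x i := by
    intro p hp
    rw [mem_biUnion] at hp
    obtain ⟨j, hj, hp⟩ := hp
    rw [mem_range] at hj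
    rw [arq_mem] at hp
    unfold PP
    rw [if_pos hi, mem_filter, mem_range]
    have h1 : (p : ℝ) ≤ x ^ (ex i + uu / 10) := by
      have h2 := hp.2.2
      rw [hXe j] at h2
      exact h2.trans ((hXmono _ _ hj).trans hXJ)
    refine ⟨Nat.lt_succ_of_le (Nat.le_floor (h1.trans hle1)), hp.1, ?_, h1⟩
    refine lt_of_le_of_lt ?_ hp.2.1
    have h3 : 0 < x ^ ex i := Real.rpow_pos_of_pos hxp _
    have h2 : 1 ≤ Real.exp (j : ℝ) := Real.one_le_exp (by positivity)
    show x ^ ex i ≤ x ^ ex i * Real.exp j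
    nlinarith
  have hsum : ∑ j ∈ range J, ∑ p ∈ arqT (X j), (1 / (p : ℝ)) ≤ kap (PP x) i := by
    rw [← sum_biUnion]
    · exact sum_le_sum_of_subset_of_nonneg hsub fun p _ _ => by positivity
    · intro a ha b hb hab
      exact hdisj a ha b hb hab
  have hterm : ∀ j ∈ range J, c / Real.log x ≤ ∑ p ∈ arqT (X j), (1 / (p : ℝ)) := by
    intro j hj
    rw [mem_range] at hj
    have h1 := hblk (X j) (hXj j)
    have h2 : Real.log (Real.exp 1 * X j) ≤ Real.log x := by
      rw [hXe j]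
      refine Real.log_le_log ?_ ((hXmono _ _ hj).trans (hXJ.trans hle1))
      exact mul_pos (Real.rpow_pos_of_pos hxp _) (Real.exp_pos _)
    have h3 : 0 ≤ ∑ p ∈ arqT (X j), (1 / (p : ℝ)) := sum_nonneg fun p _ => by positivity
    rw [div_le_iff₀ hlx]
    calc c ≤ _ := h1
      _ ≤ Real.log x * ∑ p ∈ arqT (X j), (1 / (p : ℝ)) := mul_le_mul_of_nonneg_right h2 h3
      _ = _ := mul_comm _ _
  calc uu / 20 * c = (uu / 20 * Real.log x) * (c / Real.log x) := by field_simp
    _ ≤ J * (c / Real.log x) := mul_le_mul_of_nonneg_right hJge (by positivity)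
    _ = ∑ j ∈ range J, c / Real.log x := by rw [sum_const, card_range, nsmul_eq_mul]
    _ ≤ ∑ j ∈ range J, ∑ p ∈ arqT (X j), (1 / (p : ℝ)) := sum_le_sum hterm
    _ ≤ _ := hsum

theorem kst_lower (Z : Zer γ w F A k0) : ∃ c x0 : ℝ, 0 < c ∧ ∀ x, x0 ≤ x → c ≤ kst x := by
  obtain ⟨c, x0, hc, h⟩ := kap_lower Z
  refine ⟨c ^ 9, x0, by positivity, fun x hx => ?_⟩
  unfold kst kI
  calc c ^ 9 = ∏ i ∈ range 9, c := by rw [prod_const, card_range]
    _ ≤ _ := prod_le_prod (fun i _ => hc.le) fun i hi => h x hx i (mem_range.1 hi)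

end H69BG
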