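import Pool.Agent.H69.BG.ArB
import Pool.Agent.H69.BG.ArQ
import Pool.Agent.H94.WeylC

/-!
# ARR: (F2), the correlation of `g2` with `Λ`

`corr W M x Λ 0 = ∑_{n ≤ N} W(log(n/x)) Λ(n) g2 x n`, `N = NN M x`, `g2 x n = GG y n · g9 x n`, `y = yy x`.
* Primes `p ≤ N` with `W(log(p/x)) ≠ 0`: `p > x e^{-M} ≥ x^{1/2}` for large `x`. Every prime `p'` of `PP x i` is at most `x^{e_8 + u/10} < x^{1/2}` (`ex i ≤ 24800 uu`), so `p' ∤ p`, `om (PP x) i p = 0`, `g9 x p = kst x`; `y ≤ x^{2u} < p`, so `GG y p = LL y`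
  (`GG_prime`). So the sum over the primes is `kst x · LL y · ∑ log p W(log(p/x)) = kst x LL(y) Re thW W M x 1`.
* The other `n` with `Λ(n) ≠ 0`: `|g9 x n| ≤ Cd^9` (`abs_gI_le`, `pps_b`, `n ≤ e^M x ≤ x^{1.1}`), `|GG y n| ≤ τ(n) LL y ≤ C x^{1/100} · 2 (1 + log x)²`; with `g(n) = g2 x n / (C x^{1/50})` for `n ≤ N`, `0` for `n > N`, `psW_sub_thW` bounds their sum by
  `C x^{1/50} √x (1 + log x)`.
* `thW_one`: `|thW W M x 1 - x Wm W| ≤ C √x (1 + log x)`. So `corr ≥ kst LL (x Wm - C √x (1 + log x)) - C x^{1/50} √x (1 + log x) ≥ kst LL (x Wm - x^{9/10})` for large `x`, because `kst ≥ c > 0` (`kst_lower`), `LL ≥ 1` (`one_le_LL`, `y ≥ 1`).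
-/

open Finset H69LB

namespace H69BG

variable {ι : Type} [Countable ι] {γ w : ι → ℝ} {F : ℝ → Finset ι} {A : ℝ → ℝ} {k0 : ℝ}

private lemma ARR_mem {x : ℝ} {i p : ℕ} (hp : p ∈ PP x i) :
    i < 9 ∧ p.Prime ∧ (p : ℝ) ≤ x ^ (ex i + uu / 10) := by
  classical
  unfold PP at hp
  split_ifs at hp with hi
  · rw [Finset.mem_filter] at hp
    exact ⟨hi, hp.2.1, hp.2.2.2⟩
  · simp at hp

private lemma ARR_ex {i : ℕ} (hi : i < 9) : ex i + uu / 10 ≤ 1 / 4 := by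
  have h2 : exN i ≤ 24800 := by
    interval_cases i <;> decide
  have h3 : (exN i : ℝ) ≤ 24800 := by exact_mod_cast h2
  unfold ex uu
  linarith

/-- a large prime -/
private lemma ARR_prime {x : ℝ} (hx : 1 ≤ x) {p : ℕ} (hp : p.Prime) (hpx : x ^ (1 / 4 : ℝ) < p) :
    g2 x p = LL (yy x) * kst x := by
  have hx0 : 0 < x := by linarith
  have hy : yy x < p := by
    have h1 : ((yy x : ℕ) : ℝ) ≤ x ^ (2 * uu) := Nat.floor_le (by positivity)
    have h2 : x ^ (2 * uu) ≤ x ^ (1 / 4 : ℝ) :=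
      Real.rpow_le_rpow_of_exponent_le hx (by unfold uu; norm_num)
    have h3 : ((yy x : ℕ) : ℝ) < p := by linarith
    exact_mod_cast h3
  have hom : ∀ i ∈ range 9, om (PP x) i (p : ℤ) = 0 := by
    intro i _
    unfold om
    rw [Nat.cast_eq_zero, Finset.card_eq_zero, Finset.filter_eq_empty_iff]
    intro q hq hqp
    obtain ⟨h1, h2, h3⟩ := ARR_mem hq
    have h4 : q ∣ p := by exact_mod_cast hqp
    have h5 : q = p := (Nat.prime_dvd_prime_iff_eq h2 hp).1 h4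
    have h6 : x ^ (ex i + uu / 10) ≤ x ^ (1 / 4 : ℝ) :=
      Real.rpow_le_rpow_of_exponent_le hx (ARR_ex h1)
    rw [h5] at h3
    linarith
  unfold g2 g9 gI kst kI
  rw [GG_prime hp hy]
  congr 1
  refine Finset.prod_congr rfl fun i hi => ?_
  rw [hom i hi, sub_zero]

private lemma ARR_log {x : ℝ} (hx : 1 ≤ x) : 1 + Real.log x ≤ 11 * x ^ (1 / 10 : ℝ) := by
  have h1 := Real.log_le_rpow_div (x := x) (by linarith) (ε := 1 / 10) (by norm_num)
  have h2 : (1 : ℝ) ≤ x ^ (1 / 10 : ℝ) := Real.one_le_rpow hx (by norm_num)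
  have h3 : x ^ (1 / 10 : ℝ) / (1 / 10) = 10 * x ^ (1 / 10 : ℝ) := by ring
  rw [h3] at h1
  linarith

/-- the error terms -/
private lemma ARR_err {K : ℝ} (hK : 0 ≤ K) {x : ℝ} (hx : 1 ≤ x) (hx2 : (11 * K) ^ 5 ≤ x) :
    K * x ^ (1 / 10 : ℝ) * (Real.sqrt x * (1 + Real.log x)) ≤ x ^ (9 / 10 : ℝ) := by
  have hx0 : 0 < x := by linarith
  have h1 := ARR_log hx
  have h2 : 11 * K ≤ x ^ (1 / 5 : ℝ) := by
    have h3 : ((11 * K) ^ 5) ^ (1 / 5 : ℝ) ≤ x ^ (1 / 5 : ℝ) :=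
      Real.rpow_le_rpow (by positivity) hx2 (by norm_num)
    have h4 : ((11 * K) ^ 5) ^ (1 / 5 : ℝ) = 11 * K := by
      rw [← Real.rpow_natCast (11 * K) 5, ← Real.rpow_mul (by positivity)]
      norm_num
    linarith
  calc K * x ^ (1 / 10 : ℝ) * (Real.sqrt x * (1 + Real.log x))
      ≤ K * x ^ (1 / 10 : ℝ) * (Real.sqrt x * (11 * x ^ (1 / 10 : ℝ))) := by gcongr
    _ = (11 * K) * (x ^ (1 / 10 : ℝ) * (x ^ (1 / 2 : ℝ) * x ^ (1 / 10 : ℝ))) := by
        rw [Real.sqrt_eq_rpow]; ring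
    _ = (11 * K) * x ^ (7 / 10 : ℝ) := by
        rw [← Real.rpow_add hx0, ← Real.rpow_add hx0]; norm_num
    _ ≤ x ^ (1 / 5 : ℝ) * x ^ (7 / 10 : ℝ) := by gcongr
    _ = x ^ (9 / 10 : ℝ) := by
        rw [← Real.rpow_add hx0]; norm_num

theorem F2 (Z : Zer γ w F A k0) {M : ℝ} (hM : 0 < M) {W : ℝ → ℝ} (hW : WS M W) (hW0 : ∀ η, 0 ≤ W η) :
    ∃ x0 : ℝ, ∀ x, x0 ≤ x →
      kst x * LL (yy x) * (x * Wm W - x ^ (9 / 10 : ℝ)) ≤ corr W M x (fun n => ArithmeticFunction.vonMangoldt n) 0 := by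
  obtain ⟨C3, x3, hC3, hone⟩ := thW_one Z hM hW
  obtain ⟨C2, hC2, hpt⟩ := psW_sub_thW hM hW
  obtain ⟨c, xc, hc, hkst⟩ := kst_lower Z
  obtain ⟨Cd, xd, hCd⟩ := pps_b
  obtain ⟨C1, hC1, hdiv⟩ := Pool.Agent.H94.Weyl.card_divisors_le (1 / 11) (by norm_num)
  set K : ℝ := C3 + C1 * (Cd : ℝ) ^ 9 * C2 / c with hKdef
  have hK : 0 ≤ K := by positivity
  refine ⟨max (max x3 xc) (max (max xd 2) (max (Real.exp (10 * M)) ((11 * K) ^ 5))), fun x hx => ?_⟩
  simp only [max_le_iff] at hx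
  obtain ⟨⟨hx3, hxc⟩, ⟨hxd, hx2⟩, hxM, hxK⟩ := hx
  have hx1 : 1 ≤ x := by linarith
  have hx0 : 0 < x := by linarith
  have hB := hCd x hxd
  have hS := pps_sy (x := x) (by linarith)
  have hk := hkst x hxc
  have hCd1 : (1 : ℝ) ≤ Cd := by exact_mod_cast hB.one_le
  have hexpM : Real.exp M ≤ x ^ (1 / 10 : ℝ) := by
    have h1 : (Real.exp (10 * M)) ^ (1 / 10 : ℝ) ≤ x ^ (1 / 10 : ℝ) :=
      Real.rpow_le_rpow (Real.exp_pos _).le hxM (by norm_num)
    rw [← Real.exp_mul] at h1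
    have h2 : 10 * M * (1 / 10) = M := by ring
    rwa [h2] at h1
  have hNx : x * Real.exp M ≤ x ^ (11 / 10 : ℝ) := by
    calc x * Real.exp M ≤ x ^ (1 : ℝ) * x ^ (1 / 10 : ℝ) := by
          rw [Real.rpow_one]; gcongr
      _ = x ^ (11 / 10 : ℝ) := by rw [← Real.rpow_add hx0]; norm_num
  have hy1 : 1 ≤ yy x := by
    unfold yy
    apply Nat.le_floor
    rw [Nat.cast_one]
    exact Real.one_le_rpow hx1 (by unfold uu; norm_num)
  have hL1 : 1 ≤ LL (yy x) := one_le_LL hy1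
  set y := yy x with hy
  set N := NN M x with hN
  have hNN : (N : ℝ) ≤ x * Real.exp M := Nat.floor_le (by positivity)
  -- the bound for `g2`
  set B : ℝ := C1 * x ^ (1 / 10 : ℝ) * LL y * (Cd : ℝ) ^ 9 with hBdef
  have hxp : 0 < x ^ (1 / 10 : ℝ) := Real.rpow_pos_of_pos hx0 _
  have hB0 : 0 < B := by positivity
  have hg2 : ∀ n ∈ Icc 1 N, |g2 x (n : ℤ)| ≤ B := by
    intro n hn
    rw [Finset.mem_Icc] at hn
    have hnN : (n : ℝ) ≤ N := by exact_mod_cast hn.2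
    have hnx : (n : ℝ) ≤ x ^ (11 / 10 : ℝ) := by linarith
    have h1 : |GG y (n : ℤ)| ≤ (n.divisors.card : ℝ) * LL y := by
      rw [GG_eq_GS]
      exact abs_GS_le 1 y hn.1
    have h2 : (n.divisors.card : ℝ) ≤ C1 * x ^ (1 / 10 : ℝ) := by
      refine (hdiv n hn.1).trans ?_
      have h3 : (n : ℝ) ^ (1 / 11 : ℝ) ≤ (x ^ (11 / 10 : ℝ)) ^ (1 / 11 : ℝ) :=
        Real.rpow_le_rpow (by positivity) hnx (by norm_num)
      rw [← Real.rpow_mul hx0.le] at h3
      have h4 : (11 / 10 * (1 / 11) : ℝ) = 1 / 10 := by norm_num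
      rw [h4] at h3
      exact mul_le_mul_of_nonneg_left h3 (by linarith)
    have h5 : |g9 x (n : ℤ)| ≤ (Cd : ℝ) ^ 9 := by
      unfold g9
      refine abs_gI_le hS hB (Finset.Subset.refl _) (by exact_mod_cast (by omega : n ≠ 0)) ?_
      rw [Nat.abs_cast]
      exact_mod_cast Nat.le_floor hnx
    unfold g2
    rw [abs_mul, hBdef]
    refine mul_le_mul ?_ h5 (abs_nonneg _) (by positivity)
    exact h1.trans (mul_le_mul_of_nonneg_right h2 (by linarith))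
  -- the normalised function
  set g : ℕ → ℂ := fun n => if n ∈ Icc 1 N then ((g2 x (n : ℤ) / B : ℝ) : ℂ) else 0 with hgdef
  have hg1 : ∀ n, ‖g n‖ ≤ 1 := by
    intro n
    simp only [hgdef]
    split_ifs with h
    · rw [Complex.norm_real, Real.norm_eq_abs, abs_div, abs_of_pos hB0]
      exact div_le_one_of_le₀ (hg2 n h) hB0.le
    · simp
  have hps : psW W M x g = ((corr W M x (fun n => ArithmeticFunction.vonMangoldt n) 0 / B : ℝ) : ℂ) := by
    unfold psW corr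
    rw [Finset.sum_div, Complex.ofReal_sum]
    refine Finset.sum_congr rfl fun n hn => ?_
    simp only [hgdef]
    rw [if_pos hn, ← Complex.ofReal_mul, sub_zero]
    congr 1
    ring
  have hth : thW W M x g = ((LL y * kst x / B : ℝ) : ℂ) * thW W M x (fun _ => 1) := by
    unfold thW
    rw [Finset.mul_sum]
    refine Finset.sum_congr rfl fun p hp => ?_
    rw [Finset.mem_filter] at hp
    simp only [hgdef]
    rw [if_pos hp.1, mul_one]
    by_cases hWp : W (Real.log (p / x)) = 0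
    · rw [hWp]; simp
    · have hp0 : (0 : ℝ) < p := by exact_mod_cast hp.2.pos
      have h1 : |Real.log (p / x)| < M := by
        by_contra hcon
        exact hWp (hW.zero _ (not_lt.1 hcon))
      have h2 : -M < Real.log (p / x) := (abs_lt.1 h1).1
      rw [Real.lt_log_iff_exp_lt (by positivity), lt_div_iff₀ hx0, Real.exp_neg] at h2
      have h3 : x ^ (1 / 4 : ℝ) < p := by
        refine lt_of_le_of_lt ?_ h2
        rw [inv_mul_eq_div, le_div_iff₀ (Real.exp_pos _)]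
        calc x ^ (1 / 4 : ℝ) * Real.exp M ≤ x ^ (1 / 4 : ℝ) * x ^ (1 / 10 : ℝ) := by gcongr
          _ = x ^ (7 / 20 : ℝ) := by rw [← Real.rpow_add hx0]; norm_num
          _ ≤ x ^ (1 : ℝ) := Real.rpow_le_rpow_of_exponent_le hx1 (by norm_num)
          _ = x := Real.rpow_one x
      rw [ARR_prime hx1 hp.2 h3, ← Complex.ofReal_mul, ← Complex.ofReal_mul]
      congr 1
      ring
  have h1 := hpt x hx1 g hg1
  have h2 := hone x hx3
  rw [hps, hth] at h1
  set T : ℂ := thW W M x (fun _ => 1) with hT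
  set S : ℝ := corr W M x (fun n => ArithmeticFunction.vonMangoldt n) 0 with hSdef
  set E : ℝ := Real.sqrt x * (1 + Real.log x) with hE
  have hlog : 0 ≤ Real.log x := Real.log_nonneg hx1
  have hE0 : 0 ≤ E := by positivity
  have h3 : LL y * kst x / B * T.re - S / B ≤ C2 * E := by
    have h4 := (Complex.abs_re_le_norm _).trans h1
    have h5 : ((((S / B : ℝ) : ℂ)) - ((LL y * kst x / B : ℝ) : ℂ) * T).re
        = S / B - LL y * kst x / B * T.re := by
      rw [Complex.sub_re, Complex.ofReal_re, Complex.re_ofReal_mul]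
    rw [h5] at h4
    have h6 := neg_abs_le (S / B - LL y * kst x / B * T.re)
    have h7 : C2 * Real.sqrt x * (1 + Real.log x) = C2 * E := by rw [hE]; ring
    linarith
  have h4 : x * Wm W - C3 * E ≤ T.re := by
    have h5 := (Complex.abs_re_le_norm _).trans h2
    have h6 : (T - ((x * ∫ η, W η * Real.exp η : ℝ) : ℂ)).re = T.re - x * Wm W := by
      rw [Complex.sub_re, Complex.ofReal_re]
      rfl
    rw [h6] at h5
    have h7 := neg_abs_le (T.re - x * Wm W)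
    have h8 : C3 * Real.sqrt x * (1 + Real.log x) = C3 * E := by rw [hE]; ring
    linarith
  have h5 : LL y * kst x * T.re - B * (C2 * E) ≤ S := by
    have h6 : LL y * kst x / B * T.re - S / B = (LL y * kst x * T.re - S) / B := by ring
    rw [h6, div_le_iff₀ hB0] at h3
    linarith
  have hLk : 0 < LL y * kst x := by
    have : 0 < kst x := by linarith
    positivity
  have h6 : LL y * kst x * (x * Wm W - C3 * E) ≤ LL y * kst x * T.re :=
    mul_le_mul_of_nonneg_left h4 hLk.le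
  have herr := ARR_err hK hx1 hxK
  have h7 : C3 * E + C1 * (Cd : ℝ) ^ 9 * C2 / c * (x ^ (1 / 10 : ℝ) * E) ≤ x ^ (9 / 10 : ℝ) := by
    refine le_trans ?_ herr
    have h8 : (1 : ℝ) ≤ x ^ (1 / 10 : ℝ) := Real.one_le_rpow hx1 (by norm_num)
    have h9 : C3 * E ≤ C3 * (x ^ (1 / 10 : ℝ) * E) := by
      refine mul_le_mul_of_nonneg_left ?_ hC3
      nlinarith
    have h10 : K * x ^ (1 / 10 : ℝ) * E = C3 * (x ^ (1 / 10 : ℝ) * E)
        + C1 * (Cd : ℝ) ^ 9 * C2 / c * (x ^ (1 / 10 : ℝ) * E) := by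
      rw [hKdef]; ring
    rw [h10]
    linarith
  have h8 : B * (C2 * E) ≤ LL y * kst x * (C1 * (Cd : ℝ) ^ 9 * C2 / c * (x ^ (1 / 10 : ℝ) * E)) := by
    have h9 : B * (C2 * E) = LL y * c * (C1 * (Cd : ℝ) ^ 9 * C2 / c * (x ^ (1 / 10 : ℝ) * E)) := by
      rw [hBdef]; field_simp
    rw [h9]
    have h10 : 0 ≤ C1 * (Cd : ℝ) ^ 9 * C2 / c * (x ^ (1 / 10 : ℝ) * E) := by positivity
    refine mul_le_mul_of_nonneg_right ?_ h10
    exact mul_le_mul_of_nonneg_left hk (by linarith)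
  calc kst x * LL y * (x * Wm W - x ^ (9 / 10 : ℝ))
      ≤ LL y * kst x * (x * Wm W - (C3 * E + C1 * (Cd : ℝ) ^ 9 * C2 / c * (x ^ (1 / 10 : ℝ) * E))) := by
        rw [mul_comm (kst x)]
        exact mul_le_mul_of_nonneg_left (by linarith) hLk.le
    _ = LL y * kst x * (x * Wm W - C3 * E)
        - LL y * kst x * (C1 * (Cd : ℝ) ^ 9 * C2 / c * (x ^ (1 / 10 : ℝ) * E)) := by ring
    _ ≤ S := by linarith

end H69BG
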