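import Pool.Agent.H69.BG.ArF

/-!
# ARS: (F4), the diagonal of `g2`

`Cg = Cd^9` with `Cd` from `pps_b` (`x ≥ x0`, `x > 1`); `|g9 x n| ≤ Cg` by `abs_gI_le` (`pps_sy`, `|n| ≤ ⌊x^{11/10}⌋`: `n` is an integer with `|n| ≤ x^{11/10}`, `Nat.le_floor`, `Int.natAbs`).
`corr W M x g2 0 = ∑_{n ≤ N} W(log(n/x)) (GG y n)² (g9 x n)² ≤ Cg² ∑_{n ≤ N} W(log(n/x)) (GG y n)²` (`W ≥ 0`, `1 ≤ n ≤ N ≤ e^M x ≤ x^{11/10}` for large `x`). The last sum is `BS W M x y 1 y` (`GG_eq_GS`, `NN M x / 1 = NN M x`, `1 * n = n`), so by `BS_main` with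
`s = 1`, `R = y` it is at most `x Wm W LL(y) + C (y (1 + log y)²)²`, `y ≤ x^{2u}`, and `C (y (1 + log y)²)² ≤ x^{9/10} ≤ LL(y) x^{9/10}` for large `x` (`one_le_LL`).
-/

open Finset H69LB

namespace H69BG

theorem ArS_g9 : ∃ Cg x0 : ℝ, 0 ≤ Cg ∧ ∀ x, x0 ≤ x → ∀ n : ℤ, n ≠ 0 → (|n| : ℝ) ≤ x ^ (11 / 10 : ℝ) → |g9 x n| ≤ Cg := by
  obtain ⟨Cd, x0, h⟩ := pps_b
  refine ⟨(Cd : ℝ) ^ 9, max x0 2, by positivity, fun x hx n hn hnx => ?_⟩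
  have hx1 : 1 < x := by
    have := (le_max_right x0 2).trans hx
    linarith
  refine abs_gI_le (pps_sy hx1) (h x ((le_max_left _ _).trans hx)) (Finset.Subset.refl _) hn ?_
  have h1 : ((n.natAbs : ℕ) : ℝ) ≤ x ^ (11 / 10 : ℝ) := by
    rw [Nat.cast_natAbs, Int.cast_abs]
    exact hnx
  have h2 := Nat.le_floor h1
  rw [Int.abs_eq_natAbs]
  exact_mod_cast h2

theorem ArS_small (C : ℝ) : ∃ x1 : ℝ, 1 ≤ x1 ∧ ∀ x, x1 ≤ x →
    C * ((yy x : ℝ) * (1 + Real.log (yy x)) ^ 2) * ((yy x : ℝ) * (1 + Real.log (yy x)) ^ 2) ≤ x ^ (9 / 10 : ℝ) := by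
  refine ⟨max 1 (|C| ^ 2), le_max_left _ _, fun x hx => ?_⟩
  have hx1 : 1 ≤ x := (le_max_left _ _).trans hx
  have hxC : |C| ^ 2 ≤ x := (le_max_right _ _).trans hx
  have hx0 : 0 < x := by linarith
  have hCx : |C| ≤ x ^ (1 / 2 : ℝ) := by
    rw [← Real.sqrt_eq_rpow]
    exact Real.le_sqrt_of_sq_le hxC
  have hu : (0 : ℝ) < 2 * uu := by unfold uu; norm_num
  have hxu : 1 ≤ x ^ (2 * uu) := Real.one_le_rpow hx1 hu.le
  have hy1 : 1 ≤ yy x := by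
    unfold yy
    exact Nat.le_floor (by exact_mod_cast hxu)
  have hy1' : (1 : ℝ) ≤ yy x := by exact_mod_cast hy1
  have hyx : (yy x : ℝ) ≤ x ^ (2 * uu) := Nat.floor_le (by positivity)
  have hlog : 1 + Real.log (yy x) ≤ yy x := by
    have := Real.log_le_sub_one_of_pos (show (0 : ℝ) < yy x by linarith)
    linarith
  have hlog0 : 0 ≤ Real.log (yy x) := Real.log_nonneg hy1'
  have h1 : (yy x : ℝ) * (1 + Real.log (yy x)) ^ 2 ≤ (yy x : ℝ) ^ 3 := by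
    have : (1 + Real.log (yy x)) ^ 2 ≤ (yy x : ℝ) ^ 2 := by gcongr
    calc (yy x : ℝ) * (1 + Real.log (yy x)) ^ 2 ≤ (yy x : ℝ) * (yy x : ℝ) ^ 2 := by gcongr
      _ = (yy x : ℝ) ^ 3 := by ring
  have h0 : 0 ≤ (yy x : ℝ) * (1 + Real.log (yy x)) ^ 2 := by positivity
  have h2 : ((yy x : ℝ) * (1 + Real.log (yy x)) ^ 2) * ((yy x : ℝ) * (1 + Real.log (yy x)) ^ 2) ≤ (x ^ (2 * uu)) ^ 6 := by
    calc ((yy x : ℝ) * (1 + Real.log (yy x)) ^ 2) * ((yy x : ℝ) * (1 + Real.log (yy x)) ^ 2)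
        ≤ (yy x : ℝ) ^ 3 * (yy x : ℝ) ^ 3 := by gcongr
      _ = (yy x : ℝ) ^ 6 := by ring
      _ ≤ (x ^ (2 * uu)) ^ 6 := by gcongr
  calc C * ((yy x : ℝ) * (1 + Real.log (yy x)) ^ 2) * ((yy x : ℝ) * (1 + Real.log (yy x)) ^ 2)
      ≤ |C| * (((yy x : ℝ) * (1 + Real.log (yy x)) ^ 2) * ((yy x : ℝ) * (1 + Real.log (yy x)) ^ 2)) := by
        rw [mul_assoc]
        exact mul_le_mul_of_nonneg_right (le_abs_self C) (by positivity)
    _ ≤ x ^ (1 / 2 : ℝ) * (x ^ (2 * uu)) ^ 6 := by gcongr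
    _ = x ^ (1 / 2 + 12 * uu : ℝ) := by
        rw [← Real.rpow_natCast (x ^ (2 * uu)) 6, ← Real.rpow_mul hx0.le, ← Real.rpow_add hx0]
        congr 1
        push_cast
        ring
    _ ≤ x ^ (9 / 10 : ℝ) := by
        refine Real.rpow_le_rpow_of_exponent_le hx1 ?_
        unfold uu
        norm_num

theorem ArS_range (M : ℝ) : ∃ x1 : ℝ, 1 ≤ x1 ∧ ∀ x, x1 ≤ x → x * Real.exp M ≤ x ^ (11 / 10 : ℝ) := by
  refine ⟨max 1 (Real.exp (10 * M)), le_max_left _ _, fun x hx => ?_⟩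
  have hx1 : 1 ≤ x := (le_max_left _ _).trans hx
  have hx0 : 0 < x := by linarith
  have hxM : Real.exp (10 * M) ≤ x := (le_max_right _ _).trans hx
  have h1 : Real.exp M ≤ x ^ (1 / 10 : ℝ) := by
    calc Real.exp M = Real.exp (10 * M) ^ (1 / 10 : ℝ) := by
          rw [← Real.exp_mul]
          congr 1
          ring
      _ ≤ x ^ (1 / 10 : ℝ) := Real.rpow_le_rpow (Real.exp_pos _).le hxM (by norm_num)
  calc x * Real.exp M ≤ x * x ^ (1 / 10 : ℝ) := by gcongr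
    _ = x ^ (1 : ℝ) * x ^ (1 / 10 : ℝ) := by rw [Real.rpow_one]
    _ = x ^ (11 / 10 : ℝ) := by
        rw [← Real.rpow_add hx0]
        norm_num

theorem F4 : ∃ Cg x0 : ℝ, 0 ≤ Cg ∧ (∀ x, x0 ≤ x → ∀ n : ℤ, n ≠ 0 → (|n| : ℝ) ≤ x ^ (11 / 10 : ℝ) → |g9 x n| ≤ Cg) ∧
    ∀ M : ℝ, 0 < M → ∀ W : ℝ → ℝ, WS M W → (∀ η, 0 ≤ W η) → ∃ x1 : ℝ, ∀ x, x1 ≤ x →
      corr W M x (fun n => g2 x n) 0 ≤ Cg ^ 2 * LL (yy x) * (x * Wm W + x ^ (9 / 10 : ℝ)) := by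
  obtain ⟨Cg, x0, hCg, hg⟩ := ArS_g9
  refine ⟨Cg, x0, hCg, hg, fun M hM W hW hW0 => ?_⟩
  obtain ⟨C, hC0, hC⟩ := BS_main hM hW
  obtain ⟨x2, hx21, hx2⟩ := ArS_small C
  obtain ⟨x3, hx31, hx3⟩ := ArS_range M
  refine ⟨max x0 (max x2 x3), fun x hx => ?_⟩
  have hxx0 : x0 ≤ x := (le_max_left _ _).trans hx
  have hxx2 : x2 ≤ x := (le_max_left _ _).trans ((le_max_right _ _).trans hx)
  have hxx3 : x3 ≤ x := (le_max_right _ _).trans ((le_max_right _ _).trans hx)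
  have hx1 : 1 ≤ x := hx21.trans hxx2
  have hxpos : 0 < x := by linarith
  have hu : (0 : ℝ) < 2 * uu := by unfold uu; norm_num
  have hy1 : 1 ≤ yy x := by
    unfold yy
    exact Nat.le_floor (by exact_mod_cast Real.one_le_rpow hx1 hu.le)
  have hL1 : 1 ≤ LL (yy x) := one_le_LL hy1
  -- the sum with `g9` removed
  have h1 : corr W M x (fun n => g2 x n) 0 ≤ Cg ^ 2 * BS W M x (yy x) 1 (yy x) := by
    unfold corr BS
    rw [Nat.div_one, Finset.mul_sum]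
    refine Finset.sum_le_sum fun n hn => ?_
    rw [Finset.mem_Icc] at hn
    have hn0 : ((n : ℕ) : ℤ) ≠ 0 := by
      have := hn.1
      omega
    have hnx : (|((n : ℕ) : ℤ)| : ℝ) ≤ x ^ (11 / 10 : ℝ) := by
      have h3 : (n : ℝ) ≤ x * Real.exp M := by
        have h4 : (n : ℝ) ≤ (NN M x : ℝ) := by exact_mod_cast hn.2
        exact h4.trans (Nat.floor_le (by positivity))
      have h5 : (|((n : ℕ) : ℤ)| : ℝ) = (n : ℝ) := by
        simp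
      rw [h5]
      exact h3.trans (hx3 x hxx3)
    have h6 := hg x hxx0 n hn0 hnx
    have h7 : g9 x n ^ 2 ≤ Cg ^ 2 := by
      rw [← sq_abs]
      gcongr
    have h8 : 0 ≤ W (Real.log (n / x)) := hW0 _
    rw [sub_zero, one_mul, ← GG_eq_GS]
    unfold g2
    have h9 : W (Real.log (n / x)) * (GG (yy x) n * g9 x n) * (GG (yy x) n * g9 x n)
        = (W (Real.log (n / x)) * GG (yy x) n ^ 2) * g9 x n ^ 2 := by ring
    have h10 : Cg ^ 2 * (W (Real.log (n / x)) * GG (yy x) n * GG (yy x) n)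
        = (W (Real.log (n / x)) * GG (yy x) n ^ 2) * Cg ^ 2 := by ring
    rw [h9, h10]
    exact mul_le_mul_of_nonneg_left h7 (by positivity)
  have h2 := hC x hxpos (yy x) 1 (yy x) le_rfl (fun q _ _ => Nat.coprime_one_right q)
  rw [Nat.cast_one, div_one, min_self] at h2
  have h3 := (abs_le.1 h2).2
  have h4 := hx2 x hxx2
  have h5 : (0 : ℝ) ≤ x ^ (9 / 10 : ℝ) := by positivity
  have h6 : BS W M x (yy x) 1 (yy x) ≤ LL (yy x) * (x * Wm W + x ^ (9 / 10 : ℝ)) := by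
    have h7 : x ^ (9 / 10 : ℝ) ≤ LL (yy x) * x ^ (9 / 10 : ℝ) := le_mul_of_one_le_left h5 hL1
    calc BS W M x (yy x) 1 (yy x) ≤ x * Wm W * LL (yy x) + x ^ (9 / 10 : ℝ) := by linarith
      _ ≤ LL (yy x) * (x * Wm W + x ^ (9 / 10 : ℝ)) := by nlinarith
  calc corr W M x (fun n => g2 x n) 0 ≤ Cg ^ 2 * BS W M x (yy x) 1 (yy x) := h1
    _ ≤ Cg ^ 2 * (LL (yy x) * (x * Wm W + x ^ (9 / 10 : ℝ))) := by gcongr
    _ = Cg ^ 2 * LL (yy x) * (x * Wm W + x ^ (9 / 10 : ℝ)) := by ring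

end H69BG
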