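import Pool.Agent.H69.BG.Ana
import Pool.Agent.H69.LB.Frb

/-!
# CRB: the window catches all frequencies of the kernel

`sum_Th` (`H69/LB/Frb.lean`) with `F a r = cf (a, r) φ(H a/r) e(a m/r)`. In the box `k`: `Rk k < r ≤ Rk (k+1) ≤ (1 + 2κ) Rk k ≤ (3/2) Rk k` (`Rk_succ_le`). `φ(H a/r) ≠ 0` only for `r/(4H) < a < r/(2H)`; then `a > Rk k/(4H) ≥ δ Rk k/H ≥ A1 k` and
`a < (3/4) Rk k/H`, so `a ≤ A2 k = ⌊Rk k/H⌋` (`H = HH P T α = cH T^{α-1}`), hence the sum over `a ∈ Ioc (A1 k) (A2 k)` is the sum over all `a ∈ Icc 1 A` for every `A ≥ R_1/(2H)`. For `r` not squarefree `μ(r) = 0`. The intervals `Ioc (Rk k) (Rk (k+1))`, `k < KK`, fill `Ioc (Rk 0) (Rk KK)` (`Rk_mono`).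
-/

open Finset H69LB

namespace H69BG

private theorem CRB_tel (R : ℕ → ℕ) (hR : Monotone R) (f : ℕ → ℂ) (K : ℕ) :
    ∑ k ∈ range K, ∑ r ∈ Ioc (R k) (R (k + 1)), f r = ∑ r ∈ Ioc (R 0) (R K), f r := by
  induction K with
  | zero => simp
  | succ K ih =>
    rw [sum_range_succ, ih]
    exact Finset.sum_Ioc_consecutive f (hR (Nat.zero_le K)) (hR (Nat.le_succ K))

theorem crb {φ : ℝ → ℝ} (hφ : PH φ) (P : Par) (hP : P.Ok) (hδ : P.δ < 1 / 4) : ∃ T0 : ℝ, ∀ T, T0 ≤ T → ∀ α : ℝ, 1 ≤ α →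
    ∀ (A : ℕ), (Rk P T α (KK P T α) : ℝ) / (2 * HH P T α) ≤ A → ∀ m : ℤ,
    ∑ p ∈ Th P T α, (cf p : ℂ) * (((φ (HH P T α * ((p.1 : ℝ) / p.2)) : ℝ) : ℂ) * ee ((p.1 : ℝ) / p.2 * m)) =
      ∑ r ∈ Ioc (Rk P T α 0) (Rk P T α (KK P T α)), (((ArithmeticFunction.moebius r : ℝ) / (Nat.totient r : ℝ) : ℝ) : ℂ) *
        ∑ a ∈ (Icc 1 A).filter (fun a => Nat.Coprime a r), ((φ (HH P T α * a / r) : ℝ) : ℂ) * ee ((a : ℝ) * m / r) := by
  obtain ⟨Ta, hTa⟩ := Rk_succ_le P hP
  refine ⟨max Ta 16, fun T hT α hα A hA m => ?_⟩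
  have hTaT : Ta ≤ T := le_trans (le_max_left _ _) hT
  have hT1 : (1 : ℝ) ≤ T := by
    have := le_trans (le_max_right _ _) hT
    linarith
  have hmono := Rk_mono P hP (α := α) hT1
  have hcH := hP.cH_pos
  have hHdef : P.cH * T ^ (α - 1) = HH P T α := rfl
  have hH : 0 < HH P T α := mul_pos hP.cH_pos (Real.rpow_pos_of_pos (by linarith) _)
  have hsum := sum_Th P hP (α := α) hT1 (fun a r => (cf (a, r) : ℂ) *
    (((φ (HH P T α * ((a : ℝ) / r)) : ℝ) : ℂ) * ee ((a : ℝ) / r * m)))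
  simp only [Prod.mk.eta] at hsum
  rw [hsum, ← CRB_tel (Rk P T α) hmono]
  refine sum_congr rfl fun k hk => ?_
  rw [mem_range] at hk
  rw [sum_filter]
  refine sum_congr rfl fun r hr => ?_
  rw [mem_Ioc] at hr
  by_cases hsq : Squarefree r
  · rw [if_pos hsq, mul_sum]
    have hRr : (Rk P T α k : ℝ) < r := by exact_mod_cast hr.1
    have hR0 : (0 : ℝ) ≤ Rk P T α k := Nat.cast_nonneg _
    have hr0 : (0 : ℝ) < r := lt_of_le_of_lt hR0 hRr
    have hrR : (r : ℝ) ≤ Rk P T α (k + 1) := by exact_mod_cast hr.2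
    have hrK : (r : ℝ) ≤ Rk P T α (KK P T α) := by
      have h1 : (Rk P T α (k + 1) : ℝ) ≤ Rk P T α (KK P T α) := by
        exact_mod_cast hmono (by omega : k + 1 ≤ KK P T α)
      exact hrR.trans h1
    have hr2 : (r : ℝ) ≤ 2 * Rk P T α k := by
      have h1 := hTa T hTaT α hα k
      have := hP.κ_le
      nlinarith
    -- the window vanishes for large numerators
    have hbig : ∀ a : ℕ, (r : ℝ) ≤ a * (2 * HH P T α) → φ (HH P T α * a / r) = 0 := by
      intro a ha
      refine hφ.zero _ (Or.inr ?_)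
      rw [le_div_iff₀ hr0]
      linarith
    have hsmall : ∀ a : ℕ, (a : ℝ) * (4 * HH P T α) ≤ r → φ (HH P T α * a / r) = 0 := by
      intro a ha
      refine hφ.zero _ (Or.inl ?_)
      rw [div_le_iff₀ hr0]
      linarith
    refine Finset.sum_congr_of_eq_on_inter ?_ ?_ ?_
    · intro a ha ha'
      rw [mem_filter, mem_Ioc] at ha
      have h1 : A < a := by
        by_contra hcon
        exact ha' (mem_filter.2 ⟨mem_Icc.2 ⟨by omega, by omega⟩, ha.2⟩)
      have h2 : (A : ℝ) ≤ a := by exact_mod_cast h1.le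
      have h3 : φ (HH P T α * ((a : ℝ) / r)) = 0 := by
        rw [← mul_div_assoc]
        refine hbig a ?_
        have h4 := hA.trans h2
        rw [div_le_iff₀ (by positivity)] at h4
        exact hrK.trans h4
      rw [h3]
      simp
    · intro a ha ha'
      rw [mem_filter, mem_Icc] at ha
      have h1 : a ≤ A1 P T α k ∨ A2 P T α k < a := by
        by_contra hcon
        push Not at hcon
        exact ha' (mem_filter.2 ⟨mem_Ioc.2 hcon, ha.2⟩)
      have h3 : φ (HH P T α * a / r) = 0 := by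
        rcases h1 with h1 | h1
        · refine hsmall a ?_
          have h4 : (A1 P T α k : ℝ) ≤ P.δ * ((Rk P T α k : ℝ) / HH P T α) := by
            refine Nat.floor_le ?_
            rw [hHdef]
            exact mul_nonneg hP.δ_pos.le (div_nonneg hR0 hH.le)
          have h5 : (a : ℝ) ≤ A1 P T α k := by exact_mod_cast h1
          have h6 : P.δ * ((Rk P T α k : ℝ) / HH P T α) ≤ (1 / 4) * ((Rk P T α k : ℝ) / HH P T α) :=
            mul_le_mul_of_nonneg_right hδ.le (div_nonneg hR0 hH.le)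
          have h7 : (a : ℝ) * (4 * HH P T α) ≤ (1 / 4) * ((Rk P T α k : ℝ) / HH P T α) * (4 * HH P T α) :=
            mul_le_mul_of_nonneg_right (h5.trans (h4.trans h6)) (by positivity)
          have h8 : (1 / 4) * ((Rk P T α k : ℝ) / HH P T α) * (4 * HH P T α) = Rk P T α k := by
            field_simp
          linarith
        · refine hbig a ?_
          have h4 : (Rk P T α k : ℝ) / HH P T α < a := by
            have h5 : ⌊(Rk P T α k : ℝ) / (P.cH * T ^ (α - 1))⌋₊ < a := h1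
            rw [hHdef] at h5
            exact (Nat.floor_lt (div_nonneg hR0 hH.le)).1 h5
          rw [div_lt_iff₀ hH] at h4
          linarith
      rw [h3]
      simp
    · intro a _ _
      have e1 : cf (a, r) = (ArithmeticFunction.moebius r : ℝ) / (Nat.totient r : ℝ) := rfl
      rw [e1, ← mul_div_assoc, div_mul_eq_mul_div]
  · rw [if_neg hsq, ArithmeticFunction.moebius_eq_zero_of_not_squarefree hsq]
    simp

end H69BG
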