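import Pool.Agent.H69.BG.Val

/-!
# F1: the correlations with `G_R` and `g2`

`dvf` with the coefficients of `COE`: `GG_eq` (divisors `e ≤ R ≤ x^{0.51}` of `n`; `aG R e = 0` for `e > R`, `|aG| ≤ 4 (1 + log R)³ ≤ x^{u}`), `g2_eq`.
-/

open Finset H69LB

namespace H69BG

theorem F1_uu : 0 < uu := by unfold uu; norm_num

theorem F1_log : ∃ x0 : ℝ, 1 ≤ x0 ∧ ∀ x, x0 ≤ x → 4 * (1 + Real.log x) ^ 3 ≤ x ^ (3 * uu) := by
  have h1 : ∀ᶠ x : ℝ in Filter.atTop, ‖Real.log x‖ ≤ 1 / 4 * ‖x ^ uu‖ :=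
    (isLittleO_log_rpow_atTop F1_uu).bound (by norm_num)
  have h2 : ∀ᶠ x : ℝ in Filter.atTop, 4 ≤ x ^ uu :=
    (tendsto_rpow_atTop F1_uu).eventually_ge_atTop 4
  obtain ⟨x0, hx0⟩ := Filter.eventually_atTop.1 (h1.and (h2.and (Filter.eventually_ge_atTop 1)))
  refine ⟨max x0 1, le_max_right _ _, fun x hx => ?_⟩
  obtain ⟨a1, a2, a3⟩ := hx0 x ((le_max_left _ _).trans hx)
  have hx1 : 0 < x := by linarith
  have hp : 0 < x ^ uu := Real.rpow_pos_of_pos hx1 _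
  rw [Real.norm_of_nonneg (Real.log_nonneg a3), Real.norm_of_nonneg hp.le] at a1
  have h3 : x ^ (3 * uu) = (x ^ uu) ^ 3 := by
    rw [← Real.rpow_natCast, ← Real.rpow_mul hx1.le]
    congr 1
    push_cast
    ring
  rw [h3]
  have h4 : 1 + Real.log x ≤ x ^ uu / 2 := by linarith
  have h5 : (1 + Real.log x) ^ 3 ≤ (x ^ uu / 2) ^ 3 :=
    pow_le_pow_left₀ (by have := Real.log_nonneg a3; linarith) h4 3
  have h6 : 0 < (x ^ uu) ^ 3 := by positivity
  calc 4 * (1 + Real.log x) ^ 3 ≤ 4 * (x ^ uu / 2) ^ 3 := by linarith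
    _ = (x ^ uu) ^ 3 / 2 := by ring
    _ ≤ (x ^ uu) ^ 3 := by linarith

theorem F1_exp {x : ℝ} (hx : 0 < x) : x ^ (3 * uu) * x ^ (1 - 13 * uu) = x ^ (1 - 10 * uu) := by
  rw [← Real.rpow_add hx]
  congr 1
  ring

theorem f1G {M : ℝ} (hM : 0 < M) {W : ℝ → ℝ} (hW : WS M W) : ∃ x0 : ℝ, ∀ x, x0 ≤ x → ∀ t : ℤ, t ≠ 0 →
    (|t| : ℝ) ≤ x ^ (2 * uu) → ∀ R : ℕ, (R : ℝ) ≤ x ^ (51 / 100 : ℝ) →
      |corr W M x (fun n => GG R n) t| ≤ x ^ (1 - 10 * uu) := by
  obtain ⟨x1, hx1⟩ := dvf hM hW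
  obtain ⟨x2, hx2, hlog⟩ := F1_log
  refine ⟨max x1 x2, fun x hx t ht htx R hR => ?_⟩
  have h1 := (le_max_left _ _).trans hx
  have h2 := (le_max_right _ _).trans hx
  have hx0 : 0 < x := by linarith
  have hx1' : 1 ≤ x := by linarith
  have h3 := hx1 x h1 t ht htx (x ^ (3 * uu)) (Real.rpow_nonneg hx0.le _) (aG R) ?_ ?_
    (fun n => GG R n) ?_
  · rw [F1_exp hx0] at h3
    exact h3
  · intro e
    rcases Nat.eq_zero_or_pos R with hR0 | hR0
    · subst hR0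
      unfold aG
      simp
      exact Real.rpow_nonneg hx0.le _
    rcases Nat.eq_zero_or_pos e with he | he
    · subst he
      unfold aG
      simp
      exact Real.rpow_nonneg hx0.le _
    · refine (aG_le hR0 he).trans ((?_ : _ ≤ 4 * (1 + Real.log x) ^ 3).trans (hlog x h2))
      have e1 : (1 : ℝ) ≤ R := by exact_mod_cast hR0
      have e2 : (R : ℝ) ≤ x := by
        refine hR.trans ?_
        calc x ^ (51 / 100 : ℝ) ≤ x ^ (1 : ℝ) :=
              Real.rpow_le_rpow_of_exponent_le hx1' (by norm_num)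
          _ = x := Real.rpow_one x
      have e3 : Real.log R ≤ Real.log x := Real.log_le_log (by linarith) e2
      have e4 : 0 ≤ Real.log R := Real.log_nonneg e1
      have e5 : (1 + Real.log R) ^ 3 ≤ (1 + Real.log x) ^ 3 :=
        pow_le_pow_left₀ (by linarith) (by linarith) 3
      linarith
  · intro e he
    apply aG_eq_zero
    have : (R : ℝ) < e := hR.trans_lt he
    exact_mod_cast this
  · intro n hn
    rw [GG_eq]
    have e1 : ∀ e ∈ n.divisors, e ∉ (Icc 1 R).filter (fun e : ℕ => (e : ℤ) ∣ n) → aG R e = 0 := by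
      intro e he hne
      apply aG_eq_zero
      by_contra hlt
      push Not at hlt
      have h5 := Nat.dvd_of_mem_divisors he
      have h6 := Nat.pos_of_mem_divisors he
      exact hne (mem_filter.2 ⟨Finset.mem_Icc.2 ⟨h6, hlt⟩, Int.natCast_dvd_natCast.2 h5⟩)
    apply Finset.sum_subset _ e1
    intro e he
    rw [mem_filter] at he
    exact Nat.mem_divisors.2 ⟨Int.natCast_dvd_natCast.1 he.2, by omega⟩

theorem f1g {M : ℝ} (hM : 0 < M) {W : ℝ → ℝ} (hW : WS M W) : ∃ x0 : ℝ, ∀ x, x0 ≤ x → ∀ t : ℤ, t ≠ 0 →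
    (|t| : ℝ) ≤ x ^ (2 * uu) → |corr W M x (fun n => g2 x n) t| ≤ x ^ (1 - 10 * uu) := by
  obtain ⟨x1, hx1⟩ := dvf hM hW
  obtain ⟨x2, hx2⟩ := g2_eq
  refine ⟨max x1 (max x2 1), fun x hx t ht htx => ?_⟩
  have h1 := (le_max_left _ _).trans hx
  have h2 := ((le_max_left _ _).trans (le_max_right _ _)).trans hx
  have h4 := ((le_max_right _ _).trans (le_max_right _ _)).trans hx
  have hx0 : 0 < x := by linarith
  obtain ⟨a2, b1, b2, b3⟩ := hx2 x h2
  have h3 := hx1 x h1 t ht htx (x ^ (3 * uu)) (Real.rpow_nonneg hx0.le _) a2 b1 b2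
    (fun n => g2 x n) b3
  rw [F1_exp hx0] at h3
  exact h3

end H69BG
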