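import Pool.Agent.H69.BG.Defs

/-!
# EZ: the characters `e(a/k)` on `ZMod k`

Everything follows from: for integers `n`, `eZ k n = e(n/k)` (`(n : ZMod k).val ≡ n mod k`, `e` has period `1`). For `k = 0` the
convention is harmless and excluded. For `eZ_sum`: geometric sum / orthogonality (compare `ZMod.stdAddChar`,
`AddChar.sum_mulShift`). `eZ_crt`: for coprime `k, b` and an integer `n`, `n/(kb) ≡ n b⁻¹/k + n k⁻¹/b mod 1`.
-/

open Finset H69LB

namespace H69BG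

theorem ee_norm (t : ℝ) : ‖ee t‖ = 1 := by
  unfold ee
  rw [show (2 * Real.pi * t * Complex.I : ℂ) = ((2 * Real.pi * t : ℝ) : ℂ) * Complex.I by
    push_cast; ring]
  exact Complex.norm_exp_ofReal_mul_I _

theorem ee_add (s t : ℝ) : ee (s + t) = ee s * ee t := by
  unfold ee
  rw [← Complex.exp_add]
  congr 1
  push_cast
  ring

theorem ee_int (n : ℤ) : ee n = 1 := by
  unfold ee
  rw [← Complex.exp_int_mul_two_pi_mul_I n]
  congr 1
  push_cast
  ring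

theorem conj_ee (t : ℝ) : (starRingEnd ℂ) (ee t) = ee (-t) := by
  unfold ee
  rw [← Complex.exp_conj]
  congr 1
  simp only [map_mul, Complex.conj_ofReal, Complex.conj_I, map_ofNat]
  push_cast
  ring

theorem ee_lip (s t : ℝ) : ‖ee s - ee t‖ ≤ 2 * Real.pi * |s - t| := by
  have h1 : ee s - ee t = ee t * (ee (s - t) - 1) := by
    rw [mul_sub, ← ee_add, add_sub_cancel, mul_one]
  rw [h1, norm_mul, ee_norm, one_mul]
  have h2 := Real.norm_exp_I_mul_ofReal_sub_one_le (x := 2 * Real.pi * (s - t))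
  have h3 : ee (s - t) = Complex.exp (Complex.I * ((2 * Real.pi * (s - t) : ℝ) : ℂ)) := by
    unfold ee
    congr 1
    push_cast
    ring
  rw [h3]
  refine h2.trans (le_of_eq ?_)
  rw [Real.norm_eq_abs, abs_mul, abs_of_pos (by positivity)]

theorem eZ_int {k : ℕ} (hk : 1 ≤ k) (n : ℤ) : eZ k (n : ZMod k) = ee ((n : ℝ) / k) := by
  have : NeZero k := ⟨by omega⟩
  unfold eZ
  have h1 : (((n : ZMod k).val : ℕ) : ℤ) = n % k := ZMod.val_intCast n
  have h2 : (((n : ZMod k).val : ℕ) : ℝ) = ((n % k : ℤ) : ℝ) := by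
    rw [← h1]; simp
  have h3 : (n : ℝ) = ((n % k : ℤ) : ℝ) + k * ((n / k : ℤ) : ℝ) := by
    have := Int.emod_add_mul_ediv n k
    exact_mod_cast this.symm
  have hk0 : (k : ℝ) ≠ 0 := by positivity
  have h4 : (n : ℝ) / k = ((n % k : ℤ) : ℝ) / k + ((n / k : ℤ) : ℝ) := by
    calc (n : ℝ) / k = (((n % k : ℤ) : ℝ) + k * ((n / k : ℤ) : ℝ)) / k := by rw [← h3]
      _ = _ := by rw [add_div, mul_div_cancel_left₀ _ hk0]
  rw [h2, h4, ee_add, ee_int, mul_one]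

theorem EZ_rep {k : ℕ} (hk : 1 ≤ k) (a : ZMod k) : ((a.val : ℤ) : ZMod k) = a := by
  have : NeZero k := ⟨by omega⟩
  simp

theorem eZ_norm (k : ℕ) (a : ZMod k) : ‖eZ k a‖ = 1 := ee_norm _

theorem eZ_add {k : ℕ} (hk : 1 ≤ k) (a b : ZMod k) : eZ k (a + b) = eZ k a * eZ k b := by
  conv_lhs => rw [← EZ_rep hk a, ← EZ_rep hk b]
  rw [← Int.cast_add, eZ_int hk]
  unfold eZ
  rw [← ee_add]
  congr 1
  push_cast
  rw [add_div]

theorem eZ_zero {k : ℕ} (hk : 1 ≤ k) : eZ k 0 = 1 := by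
  have h := eZ_int hk 0
  rw [Int.cast_zero] at h
  rw [h]
  have := ee_int 0
  simpa using this

theorem eZ_neg {k : ℕ} (hk : 1 ≤ k) (a : ZMod k) : eZ k (-a) = (starRingEnd ℂ) (eZ k a) := by
  conv_lhs => rw [← EZ_rep hk a]
  rw [← Int.cast_neg, eZ_int hk]
  unfold eZ
  rw [conj_ee]
  congr 1
  push_cast
  rw [neg_div]

theorem EZ_std {k : ℕ} [NeZero k] (a : ZMod k) : eZ k a = ZMod.stdAddChar a := by
  have hk : 1 ≤ k := Nat.one_le_iff_ne_zero.2 (NeZero.ne k)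
  conv_lhs => rw [← EZ_rep hk a]
  conv_rhs => rw [← EZ_rep hk a]
  rw [eZ_int hk, ZMod.stdAddChar_coe]
  unfold ee
  congr 1
  push_cast
  ring

/-- orthogonality -/
theorem eZ_sum {k : ℕ} [NeZero k] (a : ZMod k) : ∑ h : ZMod k, eZ k (a * h) = if a = 0 then (k : ℂ) else 0 := by
  have h := AddChar.sum_mulShift a (ZMod.isPrimitive_stdAddChar k)
  rw [ZMod.card] at h
  have h2 : ∑ h : ZMod k, eZ k (a * h) = ∑ x : ZMod k, ZMod.stdAddChar (x * a) := by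
    refine Finset.sum_congr rfl fun x _ => ?_
    rw [EZ_std, mul_comm]
  rw [h2, h]
  split_ifs <;> simp

theorem EZ_inv {k b : ℕ} (hk : 1 ≤ k) (hkb : Nat.Coprime k b) :
    ∃ B : ℤ, (b : ZMod k)⁻¹ = (B : ZMod k) ∧ (k : ℤ) ∣ B * b - 1 := by
  have : NeZero k := ⟨by omega⟩
  refine ⟨(((b : ZMod k)⁻¹).val : ℤ), (EZ_rep hk _).symm, ?_⟩
  rw [← ZMod.intCast_zmod_eq_zero_iff_dvd]
  push_cast
  rw [ZMod.natCast_zmod_val, mul_comm, ZMod.coe_mul_inv_eq_one b hkb.symm, sub_self]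

theorem eZ_crt {k b : ℕ} (hk : 1 ≤ k) (hb : 1 ≤ b) (hkb : Nat.Coprime k b) (n : ℤ) :
    ee ((n : ℝ) / (k * b)) = eZ k ((n : ZMod k) * (b : ZMod k)⁻¹) * eZ b ((n : ZMod b) * (k : ZMod b)⁻¹) := by
  obtain ⟨B, hB1, hB2⟩ := EZ_inv hk hkb
  obtain ⟨K, hK1, hK2⟩ := EZ_inv hb hkb.symm
  rw [hB1, hK1, ← Int.cast_mul, ← Int.cast_mul, eZ_int hk, eZ_int hb, ← ee_add]
  have h1 : (k : ℤ) ∣ B * b + K * k - 1 := by
    have : B * b + K * k - 1 = (B * b - 1) + K * k := by ring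
    rw [this]
    exact dvd_add hB2 (Dvd.intro_left _ rfl)
  have h2 : (b : ℤ) ∣ B * b + K * k - 1 := by
    have : B * b + K * k - 1 = (K * k - 1) + B * b := by ring
    rw [this]
    exact dvd_add hK2 (Dvd.intro_left _ rfl)
  have h3 : ((k : ℤ) * b) ∣ B * b + K * k - 1 :=
    IsCoprime.mul_dvd (Nat.isCoprime_iff_coprime.2 hkb) h1 h2
  obtain ⟨m, hm⟩ := h3
  have hk0 : (k : ℝ) ≠ 0 := by positivity
  have hb0 : (b : ℝ) ≠ 0 := by positivity
  have hm' : (B : ℝ) * b + K * k - 1 = k * b * m := by exact_mod_cast hm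
  have h4 : (((n * B : ℤ) : ℝ) / k + ((n * K : ℤ) : ℝ) / b) = (n : ℝ) / (k * b) + ((n * m : ℤ) : ℝ) := by
    push_cast
    field_simp
    linear_combination (n : ℝ) * hm'
  rw [h4, ee_add, ee_int, mul_one]

end H69BG
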