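import Pool.Agent.H69.BG.Coe
import Pool.Agent.H69.BG.Ez
import Pool.Agent.H94.WeylC

/-!
# CRX: Ramanujan sums as exponential sums; pointwise bounds

* `cr_exp`: for `r ≥ 1`: `∑_{a ≤ r, (a,r)=1} e(an/r) = ∑_{d ∣ r} μ(d) ∑_{a' ≤ r/d} e(a' n/(r/d)) = ∑_{d ∣ r} μ(d) (r/d) [r/d ∣ n]`, which is `cr r n` (replace `d` by `r/d`).
* `abs_cr_phi`: hence `|c_r(n)| ≤ φ(r)`; `abs_GG_le`: `|G_R(n)| ≤ R`.
* `abs_GG_le'`: for `n ≠ 0`, `|n| ≤ x^{1.1}`, `R ≤ x`: `|G_R(n)| ≤ ∑_{e ∣ n} |aG R e| ≤ τ(|n|) 4 (1 + log R)³ ≤ x^{u}` (`GG_eq`, `aG_le`, divisor bound in `Pool/Agent/H94/WeylC.lean`).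
* `g2_bd`: `|G_y(n)| ≤ y ≤ x^{2u}` and `|g9 x n| ≤ C` (`om_le`, `kap_le`).
-/

open Finset H69LB

namespace H69BG

theorem Crx_ee_nat (k : ℕ) (t : ℝ) : ee (k * t) = ee t ^ k := by
  induction k with
  | zero =>
    have := ee_int 0
    simpa using this
  | succ k ih =>
    rw [pow_succ, ← ih, ← ee_add]
    congr 1
    push_cast
    ring

theorem Crx_ee_ne {k : ℕ} (hk : 1 ≤ k) {n : ℤ} (h : ¬ (k : ℤ) ∣ n) : ee ((n : ℝ) / k) ≠ 1 := by
  intro he
  apply h
  unfold ee at he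
  rw [Complex.exp_eq_one_iff] at he
  obtain ⟨m, hm⟩ := he
  have hk0 : (k : ℂ) ≠ 0 := by
    have : k ≠ 0 := by omega
    exact_mod_cast this
  have h2 : (2 * Real.pi * Complex.I : ℂ) ≠ 0 := Complex.two_pi_I_ne_zero
  have h3 : (2 * Real.pi * Complex.I : ℂ) * ((n : ℂ) / k) = (2 * Real.pi * Complex.I : ℂ) * m := by
    rw [mul_comm _ (m : ℂ), ← hm]
    push_cast
    ring
  have h4 := mul_left_cancel₀ h2 h3
  rw [div_eq_iff hk0] at h4
  have h5 : n = m * k := by exact_mod_cast h4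
  exact ⟨m, by rw [h5]; ring⟩

theorem Crx_geo {k : ℕ} (hk : 1 ≤ k) (n : ℤ) :
    ∑ a ∈ Icc 1 k, ee ((a : ℝ) * n / k) = if (k : ℤ) ∣ n then (k : ℂ) else 0 := by
  have hk0 : (k : ℝ) ≠ 0 := by
    have : k ≠ 0 := by omega
    exact_mod_cast this
  have h1 : ∀ a : ℕ, ee ((a : ℝ) * n / k) = ee ((n : ℝ) / k) ^ a := by
    intro a
    rw [← Crx_ee_nat]
    congr 1
    ring
  simp only [h1]
  split_ifs with h
  · obtain ⟨m, rfl⟩ := h
    have h2 : (((k : ℤ) * m : ℤ) : ℝ) / k = (m : ℤ) := by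
      push_cast
      field_simp
    rw [h2, ee_int]
    simp
  · have hne := Crx_ee_ne hk h
    have h3 : ee ((n : ℝ) / k) ^ k = 1 := by
      rw [← Crx_ee_nat]
      have h4 : (k : ℝ) * ((n : ℝ) / k) = (n : ℤ) := by field_simp
      rw [h4, ee_int]
    have h4 : ∑ a ∈ Icc 1 k, ee ((n : ℝ) / k) ^ a =
        ee ((n : ℝ) / k) * ∑ a ∈ range k, ee ((n : ℝ) / k) ^ a := by
      rw [Finset.mul_sum]
      have h5 : Icc 1 k = (range k).map ⟨fun a => a + 1, add_left_injective 1⟩ := by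
        ext a
        simp only [mem_Icc, mem_map, mem_range, Function.Embedding.coeFn_mk]
        constructor
        · intro h
          exact ⟨a - 1, by omega, by omega⟩
        · rintro ⟨b, hb, rfl⟩
          omega
      rw [h5, Finset.sum_map]
      refine Finset.sum_congr rfl fun a _ => ?_
      simp only [Function.Embedding.coeFn_mk]
      rw [pow_succ, mul_comm]
    rw [h4, geom_sum_eq hne, h3, sub_self, zero_div, mul_zero]

theorem Crx_mu {a r : ℕ} (hr : 1 ≤ r) :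
    ∑ d ∈ r.divisors.filter (fun d => d ∣ a), (ArithmeticFunction.moebius d : ℂ) =
      if Nat.Coprime a r then 1 else 0 := by
  have h1 : r.divisors.filter (fun d => d ∣ a) = (Nat.gcd a r).divisors := by
    ext d
    simp only [mem_filter, Nat.mem_divisors]
    have h2 : Nat.gcd a r ≠ 0 := Nat.gcd_ne_zero_right (by omega)
    constructor
    · rintro ⟨⟨h3, -⟩, h4⟩
      exact ⟨Nat.dvd_gcd h4 h3, h2⟩
    · rintro ⟨h3, -⟩
      exact ⟨⟨h3.trans (Nat.gcd_dvd_right _ _), by omega⟩, h3.trans (Nat.gcd_dvd_left _ _)⟩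
  rw [h1]
  have h2 := congrArg (fun f : ArithmeticFunction ℤ => f (Nat.gcd a r))
    ArithmeticFunction.moebius_mul_coe_zeta
  rw [ArithmeticFunction.coe_mul_zeta_apply, ArithmeticFunction.one_apply] at h2
  have h3 : (∑ d ∈ (Nat.gcd a r).divisors, (ArithmeticFunction.moebius d : ℂ)) =
      ((∑ d ∈ (Nat.gcd a r).divisors, ArithmeticFunction.moebius d : ℤ) : ℂ) := by
    push_cast
    rfl
  rw [h3, h2]
  unfold Nat.Coprime
  split_ifs <;> simp

theorem cr_exp {r : ℕ} (hr : 1 ≤ r) (n : ℤ) :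
    ((cr r n : ℝ) : ℂ) = ∑ a ∈ (Icc 1 r).filter (fun a => Nat.Coprime a r), ee ((a : ℝ) * n / r) := by
  have h1 : ∑ a ∈ (Icc 1 r).filter (fun a => Nat.Coprime a r), ee ((a : ℝ) * n / r) =
      ∑ d ∈ r.divisors, (ArithmeticFunction.moebius d : ℂ) *
        ∑ a ∈ (Icc 1 r).filter (fun a => d ∣ a), ee ((a : ℝ) * n / r) := by
    rw [Finset.sum_filter]
    calc ∑ a ∈ Icc 1 r, (if Nat.Coprime a r then ee ((a : ℝ) * n / r) else 0)
        = ∑ a ∈ Icc 1 r, ∑ d ∈ r.divisors,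
          if d ∣ a then (ArithmeticFunction.moebius d : ℂ) * ee ((a : ℝ) * n / r) else 0 := by
          refine Finset.sum_congr rfl fun a _ => ?_
          rw [← Finset.sum_filter, ← Finset.sum_mul, Crx_mu hr]
          split_ifs
          · rw [one_mul]
          · rw [zero_mul]
      _ = _ := by
          rw [Finset.sum_comm]
          refine Finset.sum_congr rfl fun d _ => ?_
          rw [Finset.mul_sum, ← Finset.sum_filter]
  have h2 : ∀ d ∈ r.divisors, (ArithmeticFunction.moebius d : ℂ) *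
        ∑ a ∈ (Icc 1 r).filter (fun a => d ∣ a), ee ((a : ℝ) * n / r) =
      (fun k : ℕ => (ArithmeticFunction.moebius (r / k) : ℂ) *
        if (k : ℤ) ∣ n then (k : ℂ) else 0) (r / d) := by
    intro d hd
    rw [Nat.mem_divisors] at hd
    obtain ⟨⟨k, rfl⟩, -⟩ := hd
    have hd0 : 0 < d := Nat.pos_of_ne_zero fun h => by rw [h] at hr; omega
    have hk0 : 0 < k := Nat.pos_of_ne_zero fun h => by rw [h] at hr; omega
    have h3 : d * k / d = k := Nat.mul_div_cancel_left k hd0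
    have h4 : d * k / k = d := Nat.mul_div_cancel d hk0
    simp only [h3, h4]
    congr 1
    rw [← Crx_geo hk0 n]
    have h5 : (Icc 1 (d * k)).filter (fun a => d ∣ a) =
        (Icc 1 k).map ⟨fun b => d * b, fun b c h => Nat.eq_of_mul_eq_mul_left hd0 h⟩ := by
      ext a
      simp only [mem_filter, mem_Icc, mem_map, Function.Embedding.coeFn_mk]
      constructor
      · rintro ⟨⟨h6, h7⟩, b, rfl⟩
        refine ⟨b, ⟨Nat.pos_of_ne_zero fun h => by rw [h] at h6; omega, ?_⟩, rfl⟩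
        exact Nat.le_of_mul_le_mul_left h7 hd0
      · rintro ⟨b, ⟨h6, h7⟩, rfl⟩
        exact ⟨⟨Nat.mul_pos hd0 h6, Nat.mul_le_mul_left d h7⟩, Dvd.intro _ rfl⟩
    rw [h5, Finset.sum_map]
    refine Finset.sum_congr rfl fun b _ => ?_
    congr 1
    have hdr : (d : ℝ) ≠ 0 := by exact_mod_cast hd0.ne'
    have hkr : (k : ℝ) ≠ 0 := by exact_mod_cast hk0.ne'
    simp only [Function.Embedding.coeFn_mk]
    push_cast
    field_simp
  rw [h1, Finset.sum_congr rfl h2, Nat.sum_div_divisors r (fun k : ℕ =>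
    (ArithmeticFunction.moebius (r / k) : ℂ) * if (k : ℤ) ∣ n then (k : ℂ) else 0)]
  unfold cr
  push_cast
  rw [Finset.sum_filter]
  refine Finset.sum_congr rfl fun d _ => ?_
  split_ifs
  · ring
  · ring

theorem abs_cr_phi {r : ℕ} (hr : 1 ≤ r) (n : ℤ) : |cr r n| ≤ Nat.totient r := by
  have h1 : |cr r n| = ‖((cr r n : ℝ) : ℂ)‖ := by rw [Complex.norm_real, Real.norm_eq_abs]
  rw [h1, cr_exp hr]
  refine (norm_sum_le _ _).trans ?_
  simp only [ee_norm, sum_const, nsmul_eq_mul, mul_one]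
  have h2 := Nat.filter_coprime_Ico_eq_totient r 1
  have h3 : (Icc 1 r).filter (fun a => Nat.Coprime a r) = (Ico 1 (1 + r)).filter (fun a => r.Coprime a) := by
    ext a
    simp only [mem_filter, mem_Icc, mem_Ico]
    rw [Nat.coprime_comm]
    constructor
    · rintro ⟨⟨h4, h5⟩, h6⟩
      exact ⟨⟨h4, by omega⟩, h6⟩
    · rintro ⟨⟨h4, h5⟩, h6⟩
      exact ⟨⟨h4, by omega⟩, h6⟩
  rw [h3, h2]

theorem abs_GG_le (R : ℕ) (n : ℤ) : |GG R n| ≤ R := by
  unfold GG
  refine (abs_sum_le_sum_abs _ _).trans ?_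
  calc ∑ r ∈ Icc 1 R, |(ArithmeticFunction.moebius r : ℝ) / (Nat.totient r : ℝ) * cr r n|
      ≤ ∑ r ∈ Icc 1 R, (1 : ℝ) := by
        refine Finset.sum_le_sum fun r hr => ?_
        rw [mem_Icc] at hr
        have hφ : (0 : ℝ) < Nat.totient r := by exact_mod_cast Nat.totient_pos.2 hr.1
        rw [abs_mul, abs_div, abs_of_pos hφ]
        have h1 : |(ArithmeticFunction.moebius r : ℝ)| ≤ 1 := by
          have h := ArithmeticFunction.abs_moebius_le_one (n := r)
          exact_mod_cast h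
        have h2 := abs_cr_phi hr.1 n
        calc |(ArithmeticFunction.moebius r : ℝ)| / (Nat.totient r : ℝ) * |cr r n|
            ≤ 1 / (Nat.totient r : ℝ) * Nat.totient r := by
              refine mul_le_mul (div_le_div_of_nonneg_right h1 hφ.le) h2 (abs_nonneg _) ?_
              positivity
          _ = 1 := by field_simp
    _ = R := by simp

theorem Crx_uu_pos : (0 : ℝ) < uu := by unfold uu; norm_num

theorem abs_GG_le' : ∃ x0 : ℝ, ∀ x, x0 ≤ x → ∀ R : ℕ, (R : ℝ) ≤ x → ∀ n : ℤ, n ≠ 0 → (|n| : ℝ) ≤ x ^ (11 / 10 : ℝ) →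
    |GG R n| ≤ x ^ uu := by
  have hu : (0 : ℝ) < uu := Crx_uu_pos
  obtain ⟨C, hC1, hC⟩ := Pool.Agent.H94.Weyl.card_divisors_le (uu / 4) (by positivity)
  obtain ⟨K, hK⟩ : ∃ K, K = C * (4 * (1 + 12 / uu) ^ 3) := ⟨_, rfl⟩
  have hK0 : 0 < K := by rw [hK]; positivity
  refine ⟨max 2 (K ^ (4 / uu)), fun x hx R hR n hn hnx => ?_⟩
  have hx2 : 2 ≤ x := (le_max_left _ _).trans hx
  have hx3 : K ^ (4 / uu) ≤ x := (le_max_right _ _).trans hx
  have hx1 : 1 ≤ x := by linarith
  have hx0 : 0 < x := by linarith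
  have hlx : 0 ≤ Real.log x := Real.log_nonneg hx1
  rcases Nat.eq_zero_or_pos R with h0 | hR1
  · rw [h0]
    unfold GG
    simp only [zero_lt_one, Icc_eq_empty_of_lt, sum_empty, abs_zero]
    positivity
  · rw [GG_eq]
    refine (abs_sum_le_sum_abs _ _).trans ?_
    have hlR : Real.log R ≤ Real.log x := Real.log_le_log (by exact_mod_cast hR1) hR
    have hlR0 : 0 ≤ Real.log R := Real.log_natCast_nonneg R
    have h1 : ∀ e ∈ (Icc 1 R).filter (fun e : ℕ => (e : ℤ) ∣ n), |aG R e| ≤ 4 * (1 + Real.log x) ^ 3 := by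
      intro e he
      rw [mem_filter, mem_Icc] at he
      refine (aG_le hR1 he.1.1).trans ?_
      have := pow_le_pow_left₀ (by linarith) (add_le_add_right hlR 1) 3
      linarith
    have hcard : (((Icc 1 R).filter (fun e : ℕ => (e : ℤ) ∣ n)).card : ℝ) ≤ C * x ^ (uu / 2) := by
      have h2 : (Icc 1 R).filter (fun e : ℕ => (e : ℤ) ∣ n) ⊆ n.natAbs.divisors := by
        intro e he
        rw [mem_filter] at he
        rw [Nat.mem_divisors]
        exact ⟨Int.natCast_dvd.1 he.2, Int.natAbs_ne_zero.2 hn⟩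
      have h3 : (((Icc 1 R).filter (fun e : ℕ => (e : ℤ) ∣ n)).card : ℝ) ≤ n.natAbs.divisors.card := by
        exact_mod_cast card_le_card h2
      have h4 := hC n.natAbs (Nat.one_le_iff_ne_zero.2 (Int.natAbs_ne_zero.2 hn))
      have h5 : ((n.natAbs : ℕ) : ℝ) = |(n : ℝ)| := by
        rw [Nat.cast_natAbs, Int.cast_abs]
      rw [h5] at h4
      refine h3.trans (h4.trans (mul_le_mul_of_nonneg_left ?_ (by linarith)))
      calc |(n : ℝ)| ^ (uu / 4) ≤ (x ^ (11 / 10 : ℝ)) ^ (uu / 4) :=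
            Real.rpow_le_rpow (abs_nonneg _) hnx (by positivity)
        _ = x ^ (11 / 10 * (uu / 4)) := by rw [← Real.rpow_mul hx0.le]
        _ ≤ x ^ (uu / 2) := Real.rpow_le_rpow_of_exponent_le hx1 (by linarith)
    have hlog : (1 + Real.log x) ^ 3 ≤ (1 + 12 / uu) ^ 3 * x ^ (uu / 4) := by
      have h1 : 1 + Real.log x ≤ (1 + 12 / uu) * x ^ (uu / 12) := by
        have h2 := Real.log_le_rpow_div hx0.le (show 0 < uu / 12 by positivity)
        have h3 : (1 : ℝ) ≤ x ^ (uu / 12) := Real.one_le_rpow hx1 (by positivity)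
        have h4 : x ^ (uu / 12) / (uu / 12) = 12 / uu * x ^ (uu / 12) := by
          field_simp
        rw [h4] at h2
        linarith
      have h3 := pow_le_pow_left₀ (by linarith) h1 3
      rw [mul_pow] at h3
      have h4 : (x ^ (uu / 12)) ^ 3 = x ^ (uu / 4) := by
        rw [← Real.rpow_natCast, ← Real.rpow_mul hx0.le]
        congr 1
        push_cast
        ring
      rw [h4] at h3
      exact h3
    have hKx : K ≤ x ^ (uu / 4) := by
      have h4 := Real.rpow_le_rpow (by positivity) hx3 (show 0 ≤ uu / 4 by positivity)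
      rw [← Real.rpow_mul hK0.le] at h4
      have h5 : 4 / uu * (uu / 4) = 1 := by
        field_simp
      rw [h5, Real.rpow_one] at h4
      exact h4
    calc ∑ e ∈ (Icc 1 R).filter (fun e : ℕ => (e : ℤ) ∣ n), |aG R e|
        ≤ ((Icc 1 R).filter (fun e : ℕ => (e : ℤ) ∣ n)).card • (4 * (1 + Real.log x) ^ 3) :=
          Finset.sum_le_card_nsmul _ _ _ h1
      _ = ((Icc 1 R).filter (fun e : ℕ => (e : ℤ) ∣ n)).card * (4 * (1 + Real.log x) ^ 3) := by
          rw [nsmul_eq_mul]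
      _ ≤ (C * x ^ (uu / 2)) * (4 * ((1 + 12 / uu) ^ 3 * x ^ (uu / 4))) := by
          apply mul_le_mul hcard _ (by positivity) (by positivity)
          linarith
      _ = K * x ^ (uu / 2 + uu / 4) := by
          rw [hK, Real.rpow_add hx0]; ring
      _ ≤ x ^ (uu / 4) * x ^ (uu / 2 + uu / 4) :=
          mul_le_mul_of_nonneg_right hKx (by positivity)
      _ = x ^ uu := by
          rw [← Real.rpow_add hx0]
          congr 1
          ring

theorem g2_bd : ∃ x0 : ℝ, ∀ x, x0 ≤ x → ∀ n : ℤ, n ≠ 0 → (|n| : ℝ) ≤ x ^ (11 / 10 : ℝ) → |g2 x n| ≤ x ^ (3 * uu) := by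
  have hu : (0 : ℝ) < uu := Crx_uu_pos
  obtain ⟨C, x1, hC⟩ := kap_le
  obtain ⟨D, hD⟩ : ∃ D, D = max C 550 := ⟨_, rfl⟩
  have hD0 : (0 : ℝ) < D := by rw [hD]; exact lt_of_lt_of_le (by norm_num) (le_max_right _ _)
  refine ⟨max (max x1 2) ((D ^ 9) ^ (1 / uu)), fun x hx n hn hnx => ?_⟩
  have hx1' : x1 ≤ x := (le_max_left _ _).trans ((le_max_left _ _).trans hx)
  have hx2 : 2 ≤ x := (le_max_right _ _).trans ((le_max_left _ _).trans hx)
  have hx3 : (D ^ 9) ^ (1 / uu) ≤ x := (le_max_right _ _).trans hx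
  have hx1 : 1 < x := by linarith
  have hx0 : 0 < x := by linarith
  have hD9 : D ^ 9 ≤ x ^ uu := by
    have h4 := Real.rpow_le_rpow (by positivity) hx3 hu.le
    rw [← Real.rpow_mul (by positivity)] at h4
    have h5 : 1 / uu * uu = 1 := by field_simp
    rw [h5, Real.rpow_one] at h4
    exact h4
  have hg9 : |g9 x n| ≤ D ^ 9 := by
    unfold g9 gI
    rw [Finset.abs_prod]
    calc ∏ i ∈ range 9, |kap (PP x) i - om (PP x) i n| ≤ ∏ _i ∈ range 9, D := by
          refine Finset.prod_le_prod (fun i _ => abs_nonneg _) fun i _ => ?_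
          have h1 : kap (PP x) i ≤ D := by
            rw [hD]; exact (hC x hx1' i).trans (le_max_left _ _)
          have h2 : om (PP x) i n ≤ D := by
            rw [hD]; exact (om_le hx1 i hn hnx).trans (le_max_right _ _)
          have h3 : 0 ≤ kap (PP x) i := Finset.sum_nonneg fun p _ => by positivity
          have h4 : 0 ≤ om (PP x) i n := by unfold om; positivity
          rw [abs_le]
          constructor <;> linarith
      _ = D ^ 9 := by simp
  have hGG : |GG (yy x) n| ≤ x ^ (2 * uu) := by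
    refine (abs_GG_le _ _).trans ?_
    exact Nat.floor_le (by positivity)
  unfold g2
  rw [abs_mul]
  calc |GG (yy x) n| * |g9 x n| ≤ x ^ (2 * uu) * x ^ uu :=
        mul_le_mul hGG (hg9.trans hD9) (abs_nonneg _) (by positivity)
    _ = x ^ (3 * uu) := by
        rw [← Real.rpow_add hx0]
        congr 1
        ring

end H69BG
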