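import Pool.Agent.H69.BG.Dvf
import Pool.Agent.H69.LB.Vau
import Pool.Agent.H94.WeylC

/-!
# VAL: the correlation of `Λ` with `g2`

See the header of `Dvf.lean`, part `val`. Vaughan (`H69LB.vaughan`) with `U = V = ⌊x^{0.332}⌋`, `N = NN M x`, `g n = W(log(n/x)) g2(n - t)` (zero for `n ≤ U`, as `W = 0` for `n ≤ x e^{-M}`).
* first sum, `d ≤ V`: `smo` with `l = d`, `v k = W(log(d k/x)) log k` (`TVn ≤ C log x`, `∑ |v| ≤ C (x/d) log x`): total `≤ x^{0.99}`.
* second sum, `l ≤ U V ≤ x^{0.664}`, `|cUV U V l| ≤ log l`: `smo` for `l ≤ x^{0.34}`, `bl2` for `l > x^{0.34}` (then `k ≥ x^{0.335}` where `W ≠ 0`).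
* third sum: `m > U`, `betaV V k = 0` for `k ≤ V`, `Λ(m) ≤ log m`, `|betaV V k| ≤ τ(k) ≤ x^{u}` (divisor bound): `bl2` with `A1 = C log x`, `A2 = x^{u}`.
-/

open Finset H69LB

namespace H69BG

private lemma VAL_log (K s : ℝ) (hs : 0 < s) :
    ∀ᶠ x : ℝ in Filter.atTop, K * (1 + Real.log x) ^ 2 ≤ x ^ s := by
  have h1 := (isLittleO_log_rpow_rpow_atTop 2 hs).bound (c := 1 / (4 * (|K| + 1))) (by positivity)
  filter_upwards [h1, Filter.eventually_ge_atTop (Real.exp 1), Filter.eventually_gt_atTop 0]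
    with x hx hx1 hx0
  have hL : 1 ≤ Real.log x := (Real.le_log_iff_exp_le hx0).2 hx1
  have hpos : 0 < x ^ s := Real.rpow_pos_of_pos hx0 s
  rw [Real.norm_eq_abs, Real.norm_eq_abs, abs_of_pos hpos, Real.rpow_two,
    abs_of_nonneg (sq_nonneg _)] at hx
  have h2 : (1 + Real.log x) ^ 2 ≤ 4 * Real.log x ^ 2 := by nlinarith
  have h3 : Real.log x ^ 2 * (4 * (|K| + 1)) ≤ x ^ s := by
    rw [one_div, inv_mul_eq_div, le_div_iff₀ (by positivity)] at hx
    exact hx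
  have hK : 0 ≤ |K| + 1 := by positivity
  calc K * (1 + Real.log x) ^ 2 ≤ (|K| + 1) * (1 + Real.log x) ^ 2 :=
        mul_le_mul_of_nonneg_right (by linarith [le_abs_self K]) (sq_nonneg _)
    _ ≤ (|K| + 1) * (4 * Real.log x ^ 2) := mul_le_mul_of_nonneg_left h2 hK
    _ ≤ x ^ s := by linarith

private lemma VAL_harm {n : ℕ} {x : ℝ} (hx : 1 ≤ x) (hn : (n : ℝ) ≤ x) :
    ∑ d ∈ Icc 1 n, (1 / (d : ℝ)) ≤ 1 + Real.log x := by
  have h1 := harmonic_le_one_add_log n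
  rw [harmonic_eq_sum_Icc] at h1
  push_cast at h1
  have h2 : ∑ d ∈ Icc 1 n, (1 / (d : ℝ)) = ∑ d ∈ Icc 1 n, ((d : ℝ))⁻¹ := by
    simp only [one_div]
  rw [h2]
  refine h1.trans ?_
  rcases Nat.eq_zero_or_pos n with h | h
  · subst h
    simp only [Nat.cast_zero, Real.log_zero, add_zero]
    linarith [Real.log_nonneg hx]
  · have := Real.log_le_log (by exact_mod_cast h : (0 : ℝ) < n) hn
    linarith

private lemma VAL_range (n : ℕ) (F : ℕ → ℝ) (h0 : F 0 = 0) :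
    ∑ k ∈ Icc 1 n, F k = ∑ k ∈ range (n + 1), F k := by
  refine Finset.sum_subset (fun k hk => ?_) (fun k hk hk' => ?_)
  · rw [mem_Icc] at hk
    rw [mem_range]
    omega
  · rw [mem_range] at hk
    rw [mem_Icc] at hk'
    have : k = 0 := by omega
    rw [this, h0]

private noncomputable def VAL_g (W : ℝ → ℝ) (x : ℝ) (t : ℤ) (n : ℕ) : ℂ :=
  ((vW W x 1 n * g2 x (n - t) : ℝ) : ℂ)

private lemma VAL_gmul (W : ℝ → ℝ) (x : ℝ) (t : ℤ) {l : ℕ} (hl : 1 ≤ l) (k : ℕ) :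
    VAL_g W x t (l * k) = ((vW W x l k * g2 x (l * k - t) : ℝ) : ℂ) := by
  unfold VAL_g vW
  have h1 : ((l * k : ℕ) : ℤ) = (l : ℤ) * k := by push_cast; ring
  rw [h1, one_mul]
  by_cases hk : k = 0
  · simp [hk]
  · rw [if_neg (Nat.mul_ne_zero (by omega) hk), if_neg hk]

private lemma VAL_in {x : ℝ} {t : ℤ} {l n : ℕ}
    (hsmo : ∀ (N : ℕ) (v : ℕ → ℝ), |∑ k ∈ range (N + 1), v k * g2 x (l * k - t)| ≤
      TVn N v * x ^ (501 / 1000 : ℝ) + x ^ (-(1 / 100) : ℝ) * |∑ k ∈ range (N + 1), v k|)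
    (hx : 0 < x) {v : ℕ → ℝ} (v0 : v 0 = 0) {T S : ℝ} (htv : TVn n v ≤ T)
    (hs : ∑ k ∈ range (n + 1), |v k| ≤ S) :
    |∑ k ∈ Icc 1 n, v k * g2 x (l * k - t)| ≤
      T * x ^ (501 / 1000 : ℝ) + x ^ (-(1 / 100) : ℝ) * S := by
  rw [VAL_range n (fun k => v k * g2 x (l * k - t)) (by simp [v0])]
  refine (hsmo n v).trans (add_le_add ?_ ?_)
  · exact mul_le_mul_of_nonneg_right htv (Real.rpow_pos_of_pos hx _).le
  · exact mul_le_mul_of_nonneg_left ((abs_sum_le_sum_abs _ _).trans hs)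
      (Real.rpow_pos_of_pos hx _).le

private lemma VAL_outer {x : ℝ} (hx : 1 ≤ x) {D : Finset ℕ} {n : ℕ} (hD : D ⊆ Icc 1 n)
    (hn : (n : ℝ) ≤ x) {Y c T U : ℝ} (hY : (D.card : ℝ) ≤ Y) (hc : 0 ≤ c) (hT : 0 ≤ T) (hU : 0 ≤ U)
    (a S : ℕ → ℂ) (ha : ∀ d ∈ D, ‖a d‖ ≤ c) (hS : ∀ d ∈ D, ‖S d‖ ≤ T + U * (1 / (d : ℝ))) :
    ‖∑ d ∈ D, a d * S d‖ ≤ c * (Y * T + U * (1 + Real.log x)) := by
  have h1 : ∑ d ∈ D, (1 / (d : ℝ)) ≤ 1 + Real.log x :=
    (Finset.sum_le_sum_of_subset_of_nonneg hD (fun i _ _ => by positivity)).trans (VAL_harm hx hn)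
  calc ‖∑ d ∈ D, a d * S d‖ ≤ ∑ d ∈ D, ‖a d * S d‖ := norm_sum_le _ _
    _ ≤ ∑ d ∈ D, c * (T + U * (1 / (d : ℝ))) := by
        refine Finset.sum_le_sum fun d hd => ?_
        rw [norm_mul]
        exact mul_le_mul (ha d hd) (hS d hd) (norm_nonneg _) hc
    _ = c * (D.card * T + U * ∑ d ∈ D, (1 / (d : ℝ))) := by
        rw [← Finset.mul_sum, Finset.sum_add_distrib, Finset.sum_const, nsmul_eq_mul,
          Finset.mul_sum]
    _ ≤ c * (Y * T + U * (1 + Real.log x)) :=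
        mul_le_mul_of_nonneg_left (add_le_add (mul_le_mul_of_nonneg_right hY hT)
          (mul_le_mul_of_nonneg_left h1 hU)) hc

private lemma VAL_final {C x L : ℝ} (hC0 : 0 ≤ C) (huu : (0 : ℝ) < uu) (hx00 : 0 < x) (hx1 : 1 ≤ x)
    (hL : 1 ≤ L) (h1 : 16 * C * (1 + L) ^ 2 ≤ x ^ (1 / 200 : ℝ)) (h2 : 12 * (1 + L) ^ 2 ≤ x ^ uu) :
    1 * (x ^ (332 / 1000 : ℝ) * (C * (1 + L) * x ^ (501 / 1000 : ℝ)) +
        (x ^ (-(1 / 100) : ℝ) * (C * x * (1 + L))) * (1 + L)) +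
      (1 + L) * (x ^ (34 / 100 : ℝ) * (C * x ^ (501 / 1000 : ℝ)) +
        (x ^ (-(1 / 100) : ℝ) * (C * x)) * (1 + L)) + (1 + L) * 1 * x ^ (1 - 14 * uu) +
      (2 * (1 + L)) * x ^ uu * x ^ (1 - 14 * uu) ≤ x ^ (1 - 10 * uu) := by
  have hmono : ∀ a b : ℝ, a ≤ b → x ^ a ≤ x ^ b := fun a b hab =>
    Real.rpow_le_rpow_of_exponent_le hx1 hab
  have hpos : ∀ a : ℝ, 0 < x ^ a := fun a => Real.rpow_pos_of_pos hx00 a
  have hmul : ∀ a b : ℝ, x ^ a * x ^ b = x ^ (a + b) := fun a b => (Real.rpow_add hx00 a b).symm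
  have hx1' : x ^ (1 : ℝ) = x := Real.rpow_one x
  have hu : uu = 1 / 100000 := rfl
  have hXX : x ^ (-(1 / 100) : ℝ) * x = x ^ (99 / 100 : ℝ) := by
    nth_rewrite 2 [← hx1']
    rw [hmul]
    norm_num
  have b1 : x ^ (332 / 1000 : ℝ) * x ^ (501 / 1000 : ℝ) ≤ x ^ (99 / 100 : ℝ) := by
    rw [hmul]
    exact hmono _ _ (by norm_num)
  have b2 : x ^ (34 / 100 : ℝ) * x ^ (501 / 1000 : ℝ) ≤ x ^ (99 / 100 : ℝ) := by
    rw [hmul]
    exact hmono _ _ (by norm_num)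
  have hL1 : 0 ≤ 1 + L := by linarith
  have hLL : 1 + L ≤ (1 + L) ^ 2 := by nlinarith
  have c1 : 1 * (x ^ (332 / 1000 : ℝ) * (C * (1 + L) * x ^ (501 / 1000 : ℝ)) +
        (x ^ (-(1 / 100) : ℝ) * (C * x * (1 + L))) * (1 + L)) ≤
        2 * (C * (1 + L) ^ 2) * x ^ (99 / 100 : ℝ) := by
    have e1 : 1 * (x ^ (332 / 1000 : ℝ) * (C * (1 + L) * x ^ (501 / 1000 : ℝ)) +
        (x ^ (-(1 / 100) : ℝ) * (C * x * (1 + L))) * (1 + L)) =
        C * (1 + L) * (x ^ (332 / 1000 : ℝ) * x ^ (501 / 1000 : ℝ)) +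
        C * (1 + L) ^ 2 * (x ^ (-(1 / 100) : ℝ) * x) := by ring
    rw [e1, hXX]
    have e2 : C * (1 + L) * (x ^ (332 / 1000 : ℝ) * x ^ (501 / 1000 : ℝ)) ≤
        C * (1 + L) ^ 2 * x ^ (99 / 100 : ℝ) :=
      mul_le_mul (mul_le_mul_of_nonneg_left hLL hC0) b1 (mul_pos (hpos _) (hpos _)).le
        (mul_nonneg hC0 (sq_nonneg _))
    linarith
  have c2 : (1 + L) * (x ^ (34 / 100 : ℝ) * (C * x ^ (501 / 1000 : ℝ)) +
        (x ^ (-(1 / 100) : ℝ) * (C * x)) * (1 + L)) ≤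
        2 * (C * (1 + L) ^ 2) * x ^ (99 / 100 : ℝ) := by
    have e1 : (1 + L) * (x ^ (34 / 100 : ℝ) * (C * x ^ (501 / 1000 : ℝ)) +
        (x ^ (-(1 / 100) : ℝ) * (C * x)) * (1 + L)) =
        C * (1 + L) * (x ^ (34 / 100 : ℝ) * x ^ (501 / 1000 : ℝ)) +
        C * (1 + L) ^ 2 * (x ^ (-(1 / 100) : ℝ) * x) := by ring
    rw [e1, hXX]
    have e2 : C * (1 + L) * (x ^ (34 / 100 : ℝ) * x ^ (501 / 1000 : ℝ)) ≤
        C * (1 + L) ^ 2 * x ^ (99 / 100 : ℝ) :=
      mul_le_mul (mul_le_mul_of_nonneg_left hLL hC0) b2 (mul_pos (hpos _) (hpos _)).le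
        (mul_nonneg hC0 (sq_nonneg _))
    linarith
  have c3 : 4 * (C * (1 + L) ^ 2) * x ^ (99 / 100 : ℝ) ≤ 1 / 4 * x ^ (1 - 10 * uu) := by
    calc 4 * (C * (1 + L) ^ 2) * x ^ (99 / 100 : ℝ) =
          1 / 4 * ((16 * C * (1 + L) ^ 2) * x ^ (99 / 100 : ℝ)) := by ring
      _ ≤ 1 / 4 * (x ^ (1 / 200 : ℝ) * x ^ (99 / 100 : ℝ)) :=
          mul_le_mul_of_nonneg_left (mul_le_mul_of_nonneg_right h1 (hpos _).le) (by norm_num)
      _ ≤ 1 / 4 * x ^ (1 - 10 * uu) := by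
          rw [hmul]
          refine mul_le_mul_of_nonneg_left (hmono _ _ ?_) (by norm_num)
          rw [hu]
          norm_num
  have c4 : 12 * (1 + L) ≤ x ^ uu := le_trans (by linarith) h2
  have c5 : (1 + L) * 1 * x ^ (1 - 14 * uu) ≤ 1 / 12 * x ^ (1 - 10 * uu) := by
    calc (1 + L) * 1 * x ^ (1 - 14 * uu) = 1 / 12 * ((12 * (1 + L)) * x ^ (1 - 14 * uu)) := by ring
      _ ≤ 1 / 12 * (x ^ uu * x ^ (1 - 14 * uu)) :=
          mul_le_mul_of_nonneg_left (mul_le_mul_of_nonneg_right c4 (hpos _).le) (by norm_num)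
      _ ≤ 1 / 12 * x ^ (1 - 10 * uu) := by
          rw [hmul]
          refine mul_le_mul_of_nonneg_left (hmono _ _ ?_) (by norm_num)
          linarith
  have c6 : (2 * (1 + L)) * x ^ uu * x ^ (1 - 14 * uu) ≤ 1 / 6 * x ^ (1 - 10 * uu) := by
    calc (2 * (1 + L)) * x ^ uu * x ^ (1 - 14 * uu) =
          1 / 6 * ((12 * (1 + L)) * (x ^ uu * x ^ (1 - 14 * uu))) := by ring
      _ ≤ 1 / 6 * (x ^ uu * (x ^ uu * x ^ (1 - 14 * uu))) :=
          mul_le_mul_of_nonneg_left (mul_le_mul_of_nonneg_right c4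
            (mul_pos (hpos _) (hpos _)).le) (by norm_num)
      _ ≤ 1 / 6 * x ^ (1 - 10 * uu) := by
          rw [hmul, hmul]
          refine mul_le_mul_of_nonneg_left (hmono _ _ ?_) (by norm_num)
          linarith
  have hp := hpos (1 - 10 * uu)
  linarith


theorem val {M : ℝ} (hM : 0 < M) {W : ℝ → ℝ} (hW : WS M W) : ∃ x0 : ℝ, ∀ x, x0 ≤ x → ∀ t : ℤ, t ≠ 0 →
    (|t| : ℝ) ≤ x ^ (2 * uu) →
      |corr W M x (fun n => ArithmeticFunction.vonMangoldt n) t| ≤ x ^ (1 - 10 * uu) := by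
  obtain ⟨xs, hsmo⟩ := smo
  obtain ⟨xb, hbl⟩ := bl2 hM hW
  obtain ⟨C, hC0, htv⟩ := tvw hM hW
  have huu : (0 : ℝ) < uu := by unfold uu; norm_num
  obtain ⟨Cd, hCd1, hCd⟩ := Pool.Agent.H94.Weyl.card_divisors_le (uu / 4) (by linarith)
  have ev1 := VAL_log (16 * C) (1 / 200) (by norm_num)
  have ev2 := VAL_log 12 uu huu
  have ev3 := Real.tendsto_log_atTop.eventually_ge_atTop (1000 * M)
  have ev4 := (tendsto_rpow_atTop (show (0 : ℝ) < uu / 2 by linarith)).eventually_ge_atTop Cd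
  have ev := ev1.and (ev2.and (ev3.and (ev4.and ((Filter.eventually_ge_atTop xs).and
    ((Filter.eventually_ge_atTop xb).and (Filter.eventually_ge_atTop (Real.exp 1)))))))
  obtain ⟨x0, hx0⟩ := Filter.eventually_atTop.1 ev
  refine ⟨x0, fun x hx t ht0 ht => ?_⟩
  obtain ⟨h1, h2, h3, h4, h5, h6, h7⟩ := hx0 x hx
  have hx00 : 0 < x := (Real.exp_pos 1).trans_le h7
  have hL : 1 ≤ Real.log x := (Real.le_log_iff_exp_le hx00).2 h7
  have hx1 : 1 ≤ x := by
    have := Real.add_one_le_exp (1 : ℝ)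
    linarith
  set L := Real.log x with hLd
  have hmono : ∀ a b : ℝ, a ≤ b → x ^ a ≤ x ^ b := fun a b hab =>
    Real.rpow_le_rpow_of_exponent_le hx1 hab
  have hpos : ∀ a : ℝ, 0 < x ^ a := fun a => Real.rpow_pos_of_pos hx00 a
  have hmul : ∀ a b : ℝ, x ^ a * x ^ b = x ^ (a + b) := fun a b => (Real.rpow_add hx00 a b).symm
  have hx1' : x ^ (1 : ℝ) = x := Real.rpow_one x
  set V := ⌊x ^ (332 / 1000 : ℝ)⌋₊ with hV
  set N := NN M x with hN
  have hVx : (V : ℝ) ≤ x ^ (332 / 1000 : ℝ) := Nat.floor_le (hpos _).le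
  have hVx' : (V : ℝ) ≤ x := hVx.trans ((hmono _ 1 (by norm_num)).trans hx1'.le)
  have hVV : ((V * V : ℕ) : ℝ) ≤ x ^ (664 / 1000 : ℝ) := by
    push_cast
    calc (V : ℝ) * V ≤ x ^ (332 / 1000 : ℝ) * x ^ (332 / 1000 : ℝ) :=
          mul_le_mul hVx hVx (Nat.cast_nonneg _) (hpos _).le
      _ = x ^ (664 / 1000 : ℝ) := by rw [hmul]; norm_num
  have hVVx : ((V * V : ℕ) : ℝ) ≤ x := hVV.trans ((hmono _ 1 (by norm_num)).trans hx1'.le)
  have hexM : 1 ≤ Real.exp M := Real.one_le_exp hM.le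
  have hVVN : V * V ≤ N := by
    rw [hN]
    unfold NN
    refine Nat.le_floor (hVVx.trans ?_)
    exact le_mul_of_one_le_right hx00.le hexM
  have hNx : (N : ℝ) ≤ x * Real.exp M := Nat.floor_le (by positivity)
  have hNx2 : (N : ℝ) ≤ x ^ (2 : ℝ) := by
    refine hNx.trans ?_
    have e1 : Real.exp M ≤ x := by
      rw [← Real.exp_log hx00]
      exact Real.exp_le_exp.2 (by rw [← hLd]; linarith)
    calc x * Real.exp M ≤ x * x := mul_le_mul_of_nonneg_left e1 hx00.le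
      _ = x ^ (2 : ℝ) := by rw [Real.rpow_two]; ring
  have hlogN : ∀ n : ℕ, 1 ≤ n → n ≤ N → Real.log n ≤ 2 * (1 + L) := by
    intro n hn1 hn
    have e1 : (n : ℝ) ≤ x ^ (2 : ℝ) := le_trans (by exact_mod_cast hn) hNx2
    have e2 := Real.log_le_log (by exact_mod_cast hn1 : (0 : ℝ) < n) e1
    rw [Real.log_rpow hx00] at e2
    linarith
  -- the weight vanishes for small arguments
  have hvan : ∀ n : ℕ, 1 ≤ n → (n : ℝ) ≤ x ^ (995 / 1000 : ℝ) → W (Real.log ((n : ℕ) / x)) = 0 := by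
    intro n hn1 hn
    apply hW.zero
    have hn0 : (0 : ℝ) < n := by exact_mod_cast hn1
    have e1 : Real.log n ≤ 995 / 1000 * L := by
      have := Real.log_le_log hn0 hn
      rwa [Real.log_rpow hx00] at this
    rw [Real.log_div hn0.ne' hx00.ne', ← hLd, abs_of_nonpos (by linarith)]
    linarith
  have hg : ∀ n ≤ V, VAL_g W x t n = 0 := by
    intro n hn
    unfold VAL_g vW
    by_cases hn0 : n = 0
    · simp [hn0]
    · rw [if_neg hn0, one_mul, hvan n (Nat.one_le_iff_ne_zero.2 hn0)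
        (le_trans (by exact_mod_cast hn) (hVx.trans (hmono _ _ (by norm_num))))]
      simp
  have hcorr : ((corr W M x (fun n => ArithmeticFunction.vonMangoldt n) t : ℝ) : ℂ) =
      ∑ n ∈ Icc 1 N, (ArithmeticFunction.vonMangoldt n : ℂ) * VAL_g W x t n := by
    unfold corr
    rw [Complex.ofReal_sum]
    refine Finset.sum_congr rfl fun n hn => ?_
    rw [mem_Icc] at hn
    unfold VAL_g vW
    rw [if_neg (by omega), one_mul]
    push_cast
    ring
  have hvau := vaughan V V N (VAL_g W x t) hg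
  rw [hvau] at hcorr
  -- first sum
  have hS1 : ‖∑ d ∈ Icc 1 V, (ArithmeticFunction.moebius d : ℂ) *
      ∑ k ∈ Icc 1 (N / d), (Real.log k : ℂ) * VAL_g W x t (d * k)‖ ≤
      1 * (x ^ (332 / 1000 : ℝ) * (C * (1 + L) * x ^ (501 / 1000 : ℝ)) +
        (x ^ (-(1 / 100) : ℝ) * (C * x * (1 + L))) * (1 + L)) := by
    refine VAL_outer hx1 (n := V) (Finset.Subset.refl _) hVx' (by simpa using hVx) zero_le_one
      (mul_nonneg (mul_nonneg hC0 (by linarith)) (hpos _).le)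
      (mul_nonneg (hpos _).le (mul_nonneg (mul_nonneg hC0 hx00.le) (by linarith))) _ _ ?_ ?_
    · intro d _
      have e1 : ‖(ArithmeticFunction.moebius d : ℂ)‖ = ((|ArithmeticFunction.moebius d| : ℤ) : ℝ) := by
        rw [Complex.norm_intCast, Int.cast_abs]
      rw [e1]
      exact_mod_cast ArithmeticFunction.abs_moebius_le_one
    · intro d hd
      rw [mem_Icc] at hd
      have hdx : (d : ℝ) ≤ x := le_trans (by exact_mod_cast hd.2) hVx'
      obtain ⟨-, -, t3, t4⟩ := htv x hx1 d hd.1 hdx (N / d)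
      have e1 : ∑ k ∈ Icc 1 (N / d), (Real.log k : ℂ) * VAL_g W x t (d * k) =
          ((∑ k ∈ Icc 1 (N / d), vWl W x d k * g2 x (d * k - t) : ℝ) : ℂ) := by
        rw [Complex.ofReal_sum]
        refine Finset.sum_congr rfl fun k _ => ?_
        rw [VAL_gmul W x t hd.1 k]
        unfold vWl
        push_cast
        ring
      rw [e1, Complex.norm_real, Real.norm_eq_abs]
      refine (VAL_in (hsmo x h5 t ht0 ht d hd.1 hdx) hx00 (by simp [vWl, vW]) t3 t4).trans ?_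
      have e2 : x ^ (-(1 / 100) : ℝ) * (C * (x / d) * (1 + L)) =
          (x ^ (-(1 / 100) : ℝ) * (C * x * (1 + L))) * (1 / (d : ℝ)) := by ring
      rw [e2]
  -- second sum, small variable
  have hS2 : ‖∑ l ∈ (Icc 1 (V * V)).filter (fun l : ℕ => (l : ℝ) ≤ x ^ (34 / 100 : ℝ)), (cUV V V l : ℂ) *
      ∑ k ∈ Icc 1 (N / l), VAL_g W x t (l * k)‖ ≤
      (1 + L) * (x ^ (34 / 100 : ℝ) * (C * x ^ (501 / 1000 : ℝ)) +
        (x ^ (-(1 / 100) : ℝ) * (C * x)) * (1 + L)) := by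
    refine VAL_outer hx1 (n := V * V) (Finset.filter_subset _ _) hVVx ?_ (by linarith)
      (mul_nonneg hC0 (hpos _).le)
      (mul_nonneg (hpos _).le (mul_nonneg hC0 hx00.le)) _ _ ?_ ?_
    · have e1 : (Icc 1 (V * V)).filter (fun l : ℕ => (l : ℝ) ≤ x ^ (34 / 100 : ℝ)) ⊆
          Icc 1 ⌊x ^ (34 / 100 : ℝ)⌋₊ := by
        intro l hl
        rw [mem_filter, mem_Icc] at hl
        rw [mem_Icc]
        exact ⟨hl.1.1, Nat.le_floor hl.2⟩
      have e2 := Finset.card_le_card e1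
      rw [Nat.card_Icc, Nat.add_sub_cancel] at e2
      exact le_trans (by exact_mod_cast e2) (Nat.floor_le (hpos _).le)
    · intro l hl
      rw [mem_filter, mem_Icc] at hl
      rw [Complex.norm_real, Real.norm_eq_abs]
      refine (cUV_abs_le V V hl.1.1).trans ?_
      have e1 : (l : ℝ) ≤ x := le_trans (by exact_mod_cast hl.1.2) hVVx
      have e2 := Real.log_le_log (by exact_mod_cast hl.1.1 : (0 : ℝ) < l) e1
      linarith
    · intro l hl
      rw [mem_filter, mem_Icc] at hl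
      have hlx : (l : ℝ) ≤ x := le_trans (by exact_mod_cast hl.1.2) hVVx
      obtain ⟨t1, t2, -, -⟩ := htv x hx1 l hl.1.1 hlx (N / l)
      have e1 : ∑ k ∈ Icc 1 (N / l), VAL_g W x t (l * k) =
          ((∑ k ∈ Icc 1 (N / l), vW W x l k * g2 x (l * k - t) : ℝ) : ℂ) := by
        rw [Complex.ofReal_sum]
        exact Finset.sum_congr rfl fun k _ => VAL_gmul W x t hl.1.1 k
      rw [e1, Complex.norm_real, Real.norm_eq_abs]
      refine (VAL_in (hsmo x h5 t ht0 ht l hl.1.1 hlx) hx00 (by simp [vW]) t1 t2).trans ?_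
      have e2 : x ^ (-(1 / 100) : ℝ) * (C * (x / l)) =
          (x ^ (-(1 / 100) : ℝ) * (C * x)) * (1 / (l : ℝ)) := by ring
      rw [e2]
  -- second sum, large variable
  have hS3 : ‖∑ l ∈ (Icc 1 (V * V)).filter (fun l : ℕ => ¬ (l : ℝ) ≤ x ^ (34 / 100 : ℝ)), (cUV V V l : ℂ) *
      ∑ k ∈ Icc 1 (N / l), VAL_g W x t (l * k)‖ ≤ (1 + L) * 1 * x ^ (1 - 14 * uu) := by
    have hb := hbl x h6 t ht0 ht (1 + L) 1 (by linarith) zero_le_one
      (fun m => if x ^ (34 / 100 : ℝ) < m ∧ 1 ≤ m ∧ m ≤ V * V then (cUV V V m : ℂ) else 0)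
      (fun k => if x ^ (331 / 1000 : ℝ) ≤ k then 1 else 0) ?_ ?_ ?_ ?_
    · refine le_trans (le_of_eq ?_) hb
      congr 1
      rw [Finset.sum_filter]
      have e0 : Icc 1 (V * V) ⊆ Icc 1 N := Finset.Icc_subset_Icc_right hVVN
      rw [← Finset.sum_subset e0 (f := fun m => ∑ k ∈ Icc 1 (N / m),
        (if x ^ (34 / 100 : ℝ) < m ∧ 1 ≤ m ∧ m ≤ V * V then (cUV V V m : ℂ) else 0) *
        (if x ^ (331 / 1000 : ℝ) ≤ k then 1 else 0) *
        ((W (Real.log ((m * k : ℕ) / x)) * g2 x (m * k - t) : ℝ) : ℂ))]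
      · refine Finset.sum_congr rfl fun m hm => ?_
        rw [mem_Icc] at hm
        by_cases hmx : (m : ℝ) ≤ x ^ (34 / 100 : ℝ)
        · rw [if_neg (not_not.2 hmx)]
          symm
          refine Finset.sum_eq_zero fun k _ => ?_
          rw [if_neg (fun h => absurd h.1 (not_lt.2 hmx))]
          simp
        · rw [if_pos hmx, Finset.mul_sum]
          refine Finset.sum_congr rfl fun k hk => ?_
          rw [mem_Icc] at hk
          rw [if_pos ⟨not_le.1 hmx, hm⟩, VAL_gmul W x t hm.1 k]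
          unfold vW
          rw [if_neg (by omega)]
          by_cases hkx : x ^ (331 / 1000 : ℝ) ≤ k
          · rw [if_pos hkx, mul_one]
          · rw [if_neg hkx]
            have e1 : ((m * k : ℕ) : ℝ) ≤ x ^ (995 / 1000 : ℝ) := by
              push Not at hkx
              have e2 : (m : ℝ) ≤ x ^ (664 / 1000 : ℝ) := le_trans (by exact_mod_cast hm.2) hVV
              push_cast
              calc (m : ℝ) * k ≤ x ^ (664 / 1000 : ℝ) * x ^ (331 / 1000 : ℝ) :=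
                    mul_le_mul e2 hkx.le (Nat.cast_nonneg _) (hpos _).le
                _ = x ^ (995 / 1000 : ℝ) := by rw [hmul]; norm_num
            rw [hvan (m * k) (Nat.mul_pos hm.1 hk.1) e1]
            simp
      · intro m _ hm'
        refine Finset.sum_eq_zero fun k _ => ?_
        rw [if_neg (fun h => hm' (mem_Icc.2 h.2))]
        simp
    · intro m
      split_ifs with hm
      · rw [Complex.norm_real, Real.norm_eq_abs]
        refine (cUV_abs_le V V hm.2.1).trans ?_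
        have e1 : (m : ℝ) ≤ x := le_trans (by exact_mod_cast hm.2.2) hVVx
        have e2 := Real.log_le_log (by exact_mod_cast hm.2.1 : (0 : ℝ) < m) e1
        linarith
      · rw [norm_zero]
        linarith
    · intro k
      split_ifs with hk
      · simp
      · simp
    · intro m hm
      have hm' : x ^ (34 / 100 : ℝ) < m := by
        by_contra hcon
        exact hm (if_neg (fun h => hcon h.1))
      exact (hmono _ _ (by norm_num)).trans hm'.le
    · intro k hk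
      by_contra hcon
      exact hk (if_neg hcon)
  -- third sum
  have hS4 : ‖∑ m ∈ Ioc V N, (ArithmeticFunction.vonMangoldt m : ℂ) *
      ∑ k ∈ Icc 1 (N / m), (betaV V k : ℂ) * VAL_g W x t (m * k)‖ ≤
      (2 * (1 + L)) * x ^ uu * x ^ (1 - 14 * uu) := by
    have hb := hbl x h6 t ht0 ht (2 * (1 + L)) (x ^ uu) (by linarith) (hpos _).le
      (fun m => if V < m ∧ m ≤ N then (ArithmeticFunction.vonMangoldt m : ℂ) else 0)
      (fun k => if V < k ∧ k ≤ N then (betaV V k : ℂ) else 0) ?_ ?_ ?_ ?_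
    · refine le_trans (le_of_eq ?_) hb
      congr 1
      have e0 : Ioc V N ⊆ Icc 1 N := fun m hm => by
        rw [mem_Ioc] at hm
        rw [mem_Icc]
        omega
      rw [← Finset.sum_subset e0 (f := fun m => ∑ k ∈ Icc 1 (N / m),
        (if V < m ∧ m ≤ N then (ArithmeticFunction.vonMangoldt m : ℂ) else 0) *
        (if V < k ∧ k ≤ N then (betaV V k : ℂ) else 0) *
        ((W (Real.log ((m * k : ℕ) / x)) * g2 x (m * k - t) : ℝ) : ℂ))]
      · refine Finset.sum_congr rfl fun m hm => ?_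
        rw [mem_Ioc] at hm
        rw [Finset.mul_sum]
        refine Finset.sum_congr rfl fun k hk => ?_
        rw [mem_Icc] at hk
        have hkN : k ≤ N := hk.2.trans (Nat.div_le_self _ _)
        rw [if_pos hm, VAL_gmul W x t (by omega) k]
        unfold vW
        rw [if_neg (by omega)]
        by_cases hkV : V < k
        · rw [if_pos ⟨hkV, hkN⟩]
          ring
        · rw [if_neg (fun h => hkV h.1), betaV_eq_zero (not_lt.1 hkV)]
          simp
      · intro m _ hm'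
        refine Finset.sum_eq_zero fun k _ => ?_
        rw [if_neg (fun h => hm' (mem_Ioc.2 h))]
        simp
    · intro m
      split_ifs with hm
      · rw [Complex.norm_real, Real.norm_eq_abs, abs_of_nonneg ArithmeticFunction.vonMangoldt_nonneg]
        exact ArithmeticFunction.vonMangoldt_le_log.trans (hlogN m (by omega) hm.2)
      · rw [norm_zero]
        linarith
    · intro k
      split_ifs with hk
      · rw [Complex.norm_real, Real.norm_eq_abs]
        refine (betaV_abs_le V k).trans ((hCd k (by omega)).trans ?_)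
        have e1 : (k : ℝ) ≤ x ^ (2 : ℝ) := le_trans (by exact_mod_cast hk.2) hNx2
        have e2 : (k : ℝ) ^ (uu / 4) ≤ x ^ (uu / 2) := by
          calc (k : ℝ) ^ (uu / 4) ≤ (x ^ (2 : ℝ)) ^ (uu / 4) :=
                Real.rpow_le_rpow (Nat.cast_nonneg _) e1 (by linarith)
            _ = x ^ (uu / 2) := by
                rw [← Real.rpow_mul hx00.le]
                congr 1
                ring
        calc Cd * (k : ℝ) ^ (uu / 4) ≤ x ^ (uu / 2) * x ^ (uu / 2) :=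
              mul_le_mul h4 e2 (by positivity) (hpos _).le
          _ = x ^ uu := by rw [hmul]; congr 1; ring
      · rw [norm_zero]
        exact (hpos _).le
    · intro m hm
      have hm' : V < m := by
        by_contra hcon
        exact hm (if_neg (fun h => hcon h.1))
      exact (hmono _ _ (by norm_num)).trans (Nat.lt_of_floor_lt hm').le
    · intro k hk
      have hk' : V < k := by
        by_contra hcon
        exact hk (if_neg (fun h => hcon h.1))
      exact (hmono _ _ (by norm_num)).trans (Nat.lt_of_floor_lt hk').le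
  -- collect
  have hsplit := Finset.sum_filter_add_sum_filter_not (Icc 1 (V * V))
    (fun l : ℕ => (l : ℝ) ≤ x ^ (34 / 100 : ℝ))
    (fun l => (cUV V V l : ℂ) * ∑ k ∈ Icc 1 (N / l), VAL_g W x t (l * k))
  rw [← hsplit] at hcorr
  have hnorm : |corr W M x (fun n => ArithmeticFunction.vonMangoldt n) t| =
      ‖((corr W M x (fun n => ArithmeticFunction.vonMangoldt n) t : ℝ) : ℂ)‖ := by
    rw [Complex.norm_real, Real.norm_eq_abs]
  rw [hnorm, hcorr]
  have htri : ∀ a b c d : ℂ, ‖a - (b + c) + d‖ ≤ ‖a‖ + ‖b‖ + ‖c‖ + ‖d‖ := by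
    intro a b c d
    calc ‖a - (b + c) + d‖ ≤ ‖a - (b + c)‖ + ‖d‖ := norm_add_le _ _
      _ ≤ (‖a‖ + ‖b + c‖) + ‖d‖ := by gcongr; exact norm_sub_le _ _
      _ ≤ (‖a‖ + (‖b‖ + ‖c‖)) + ‖d‖ := by gcongr; exact norm_add_le _ _
      _ = ‖a‖ + ‖b‖ + ‖c‖ + ‖d‖ := by ring
  refine (htri _ _ _ _).trans ?_
  refine (add_le_add (add_le_add (add_le_add hS1 hS2) hS3) hS4).trans ?_
  exact VAL_final hC0 huu hx00 hx1 hL h1 h2

end H69BG
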