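import Pool.Agent.H69.BG.Ana
import Pool.Agent.H69.LB.Zta

/-!
# WLL: the weight `W(log(u/x))` on the real line

* `Wl_lip`: `Wl W x u = h(u/x)` with `h(s) = W(log s)` for `s > 0` and `0` for `s ≤ 0`; `h` is `C¹` on `ℝ` (it vanishes for `s ≤ e^{-M}`), `|h'(s)| = |W'(log s)|/s ≤ (sup |W'|) e^M`; mean value inequality.
* `Wof2_WS`: `Wof2 χ = Wof χ * χ` and `Wof_WS` (`H69/LB/Zta.lean`).
-/

open Finset H69LB MeasureTheory
open scoped ContDiff

namespace H69BG

theorem Wl_ne {M : ℝ} {W : ℝ → ℝ} (hW : WS M W) {x : ℝ} (hx : 0 < x) {v : ℝ} (hv : Wl W x v ≠ 0) :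
    x * Real.exp (-M) < v ∧ v < x * Real.exp M := by
  unfold Wl at hv
  have hv0 : 0 < v := by
    by_contra h
    rw [if_pos (not_lt.1 h)] at hv
    exact hv rfl
  rw [if_neg (not_le.2 hv0)] at hv
  have h1 : |Real.log (v / x)| < M := by
    by_contra h
    exact hv (hW.zero _ (not_lt.1 h))
  obtain ⟨h2, h3⟩ := abs_lt.1 h1
  rw [Real.lt_log_iff_exp_lt (by positivity), lt_div_iff₀ hx, mul_comm] at h2
  rw [Real.log_lt_iff_lt_exp (by positivity), div_lt_iff₀ hx, mul_comm] at h3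
  exact ⟨h2, h3⟩

theorem Wl_nat {W : ℝ → ℝ} {x : ℝ} {n : ℕ} (hn : 1 ≤ n) : Wl W x n = W (Real.log (n / x)) := by
  have h : (0 : ℝ) < n := by exact_mod_cast hn
  unfold Wl
  rw [if_neg (not_le.2 h)]

private theorem Wll_deriv {M : ℝ} {W : ℝ → ℝ} (hW : WS M W) {η : ℝ} (h : M < |η|) : deriv W η = 0 := by
  have h1 : W =ᶠ[nhds η] fun _ => 0 := by
    filter_upwards [(isOpen_lt continuous_const continuous_abs).mem_nhds h] with y hy
    exact hW.zero y (le_of_lt hy)
  rw [h1.deriv_eq]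
  simp

private theorem Wll_bd {M : ℝ} {f : ℝ → ℝ} (hf : Continuous f) (h0 : ∀ η, M < |η| → f η = 0) :
    ∃ C : ℝ, 0 ≤ C ∧ ∀ η, |f η| ≤ C := by
  obtain ⟨C, hC⟩ := (isCompact_Icc (a := -|M|) (b := |M|)).exists_bound_of_continuousOn hf.continuousOn
  refine ⟨max C 0, le_max_right _ _, fun η => ?_⟩
  by_cases h : M < |η|
  · rw [h0 η h, abs_zero]
    exact le_max_right _ _
  · have h1 : |η| ≤ |M| := (not_lt.1 h).trans (le_abs_self M)
    have := hC η (abs_le.1 h1)
    rw [Real.norm_eq_abs] at this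
    exact this.trans (le_max_left _ _)

theorem Wl_lip {M : ℝ} {W : ℝ → ℝ} (hW : WS M W) : ∃ C : ℝ, 0 ≤ C ∧ ∀ x : ℝ, 0 < x → ∀ v w : ℝ,
    |Wl W x v - Wl W x w| ≤ C / x * |v - w| := by
  have hdW : Continuous (deriv W) := hW.smooth.continuous_deriv (by simp)
  have hWd : ∀ η, HasDerivAt W (deriv W η) η := fun η =>
    (hW.smooth.differentiable (by simp)).differentiableAt.hasDerivAt
  obtain ⟨B, hB0, hB⟩ := Wll_bd hdW (fun η h => Wll_deriv hW h)
  set h : ℝ → ℝ := fun s => if s ≤ 0 then 0 else W (Real.log s) with hh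
  set h' : ℝ → ℝ := fun s => if s ≤ 0 then 0 else deriv W (Real.log s) / s with hh'
  have hder : ∀ s, HasDerivAt h (h' s) s := by
    intro s
    rcases lt_or_ge s (Real.exp (-|M|)) with hs | hs
    · have h0 : ∀ y, y < Real.exp (-|M|) → h y = 0 := by
        intro y hy
        simp only [hh]
        split_ifs with hy0
        · rfl
        · apply hW.zero
          have h1 : Real.log y < -|M| := by
            rw [Real.log_lt_iff_lt_exp (not_le.1 hy0)]
            exact hy
          rw [abs_of_neg (by linarith [abs_nonneg M])]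
          linarith [le_abs_self M]
      have h0' : h' s = 0 := by
        simp only [hh']
        split_ifs with hy0
        · rfl
        · have h1 : Real.log s < -|M| := by
            rw [Real.log_lt_iff_lt_exp (not_le.1 hy0)]
            exact hs
          rw [Wll_deriv hW (by rw [abs_of_neg (by linarith [abs_nonneg M])]; linarith [le_abs_self M]), zero_div]
      rw [h0']
      have h1 : h =ᶠ[nhds s] fun _ => 0 := by
        filter_upwards [isOpen_Iio.mem_nhds hs] with y hy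
        exact h0 y hy
      exact (hasDerivAt_const s (0 : ℝ)).congr_of_eventuallyEq h1
    · have hs0 : 0 < s := lt_of_lt_of_le (Real.exp_pos _) hs
      have h1 : h =ᶠ[nhds s] fun s => W (Real.log s) := by
        filter_upwards [isOpen_Ioi.mem_nhds hs0] with y hy
        simp only [hh, if_neg (not_le.2 (Set.mem_Ioi.1 hy))]
      have h3 := (hWd (Real.log s)).comp s (Real.hasDerivAt_log hs0.ne')
      refine (h3.congr_of_eventuallyEq h1).congr_deriv ?_
      simp only [hh', if_neg (not_le.2 hs0)]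
      ring
  have hbd : ∀ s, ‖h' s‖ ≤ B * Real.exp M := by
    intro s
    simp only [hh']
    split_ifs with hs
    · rw [norm_zero]
      positivity
    · have hs0 : 0 < s := not_le.1 hs
      by_cases h1 : deriv W (Real.log s) = 0
      · rw [h1, zero_div, norm_zero]
        positivity
      · have h2 : |Real.log s| ≤ M := by
          by_contra h3
          exact h1 (Wll_deriv hW (not_le.1 h3))
        have h3 : -M ≤ Real.log s := (abs_le.1 h2).1
        rw [Real.le_log_iff_exp_le hs0, Real.exp_neg] at h3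
        rw [Real.norm_eq_abs, abs_div, abs_of_pos hs0, div_eq_mul_inv]
        refine mul_le_mul (hB _) ?_ (by positivity) hB0
        exact inv_le_of_inv_le₀ (Real.exp_pos M) h3
  refine ⟨B * Real.exp M, by positivity, fun x hx v w => ?_⟩
  have hWl : ∀ v, Wl W x v = h (v / x) := by
    intro v
    simp only [Wl, hh]
    by_cases hv : v ≤ 0
    · rw [if_pos hv, if_pos (div_nonpos_of_nonpos_of_nonneg hv hx.le)]
    · rw [if_neg hv, if_neg (not_le.2 (div_pos (not_le.1 hv) hx))]
  rw [hWl, hWl]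
  have h5 := Convex.norm_image_sub_le_of_norm_hasDerivWithin_le (s := Set.univ) (f := h) (f' := h')
    (C := B * Real.exp M) (x := w / x) (y := v / x)
    (fun s _ => (hder s).hasDerivWithinAt) (fun s _ => hbd s) convex_univ (Set.mem_univ _) (Set.mem_univ _)
  rw [Real.norm_eq_abs, Real.norm_eq_abs, ← sub_div, abs_div, abs_of_pos hx] at h5
  refine h5.trans (le_of_eq ?_)
  ring

theorem Wl_cont {M : ℝ} {W : ℝ → ℝ} (hW : WS M W) {x : ℝ} (hx : 0 < x) : Continuous (Wl W x) := by
  obtain ⟨C, hC0, hC⟩ := Wl_lip hW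
  have h : LipschitzWith (Real.toNNReal (C / x)) (Wl W x) := by
    refine LipschitzWith.of_dist_le_mul fun v w => ?_
    rw [Real.dist_eq, Real.dist_eq, Real.coe_toNNReal _ (by positivity)]
    exact hC x hx v w
  exact h.continuous

theorem Wl_comp {M : ℝ} {W : ℝ → ℝ} (hW : WS M W) {x : ℝ} (hx : 0 < x) : HasCompactSupport (Wl W x) := by
  refine HasCompactSupport.intro (isCompact_Icc (a := x * Real.exp (-M)) (b := x * Real.exp M)) fun v hv => ?_
  by_contra h
  obtain ⟨h1, h2⟩ := Wl_ne hW hx h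
  exact hv ⟨h1.le, h2.le⟩

theorem WS_bdd {M : ℝ} {W : ℝ → ℝ} (hW : WS M W) : ∃ C : ℝ, 0 ≤ C ∧ ∀ η, |W η| ≤ C :=
  Wll_bd hW.smooth.continuous fun η h => hW.zero η h.le

theorem Wof2_WS {η1 η2 : ℝ} {χ : ℝ → ℝ} (h : Pc η1 η2 χ) {M : ℝ} (h1 : -M ≤ η1) (h2 : η2 ≤ M) : WS M (Wof2 χ) := by
  have h3 := Wof_WS h h1 h2
  have h4 : Wof2 χ = fun η => Wof χ η * χ η := by
    funext η
    unfold Wof2 Wof
    ring
  rw [h4]
  refine ⟨h3.smooth.mul h.smooth, fun η hη => ?_⟩
  rw [h3.zero η hη, zero_mul]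

theorem Wof2_le {η1 η2 : ℝ} {χ : ℝ → ℝ} (h : Pc η1 η2 χ) (η : ℝ) : 0 ≤ Wof2 χ η ∧ Wof2 χ η ≤ Wof χ η := by
  have h1 := h.nonneg η
  have h2 := h.le_one η
  have h3 := Real.exp_pos (-(2 * |η|))
  unfold Wof2 Wof
  refine ⟨by positivity, mul_le_mul_of_nonneg_left ?_ h3.le⟩
  nlinarith

end H69BG
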