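import Pool.Agent.H69.BG.Phk
import Pool.Agent.H69.BG.Crx
import Pool.Agent.H69.BG.Val
import Pool.Agent.H69.BG.Wll

/-!
# SHF: the correlation of `f` with `be2` through the shifted correlations

`far`: for `A = 10^6` and `|v| > x^{2u}`, `H ≤ C0 x^u`, `H ≥ c0`: `‖Φ(v)‖ ≤ (C/H) (1 + |v|/H)^{-A} ≤ (C/c0) (x^{u}/C0)^{-A+…}`; more precisely `(1+|v|/H)^A ≥ (|v|/H)^{A-2} (1 + |v|/H)²/…`; simplest: `‖Φ(v)‖ ≤ (C/H) (1+|v|/H)^{-A}` and
`(1+|v|/H)^A ≥ (1+|v|/H)^{A-2} (|v|/H)² ≥ (x^u/C0)^{A-2} v²/(C0 x^u)²`, so `‖Φ(v)‖ ≤ x^{-9} v^{-2}` for `x` large.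

`shf`: `be2 φ M x H n = ∑_{m ∈ Icc 1 (NN (M+1) x)} g2(m) Φ(n - m)`. Where `W(log(n/x)) ≠ 0` we have `x e^{-M} < n < x e^M`, so every `t` with `|t| ≤ x^{2u}` gives `m = n - t ∈ [1, NN (M+1) x]` for large `x`. The terms with `|n - m| > x^{2u}` contribute
`≤ ∑_n |W| |f n| ∑_m x^{3u} ‖Φ(n - m)‖ ≤ C x · x · x^{3u} · C x · x^{-9}` (`g2_bd`, `far`). The terms with `t = n - m`, `|t| ≤ x^{2u}` give `∑_{|t| ≤ x^{2u}} conj Φ(t) corr W M x f t`;
`t = 0` is the main term, `∑_{t ≠ 0} ‖Φ(t)‖ x^{1-10u} ≤ C (1 + 1/c0) x^{1-10u}` by `Ph_sum`.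

`lamside`: `shf` with `f = Λ`, `Λ(n) ≤ log n ≤ x`, and `val`.
-/

open Finset H69LB

namespace H69BG


private lemma SHF_big (K : ℝ) {s : ℝ} (hs : 0 < s) : ∀ᶠ x : ℝ in Filter.atTop, K ≤ x ^ s :=
  (tendsto_rpow_atTop hs).eventually_ge_atTop K

private lemma SHF_uu : (0 : ℝ) < uu := by unfold uu; norm_num

private lemma SHF_A : ∃ A : ℕ, (A : ℝ) * uu = 10 := ⟨1000000, by unfold uu; norm_num⟩

theorem far {φ : ℝ → ℝ} (hφ : PH φ) {c0 C0 : ℝ} (hc0 : 0 < c0) : ∃ x0 : ℝ, ∀ x, x0 ≤ x → ∀ H : ℝ, c0 ≤ H →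
    H ≤ C0 * x ^ uu → ∀ v : ℝ, x ^ (2 * uu) < |v| → ‖Ph φ H v‖ ≤ x ^ (-9 : ℝ) / v ^ 2 := by
  obtain ⟨A, hA⟩ := SHF_A
  obtain ⟨C, hC, hdec⟩ := Ph_decay hφ (A + 2)
  have hu := SHF_uu
  have hu1 : uu ≤ 1 / 2 := by unfold uu; norm_num
  have ev := (SHF_big (C * |C0| ^ (A + 1)) (s := 1 - uu) (by linarith)).and (Filter.eventually_ge_atTop (1 : ℝ))
  obtain ⟨x0, hx0⟩ := Filter.eventually_atTop.mp ev
  refine ⟨x0, fun x hx H h1 h2 v hv => ?_⟩
  obtain ⟨hK, hx1⟩ := hx0 x hx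
  have hxp : 0 < x := by linarith
  have hH : 0 < H := lt_of_lt_of_le hc0 h1
  have hxu : 0 < x ^ uu := Real.rpow_pos_of_pos hxp _
  have hC0 : 0 < C0 := by
    by_contra hcon
    push Not at hcon
    have := mul_nonpos_of_nonpos_of_nonneg hcon hxu.le
    linarith
  rw [abs_of_pos hC0] at hK
  have hx2 : x ^ (2 * uu) = x ^ uu * x ^ uu := by
    rw [← Real.rpow_add hxp]; congr 1; ring
  have hv0 : 0 < |v| := lt_trans (Real.rpow_pos_of_pos hxp _) hv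
  have hq : x ^ uu / C0 ≤ 1 + |v| / H := by
    have : x ^ uu / C0 ≤ |v| / H := by
      rw [div_le_div_iff₀ hC0 hH]
      calc x ^ uu * H ≤ x ^ uu * (C0 * x ^ uu) := by gcongr
        _ = x ^ (2 * uu) * C0 := by rw [hx2]; ring
        _ ≤ |v| * C0 := by gcongr
    linarith
  have hq2 : |v| / H ≤ 1 + |v| / H := by linarith
  have hxA : (x ^ uu) ^ A = x ^ (10 : ℝ) := by
    rw [← Real.rpow_natCast, ← Real.rpow_mul hxp.le, mul_comm uu, hA]
  have hpow : (x ^ uu / C0) ^ A * (|v| / H) ^ 2 ≤ (1 + |v| / H) ^ (A + 2) := by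
    rw [pow_add]
    gcongr
  have hpos : 0 < (x ^ uu / C0) ^ A * (|v| / H) ^ 2 := by positivity
  calc ‖Ph φ H v‖ ≤ C / H / (1 + |v| / H) ^ (A + 2) := hdec H hH v
    _ ≤ C / H / ((x ^ uu / C0) ^ A * (|v| / H) ^ 2) := by gcongr
    _ = C * H * C0 ^ A / (x ^ (10 : ℝ) * v ^ 2) := by
        rw [div_pow, hxA, div_pow, sq_abs]
        have h10 : 0 < x ^ (10 : ℝ) := Real.rpow_pos_of_pos hxp _
        have hv2 : 0 < v ^ 2 := by rw [← sq_abs]; positivity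
        field_simp
    _ ≤ C * (C0 * x ^ uu) * C0 ^ A / (x ^ (10 : ℝ) * v ^ 2) := by
        have h10 : 0 < x ^ (10 : ℝ) := Real.rpow_pos_of_pos hxp _
        have hv2 : 0 < v ^ 2 := by rw [← sq_abs]; positivity
        gcongr
    _ = (C * C0 ^ (A + 1)) * x ^ uu / x ^ (10 : ℝ) / v ^ 2 := by
        rw [pow_succ, div_div]
        congr 1
        ring
    _ ≤ x ^ (1 - uu) * x ^ uu / x ^ (10 : ℝ) / v ^ 2 := by
        have h10 : 0 < x ^ (10 : ℝ) := Real.rpow_pos_of_pos hxp _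
        have hv2 : 0 < v ^ 2 := by rw [← sq_abs]; positivity
        gcongr
    _ = x ^ (-9 : ℝ) / v ^ 2 := by
        rw [← Real.rpow_add hxp, ← Real.rpow_sub hxp]
        norm_num

private lemma SHF_near (F : ℤ → ℂ) {n N K : ℕ} (h1 : K < n) (h2 : n + K ≤ N) :
    ∑ m ∈ (Icc 1 N).filter (fun m : ℕ => |(n : ℤ) - m| ≤ K), F m = ∑ t ∈ Icc (-(K : ℤ)) K, F (n - t) := by
  refine Finset.sum_bij' (fun m _ => (n : ℤ) - m) (fun t _ => ((n : ℤ) - t).toNat) ?_ ?_ ?_ ?_ ?_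
  · intro m hm
    simp only [mem_filter, mem_Icc] at hm ⊢
    exact abs_le.mp hm.2
  · intro t ht
    simp only [mem_filter, mem_Icc] at ht ⊢
    have h3 : (((n : ℤ) - t).toNat : ℤ) = n - t := Int.toNat_of_nonneg (by omega)
    refine ⟨⟨by omega, by omega⟩, ?_⟩
    rw [h3, sub_sub_cancel]
    exact abs_le.mpr ht
  · intro m hm
    simp
  · intro t ht
    simp only [mem_Icc] at ht
    have h3 : (((n : ℤ) - t).toNat : ℤ) = n - t := Int.toNat_of_nonneg (by omega)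
    rw [h3, sub_sub_cancel]
  · intro m hm
    simp

private lemma SHF_split (G : ℤ → ℂ) (P : ℝ → ℂ) {n N K : ℕ} (h1 : K < n) (h2 : n + K ≤ N) {δ : ℝ} (hδ : 0 ≤ δ)
    (h : ∀ m ∈ Icc 1 N, (K : ℤ) < |(n : ℤ) - m| → ‖G m * P (n - m)‖ ≤ δ) :
    ‖∑ m ∈ Icc 1 N, G m * P (n - m) - ∑ t ∈ Icc (-(K : ℤ)) K, G (n - t) * P t‖ ≤ N * δ := by
  have h3 := SHF_near (fun m : ℤ => G m * P ((n : ℝ) - m)) h1 h2
  have h4 : ∑ t ∈ Icc (-(K : ℤ)) K, G (n - t) * P t =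
      ∑ m ∈ (Icc 1 N).filter (fun m : ℕ => |(n : ℤ) - m| ≤ K), G m * P ((n : ℝ) - m) := by
    refine Eq.trans ?_ (h3.symm.trans ?_)
    · refine Finset.sum_congr rfl fun t _ => ?_
      congr 2
      push_cast
      ring
    · refine Finset.sum_congr rfl fun m _ => ?_
      simp only [Int.cast_natCast]
  rw [h4, ← Finset.sum_filter_add_sum_filter_not (Icc 1 N) (fun m : ℕ => |(n : ℤ) - m| ≤ K), add_sub_cancel_left]
  refine (norm_sum_le _ _).trans ?_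
  have h5 : ∑ m ∈ (Icc 1 N).filter (fun m : ℕ => ¬ |(n : ℤ) - m| ≤ K), ‖G m * P (n - m)‖ ≤
      ∑ m ∈ (Icc 1 N).filter (fun m : ℕ => ¬ |(n : ℤ) - m| ≤ K), δ := by
    refine Finset.sum_le_sum fun m hm => ?_
    rw [mem_filter] at hm
    exact h m hm.1 (not_le.mp hm.2)
  refine h5.trans ?_
  rw [Finset.sum_const, nsmul_eq_mul]
  have h6 : ((Icc 1 N).filter (fun m : ℕ => ¬ |(n : ℤ) - m| ≤ K)).card ≤ N := by
    refine (Finset.card_filter_le _ _).trans ?_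
    simp
  gcongr

private lemma SHF_supp {M : ℝ} {W : ℝ → ℝ} (hW : WS M W) {x : ℝ} (hx : 0 < x) {n : ℕ} (hn : 1 ≤ n)
    (h : W (Real.log (n / x)) ≠ 0) : x * Real.exp (-M) < n ∧ (n : ℝ) < x * Real.exp M := by
  have hn' : (0 : ℝ) < n := by exact_mod_cast hn
  have h1 : |Real.log (n / x)| < M := by
    by_contra hc
    exact h (hW.zero _ (not_lt.mp hc))
  obtain ⟨h2, h3⟩ := abs_lt.mp h1
  have h4 : Real.exp (-M) < n / x := (Real.lt_log_iff_exp_lt (by positivity)).mp h2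
  have h5 : n / x < Real.exp M := (Real.log_lt_iff_lt_exp (by positivity)).mp h3
  rw [lt_div_iff₀ hx] at h4
  rw [div_lt_iff₀ hx] at h5
  constructor <;> linarith

private lemma SHF_sumT {φ : ℝ → ℝ} {C H : ℝ} (h : ∀ v : ℝ, ∀ s : Finset ℤ, ∑ m ∈ s, ‖Ph φ H (v - m)‖ ≤ C * (1 + 1 / H))
    (s : Finset ℤ) : ∑ t ∈ s, ‖Ph φ H t‖ ≤ C * (1 + 1 / H) := by
  have h1 := h 0 (s.image Neg.neg)
  rw [Finset.sum_image (by intro a _ b _ hab; exact neg_injective hab)] at h1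
  refine le_trans (le_of_eq ?_) h1
  refine Finset.sum_congr rfl fun t _ => ?_
  congr 2
  push_cast
  ring

theorem shf {φ : ℝ → ℝ} (hφ : PH φ) {M : ℝ} (hM : 0 < M) {W : ℝ → ℝ} (hW : WS M W) {c0 C0 : ℝ} (hc0 : 0 < c0) :
    ∃ x0 : ℝ, ∀ x, x0 ≤ x → ∀ H : ℝ, c0 ≤ H → H ≤ C0 * x ^ uu → ∀ f : ℕ → ℝ,
      (∀ n ∈ Icc 1 (NN M x), |f n| ≤ x) → (∀ t : ℤ, t ≠ 0 → (|t| : ℝ) ≤ x ^ (2 * uu) → |corr W M x f t| ≤ x ^ (1 - 10 * uu)) →
      ‖∑ n ∈ Icc 1 (NN M x), ((W (Real.log (n / x)) * f n : ℝ) : ℂ) * (starRingEnd ℂ) (be2 φ M x H n) -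
        (starRingEnd ℂ) (Ph φ H 0) * (corr W M x f 0 : ℂ)‖ ≤ x ^ (1 - 9 * uu) := by
  obtain ⟨x1, hfar⟩ := far hφ (C0 := C0) hc0
  obtain ⟨x2, hg2⟩ := g2_bd
  obtain ⟨C, hC, hPs⟩ := Ph_sum hφ
  obtain ⟨Cw, hCw, hWb⟩ := WS_bdd hW
  have hu := SHF_uu
  have hu1 : uu ≤ 1 / 1000 := by unfold uu; norm_num
  have ev := (((((SHF_big (C * (1 + 1 / c0) + Cw * Real.exp M * Real.exp (M + 1)) (s := uu) hu).and
    (Filter.eventually_ge_atTop (1 : ℝ))).and (Filter.eventually_ge_atTop x1)).and (Filter.eventually_ge_atTop x2)).and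
    (SHF_big (Real.exp (M + 1)) (s := 1 / 10) (by norm_num))).and (SHF_big (Real.exp M) (s := 1 - 2 * uu) (by linarith))
  obtain ⟨x0, hx0⟩ := Filter.eventually_atTop.mp ev
  refine ⟨x0, fun x hx H h1 h2 f hf hcorr => ?_⟩
  obtain ⟨⟨⟨⟨⟨hK, hx1⟩, hxx1⟩, hxx2⟩, hx10⟩, hx2u⟩ := hx0 x hx
  have hxp : 0 < x := by linarith
  have hH : 0 < H := lt_of_lt_of_le hc0 h1
  set K : ℕ := ⌊x ^ (2 * uu)⌋₊ with hKdef
  have hKle : (K : ℝ) ≤ x ^ (2 * uu) := Nat.floor_le (Real.rpow_nonneg hxp.le _)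
  have hKlt : x ^ (2 * uu) < K + 1 := Nat.lt_floor_add_one _
  set N : ℕ := NN (M + 1) x with hNdef
  have hNle : (N : ℝ) ≤ x * Real.exp (M + 1) := Nat.floor_le (by positivity)
  have hN0le : ((NN M x : ℕ) : ℝ) ≤ x * Real.exp M := Nat.floor_le (by positivity)
  set T : Finset ℤ := Icc (-(K : ℤ)) K with hTdef
  have hx9 : (0 : ℝ) < x ^ (-9 : ℝ) := Real.rpow_pos_of_pos hxp _
  have hx3 : (0 : ℝ) < x ^ (3 * uu) := Real.rpow_pos_of_pos hxp _
  set δ : ℝ := x ^ (3 * uu) * x ^ (-9 : ℝ) with hδdef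
  have hδ : 0 ≤ δ := by positivity
  -- the pointwise comparison
  have hpt : ∀ n ∈ Icc 1 (NN M x), ‖((W (Real.log (n / x)) * f n : ℝ) : ℂ) *
      ((starRingEnd ℂ) (be2 φ M x H n) - (starRingEnd ℂ) (∑ t ∈ T, (g2 x ((n : ℤ) - t) : ℂ) * Ph φ H t))‖ ≤
      Cw * x * (N * δ) := by
    intro n hn
    have hn1 : 1 ≤ n := (mem_Icc.mp hn).1
    by_cases hWn : W (Real.log (n / x)) = 0
    · rw [hWn, zero_mul, Complex.ofReal_zero, zero_mul, norm_zero]
      positivity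
    obtain ⟨h3, h4⟩ := SHF_supp hW hxp hn1 hWn
    have hKn : K < n := by
      have h5 : (K : ℝ) < n := by
        refine lt_of_le_of_lt (hKle.trans ?_) h3
        rw [Real.exp_neg, ← div_eq_mul_inv, le_div_iff₀ (Real.exp_pos _)]
        calc x ^ (2 * uu) * Real.exp M ≤ x ^ (2 * uu) * x ^ (1 - 2 * uu) := by gcongr
          _ = x := by
            rw [← Real.rpow_add hxp]
            rw [show 2 * uu + (1 - 2 * uu) = 1 by ring, Real.rpow_one]
      exact_mod_cast h5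
    have hKN : n + K ≤ N := by
      refine Nat.le_floor ?_
      push_cast
      have hKx : (K : ℝ) ≤ x := by
        refine hKle.trans ?_
        calc x ^ (2 * uu) ≤ x ^ (1 : ℝ) := Real.rpow_le_rpow_of_exponent_le hx1 (by linarith)
          _ = x := Real.rpow_one x
      have he : Real.exp M + 1 ≤ Real.exp (M + 1) := by
        rw [Real.exp_add]
        have h5 : 1 ≤ Real.exp M := Real.one_le_exp hM.le
        have h6 : (2 : ℝ) ≤ Real.exp 1 := by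
          have := Real.add_one_le_exp (1 : ℝ)
          linarith
        nlinarith
      calc (n : ℝ) + K ≤ x * Real.exp M + x := by linarith
        _ = x * (Real.exp M + 1) := by ring
        _ ≤ x * Real.exp (M + 1) := by gcongr
    have h5 := SHF_split (fun m : ℤ => (g2 x m : ℂ)) (fun v => Ph φ H v) hKn hKN hδ (by
      intro m hm hmn
      have hm1 := mem_Icc.mp hm
      have hmN : (m : ℝ) ≤ x * Real.exp (M + 1) := le_trans (by exact_mod_cast hm1.2) hNle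
      have h6 : |g2 x (m : ℤ)| ≤ x ^ (3 * uu) := by
        refine hg2 x hxx2 m (by omega) ?_
        rw [Int.cast_natCast, abs_of_nonneg (Nat.cast_nonneg m)]
        refine hmN.trans ?_
        calc x * Real.exp (M + 1) ≤ x * x ^ (1 / 10 : ℝ) := by gcongr
          _ = x ^ (11 / 10 : ℝ) := by
            nth_rewrite 1 [← Real.rpow_one x]
            rw [← Real.rpow_add hxp]
            norm_num
      have h7 : (K : ℝ) + 1 ≤ |(n : ℝ) - m| := by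
        have h8 : (K : ℤ) + 1 ≤ |(n : ℤ) - m| := by omega
        have h9 : (((K : ℤ) + 1 : ℤ) : ℝ) ≤ ((|(n : ℤ) - m| : ℤ) : ℝ) := by exact_mod_cast h8
        push_cast at h9
        exact h9
      have h8 : ‖Ph φ H (n - m)‖ ≤ x ^ (-9 : ℝ) := by
        refine (hfar x hxx1 H h1 h2 _ (lt_of_lt_of_le hKlt h7)).trans ?_
        refine div_le_self hx9.le ?_
        rw [← sq_abs]
        have h9 : (1 : ℝ) ≤ |(n : ℝ) - m| := by
          have : (0 : ℝ) ≤ K := Nat.cast_nonneg K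
          linarith
        nlinarith
      rw [norm_mul, Complex.norm_real, Real.norm_eq_abs]
      exact mul_le_mul h6 h8 (norm_nonneg _) hx3.le)
    rw [norm_mul, Complex.norm_real, Real.norm_eq_abs, abs_mul, ← map_sub, RCLike.norm_conj]
    have h6 : be2 φ M x H n = ∑ m ∈ Icc 1 N, (g2 x (m : ℤ) : ℂ) * Ph φ H (n - m) := rfl
    rw [h6]
    refine mul_le_mul (mul_le_mul (hWb _) (hf n hn) (abs_nonneg _) hCw) h5 (norm_nonneg _) (by positivity)
  -- the main identity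
  have hid : ∑ n ∈ Icc 1 (NN M x), ((W (Real.log (n / x)) * f n : ℝ) : ℂ) *
      (starRingEnd ℂ) (∑ t ∈ T, (g2 x ((n : ℤ) - t) : ℂ) * Ph φ H t) =
      ∑ t ∈ T, (starRingEnd ℂ) (Ph φ H t) * (corr W M x f t : ℂ) := by
    simp_rw [map_sum, Finset.mul_sum]
    rw [Finset.sum_comm]
    refine Finset.sum_congr rfl fun t _ => ?_
    unfold corr
    rw [Complex.ofReal_sum, Finset.mul_sum]
    refine Finset.sum_congr rfl fun n _ => ?_
    rw [map_mul, Complex.conj_ofReal]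
    push_cast
    ring
  have h0T : (0 : ℤ) ∈ T := by
    rw [hTdef, mem_Icc]
    constructor <;> omega
  have hsplit : ∑ n ∈ Icc 1 (NN M x), ((W (Real.log (n / x)) * f n : ℝ) : ℂ) * (starRingEnd ℂ) (be2 φ M x H n) -
        (starRingEnd ℂ) (Ph φ H 0) * (corr W M x f 0 : ℂ) =
      ∑ n ∈ Icc 1 (NN M x), ((W (Real.log (n / x)) * f n : ℝ) : ℂ) *
      ((starRingEnd ℂ) (be2 φ M x H n) - (starRingEnd ℂ) (∑ t ∈ T, (g2 x ((n : ℤ) - t) : ℂ) * Ph φ H t)) +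
      ∑ t ∈ T.erase 0, (starRingEnd ℂ) (Ph φ H t) * (corr W M x f t : ℂ) := by
    have h5 := Finset.add_sum_erase T (fun t : ℤ => (starRingEnd ℂ) (Ph φ H t) * (corr W M x f t : ℂ)) h0T
    rw [← hid] at h5
    simp only [mul_sub, Finset.sum_sub_distrib]
    rw [← h5]
    simp only [Int.cast_zero]
    ring
  rw [hsplit]
  refine (norm_add_le _ _).trans ?_
  have hA1 : ‖∑ n ∈ Icc 1 (NN M x), ((W (Real.log (n / x)) * f n : ℝ) : ℂ) *
      ((starRingEnd ℂ) (be2 φ M x H n) - (starRingEnd ℂ) (∑ t ∈ T, (g2 x ((n : ℤ) - t) : ℂ) * Ph φ H t))‖ ≤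
      (NN M x : ℝ) * (Cw * x * (N * δ)) := by
    refine (norm_sum_le_of_le _ hpt).trans (le_of_eq ?_)
    rw [Finset.sum_const, nsmul_eq_mul]
    simp
  have hA2 : ‖∑ t ∈ T.erase 0, (starRingEnd ℂ) (Ph φ H t) * (corr W M x f t : ℂ)‖ ≤
      C * (1 + 1 / c0) * x ^ (1 - 10 * uu) := by
    have h5 : ∀ t ∈ T.erase 0, ‖(starRingEnd ℂ) (Ph φ H t) * (corr W M x f t : ℂ)‖ ≤
        ‖Ph φ H t‖ * x ^ (1 - 10 * uu) := by
      intro t ht
      obtain ⟨ht0, htT⟩ := Finset.mem_erase.mp ht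
      rw [norm_mul, RCLike.norm_conj, Complex.norm_real, Real.norm_eq_abs]
      refine mul_le_mul_of_nonneg_left (hcorr t ht0 ?_) (norm_nonneg _)
      rw [hTdef, mem_Icc] at htT
      have h6 : |t| ≤ (K : ℤ) := abs_le.mpr htT
      have h7 : ((|t| : ℤ) : ℝ) ≤ K := by exact_mod_cast h6
      rw [Int.cast_abs] at h7
      exact h7.trans hKle
    refine (norm_sum_le_of_le _ h5).trans ?_
    rw [← Finset.sum_mul]
    refine mul_le_mul_of_nonneg_right ?_ (Real.rpow_nonneg hxp.le _)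
    refine (SHF_sumT (hPs H hH) _).trans ?_
    gcongr
  have hA3 : (NN M x : ℝ) * (Cw * x * (N * δ)) ≤ Cw * Real.exp M * Real.exp (M + 1) * x ^ (1 - 10 * uu) := by
    calc (NN M x : ℝ) * (Cw * x * (N * δ)) ≤ (x * Real.exp M) * (Cw * x * ((x * Real.exp (M + 1)) * δ)) := by
          gcongr
      _ = Cw * Real.exp M * Real.exp (M + 1) * (x * x * x * δ) := by ring
      _ ≤ Cw * Real.exp M * Real.exp (M + 1) * x ^ (1 - 10 * uu) := by
          gcongr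
          have h5 : x * x * x * δ = x ^ (3 + (3 * uu + -9) : ℝ) := by
            rw [Real.rpow_add hxp, Real.rpow_add hxp, hδdef]
            congr 1
            rw [show (3 : ℝ) = ((3 : ℕ) : ℝ) by norm_num, Real.rpow_natCast]
            ring
          rw [h5]
          exact Real.rpow_le_rpow_of_exponent_le hx1 (by linarith)
  calc _ ≤ Cw * Real.exp M * Real.exp (M + 1) * x ^ (1 - 10 * uu) + C * (1 + 1 / c0) * x ^ (1 - 10 * uu) :=
        add_le_add (hA1.trans hA3) hA2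
    _ = (C * (1 + 1 / c0) + Cw * Real.exp M * Real.exp (M + 1)) * x ^ (1 - 10 * uu) := by ring
    _ ≤ x ^ uu * x ^ (1 - 10 * uu) := by
        have := Real.rpow_nonneg hxp.le (1 - 10 * uu)
        gcongr
    _ = x ^ (1 - 9 * uu) := by
        rw [← Real.rpow_add hxp]
        congr 1
        ring

theorem lamside {φ : ℝ → ℝ} (hφ : PH φ) {M : ℝ} (hM : 0 < M) {W : ℝ → ℝ} (hW : WS M W) {c0 C0 : ℝ} (hc0 : 0 < c0) :
    ∃ x0 : ℝ, ∀ x, x0 ≤ x → ∀ H : ℝ, c0 ≤ H → H ≤ C0 * x ^ uu →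
      ‖∑ n ∈ Icc 1 (NN M x), ((ArithmeticFunction.vonMangoldt n * W (Real.log (n / x)) : ℝ) : ℂ) *
          (starRingEnd ℂ) (be2 φ M x H n) -
        (starRingEnd ℂ) (Ph φ H 0) * (corr W M x (fun n => ArithmeticFunction.vonMangoldt n) 0 : ℂ)‖ ≤ x ^ (1 - 9 * uu) := by
  obtain ⟨x1, h1⟩ := shf hφ hM hW (C0 := C0) hc0
  obtain ⟨x2, h2⟩ := val hM hW
  have hlog : ∀ᶠ x : ℝ in Filter.atTop, ‖Real.log x‖ ≤ 1 / 2 * ‖id x‖ :=
    Real.isLittleO_log_id_atTop.bound (by norm_num)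
  have ev := (((Filter.eventually_ge_atTop x1).and (Filter.eventually_ge_atTop x2)).and
    (Filter.eventually_ge_atTop (2 * M + 1))).and (hlog.and (Filter.eventually_ge_atTop (1 : ℝ)))
  obtain ⟨x0, hx0⟩ := Filter.eventually_atTop.mp ev
  refine ⟨x0, fun x hx H hH1 hH2 => ?_⟩
  obtain ⟨⟨⟨hxx1, hxx2⟩, hxM⟩, hxl, hx1⟩ := hx0 x hx
  have hxp : 0 < x := by linarith
  have h3 := h1 x hxx1 H hH1 hH2 (fun n => ArithmeticFunction.vonMangoldt n) (by
    intro n hn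
    obtain ⟨hn1, hn2⟩ := mem_Icc.mp hn
    have hn' : (0 : ℝ) < n := by exact_mod_cast hn1
    rw [abs_of_nonneg ArithmeticFunction.vonMangoldt_nonneg]
    refine ArithmeticFunction.vonMangoldt_le_log.trans ?_
    have h4 : (n : ℝ) ≤ x * Real.exp M :=
      le_trans (by exact_mod_cast hn2) (Nat.floor_le (by positivity) : ((NN M x : ℕ) : ℝ) ≤ x * Real.exp M)
    have h5 : Real.log n ≤ Real.log x + M := by
      refine (Real.log_le_log hn' h4).trans (le_of_eq ?_)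
      rw [Real.log_mul hxp.ne' (Real.exp_pos _).ne', Real.log_exp]
    have h6 : Real.log x ≤ 1 / 2 * x := by
      rw [Real.norm_eq_abs, id, Real.norm_eq_abs, abs_of_pos hxp] at hxl
      exact (le_abs_self _).trans hxl
    linarith) (h2 x hxx2)
  refine le_trans (le_of_eq ?_) h3
  congr 2
  refine Finset.sum_congr rfl fun n _ => ?_
  rw [mul_comm (ArithmeticFunction.vonMangoldt n)]

end H69BG
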