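import Pool.Agent.H69.BG.Poi
import Pool.Agent.H69.BG.Shf
import Pool.Agent.H69.BG.F1
import Pool.Agent.H69.BG.ArP

/-!
# CRD: the Poisson sum against `g2`

`N' = NN (M+1) x`, `G = GG R`. For `m` with `W(log(m/x)) ≠ 0` (`x e^{-M} < m < x e^M`): `∑_t Φ(t) G(m-t)` converges absolutely (`|G| ≤ R`, `Ph_sum` for the finite partial sums or `Ph_decay`).
1. `|t| > x^{2u}`: `‖Φ(t)‖ ≤ x^{-9}/t²` (`far`), `|G| ≤ R ≤ x` (`abs_GG_le`): total `≤ N' C x^{3u} x x^{-9} ≤ 1` (`g2_bd`).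
2. `0 < |t| ≤ x^{2u}` and `t = 0`: `D_t := ∑_{m ≤ N'} W(log(m/x)) g2(m) G(m-t)`. Put `n = m - t` (a positive integer `≤ N'` where the weight is `≠ 0`): `D_t = ∑_{n ≤ N'} Wl W x (n+t) g2(n+t) G(n)`, and `corr W M x G (-t) = ∑_{n ≤ N'} Wl W x n G(n) g2(n+t)`.
  `|Wl W x (n+t) - Wl W x n| ≤ (C/x) |t|` (`Wl_lip`), `|g2(n+t)| ≤ x^{3u}`, `|G(n)| ≤ x^{u}` (`abs_GG_le'`; only `n` with `n ≠ 0`, `n + t ≠ 0`, `n ≥ x e^{-M} - x^{2u}` matter): `|D_t - corr W M x G (-t)| ≤ C x^{6u}`.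
3. `t ≠ 0`: `|corr| ≤ x^{1-10u}` (`f1G`, `R ≤ x^{1/2} ≤ x^{0.51}`), and `∑_t ‖Φ(t)‖ ≤ C (1 + 1/c0)`. `t = 0`: `‖Φ(0)‖ = (∫ φ)/H` (`Ph_zero`), `|corr W M x G 0| ≤ x^{1-u/2}` (`F3`).
Total `≤ 1 + C (x^{1-10u} + C x^{6u}) + (C/H) x^{1-u/2} ≤ x^{1-u/3}/H` as `H ≤ C0 x^u`.
-/

open Finset H69LB

namespace H69BG

variable {ι : Type} [Countable ι] {γ w : ι → ℝ} {F : ℝ → Finset ι} {A : ℝ → ℝ} {k0 : ℝ}

private lemma CRD_ts (F : ℤ → ℝ) (K : ℕ) (h : ∀ m : ℤ, F m ≠ 0 → 1 ≤ m ∧ m ≤ K) :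
    ∑' m : ℤ, F m = ∑ m ∈ Icc 1 K, F (m : ℤ) := by
  rw [tsum_eq_sum (s := (Icc 1 K).map ⟨((↑) : ℕ → ℤ), Nat.cast_injective⟩)]
  · rw [Finset.sum_map]
    rfl
  · intro m hm
    by_contra hne
    obtain ⟨h1, h2⟩ := h m hne
    obtain ⟨n, rfl⟩ := Int.eq_ofNat_of_zero_le (by omega : 0 ≤ m)
    apply hm
    rw [Finset.mem_map]
    exact ⟨n, Finset.mem_Icc.2 ⟨by omega, by omega⟩, rfl⟩

private lemma CRD_D {M : ℝ} {W : ℝ → ℝ} (hW : WS M W) {C : ℝ} (hC : 0 ≤ C)
    (hL : ∀ x : ℝ, 0 < x → ∀ v w : ℝ, |Wl W x v - Wl W x w| ≤ C / x * |v - w|)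
    {x τ P Q : ℝ} (hx : 0 < x) {R : ℕ} {t : ℤ} (ht : |(t : ℝ)| ≤ τ)
    (hmin : τ + 1 ≤ x * Real.exp (-M)) (hmax : x * Real.exp M + τ ≤ x * Real.exp (M + 1))
    (hP : 0 ≤ P) (hQ : 0 ≤ Q)
    (hg : ∀ n : ℤ, n ≠ 0 → |(n : ℝ)| ≤ x * Real.exp (M + 1) → |g2 x n| ≤ P)
    (hG : ∀ n : ℤ, n ≠ 0 → |(n : ℝ)| ≤ x * Real.exp (M + 1) → |GG R n| ≤ Q) :
    |∑ m ∈ Icc 1 (NN (M + 1) x), W (Real.log (m / x)) * g2 x m * GG R (m - t) -
      corr W M x (fun n => GG R n) (-t)| ≤ (NN (M + 1) x : ℝ) * (C / x * |(t : ℝ)| * P * Q) := by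
  have hτ : 0 ≤ τ := (abs_nonneg _).trans ht
  have htl := neg_le_of_abs_le ht
  have htu := le_of_abs_le ht
  set N' := NN (M + 1) x with hN'
  set F : ℤ → ℝ := fun m => Wl W x m * g2 x m * GG R (m - t) with hF
  have hle : ∀ n : ℤ, (n : ℝ) ≤ x * Real.exp (M + 1) → 1 ≤ n → n ≤ N' := by
    intro n hn h1
    obtain ⟨k, rfl⟩ := Int.eq_ofNat_of_zero_le (by omega : 0 ≤ n)
    have h2 : k ≤ N' := by
      apply Nat.le_floor
      exact_mod_cast hn
    exact_mod_cast h2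
  have hpos : ∀ n : ℤ, (0 : ℝ) < n → 1 ≤ n := by
    intro n hn
    have : 0 < n := by exact_mod_cast hn
    omega
  have hexpM : x * Real.exp M ≤ x * Real.exp (M + 1) := by linarith
  have hxM : 0 < x * Real.exp (-M) := by positivity
  have h1 : ∑ m ∈ Icc 1 N', W (Real.log (m / x)) * g2 x m * GG R (m - t) = ∑ m ∈ Icc 1 N', F (m : ℤ) := by
    refine Finset.sum_congr rfl fun m hm => ?_
    rw [Finset.mem_Icc] at hm
    simp only [hF, Int.cast_natCast]
    rw [Wl_nat hm.1]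
  have hF0 : ∀ m : ℤ, F m ≠ 0 → x * Real.exp (-M) < m ∧ (m : ℝ) < x * Real.exp M := by
    intro m hm
    apply Wl_ne hW hx
    intro h0
    apply hm
    simp only [hF]
    rw [h0]
    ring
  have h2 : ∑ m ∈ Icc 1 N', F (m : ℤ) = ∑ n ∈ Icc 1 N', F ((n : ℤ) + t) := by
    rw [← CRD_ts F N', ← CRD_ts (fun n => F (n + t)) N', ← (Equiv.addRight t).tsum_eq F]
    · rfl
    · intro m hm
      obtain ⟨h3, h4⟩ := hF0 _ hm
      push_cast at h3 h4
      have h5 := hpos m (by linarith)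
      exact ⟨h5, hle m (by linarith) h5⟩
    · intro m hm
      obtain ⟨h3, h4⟩ := hF0 _ hm
      have h5 := hpos m (by linarith)
      exact ⟨h5, hle m (by linarith) h5⟩
  have h3 : corr W M x (fun n => GG R n) (-t) =
      ∑ n ∈ Icc 1 N', Wl W x n * GG R n * g2 x (n + t) := by
    unfold corr
    have h4 : NN M x ≤ N' := by
      apply Nat.floor_le_floor
      exact hexpM
    rw [← Finset.sum_subset (Finset.Icc_subset_Icc_right h4)]
    · refine Finset.sum_congr rfl fun n hn => ?_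
      rw [Finset.mem_Icc] at hn
      rw [Wl_nat hn.1, sub_neg_eq_add]
    · intro n hn hn'
      rw [Finset.mem_Icc] at hn hn'
      have h5 : NN M x < n := by
        by_contra hcon
        exact hn' ⟨hn.1, not_lt.1 hcon⟩
      have h6 : Wl W x n = 0 := by
        by_contra hne
        have h7 := (Wl_ne hW hx hne).2
        have h8 : x * Real.exp M < n := by
          have := Nat.lt_of_floor_lt h5
          exact this
        linarith
      rw [h6]
      ring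
  rw [h1, h2, h3, ← Finset.sum_sub_distrib]
  refine (abs_sum_le_sum_abs _ _).trans ?_
  have hterm : ∀ n ∈ Icc 1 N', |F ((n : ℤ) + t) - Wl W x n * GG R n * g2 x (n + t)| ≤
      C / x * |(t : ℝ)| * P * Q := by
    intro n hn
    rw [Finset.mem_Icc] at hn
    have hnn : (0 : ℝ) < n := by exact_mod_cast hn.1
    have e1 : F ((n : ℤ) + t) - Wl W x n * GG R n * g2 x (n + t) =
        (Wl W x ((n : ℝ) + t) - Wl W x n) * g2 x (n + t) * GG R n := by
      simp only [hF]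
      push_cast
      rw [add_sub_cancel_right]
      ring
    rw [e1]
    have hR0 : 0 ≤ C / x * |(t : ℝ)| * P * Q := by positivity
    by_cases h0 : Wl W x ((n : ℝ) + t) = 0 ∧ Wl W x n = 0
    · rw [h0.1, h0.2]
      simpa using hR0
    · have h5 : x * Real.exp (-M) - τ < n ∧ (n : ℝ) < x * Real.exp M + τ ∧ 0 < (n : ℝ) + t ∧
          (n : ℝ) + t < x * Real.exp M + τ := by
        by_cases h6 : Wl W x n = 0
        · have h7 : Wl W x ((n : ℝ) + t) ≠ 0 := fun h => h0 ⟨h, h6⟩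
          obtain ⟨h8, h9⟩ := Wl_ne hW hx h7
          exact ⟨by linarith, by linarith, by linarith, by linarith⟩
        · obtain ⟨h8, h9⟩ := Wl_ne hW hx h6
          exact ⟨by linarith, by linarith, by linarith, by linarith⟩
      obtain ⟨h6, h7, h8, h9⟩ := h5
      have hnt : (n : ℤ) + t ≠ 0 := by
        intro h
        have : ((n : ℤ) + t : ℤ) = (0 : ℤ) := h
        have h10 : (((n : ℤ) + t : ℤ) : ℝ) = 0 := by rw [this]; simp
        push_cast at h10
        linarith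
      have h10 : |g2 x ((n : ℤ) + t)| ≤ P := by
        apply hg _ hnt
        push_cast
        rw [abs_of_pos h8]
        linarith
      have h11 : |GG R (n : ℤ)| ≤ Q := by
        apply hG _ (by omega)
        push_cast
        rw [abs_of_pos hnn]
        linarith
      have h12 : |Wl W x ((n : ℝ) + t) - Wl W x n| ≤ C / x * |(t : ℝ)| := by
        have := hL x hx ((n : ℝ) + t) n
        rwa [add_sub_cancel_left] at this
      rw [abs_mul, abs_mul]
      exact mul_le_mul (mul_le_mul h12 h10 (abs_nonneg _) (by positivity)) h11 (abs_nonneg _) (by positivity)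
  refine (Finset.sum_le_sum hterm).trans ?_
  rw [Finset.sum_const, nsmul_eq_mul, Nat.card_Icc, Nat.add_sub_cancel]

/-- the tail of the sum over the shifts -/
private lemma CRD_tail {a : ℤ → ℂ} (hs : Summable a) {τ E : ℝ} (hE : 0 ≤ E)
    (h : ∀ t : ℤ, τ < |(t : ℝ)| → ‖a t‖ ≤ E * (1 / (t : ℝ) ^ 2)) {T : ℕ} (hT : τ < T + 1) :
    ‖∑' t : ℤ, a t - ∑ t ∈ Icc (-(T : ℤ)) T, a t‖ ≤ E * ∑' t : ℤ, 1 / (t : ℝ) ^ 2 := by
  classical
  set B := Icc (-(T : ℤ)) T with hB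
  set b : ℤ → ℂ := fun t => if t ∈ B then 0 else a t with hb
  have h1 : HasSum (fun t => if t ∈ B then a t else 0) (∑ t ∈ B, a t) := by
    have h2 : HasSum (fun t => if t ∈ B then a t else 0) (∑ t ∈ B, if t ∈ B then a t else 0) :=
      hasSum_sum_of_ne_finset_zero fun t ht => if_neg ht
    convert h2 using 1
    exact Finset.sum_congr rfl fun t ht => (if_pos ht).symm
  have h2 := hs.hasSum.sub h1
  have h3 : HasSum b (∑' t : ℤ, a t - ∑ t ∈ B, a t) := by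
    have hbe : b = fun t => a t - (if t ∈ B then a t else 0) := by
      funext t
      simp only [hb]
      split_ifs <;> simp
    rw [hbe]
    exact h2
  rw [← h3.tsum_eq]
  have h4 : HasSum (fun t : ℤ => E * (1 / (t : ℝ) ^ 2)) (E * ∑' t : ℤ, 1 / (t : ℝ) ^ 2) :=
    ((Real.summable_one_div_int_pow.2 (by norm_num : 1 < 2)).hasSum).mul_left E
  refine tsum_of_norm_bounded h4 fun t => ?_
  simp only [hb]
  split_ifs with ht
  · rw [norm_zero]; positivity
  · apply h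
    rw [hB, Finset.mem_Icc, ← abs_le, not_le] at ht
    have h5 : (T : ℤ) + 1 ≤ |t| := ht
    have h6 : ((T : ℝ) + 1) ≤ |(t : ℝ)| := by
      rw [← Int.cast_abs]
      exact_mod_cast h5
    linarith

private lemma CRD_large (a e c : ℝ) (hae : a < e) : ∀ᶠ x : ℝ in Filter.atTop, c * x ^ a ≤ x ^ e := by
  have h1 : Filter.Tendsto (fun x : ℝ => x ^ (e - a)) Filter.atTop Filter.atTop :=
    tendsto_rpow_atTop (by linarith)
  filter_upwards [h1.eventually_ge_atTop c, Filter.eventually_gt_atTop 0] with x hx hx0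
  have h2 : x ^ e = x ^ (e - a) * x ^ a := by
    rw [← Real.rpow_add hx0]; congr 1; ring
  rw [h2]
  exact mul_le_mul_of_nonneg_right hx (by positivity)

theorem crd (Z : Zer γ w F A k0) {φ : ℝ → ℝ} (hφ : PH φ) {M : ℝ} (hM : 0 < M) {W : ℝ → ℝ} (hW : WS M W) {c0 C0 : ℝ}
    (hc0 : 0 < c0) : ∃ x0 : ℝ, ∀ x, x0 ≤ x → ∀ H : ℝ, c0 ≤ H → H ≤ C0 * x ^ uu → ∀ R : ℕ, (R : ℝ) ≤ x ^ (1 / 2 : ℝ) →
      ((R : ℝ) ≤ x ^ (2 / 5 : ℝ) ∨ x ^ (99997 / 2 * uu) ≤ R) →
      ‖∑ m ∈ Icc 1 (NN (M + 1) x), ((W (Real.log (m / x)) * g2 x m : ℝ) : ℂ) *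
        ∑' t : ℤ, Ph φ H t * (GG R (m - t) : ℂ)‖ ≤ x ^ (1 - uu / 3) / H := by
  have hu : (0 : ℝ) < uu := by unfold uu; norm_num
  have hu' : uu < 1 / 1000 := by unfold uu; norm_num
  obtain ⟨CL, hCL, hLip⟩ := Wl_lip hW
  obtain ⟨CW, hCW, hWb⟩ := WS_bdd hW
  obtain ⟨CP, hCP, hPs⟩ := Ph_sum hφ
  obtain ⟨xf, hfar⟩ := far (C0 := C0) hφ hc0
  obtain ⟨xg, hgb⟩ := g2_bd
  obtain ⟨xG, hGb⟩ := abs_GG_le'
  obtain ⟨x1, hf1⟩ := f1G hM hW
  obtain ⟨x3, hF3⟩ := F3 Z hM hW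
  set S0 : ℝ := ∑' t : ℤ, 1 / (t : ℝ) ^ 2 with hS0
  have hS00 : 0 ≤ S0 := tsum_nonneg fun t => by positivity
  set Iφ : ℝ := ∫ θ, φ θ with hIφ
  have hI0 : 0 ≤ Iφ := hφ.pos.le
  set K : ℝ := CP * (1 + 1 / c0) with hK
  have hK0 : 0 ≤ K := by positivity
  set eM : ℝ := Real.exp (M + 1) with heM
  have heM0 : 0 < eM := Real.exp_pos _
  -- all conditions on `x`
  have hev := (CRD_large 0 (1 / 20) eM (by norm_num)).and
    ((CRD_large (2 * uu) (1 / 2) 2 (by linarith)).and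
    ((CRD_large 0 (1 / 2) (Real.exp M) (by norm_num)).and
    ((CRD_large (-7 + 3 * uu) (-1) (eM * CW * S0) (by linarith)).and
    ((CRD_large (1 - uu / 2) (1 - uu / 3) (3 * Iφ) (by linarith)).and
    ((CRD_large (1 - 9 * uu) (1 - uu / 3) (3 * (C0 * (K * (1 + CL * eM) + 1))) (by linarith)).and
    ((CRD_large (6 * uu) (1 - 10 * uu) 1 (by linarith)).and
    (CRD_large (-1) (1 - 10 * uu) 1 (by linarith))))))))
  obtain ⟨xe, hxe⟩ := Filter.eventually_atTop.1 hev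
  refine ⟨max (max (max xf xg) (max xG x1)) (max (max x3 xe) 1), fun x hx H hH1 hH2 R hR hR' => ?_⟩
  simp only [max_le_iff] at hx
  obtain ⟨⟨⟨hxf, hxg⟩, hxG, hx1'⟩, ⟨hx3, hxe'⟩, hx1⟩ := hx
  obtain ⟨e1, e2, e3, e4, e5, e6, e7, e8⟩ := hxe x hxe'
  have hx0 : 0 < x := by linarith
  have hH0 : 0 < H := hc0.trans_le hH1
  rw [Real.rpow_zero, mul_one] at e1 e3
  rw [one_mul] at e7 e8
  set τ : ℝ := x ^ (2 * uu) with hτ
  have hτ1 : 1 ≤ τ := Real.one_le_rpow hx1 (by positivity)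
  -- sizes
  have hxeM : x * eM ≤ x ^ (11 / 10 : ℝ) := by
    calc x * eM ≤ x * x ^ (1 / 20 : ℝ) := by gcongr
      _ = x ^ (21 / 20 : ℝ) := by
          nth_rewrite 1 [← Real.rpow_one x]
          rw [← Real.rpow_add hx0]; norm_num
      _ ≤ x ^ (11 / 10 : ℝ) := Real.rpow_le_rpow_of_exponent_le hx1 (by norm_num)
  have hmin : τ + 1 ≤ x * Real.exp (-M) := by
    have h1 : x ^ (1 / 2 : ℝ) ≤ x * Real.exp (-M) := by
      rw [Real.exp_neg, ← div_eq_mul_inv, le_div_iff₀ (Real.exp_pos _)]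
      calc x ^ (1 / 2 : ℝ) * Real.exp M ≤ x ^ (1 / 2 : ℝ) * x ^ (1 / 2 : ℝ) := by gcongr
        _ = x := by rw [← Real.rpow_add hx0]; norm_num
    linarith
  have hmax : x * Real.exp M + τ ≤ x * Real.exp (M + 1) := by
    have h1 : τ ≤ x := by
      calc τ ≤ x ^ (1 : ℝ) := Real.rpow_le_rpow_of_exponent_le hx1 (by linarith)
        _ = x := Real.rpow_one x
    have h2 : (1 : ℝ) ≤ Real.exp M := Real.one_le_exp hM.le
    have h3 : 2 ≤ Real.exp 1 := by
      have := Real.add_one_le_exp (1 : ℝ)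
      linarith
    rw [Real.exp_add]
    have h4 : x * Real.exp M * 2 ≤ x * (Real.exp M * Real.exp 1) := by
      rw [← mul_assoc]
      exact mul_le_mul_of_nonneg_left h3 (by positivity)
    have h5 : x * 1 ≤ x * Real.exp M := mul_le_mul_of_nonneg_left h2 hx0.le
    linarith
  have hg : ∀ n : ℤ, n ≠ 0 → |(n : ℝ)| ≤ x * Real.exp (M + 1) → |g2 x n| ≤ x ^ (3 * uu) :=
    fun n hn h => hgb x hxg n hn (h.trans hxeM)
  have hRx : (R : ℝ) ≤ x := by
    refine hR.trans ?_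
    calc x ^ (1 / 2 : ℝ) ≤ x ^ (1 : ℝ) := Real.rpow_le_rpow_of_exponent_le hx1 (by norm_num)
      _ = x := Real.rpow_one x
  have hG : ∀ n : ℤ, n ≠ 0 → |(n : ℝ)| ≤ x * Real.exp (M + 1) → |GG R n| ≤ x ^ uu :=
    fun n hn h => hGb x hxG R hRx n hn (h.trans hxeM)
  -- the kernel
  set T : ℕ := ⌊τ⌋₊ with hT
  have hTτ : (T : ℝ) ≤ τ := Nat.floor_le (by linarith)
  have hτT : τ < T + 1 := Nat.lt_floor_add_one τ
  set B : Finset ℤ := Icc (-(T : ℤ)) T with hB
  have hPsum : ∀ s : Finset ℤ, ∑ t ∈ s, ‖Ph φ H t‖ ≤ CP * (1 + 1 / H) := by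
    intro s
    have h1 := hPs H hH0 0 (s.image (fun t => -t))
    rw [Finset.sum_image (neg_injective.injOn)] at h1
    refine le_trans (le_of_eq ?_) h1
    refine Finset.sum_congr rfl fun t _ => ?_
    push_cast
    rw [zero_sub, neg_neg]
  have hKH : CP * (1 + 1 / H) ≤ K := by
    rw [hK]
    refine mul_le_mul_of_nonneg_left ?_ hCP
    have := one_div_le_one_div_of_le hc0 hH1
    linarith
  have hsumP : Summable (fun t : ℤ => ‖Ph φ H t‖) :=
    summable_of_sum_le (fun t => norm_nonneg _) hPsum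
  have hsum : ∀ m : ℤ, Summable (fun t : ℤ => Ph φ H t * (GG R (m - t) : ℂ)) := by
    intro m
    refine Summable.of_norm_bounded (g := fun t : ℤ => ‖Ph φ H t‖ * (R : ℝ)) (hsumP.mul_right _) fun t => ?_
    rw [norm_mul, Complex.norm_real, Real.norm_eq_abs]
    exact mul_le_mul_of_nonneg_left (abs_GG_le R _) (norm_nonneg _)
  have htail : ∀ m : ℤ, ‖∑' t : ℤ, Ph φ H t * (GG R (m - t) : ℂ) - ∑ t ∈ B, Ph φ H t * (GG R (m - t) : ℂ)‖ ≤
      x ^ (-8 : ℝ) * S0 := by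
    intro m
    refine CRD_tail (hsum m) (by positivity) (fun t ht => ?_) hτT
    rw [norm_mul, Complex.norm_real, Real.norm_eq_abs]
    have h1 := hfar x hxf H hH1 hH2 t ht
    have h2 := (abs_GG_le R (m - t)).trans hRx
    calc ‖Ph φ H t‖ * |GG R (m - t)| ≤ x ^ (-9 : ℝ) / (t : ℝ) ^ 2 * x :=
          mul_le_mul h1 h2 (abs_nonneg _) (by positivity)
      _ = (x ^ (-9 : ℝ) * x) * (1 / (t : ℝ) ^ 2) := by ring
      _ = x ^ (-8 : ℝ) * (1 / (t : ℝ) ^ 2) := by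
          congr 1
          nth_rewrite 2 [← Real.rpow_one x]
          rw [← Real.rpow_add hx0]; norm_num
  -- the main part
  set N' := NN (M + 1) x with hN'
  have hN'x : (N' : ℝ) ≤ x * eM := Nat.floor_le (by positivity)
  set D : ℤ → ℝ := fun t => ∑ m ∈ Icc 1 N', W (Real.log (m / x)) * g2 x m * GG R (m - t) with hD
  have hDb : ∀ t ∈ B, |D t - corr W M x (fun n => GG R n) (-t)| ≤ CL * eM * x ^ (4 * uu) * |(t : ℝ)| := by
    intro t ht
    have ht' : |(t : ℝ)| ≤ τ := by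
      rw [hB, Finset.mem_Icc, ← abs_le] at ht
      have h1 : |(t : ℝ)| ≤ T := by
        rw [← Int.cast_abs]
        exact_mod_cast ht
      linarith
    have h1 := CRD_D hW hCL hLip hx0 ht' hmin hmax (P := x ^ (3 * uu)) (Q := x ^ uu) (by positivity)
      (by positivity) hg hG
    refine h1.trans ?_
    calc (N' : ℝ) * (CL / x * |(t : ℝ)| * x ^ (3 * uu) * x ^ uu)
        ≤ (x * eM) * (CL / x * |(t : ℝ)| * x ^ (3 * uu) * x ^ uu) := by gcongr
      _ = CL * eM * (x ^ (3 * uu) * x ^ uu) * |(t : ℝ)| := by field_simp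
      _ = CL * eM * x ^ (4 * uu) * |(t : ℝ)| := by
          rw [← Real.rpow_add hx0]
          congr 3
          ring
  have hsplit : ∑ m ∈ Icc 1 N', ((W (Real.log (m / x)) * g2 x m : ℝ) : ℂ) *
        ∑' t : ℤ, Ph φ H t * (GG R (m - t) : ℂ) =
      ∑ t ∈ B, Ph φ H t * ((D t : ℝ) : ℂ) +
      ∑ m ∈ Icc 1 N', ((W (Real.log (m / x)) * g2 x m : ℝ) : ℂ) *
        (∑' t : ℤ, Ph φ H t * (GG R (m - t) : ℂ) - ∑ t ∈ B, Ph φ H t * (GG R (m - t) : ℂ)) := by
    have h1 : ∑ t ∈ B, Ph φ H t * ((D t : ℝ) : ℂ) = ∑ m ∈ Icc 1 N', ((W (Real.log (m / x)) * g2 x m : ℝ) : ℂ) *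
        ∑ t ∈ B, Ph φ H t * (GG R (m - t) : ℂ) := by
      simp only [hD]
      simp_rw [Complex.ofReal_sum, Finset.mul_sum]
      rw [Finset.sum_comm]
      refine Finset.sum_congr rfl fun m _ => Finset.sum_congr rfl fun t _ => ?_
      push_cast
      ring
    rw [h1, ← Finset.sum_add_distrib]
    refine Finset.sum_congr rfl fun m _ => ?_
    ring
  rw [hsplit]
  -- the tail part
  have hA2 : ‖∑ m ∈ Icc 1 N', ((W (Real.log (m / x)) * g2 x m : ℝ) : ℂ) *
        (∑' t : ℤ, Ph φ H t * (GG R (m - t) : ℂ) - ∑ t ∈ B, Ph φ H t * (GG R (m - t) : ℂ))‖ ≤ x ^ (-1 : ℝ) := by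
    refine (norm_sum_le _ _).trans ?_
    have h1 : ∀ m ∈ Icc 1 N', ‖((W (Real.log (m / x)) * g2 x m : ℝ) : ℂ) *
        (∑' t : ℤ, Ph φ H t * (GG R (m - t) : ℂ) - ∑ t ∈ B, Ph φ H t * (GG R (m - t) : ℂ))‖ ≤
        CW * x ^ (3 * uu) * (x ^ (-8 : ℝ) * S0) := by
      intro m hm
      rw [Finset.mem_Icc] at hm
      rw [norm_mul, Complex.norm_real, Real.norm_eq_abs, abs_mul]
      have h2 : |g2 x (m : ℤ)| ≤ x ^ (3 * uu) := by
        apply hg _ (by omega)
        push_cast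
        rw [abs_of_nonneg (by positivity)]
        have : (m : ℝ) ≤ N' := by exact_mod_cast hm.2
        linarith
      exact mul_le_mul (mul_le_mul (hWb _) h2 (abs_nonneg _) hCW) (htail m) (norm_nonneg _) (by positivity)
    refine (Finset.sum_le_sum h1).trans ?_
    rw [Finset.sum_const, nsmul_eq_mul, Nat.card_Icc, Nat.add_sub_cancel]
    refine le_trans ?_ e4
    calc (N' : ℝ) * (CW * x ^ (3 * uu) * (x ^ (-8 : ℝ) * S0))
        ≤ (x * eM) * (CW * x ^ (3 * uu) * (x ^ (-8 : ℝ) * S0)) := by gcongr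
      _ = eM * CW * S0 * (x * (x ^ (3 * uu) * x ^ (-8 : ℝ))) := by ring
      _ = eM * CW * S0 * x ^ (-7 + 3 * uu) := by
          congr 1
          nth_rewrite 1 [← Real.rpow_one x]
          rw [← Real.rpow_add hx0, ← Real.rpow_add hx0]
          congr 1
          ring
  -- the main part
  have hA1 : ‖∑ t ∈ B, Ph φ H t * ((D t : ℝ) : ℂ)‖ ≤
      Iφ / H * x ^ (1 - uu / 2) + K * (1 + CL * eM) * x ^ (1 - 10 * uu) := by
    have h0B : (0 : ℤ) ∈ B := by
      rw [hB, Finset.mem_Icc]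
      constructor <;> omega
    rw [← Finset.add_sum_erase _ _ h0B]
    refine (norm_add_le _ _).trans (add_le_add ?_ ?_)
    · rw [norm_mul, Complex.norm_real, Real.norm_eq_abs]
      have h1 : ‖Ph φ H ((0 : ℤ) : ℝ)‖ = Iφ / H := by
        rw [Int.cast_zero, Ph_zero hφ hH0, Complex.norm_real, Real.norm_eq_abs, abs_of_nonneg (by positivity)]
        rw [hIφ]
        ring
      have h2 : |D 0| ≤ x ^ (1 - uu / 2) := by
        have h3 := hDb 0 h0B
        rw [Int.cast_zero, abs_zero, mul_zero, neg_zero] at h3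
        have h4 : D 0 = corr W M x (fun n => GG R n) 0 := by
          have := abs_nonpos_iff.1 h3
          linarith
        rw [h4]
        exact hF3 x hx3 R hR hR'
      rw [h1]
      exact mul_le_mul_of_nonneg_left h2 (by positivity)
    · refine (norm_sum_le _ _).trans ?_
      have h1 : ∀ t ∈ B.erase 0, ‖Ph φ H t * ((D t : ℝ) : ℂ)‖ ≤
          ‖Ph φ H t‖ * ((1 + CL * eM) * x ^ (1 - 10 * uu)) := by
        intro t ht
        rw [Finset.mem_erase] at ht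
        rw [norm_mul, Complex.norm_real, Real.norm_eq_abs]
        refine mul_le_mul_of_nonneg_left ?_ (norm_nonneg _)
        have ht' : |(t : ℝ)| ≤ τ := by
          have h1 := ht.2
          rw [hB, Finset.mem_Icc, ← abs_le] at h1
          have h2 : |(t : ℝ)| ≤ T := by
            rw [← Int.cast_abs]
            exact_mod_cast h1
          linarith
        have h2 : |corr W M x (fun n => GG R n) (-t)| ≤ x ^ (1 - 10 * uu) := by
          apply hf1 x hx1' (-t) (neg_ne_zero.2 ht.1)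
          · push_cast
            rw [abs_neg]
            exact ht'
          · refine hR.trans (Real.rpow_le_rpow_of_exponent_le hx1 (by norm_num))
        have h3 := hDb t ht.2
        have h4 : CL * eM * x ^ (4 * uu) * |(t : ℝ)| ≤ CL * eM * x ^ (1 - 10 * uu) := by
          calc CL * eM * x ^ (4 * uu) * |(t : ℝ)| ≤ CL * eM * x ^ (4 * uu) * τ := by gcongr
            _ = CL * eM * (x ^ (4 * uu) * x ^ (2 * uu)) := by rw [hτ]; ring
            _ = CL * eM * x ^ (6 * uu) := by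
                rw [← Real.rpow_add hx0]
                congr 2
                ring
            _ ≤ CL * eM * x ^ (1 - 10 * uu) := by gcongr
        have h5 : |D t| ≤ |D t - corr W M x (fun n => GG R n) (-t)| + |corr W M x (fun n => GG R n) (-t)| := by
          have := abs_add_le (D t - corr W M x (fun n => GG R n) (-t)) (corr W M x (fun n => GG R n) (-t))
          rwa [sub_add_cancel] at this
        calc |D t| ≤ CL * eM * x ^ (1 - 10 * uu) + x ^ (1 - 10 * uu) := by linarith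
          _ = (1 + CL * eM) * x ^ (1 - 10 * uu) := by ring
      refine (Finset.sum_le_sum h1).trans ?_
      rw [← Finset.sum_mul, mul_assoc]
      exact mul_le_mul_of_nonneg_right ((hPsum _).trans hKH) (by positivity)
  refine (norm_add_le _ _).trans ((add_le_add hA1 hA2).trans ?_)
  rw [le_div_iff₀ hH0]
  have h1 : (Iφ / H * x ^ (1 - uu / 2)) * H = Iφ * x ^ (1 - uu / 2) := by field_simp
  have hcoef : 0 ≤ K * (1 + CL * eM) + 1 := by positivity
  have hKx : 0 ≤ K * (1 + CL * eM) := by positivity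
  have hp10 : 0 < x ^ (1 - 10 * uu) := Real.rpow_pos_of_pos hx0 _
  have h2 : (K * (1 + CL * eM) * x ^ (1 - 10 * uu) + x ^ (-1 : ℝ)) * H ≤
      C0 * (K * (1 + CL * eM) + 1) * x ^ (1 - 9 * uu) := by
    calc (K * (1 + CL * eM) * x ^ (1 - 10 * uu) + x ^ (-1 : ℝ)) * H
        ≤ ((K * (1 + CL * eM) + 1) * x ^ (1 - 10 * uu)) * H := by
          refine mul_le_mul_of_nonneg_right ?_ hH0.le
          rw [add_mul, one_mul]
          linarith
      _ ≤ ((K * (1 + CL * eM) + 1) * x ^ (1 - 10 * uu)) * (C0 * x ^ uu) :=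
          mul_le_mul_of_nonneg_left hH2 (by positivity)
      _ = C0 * (K * (1 + CL * eM) + 1) * (x ^ (1 - 10 * uu) * x ^ uu) := by ring
      _ = C0 * (K * (1 + CL * eM) + 1) * x ^ (1 - 9 * uu) := by
          rw [← Real.rpow_add hx0]
          congr 2
          ring
  have h3 : 0 ≤ x ^ (1 - uu / 3) := by positivity
  calc (Iφ / H * x ^ (1 - uu / 2) + K * (1 + CL * eM) * x ^ (1 - 10 * uu) + x ^ (-1 : ℝ)) * H
      = Iφ * x ^ (1 - uu / 2) + (K * (1 + CL * eM) * x ^ (1 - 10 * uu) + x ^ (-1 : ℝ)) * H := by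
        rw [← h1]; ring
    _ ≤ x ^ (1 - uu / 3) := by
        have h4 : 3 * (C0 * (K * (1 + CL * eM) + 1)) * x ^ (1 - 9 * uu) =
          3 * (C0 * (K * (1 + CL * eM) + 1) * x ^ (1 - 9 * uu)) := by ring
        linarith

end H69BG
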