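import Pool.Agent.H69.BG.Phk
import Pool.Agent.H69.BG.Wll

/-!
# NRB: the change of variables `v = e^ξ`

With `x = T^α`, `y = α log T = log x`, `v = e^ξ`, `dv = e^ξ dξ`, `log(v/x) = ξ - y`:
* `‖b2 ξ‖² = e^ξ Wof2 χ (ξ - y) ‖be2(e^ξ)‖²`, so `∫ ‖b2‖² dξ = ∫_{v > 0} Wof2 χ(log(v/x)) ‖be2 v‖² dv ≤ ∫ Wl (Wof χ) x v ‖be2 v‖² dv` (`Wof2_le`).
* `bP ξ conj (b2 ξ) = e^ξ Wof2 χ(ξ - y) (∑_{p ∈ Th} cf p e(p.1/p.2 e^ξ)) conj be2(e^ξ)`.
`be2` is continuous and bounded (`Ph_smooth`, `Ph_decay`), the weights are continuous with compact support; all integrands are integrable.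
-/

open Finset H69LB MeasureTheory

namespace H69BG

theorem be2_cont {φ : ℝ → ℝ} (hφ : PH φ) (M x : ℝ) {H : ℝ} (hH : 0 < H) : Continuous (be2 φ M x H) := by
  unfold be2
  have h1 : Continuous (Ph φ H) := (Ph_smooth hφ hH).continuous
  refine continuous_finsetSum _ fun m _ => ?_
  exact continuous_const.mul (h1.comp (continuous_id.sub continuous_const))

private theorem nrb_HH (P : Par) (hP : P.Ok) {T : ℝ} (hT : 0 < T) (α : ℝ) : 0 < HH P T α :=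
  mul_pos hP.cH_pos (Real.rpow_pos_of_pos hT _)

theorem b2_cont {φ : ℝ → ℝ} (hφ : PH φ) {η1 η2 : ℝ} {χ : ℝ → ℝ} (h : Pc η1 η2 χ) (M : ℝ) (P : Par) (hP : P.Ok) {T : ℝ}
    (hT : 0 < T) (α : ℝ) : Continuous (b2 φ χ M P T α) := by
  have h1 := be2_cont hφ M (T ^ α) (nrb_HH P hP hT α)
  have h2 : Continuous χ := h.smooth.continuous
  unfold b2
  refine ((Complex.continuous_ofReal.comp ?_).mul (h1.comp Real.continuous_exp)).neg
  refine ((Real.continuous_exp.comp (continuous_id.div_const 2)).mul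
    (Real.continuous_exp.comp ((continuous_id.sub continuous_const).abs).neg)).mul
    (h2.comp (continuous_id.sub continuous_const))

/-- the change of variables -/
private theorem nrb_cov {E : Type*} [NormedAddCommGroup E] [NormedSpace ℝ E] (F : ℝ → E) (hF : ∀ v, v ≤ 0 → F v = 0) :
    ∫ v, F v = ∫ ξ, Real.exp ξ • F (Real.exp ξ) := by
  have h1 : ∫ v in Set.Ioi 0, F v = ∫ v, F v := by
    refine setIntegral_eq_integral_of_forall_compl_eq_zero fun v hv => ?_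
    exact hF v (not_lt.1 hv)
  have h2 := integral_image_eq_integral_abs_deriv_smul (f := Real.exp) (f' := Real.exp) (s := Set.univ) MeasurableSet.univ
    (fun x _ => (Real.hasDerivAt_exp x).hasDerivWithinAt) (Real.exp_injective.injOn) F
  rw [Set.image_univ, Real.range_exp, h1, setIntegral_univ] at h2
  rw [h2]
  refine integral_congr_ae (Filter.Eventually.of_forall fun ξ => ?_)
  simp only [abs_of_pos (Real.exp_pos ξ)]

private theorem nrb_Wl (W : ℝ → ℝ) {T : ℝ} (hT : 0 < T) (α ξ : ℝ) :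
    Wl W (T ^ α) (Real.exp ξ) = W (ξ - α * Real.log T) := by
  have hx : 0 < T ^ α := Real.rpow_pos_of_pos hT α
  rw [Wl, if_neg (not_le.2 (Real.exp_pos ξ)), Real.log_div (Real.exp_pos ξ).ne' hx.ne', Real.log_exp,
    Real.log_rpow hT]

private theorem nrb_wt (χ : ℝ → ℝ) (ξ y : ℝ) :
    (Real.exp (ξ / 2) * Real.exp (-|ξ - y|) * χ (ξ - y)) ^ 2 = Real.exp ξ * Wof2 χ (ξ - y) := by
  unfold Wof2
  have h1 : Real.exp ξ = Real.exp (ξ / 2) ^ 2 := by
    rw [← Real.exp_nat_mul]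
    congr 1
    push_cast
    ring
  have h2 : Real.exp (-(2 * |ξ - y|)) = Real.exp (-|ξ - y|) ^ 2 := by
    rw [← Real.exp_nat_mul]
    congr 1
    push_cast
    ring
  rw [h1, h2]
  ring

private theorem nrb_int {W : ℝ → ℝ} {M x : ℝ} (hW : WS M W) (hx : 0 < x) {G : ℝ → ℂ} (hG : Continuous G) :
    Integrable fun v => ((Wl W x v : ℝ) : ℂ) * G v := by
  have h1 : Continuous fun v => ((Wl W x v : ℝ) : ℂ) * G v :=
    (Complex.continuous_ofReal.comp (Wl_cont hW hx)).mul hG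
  refine h1.integrable_of_hasCompactSupport ?_
  have h2 : HasCompactSupport fun v => ((Wl W x v : ℝ) : ℂ) :=
    (Wl_comp hW hx).comp_left (g := fun t : ℝ => (t : ℂ)) Complex.ofReal_zero
  exact h2.mul_right

theorem nrmb {φ : ℝ → ℝ} (hφ : PH φ) {η1 η2 : ℝ} {χ : ℝ → ℝ} (h : Pc η1 η2 χ) {M : ℝ} (h1 : -M ≤ η1) (h2 : η2 ≤ M)
    (P : Par) (hP : P.Ok) {T : ℝ} (hT : 0 < T) (α : ℝ) :
    ∫ ξ, ‖b2 φ χ M P T α ξ‖ ^ 2 ≤ ∫ v, Wl (Wof χ) (T ^ α) v * ‖be2 φ M (T ^ α) (HH P T α) v‖ ^ 2 := by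
  have hx : 0 < T ^ α := Real.rpow_pos_of_pos hT α
  have hc := be2_cont hφ M (T ^ α) (nrb_HH P hP hT α)
  have hW1 := Wof_WS h h1 h2
  have hW2 := Wof2_WS h h1 h2
  have e1 : ∫ ξ, ‖b2 φ χ M P T α ξ‖ ^ 2 =
      ∫ v, Wl (Wof2 χ) (T ^ α) v * ‖be2 φ M (T ^ α) (HH P T α) v‖ ^ 2 := by
    rw [nrb_cov (fun v => Wl (Wof2 χ) (T ^ α) v * ‖be2 φ M (T ^ α) (HH P T α) v‖ ^ 2)
      (fun v hv => by simp only [Wl, if_pos hv, zero_mul])]
    refine integral_congr_ae (Filter.Eventually.of_forall fun ξ => ?_)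
    simp only [smul_eq_mul]
    rw [nrb_Wl _ hT, b2, norm_neg, norm_mul, mul_pow, Complex.norm_real, Real.norm_eq_abs, sq_abs, nrb_wt]
    ring
  rw [e1]
  have hint : ∀ W : ℝ → ℝ, WS M W → Integrable fun v => Wl W (T ^ α) v * ‖be2 φ M (T ^ α) (HH P T α) v‖ ^ 2 := by
    intro W hW
    have h3 : Continuous fun v => Wl W (T ^ α) v * ‖be2 φ M (T ^ α) (HH P T α) v‖ ^ 2 :=
      (Wl_cont hW hx).mul (hc.norm.pow 2)
    exact h3.integrable_of_hasCompactSupport (Wl_comp hW hx).mul_right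
  refine integral_mono (hint _ hW2) (hint _ hW1) fun v => ?_
  refine mul_le_mul_of_nonneg_right ?_ (sq_nonneg _)
  unfold Wl
  split_ifs
  · exact le_rfl
  · exact (Wof2_le h _).2

theorem crsb {φ : ℝ → ℝ} (hφ : PH φ) {η1 η2 : ℝ} {χ : ℝ → ℝ} (h : Pc η1 η2 χ) {M : ℝ} (h1 : -M ≤ η1) (h2 : η2 ≤ M)
    (P : Par) (hP : P.Ok) {T : ℝ} (hT : 0 < T) (α : ℝ) :
    ∫ ξ, bP χ P T α ξ * (starRingEnd ℂ) (b2 φ χ M P T α ξ) =
      ∑ p ∈ Th P T α, (cf p : ℂ) * ∫ v, ((Wl (Wof2 χ) (T ^ α) v : ℝ) : ℂ) * ee ((p.1 : ℝ) / p.2 * v) *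
        (starRingEnd ℂ) (be2 φ M (T ^ α) (HH P T α) v) := by
  have hx : 0 < T ^ α := Real.rpow_pos_of_pos hT α
  have hc := be2_cont hφ M (T ^ α) (nrb_HH P hP hT α)
  have hW2 := Wof2_WS h h1 h2
  have hee : ∀ c : ℝ, Continuous fun v : ℝ => ee (c * v) := by
    intro c
    unfold ee
    fun_prop
  have hint : ∀ p : ℕ × ℕ, Integrable fun v => ((Wl (Wof2 χ) (T ^ α) v : ℝ) : ℂ) * ee ((p.1 : ℝ) / p.2 * v) *
      (starRingEnd ℂ) (be2 φ M (T ^ α) (HH P T α) v) := by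
    intro p
    have h3 := nrb_int hW2 hx (G := fun v => ee ((p.1 : ℝ) / p.2 * v) *
      (starRingEnd ℂ) (be2 φ M (T ^ α) (HH P T α) v)) ((hee _).mul (Complex.continuous_conj.comp hc))
    refine h3.congr (Filter.Eventually.of_forall fun v => ?_)
    simp only
    ring
  have e1 : ∫ ξ, bP χ P T α ξ * (starRingEnd ℂ) (b2 φ χ M P T α ξ) =
      ∫ v, ∑ p ∈ Th P T α, (cf p : ℂ) * (((Wl (Wof2 χ) (T ^ α) v : ℝ) : ℂ) * ee ((p.1 : ℝ) / p.2 * v) *
        (starRingEnd ℂ) (be2 φ M (T ^ α) (HH P T α) v)) := by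
    rw [nrb_cov (fun v => ∑ p ∈ Th P T α, (cf p : ℂ) * (((Wl (Wof2 χ) (T ^ α) v : ℝ) : ℂ) * ee ((p.1 : ℝ) / p.2 * v) *
        (starRingEnd ℂ) (be2 φ M (T ^ α) (HH P T α) v)))
      (fun v hv => Finset.sum_eq_zero fun p _ => by simp only [Wl, if_pos hv, Complex.ofReal_zero, zero_mul, mul_zero])]
    refine integral_congr_ae (Filter.Eventually.of_forall fun ξ => ?_)
    simp only
    rw [nrb_Wl _ hT]
    have h3 := nrb_wt χ ξ (α * Real.log T)
    rw [bP, b2]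
    set w : ℝ := Real.exp (ξ / 2) * Real.exp (-|ξ - α * Real.log T|) * χ (ξ - α * Real.log T) with hw
    set B : ℂ := be2 φ M (T ^ α) (HH P T α) (Real.exp ξ) with hB
    have h4 : (starRingEnd ℂ) (-((w : ℂ) * B)) = -((w : ℂ) * (starRingEnd ℂ) B) := by
      rw [map_neg, map_mul, Complex.conj_ofReal]
    rw [h4, Complex.real_smul, Finset.mul_sum, Finset.mul_sum, neg_mul_neg, Finset.sum_mul]
    refine Finset.sum_congr rfl fun p _ => ?_
    have h5 : ((w : ℂ)) ^ 2 = ((Real.exp ξ : ℝ) : ℂ) * ((Wof2 χ (ξ - α * Real.log T) : ℝ) : ℂ) := by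
      rw [← Complex.ofReal_pow, h3, Complex.ofReal_mul]
    linear_combination (cf p : ℂ) * ee ((p.1 : ℝ) / p.2 * Real.exp ξ) * (starRingEnd ℂ) B * h5
  rw [e1, integral_finsetSum _ fun p _ => (hint p).const_mul _]
  refine Finset.sum_congr rfl fun p _ => ?_
  rw [integral_const_mul]

end H69BG
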