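import Pool.Agent.H69.BG.Cra
import Pool.Agent.H69.BG.Crb
import Pool.Agent.H69.BG.Crd
import Pool.Agent.H69.BG.Nrb

/-!
# CRO: the cross term of the two comparison functions

`W = Wof2 χ` (`Wof2_WS`), `x = T^α`, `H = HH P T α = cH T^{α-1}`, so `cH ≤ H ≤ cH x^{u}` (`T^{α-1} ≤ T^{u} ≤ x^{u}`) and `x/H = T/cH`. By `crsb` and `cra` (`θ = p.1/p.2`) the integral is, up to `∑_{Th} |cf| x^{5u} ≤ C (log T)² T^{1/2-ε} x^{5u} ≤ T/4` (`sum_abs_cf`),
`∑_m W(log(m/x)) g2(m) ∑_{p ∈ Th} cf p φ(H p.1/p.2) e(p.1/p.2 m)`. By `crb` (with `A ≥ R_1/(2H)`) and `poi` the inner sum is `∑_{r ∈ Ioc R_0 R_1} (μ(r)/φ(r)) ∑'_t Φ(t) c_r(m-t) = ∑'_t Φ(t) (G_{R_1}(m-t) - G_{R_0}(m-t))`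
(`R_0 = Rk 0 ≤ R_1 = Rk KK`, `Rk_mono`; all the series converge absolutely). Apply `crd` with `R = R_1` and `R = R_0`: `R_1 ≤ T^{1/2-ε} ≤ x^{1/2}` (`Rk_KK_le`, `0 < KK` for large `T`; if `KK = 0` the difference is `0`), `R_1 ≥ T^{1/2-ε}/(2(1+κ)) ≥ x^{(1/2-ε)/(1+u)}/3 ≥ x^{49998.5 u}` (`Rk_KK_ge`, `ε ≤ u/2`, `α ≤ 1+u`),
`R_0 = ⌈T^{α-1} (log T)^{120}⌉ ≤ x^{2/5}`. Total `≤ T/4 + 2 x^{1-u/3}/H = T/4 + 2 (T/cH) x^{-u/3} ≤ T`.
-/

open Finset H69LB MeasureTheory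

namespace H69BG

variable {ι : Type} [Countable ι] {γ w : ι → ℝ} {F : ℝ → Finset ι} {A : ℝ → ℝ} {k0 : ℝ}

private theorem Cro_uu : 0 < uu := by unfold uu; norm_num

private theorem Cro_log (n : ℕ) {s : ℝ} (hs : 0 < s) :
    ∀ᶠ T : ℝ in Filter.atTop, Real.log T ^ n ≤ T ^ s := by
  have hn : (0 : ℝ) < (n : ℝ) + 1 := by positivity
  have h1 : ∀ᶠ T : ℝ in Filter.atTop, ‖Real.log T‖ ≤ 1 * ‖T ^ (s / ((n : ℝ) + 1))‖ :=
    (isLittleO_log_rpow_atTop (div_pos hs hn)).bound one_pos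
  filter_upwards [h1, Filter.eventually_ge_atTop 1] with T h2 h3
  have hT : 0 < T := by linarith
  have hp : 0 < T ^ (s / ((n : ℝ) + 1)) := Real.rpow_pos_of_pos hT _
  rw [Real.norm_of_nonneg (Real.log_nonneg h3), Real.norm_of_nonneg hp.le, one_mul] at h2
  calc Real.log T ^ n ≤ (T ^ (s / ((n : ℝ) + 1))) ^ n :=
        pow_le_pow_left₀ (Real.log_nonneg h3) h2 n
    _ = T ^ (s / ((n : ℝ) + 1) * n) := by
        rw [Real.rpow_mul hT.le, Real.rpow_natCast]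
    _ ≤ T ^ s := by
        refine Real.rpow_le_rpow_of_exponent_le h3 ?_
        rw [div_mul_eq_mul_div, div_le_iff₀ hn]
        nlinarith

private theorem Cro_big {s : ℝ} (hs : 0 < s) (K : ℝ) : ∀ᶠ T : ℝ in Filter.atTop, K ≤ T ^ s :=
  (tendsto_rpow_atTop hs).eventually_ge_atTop K

/-- the conditions on `T` -/
private theorem Cro_ev (C1 cH : ℝ) : ∀ᶠ T : ℝ in Filter.atTop, 1 ≤ T ∧
    (0 ≤ C1 → C1 * Real.log T ^ 2 * T ^ (1 / 2 : ℝ) * T ^ (10 * uu) ≤ T / 4) ∧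
    T ^ uu * Real.log T ^ 120 + 1 ≤ T ^ (2 / 5 : ℝ) ∧ 3 ≤ T ^ (uu / 2) ∧ 8 / cH ≤ T ^ (uu / 3) := by
  have hu := Cro_uu
  have hun : uu = 1 / 100000 := rfl
  filter_upwards [Filter.eventually_ge_atTop (1 : ℝ), Cro_log 2 hu, Cro_log 120 hu,
    Cro_big (s := 1 / 2 - 11 * uu) (by rw [hun]; norm_num) (4 * C1),
    Cro_big (s := 2 / 5 - 2 * uu) (by rw [hun]; norm_num) 2,
    Cro_big (s := uu / 2) (by positivity) 3, Cro_big (s := uu / 3) (by positivity) (8 / cH)]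
    with T h1 h2 h3 h4 h5 h6 h7
  have hT : 0 < T := by linarith
  refine ⟨h1, fun hC1 => ?_, ?_, h6, h7⟩
  · have e1 : T ^ (1 / 2 - 11 * uu) * (T ^ uu * T ^ (1 / 2 : ℝ) * T ^ (10 * uu)) = T := by
      rw [← Real.rpow_add hT, ← Real.rpow_add hT, ← Real.rpow_add hT]
      have : 1 / 2 - 11 * uu + (uu + 1 / 2 + 10 * uu) = 1 := by ring
      rw [this, Real.rpow_one]
    have hp : 0 < T ^ uu * T ^ (1 / 2 : ℝ) * T ^ (10 * uu) := by positivity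
    calc C1 * Real.log T ^ 2 * T ^ (1 / 2 : ℝ) * T ^ (10 * uu)
        ≤ C1 * T ^ uu * T ^ (1 / 2 : ℝ) * T ^ (10 * uu) := by gcongr
      _ = (4 * C1) * (T ^ uu * T ^ (1 / 2 : ℝ) * T ^ (10 * uu)) / 4 := by ring
      _ ≤ T ^ (1 / 2 - 11 * uu) * (T ^ uu * T ^ (1 / 2 : ℝ) * T ^ (10 * uu)) / 4 := by gcongr
      _ = T / 4 := by rw [e1]
  · have e1 : T ^ (2 / 5 - 2 * uu) * (T ^ uu * T ^ uu) = T ^ (2 / 5 : ℝ) := by
      rw [← Real.rpow_add hT, ← Real.rpow_add hT]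
      congr 1
      ring
    have h8 : 1 ≤ T ^ uu := Real.one_le_rpow h1 hu.le
    have h9 : 1 ≤ T ^ uu * T ^ uu := one_le_mul_of_one_le_of_one_le h8 h8
    calc T ^ uu * Real.log T ^ 120 + 1 ≤ T ^ uu * T ^ uu + T ^ uu * T ^ uu := by
          refine add_le_add ?_ h9
          exact mul_le_mul_of_nonneg_left h3 (by positivity)
      _ = 2 * (T ^ uu * T ^ uu) := by ring
      _ ≤ T ^ (2 / 5 - 2 * uu) * (T ^ uu * T ^ uu) := by gcongr
      _ = T ^ (2 / 5 : ℝ) := e1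

/-- the Poisson series of `G_R` -/
private theorem Cro_GG {φ : ℝ → ℝ} (hφ : PH φ) {H : ℝ} (hH : 0 < H) (R : ℕ) (m : ℤ) :
    ∑' t : ℤ, Ph φ H t * (GG R (m - t) : ℂ) = ∑ r ∈ Icc 1 R,
      (((ArithmeticFunction.moebius r : ℝ) / (Nat.totient r : ℝ) : ℝ) : ℂ) *
        ∑' t : ℤ, Ph φ H t * (cr r (m - t) : ℂ) := by
  have h1 : ∀ r ∈ Icc 1 R, Summable (fun t : ℤ =>
      (((ArithmeticFunction.moebius r : ℝ) / (Nat.totient r : ℝ) : ℝ) : ℂ) *
        (Ph φ H t * (cr r (m - t) : ℂ))) := by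
    intro r hr
    obtain ⟨A, hA⟩ := exists_nat_ge ((r : ℝ) / (2 * H))
    exact (poi hφ hH (mem_Icc.1 hr).1 hA m).1.mul_left _
  simp_rw [← tsum_mul_left]
  rw [← Summable.tsum_finsetSum h1]
  refine tsum_congr fun t => ?_
  unfold GG
  push_cast
  rw [Finset.mul_sum]
  refine Finset.sum_congr rfl fun r _ => ?_
  ring

/-- the window sum as a difference of two Poisson series -/
private theorem Cro_win {φ : ℝ → ℝ} (hφ : PH φ) {H : ℝ} (hH : 0 < H) {R0 R1 : ℕ} (h01 : R0 ≤ R1)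
    {A : ℕ} (hA : (R1 : ℝ) / (2 * H) ≤ A) (m : ℤ) :
    ∑ r ∈ Ioc R0 R1, (((ArithmeticFunction.moebius r : ℝ) / (Nat.totient r : ℝ) : ℝ) : ℂ) *
        ∑ a ∈ (Icc 1 A).filter (fun a => Nat.Coprime a r), ((φ (H * a / r) : ℝ) : ℂ) *
          ee ((a : ℝ) * m / r) =
      ∑' t : ℤ, Ph φ H t * (GG R1 (m - t) : ℂ) - ∑' t : ℤ, Ph φ H t * (GG R0 (m - t) : ℂ) := by
  rw [Cro_GG hφ hH, Cro_GG hφ hH]
  have e1 : Icc 1 R1 = Icc 1 R0 ∪ Ioc R0 R1 := by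
    ext r
    simp only [mem_union, mem_Icc, mem_Ioc]
    omega
  have e2 : Disjoint (Icc 1 R0) (Ioc R0 R1) := by
    rw [Finset.disjoint_left]
    intro r h1 h2
    simp only [mem_Icc, mem_Ioc] at h1 h2
    omega
  rw [e1, Finset.sum_union e2, add_sub_cancel_left]
  refine Finset.sum_congr rfl fun r hr => ?_
  rw [mem_Ioc] at hr
  congr 1
  have hr1 : 1 ≤ r := by omega
  have hrA : (r : ℝ) / (2 * H) ≤ A := by
    refine le_trans ?_ hA
    have : (r : ℝ) ≤ R1 := by exact_mod_cast hr.2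
    gcongr
  exact (poi hφ hH hr1 hrA m).2.symm

theorem cro (Z : Zer γ w F A k0) {φ : ℝ → ℝ} (hφ : PH φ) {η1 η2 : ℝ} {χ : ℝ → ℝ} (h : Pc η1 η2 χ) {M : ℝ} (hM : 0 < M)
    (h1 : -M ≤ η1) (h2 : η2 ≤ M) (P : Par) (hP : P.Ok) (hδ : P.δ < 1 / 4) (hε : P.ε ≤ uu / 2) :
    ∃ T0 : ℝ, ∀ T, T0 ≤ T → ∀ α : ℝ, 1 ≤ α → α ≤ 1 + uu →
      ‖∫ ξ, bP χ P T α ξ * (starRingEnd ℂ) (b2 φ χ M P T α ξ)‖ ≤ T := by
  have hu := Cro_uu
  have hun : uu = 1 / 100000 := rfl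
  have hcH := hP.cH_pos
  have hW : WS M (Wof2 χ) := Wof2_WS h h1 h2
  obtain ⟨x1, hx1⟩ := cra hφ hM hW (c0 := P.cH) (C0 := P.cH) hcH
  obtain ⟨x2, hx2⟩ := crd Z hφ hM hW (c0 := P.cH) (C0 := P.cH) hcH
  obtain ⟨T1, hT1⟩ := crb hφ P hP hδ
  obtain ⟨C1, T2, hC1, hT2⟩ := sum_abs_cf P hP
  obtain ⟨T3, hT3⟩ := Rk_KK_le P hP
  obtain ⟨T4, hT4⟩ := Rk_KK_ge P hP
  have hev := (Cro_ev C1 P.cH).and ((Filter.eventually_ge_atTop x1).and
    ((Filter.eventually_ge_atTop x2).and ((Filter.eventually_ge_atTop T1).and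
      ((Filter.eventually_ge_atTop T2).and ((Filter.eventually_ge_atTop T3).and
        (Filter.eventually_ge_atTop T4))))))
  obtain ⟨T0, hT0⟩ := Filter.eventually_atTop.1 hev
  refine ⟨T0, fun T hT α hα1 hα2 => ?_⟩
  obtain ⟨⟨hT1', hE5, hE6, hE7, hE8⟩, hTx1, hTx2, hTT1, hTT2, hTT3, hTT4⟩ := hT0 T hT
  have hTp : 0 < T := by linarith
  set x : ℝ := T ^ α with hx
  set H : ℝ := HH P T α with hHdef
  have hHe : H = P.cH * T ^ (α - 1) := rfl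
  have hTa1 : 1 ≤ T ^ (α - 1) := Real.one_le_rpow hT1' (by linarith)
  have hTax : T ≤ x := by
    calc T = T ^ (1 : ℝ) := (Real.rpow_one T).symm
      _ ≤ x := Real.rpow_le_rpow_of_exponent_le hT1' hα1
  have hxp : 0 < x := by linarith
  have hx1' : 1 ≤ x := by linarith
  have hHc : P.cH ≤ H := by
    rw [hHe]
    exact le_mul_of_one_le_right hcH.le hTa1
  have hHp : 0 < H := by linarith
  have hHx : H ≤ P.cH * x ^ uu := by
    rw [hHe]
    refine mul_le_mul_of_nonneg_left ?_ hcH.le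
    calc T ^ (α - 1) ≤ T ^ uu := Real.rpow_le_rpow_of_exponent_le hT1' (by linarith)
      _ ≤ x ^ uu := Real.rpow_le_rpow hTp.le hTax hu.le
  have hmul : ∀ s : ℝ, x ^ s = T ^ (α * s) := by
    intro s
    rw [hx, ← Real.rpow_mul hTp.le]
  -- the sum over the frequencies
  set Wm' : ℕ → ℂ := fun m => ((Wof2 χ (Real.log (m / x)) * g2 x m : ℝ) : ℂ) with hWm
  set S : ℕ × ℕ → ℂ := fun p => ∑ m ∈ Icc 1 (NN (M + 1) x), Wm' m *
    (((φ (H * ((p.1 : ℝ) / p.2)) : ℝ) : ℂ) * ee ((p.1 : ℝ) / p.2 * m)) with hS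
  set I : ℕ × ℕ → ℂ := fun p => ∫ v, ((Wl (Wof2 χ) x v : ℝ) : ℂ) * ee ((p.1 : ℝ) / p.2 * v) *
        (starRingEnd ℂ) (be2 φ M x H v) with hI
  have hint : ∫ ξ, bP χ P T α ξ * (starRingEnd ℂ) (b2 φ χ M P T α ξ) =
      ∑ p ∈ Th P T α, (cf p : ℂ) * I p := crsb hφ h h1 h2 P hP hTp α
  have hIS : ∀ p, ‖I p - S p‖ ≤ x ^ (5 * uu) := fun p =>
    hx1 x (hTx1.trans hTax) H hHc hHx ((p.1 : ℝ) / p.2)
  have hdiff : ‖∑ p ∈ Th P T α, (cf p : ℂ) * I p - ∑ p ∈ Th P T α, (cf p : ℂ) * S p‖ ≤ T / 4 := by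
    rw [← Finset.sum_sub_distrib]
    refine (norm_sum_le _ _).trans ?_
    calc ∑ p ∈ Th P T α, ‖(cf p : ℂ) * I p - (cf p : ℂ) * S p‖
        ≤ ∑ p ∈ Th P T α, |cf p| * x ^ (5 * uu) := by
          refine Finset.sum_le_sum fun p _ => ?_
          rw [← mul_sub, norm_mul, Complex.norm_real, Real.norm_eq_abs]
          exact mul_le_mul_of_nonneg_left (hIS p) (abs_nonneg _)
      _ = (∑ p ∈ Th P T α, |cf p|) * x ^ (5 * uu) := by rw [Finset.sum_mul]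
      _ ≤ (C1 * Real.log T ^ 2 * T ^ (1 / 2 : ℝ)) * T ^ (10 * uu) := by
          refine mul_le_mul ?_ ?_ (by positivity) (by positivity)
          · refine (hT2 T hTT2 α hα1).trans ?_
            refine (div_le_self (by positivity) hTa1).trans ?_
            refine mul_le_mul_of_nonneg_left ?_ (by positivity)
            exact Real.rpow_le_rpow_of_exponent_le hT1' (by linarith [hP.ε_pos])
          · rw [hmul]
            refine Real.rpow_le_rpow_of_exponent_le hT1' ?_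
            rw [hun] at hα2 ⊢
            linarith
      _ ≤ T / 4 := hE5 hC1
  -- exchange
  have hex : ∑ p ∈ Th P T α, (cf p : ℂ) * S p = ∑ m ∈ Icc 1 (NN (M + 1) x), Wm' m *
      ∑ p ∈ Th P T α, (cf p : ℂ) * (((φ (H * ((p.1 : ℝ) / p.2)) : ℝ) : ℂ) *
        ee ((p.1 : ℝ) / p.2 * ((m : ℤ) : ℝ))) := by
    simp only [hS]
    simp_rw [Finset.mul_sum]
    rw [Finset.sum_comm]
    refine Finset.sum_congr rfl fun m _ => Finset.sum_congr rfl fun p _ => ?_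
    rw [Int.cast_natCast]
    ring
  set R0 : ℕ := Rk P T α 0 with hR0
  set R1 : ℕ := Rk P T α (KK P T α) with hR1
  have h01 : R0 ≤ R1 := Rk_mono P hP hT1' (Nat.zero_le _)
  obtain ⟨N, hN⟩ := exists_nat_ge ((R1 : ℝ) / (2 * H))
  set D : ℕ → ℂ := fun R => ∑ m ∈ Icc 1 (NN (M + 1) x), Wm' m *
        ∑' t : ℤ, Ph φ H t * (GG R ((m : ℤ) - t) : ℂ) with hD
  have hsumD : ∑ p ∈ Th P T α, (cf p : ℂ) * S p = D R1 - D R0 := by
    rw [hex]
    simp only [hD]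
    rw [← Finset.sum_sub_distrib]
    refine Finset.sum_congr rfl fun m _ => ?_
    rw [← mul_sub]
    congr 1
    rw [hT1 T hTT1 α hα1 N hN (m : ℤ)]
    exact Cro_win hφ hHp h01 hN (m : ℤ)
  have hxH : x ^ (1 - uu / 3) / H ≤ T / 8 := by
    have e1 : x / H = T / P.cH := by
      rw [hHe, hx]
      have e2 : T ^ α = T ^ (α - 1) * T := by
        conv_lhs => rw [show α = (α - 1) + 1 by ring]
        rw [Real.rpow_add hTp, Real.rpow_one]
      rw [e2]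
      have e3 : T ^ (α - 1) ≠ 0 := by positivity
      field_simp
    have e2 : x ^ (1 - uu / 3) = x / x ^ (uu / 3) := by
      rw [Real.rpow_sub hxp, Real.rpow_one]
    have e3 : 8 / P.cH ≤ x ^ (uu / 3) :=
      hE8.trans (Real.rpow_le_rpow hTp.le hTax (by positivity))
    have e4 : 0 < x ^ (uu / 3) := by positivity
    rw [e2, div_right_comm, e1, div_div, div_le_div_iff₀ (by positivity) (by norm_num)]
    rw [div_le_iff₀ hcH] at e3
    nlinarith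
  have hR0x : (R0 : ℝ) ≤ x ^ (2 / 5 : ℝ) := by
    have hl : 0 ≤ Real.log T := Real.log_nonneg hT1'
    have e0 : 0 ≤ H69LB.h1 T α := by
      unfold H69LB.h1
      positivity
    have e1 : (R0 : ℝ) ≤ H69LB.h1 T α + 1 := by
      have e2 : (R0 : ℝ) < H69LB.h1 T α * (1 + P.κ) ^ 0 + 1 := by
        rw [hR0]
        unfold Rk
        exact Nat.ceil_lt_add_one (by rw [pow_zero, mul_one]; exact e0)
      rw [pow_zero, mul_one] at e2
      exact e2.le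
    have e2 : H69LB.h1 T α ≤ T ^ uu * Real.log T ^ 120 := by
      unfold H69LB.h1
      refine mul_le_mul_of_nonneg_right ?_ (by positivity)
      exact Real.rpow_le_rpow_of_exponent_le hT1' (by linarith)
    calc (R0 : ℝ) ≤ T ^ uu * Real.log T ^ 120 + 1 := by linarith
      _ ≤ T ^ (2 / 5 : ℝ) := hE6
      _ ≤ x ^ (2 / 5 : ℝ) := Real.rpow_le_rpow hTp.le hTax (by norm_num)
  have hR0x' : (R0 : ℝ) ≤ x ^ (1 / 2 : ℝ) :=
    hR0x.trans (Real.rpow_le_rpow_of_exponent_le hx1' (by norm_num))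
  have hD0 : ‖D R0‖ ≤ T / 8 :=
    (hx2 x (hTx2.trans hTax) H hHc hHx R0 hR0x' (Or.inl hR0x)).trans hxH
  have hD1 : ‖D R1 - D R0‖ ≤ T / 4 := by
    rcases Nat.eq_zero_or_pos (KK P T α) with hK | hK
    · have e1 : R1 = R0 := by rw [hR1, hR0, hK]
      rw [e1, sub_self, norm_zero]
      positivity
    · have e1 : (R1 : ℝ) ≤ x ^ (1 / 2 : ℝ) := by
        calc (R1 : ℝ) ≤ T ^ (1 / 2 - P.ε) := hT3 T hTT3 α hα1 hK
          _ ≤ T ^ (1 / 2 : ℝ) := Real.rpow_le_rpow_of_exponent_le hT1' (by linarith [hP.ε_pos])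
          _ ≤ x ^ (1 / 2 : ℝ) := Real.rpow_le_rpow hTp.le hTax (by norm_num)
      have e2 : x ^ (99997 / 2 * uu) ≤ R1 := by
        refine le_trans ?_ (hT4 T hTT4 α hα1)
        have hκ := hP.κ_le
        have hκ0 := hP.κ_pos
        rw [le_div_iff₀ (by positivity)]
        have e3 : x ^ (99997 / 2 * uu) ≤ T ^ ((1 + uu) * (99997 / 2 * uu)) := by
          rw [hmul]
          refine Real.rpow_le_rpow_of_exponent_le hT1' ?_
          exact mul_le_mul_of_nonneg_right hα2 (by positivity)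
        have e4 : 2 * (1 + P.κ) ≤ T ^ (uu / 2) := by linarith
        calc x ^ (99997 / 2 * uu) * (2 * (1 + P.κ))
            ≤ T ^ ((1 + uu) * (99997 / 2 * uu)) * T ^ (uu / 2) :=
              mul_le_mul e3 e4 (by positivity) (by positivity)
          _ = T ^ ((1 + uu) * (99997 / 2 * uu) + uu / 2) := by rw [Real.rpow_add hTp]
          _ ≤ T ^ (1 / 2 - P.ε) := by
              refine Real.rpow_le_rpow_of_exponent_le hT1' ?_
              rw [hun] at hε ⊢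
              linarith
      have e3 : ‖D R1‖ ≤ T / 8 :=
        (hx2 x (hTx2.trans hTax) H hHc hHx R1 e1 (Or.inr e2)).trans hxH
      refine (norm_sub_le _ _).trans ?_
      linarith
  rw [hint]
  have hfin : ∑ p ∈ Th P T α, (cf p : ℂ) * I p =
      (∑ p ∈ Th P T α, (cf p : ℂ) * I p - ∑ p ∈ Th P T α, (cf p : ℂ) * S p) + (D R1 - D R0) := by
    rw [← hsumD]
    ring
  rw [hfin]
  refine (norm_add_le _ _).trans ?_
  linarith

end H69BG
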