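import Pool.Agent.H69.BG.Nrm
import Pool.Agent.H69.BG.Cro

/-!
# ARI: the arithmetic input of the second comparison function, in terms of `T` and `α`

`x = T^α`, `H = HH P T α = cH T^{α-1}`, `cH ≤ H ≤ cH x^u` for `1 ≤ α ≤ 1 + u`, `T ≥ 1`; `x ≥ T`.
* `ari_lam`: `lamside` (`Shf.lean`) with `W = Wof χ` (`Wof_WS`), `c0 = C0 = cH`, `x^{1-9u} ≤ T^{(1+u)(1-9u)} ≤ T^{1-7u}`, and `Ph_zero` (`conj (Φ(0)) = Φ(0) = (∫ φ)/H`).
* `ari_nrm`: `nrmb` (`Nrb.lean`) and `nrm` (`Nrm.lean`) with `W = Wof χ ≥ 0`; `x^{1-8u} ≤ T`. The constant depends on `φ` only.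
-/

open Finset H69LB MeasureTheory

namespace H69BG

private theorem Ari_facts (P : Par) (hP : P.Ok) {T : ℝ} (hT : 1 ≤ T) {α : ℝ} (hα : 1 ≤ α) (hα2 : α ≤ 1 + uu) :
    T ≤ T ^ α ∧ P.cH ≤ HH P T α ∧ HH P T α ≤ P.cH * (T ^ α) ^ uu ∧ (T ^ α) ^ (1 - 9 * uu) ≤ T ∧
      (T ^ α) ^ (1 - 8 * uu) ≤ T := by
  have hu : (0 : ℝ) < uu := by unfold uu; norm_num
  have hu1 : uu ≤ 1 / 100 := by unfold uu; norm_num
  have hT0 : 0 < T := by linarith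
  have hc := hP.cH_pos
  refine ⟨?_, ?_, ?_, ?_, ?_⟩
  · calc T = T ^ (1 : ℝ) := (Real.rpow_one T).symm
      _ ≤ T ^ α := Real.rpow_le_rpow_of_exponent_le hT hα
  · unfold HH
    have h1 : 1 ≤ T ^ (α - 1) := Real.one_le_rpow hT (by linarith)
    nlinarith
  · unfold HH
    refine mul_le_mul_of_nonneg_left ?_ hc.le
    rw [← Real.rpow_mul hT0.le]
    refine Real.rpow_le_rpow_of_exponent_le hT ?_
    nlinarith
  · rw [← Real.rpow_mul hT0.le]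
    calc T ^ (α * (1 - 9 * uu)) ≤ T ^ (1 : ℝ) := by
          refine Real.rpow_le_rpow_of_exponent_le hT ?_
          have h1 : α * (1 - 9 * uu) ≤ (1 + uu) * (1 - 9 * uu) :=
            mul_le_mul_of_nonneg_right hα2 (by linarith)
          nlinarith
      _ = T := Real.rpow_one T
  · rw [← Real.rpow_mul hT0.le]
    calc T ^ (α * (1 - 8 * uu)) ≤ T ^ (1 : ℝ) := by
          refine Real.rpow_le_rpow_of_exponent_le hT ?_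
          have h1 : α * (1 - 8 * uu) ≤ (1 + uu) * (1 - 8 * uu) :=
            mul_le_mul_of_nonneg_right hα2 (by linarith)
          nlinarith
      _ = T := Real.rpow_one T

theorem ari_lam {φ : ℝ → ℝ} (hφ : PH φ) {η1 η2 : ℝ} {χ : ℝ → ℝ} (h : Pc η1 η2 χ) {M : ℝ} (hM : 0 < M)
    (h1 : -M ≤ η1) (h2 : η2 ≤ M) (P : Par) (hP : P.Ok) :
    ∃ T0 : ℝ, ∀ T, T0 ≤ T → ∀ α : ℝ, 1 ≤ α → α ≤ 1 + uu →
      ‖∑ n ∈ Icc 1 (NN M (T ^ α)), ((ArithmeticFunction.vonMangoldt n * Wof χ (Real.log (n / T ^ α)) : ℝ) : ℂ) *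
          (starRingEnd ℂ) (be2 φ M (T ^ α) (HH P T α) n) -
        ((1 / HH P T α * (∫ θ, φ θ) *
          corr (Wof χ) M (T ^ α) (fun n => ArithmeticFunction.vonMangoldt n) 0 : ℝ) : ℂ)‖ ≤ T := by
  obtain ⟨x0, hx0⟩ := lamside hφ hM (Wof_WS h h1 h2) (C0 := P.cH) hP.cH_pos
  refine ⟨max 1 x0, fun T hT α hα hα2 => ?_⟩
  have hT1 : 1 ≤ T := le_trans (le_max_left _ _) hT
  obtain ⟨hf1, hf2, hf3, hf4, -⟩ := Ari_facts P hP hT1 hα hα2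
  have hx : x0 ≤ T ^ α := le_trans (le_trans (le_max_right _ _) hT) hf1
  have key := hx0 (T ^ α) hx (HH P T α) hf2 hf3
  have hH : 0 < HH P T α := lt_of_lt_of_le hP.cH_pos hf2
  rw [Ph_zero hφ hH, Complex.conj_ofReal, ← Complex.ofReal_mul] at key
  exact key.trans hf4

theorem ari_nrm {φ : ℝ → ℝ} (hφ : PH φ) : ∃ C : ℝ, 0 < C ∧ ∀ (η1 η2 : ℝ) (χ : ℝ → ℝ), Pc η1 η2 χ → ∀ M : ℝ, 0 < M →
    -M ≤ η1 → η2 ≤ M → ∀ P : Par, P.Ok →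
    ∃ T0 : ℝ, ∀ T, T0 ≤ T → ∀ α : ℝ, 1 ≤ α → α ≤ 1 + uu →
      ∫ ξ, ‖b2 φ χ M P T α ξ‖ ^ 2 ≤
        C / HH P T α * corr (Wof χ) M (T ^ α) (fun n => g2 (T ^ α) n) 0 + T := by
  obtain ⟨C, hC, hnrm⟩ := nrm hφ
  refine ⟨C, hC, fun η1 η2 χ h M hM h1 h2 P hP => ?_⟩
  have hW0 : ∀ η, 0 ≤ Wof χ η := fun η => by
    unfold Wof
    exact mul_nonneg (Real.exp_pos _).le (h.nonneg η)
  obtain ⟨x0, hx0⟩ := hnrm M hM (Wof χ) (Wof_WS h h1 h2) hW0 P.cH P.cH hP.cH_pos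
  refine ⟨max 1 x0, fun T hT α hα hα2 => ?_⟩
  have hT1 : 1 ≤ T := le_trans (le_max_left _ _) hT
  have hT0 : 0 < T := by linarith
  obtain ⟨hf1, hf2, hf3, -, hf5⟩ := Ari_facts P hP hT1 hα hα2
  have hx : x0 ≤ T ^ α := le_trans (le_trans (le_max_right _ _) hT) hf1
  have key := hx0 (T ^ α) hx (HH P T α) hf2 hf3
  have hb := nrmb hφ h h1 h2 P hP hT0 α
  linarith

end H69BG
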