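import Pool.Agent.H69.BG.Ein

/-!
# BAD: the bad tuples

`NN2 ≤ 2 #{m < 4M : ...}`; `m ≥ 1` (`psi M 0 = 0`). Let `r q ∣ m k - t`, `r q' ∣ m k' - t` (`m k - t ≠ 0`, `|m k - t| ≤ N`, the same for `k'`; hypothesis `hN`).
As `0 < |t| ≤ z`, every prime `p ∣ r q q'` is prime to `t`, so `gcd(m k, r q) = 1`, `gcd(m k', r q') = 1`. If the tuple is bad there is a prime `p` in
`P i`, `i ∈ I1 ∪ I2` (so `p ∤ r`), with
(a) `p ∣ q`, `p ∣ q'`: then `m k ≡ t ≡ m k'` mod `r p`, so `k' ≡ k` mod `r p`;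
(b) `p ∣ q'`, `p ∣ k` (the cases `p ∣ q`, `p ∣ k` and `p ∣ q'`, `p ∣ k'` are impossible): `k' ≡ k` mod `r` and `m k' ≡ t` mod `p`: one class mod `r p`.
In both cases, for given `m` (`< 4M`) and `k` (`K` values): `r ∣ m k - t`: at most `Cd` choices; `q ∣ m k - t`: at most `Cd`; in (a) `p ∣ q`: at most `9` choices; in (b)
`p ∣ k`, `p ∈ P i`: at most `9 Cd` choices; then `k' ∈ (K, 2K]` in one class mod `r p ≥ R z`: at most `K/(R z) + 1` choices; then `q' ∣ m k' - t`: at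
most `Cd`. Total `≤ 2 · 4M · K · (9 Cd³ + 9 Cd⁴)(K/(R z) + 1) ≤ 144 Cd⁴ M K (K/(Rz) + 1)`.
-/

open Finset

namespace H69BG

private theorem BAD_count {K n : ℕ} (hn : 1 ≤ n) (S : Finset ℕ) (hS : S ⊆ Ioc K (2 * K))
    (h : ∀ x ∈ S, ∀ y ∈ S, (n : ℤ) ∣ (x : ℤ) - y) : (S.card : ℝ) ≤ K / n + 1 := by
  rcases S.eq_empty_or_nonempty with rfl | hne
  · simp only [card_empty, CharP.cast_eq_zero]
    positivity
  · have hm := S.min'_mem hne
    set x0 := S.min' hne with hx0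
    have hle : ∀ x ∈ S, x0 ≤ x := fun x hx => S.min'_le x hx
    have hdv : ∀ x ∈ S, n ∣ x - x0 := by
      intro x hx
      have h2 := h x hx x0 hm
      have h3 : ((x - x0 : ℕ) : ℤ) = (x : ℤ) - x0 := by
        rw [Nat.cast_sub (hle x hx)]
      rw [← h3] at h2
      exact_mod_cast h2
    have h1 : S.card ≤ (range (K / n + 1)).card := by
      apply Finset.card_le_card_of_injOn (fun x => (x - x0) / n)
      · intro x hx
        have e1 := hS hx
        have e2 := hS hm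
        simp only [Finset.mem_Ioc] at e1 e2
        simp only [coe_range, Set.mem_Iio]
        have e3 : x - x0 ≤ K := by omega
        have e4 : (x - x0) / n ≤ K / n := Nat.div_le_div_right e3
        omega
      · intro x hx y hy hxy
        simp only at hxy
        have e1 := Nat.div_mul_cancel (hdv x hx)
        have e2 := Nat.div_mul_cancel (hdv y hy)
        rw [hxy, e2] at e1
        have e3 := hle x hx
        have e4 := hle y hy
        omega
    rw [card_range] at h1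
    have h2 : ((K / n : ℕ) : ℝ) ≤ (K : ℝ) / n := Nat.cast_div_le
    have h3 : (S.card : ℝ) ≤ ((K / n + 1 : ℕ) : ℝ) := by exact_mod_cast h1
    push_cast at h3
    linarith

private theorem BAD_ndvd {P : ℕ → Finset ℕ} {z : ℕ} (hS : Sy P z) {I : Finset ℕ} {t : ℤ} (ht : t ≠ 0) (htz : |t| ≤ z)
    {s p : ℕ} (hs : s ∈ SI P I) (hp : p.Prime) (hps : p ∣ s) : ¬ (p : ℤ) ∣ t := by
  intro h
  obtain ⟨i, hi, hpi⟩ := (SI_primeFactors hS hs).1 p hp hps
  have h1 := hS.gt i p hpi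
  have h2 : (p : ℤ) ≤ |t| := by
    have := Int.le_of_dvd (abs_pos.mpr ht) ((dvd_abs _ _).mpr h)
    exact this
  have h3 : (z : ℤ) < p := by exact_mod_cast h1
  linarith

private theorem BAD_point {P : ℕ → Finset ℕ} {z : ℕ} (hS : Sy P z) {I I1 I2 : Finset ℕ}
    {t : ℤ} (ht : t ≠ 0) (htz : |t| ≤ z) {m k k' r q q' : ℕ} (hr : r ∈ SI P I) (hq : q ∈ SI P I1) (hq' : q' ∈ SI P I2)
    (hb : ¬ good q q' k k') (ha : ((r * q : ℕ) : ℤ) ∣ m * k - t) (hb' : ((r * q' : ℕ) : ℤ) ∣ m * k' - t) :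
    (∃ p ∈ q.primeFactors, ((r * p : ℕ) : ℤ) ∣ (k' : ℤ) - k) ∨
      (∃ i ∈ I2, ∃ p ∈ P i, p ∣ k ∧ Nat.Coprime m (r * p) ∧ ((r * p : ℕ) : ℤ) ∣ m * k' - t) := by
  have hra : (r : ℤ) ∣ m * k - t := dvd_trans (by push_cast; exact dvd_mul_right _ _) ha
  have hqa : (q : ℤ) ∣ m * k - t := dvd_trans (by push_cast; exact dvd_mul_left _ _) ha
  have hqb : (q' : ℤ) ∣ m * k' - t := dvd_trans (by push_cast; exact dvd_mul_left _ _) hb'
  -- a prime dividing r and m: impossible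
  have key : ∀ p : ℕ, p.Prime → p ∣ r → ¬ p ∣ m := by
    intro p hp hpr hpm
    apply BAD_ndvd hS ht htz hr hp hpr
    have e1 : (p : ℤ) ∣ m * k - t := dvd_trans (by exact_mod_cast hpr) hra
    have e2 : (p : ℤ) ∣ (m : ℤ) * k := dvd_mul_of_dvd_left (by exact_mod_cast hpm) _
    have e3 := dvd_sub e2 e1
    simpa using e3
  have cop : ∀ p : ℕ, p.Prime → ¬ p ∣ m → Nat.Coprime m (r * p) := by
    intro p hp hpm
    apply Nat.Coprime.mul_right
    · rw [Nat.Coprime, ← Nat.coprime_iff_gcd_eq_one]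
      apply Nat.Coprime.symm
      apply Nat.coprime_of_dvd
      intro l hl hlr hlm
      exact key l hl hlr hlm
    · exact ((Nat.Prime.coprime_iff_not_dvd hp).mpr hpm).symm
  unfold good at hb
  by_cases c1 : Nat.Coprime q q'
  · by_cases c2 : Nat.Coprime (q * q') k
    · -- then q', k' not coprime : impossible
      have c3 : ¬ Nat.Coprime q' k' := fun h => hb ⟨c1, c2, h⟩
      obtain ⟨p, hp, hpq, hpk⟩ := Nat.Prime.not_coprime_iff_dvd.mp c3
      exfalso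
      apply BAD_ndvd hS ht htz hq' hp hpq
      have e1 : (p : ℤ) ∣ m * k' - t := dvd_trans (by exact_mod_cast hpq) hqb
      have e2 : (p : ℤ) ∣ (m : ℤ) * k' := dvd_mul_of_dvd_right (by exact_mod_cast hpk) _
      have e3 := dvd_sub e2 e1
      simpa using e3
    · obtain ⟨p, hp, hpq, hpk⟩ := Nat.Prime.not_coprime_iff_dvd.mp c2
      rcases (Nat.Prime.dvd_mul hp).mp hpq with hpq | hpq
      · exfalso
        apply BAD_ndvd hS ht htz hq hp hpq
        have e1 : (p : ℤ) ∣ m * k - t := dvd_trans (by exact_mod_cast hpq) hqa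
        have e2 : (p : ℤ) ∣ (m : ℤ) * k := dvd_mul_of_dvd_right (by exact_mod_cast hpk) _
        have e3 := dvd_sub e2 e1
        simpa using e3
      · right
        obtain ⟨i, hi, hpi⟩ := (SI_primeFactors hS hq').1 p hp hpq
        refine ⟨i, hi, p, hpi, hpk, cop p hp ?_, ?_⟩
        · intro hpm
          apply BAD_ndvd hS ht htz hq' hp hpq
          have e1 : (p : ℤ) ∣ m * k' - t := dvd_trans (by exact_mod_cast hpq) hqb
          have e2 : (p : ℤ) ∣ (m : ℤ) * k' := dvd_mul_of_dvd_left (by exact_mod_cast hpm) _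
          have e3 := dvd_sub e2 e1
          simpa using e3
        · refine dvd_trans ?_ hb'
          exact_mod_cast Nat.mul_dvd_mul_left r hpq
  · obtain ⟨p, hp, hpq, hpq'⟩ := Nat.Prime.not_coprime_iff_dvd.mp c1
    left
    have hq0 : q ≠ 0 := (SI_squarefree hS hq).ne_zero
    refine ⟨p, Nat.mem_primeFactors.mpr ⟨hp, hpq, hq0⟩, ?_⟩
    have hpm : ¬ p ∣ m := by
      intro hpm
      apply BAD_ndvd hS ht htz hq hp hpq
      have e1 : (p : ℤ) ∣ m * k - t := dvd_trans (by exact_mod_cast hpq) hqa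
      have e2 : (p : ℤ) ∣ (m : ℤ) * k := dvd_mul_of_dvd_left (by exact_mod_cast hpm) _
      have e3 := dvd_sub e2 e1
      simpa using e3
    have hc := cop p hp hpm
    have f1 : ((r * p : ℕ) : ℤ) ∣ m * k - t := dvd_trans (by exact_mod_cast Nat.mul_dvd_mul_left r hpq) ha
    have f2 : ((r * p : ℕ) : ℤ) ∣ m * k' - t := dvd_trans (by exact_mod_cast Nat.mul_dvd_mul_left r hpq') hb'
    have f3 : ((r * p : ℕ) : ℤ) ∣ (m : ℤ) * ((k' : ℤ) - k) := by
      have := dvd_sub f2 f1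
      have e : (m : ℤ) * k' - t - (m * k - t) = (m : ℤ) * ((k' : ℤ) - k) := by ring
      rwa [e] at this
    have hc' : IsCoprime ((r * p : ℕ) : ℤ) (m : ℤ) := Nat.isCoprime_iff_coprime.mpr hc.symm
    exact hc'.dvd_of_dvd_mul_left f3

open Classical in
/-- primes of the ranges dividing `k` -/
private noncomputable def BAD_T (P : ℕ → Finset ℕ) (k : ℕ) : Finset ℕ :=
  (range 9).biUnion (fun i => (P i).filter (fun p => p ∣ k))

private theorem BAD_T_card {P : ℕ → Finset ℕ} {N Cd : ℕ} (hB : SyB P N Cd) {k : ℕ} (hk : 1 ≤ k) (hkN : k ≤ N) :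
    (BAD_T P k).card ≤ 9 * Cd := by
  classical
  unfold BAD_T
  refine le_trans card_biUnion_le ?_
  have h : ∀ i ∈ range 9, ((P i).filter (fun p => p ∣ k)).card ≤ Cd := by
    intro i hi
    have h1 := hB.div {i} (by simpa using hi) (k : ℤ) (by exact_mod_cast (by omega : k ≠ 0))
      (by rw [abs_of_nonneg (by positivity)]; exact_mod_cast hkN)
    rw [SI_singleton] at h1
    refine le_trans (le_of_eq ?_) h1
    congr 1
    ext p
    simp only [mem_filter, Int.natCast_dvd_natCast]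
  calc ∑ u ∈ range 9, ((P u).filter (fun p => p ∣ k)).card ≤ ∑ u ∈ range 9, Cd := sum_le_sum h
    _ = 9 * Cd := by simp

private theorem BAD_psi_le (M m : ℕ) (hM : 1 ≤ M) : psi M m ≤ 2 := by
  unfold psi
  have h : (0 : ℝ) ≤ |(m : ℝ) - 2 * M| / (2 * M) := by positivity
  have : max 0 (1 - |(m : ℝ) - 2 * M| / (2 * M)) ≤ 1 := by
    apply max_le (by norm_num) (by linarith)
  linarith

private theorem BAD_psi_zero (M : ℕ) (hM : 1 ≤ M) : psi M 0 = 0 := by
  unfold psi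
  have h0 : (0 : ℝ) < 2 * M := by
    have : (1 : ℝ) ≤ M := by exact_mod_cast hM
    linarith
  have : |((0 : ℕ) : ℝ) - 2 * M| / (2 * M) = 1 := by
    rw [Nat.cast_zero, zero_sub, abs_neg, abs_of_pos h0, div_self h0.ne']
  rw [this]
  simp

open Classical in
/-- the indicator -/
private noncomputable def BAD_F (t : ℤ) (m k r q k' q' : ℕ) : ℝ :=
  if ¬ good q q' k k' ∧ ((r * q : ℕ) : ℤ) ∣ m * k - t ∧ ((r * q' : ℕ) : ℤ) ∣ m * k' - t then 1 else 0

private theorem BAD_NN2 {M : ℕ} (hM : 1 ≤ M) {t : ℤ} {k r q k' q' : ℕ} (hb : ¬ good q q' k k') :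
    NN2 M t (r * q) (r * q') k k' ≤ ∑ m ∈ Ico 1 (4 * M), 2 * BAD_F t m k r q k' q' := by
  classical
  unfold NN2
  rw [sum_filter]
  have h : range (4 * M) = insert 0 (Ico 1 (4 * M)) := by
    ext x
    simp only [mem_range, mem_insert, mem_Ico]
    omega
  rw [h, sum_insert (by simp)]
  have h0 : (if ((r * q : ℕ) : ℤ) ∣ ((0 : ℕ) : ℤ) * k - t ∧ ((r * q' : ℕ) : ℤ) ∣ ((0 : ℕ) : ℤ) * k' - t then psi M 0 else 0) = 0 := by
    rw [BAD_psi_zero M hM]
    simp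
  rw [h0, zero_add]
  apply sum_le_sum
  intro m hm
  unfold BAD_F
  by_cases hc : ((r * q : ℕ) : ℤ) ∣ m * k - t ∧ ((r * q' : ℕ) : ℤ) ∣ m * k' - t
  · rw [if_pos hc, if_pos ⟨hb, hc⟩]
    simpa using BAD_psi_le M m hM
  · rw [if_neg hc, if_neg (fun h => hc h.2)]
    simp

open Classical in
/-- pointwise bound -/
private theorem BAD_F_le {P : ℕ → Finset ℕ} {z : ℕ} (hS : Sy P z) {I I1 I2 : Finset ℕ} (hI2 : I2 ⊆ range 9)
    {t : ℤ} (ht : t ≠ 0) (htz : |t| ≤ z) {m k k' r q q' : ℕ} (hr : r ∈ SI P I) (hq : q ∈ SI P I1) (hq' : q' ∈ SI P I2) :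
    BAD_F t m k r q k' q' ≤ (if (r : ℤ) ∣ m * k - t then (1 : ℝ) else 0) * ((if (q : ℤ) ∣ m * k - t then (1 : ℝ) else 0) *
      ((∑ p ∈ q.primeFactors, (if ((r * p : ℕ) : ℤ) ∣ (k' : ℤ) - k then (1 : ℝ) else 0) +
        ∑ p ∈ BAD_T P k, (if Nat.Coprime m (r * p) ∧ ((r * p : ℕ) : ℤ) ∣ m * k' - t then (1 : ℝ) else 0)) *
        (if (q' : ℤ) ∣ m * k' - t then (1 : ℝ) else 0))) := by
  have hnn1 : (0 : ℝ) ≤ ∑ p ∈ q.primeFactors, (if ((r * p : ℕ) : ℤ) ∣ (k' : ℤ) - k then (1 : ℝ) else 0) :=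
    sum_nonneg (fun p _ => by split_ifs <;> norm_num)
  have hnn2 : (0 : ℝ) ≤ ∑ p ∈ BAD_T P k, (if Nat.Coprime m (r * p) ∧ ((r * p : ℕ) : ℤ) ∣ m * k' - t then (1 : ℝ) else 0) :=
    sum_nonneg (fun p _ => by split_ifs <;> norm_num)
  unfold BAD_F
  by_cases hc : ¬ good q q' k k' ∧ ((r * q : ℕ) : ℤ) ∣ m * k - t ∧ ((r * q' : ℕ) : ℤ) ∣ m * k' - t
  · rw [if_pos hc]
    obtain ⟨hb, ha, hb'⟩ := hc
    have hra : (r : ℤ) ∣ m * k - t := dvd_trans (by push_cast; exact dvd_mul_right _ _) ha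
    have hqa : (q : ℤ) ∣ m * k - t := dvd_trans (by push_cast; exact dvd_mul_left _ _) ha
    have hqb : (q' : ℤ) ∣ m * k' - t := dvd_trans (by push_cast; exact dvd_mul_left _ _) hb'
    rw [if_pos hra, if_pos hqa, if_pos hqb, one_mul, one_mul, mul_one]
    rcases BAD_point hS ht htz hr hq hq' hb ha hb' with ⟨p, hp, hd⟩ | ⟨i, hi, p, hp, hpk, hcop, hd⟩
    · have : (1 : ℝ) ≤ ∑ p ∈ q.primeFactors, (if ((r * p : ℕ) : ℤ) ∣ (k' : ℤ) - k then (1 : ℝ) else 0) := by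
        calc (1 : ℝ) = (if ((r * p : ℕ) : ℤ) ∣ (k' : ℤ) - k then (1 : ℝ) else 0) := by rw [if_pos hd]
          _ ≤ _ := single_le_sum (f := fun p => (if ((r * p : ℕ) : ℤ) ∣ (k' : ℤ) - k then (1 : ℝ) else 0))
            (fun p _ => by split_ifs <;> norm_num) hp
      linarith
    · have : (1 : ℝ) ≤ ∑ p ∈ BAD_T P k, (if Nat.Coprime m (r * p) ∧ ((r * p : ℕ) : ℤ) ∣ m * k' - t then (1 : ℝ) else 0) := by
        have hpT : p ∈ BAD_T P k := by
          unfold BAD_T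
          rw [mem_biUnion]
          exact ⟨i, hI2 hi, mem_filter.mpr ⟨hp, hpk⟩⟩
        calc (1 : ℝ) = (if Nat.Coprime m (r * p) ∧ ((r * p : ℕ) : ℤ) ∣ m * k' - t then (1 : ℝ) else 0) := by
              rw [if_pos ⟨hcop, hd⟩]
          _ ≤ _ := single_le_sum (f := fun p => (if Nat.Coprime m (r * p) ∧ ((r * p : ℕ) : ℤ) ∣ m * k' - t then (1 : ℝ) else 0))
            (fun p _ => by split_ifs <;> norm_num) hpT
      linarith
  · rw [if_neg hc]
    have h1 : ∀ c : Prop, ∀ [Decidable c], (0 : ℝ) ≤ if c then (1 : ℝ) else 0 := by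
      intro c _
      split_ifs <;> norm_num
    have := h1 ((r : ℤ) ∣ m * k - t)
    have := h1 ((q : ℤ) ∣ m * k - t)
    have := h1 ((q' : ℤ) ∣ m * k' - t)
    positivity

private theorem BAD_abs {t : ℤ} {z K M N : ℕ} (htz : |t| ≤ z) (hK : z < K) (hN : 8 * M * K + z ≤ N) {m k : ℕ}
    (hm : m ∈ Ico 1 (4 * M)) (hk : k ∈ Ioc K (2 * K)) : (m : ℤ) * k - t ≠ 0 ∧ |(m : ℤ) * k - t| ≤ N := by
  simp only [mem_Ico, mem_Ioc] at hm hk
  have h1 : K < m * k := by nlinarith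
  have h2 : m * k ≤ 8 * M * K := by
    calc m * k ≤ (4 * M) * (2 * K) := Nat.mul_le_mul (by omega) hk.2
      _ = 8 * M * K := by ring
  have h3 := abs_le.mp htz
  constructor
  · intro h
    have : (K : ℤ) < (m : ℤ) * k := by exact_mod_cast h1
    have : (z : ℤ) < K := by exact_mod_cast hK
    linarith [h3.2]
  · rw [abs_le]
    have e1 : (0 : ℤ) ≤ (m : ℤ) * k := by positivity
    have e2 : (m : ℤ) * k ≤ 8 * M * K := by exact_mod_cast h2
    have e3 : (8 * M * K + z : ℤ) ≤ N := by exact_mod_cast hN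
    have e4 : (0 : ℤ) ≤ 8 * M * K := by positivity
    constructor <;> linarith [h3.1, h3.2]

open Classical in
private theorem BAD_card {P : ℕ → Finset ℕ} {N Cd : ℕ} (hB : SyB P N Cd) {J : Finset ℕ} (hJ : J ⊆ range 9) {n : ℤ}
    (hn : n ≠ 0) (hnN : |n| ≤ N) : ∑ s ∈ SI P J, (if (s : ℤ) ∣ n then (1 : ℝ) else 0) ≤ Cd := by
  rw [← sum_filter, sum_const, nsmul_eq_mul, mul_one]
  have := hB.div J hJ n hn hnN
  have h2 : ((SI P J).filter (fun s : ℕ => (s : ℤ) ∣ n)).card ≤ Cd := by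
    convert this
  exact_mod_cast h2

open Classical in
private theorem BAD_inner {P : ℕ → Finset ℕ} {z N Cd : ℕ} (hS : Sy P z) (hB : SyB P N Cd) (hz : 1 ≤ z) {I I1 I2 : Finset ℕ}
    (hI1 : I1 ⊆ range 9) (hI2 : I2 ⊆ range 9)
    {t : ℤ} (ht : t ≠ 0) (htz : |t| ≤ z) {K M : ℕ} (hM : 1 ≤ M) (hK : z < K) (hN : 8 * M * K + z ≤ N)
    {R : ℝ} (hR : 0 < R) (hRr : ∀ r ∈ SI P I, R ≤ r) {m k : ℕ} (hm : m ∈ Ico 1 (4 * M)) (hk : k ∈ Ioc K (2 * K))
    {r q : ℕ} (hr : r ∈ SI P I) (hq : q ∈ SI P I1) :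
    ∑ k' ∈ Ioc K (2 * K), (∑ p ∈ q.primeFactors, (if ((r * p : ℕ) : ℤ) ∣ (k' : ℤ) - k then (1 : ℝ) else 0) +
        ∑ p ∈ BAD_T P k, (if Nat.Coprime m (r * p) ∧ ((r * p : ℕ) : ℤ) ∣ m * k' - t then (1 : ℝ) else 0)) ≤
      18 * Cd * (K / (R * z) + 1) := by
  have hr1 : 1 ≤ r := Nat.one_le_iff_ne_zero.mpr (SI_squarefree hS hr).ne_zero
  have hz0 : (0 : ℝ) < z := by exact_mod_cast hz
  have hCd : (1 : ℝ) ≤ Cd := by exact_mod_cast hB.one_le
  have hX : (0 : ℝ) ≤ (K : ℝ) / (R * z) + 1 := by positivity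
  have hcmp : ∀ p : ℕ, z < p → (K : ℝ) / ((r * p : ℕ) : ℝ) + 1 ≤ K / (R * z) + 1 := by
    intro p hp
    have e1 : R * z ≤ ((r * p : ℕ) : ℝ) := by
      push_cast
      have e2 := hRr r hr
      have e3 : (z : ℝ) ≤ p := by exact_mod_cast hp.le
      exact mul_le_mul e2 e3 hz0.le (le_trans hR.le e2)
    have e4 : (K : ℝ) / ((r * p : ℕ) : ℝ) ≤ K / (R * z) := by
      apply div_le_div_of_nonneg_left (by positivity) (by positivity) e1
    linarith
  rw [sum_add_distrib]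
  have hA : ∑ k' ∈ Ioc K (2 * K), ∑ p ∈ q.primeFactors, (if ((r * p : ℕ) : ℤ) ∣ (k' : ℤ) - k then (1 : ℝ) else 0) ≤
      9 * (K / (R * z) + 1) := by
    rw [sum_comm]
    calc ∑ p ∈ q.primeFactors, ∑ k' ∈ Ioc K (2 * K), (if ((r * p : ℕ) : ℤ) ∣ (k' : ℤ) - k then (1 : ℝ) else 0)
        ≤ ∑ p ∈ q.primeFactors, ((K : ℝ) / (R * z) + 1) := by
          apply sum_le_sum
          intro p hp
          have hpp := Nat.prime_of_mem_primeFactors hp
          have hpd := Nat.dvd_of_mem_primeFactors hp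
          obtain ⟨i, hi, hpi⟩ := (SI_primeFactors hS hq).1 p hpp hpd
          have hzp := hS.gt i p hpi
          rw [← sum_filter, sum_const, nsmul_eq_mul, mul_one]
          refine le_trans (BAD_count (K := K) (n := r * p) (Nat.mul_pos hr1 hpp.pos) _ (filter_subset _ _) ?_) (hcmp p hzp)
          intro x hx y hy
          simp only [mem_filter] at hx hy
          have := dvd_sub hx.2 hy.2
          have e : (x : ℤ) - k - ((y : ℤ) - k) = x - y := by ring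
          rwa [e] at this
      _ = q.primeFactors.card * ((K : ℝ) / (R * z) + 1) := by rw [sum_const, nsmul_eq_mul]
      _ ≤ 9 * (K / (R * z) + 1) := by
          have e1 : q.primeFactors.card ≤ 9 := by
            rw [(SI_primeFactors hS hq).2.2]
            calc I1.card ≤ (range 9).card := card_le_card hI1
              _ = 9 := by simp
          have e2 : (q.primeFactors.card : ℝ) ≤ 9 := by exact_mod_cast e1
          exact mul_le_mul_of_nonneg_right e2 hX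
  have hkk : 1 ≤ k ∧ k ≤ N := by
    simp only [mem_Ioc] at hk
    constructor
    · omega
    · have : 2 * K ≤ 8 * M * K := by nlinarith
      omega
  have hBd : ∑ k' ∈ Ioc K (2 * K), ∑ p ∈ BAD_T P k, (if Nat.Coprime m (r * p) ∧ ((r * p : ℕ) : ℤ) ∣ m * k' - t then (1 : ℝ) else 0) ≤
      9 * Cd * (K / (R * z) + 1) := by
    rw [sum_comm]
    calc ∑ p ∈ BAD_T P k, ∑ k' ∈ Ioc K (2 * K), (if Nat.Coprime m (r * p) ∧ ((r * p : ℕ) : ℤ) ∣ m * k' - t then (1 : ℝ) else 0)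
        ≤ ∑ p ∈ BAD_T P k, ((K : ℝ) / (R * z) + 1) := by
          apply sum_le_sum
          intro p hp
          unfold BAD_T at hp
          rw [mem_biUnion] at hp
          obtain ⟨i, hi, hp⟩ := hp
          rw [mem_filter] at hp
          have hzp := hS.gt i p hp.1
          have hpp := hS.prime i p hp.1
          rw [← sum_filter, sum_const, nsmul_eq_mul, mul_one]
          refine le_trans (BAD_count (K := K) (n := r * p) (Nat.mul_pos hr1 hpp.pos) _ (filter_subset _ _) ?_) (hcmp p hzp)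
          intro x hx y hy
          simp only [mem_filter] at hx hy
          have h1 := dvd_sub hx.2.2 hy.2.2
          have e : (m : ℤ) * x - t - (m * y - t) = m * ((x : ℤ) - y) := by ring
          rw [e] at h1
          have hc' : IsCoprime ((r * p : ℕ) : ℤ) (m : ℤ) := Nat.isCoprime_iff_coprime.mpr hx.2.1.symm
          exact hc'.dvd_of_dvd_mul_left h1
      _ = (BAD_T P k).card * ((K : ℝ) / (R * z) + 1) := by rw [sum_const, nsmul_eq_mul]
      _ ≤ 9 * Cd * (K / (R * z) + 1) := by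
          have e1 := BAD_T_card hB hkk.1 hkk.2
          have e2 : ((BAD_T P k).card : ℝ) ≤ 9 * Cd := by exact_mod_cast e1
          exact mul_le_mul_of_nonneg_right e2 hX
  nlinarith [mul_nonneg (sub_nonneg.mpr hCd) hX]

theorem bad {P : ℕ → Finset ℕ} {z N Cd : ℕ} (hS : Sy P z) (hB : SyB P N Cd) (hz : 1 ≤ z) {I I1 I2 : Finset ℕ}
    (hI : I ⊆ range 9) (hI1 : I1 ⊆ range 9) (hI2 : I2 ⊆ range 9) (h1 : Disjoint I I1) (h2 : Disjoint I I2)
    {t : ℤ} (ht : t ≠ 0) (htz : |t| ≤ z) {K M : ℕ} (hM : 1 ≤ M) (hK : z < K) (hN : 8 * M * K + z ≤ N)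
    {R : ℝ} (hR : 0 < R) (hRr : ∀ r ∈ SI P I, R ≤ r) :
    ∑ r ∈ SI P I, ∑ k ∈ Ioc K (2 * K), ∑ k' ∈ Ioc K (2 * K), ∑ q ∈ SI P I1,
      ∑ q' ∈ (SI P I2).filter (fun q' => ¬ good q q' k k'), NN2 M t (r * q) (r * q') k k'
      ≤ 200 * (Cd : ℝ) ^ 4 * M * K * (K / (R * z) + 1) := by
  classical
  have hz0 : (0 : ℝ) < z := by exact_mod_cast hz
  have hCd : (1 : ℝ) ≤ Cd := by exact_mod_cast hB.one_le
  have hX : (0 : ℝ) ≤ (K : ℝ) / (R * z) + 1 := by positivity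
  have hF0 : ∀ m k r q k' q', 0 ≤ BAD_F t m k r q k' q' := by
    intro m k r q k' q'
    unfold BAD_F
    split_ifs <;> norm_num
  -- step 1
  have s1 : ∑ r ∈ SI P I, ∑ k ∈ Ioc K (2 * K), ∑ k' ∈ Ioc K (2 * K), ∑ q ∈ SI P I1,
      ∑ q' ∈ (SI P I2).filter (fun q' => ¬ good q q' k k'), NN2 M t (r * q) (r * q') k k' ≤
      ∑ r ∈ SI P I, ∑ k ∈ Ioc K (2 * K), ∑ k' ∈ Ioc K (2 * K), ∑ q ∈ SI P I1,
      ∑ q' ∈ SI P I2, ∑ m ∈ Ico 1 (4 * M), 2 * BAD_F t m k r q k' q' := by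
    refine sum_le_sum fun r _ => sum_le_sum fun k _ => sum_le_sum fun k' _ => sum_le_sum fun q _ => ?_
    calc ∑ q' ∈ (SI P I2).filter (fun q' => ¬ good q q' k k'), NN2 M t (r * q) (r * q') k k'
        ≤ ∑ q' ∈ (SI P I2).filter (fun q' => ¬ good q q' k k'), ∑ m ∈ Ico 1 (4 * M), 2 * BAD_F t m k r q k' q' := by
          apply sum_le_sum
          intro q' hq'
          exact BAD_NN2 hM (mem_filter.mp hq').2
      _ ≤ _ := by
          apply sum_le_sum_of_subset_of_nonneg (filter_subset _ _)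
          intro q' _ _
          exact sum_nonneg fun m _ => mul_nonneg (by norm_num) (hF0 _ _ _ _ _ _)
  refine le_trans s1 ?_
  -- step 2 : reorder
  have s2 : ∑ r ∈ SI P I, ∑ k ∈ Ioc K (2 * K), ∑ k' ∈ Ioc K (2 * K), ∑ q ∈ SI P I1,
      ∑ q' ∈ SI P I2, ∑ m ∈ Ico 1 (4 * M), 2 * BAD_F t m k r q k' q' =
      ∑ m ∈ Ico 1 (4 * M), ∑ k ∈ Ioc K (2 * K), ∑ r ∈ SI P I, ∑ q ∈ SI P I1, ∑ k' ∈ Ioc K (2 * K),
      ∑ q' ∈ SI P I2, 2 * BAD_F t m k r q k' q' := by
    calc _ = ∑ r ∈ SI P I, ∑ k ∈ Ioc K (2 * K), ∑ q ∈ SI P I1, ∑ k' ∈ Ioc K (2 * K), 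
              ∑ m ∈ Ico 1 (4 * M), ∑ q' ∈ SI P I2, 2 * BAD_F t m k r q k' q' := by
            refine sum_congr rfl fun r _ => sum_congr rfl fun k _ => ?_
            rw [sum_comm]
            refine sum_congr rfl fun q _ => sum_congr rfl fun k' _ => ?_
            rw [sum_comm]
      _ = ∑ r ∈ SI P I, ∑ k ∈ Ioc K (2 * K), ∑ q ∈ SI P I1, ∑ m ∈ Ico 1 (4 * M), ∑ k' ∈ Ioc K (2 * K), 
              ∑ q' ∈ SI P I2, 2 * BAD_F t m k r q k' q' := by
            refine sum_congr rfl fun r _ => sum_congr rfl fun k _ => sum_congr rfl fun q _ => ?_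
            rw [sum_comm]
      _ = ∑ r ∈ SI P I, ∑ k ∈ Ioc K (2 * K), ∑ m ∈ Ico 1 (4 * M), ∑ q ∈ SI P I1, ∑ k' ∈ Ioc K (2 * K), 
              ∑ q' ∈ SI P I2, 2 * BAD_F t m k r q k' q' := by
            refine sum_congr rfl fun r _ => sum_congr rfl fun k _ => ?_
            rw [sum_comm]
      _ = ∑ r ∈ SI P I, ∑ m ∈ Ico 1 (4 * M), ∑ k ∈ Ioc K (2 * K), ∑ q ∈ SI P I1, ∑ k' ∈ Ioc K (2 * K), 
              ∑ q' ∈ SI P I2, 2 * BAD_F t m k r q k' q' := by
            refine sum_congr rfl fun r _ => ?_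
            rw [sum_comm]
      _ = ∑ m ∈ Ico 1 (4 * M), ∑ r ∈ SI P I, ∑ k ∈ Ioc K (2 * K), ∑ q ∈ SI P I1, ∑ k' ∈ Ioc K (2 * K), 
              ∑ q' ∈ SI P I2, 2 * BAD_F t m k r q k' q' := by
            rw [sum_comm]
      _ = _ := by
            refine sum_congr rfl fun m _ => ?_
            rw [sum_comm]
  rw [s2]
  -- step 3 : inner bound
  have s3 : ∀ m ∈ Ico 1 (4 * M), ∀ k ∈ Ioc K (2 * K), ∑ r ∈ SI P I, ∑ q ∈ SI P I1, ∑ k' ∈ Ioc K (2 * K),
      ∑ q' ∈ SI P I2, 2 * BAD_F t m k r q k' q' ≤ 36 * (Cd : ℝ) ^ 4 * (K / (R * z) + 1) := by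
    intro m hm k hk
    obtain ⟨hn0, hnN⟩ := BAD_abs htz hK hN hm hk
    have q1 : ∀ r ∈ SI P I, ∀ q ∈ SI P I1, ∑ k' ∈ Ioc K (2 * K), ∑ q' ∈ SI P I2, 2 * BAD_F t m k r q k' q' ≤
        (if (r : ℤ) ∣ m * k - t then (1 : ℝ) else 0) * ((if (q : ℤ) ∣ m * k - t then (1 : ℝ) else 0) *
          (36 * (Cd : ℝ) ^ 2 * (K / (R * z) + 1))) := by
      intro r hr q hq
      set a := (if (r : ℤ) ∣ m * k - t then (1 : ℝ) else 0) with ha
      set b := (if (q : ℤ) ∣ m * k - t then (1 : ℝ) else 0) with hb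
      have ha0 : 0 ≤ a := by rw [ha]; split_ifs <;> norm_num
      have hb0 : 0 ≤ b := by rw [hb]; split_ifs <;> norm_num
      set G : ℕ → ℝ := fun k' => ∑ p ∈ q.primeFactors, (if ((r * p : ℕ) : ℤ) ∣ (k' : ℤ) - k then (1 : ℝ) else 0) +
        ∑ p ∈ BAD_T P k, (if Nat.Coprime m (r * p) ∧ ((r * p : ℕ) : ℤ) ∣ m * k' - t then (1 : ℝ) else 0) with hG
      have hG0 : ∀ k', 0 ≤ G k' := by
        intro k'
        rw [hG]
        dsimp only
        apply add_nonneg <;> exact sum_nonneg (fun p _ => by split_ifs <;> norm_num)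
      calc ∑ k' ∈ Ioc K (2 * K), ∑ q' ∈ SI P I2, 2 * BAD_F t m k r q k' q'
          ≤ ∑ k' ∈ Ioc K (2 * K), ∑ q' ∈ SI P I2, 2 * (a * (b * (G k' * (if (q' : ℤ) ∣ m * k' - t then (1 : ℝ) else 0)))) := by
            refine sum_le_sum fun k' _ => sum_le_sum fun q' hq' => ?_
            exact mul_le_mul_of_nonneg_left (BAD_F_le hS hI2 ht htz hr hq hq') (by norm_num)
        _ = 2 * a * b * ∑ k' ∈ Ioc K (2 * K), G k' * ∑ q' ∈ SI P I2, (if (q' : ℤ) ∣ m * k' - t then (1 : ℝ) else 0) := by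
            rw [mul_sum]
            refine sum_congr rfl fun k' _ => ?_
            rw [mul_sum, mul_sum]
            refine sum_congr rfl fun q' _ => ?_
            ring
        _ ≤ 2 * a * b * ∑ k' ∈ Ioc K (2 * K), G k' * Cd := by
            apply mul_le_mul_of_nonneg_left _ (by positivity)
            refine sum_le_sum fun k' hk' => ?_
            obtain ⟨hn0', hnN'⟩ := BAD_abs htz hK hN hm hk'
            exact mul_le_mul_of_nonneg_left (BAD_card hB hI2 hn0' hnN') (hG0 k')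
        _ = 2 * a * b * Cd * ∑ k' ∈ Ioc K (2 * K), G k' := by
            rw [← sum_mul]
            ring
        _ ≤ 2 * a * b * Cd * (18 * Cd * (K / (R * z) + 1)) := by
            apply mul_le_mul_of_nonneg_left _ (by positivity)
            exact BAD_inner hS hB hz hI1 hI2 ht htz hM hK hN hR hRr hm hk hr hq
        _ = a * (b * (36 * (Cd : ℝ) ^ 2 * (K / (R * z) + 1))) := by ring
    calc ∑ r ∈ SI P I, ∑ q ∈ SI P I1, ∑ k' ∈ Ioc K (2 * K), ∑ q' ∈ SI P I2, 2 * BAD_F t m k r q k' q'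
        ≤ ∑ r ∈ SI P I, ∑ q ∈ SI P I1, (if (r : ℤ) ∣ m * k - t then (1 : ℝ) else 0) *
          ((if (q : ℤ) ∣ m * k - t then (1 : ℝ) else 0) * (36 * (Cd : ℝ) ^ 2 * (K / (R * z) + 1))) :=
          sum_le_sum fun r hr => sum_le_sum fun q hq => q1 r hr q hq
      _ = (∑ r ∈ SI P I, (if (r : ℤ) ∣ m * k - t then (1 : ℝ) else 0)) *
          ((∑ q ∈ SI P I1, (if (q : ℤ) ∣ m * k - t then (1 : ℝ) else 0)) * (36 * (Cd : ℝ) ^ 2 * (K / (R * z) + 1))) := by
            rw [sum_mul]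
            refine sum_congr rfl fun r _ => ?_
            rw [sum_mul, mul_sum]
      _ ≤ Cd * (Cd * (36 * (Cd : ℝ) ^ 2 * (K / (R * z) + 1))) := by
            apply mul_le_mul (BAD_card hB hI hn0 hnN) _ _ (by positivity)
            · exact mul_le_mul_of_nonneg_right (BAD_card hB hI1 hn0 hnN) (by positivity)
            · apply mul_nonneg _ (by positivity)
              exact sum_nonneg (fun p _ => by split_ifs <;> norm_num)
      _ = 36 * (Cd : ℝ) ^ 4 * (K / (R * z) + 1) := by ring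
  calc _ ≤ ∑ m ∈ Ico 1 (4 * M), ∑ k ∈ Ioc K (2 * K), 36 * (Cd : ℝ) ^ 4 * ((K : ℝ) / (R * z) + 1) :=
        sum_le_sum fun m hm => sum_le_sum fun k hk => s3 m hm k hk
    _ = ((4 * M - 1 : ℕ) : ℝ) * (K : ℝ) * (36 * (Cd : ℝ) ^ 4 * (K / (R * z) + 1)) := by
        rw [sum_const, sum_const, Nat.card_Ico, Nat.card_Ioc, nsmul_eq_mul, nsmul_eq_mul]
        have : 2 * K - K = K := by omega
        rw [this]
        ring
    _ ≤ (4 * M : ℝ) * (K : ℝ) * (36 * (Cd : ℝ) ^ 4 * (K / (R * z) + 1)) := by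
        apply mul_le_mul_of_nonneg_right _ (by positivity)
        apply mul_le_mul_of_nonneg_right _ (by positivity)
        have : 4 * M - 1 ≤ 4 * M := Nat.sub_le _ _
        exact_mod_cast this
    _ ≤ 200 * (Cd : ℝ) ^ 4 * M * K * (K / (R * z) + 1) := by
        have h : (0 : ℝ) ≤ (Cd : ℝ) ^ 4 * M * K * (K / (R * z) + 1) := by positivity
        linarith

end H69BG
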