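import Pool.Agent.H69.BG.Ssa

/-!
# SIR: the sizes of the elements of `SI (PP x) I`

* `pps_sy`: `p ∈ PP x i`, `i < 9`: `p > x^{e_i} ≥ x^{200u} ≥ ⌊x^{200u}⌋`. Disjoint: for `i < j < 9`, `e_i + u/10 < e_j`, so `p ≤ x^{e_i + u/10} ≤ x^{e_j} < p`.
* `SI_range`: induct on `I` (`sum`/`SI_primeFactors` or the definition: a product of one prime from each `P i`); each prime contributes a factor between
  `x^{e_i}` and `x^{e_i + u/10}`; `|I| ≤ 9`.
* `card_SI_le`: the elements are positive integers at most `x^{e_I + u}`.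
* `SI_subset`: for `I ≠ ∅`... here with `R + 1 ≤ x^{e_I}`.
* `choose_A`: with `n = ⌊(κ/u - 55)/200⌋ ∈ {0, ..., 249}` choose a subset of `{1,...,8}` with weights `1, 2, 4, 8, 16, 32, 62, 124` and sum `n` (all `n ≤ 249` occur: `0..63`
  from the first six, `+62`: `0..125`, `+124`: `0..249`); the exponent sum is `200 n` or `200 n + 5` (units `u`), so `κ - e_A ∈ [50u, 255u]`.
  For Lean: `∀ n < 250, ∃ A ∈ (Icc 1 8).powerset, ∑ exN ∈ {200 n, 200 n + 5}` by `decide` (256 subsets) or by an explicit recursion.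
-/

open Finset

namespace H69BG

/-- `e_I = ∑_{i ∈ I} e_i` -/
noncomputable def eI (I : Finset ℕ) : ℝ := ∑ i ∈ I, ex i

/-- the lower bound of all primes of the system -/
noncomputable def zz (x : ℝ) : ℕ := ⌊x ^ (200 * uu)⌋₊

theorem Sir_uu_pos : 0 < uu := by unfold uu; norm_num

theorem Sir_mem_PP {x : ℝ} {i p : ℕ} (h : p ∈ PP x i) :
    i < 9 ∧ p.Prime ∧ x ^ ex i < p ∧ (p : ℝ) ≤ x ^ (ex i + uu / 10) := by
  unfold PP at h
  split_ifs at h with h9
  · rw [mem_filter] at h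
    exact ⟨h9, h.2⟩
  · simp at h

theorem Sir_ex_ge {i : ℕ} (hi : i < 9) : 200 * uu ≤ ex i := by
  have h0 := Sir_uu_pos
  unfold ex
  interval_cases i <;> simp only [exN] <;> push_cast <;> nlinarith

theorem Sir_ex_lt {i j : ℕ} (hij : i < j) (hj : j < 9) : ex i + uu / 10 ≤ ex j := by
  have h0 := Sir_uu_pos
  unfold ex
  interval_cases j <;> interval_cases i <;> simp only [exN] <;> push_cast <;> nlinarith

theorem pps_sy {x : ℝ} (hx : 1 < x) : Sy (PP x) (zz x) := by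
  refine ⟨fun i p hp => (Sir_mem_PP hp).2.1, fun i p hp => ?_, fun i j hij => ?_⟩
  · obtain ⟨h1, h2, h3, h4⟩ := Sir_mem_PP hp
    have h5 : ((zz x : ℕ) : ℝ) ≤ x ^ (200 * uu) := Nat.floor_le (by positivity)
    have h6 : x ^ (200 * uu) ≤ x ^ ex i := Real.rpow_le_rpow_of_exponent_le hx.le (Sir_ex_ge h1)
    have h7 : ((zz x : ℕ) : ℝ) < p := by linarith
    exact_mod_cast h7
  · wlog h : i < j generalizing i j
    · exact (this j i (Ne.symm hij) (by omega)).symm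
    rw [disjoint_left]
    intro p hp hp'
    obtain ⟨h1, h2, h3, h4⟩ := Sir_mem_PP hp
    obtain ⟨h1', h2', h3', h4'⟩ := Sir_mem_PP hp'
    have h6 : x ^ (ex i + uu / 10) ≤ x ^ ex j :=
      Real.rpow_le_rpow_of_exponent_le hx.le (Sir_ex_lt h h1')
    linarith

theorem Sir_mem {P : ℕ → Finset ℕ} {I : Finset ℕ} {s : ℕ} (hs : s ∈ SI P I) :
    ∃ f : ℕ → ℕ, (∀ i ∈ I, f i ∈ P i) ∧ s = ∏ i ∈ I, f i := by
  unfold SI at hs
  rw [mem_image] at hs
  obtain ⟨f, hf, rfl⟩ := hs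
  rw [mem_pi] at hf
  refine ⟨fun i => if h : i ∈ I then f i h else 1, fun i hi => ?_, ?_⟩
  · simp only [hi, dif_pos]; exact hf i hi
  · rw [← prod_attach I]
    apply prod_congr rfl
    intro i _
    simp only [i.2, dif_pos]

theorem SI_range {x : ℝ} (hx : 1 < x) {I : Finset ℕ} (hI : I ⊆ range 9) {s : ℕ} (hs : s ∈ SI (PP x) I) :
    x ^ eI I ≤ s ∧ (s : ℝ) ≤ x ^ (eI I + uu) := by
  obtain ⟨f, hf, rfl⟩ := Sir_mem hs
  have hx0 : 0 < x := by linarith
  have h0 := Sir_uu_pos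
  have hb : ∀ i ∈ I, x ^ ex i ≤ f i ∧ (f i : ℝ) ≤ x ^ (ex i + uu / 10) := fun i hi =>
    ⟨(Sir_mem_PP (hf i hi)).2.2.1.le, (Sir_mem_PP (hf i hi)).2.2.2⟩
  rw [Nat.cast_prod]
  constructor
  · rw [eI, Real.rpow_sum_of_pos hx0]
    exact prod_le_prod (fun i _ => by positivity) fun i hi => (hb i hi).1
  · have h1 : ∏ i ∈ I, ((f i : ℕ) : ℝ) ≤ ∏ i ∈ I, x ^ (ex i + uu / 10) :=
      prod_le_prod (fun i _ => by positivity) fun i hi => (hb i hi).2
    refine h1.trans ?_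
    rw [← Real.rpow_sum_of_pos hx0]
    apply Real.rpow_le_rpow_of_exponent_le hx.le
    rw [sum_add_distrib, sum_const, nsmul_eq_mul, eI]
    have h2 : (I.card : ℝ) ≤ 9 := by
      have := card_le_card hI
      rw [card_range] at this
      exact_mod_cast this
    nlinarith

/-- strict form for nonempty `I` -/
theorem SI_range' {x : ℝ} (hx : 1 < x) {I : Finset ℕ} (hI : I ⊆ range 9) (h0 : I.Nonempty) {s : ℕ}
    (hs : s ∈ SI (PP x) I) : x ^ eI I < s ∧ (s : ℝ) ≤ x ^ (eI I + 9 / 10 * uu) := by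
  obtain ⟨f, hf, rfl⟩ := Sir_mem hs
  have hx0 : 0 < x := by linarith
  have hu := Sir_uu_pos
  have hb : ∀ i ∈ I, x ^ ex i < f i ∧ (f i : ℝ) ≤ x ^ (ex i + uu / 10) := fun i hi =>
    ⟨(Sir_mem_PP (hf i hi)).2.2.1, (Sir_mem_PP (hf i hi)).2.2.2⟩
  rw [Nat.cast_prod]
  constructor
  · rw [eI, Real.rpow_sum_of_pos hx0]
    exact prod_lt_prod_of_nonempty (fun i _ => by positivity) (fun i hi => (hb i hi).1) h0
  · have h1 : ∏ i ∈ I, ((f i : ℕ) : ℝ) ≤ ∏ i ∈ I, x ^ (ex i + uu / 10) :=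
      prod_le_prod (fun i _ => by positivity) fun i hi => (hb i hi).2
    refine h1.trans ?_
    rw [← Real.rpow_sum_of_pos hx0]
    apply Real.rpow_le_rpow_of_exponent_le hx.le
    rw [sum_add_distrib, sum_const, nsmul_eq_mul, eI]
    have h2 : (I.card : ℝ) ≤ 9 := by
      have := card_le_card hI
      rw [card_range] at this
      exact_mod_cast this
    nlinarith

theorem card_SI_le {x : ℝ} (hx : 1 < x) {I : Finset ℕ} (hI : I ⊆ range 9) :
    ((SI (PP x) I).card : ℝ) ≤ x ^ (eI I + uu) := by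
  have hx0 : 0 < x := by linarith
  have h1 : SI (PP x) I ⊆ Icc 1 ⌊x ^ (eI I + uu)⌋₊ := by
    intro s hs
    obtain ⟨h2, h3⟩ := SI_range hx hI hs
    rw [mem_Icc]
    refine ⟨?_, Nat.le_floor h3⟩
    have h4 : (0 : ℝ) < s := lt_of_lt_of_le (by positivity) h2
    exact_mod_cast h4
  have h5 := card_le_card h1
  rw [Nat.card_Icc, Nat.add_sub_cancel] at h5
  calc ((SI (PP x) I).card : ℝ) ≤ (⌊x ^ (eI I + uu)⌋₊ : ℝ) := by exact_mod_cast h5
    _ ≤ x ^ (eI I + uu) := Nat.floor_le (by positivity)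

theorem Sir_eI (I : Finset ℕ) : eI I = ((∑ i ∈ I, exN i : ℕ) : ℝ) * uu := by
  rw [eI, Nat.cast_sum, sum_mul]
  rfl

theorem eI_range9 : eI (range 9) = 50005 * uu := by
  rw [Sir_eI]
  have : ∑ i ∈ range 9, exN i = 50005 := by decide
  rw [this]; norm_num

/-- binary digits with the weights 1, 2, 4, 8, 16, 32, 62, 124 -/
def Sir_m (n : ℕ) : ℕ :=
  (if 124 ≤ n then 128 else 0) + (if 62 ≤ n - (if 124 ≤ n then 124 else 0) then 64 else 0) +
    (n - (if 124 ≤ n then 124 else 0) -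
      (if 62 ≤ n - (if 124 ≤ n then 124 else 0) then 62 else 0))

/-- the subset -/
def Sir_A (n : ℕ) : Finset ℕ := (Icc 1 8).filter (fun i => Nat.testBit (Sir_m n) (i - 1) = true)

theorem Sir_dec : ∀ n < 250, ∑ i ∈ Sir_A n, exN i = 200 * n ∨
    ∑ i ∈ Sir_A n, exN i = 200 * n + 5 := by
  decide +kernel

theorem choose_A {κ : ℝ} (h1 : 33000 * uu ≤ κ) (h2 : κ ≤ 50001 * uu) :
    ∃ A ⊆ Icc 1 8, eI A + 50 * uu ≤ κ ∧ κ ≤ eI A + 260 * uu := by
  have hu := Sir_uu_pos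
  obtain ⟨t, ht⟩ : ∃ t, t = κ / uu := ⟨_, rfl⟩
  have hκ : κ = t * uu := by rw [ht]; field_simp
  have ht1 : 33000 ≤ t := by rw [ht, le_div_iff₀ hu]; exact h1
  have ht2 : t ≤ 50001 := by rw [ht, div_le_iff₀ hu]; exact h2
  obtain ⟨n, hn⟩ : ∃ n, n = ⌊(t - 55) / 200⌋₊ := ⟨_, rfl⟩
  have hn1 : (n : ℝ) ≤ (t - 55) / 200 := by
    rw [hn]; exact Nat.floor_le (by linarith)
  have hn2 : (t - 55) / 200 < n + 1 := by
    rw [hn]; exact Nat.lt_floor_add_one _
  have hn3 : n < 250 := by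
    have : (n : ℝ) < 250 := by linarith
    exact_mod_cast this
  refine ⟨Sir_A n, filter_subset _ _, ?_⟩
  rw [Sir_eI, hκ]
  rcases Sir_dec n hn3 with h | h
  · rw [h]
    push_cast
    constructor <;> nlinarith
  · rw [h]
    push_cast
    constructor <;> nlinarith

end H69BG
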