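import Pool.Agent.H69.BG.Ein
import Pool.Agent.H69.BG.Sir

/-!
# ENA: the error of the good tuples, small moduli

`ein_triv` with `L = ⌈K/x^{e_I}⌉ ≤ 2K/x^{e_I}` (as `x^{e_I} ≤ x^{e_A} ≤ K`; every `r ∈ SI` is `≥ x^{e_I}`, so `K ≤ L r`). The product of the three cardinalities is at most
`x^{e_I + e_{I1} + e_{I2} + 3u} ≤ M x^{-60u}` (`card_SI_le`, hypothesis `hsmall`). So `‖EE‖ ≤ 8 K² x^{-e_I} M x^{-60u} ≤ M K² x^{-e_I-50u}` for `x` large.
-/

open Finset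

namespace H69BG

theorem ena : ∃ x0 : ℝ, ∀ x, x0 ≤ x → ∀ K M : ℕ, 1 ≤ M → ∀ A ⊆ Icc 1 8, x ^ (eI A + 50 * uu) ≤ K →
    ∀ I ⊆ A, ∀ I1 ⊆ range 9 \ A, ∀ I2 ⊆ range 9 \ A, ∀ t : ℤ,
      x ^ (eI I + eI I1 + eI I2 + 3 * uu) ≤ M * x ^ (-60 * uu) → ∀ b : ℕ → ℂ, (∀ k, ‖b k‖ ≤ 1) →
        ‖EE (PP x) I I1 I2 t K M b‖ ≤ M * (K : ℝ) ^ 2 * x ^ (-eI I - 50 * uu) := by
  have hu := Sir_uu_pos
  refine ⟨8 ^ (10000 : ℝ), ?_⟩
  intro x hx K M hM A hA hK I hI I1 hI1 I2 hI2 t hsmall b hb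
  have h8 : (1 : ℝ) < 8 ^ (10000 : ℝ) := Real.one_lt_rpow (by norm_num) (by norm_num)
  have hx1 : 1 < x := lt_of_lt_of_le h8 hx
  have hx0 : 0 < x := zero_lt_one.trans hx1
  have hbig : 8 ≤ x ^ (10 * uu) := by
    have h1 : ((8 : ℝ) ^ (10000 : ℝ)) ^ (10 * uu) ≤ x ^ (10 * uu) :=
      Real.rpow_le_rpow (by positivity) hx (by positivity)
    rw [← Real.rpow_mul (by norm_num)] at h1
    have h2 : (10000 : ℝ) * (10 * uu) = 1 := by unfold uu; norm_num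
    rw [h2, Real.rpow_one] at h1
    exact h1
  clear h8 hx
  have hA9 : A ⊆ range 9 := by
    intro i hi
    have := mem_Icc.1 (hA hi)
    rw [mem_range]
    omega
  have hI9 : I ⊆ range 9 := hI.trans hA9
  have hI19 : I1 ⊆ range 9 := hI1.trans sdiff_subset
  have hI29 : I2 ⊆ range 9 := hI2.trans sdiff_subset
  have hd1 : Disjoint I I1 := disjoint_of_subset_left hI (disjoint_of_subset_right hI1 disjoint_sdiff)
  have hd2 : Disjoint I I2 := disjoint_of_subset_left hI (disjoint_of_subset_right hI2 disjoint_sdiff)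
  have hex : ∀ i ∈ A, 0 ≤ ex i := fun i hi => by
    have := Sir_ex_ge (mem_range.1 (hA9 hi))
    linarith
  have hIA : eI I ≤ eI A := sum_le_sum_of_subset_of_nonneg hI fun i hi _ => hex i hi
  have hI0 : 0 ≤ eI I := sum_nonneg fun i hi => hex i (hI hi)
  obtain ⟨e, he⟩ : ∃ e, e = x ^ eI I := ⟨_, rfl⟩
  have he1 : 1 ≤ e := by rw [he]; exact Real.one_le_rpow hx1.le hI0
  have he0 : 0 < e := by linarith
  have hKe : e ≤ K := by
    rw [he]
    refine le_trans (Real.rpow_le_rpow_of_exponent_le hx1.le ?_) hK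
    linarith
  have hK1 : 1 ≤ K := by
    have : (1 : ℝ) ≤ K := by linarith
    exact_mod_cast this
  have hK0 : (0 : ℝ) < K := by linarith
  have hL : ∀ r ∈ SI (PP x) I, K ≤ ⌈(K : ℝ) / e⌉₊ * r := by
    intro r hr
    have h1 := (SI_range hx1 hI9 hr).1
    rw [← he] at h1
    have h2 : (K : ℝ) / e ≤ ⌈(K : ℝ) / e⌉₊ := Nat.le_ceil _
    have h3 : (K : ℝ) ≤ ⌈(K : ℝ) / e⌉₊ * r := by
      calc (K : ℝ) = K / e * e := by field_simp
        _ ≤ ⌈(K : ℝ) / e⌉₊ * r := mul_le_mul h2 h1 he0.le (by positivity)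
    exact_mod_cast h3
  have hL2 : ((⌈(K : ℝ) / e⌉₊ : ℕ) : ℝ) ≤ 2 * (K / e) := by
    have h1 := Nat.ceil_lt_add_one (show (0 : ℝ) ≤ K / e by positivity)
    have h2 : 1 ≤ (K : ℝ) / e := by rw [one_le_div he0]; exact hKe
    linarith
  have h1 := ein_triv (M := M) (t := t) (pps_sy hx1) hd1 hd2 hM hK1 hb hL
  have c0 := card_SI_le hx1 hI9
  have c1 := card_SI_le hx1 hI19
  have c2 := card_SI_le hx1 hI29
  have hprod : x ^ (eI I + uu) * x ^ (eI I1 + uu) * x ^ (eI I2 + uu) ≤ M * x ^ (-60 * uu) := by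
    rw [← Real.rpow_add hx0, ← Real.rpow_add hx0]
    refine le_trans (le_of_eq ?_) hsmall
    congr 1
    ring
  have hcard : ((SI (PP x) I).card : ℝ) * (SI (PP x) I1).card * (SI (PP x) I2).card ≤
      M * x ^ (-60 * uu) := by
    refine le_trans ?_ hprod
    exact mul_le_mul (mul_le_mul c0 c1 (by positivity) (by positivity)) c2 (by positivity)
      (by positivity)
  refine h1.trans ?_
  have hM0 : (0 : ℝ) < M := by exact_mod_cast hM
  have e1 : 2 * (((SI (PP x) I).card : ℝ) * K * (2 * (⌈(K : ℝ) / e⌉₊ : ℕ)) * (SI (PP x) I1).card *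
      (SI (PP x) I2).card) = (4 * K * (⌈(K : ℝ) / e⌉₊ : ℕ)) *
      (((SI (PP x) I).card : ℝ) * (SI (PP x) I1).card * (SI (PP x) I2).card) := by ring
  rw [e1]
  have e2 : (4 * K * ((⌈(K : ℝ) / e⌉₊ : ℕ) : ℝ)) ≤ 4 * K * (2 * (K / e)) :=
    mul_le_mul_of_nonneg_left hL2 (by positivity)
  refine (mul_le_mul e2 hcard (by positivity) (by positivity)).trans ?_
  have e3 : x ^ (-eI I - 50 * uu) = x ^ (-60 * uu) * x ^ (10 * uu) / e := by
    rw [he, ← Real.rpow_add hx0, ← Real.rpow_sub hx0]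
    congr 1
    ring
  rw [e3]
  have e4 : 4 * (K : ℝ) * (2 * (K / e)) * (M * x ^ (-60 * uu)) =
      M * K ^ 2 * (x ^ (-60 * uu) * 8 / e) := by
    field_simp
    ring
  rw [e4]
  have h60 : 0 < x ^ (-60 * uu) := Real.rpow_pos_of_pos hx0 _
  refine mul_le_mul_of_nonneg_left ?_ (by positivity)
  exact div_le_div_of_nonneg_right (mul_le_mul_of_nonneg_left hbig h60.le) he0.le

end H69BG
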