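import Pool.Agent.H69.BG.Sir

/-!
# KAP: upper bounds for `κ_i` and for the number of divisors

* `kap_le`: `κ_i = ∑ 1/p` over primes in `(X, X^{1+δ}]`, `X = x^{e_i}`, `X^{1+δ} = x^{e_i + u/10}`. Cover by dyadic intervals `(X 2^j, X 2^{j+1}]`, `0 ≤ j ≤ (u/10) log x/log 2`. In each:
  `∑ 1/p ≤ (1/(X 2^j)) #{p}`, and `#{p ∈ (Y, 2Y]} log Y ≤ ∑_{p ≤ 2Y} log p ≤ 2Y log 4` (`primorial_le_4_pow`), so `∑ 1/p ≤ 2 log 4/log Y ≤ 2 log 4/(e_i log x)`. Number of
  intervals `≤ (u/10) log x/log 2 + 1`. Total `≤ C`.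
* `om_le`: the primes of `P i` are `> x^{200u}`; `k` of them divide `n`, `|n| ≤ x^{1.1}`: their product divides `n`, so `x^{200 u k} ≤ x^{1.1}`, `k ≤ 550`.
* `pps_b`: `card_dvd` and `om_le`: `≤ 550^9`.
-/

open Finset

namespace H69BG

private lemma KAP_dy {Y : ℝ} (hY : 1 < Y) (S : Finset ℕ)
    (hS : ∀ p ∈ S, p.Prime ∧ Y < p ∧ (p : ℝ) ≤ 2 * Y) :
    ∑ p ∈ S, (1 / (p : ℝ)) ≤ 2 * Real.log 4 / Real.log Y := by
  have hY0 : 0 < Y := by linarith
  have hlY : 0 < Real.log Y := Real.log_pos hY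
  have h1 : ∀ p ∈ S, (1 / (p : ℝ)) ≤ Real.log p / (Y * Real.log Y) := by
    intro p hp
    obtain ⟨-, hp2, -⟩ := hS p hp
    have hp0 : (0 : ℝ) < p := by linarith
    have h2 : Real.log Y ≤ Real.log p := Real.log_le_log hY0 hp2.le
    rw [div_le_div_iff₀ hp0 (by positivity), one_mul]
    calc Y * Real.log Y ≤ p * Real.log p := mul_le_mul hp2.le h2 hlY.le hp0.le
      _ = Real.log p * p := mul_comm _ _
  refine (Finset.sum_le_sum h1).trans ?_
  rw [← Finset.sum_div]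
  have h3 : ∑ p ∈ S, Real.log (p : ℝ) ≤ Chebyshev.theta (2 * Y) := by
    unfold Chebyshev.theta
    refine Finset.sum_le_sum_of_subset_of_nonneg ?_ ?_
    · intro p hp
      obtain ⟨hp1, hp2, hp3⟩ := hS p hp
      rw [Finset.mem_filter, Finset.mem_Ioc]
      exact ⟨⟨hp1.pos, Nat.le_floor hp3⟩, hp1⟩
    · intro p _ _
      exact Real.log_natCast_nonneg p
  have h4 := Chebyshev.theta_le_log4_mul_x (x := 2 * Y) (by linarith)
  calc (∑ p ∈ S, Real.log (p : ℝ)) / (Y * Real.log Y) ≤ (Real.log 4 * (2 * Y)) / (Y * Real.log Y) :=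
        div_le_div_of_nonneg_right (h3.trans h4) (by positivity)
    _ = 2 * Real.log 4 / Real.log Y := by
        field_simp

private lemma KAP_multi {A : ℝ} (hA : 1 < A) (J : ℕ) : ∀ (S : Finset ℕ),
    (∀ p ∈ S, p.Prime ∧ A < p ∧ (p : ℝ) ≤ 2 ^ J * A) →
    ∑ p ∈ S, (1 / (p : ℝ)) ≤ J * (2 * Real.log 4 / Real.log A) := by
  have hlA : 0 < Real.log A := Real.log_pos hA
  have hl4 : 0 < Real.log 4 := Real.log_pos (by norm_num)
  induction J with
  | zero =>
    intro S hS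
    have : S = ∅ := by
      rw [Finset.eq_empty_iff_forall_notMem]
      intro p hp
      obtain ⟨-, h1, h2⟩ := hS p hp
      rw [pow_zero, one_mul] at h2
      linarith
    rw [this]
    simp
  | succ J ih =>
    intro S hS
    classical
    rw [← Finset.sum_filter_add_sum_filter_not S (fun p : ℕ => (p : ℝ) ≤ 2 ^ J * A)]
    have h1 := ih (S.filter (fun p : ℕ => (p : ℝ) ≤ 2 ^ J * A)) (by
      intro p hp
      rw [Finset.mem_filter] at hp
      obtain ⟨h2, h3, -⟩ := hS p hp.1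
      exact ⟨h2, h3, hp.2⟩)
    have h2J : (1 : ℝ) ≤ 2 ^ J := one_le_pow₀ (by norm_num)
    have hAY : A ≤ 2 ^ J * A := le_mul_of_one_le_left (by linarith) h2J
    have h2 := KAP_dy (Y := 2 ^ J * A) (by linarith) (S.filter (fun p : ℕ => ¬ (p : ℝ) ≤ 2 ^ J * A)) (by
      intro p hp
      rw [Finset.mem_filter, not_le] at hp
      obtain ⟨h2, h3, h4⟩ := hS p hp.1
      refine ⟨h2, hp.2, ?_⟩
      rw [pow_succ] at h4
      linarith)
    have h3 : 2 * Real.log 4 / Real.log (2 ^ J * A) ≤ 2 * Real.log 4 / Real.log A :=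
      div_le_div_of_nonneg_left (by positivity) hlA (Real.log_le_log (by linarith) hAY)
    push_cast
    linarith

private lemma KAP_mem {x : ℝ} {i p : ℕ} (hp : p ∈ PP x i) :
    i < 9 ∧ p.Prime ∧ x ^ ex i < p ∧ (p : ℝ) ≤ x ^ (ex i + uu / 10) := by
  classical
  unfold PP at hp
  split_ifs at hp with hi
  · rw [Finset.mem_filter] at hp
    exact ⟨hi, hp.2⟩
  · simp at hp

private lemma KAP_ex {i : ℕ} (hi : i < 9) : 200 * uu ≤ ex i := by
  unfold ex
  have h1 : (0 : ℝ) < uu := by unfold uu; norm_num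
  refine mul_le_mul_of_nonneg_right ?_ h1.le
  have h2 : 200 ≤ exN i := by
    interval_cases i <;> decide
  exact_mod_cast h2

theorem om_le {x : ℝ} (hx : 1 < x) (i : ℕ) {n : ℤ} (hn : n ≠ 0) (hnx : (|n| : ℝ) ≤ x ^ (11 / 10 : ℝ)) :
    om (PP x) i n ≤ 550 := by
  unfold om
  set T := (PP x i).filter (fun p : ℕ => (p : ℤ) ∣ n) with hT
  have hTm : ∀ p ∈ T, p ∈ PP x i ∧ (p : ℤ) ∣ n := fun p hp => by
    rw [hT, Finset.mem_filter] at hp
    exact hp
  have hdvd : (∏ p ∈ T, p) ∣ n.natAbs := by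
    refine Finset.prod_primes_dvd _ ?_ ?_
    · intro p hp
      exact (KAP_mem (hTm p hp).1).2.1.prime
    · intro p hp
      exact Int.natCast_dvd.1 (hTm p hp).2
  have hle : (∏ p ∈ T, p) ≤ n.natAbs := Nat.le_of_dvd (Int.natAbs_pos.2 hn) hdvd
  have hle' : (∏ p ∈ T, (p : ℝ)) ≤ x ^ (11 / 10 : ℝ) := by
    have h1 : (((∏ p ∈ T, p : ℕ)) : ℝ) ≤ ((n.natAbs : ℕ) : ℝ) := by exact_mod_cast hle
    rw [Nat.cast_prod] at h1
    refine h1.trans ?_
    rw [Nat.cast_natAbs, Int.cast_abs]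
    exact hnx
  have hpow : (x ^ (200 * uu)) ^ T.card ≤ ∏ p ∈ T, (p : ℝ) := by
    rw [← Finset.prod_const]
    refine Finset.prod_le_prod (fun p _ => (Real.rpow_pos_of_pos (by linarith) _).le) ?_
    intro p hp
    obtain ⟨hi, -, h2, -⟩ := KAP_mem (hTm p hp).1
    exact (Real.rpow_le_rpow_of_exponent_le hx.le (KAP_ex hi)).trans h2.le
  have h3 : x ^ (200 * uu * T.card) ≤ x ^ (11 / 10 : ℝ) := by
    rw [Real.rpow_mul (by linarith), Real.rpow_natCast]
    exact hpow.trans hle'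
  have h4 : 200 * uu * T.card ≤ 11 / 10 := (Real.rpow_le_rpow_left_iff hx).1 h3
  unfold uu at h4
  linarith

theorem kap_le : ∃ C x0 : ℝ, ∀ x, x0 ≤ x → ∀ i, kap (PP x) i ≤ C := by
  have hl4 : 0 < Real.log 4 := Real.log_pos (by norm_num)
  have hl2 : 0 < Real.log 2 := Real.log_pos (by norm_num)
  have hu : (0 : ℝ) < uu := by unfold uu; norm_num
  refine ⟨(uu / 10 / Real.log 2 + 1) * (2 * Real.log 4 / (200 * uu)), Real.exp 1, fun x hx i => ?_⟩
  have hx0 : 0 < x := (Real.exp_pos 1).trans_le hx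
  have hlx : 1 ≤ Real.log x := by
    rw [Real.le_log_iff_exp_le hx0]
    exact hx
  have hx1 : 1 < x := by
    have := Real.add_one_lt_exp (one_ne_zero)
    linarith
  by_cases hi : i < 9
  · have hex := KAP_ex hi
    have hexp : 0 < ex i := by linarith [mul_pos (show (0:ℝ) < 200 by norm_num) hu]
    set A := x ^ ex i with hA
    have hA1 : 1 < A := Real.one_lt_rpow hx1 hexp
    have hlA : Real.log A = ex i * Real.log x := Real.log_rpow hx0 _
    set J := ⌈uu / 10 * Real.log x / Real.log 2⌉₊ with hJ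
    have hJ1 : uu / 10 * Real.log x / Real.log 2 ≤ J := Nat.le_ceil _
    have hJ2 : (J : ℝ) < uu / 10 * Real.log x / Real.log 2 + 1 := Nat.ceil_lt_add_one (by positivity)
    have hB : x ^ (ex i + uu / 10) ≤ 2 ^ J * A := by
      rw [Real.rpow_add hx0, mul_comm]
      refine mul_le_mul_of_nonneg_right ?_ (by linarith)
      rw [← Real.rpow_natCast, Real.rpow_def_of_pos hx0, Real.rpow_def_of_pos (by norm_num : (0:ℝ) < 2)]
      apply Real.exp_le_exp.2
      rw [div_le_iff₀ hl2] at hJ1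
      linarith
    have h1 := KAP_multi hA1 J (PP x i) (by
      intro p hp
      obtain ⟨-, h2, h3, h4⟩ := KAP_mem hp
      exact ⟨h2, h3, h4.trans hB⟩)
    unfold kap
    refine h1.trans ?_
    rw [hlA]
    have h2 : (J : ℝ) ≤ (uu / 10 / Real.log 2 + 1) * Real.log x := by
      have : uu / 10 * Real.log x / Real.log 2 = uu / 10 / Real.log 2 * Real.log x := by ring
      rw [this] at hJ2
      nlinarith
    have h3 : 2 * Real.log 4 / (ex i * Real.log x) ≤ 2 * Real.log 4 / (200 * uu * Real.log x) := by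
      refine div_le_div_of_nonneg_left (by positivity) (by positivity) ?_
      exact mul_le_mul_of_nonneg_right hex (by linarith)
    calc (J : ℝ) * (2 * Real.log 4 / (ex i * Real.log x))
        ≤ ((uu / 10 / Real.log 2 + 1) * Real.log x) * (2 * Real.log 4 / (200 * uu * Real.log x)) :=
          mul_le_mul h2 h3 (by positivity) (by positivity)
      _ = (uu / 10 / Real.log 2 + 1) * (2 * Real.log 4 / (200 * uu)) := by
          field_simp
  · unfold kap PP
    rw [if_neg hi, Finset.sum_empty]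
    positivity

theorem pps_b : ∃ Cd : ℕ, ∃ x0 : ℝ, ∀ x, x0 ≤ x → SyB (PP x) ⌊x ^ (11 / 10 : ℝ)⌋₊ Cd := by
  obtain ⟨C, x0, h⟩ := kap_le
  refine ⟨max (550 ^ 9) ⌈C⌉₊, max x0 2, fun x hx => ?_⟩
  have hx1 : 1 < x := by
    have := (le_max_right x0 2).trans hx
    linarith
  refine ⟨?_, ?_, ?_⟩
  · exact le_trans (by norm_num) (le_max_left _ _)
  · intro I hI n hn hnN
    have hnx : (|n| : ℝ) ≤ x ^ (11 / 10 : ℝ) := by
      have h1 : ((|n| : ℤ) : ℝ) ≤ ((⌊x ^ (11 / 10 : ℝ)⌋₊ : ℕ) : ℝ) := by exact_mod_cast hnN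
      rw [Int.cast_abs] at h1
      exact h1.trans (Nat.floor_le (Real.rpow_pos_of_pos (by linarith) _).le)
    have h1 := card_dvd (pps_sy hx1) I n
    have h2 : (((SI (PP x) I).filter (fun s : ℕ => (s : ℤ) ∣ n)).card : ℝ) ≤ ((550 ^ 9 : ℕ) : ℝ) := by
      rw [h1]
      calc ∏ i ∈ I, om (PP x) i n ≤ ∏ i ∈ I, (550 : ℝ) := by
            refine Finset.prod_le_prod (fun i _ => ?_) fun i _ => om_le hx1 i hn hnx
            unfold om
            exact Nat.cast_nonneg _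
        _ = 550 ^ I.card := by rw [Finset.prod_const]
        _ ≤ 550 ^ 9 := by
            refine pow_le_pow_right₀ (by norm_num) ?_
            exact (Finset.card_le_card hI).trans (by simp)
        _ = ((550 ^ 9 : ℕ) : ℝ) := by norm_num
    have h3 : ((SI (PP x) I).filter (fun s : ℕ => (s : ℤ) ∣ n)).card ≤ 550 ^ 9 := by exact_mod_cast h2
    exact h3.trans (le_max_left _ _)
  · intro i _
    refine (h x ((le_max_left _ _).trans hx) i).trans ?_
    refine (Nat.le_ceil C).trans ?_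
    exact_mod_cast le_max_right (550 ^ 9) ⌈C⌉₊

end H69BG
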