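import Pool.Agent.H69.BG.Inc
import Pool.Agent.H69.BG.Sir
import Pool.Agent.H69.LB.Div
import Pool.Agent.H94.WeylC

/-!
# TST: the size of the bound of INC

`inc` with `L = R'` (`b ≤ B ≤ R' ≤ K < k`). By `phi4_le` and `H69LB.le_totient` (`k/φ(k) ≤ 2 (1 + log k)`):
`Phi4 L b/k ≤ 2 g0 k³ τ(k)² R' B/φ(k) ≤ 4 g0 (1 + log k) τ(k)² k² R' B`. With `k ≤ 2 x^κ`, `g0 ≤ x^{1003u}`, `R' ≤ x^ρ`, `B ≤ x^β`, `τ(k) ≤ C k^{u/4}` (divisor bound, in
`Pool/Agent/H94/WeylC.lean`), `(4 + log(kb)) (16 (1 + log k) τ(k)²)^{1/4} ≤ x^{u}` for `x` large. The exponent is `1003u/4 + κ/2 + ρ/4 + β/4 + u ≤ κ/2 + (ρ + β)/4 + 252u`.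
-/

open Finset H69LB

namespace H69BG

theorem TST_uu : (0 : ℝ) < uu := by unfold uu; norm_num

theorem TST_ev (C : ℝ) (hC : 1 ≤ C) : ∃ x1 : ℝ, ∀ x, x1 ≤ x →
    (4 + 3 * Real.log x) * (16 * (1 + 2 * Real.log x) * C ^ 2) ≤ x ^ uu := by
  have hu := TST_uu
  have hc : 0 < 1 / (336 * C ^ 2) := by positivity
  have h1 := (isLittleO_log_rpow_atTop (r := uu / 2) (by positivity)).bound hc
  have h2 : ∀ᶠ x : ℝ in Filter.atTop, 336 * C ^ 2 ≤ x ^ (uu / 2) :=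
    (tendsto_rpow_atTop (by positivity : 0 < uu / 2)).eventually_ge_atTop _
  have h3 : ∀ᶠ x : ℝ in Filter.atTop,
      (4 + 3 * Real.log x) * (16 * (1 + 2 * Real.log x) * C ^ 2) ≤ x ^ uu := by
    filter_upwards [h1, h2, Filter.eventually_ge_atTop 1] with x h1 h2 h3
    have hx0 : 0 < x := by linarith
    have hl : 0 ≤ Real.log x := Real.log_nonneg h3
    rw [Real.norm_of_nonneg hl, Real.norm_of_nonneg (Real.rpow_nonneg hx0.le _)] at h1
    have hy : x ^ uu = x ^ (uu / 2) * x ^ (uu / 2) := by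
      rw [← Real.rpow_add hx0]; ring_nf
    rw [hy]
    set y := x ^ (uu / 2) with hydef
    have hy0 : 0 < y := Real.rpow_pos_of_pos hx0 _
    have hC2 : 1 ≤ C ^ 2 := one_le_pow₀ hC
    have e1 : 1 ≤ 1 / (336 * C ^ 2) * y := by
      rw [div_mul_eq_mul_div, one_mul, one_le_div (by positivity)]
      exact h2
    have e2 : 4 + 3 * Real.log x ≤ 7 * (1 / (336 * C ^ 2) * y) := by linarith
    have e3 : 1 + 2 * Real.log x ≤ 3 * (1 / (336 * C ^ 2) * y) := by linarith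
    calc (4 + 3 * Real.log x) * (16 * (1 + 2 * Real.log x) * C ^ 2)
        ≤ (7 * (1 / (336 * C ^ 2) * y)) * (16 * (3 * (1 / (336 * C ^ 2) * y)) * C ^ 2) := by
          gcongr
      _ = (1 / (336 * C ^ 2)) * (y * y) := by
          field_simp
          ring
      _ ≤ 1 * (y * y) := by
          gcongr
          rw [div_le_one (by positivity)]
          nlinarith
      _ = y * y := one_mul _
  obtain ⟨x1, hx1⟩ := Filter.eventually_atTop.1 h3
  exact ⟨x1, fun x hx => hx1 x hx⟩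

theorem tst : ∃ x0 : ℝ, ∀ x, x0 ≤ x → ∀ κ ρ β : ℝ, 33000 * uu ≤ κ → κ ≤ 50001 * uu → ρ ≤ 1 → β ≤ 1 →
    ∀ K R' B g0 : ℕ, (K : ℝ) = x ^ κ → (R' : ℝ) ≤ x ^ ρ → (B : ℝ) ≤ x ^ β → (g0 : ℝ) ≤ x ^ (1003 * uu) →
      B ≤ R' → R' ≤ K →
      ∀ k ∈ Ioc K (2 * K), ∀ b : ℕ, 1 ≤ b → b ≤ B → Nat.Coprime k b → ∀ A : ZMod k, Nat.gcd A.val k ≤ g0 →
      ∀ G : ZMod b → ℂ, (∀ s, ‖G s‖ ≤ 1) → ∀ X Y : ℕ, Y ≤ X + R' →
        ‖∑ r ∈ (Ioc X Y).filter (fun r => Nat.Coprime r k), eZ k (A * (r : ZMod k)⁻¹) * G (r : ZMod b)‖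
          ≤ x ^ (κ / 2 + ρ / 4 + β / 4 + 252 * uu) := by
  have hu := TST_uu
  obtain ⟨C, hC1, hC⟩ := Pool.Agent.H94.Weyl.card_divisors_le (uu / 4) (by positivity)
  obtain ⟨x1, hx1⟩ := TST_ev C hC1
  refine ⟨max x1 2, fun x hx κ ρ β hκ1 hκ2 hρ hβ K R' B g0 hK hR hB hg0 hBR hRK k hk b hb1 hbB hcop A hA
    G hG X Y hXY => ?_⟩
  have hxx1 : x1 ≤ x := (le_max_left _ _).trans hx
  have hx2 : 2 ≤ x := (le_max_right _ _).trans hx
  have hx0 : 0 < x := by linarith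
  have hx1' : 1 ≤ x := by linarith
  rw [mem_Ioc] at hk
  have hk0 : 0 < k := by omega
  haveI : NeZero k := ⟨hk0.ne'⟩
  have hinc := inc hb1 hcop A G hG (L := R') (X := X) (Y := Y) (hbB.trans hBR) (hRK.trans hk.1.le) hXY
  refine hinc.trans ?_
  have hphi := phi4_le k A
  have htot := le_totient (n := k) hk0
  have hlx : 0 ≤ Real.log x := Real.log_nonneg hx1'
  have hkR : (0 : ℝ) < k := by exact_mod_cast hk0
  have hk1R : (1 : ℝ) ≤ k := by exact_mod_cast hk0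
  have hb1R : (1 : ℝ) ≤ b := by exact_mod_cast hb1
  have hkK : (k : ℝ) ≤ 2 * x ^ κ := by
    rw [← hK]
    exact_mod_cast hk.2
  have hκ1' : κ ≤ 1 := by
    have : 50001 * uu ≤ 1 := by unfold uu; norm_num
    linarith
  have hκ0 : 0 ≤ κ := by
    have : 0 ≤ 33000 * uu := by positivity
    linarith
  have hkx : (k : ℝ) ≤ x ^ (2 : ℝ) := by
    have h1 : x ^ κ ≤ x := by
      calc x ^ κ ≤ x ^ (1 : ℝ) := Real.rpow_le_rpow_of_exponent_le hx1' hκ1'
        _ = x := Real.rpow_one x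
    have h2 : x ^ (2 : ℝ) = x * x := by
      rw [Real.rpow_two]; ring
    rw [h2]
    nlinarith
  have hbx : (b : ℝ) ≤ x := by
    calc (b : ℝ) ≤ B := by exact_mod_cast hbB
      _ ≤ x ^ β := hB
      _ ≤ x ^ (1 : ℝ) := Real.rpow_le_rpow_of_exponent_le hx1' hβ
      _ = x := Real.rpow_one x
  have hlogk : Real.log k ≤ 2 * Real.log x := by
    calc Real.log k ≤ Real.log (x ^ (2 : ℝ)) := Real.log_le_log hkR hkx
      _ = 2 * Real.log x := Real.log_rpow hx0 2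
  have hlogkb : Real.log ((k * b : ℕ) : ℝ) ≤ 3 * Real.log x := by
    have h1 : ((k * b : ℕ) : ℝ) = (k : ℝ) * b := by push_cast; ring
    rw [h1, Real.log_mul hkR.ne' (by linarith)]
    have h2 : Real.log b ≤ Real.log x := Real.log_le_log (by linarith) hbx
    linarith
  have hlogk0 : 0 ≤ Real.log k := Real.log_nonneg hk1R
  have hlogkb0 : 0 ≤ Real.log ((k * b : ℕ) : ℝ) := Real.log_natCast_nonneg _
  -- divisor bound
  have htau : (k.divisors.card : ℝ) ≤ C * x ^ (uu / 2) := by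
    refine (hC k hk0).trans ?_
    have h1 : (k : ℝ) ^ (uu / 4) ≤ (x ^ (2 : ℝ)) ^ (uu / 4) :=
      Real.rpow_le_rpow hkR.le hkx (by positivity)
    have h2 : (x ^ (2 : ℝ)) ^ (uu / 4) = x ^ (uu / 2) := by
      rw [← Real.rpow_mul hx0.le]; ring_nf
    rw [h2] at h1
    exact mul_le_mul_of_nonneg_left h1 (by linarith)
  have htau2 : (k.divisors.card : ℝ) ^ 2 ≤ C ^ 2 * x ^ uu := by
    have h1 : (k.divisors.card : ℝ) ^ 2 ≤ (C * x ^ (uu / 2)) ^ 2 :=
      pow_le_pow_left₀ (Nat.cast_nonneg _) htau 2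
    have h2 : (C * x ^ (uu / 2)) ^ 2 = C ^ 2 * x ^ uu := by
      rw [mul_pow]
      congr 1
      rw [← Real.rpow_natCast, ← Real.rpow_mul hx0.le]
      congr 1
      push_cast
      ring
    rwa [h2] at h1
  have hphi0 : (0 : ℝ) < (Nat.totient k : ℝ) := by exact_mod_cast Nat.totient_pos.2 hk0
  have hratio : (k : ℝ) / (Nat.totient k : ℝ) ≤ 2 * (1 + 2 * Real.log x) := by
    rw [div_le_iff₀ hphi0]
    refine htot.trans ?_
    gcongr
  have hmain : Phi4 k A * R' * b / k ≤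
      16 * (1 + 2 * Real.log x) * C ^ 2 * x ^ (1004 * uu + 2 * κ + ρ + β) := by
    have hgR : ((Nat.gcd A.val k : ℕ) : ℝ) ≤ x ^ (1003 * uu) := by
      refine le_trans ?_ hg0
      exact_mod_cast hA
    have hbB' : (b : ℝ) ≤ x ^ β := by
      refine le_trans ?_ hB
      exact_mod_cast hbB
    have hPhi0 : 0 ≤ Phi4 k A := by
      unfold Phi4
      exact sum_nonneg fun _ _ => by positivity
    calc Phi4 k A * R' * b / k
        ≤ (2 * (Nat.gcd A.val k : ℝ) * k ^ 4 * (k.divisors.card : ℝ) ^ 2 / (Nat.totient k : ℝ)) * R' * b / k := by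
          gcongr
      _ = 2 * (Nat.gcd A.val k : ℝ) * k ^ 2 * (k.divisors.card : ℝ) ^ 2 * ((k : ℝ) / (Nat.totient k : ℝ)) * R' * b := by
          field_simp
      _ ≤ 2 * x ^ (1003 * uu) * (2 * x ^ κ) ^ 2 * (C ^ 2 * x ^ uu) * (2 * (1 + 2 * Real.log x)) * x ^ ρ * x ^ β := by
          have n1 : 0 ≤ x ^ (1003 * uu) := Real.rpow_nonneg hx0.le _
          have n2 : 0 ≤ x ^ κ := Real.rpow_nonneg hx0.le _
          have n3 : 0 ≤ x ^ uu := Real.rpow_nonneg hx0.le _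
          have n4 : 0 ≤ x ^ ρ := Real.rpow_nonneg hx0.le _
          have n5 : 0 ≤ (k : ℝ) / (Nat.totient k : ℝ) := by positivity
          have n6 : 0 ≤ 1 + 2 * Real.log x := by positivity
          gcongr
      _ = 16 * (1 + 2 * Real.log x) * C ^ 2 * x ^ (1004 * uu + 2 * κ + ρ + β) := by
          have h1 : x ^ (1004 * uu + 2 * κ + ρ + β) =
              x ^ (1003 * uu) * x ^ uu * (x ^ κ) ^ 2 * x ^ ρ * x ^ β := by
            rw [show 1004 * uu + 2 * κ + ρ + β = 1003 * uu + uu + κ + κ + ρ + β by ring,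
              Real.rpow_add hx0, Real.rpow_add hx0, Real.rpow_add hx0, Real.rpow_add hx0,
              Real.rpow_add hx0]
            ring
          rw [h1]
          ring
  have hPhi0 : 0 ≤ Phi4 k A * R' * b / k := by
    have : 0 ≤ Phi4 k A := by
      unfold Phi4
      exact sum_nonneg fun _ _ => by positivity
    positivity
  have hD1 : 1 ≤ 16 * (1 + 2 * Real.log x) * C ^ 2 := by
    have hC2 : 1 ≤ C ^ 2 := one_le_pow₀ hC1
    nlinarith
  have hpow : (Phi4 k A * R' * b / k) ^ (1 / 4 : ℝ) ≤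
      (16 * (1 + 2 * Real.log x) * C ^ 2) * x ^ (κ / 2 + ρ / 4 + β / 4 + 251 * uu) := by
    calc (Phi4 k A * R' * b / k) ^ (1 / 4 : ℝ)
        ≤ (16 * (1 + 2 * Real.log x) * C ^ 2 * x ^ (1004 * uu + 2 * κ + ρ + β)) ^ (1 / 4 : ℝ) :=
          Real.rpow_le_rpow hPhi0 hmain (by norm_num)
      _ = (16 * (1 + 2 * Real.log x) * C ^ 2) ^ (1 / 4 : ℝ) *
          (x ^ (1004 * uu + 2 * κ + ρ + β)) ^ (1 / 4 : ℝ) :=
          Real.mul_rpow (by linarith) (Real.rpow_nonneg hx0.le _)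
      _ ≤ (16 * (1 + 2 * Real.log x) * C ^ 2) * x ^ (κ / 2 + ρ / 4 + β / 4 + 251 * uu) := by
          have h1 : (x ^ (1004 * uu + 2 * κ + ρ + β)) ^ (1 / 4 : ℝ) =
              x ^ (κ / 2 + ρ / 4 + β / 4 + 251 * uu) := by
            rw [← Real.rpow_mul hx0.le]
            congr 1
            ring
          rw [h1]
          have h2 : (16 * (1 + 2 * Real.log x) * C ^ 2) ^ (1 / 4 : ℝ) ≤
              16 * (1 + 2 * Real.log x) * C ^ 2 := by
            calc _ ≤ (16 * (1 + 2 * Real.log x) * C ^ 2) ^ (1 : ℝ) :=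
                  Real.rpow_le_rpow_of_exponent_le hD1 (by norm_num)
              _ = _ := Real.rpow_one _
          exact mul_le_mul_of_nonneg_right h2 (Real.rpow_nonneg hx0.le _)
  have hev := hx1 x hxx1
  calc (4 + Real.log ((k * b : ℕ) : ℝ)) * (Phi4 k A * R' * b / k) ^ (1 / 4 : ℝ)
      ≤ (4 + 3 * Real.log x) *
        ((16 * (1 + 2 * Real.log x) * C ^ 2) * x ^ (κ / 2 + ρ / 4 + β / 4 + 251 * uu)) := by
        apply mul_le_mul _ hpow (Real.rpow_nonneg hPhi0 _) (by positivity)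
        linarith
    _ = ((4 + 3 * Real.log x) * (16 * (1 + 2 * Real.log x) * C ^ 2)) *
        x ^ (κ / 2 + ρ / 4 + β / 4 + 251 * uu) := by ring
    _ ≤ x ^ uu * x ^ (κ / 2 + ρ / 4 + β / 4 + 251 * uu) :=
        mul_le_mul_of_nonneg_right hev (Real.rpow_nonneg hx0.le _)
    _ = x ^ (κ / 2 + ρ / 4 + β / 4 + 252 * uu) := by
        rw [← Real.rpow_add hx0]
        congr 1
        ring

end H69BG
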