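import Pool.Agent.H69.BG.Ein
import Pool.Agent.H69.BG.Tst
import Pool.Agent.H69.BG.Kap

/-!
# ENB: the error of the good tuples, large moduli

Write `(K : ℝ) = x^κ` (`κ = log K/log x`), all exponents in units of `u`: `33000 ≤ κ`, `κ ≤ 50001` (for `x` large, from `K ≤ C0 x^{1/2}`), `e_A + 50 ≤ κ ≤ e_A + 260`. `E_B = 50005 - e_A`.
`n_W` = number of `j ∈ {1,2}` with `0 ∈ I_j`; `e_{I1} + e_{I2} ≤ 2 E_B - 200 (2 - n_W)` and `e_I ≤ e_A`. `V = Cp/(4M)`, `Cm = x^{e_I+e_{I1}+e_{I2}}`, `Cp = x^{e_I+e_{I1}+e_{I2}+3}`.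
(1) `M ≥ x/(C0 K)`, so `Cp/M ≤ C0 x^{e_A + 2E_B - 200(2-n_W) + 3 - 100000 + κ} = C0 x^{κ - e_A + 13 - 400 + 200 n_W} ≤ C0 x^{-127 + 200 n_W}`, in particular `≤ C0 x^{273}`.
(2) large moduli: `Cp > M x^{-60}`; with `M ≥ x^{100000 - κ}/C0`: `e_I ≥ 100000 - κ - 63 - 2E_B - small ≥ 2 e_A - κ - 74`, so `κ - e_I ≤ 2 (κ - e_A) + 74 ≤ 594`.
Parameters for `ein`: `R = ⌈x^{e_I}⌉ - 1` (so `r > R` for all `r ≥ x^{e_I}` integers; `R ≥ 1`; `R ≥ x^{e_I}/2`), `R' = ⌊x^{e_I+1}⌋`, `L = ⌈K/R⌉ ≤ 4 x^{κ-e_I}`, `V1 = ⌈x^{600}⌉`, `w0 = x^{200}`,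
`w1 = x^{200.1}`, `B = ⌊x^{50467-κ}⌋` (`q' w1 ≤ x^{E_B + 1 + 200.1} ≤ x^{50005 - (κ-260) + 201.1} ≤ B`-exponent `50466.1 - κ`), `g0 = ⌊x^{1003}⌋` (`|t| 2 V1 w1² ≤ 4 x^{2+600+400.2}`), `Tst = x^{κ/2 + (e_I+1)/4 + (50467-κ)/4 + 252}` from `tst`.
Note: elements of `SI P I` lie in `Ioc R R'` (`SI_range`), `hC` with `Cm`, `Cp` as `r ≥ R + 1 ≥ x^{e_I}` for `r ∈ Ioc R R'`.
First term of `ein`: the square root is at most (prefactor) × (sum of the two square roots).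
 prefactor `2 L K (R'-R) |U1||U2| 4M/Cm`, `|U1||U2| ≤ x^{e_{I1}+e_{I2}+2-200 n_W}`: `≤ 32 M K² x^{-e_I} x^{3 - 200 n_W}`.
 diagonal: `sqrt(66 V |W1||W2|) (w1/w0) ≤ 9 (C0)^{1/2} x^{(-127+200 n_W)/2} x^{100.05 n_W} x^{0.1}`. Product: `≤ C M K² x^{-e_I} x^{3.1 - 63.5 + 0.1} ≤ M K² x^{-e_I} x^{-60}`.
 off-diagonal: `2 V1 |W1||W2| ≤ 4 x^{600 + 200.1 n_W}`; `X = Xf ≤ C x^{63} x^{600}` (`M/Cm ≤ x^{63}`); `(R'-R)/R ≤ 2x`; `R' - R ≥ x^{e_I+1}/2`; `Tst/(R'-R) ≤ 2 x^{κ/2 - (3/4) e_I + (50467-κ)/4 + 253}`, and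
 `κ/2 - (3/4) e_I - κ/4 ≤ κ/4 - (3/4)(κ - 594) = -κ/2 + 445.5`; so `Tst/(R'-R) ≤ 2 x^{-16500 + 12617 + 446 + 253} = 2 x^{-3184}`. Total off-diagonal
 `≤ C M K² x^{-e_I} x^{3.2 + 600 + (663 + 2 - 3184)/2} ≤ M K² x^{-e_I} x^{-600}`.
Second term of `ein` (tail): `|SI I| K 2L |SI I1||SI I2| Cp/(2 M V1) ≤ 4 K² x^{-e_I} Cp²/(M V1) = 4 M K² x^{-e_I} (Cp/M)²/V1 ≤ 4 C0² M K² x^{-e_I} x^{546 - 600}` (use (1)) `≤ M K² x^{-e_I - 51}`.
Sum `≤ M K² x^{-e_I - 50}` for `x` large.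
-/

open Finset

namespace H69BG

lemma ENB_uu : (0 : ℝ) < uu := by
  unfold uu
  norm_num

/-- `q` is between `0` and `c x^{s u}` -/
def ENB_Bd (x q c s : ℝ) : Prop := 0 ≤ q ∧ 0 ≤ c ∧ q ≤ c * x ^ (s * uu)

section bd

variable {x q c s q' c' s' : ℝ}

lemma ENB_add (hx : 0 < x) (s t : ℝ) : x ^ ((s + t) * uu) = x ^ (s * uu) * x ^ (t * uu) := by
  rw [add_mul, Real.rpow_add hx]

lemma ENB_mono (hx : 1 ≤ x) {s t : ℝ} (h : s ≤ t) : x ^ (s * uu) ≤ x ^ (t * uu) :=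
  Real.rpow_le_rpow_of_exponent_le hx (mul_le_mul_of_nonneg_right h ENB_uu.le)

lemma ENB_Bd.mul (hx : 0 < x) (h : ENB_Bd x q c s) (h' : ENB_Bd x q' c' s') :
    ENB_Bd x (q * q') (c * c') (s + s') := by
  refine ⟨mul_nonneg h.1 h'.1, mul_nonneg h.2.1 h'.2.1, ?_⟩
  rw [ENB_add hx]
  calc q * q' ≤ (c * x ^ (s * uu)) * (c' * x ^ (s' * uu)) :=
        mul_le_mul h.2.2 h'.2.2 h'.1 (mul_nonneg h.2.1 (Real.rpow_nonneg hx.le _))
    _ = _ := by ring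

lemma ENB_Bd.cmul {a : ℝ} (ha : 0 ≤ a) (h : ENB_Bd x q c s) : ENB_Bd x (a * q) (a * c) s := by
  refine ⟨mul_nonneg ha h.1, mul_nonneg ha h.2.1, ?_⟩
  rw [mul_assoc]
  exact mul_le_mul_of_nonneg_left h.2.2 ha

lemma ENB_Bd.sq (hx : 0 < x) (h : ENB_Bd x q c s) : ENB_Bd x (q ^ 2) (c ^ 2) (2 * s) := by
  have := h.mul hx h
  rw [← pow_two, ← pow_two, ← two_mul] at this
  exact this

lemma ENB_Bd.add (h : ENB_Bd x q c s) (h' : ENB_Bd x q' c' s) : ENB_Bd x (q + q') (c + c') s := by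
  refine ⟨add_nonneg h.1 h'.1, add_nonneg h.2.1 h'.2.1, ?_⟩
  rw [add_mul]
  exact add_le_add h.2.2 h'.2.2

lemma ENB_Bd.mono (hx : 1 ≤ x) (h : ENB_Bd x q c s) (hs : s ≤ s') : ENB_Bd x q c s' :=
  ⟨h.1, h.2.1, h.2.2.trans (mul_le_mul_of_nonneg_left (ENB_mono hx hs) h.2.1)⟩

lemma ENB_Bd.cmono (hx : 0 < x) (h : ENB_Bd x q c s) (hs : c ≤ c') : ENB_Bd x q c' s :=
  ⟨h.1, h.2.1.trans hs, h.2.2.trans (mul_le_mul_of_nonneg_right hs (Real.rpow_nonneg hx.le _))⟩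

lemma ENB_Bd.inv (hx : 0 < x) (hq : 0 < q) (hc : 0 ≤ c) (h : x ^ (s * uu) ≤ c * q) :
    ENB_Bd x q⁻¹ c (-s) := by
  refine ⟨(inv_pos.2 hq).le, hc, ?_⟩
  have hp : 0 < x ^ (s * uu) := Real.rpow_pos_of_pos hx _
  rw [neg_mul, Real.rpow_neg hx.le, ← div_eq_mul_inv, le_div_iff₀ hp, inv_mul_le_iff₀ hq]
  linarith

lemma ENB_Bd.fin (hx : 1 ≤ x) (h : ENB_Bd x q c s) (hc : c ≤ x ^ ((1 / 10 : ℝ) * uu))
    (hs : s + 1 / 10 ≤ s') : q ≤ x ^ (s' * uu) := by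
  have hx0 : 0 < x := by linarith
  calc q ≤ c * x ^ (s * uu) := h.2.2
    _ ≤ x ^ ((1 / 10 : ℝ) * uu) * x ^ (s * uu) :=
        mul_le_mul_of_nonneg_right hc (Real.rpow_nonneg hx0.le _)
    _ = x ^ ((1 / 10 + s) * uu) := (ENB_add hx0 _ _).symm
    _ ≤ x ^ (s' * uu) := ENB_mono hx (by linarith)

lemma ENB_Bd.pow (hx : 0 < x) (s : ℝ) : ENB_Bd x (x ^ (s * uu)) 1 s :=
  ⟨Real.rpow_nonneg hx.le _, zero_le_one, by rw [one_mul]⟩

lemma ENB_Bd.of (hq : 0 ≤ q) (h : q ≤ x ^ (s * uu)) : ENB_Bd x q 1 s :=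
  ⟨hq, zero_le_one, by rw [one_mul]; exact h⟩

end bd

/-- lower bound of the exponent `e` for large moduli -/
lemma ENB_low {x C0 k a e e1 e2 n1 n2 M : ℝ} (hx : 1 < x) (hC0 : 1 ≤ C0)
    (hL : 10 ^ 9 * C0 ^ 4 ≤ x ^ ((1 / 10 : ℝ) * uu))
    (ha2 : k ≤ a + 260) (hn1' : n1 ≤ 1) (hn2' : n2 ≤ 1)
    (he1 : e1 ≤ 50005 - 200 * (1 - n1) - a) (he2 : e2 ≤ 50005 - 200 * (1 - n2) - a)
    (hM1 : x ^ ((100000 - k) * uu) ≤ C0 * M)
    (hlarge : M ≤ x ^ ((e + e1 + e2 + 63) * uu)) :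
    100000 - k ≤ e + e1 + e2 + 63 + 1 / 10 ∧ k - 594 ≤ e := by
  have hx0 : 0 < x := by linarith
  have h1 : x ^ ((100000 - k) * uu) ≤ x ^ ((e + e1 + e2 + 63 + 1 / 10) * uu) := by
    have hC : C0 ≤ x ^ ((1 / 10 : ℝ) * uu) := by
      refine le_trans ?_ hL
      nlinarith [pow_le_pow_right₀ hC0 (show 1 ≤ 4 by norm_num), one_le_pow₀ hC0 (n := 4)]
    calc x ^ ((100000 - k) * uu) ≤ C0 * M := hM1
      _ ≤ C0 * x ^ ((e + e1 + e2 + 63) * uu) := mul_le_mul_of_nonneg_left hlarge (by linarith)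
      _ ≤ x ^ ((1 / 10 : ℝ) * uu) * x ^ ((e + e1 + e2 + 63) * uu) :=
          mul_le_mul_of_nonneg_right hC (Real.rpow_nonneg hx0.le _)
      _ = x ^ ((1 / 10 + (e + e1 + e2 + 63)) * uu) := (ENB_add hx0 _ _).symm
      _ = _ := by congr 1; ring
  have h2 := (Real.rpow_le_rpow_left_iff hx).1 h1
  have h3 : 100000 - k ≤ e + e1 + e2 + 63 + 1 / 10 := le_of_mul_le_mul_right h2 ENB_uu
  exact ⟨h3, by linarith⟩

/-- the numerical core -/
lemma ENB_core {x C0 k a e e1 e2 n1 n2 M K L R R' V1 U1 U2 c1 c2 S S1 S2 T0 : ℝ} (hx : 1 < x)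
    (hC0 : 1 ≤ C0) (hL0 : 10 ^ 9 * C0 ^ 4 ≤ x ^ ((1 / 10 : ℝ) * uu))
    (hk : 33000 ≤ k) (ha2 : k ≤ a + 260) (he : e ≤ a) (hn1' : n1 ≤ 1) (hn2' : n2 ≤ 1)
    (he1 : e1 ≤ 50005 - 200 * (1 - n1) - a) (he2 : e2 ≤ 50005 - 200 * (1 - n2) - a)
    (hD : 100000 - k ≤ e + e1 + e2 + 63 + 1 / 10)
    (hK : K = x ^ (k * uu)) (hM0 : 0 < M) (hM1 : x ^ ((100000 - k) * uu) ≤ C0 * M)
    (hM2 : M ≤ C0 * x ^ ((100000 - k) * uu))
    (hR0 : 0 < R) (hR1 : x ^ (e * uu) ≤ 2 * R) (hR' : R' ≤ x ^ ((e + 1) * uu))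
    (hRR0 : 0 < R' - R) (hRR : x ^ ((e + 1) * uu) ≤ 2 * (R' - R))
    (hL : ENB_Bd x L 4 (k - e)) (hV1 : V1 ≤ 2 * x ^ (600 * uu)) (hV1' : x ^ (600 * uu) ≤ V1)
    (hU1 : ENB_Bd x U1 1 (e1 - 200 * n1 + 1)) (hU2 : ENB_Bd x U2 1 (e2 - 200 * n2 + 1))
    (hc1 : ENB_Bd x c1 1 (2001 / 10 * n1)) (hc2 : ENB_Bd x c2 1 (2001 / 10 * n2))
    (hS : ENB_Bd x S 1 (e + 1)) (hS1 : ENB_Bd x S1 1 (e1 + 1)) (hS2 : ENB_Bd x S2 1 (e2 + 1))
    (hT0 : ENB_Bd x T0 1 2) :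
    Real.sqrt ((2 * L * K * (R' - R) * U1 * U2) ^ 2 * (4 * M / x ^ ((e + e1 + e2) * uu)) ^ 2 *
        (66 * (x ^ ((e + e1 + e2 + 3) * uu) / (4 * M)) * c1 * c2 *
            (x ^ (2001 / 10 * uu) / x ^ (200 * uu)) ^ 2 +
          (2 * V1 * c1 * c2) ^ 2 *
            (1 + 2 * (1 + 8 * Real.pi * M * V1 / x ^ ((e + e1 + e2) * uu) +
              2 * Real.pi * T0 * V1 / (x ^ ((e + e1 + e2) * uu) * K)) * (R' - R) / R) *
            x ^ ((k / 2 + (e + 1) / 4 + (50467 - k) / 4 + 252) * uu) / (R' - R))) +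
      S * K * (2 * L) * S1 * S2 * (x ^ ((e + e1 + e2 + 3) * uu) / (2 * M * V1)) ≤
    M * K ^ 2 * x ^ ((-e - 50) * uu) := by
  have hx0 : 0 < x := by linarith
  have hx1 : 1 ≤ x := hx.le
  have hCC : 1 ≤ C0 ^ 2 := one_le_pow₀ hC0
  have hC3 : C0 ^ 3 ≤ C0 ^ 4 := pow_le_pow_right₀ hC0 (by norm_num)
  have hC1 : C0 ≤ C0 ^ 4 := by
    have := pow_le_pow_right₀ hC0 (show 1 ≤ 4 by norm_num)
    rwa [pow_one] at this
  have hC31 : 1 ≤ C0 ^ 3 := one_le_pow₀ hC0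
  have hp : ∀ s : ℝ, 0 < x ^ (s * uu) := fun s => Real.rpow_pos_of_pos hx0 _
  set Cm : ℝ := x ^ ((e + e1 + e2) * uu) with hCm
  set Cp : ℝ := x ^ ((e + e1 + e2 + 3) * uu) with hCp
  set w0 : ℝ := x ^ (200 * uu) with hw0
  set w1 : ℝ := x ^ (2001 / 10 * uu) with hw1
  set Ts : ℝ := x ^ ((k / 2 + (e + 1) / 4 + (50467 - k) / 4 + 252) * uu) with hTs
  have bK : ENB_Bd x K 1 k := by rw [hK]; exact ENB_Bd.pow hx0 k
  have hK0 : 0 < K := by rw [hK]; exact hp k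
  have bKi : ENB_Bd x K⁻¹ 1 (-k) := ENB_Bd.inv hx0 hK0 zero_le_one (by rw [hK, one_mul])
  have bM : ENB_Bd x M C0 (100000 - k) := ⟨hM0.le, by linarith, hM2⟩
  have bMi : ENB_Bd x M⁻¹ C0 (-(100000 - k)) := ENB_Bd.inv hx0 hM0 (by linarith) hM1
  have bCp : ENB_Bd x Cp 1 (e + e1 + e2 + 3) := ENB_Bd.pow hx0 _
  have bCmi : ENB_Bd x Cm⁻¹ 1 (-(e + e1 + e2)) :=
    ENB_Bd.inv hx0 (hp _) zero_le_one (by rw [one_mul])
  have bw1 : ENB_Bd x w1 1 (2001 / 10) := ENB_Bd.pow hx0 _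
  have bw0i : ENB_Bd x w0⁻¹ 1 (-200) := ENB_Bd.inv hx0 (hp _) zero_le_one (by rw [one_mul])
  have bTs : ENB_Bd x Ts 1 (k / 2 + (e + 1) / 4 + (50467 - k) / 4 + 252) := ENB_Bd.pow hx0 _
  have bRi : ENB_Bd x R⁻¹ 2 (-e) := ENB_Bd.inv hx0 hR0 (by norm_num) hR1
  have bRR : ENB_Bd x (R' - R) 1 (e + 1) := ENB_Bd.of hRR0.le (by linarith)
  have bRRi : ENB_Bd x (R' - R)⁻¹ 2 (-(e + 1)) := ENB_Bd.inv hx0 hRR0 (by norm_num) hRR
  have hV0 : 0 < V1 := lt_of_lt_of_le (hp _) hV1'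
  have bV : ENB_Bd x V1 2 600 := ⟨hV0.le, by norm_num, hV1⟩
  have bVi : ENB_Bd x V1⁻¹ 1 (-600) := ENB_Bd.inv hx0 hV0 zero_le_one (by rw [one_mul]; exact hV1')
  -- the prefactor
  have bP := ((((((((hL.mul hx0 bK).mul hx0 bRR).mul hx0 hU1).mul hx0 hU2).mul hx0 bM).mul hx0
    bCmi).cmul (show (0 : ℝ) ≤ 8 by norm_num))).sq hx0
  -- the diagonal
  have bDg := (((((bCp.mul hx0 bMi).mul hx0 hc1).mul hx0 hc2).mul hx0
    ((bw1.mul hx0 bw0i).sq hx0)).cmul (show (0 : ℝ) ≤ 66 / 4 by norm_num))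
  -- the variation factor
  have hpi : Real.pi ≤ 3.15 := Real.pi_lt_d2.le
  have hpi0 : 0 ≤ Real.pi := Real.pi_pos.le
  have bX : ENB_Bd x (1 + 8 * Real.pi * M * V1 / Cm + 2 * Real.pi * T0 * V1 / (Cm * K))
      (66 * C0) (663 + 1 / 10) := by
    have b1 : ENB_Bd x 1 1 (663 + 1 / 10) := by
      refine ENB_Bd.of zero_le_one ?_
      have := ENB_mono hx1 (show (0 : ℝ) ≤ 663 + 1 / 10 by norm_num)
      rwa [zero_mul, Real.rpow_zero] at this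
    have b2 := (((bM.mul hx0 bV).mul hx0 bCmi).cmul (show (0 : ℝ) ≤ 8 * Real.pi by positivity))
    have b3 := ((((hT0.mul hx0 bV).mul hx0 bCmi).mul hx0 bKi).cmul
      (show (0 : ℝ) ≤ 2 * Real.pi by positivity))
    have b4 := (b1.add (b2.mono hx1 (show _ ≤ (663 + 1 / 10 : ℝ) by linarith))).add
      (b3.mono hx1 (show _ ≤ (663 + 1 / 10 : ℝ) by linarith))
    have b5 := b4.cmono (c' := 66 * C0) hx0 (by nlinarith)
    have e5 : 1 + 8 * Real.pi * M * V1 / Cm + 2 * Real.pi * T0 * V1 / (Cm * K) =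
        1 + 8 * Real.pi * (M * V1 * Cm⁻¹) + 2 * Real.pi * (T0 * V1 * Cm⁻¹ * K⁻¹) := by
      rw [div_eq_mul_inv, div_eq_mul_inv, mul_inv]
      ring
    rw [e5]
    exact b5
  set X : ℝ := 1 + 8 * Real.pi * M * V1 / Cm + 2 * Real.pi * T0 * V1 / (Cm * K) with hX
  have bXX : ENB_Bd x (1 + 2 * (X * (R' - R) * R⁻¹)) (265 * C0) (664 + 1 / 10) := by
    have b1 : ENB_Bd x 1 1 (664 + 1 / 10) := by
      refine ENB_Bd.of zero_le_one ?_
      have := ENB_mono hx1 (show (0 : ℝ) ≤ 664 + 1 / 10 by norm_num)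
      rwa [zero_mul, Real.rpow_zero] at this
    have b2 := ((bX.mul hx0 bRR).mul hx0 bRi).cmul (show (0 : ℝ) ≤ 2 by norm_num)
    have b3 := b1.add (b2.mono hx1 (show _ ≤ (664 + 1 / 10 : ℝ) by linarith))
    exact b3.cmono hx0 (by linarith)
  have bOd := (((((((bV.mul hx0 hc1).mul hx0 hc2).cmul (show (0 : ℝ) ≤ 2 by norm_num)).sq hx0).mul
    hx0 bXX).mul hx0 bTs).mul hx0 bRRi)
  have g1 := (bP.mul hx0 bDg).fin hx1 (s' := 2 * (100000 + k - e) - 110) (by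
    refine le_trans ?_ hL0
    nlinarith) (by nlinarith)
  have g2 := (bP.mul hx0 bOd).fin hx1 (s' := 2 * (100000 + k - e) - 110) (by
    refine le_trans ?_ hL0
    nlinarith) (by nlinarith)
  have bT2 := ((((((hS.mul hx0 bK).mul hx0 hL).mul hx0 hS1).mul hx0 hS2).mul hx0
    ((bCp.mul hx0 bMi).mul hx0 bVi)).cmul (show (0 : ℝ) ≤ 1 by norm_num))
  have g3 := bT2.fin hx1 (s' := (100000 + k - e) - 51) (by
    refine le_trans ?_ hL0
    nlinarith) (by nlinarith)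
  have hbig : 4 * C0 ≤ x ^ ((1 / 10 : ℝ) * uu) := by
    refine le_trans ?_ hL0
    nlinarith
  -- target
  have ht : x ^ ((100000 + k - e - 50) * uu) ≤ C0 * (M * K ^ 2 * x ^ ((-e - 50) * uu)) := by
    have e1' : x ^ ((100000 + k - e - 50) * uu) =
        x ^ ((100000 - k) * uu) * (K ^ 2 * x ^ ((-e - 50) * uu)) := by
      rw [hK, pow_two, ← ENB_add hx0, ← ENB_add hx0, ← ENB_add hx0]
      congr 1
      ring
    rw [e1']
    calc x ^ ((100000 - k) * uu) * (K ^ 2 * x ^ ((-e - 50) * uu)) ≤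
        (C0 * M) * (K ^ 2 * x ^ ((-e - 50) * uu)) :=
          mul_le_mul_of_nonneg_right hM1 (mul_nonneg (sq_nonneg _) (hp _).le)
      _ = _ := by ring
  have hsq : Real.sqrt ((2 * L * K * (R' - R) * U1 * U2) ^ 2 * (4 * M / Cm) ^ 2 *
        (66 * (Cp / (4 * M)) * c1 * c2 * (w1 / w0) ^ 2 +
          (2 * V1 * c1 * c2) ^ 2 * (1 + 2 * X * (R' - R) / R) * Ts / (R' - R))) ≤
      x ^ ((100000 + k - e - 51) * uu) := by
    rw [Real.sqrt_le_left (hp _).le]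
    have e2' : (2 * L * K * (R' - R) * U1 * U2) ^ 2 * (4 * M / Cm) ^ 2 *
        (66 * (Cp / (4 * M)) * c1 * c2 * (w1 / w0) ^ 2 +
          (2 * V1 * c1 * c2) ^ 2 * (1 + 2 * X * (R' - R) / R) * Ts / (R' - R)) =
        (8 * (L * K * (R' - R) * U1 * U2 * M * Cm⁻¹)) ^ 2 *
          (66 / 4 * (Cp * M⁻¹ * c1 * c2 * (w1 * w0⁻¹) ^ 2)) +
        (8 * (L * K * (R' - R) * U1 * U2 * M * Cm⁻¹)) ^ 2 *
          ((2 * (V1 * c1 * c2)) ^ 2 * (1 + 2 * (X * (R' - R) * R⁻¹)) * Ts * (R' - R)⁻¹) := by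
      rw [div_eq_mul_inv (4 * M), div_eq_mul_inv Cp, div_eq_mul_inv w1, mul_inv 4 M,
        div_eq_mul_inv _ R, div_eq_mul_inv _ (R' - R)]
      ring
    rw [e2']
    refine (add_le_add g1 g2).trans ?_
    have e3' : (x ^ ((100000 + k - e - 51) * uu)) ^ 2 =
        x ^ ((2 * (100000 + k - e) - 110) * uu) * x ^ (8 * uu) := by
      rw [pow_two, ← ENB_add hx0, ← ENB_add hx0]
      congr 1
      ring
    rw [e3', ← two_mul, mul_comm (2 : ℝ)]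
    refine mul_le_mul_of_nonneg_left ?_ (hp _).le
    have := ENB_mono hx1 (show (1 / 10 : ℝ) ≤ 8 by norm_num)
    linarith
  have hT2 : S * K * (2 * L) * S1 * S2 * (Cp / (2 * M * V1)) ≤
      x ^ ((100000 + k - e - 51) * uu) := by
    have e4' : S * K * (2 * L) * S1 * S2 * (Cp / (2 * M * V1)) =
        1 * (S * K * L * S1 * S2 * (Cp * M⁻¹ * V1⁻¹)) := by
      rw [div_eq_mul_inv, mul_inv, mul_inv]
      ring
    rw [e4']
    exact g3
  have hfin : 2 * x ^ ((100000 + k - e - 51) * uu) ≤ M * K ^ 2 * x ^ ((-e - 50) * uu) := by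
    have e5' : x ^ ((100000 + k - e - 50) * uu) =
        x ^ ((100000 + k - e - 51) * uu) * x ^ (1 * uu) := by
      rw [← ENB_add hx0]
      congr 1
      ring
    have h1 : 2 * C0 ≤ x ^ (1 * uu) := by
      have := ENB_mono hx1 (show (1 / 10 : ℝ) ≤ 1 by norm_num)
      linarith
    have h2 : C0 * (2 * x ^ ((100000 + k - e - 51) * uu)) ≤ x ^ ((100000 + k - e - 50) * uu) := by
      rw [e5']
      nlinarith [hp (100000 + k - e - 51)]
    have h3 : C0 * (2 * x ^ ((100000 + k - e - 51) * uu)) ≤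
        C0 * (M * K ^ 2 * x ^ ((-e - 50) * uu)) := h2.trans ht
    exact le_of_mul_le_mul_left h3 (by linarith)
  linarith

/-- sums of the integer exponents -/
noncomputable def ENB_n (J : Finset ℕ) : ℝ := ∑ i ∈ J, (exN i : ℝ)

lemma ENB_eI (J : Finset ℕ) : eI J = ENB_n J * uu := by
  unfold eI ENB_n ex
  rw [Finset.sum_mul]

lemma ENB_n_nonneg (J : Finset ℕ) : 0 ≤ ENB_n J := Finset.sum_nonneg fun _ _ => Nat.cast_nonneg _

lemma ENB_n_mono {J J' : Finset ℕ} (h : J ⊆ J') : ENB_n J ≤ ENB_n J' :=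
  Finset.sum_le_sum_of_subset_of_nonneg h fun _ _ _ => Nat.cast_nonneg _

lemma ENB_n_range : ENB_n (range 9) = 50005 := by
  have h := eI_range9
  rw [ENB_eI] at h
  exact mul_right_cancel₀ ENB_uu.ne' h

lemma ENB_n_erase {J : Finset ℕ} (h : 0 ∈ J) : ENB_n (J.erase 0) = ENB_n J - 200 := by
  have h1 := Finset.sum_erase_add J (fun i => (exN i : ℝ)) h
  have h2 : ((exN 0 : ℕ) : ℝ) = 200 := by norm_num [exN]
  unfold ENB_n
  rw [h2] at h1
  linarith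

lemma ENB_n_union {J J' : Finset ℕ} (h : Disjoint J J') : ENB_n (J ∪ J') = ENB_n J + ENB_n J' :=
  Finset.sum_union h

lemma ENB_card0 {x : ℝ} (hx : 1 < x) : ((PP x 0).card : ℝ) ≤ x ^ (2001 / 10 * uu) := by
  classical
  have h1 : PP x 0 ⊆ Icc 1 ⌊x ^ (2001 / 10 * uu)⌋₊ := by
    intro p hp
    unfold PP at hp
    rw [if_pos (by norm_num), Finset.mem_filter] at hp
    rw [Finset.mem_Icc]
    refine ⟨hp.2.1.one_lt.le, Nat.le_floor (hp.2.2.2.trans (le_of_eq ?_))⟩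
    congr 1
    unfold ex
    have h2 : ((exN 0 : ℕ) : ℝ) = 200 := by norm_num [exN]
    rw [h2]
    ring
  have h2 := Finset.card_le_card h1
  rw [Nat.card_Icc, Nat.add_sub_cancel] at h2
  exact (Nat.cast_le.2 h2).trans (Nat.floor_le (Real.rpow_nonneg (by linarith) _))

lemma ENB_J {x : ℝ} (hx : 1 < x) {A J : Finset ℕ} (hA : A ⊆ Icc 1 8) (hJ : J ⊆ range 9 \ A) :
    ∃ n : ℝ, n ≤ 1 ∧ ENB_n J ≤ 50005 - 200 * (1 - n) - ENB_n A ∧
      ENB_Bd x ((SI (PP x) (J.erase 0)).card : ℝ) 1 (ENB_n J - 200 * n + 1) ∧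
      ENB_Bd x (if 0 ∈ J then ((PP x 0).card : ℝ) else 1) 1 (2001 / 10 * n) ∧
      ENB_Bd x ((SI (PP x) J).card : ℝ) 1 (ENB_n J + 1) := by
  have hx0 : 0 < x := by linarith
  have hd : Disjoint J A := Finset.disjoint_of_subset_left hJ Finset.sdiff_disjoint
  have hA9 : A ⊆ range 9 := fun i hi => by
    have := hA hi
    rw [Finset.mem_Icc] at this
    rw [Finset.mem_range]
    omega
  have hJ9 : J ⊆ range 9 := fun i hi => (Finset.mem_sdiff.1 (hJ hi)).1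
  have h0A : 0 ∉ A := fun h => by
    have := hA h
    rw [Finset.mem_Icc] at this
    omega
  have hc : ∀ J' ⊆ range 9, ENB_Bd x ((SI (PP x) J').card : ℝ) 1 (ENB_n J' + 1) := by
    intro J' hJ'
    refine ENB_Bd.of (Nat.cast_nonneg _) ((card_SI_le hx hJ').trans (le_of_eq ?_))
    rw [ENB_eI]
    congr 1
    ring
  by_cases h0 : 0 ∈ J
  · refine ⟨1, le_rfl, ?_, ?_, ?_, hc J hJ9⟩
    · have h1 := ENB_n_mono (Finset.union_subset hJ9 hA9)
      rw [ENB_n_union hd, ENB_n_range] at h1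
      linarith
    · have h1 := hc (J.erase 0) ((Finset.erase_subset _ _).trans hJ9)
      rw [ENB_n_erase h0] at h1
      rw [mul_one]
      exact h1
    · rw [if_pos h0, mul_one]
      exact ENB_Bd.of (Nat.cast_nonneg _) (ENB_card0 hx)
  · refine ⟨0, zero_le_one, ?_, ?_, ?_, hc J hJ9⟩
    · have h1 : J ∪ A ⊆ (range 9).erase 0 := by
        intro i hi
        rw [Finset.mem_erase]
        refine ⟨?_, Finset.union_subset hJ9 hA9 hi⟩
        rintro rfl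
        rcases Finset.mem_union.1 hi with h | h
        · exact h0 h
        · exact h0A h
      have h2 := ENB_n_mono h1
      rw [ENB_n_union hd, ENB_n_erase (by simp), ENB_n_range] at h2
      linarith
    · rw [Finset.erase_eq_of_notMem h0, mul_zero, sub_zero]
      exact hc J hJ9
    · rw [if_neg h0, mul_zero]
      refine ENB_Bd.of zero_le_one ?_
      rw [zero_mul, Real.rpow_zero]

theorem enb (C0 : ℝ) (hC0 : 1 ≤ C0) : ∃ x0 : ℝ, ∀ x, x0 ≤ x → ∀ K M : ℕ, x / C0 ≤ M * K → (M : ℝ) * K ≤ C0 * x →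
    x ^ (33000 * uu) ≤ K → (K : ℝ) ≤ C0 * x ^ (1 / 2 : ℝ) →
    ∀ A ⊆ Icc 1 8, x ^ (eI A + 50 * uu) ≤ K → (K : ℝ) ≤ x ^ (eI A + 260 * uu) →
    ∀ t : ℤ, t ≠ 0 → (|t| : ℝ) ≤ x ^ (2 * uu) → ∀ I ⊆ A, ∀ I1 ⊆ range 9 \ A, ∀ I2 ⊆ range 9 \ A,
      M * x ^ (-60 * uu) ≤ x ^ (eI I + eI I1 + eI I2 + 3 * uu) → ∀ b : ℕ → ℂ, (∀ k, ‖b k‖ ≤ 1) →
        ‖EE (PP x) I I1 I2 t K M b‖ ≤ M * (K : ℝ) ^ 2 * x ^ (-eI I - 50 * uu) := by
  obtain ⟨x1, hx1⟩ := tst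
  have hev : ∀ᶠ x : ℝ in Filter.atTop, x1 ≤ x ∧ 2 ≤ x ∧
      10 ^ 9 * C0 ^ 4 ≤ x ^ ((1 / 10 : ℝ) * uu) := by
    refine (Filter.eventually_ge_atTop x1).and ((Filter.eventually_ge_atTop 2).and ?_)
    exact (tendsto_rpow_atTop (mul_pos (by norm_num) ENB_uu)).eventually_ge_atTop _
  obtain ⟨x0, hx0⟩ := Filter.eventually_atTop.1 hev
  refine ⟨x0, fun x hx K M hMK1 hMK2 hK1 hK2 A hA hKA1 hKA2 t ht htx I hI I1 hI1 I2 hI2 hlarge
    b hb => ?_⟩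
  obtain ⟨hxx1, hx2, hbig⟩ := hx0 x hx
  clear hx0 hev
  have hx1' : 1 < x := by linarith
  have hxp : 0 < x := by linarith
  have hxl : 1 ≤ x := hx1'.le
  have hp : ∀ s : ℝ, 0 < x ^ (s * uu) := fun s => Real.rpow_pos_of_pos hxp _
  have hiff : ∀ s s' : ℝ, x ^ (s * uu) ≤ x ^ (s' * uu) → s ≤ s' := fun s s' h =>
    le_of_mul_le_mul_right ((Real.rpow_le_rpow_left_iff hx1').1 h) ENB_uu
  have hCC : C0 ≤ C0 ^ 4 := by
    have := pow_le_pow_right₀ hC0 (show 1 ≤ 4 by norm_num)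
    rwa [pow_one] at this
  have hC0b : C0 ≤ x ^ ((1 / 10 : ℝ) * uu) := by nlinarith
  have h9 : (10 : ℝ) ^ 9 ≤ x ^ ((1 / 10 : ℝ) * uu) := by nlinarith
  have hb1 : ∀ s : ℝ, 1 / 10 ≤ s → 1000 ≤ x ^ (s * uu) := fun s hs => by
    have := ENB_mono hxl hs
    linarith
  have hK0 : 0 < (K : ℝ) := lt_of_lt_of_le (hp _) hK1
  have hxpow : x ^ (100000 * uu) = x := by
    have : 100000 * uu = 1 := by
      unfold uu
      norm_num
    rw [this, Real.rpow_one]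
  -- the exponent of K
  obtain ⟨k, hKk⟩ : ∃ k : ℝ, (K : ℝ) = x ^ (k * uu) := by
    refine ⟨Real.log K / Real.log x / uu, ?_⟩
    have hl : 0 < Real.log x := Real.log_pos hx1'
    rw [div_mul_cancel₀ _ ENB_uu.ne', Real.rpow_def_of_pos hxp, mul_div_cancel₀ _ hl.ne',
      Real.exp_log hK0]
  have hk33 : 33000 ≤ k := hiff _ _ (by rw [← hKk]; exact hK1)
  have hk50 : k ≤ 50001 := by
    have h1 : x ^ (k * uu) ≤ x ^ ((1 / 10 + 50000) * uu) := by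
      rw [← hKk, ENB_add hxp]
      refine hK2.trans (mul_le_mul hC0b (le_of_eq ?_) (Real.rpow_nonneg hxp.le _) (hp _).le)
      congr 1
      unfold uu
      norm_num
    have := hiff _ _ h1
    linarith
  set a : ℝ := ENB_n A with ha
  set e : ℝ := ENB_n I with he
  set e1 : ℝ := ENB_n I1 with he1
  set e2 : ℝ := ENB_n I2 with he2
  have ha1 : a + 50 ≤ k := by
    refine hiff _ _ ?_
    rw [← hKk]
    refine le_trans (le_of_eq ?_) hKA1
    rw [ENB_eI]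
    congr 1
    ring
  have ha2 : k ≤ a + 260 := by
    refine hiff _ _ ?_
    rw [← hKk]
    refine hKA2.trans (le_of_eq ?_)
    rw [ENB_eI]
    congr 1
    ring
  have hea : e ≤ a := ENB_n_mono hI
  have he0 : 0 ≤ e := ENB_n_nonneg I
  have he10 : 0 ≤ e1 := ENB_n_nonneg I1
  have he20 : 0 ≤ e2 := ENB_n_nonneg I2
  obtain ⟨n1, hn1, hb1a, hb1b, hb1c, hb1d⟩ := ENB_J hx1' hA hI1
  obtain ⟨n2, hn2, hb2a, hb2b, hb2c, hb2d⟩ := ENB_J hx1' hA hI2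
  have hA9 : A ⊆ range 9 := fun i hi => by
    have := hA hi
    rw [Finset.mem_Icc] at this
    rw [Finset.mem_range]
    omega
  have hI9 : I ⊆ range 9 := hI.trans hA9
  have hI19 : I1 ⊆ range 9 := hI1.trans Finset.sdiff_subset
  have hI29 : I2 ⊆ range 9 := hI2.trans Finset.sdiff_subset
  have hM1 : x ^ ((100000 - k) * uu) ≤ C0 * M := by
    have h1 : x ^ ((100000 - k) * uu) * x ^ (k * uu) = x := by
      rw [← ENB_add hxp, sub_add_cancel, hxpow]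
    have h2 : x ≤ C0 * M * x ^ (k * uu) := by
      rw [← hKk]
      have := (div_le_iff₀ (by linarith : (0 : ℝ) < C0)).1 hMK1
      linarith
    exact le_of_mul_le_mul_right (by rw [h1]; exact h2) (hp k)
  have hM2 : (M : ℝ) ≤ C0 * x ^ ((100000 - k) * uu) := by
    have h1 : x ^ ((100000 - k) * uu) * x ^ (k * uu) = x := by
      rw [← ENB_add hxp, sub_add_cancel, hxpow]
    refine le_of_mul_le_mul_right ?_ (hp k)
    rw [mul_assoc, h1, ← hKk]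
    exact hMK2
  have hM0 : 0 < (M : ℝ) := by
    have h1 := hp (100000 - k)
    have h2 : 0 < C0 * (M : ℝ) := lt_of_lt_of_le h1 hM1
    exact (mul_pos_iff_of_pos_left (by linarith : (0 : ℝ) < C0)).1 h2
  have hlarge' : (M : ℝ) ≤ x ^ ((e + e1 + e2 + 63) * uu) := by
    have h1 : x ^ (eI I + eI I1 + eI I2 + 3 * uu) = x ^ ((e + e1 + e2 + 3) * uu) := by
      rw [ENB_eI, ENB_eI, ENB_eI]
      congr 1
      ring
    rw [h1] at hlarge
    have h2 := mul_le_mul_of_nonneg_right hlarge (hp 60).le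
    rw [mul_assoc, ← ENB_add hxp, ← ENB_add hxp] at h2
    have h3 : x ^ ((-60 + 60 : ℝ) * uu) = 1 := by norm_num
    rw [h3, mul_one] at h2
    refine h2.trans (le_of_eq ?_)
    congr 1
    ring
  obtain ⟨hD, hlow⟩ := ENB_low hx1' hC0 hbig ha2 hn1 hn2 hb1a hb2a hM1 hlarge'
  have he3 : 32406 ≤ e := by linarith
  -- R and R'
  have hE2 : 1000 ≤ x ^ (e * uu) := hb1 e (by linarith)
  obtain ⟨R, hRd⟩ : ∃ R : ℕ, ⌈x ^ (e * uu)⌉₊ = R + 1 :=
    Nat.exists_eq_succ_of_ne_zero (Nat.ceil_pos.2 (hp e)).ne'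
  have hRu : x ^ (e * uu) ≤ R + 1 := by
    have := Nat.le_ceil (x ^ (e * uu))
    rw [hRd] at this
    push_cast at this
    exact this
  have hRl : (R : ℝ) ≤ x ^ (e * uu) := by
    have := Nat.ceil_lt_add_one (hp e).le
    rw [hRd] at this
    push_cast at this
    linarith
  have hR2 : x ^ (e * uu) ≤ 2 * R := by linarith
  have hRpos : 0 < (R : ℝ) := by linarith
  have hRpos' : 1 ≤ R := by exact_mod_cast hRpos
  set R' : ℕ := ⌊x ^ ((e + 1) * uu)⌋₊ with hR'd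
  have hR'1 : (R' : ℝ) ≤ x ^ ((e + 1) * uu) := Nat.floor_le (hp _).le
  have hR'2 : x ^ ((e + 1) * uu) < R' + 1 := Nat.lt_floor_add_one _
  have hE1 : x ^ ((e + 1) * uu) = x ^ (e * uu) * x ^ (1 * uu) := ENB_add hxp _ _
  have hE3 : 1000 ≤ x ^ (1 * uu) := hb1 1 (by norm_num)
  have hRR : x ^ ((e + 1) * uu) ≤ 2 * ((R' : ℝ) - R) := by
    have h5 : x ^ (e * uu) * 1000 ≤ x ^ ((e + 1) * uu) := by
      rw [hE1]
      exact mul_le_mul_of_nonneg_left hE3 (hp e).le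
    linarith
  have hRR0 : 0 < (R' : ℝ) - R := by
    have := hp (e + 1)
    linarith
  have hRR' : R < R' := by
    have : (R : ℝ) < R' := by linarith
    exact_mod_cast this
  -- L
  have heK : x ^ (e * uu) ≤ K := by
    rw [hKk]
    exact ENB_mono hxl (by linarith)
  set L : ℕ := ⌈(K : ℝ) / R⌉₊ with hLd
  have hL1 : (K : ℝ) / R ≤ L := Nat.le_ceil _
  have hL2 : K ≤ L * R := by
    have := (div_le_iff₀ hRpos).1 hL1
    exact_mod_cast this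
  have hL3 : ENB_Bd x L 4 (k - e) := by
    refine ⟨Nat.cast_nonneg _, by norm_num, ?_⟩
    have h1 : (1 : ℝ) ≤ K / R := by
      rw [le_div_iff₀ hRpos]
      linarith
    have h2 : (L : ℝ) ≤ K / R + 1 := (Nat.ceil_lt_add_one (by positivity)).le
    have h3 : (K : ℝ) / R ≤ 2 * x ^ ((k - e) * uu) := by
      rw [div_le_iff₀ hRpos]
      have h4 : (K : ℝ) = x ^ ((k - e) * uu) * x ^ (e * uu) := by
        rw [← ENB_add hxp, sub_add_cancel, hKk]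
      rw [h4]
      have h5 := mul_le_mul_of_nonneg_left hR2 (hp (k - e)).le
      linarith
    linarith
  -- V1
  set V1 : ℕ := ⌈x ^ (600 * uu)⌉₊ with hV1d
  have hV1a : x ^ (600 * uu) ≤ V1 := Nat.le_ceil _
  have hV1b : (V1 : ℝ) ≤ 2 * x ^ (600 * uu) := by
    have h1 := (Nat.ceil_lt_add_one (hp 600).le).le
    have h2 := hb1 600 (by norm_num)
    linarith
  have hV1c : 1 ≤ V1 := Nat.ceil_pos.2 (hp 600)
  -- B and g0
  set B : ℕ := ⌊x ^ ((50467 - k) * uu)⌋₊ with hBd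
  set g0 : ℕ := ⌊x ^ (1003 * uu)⌋₊ with hg0d
  have hflo : ∀ s : ℝ, 1 ≤ s → x ^ ((s - 1 / 2) * uu) ≤ ⌊x ^ (s * uu)⌋₊ := by
    intro s hs
    have h1 : x ^ (s * uu) = x ^ ((s - 1 / 2) * uu) * x ^ ((1 / 2 : ℝ) * uu) := by
      rw [← ENB_add hxp]
      congr 1
      ring
    have h2 := hb1 (1 / 2) (by norm_num)
    have h3 := hb1 (s - 1 / 2) (by linarith)
    have h4 := Nat.lt_floor_add_one (x ^ (s * uu))
    have h5 := mul_le_mul_of_nonneg_left h2 (hp (s - 1 / 2)).le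
    rw [← h1] at h5
    linarith
  have htR : |(t : ℝ)| ≤ x ^ (2 * uu) := by exact_mod_cast htx
  have hI01 : 0 ∉ I := fun h => by
    have := hA (hI h)
    rw [Finset.mem_Icc] at this
    omega
  have hdis : ∀ J ⊆ range 9 \ A, Disjoint I J := fun J hJ =>
    Finset.disjoint_of_subset_left hI (Finset.disjoint_of_subset_right hJ Finset.disjoint_sdiff)
  have hM1n : 1 ≤ M := by exact_mod_cast hM0
  have hK1n : 1 ≤ K := by exact_mod_cast hK0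
  have hSI : ∀ {J : Finset ℕ}, J ⊆ range 9 → ∀ s ∈ SI (PP x) J, x ^ (ENB_n J * uu) ≤ s ∧
      (s : ℝ) ≤ x ^ ((ENB_n J + 1) * uu) := by
    intro J hJ s hs
    obtain ⟨h1, h2⟩ := SI_range hx1' hJ hs
    rw [ENB_eI] at h1 h2
    refine ⟨h1, h2.trans (le_of_eq ?_)⟩
    congr 1
    ring
  have hmain := ein (P := PP x) (z := zz x) (pps_sy hx1') (I := I) (I1 := I1) (I2 := I2)
    (hdis I1 hI1) (hdis I2 hI2) hI01 (t := t) ht (K := K) (M := M) (L := L) (R := R) (R' := R')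
    (V1 := V1) (B := B) (g0 := g0) (Cm := x ^ ((e + e1 + e2) * uu))
    (Cp := x ^ ((e + e1 + e2 + 3) * uu))
    (Tst := x ^ ((k / 2 + (e + 1) / 4 + (50467 - k) / 4 + 252) * uu)) (w0 := x ^ (200 * uu))
    (w1 := x ^ (2001 / 10 * uu)) hM1n hK1n hRpos' hRR' (hp _) (hp _).le hV1c
    (by
      have := hb1 200 (by norm_num)
      linarith) (ENB_mono hxl (by norm_num))
    (by
      intro p hpp
      classical
      unfold PP at hpp
      rw [if_pos (by norm_num), Finset.mem_filter] at hpp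
      have h2 : ((exN 0 : ℕ) : ℝ) = 200 := by norm_num [exN]
      unfold ex at hpp
      rw [h2] at hpp
      refine ⟨hpp.2.2.1.le, hpp.2.2.2.trans (le_of_eq ?_)⟩
      congr 1
      ring)
    (by
      intro s hs
      obtain ⟨h1, h2⟩ := hSI hI9 s hs
      rw [Finset.mem_Ioc]
      constructor
      · have h3 : ⌈x ^ (e * uu)⌉₊ ≤ s := Nat.ceil_le.2 h1
        rw [hRd] at h3
        exact h3
      · exact Nat.le_floor h2)
    hL2
    (by
      intro r hr q hq q' hq'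
      rw [Finset.mem_Ioc] at hr
      obtain ⟨h1, h2⟩ := hSI hI19 q hq
      obtain ⟨h3, h4⟩ := hSI hI29 q' hq'
      have h5 : x ^ (e * uu) ≤ r := by
        refine hRu.trans ?_
        exact_mod_cast hr.1
      have h6 : (r : ℝ) ≤ x ^ ((e + 1) * uu) := le_trans (by exact_mod_cast hr.2) hR'1
      constructor
      · rw [ENB_add hxp, ENB_add hxp]
        exact mul_le_mul (mul_le_mul h5 h1 (hp _).le (Nat.cast_nonneg _)) h3 (hp _).le
          (by positivity)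
      · have h7 : x ^ ((e + e1 + e2 + 3) * uu) =
            x ^ ((e + 1) * uu) * x ^ ((e1 + 1) * uu) * x ^ ((e2 + 1) * uu) := by
          rw [← ENB_add hxp, ← ENB_add hxp]
          congr 1
          ring
        rw [h7]
        exact mul_le_mul (mul_le_mul h6 h2 (Nat.cast_nonneg _) (hp _).le) h4 (Nat.cast_nonneg _)
          (mul_nonneg (hp _).le (hp _).le))
    (by
      have h1 : x ^ (601 * uu) ≤ x ^ ((e + e1 + e2) * uu) := ENB_mono hxl (by linarith)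
      have h2 : x ^ (601 * uu) = x ^ (600 * uu) * x ^ (1 * uu) := by
        rw [← ENB_add hxp]
        norm_num
      have h3 := mul_le_mul_of_nonneg_left hE3 (hp 600).le
      rw [← h2] at h3
      have h4 := hp 600
      linarith)
    (by
      intro q' hq'
      obtain ⟨h3, h4⟩ := hSI hI29 q' hq'
      have h5 := hflo (50467 - k) (by linarith)
      refine le_trans ?_ h5
      calc (q' : ℝ) * x ^ (2001 / 10 * uu) ≤ x ^ ((e2 + 1) * uu) * x ^ (2001 / 10 * uu) :=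
            mul_le_mul_of_nonneg_right h4 (hp _).le
        _ = x ^ ((e2 + 1 + 2001 / 10) * uu) := (ENB_add hxp _ _).symm
        _ ≤ x ^ ((50467 - k - 1 / 2) * uu) := ENB_mono hxl (by linarith))
    (by
      have h5 := hflo 1003 (by norm_num)
      refine le_trans ?_ h5
      have h6 : (x ^ (2001 / 10 * uu)) ^ 2 = x ^ ((2001 / 5 : ℝ) * uu) := by
        rw [pow_two, ← ENB_add hxp]
        congr 1
        ring
      rw [h6]
      have h7 : x ^ ((1003 - 1 / 2 : ℝ) * uu) =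
          x ^ (2 * uu) * x ^ (600 * uu) * x ^ ((2001 / 5 : ℝ) * uu) * x ^ ((3 / 10 : ℝ) * uu) := by
        rw [← ENB_add hxp, ← ENB_add hxp, ← ENB_add hxp]
        congr 1
        ring
      rw [h7]
      have h8 := hb1 (3 / 10) (by norm_num)
      calc |(t : ℝ)| * (2 * (V1 : ℝ)) * x ^ ((2001 / 5 : ℝ) * uu) ≤
          x ^ (2 * uu) * (4 * x ^ (600 * uu)) * x ^ ((2001 / 5 : ℝ) * uu) := by
            refine mul_le_mul_of_nonneg_right ?_ (hp _).le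
            exact mul_le_mul htR (by linarith) (by positivity) (hp _).le
        _ = x ^ (2 * uu) * x ^ (600 * uu) * x ^ ((2001 / 5 : ℝ) * uu) * 4 := by ring
        _ ≤ _ := by
            refine mul_le_mul_of_nonneg_left (by linarith) ?_
            exact mul_nonneg (mul_nonneg (hp _).le (hp _).le) (hp _).le)
    (by
      intro k' hk' b' hb'1 hb'2 hcop A' hA' G hG X Y hXY
      have h1 := hx1 x hxx1 (k * uu) ((e + 1) * uu) ((50467 - k) * uu)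
        (mul_le_mul_of_nonneg_right hk33 ENB_uu.le) (mul_le_mul_of_nonneg_right hk50 ENB_uu.le)
        (by
          have : (e + 1) * uu ≤ 100000 * uu := mul_le_mul_of_nonneg_right (by linarith) ENB_uu.le
          refine this.trans (le_of_eq ?_)
          unfold uu
          norm_num)
        (by
          have : (50467 - k) * uu ≤ 100000 * uu :=
            mul_le_mul_of_nonneg_right (by linarith) ENB_uu.le
          refine this.trans (le_of_eq ?_)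
          unfold uu
          norm_num)
        K R' B g0 hKk hR'1 (Nat.floor_le (hp _).le) (Nat.floor_le (hp _).le)
        (Nat.floor_le_floor (ENB_mono hxl (by linarith)))
        (by
          have : (R' : ℝ) ≤ K := by
            rw [hKk]
            exact hR'1.trans (ENB_mono hxl (by linarith))
          exact_mod_cast this)
        k' hk' b' hb'1 hb'2 hcop A' hA' G hG X Y hXY
      refine h1.trans (le_of_eq ?_)
      congr 1
      ring)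
    hb
  unfold Xf at hmain
  have hcore := ENB_core (U1 := ((SI (PP x) (I1.erase 0)).card : ℝ))
    (U2 := ((SI (PP x) (I2.erase 0)).card : ℝ))
    (c1 := if 0 ∈ I1 then ((PP x 0).card : ℝ) else 1)
    (c2 := if 0 ∈ I2 then ((PP x 0).card : ℝ) else 1)
    (S := ((SI (PP x) I).card : ℝ)) (S1 := ((SI (PP x) I1).card : ℝ))
    (S2 := ((SI (PP x) I2).card : ℝ)) (T0 := |(t : ℝ)|)
    hx1' hC0 hbig hk33 ha2 hea hn1 hn2 hb1a hb2a hD hKk hM0 hM1 hM2 hRpos hR2 hR'1 hRR0 hRR hL3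
    hV1b hV1a hb1b hb2b hb1c hb2c
    (by
      refine ENB_Bd.of (Nat.cast_nonneg _) ((card_SI_le hx1' hI9).trans (le_of_eq ?_))
      rw [ENB_eI]
      congr 1
      ring) hb1d hb2d (ENB_Bd.of (abs_nonneg _) htR)
  refine hmain.trans (hcore.trans (le_of_eq ?_))
  rw [ENB_eI]
  congr 2
  ring

end H69BG
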