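import Pool.Agent.H69.BG.Fca
import Pool.Agent.H69.BG.Ena
import Pool.Agent.H69.BG.Enb

/-!
# BIL: the bilinear estimate

Exponents in units of `u`. `K = x^κ`, `33000 ≤ κ ≤ 50001` for `x` large; choose `A` by `choose_A` (`⊆ {1,...,8}`), `B = range 9 \ A ∋ 0`. `Cd` from `pps_b` (with `N = ⌊x^{1.1}⌋ ≥ 8 M K + z`), `z = zz x ≥ x^{200}/2`,
`|t| ≤ x^2 ≤ z < K`. `fca`: it suffices to bound `|SI I| M WW` for `I ⊆ A`. `wwb` with `R = x^{e_I}`, `L = ⌈K/R⌉ ≤ 2K/R`; `ena`/`enb` for every `(I1, I2)`: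
`WW ≤ C (M K + M K² x^{-e_I-50} + x^{e_I+1} K (K/R)(M/R)/z + M K (K/(R z) + 1)) ≤ C M K² x^{-e_I} (x^{e_I - κ} + x^{-50} + x^{1-200} + x^{-200} + x^{e_I-κ})`, and `e_I - κ ≤ e_A - κ ≤ -50`. So
`|SI I| M WW ≤ x^{e_I+1} M · C M K² x^{-e_I-50} = C (M K)² x^{-49} ≤ C C0² x^{2} x^{-49}` (here `x^2` is the square of `x`), its square root is `≤ C x · x^{-24.5u}`; the sum over `I` has `≤ 2^8` terms.
-/

open Finset

namespace H69BG

theorem Bil_eI_mono {I A : Finset ℕ} (h : I ⊆ A) : eI I ≤ eI A := by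
  unfold eI
  apply Finset.sum_le_sum_of_subset_of_nonneg h
  intro i _ _
  unfold ex uu
  positivity

theorem Bil_floor {y : ℝ} (hy : 1 ≤ y) : y / 2 ≤ (⌊y⌋₊ : ℝ) := by
  have h1 := Nat.lt_floor_add_one y
  have h2 : 1 ≤ ⌊y⌋₊ := (Nat.one_le_floor_iff y).2 hy
  have h3 : (1 : ℝ) ≤ ⌊y⌋₊ := by exact_mod_cast h2
  linarith

/-- the bound of the terms in `wwb` -/
theorem Bil_terms {K M L S Cd z R Y Z X : ℝ} (hM : 1 ≤ M) (hK : 1 ≤ K) (hR : 0 < R) (hY : 0 < Y)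
    (hZ : 0 < Z) (hX : 0 < X) (hCd : 1 ≤ Cd) (hRY : R * Y ≤ K) (hXY : X * Y ≤ Z)
    (hX1 : 1 ≤ X) (hS : S ≤ R * X) (hL0 : 0 ≤ L) (hL : L ≤ 2 * K / R) (hz : Z / 2 ≤ z) :
    8 * M * K * Cd ^ 19 + 4 ^ 9 * (Cd ^ 18 * (M * K ^ 2 / (R * Y))) +
      S * K * (2 * L) * (4 * M / R) * (10 ^ 8 * Cd ^ 40 / z) +
      4 ^ 9 * Cd ^ 18 * (200 * Cd ^ 4 * M * K * (K / (R * z) + 1)) ≤
      (8 * Cd ^ 19 + 4 ^ 9 * Cd ^ 18 + 32 * 10 ^ 8 * Cd ^ 40 + 4 ^ 9 * Cd ^ 18 * (200 * Cd ^ 4) * 3) *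
        (M * K ^ 2 / (R * Y)) := by
  have hz0 : 0 < z := by linarith
  have hRY0 : 0 < R * Y := mul_pos hR hY
  set T := M * K ^ 2 / (R * Y) with hT
  have hT0 : 0 < T := by positivity
  have t1 : M * K ≤ T := by
    rw [hT, le_div_iff₀ hRY0]
    calc M * K * (R * Y) ≤ M * K * K := by
          apply mul_le_mul_of_nonneg_left hRY (by positivity)
      _ = M * K ^ 2 := by ring
  have hz2 : 1 / z ≤ 2 / Z := by
    rw [div_le_div_iff₀ hz0 hZ]
    linarith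
  have hXZ : X / Z ≤ 1 / Y := by
    rw [div_le_div_iff₀ hZ hY]
    linarith
  have h1Z : 1 / Z ≤ 1 / Y := by
    refine le_trans ?_ hXZ
    exact div_le_div_of_nonneg_right hX1 hZ.le
  have t4 : M * K * (K / (R * z) + 1) ≤ 3 * T := by
    have e1 : M * K * (K / (R * z)) = M * K ^ 2 / R * (1 / z) := by
      field_simp
    have e2 : M * K ^ 2 / R * (1 / z) ≤ M * K ^ 2 / R * (2 * (1 / Y)) := by
      apply mul_le_mul_of_nonneg_left _ (by positivity)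
      calc 1 / z ≤ 2 / Z := hz2
        _ = 2 * (1 / Z) := by ring
        _ ≤ 2 * (1 / Y) := by linarith
    have e3 : M * K ^ 2 / R * (2 * (1 / Y)) = 2 * T := by
      rw [hT]
      field_simp
    rw [mul_add, mul_one, e1]
    linarith
  have t3 : S * K * (2 * L) * (4 * M / R) * (1 / z) ≤ 32 * T := by
    have a1 : S * K * (2 * L) ≤ (R * X) * K * (2 * (2 * K / R)) := by
      have b1 : S * K ≤ (R * X) * K := mul_le_mul_of_nonneg_right hS (by linarith)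
      have b2 : 2 * L ≤ 2 * (2 * K / R) := by linarith
      exact mul_le_mul b1 b2 (by positivity) (by positivity)
    have a2 : S * K * (2 * L) * (4 * M / R) ≤ (R * X) * K * (2 * (2 * K / R)) * (4 * M / R) :=
      mul_le_mul_of_nonneg_right a1 (by positivity)
    have a3 : S * K * (2 * L) * (4 * M / R) * (1 / z) ≤
        (R * X) * K * (2 * (2 * K / R)) * (4 * M / R) * (2 / Z) :=
      mul_le_mul a2 hz2 (by positivity) (by positivity)
    have a4 : (R * X) * K * (2 * (2 * K / R)) * (4 * M / R) * (2 / Z) =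
        32 * (M * K ^ 2 / R) * (X / Z) := by
      field_simp
      ring
    have a5 : 32 * (M * K ^ 2 / R) * (X / Z) ≤ 32 * (M * K ^ 2 / R) * (1 / Y) :=
      mul_le_mul_of_nonneg_left hXZ (by positivity)
    have a6 : 32 * (M * K ^ 2 / R) * (1 / Y) = 32 * T := by
      rw [hT]
      field_simp
    linarith
  have hc40 : (0 : ℝ) ≤ 10 ^ 8 * Cd ^ 40 := by positivity
  have hc18 : (0 : ℝ) ≤ 4 ^ 9 * Cd ^ 18 * (200 * Cd ^ 4) := by positivity
  have hc19 : (0 : ℝ) ≤ 8 * Cd ^ 19 := by positivity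
  have s1 : 8 * M * K * Cd ^ 19 ≤ 8 * Cd ^ 19 * T := by
    have := mul_le_mul_of_nonneg_left t1 hc19
    linarith
  have s3 : S * K * (2 * L) * (4 * M / R) * (10 ^ 8 * Cd ^ 40 / z) ≤ 32 * 10 ^ 8 * Cd ^ 40 * T := by
    have := mul_le_mul_of_nonneg_left t3 hc40
    have e : S * K * (2 * L) * (4 * M / R) * (10 ^ 8 * Cd ^ 40 / z) =
        10 ^ 8 * Cd ^ 40 * (S * K * (2 * L) * (4 * M / R) * (1 / z)) := by ring
    rw [e]
    linarith
  have s4 : 4 ^ 9 * Cd ^ 18 * (200 * Cd ^ 4 * M * K * (K / (R * z) + 1)) ≤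
      4 ^ 9 * Cd ^ 18 * (200 * Cd ^ 4) * 3 * T := by
    have := mul_le_mul_of_nonneg_left t4 hc18
    have e : 4 ^ 9 * Cd ^ 18 * (200 * Cd ^ 4 * M * K * (K / (R * z) + 1)) =
        4 ^ 9 * Cd ^ 18 * (200 * Cd ^ 4) * (M * K * (K / (R * z) + 1)) := by ring
    rw [e]
    linarith
  have e5 : (8 * Cd ^ 19 + 4 ^ 9 * Cd ^ 18 + 32 * 10 ^ 8 * Cd ^ 40 +
      4 ^ 9 * Cd ^ 18 * (200 * Cd ^ 4) * 3) * T = 8 * Cd ^ 19 * T + 4 ^ 9 * (Cd ^ 18 * T) +
      32 * 10 ^ 8 * Cd ^ 40 * T + 4 ^ 9 * Cd ^ 18 * (200 * Cd ^ 4) * 3 * T := by ring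
  rw [e5]
  linarith

/-- the constant -/
noncomputable def Bil_C (Cd : ℝ) : ℝ :=
  8 * Cd ^ 19 + 4 ^ 9 * Cd ^ 18 + 32 * 10 ^ 8 * Cd ^ 40 + 4 ^ 9 * Cd ^ 18 * (200 * Cd ^ 4) * 3

theorem Bil_one {x C0 : ℝ} (hC0 : 1 ≤ C0) (hx : 1 < x) {Cd : ℕ}
    (hB : SyB (PP x) ⌊x ^ (11 / 10 : ℝ)⌋₊ Cd)
    (hxN : 9 * C0 ≤ x ^ (1 / 10 : ℝ)) {K M : ℕ}
    (hM : 1 ≤ M) (hMK : (M : ℝ) * K ≤ C0 * x) (hK33 : x ^ (33000 * uu) ≤ K)
    {A : Finset ℕ} (hA : A ⊆ Icc 1 8) (hKA : x ^ (eI A + 50 * uu) ≤ K)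
    {t : ℤ} (ht : t ≠ 0) (htx : (|t| : ℝ) ≤ x ^ (2 * uu)) {I : Finset ℕ} (hIA : I ⊆ A)
    {b : ℕ → ℂ} (hb : ∀ k, ‖b k‖ ≤ 1)
    (hEE : ∀ I1 ⊆ range 9 \ A, ∀ I2 ⊆ range 9 \ A,
      ‖EE (PP x) I I1 I2 t K M b‖ ≤ M * (K : ℝ) ^ 2 * x ^ (-eI I - 50 * uu)) :
    (SI (PP x) I).card * M * WW (PP x) (range 9 \ A) I t K M b ≤
      Bil_C Cd * C0 ^ 2 * x ^ (2 - 49 * uu) := by
  have hx0 : 0 < x := by linarith
  have huu : 0 < uu := by unfold uu; norm_num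
  have hpow : ∀ {a c : ℝ}, a ≤ c → x ^ a ≤ x ^ c := fun h => Real.rpow_le_rpow_of_exponent_le hx.le h
  have hA9 : A ⊆ range 9 := by
    intro i hi
    have := Finset.mem_Icc.1 (hA hi)
    exact Finset.mem_range.2 (by omega)
  set R : ℝ := x ^ eI I with hRdef
  set Y : ℝ := x ^ (50 * uu) with hYdef
  set Z : ℝ := x ^ (200 * uu) with hZdef
  set X : ℝ := x ^ uu with hXdef
  have hR : 0 < R := Real.rpow_pos_of_pos hx0 _
  have hY : 0 < Y := Real.rpow_pos_of_pos hx0 _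
  have hZ : 0 < Z := Real.rpow_pos_of_pos hx0 _
  have hX : 0 < X := Real.rpow_pos_of_pos hx0 _
  have hX1 : 1 ≤ X := Real.one_le_rpow hx.le huu.le
  have hY1 : 1 ≤ Y := Real.one_le_rpow hx.le (by positivity)
  have hZ1 : 1 ≤ Z := Real.one_le_rpow hx.le (by positivity)
  have heIA : eI I ≤ eI A := Bil_eI_mono hIA
  have hRY : R * Y ≤ K := by
    rw [hRdef, hYdef, ← Real.rpow_add hx0]
    exact (hpow (by linarith)).trans hKA
  have hRK : R ≤ K := by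
    refine le_trans ?_ hRY
    exact le_mul_of_one_le_right hR.le hY1
  have hXY : X * Y ≤ Z := by
    rw [hXdef, hYdef, ← Real.rpow_add hx0]
    exact hpow (by linarith)
  have hz : Z / 2 ≤ (zz x : ℝ) := Bil_floor hZ1
  have hzle : (zz x : ℝ) ≤ Z := Nat.floor_le hZ.le
  have hzK : zz x < K := by
    have h1 : Z < x ^ (33000 * uu) := Real.rpow_lt_rpow_of_exponent_lt hx (by nlinarith)
    have h2 : (zz x : ℝ) < K := by linarith
    exact_mod_cast h2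
  have hz1 : 1 ≤ zz x := (Nat.one_le_floor_iff _).2 hZ1
  have hK1 : 1 ≤ K := by omega
  have hK1' : (1 : ℝ) ≤ K := by exact_mod_cast hK1
  have hM1' : (1 : ℝ) ≤ M := by exact_mod_cast hM
  have htz : |t| ≤ (zz x : ℤ) := by
    have h1 : (|t| : ℝ) ≤ Z := htx.trans (hpow (by nlinarith))
    have h2 : ((t.natAbs : ℕ) : ℝ) ≤ Z := by
      rw [Nat.cast_natAbs]
      push_cast
      exact h1
    have h3 : t.natAbs ≤ zz x := Nat.le_floor h2
    rw [Int.abs_eq_natAbs]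
    exact_mod_cast h3
  have hN : 8 * M * K + zz x ≤ ⌊x ^ (11 / 10 : ℝ)⌋₊ := by
    apply Nat.le_floor
    push_cast
    have h1 : Z ≤ x := by
      have := hpow (show 200 * uu ≤ 1 by unfold uu; norm_num)
      rwa [Real.rpow_one] at this
    have h2 : x ^ (11 / 10 : ℝ) = x ^ (1 / 10 : ℝ) * x := by
      rw [← Real.rpow_add_one hx0.ne']
      norm_num
    have h3 : 9 * C0 * x ≤ x ^ (1 / 10 : ℝ) * x := mul_le_mul_of_nonneg_right hxN hx0.le
    rw [h2]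
    nlinarith
  set L : ℕ := ⌈(K : ℝ) / R⌉₊ with hLdef
  have hL0 : (0 : ℝ) ≤ L := Nat.cast_nonneg _
  have hL2 : (L : ℝ) ≤ 2 * K / R := by
    have h1 := (Nat.ceil_lt_add_one (show 0 ≤ (K : ℝ) / R by positivity)).le
    have h2 : 1 ≤ (K : ℝ) / R := by
      rw [le_div_iff₀ hR]
      linarith
    have h3 : 2 * (K : ℝ) / R = K / R + K / R := by ring
    rw [h3]
    linarith
  have hSI : ∀ r ∈ SI (PP x) I, R ≤ r := fun r hr => (SI_range hx (hIA.trans hA9) hr).1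
  have hLr : ∀ r ∈ SI (PP x) I, K ≤ L * r := by
    intro r hr
    have h1 : (K : ℝ) / R ≤ L := Nat.le_ceil _
    have h2 : (K : ℝ) ≤ L * r := by
      calc (K : ℝ) = K / R * R := by field_simp
        _ ≤ L * r := mul_le_mul h1 (hSI r hr) hR.le hL0
    exact_mod_cast h2
  have hB0 : (range 9 \ A).Nonempty := by
    refine ⟨0, ?_⟩
    rw [Finset.mem_sdiff]
    refine ⟨by simp, fun h => ?_⟩
    have := Finset.mem_Icc.1 (hA h)
    omega
  have hIB : Disjoint I (range 9 \ A) :=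
    (Finset.disjoint_sdiff (s := A) (t := range 9)).mono_left hIA
  have hW := wwb (pps_sy hx) hB hz1 (hIA.trans hA9) (Finset.sdiff_subset) hB0 hIB ht htz hM hzK hN
    hR hSI hLr hb
  have hT : x ^ (-eI I - 50 * uu) = 1 / (R * Y) := by
    rw [hRdef, hYdef, ← Real.rpow_add hx0, one_div, ← Real.rpow_neg hx0.le]
    congr 1
    ring
  have hsum : (∑ I1 ∈ (range 9 \ A).powerset, ∑ I2 ∈ (range 9 \ A).powerset,
      (Cd : ℝ) ^ 18 * ‖EE (PP x) I I1 I2 t K M b‖) ≤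
      4 ^ 9 * ((Cd : ℝ) ^ 18 * (M * (K : ℝ) ^ 2 / (R * Y))) := by
    have hterm : ∀ I1 ∈ (range 9 \ A).powerset, ∀ I2 ∈ (range 9 \ A).powerset,
        (Cd : ℝ) ^ 18 * ‖EE (PP x) I I1 I2 t K M b‖ ≤
          (Cd : ℝ) ^ 18 * (M * (K : ℝ) ^ 2 / (R * Y)) := by
      intro I1 h1 I2 h2
      apply mul_le_mul_of_nonneg_left _ (by positivity)
      have := hEE I1 (Finset.mem_powerset.1 h1) I2 (Finset.mem_powerset.1 h2)
      rw [hT, mul_one_div] at this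
      exact this
    have hcard : ((range 9 \ A).powerset.card : ℝ) ≤ 2 ^ 9 := by
      rw [Finset.card_powerset]
      have h1 : (range 9 \ A).card ≤ 9 := by
        have := Finset.card_le_card (Finset.sdiff_subset (s := range 9) (t := A))
        simpa using this
      have h2 : 2 ^ (range 9 \ A).card ≤ 2 ^ 9 := Nat.pow_le_pow_right (by norm_num) h1
      exact_mod_cast h2
    have hT0 : 0 ≤ (Cd : ℝ) ^ 18 * (M * (K : ℝ) ^ 2 / (R * Y)) := by positivity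
    calc _ ≤ ∑ I1 ∈ (range 9 \ A).powerset, ∑ I2 ∈ (range 9 \ A).powerset,
          (Cd : ℝ) ^ 18 * (M * (K : ℝ) ^ 2 / (R * Y)) :=
          Finset.sum_le_sum fun I1 h1 => Finset.sum_le_sum fun I2 h2 => hterm I1 h1 I2 h2
      _ = ((range 9 \ A).powerset.card : ℝ) * (((range 9 \ A).powerset.card : ℝ) *
          ((Cd : ℝ) ^ 18 * (M * (K : ℝ) ^ 2 / (R * Y)))) := by
          rw [Finset.sum_const, Finset.sum_const, nsmul_eq_mul, nsmul_eq_mul]
      _ ≤ 2 ^ 9 * (2 ^ 9 * ((Cd : ℝ) ^ 18 * (M * (K : ℝ) ^ 2 / (R * Y)))) := by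
          apply mul_le_mul hcard _ (by positivity) (by positivity)
          exact mul_le_mul_of_nonneg_right hcard hT0
      _ = _ := by ring
  have hS0 : (0 : ℝ) ≤ (SI (PP x) I).card := Nat.cast_nonneg _
  have hS : ((SI (PP x) I).card : ℝ) ≤ R * X := by
    have := card_SI_le hx (hIA.trans hA9)
    rwa [Real.rpow_add hx0] at this
  have hCd : (1 : ℝ) ≤ Cd := by exact_mod_cast hB.one_le
  have hF := Bil_terms hM1' hK1' hR hY hZ hX hCd hRY hXY hX1 hS hL0 hL2 hz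
  have hWW : WW (PP x) (range 9 \ A) I t K M b ≤ Bil_C Cd * (M * (K : ℝ) ^ 2 / (R * Y)) := by
    unfold Bil_C
    linarith
  have hC0' : 0 ≤ Bil_C Cd := by unfold Bil_C; positivity
  calc (SI (PP x) I).card * M * WW (PP x) (range 9 \ A) I t K M b
      ≤ (R * X) * M * (Bil_C Cd * (M * (K : ℝ) ^ 2 / (R * Y))) := by
        have h1 : ((SI (PP x) I).card : ℝ) * M ≤ (R * X) * M :=
          mul_le_mul_of_nonneg_right hS (by positivity)
        calc _ ≤ ((SI (PP x) I).card : ℝ) * M * (Bil_C Cd * (M * (K : ℝ) ^ 2 / (R * Y))) :=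
              mul_le_mul_of_nonneg_left hWW (by positivity)
          _ ≤ _ := mul_le_mul_of_nonneg_right h1 (by positivity)
    _ = Bil_C Cd * ((M : ℝ) * K) ^ 2 * (X / Y) := by
        field_simp
    _ ≤ Bil_C Cd * (C0 * x) ^ 2 * (X / Y) := by
        apply mul_le_mul_of_nonneg_right _ (by positivity)
        apply mul_le_mul_of_nonneg_left _ hC0'
        exact pow_le_pow_left₀ (by positivity) hMK 2
    _ = Bil_C Cd * C0 ^ 2 * x ^ (2 - 49 * uu) := by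
        have e1 : x ^ (2 - 49 * uu) = x ^ (2 : ℝ) * (X / Y) := by
          rw [hXdef, hYdef, ← Real.rpow_sub hx0, ← Real.rpow_add hx0]
          congr 1
          ring
        rw [e1, Real.rpow_two]
        ring

theorem bil (C0 : ℝ) (hC0 : 1 ≤ C0) : ∃ x0 : ℝ, ∀ x, x0 ≤ x → ∀ K M : ℕ, x / C0 ≤ M * K → (M : ℝ) * K ≤ C0 * x →
    x ^ (33000 * uu) ≤ K → (K : ℝ) ≤ C0 * x ^ (1 / 2 : ℝ) → ∀ t : ℤ, t ≠ 0 → (|t| : ℝ) ≤ x ^ (2 * uu) →
    ∀ a b : ℕ → ℂ, (∀ m, ‖a m‖ ≤ 1) → (∀ k, ‖b k‖ ≤ 1) →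
      ‖∑ m ∈ Ioc M (2 * M), ∑ k ∈ Ioc K (2 * K), a m * b k * (g9 x (m * k - t) : ℂ)‖ ≤ x ^ (1 - 23 * uu) := by
  obtain ⟨Cd, x1, h1⟩ := pps_b
  obtain ⟨x2, h2⟩ := ena
  obtain ⟨x3, h3⟩ := enb C0 hC0
  have huu : 0 < uu := by unfold uu; norm_num
  have g1 := (tendsto_rpow_atTop huu).eventually_ge_atTop C0
  have g2 := (tendsto_rpow_atTop (show (0 : ℝ) < 1 / 10 by norm_num)).eventually_ge_atTop (9 * C0)
  have g3 := (tendsto_rpow_atTop (show (0 : ℝ) < 3 / 2 * uu by positivity)).eventually_ge_atTop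
    (256 * (Cd : ℝ) ^ 9 * (Real.sqrt (Bil_C Cd) * C0))
  obtain ⟨x4, h4⟩ := Filter.eventually_atTop.1 (g1.and (g2.and g3))
  refine ⟨max (max x1 x2) (max (max x3 x4) 2), fun x hx K M hMK1 hMK hK33 hKC t ht htx a b ha hb => ?_⟩
  have hx1 : x1 ≤ x := (le_max_left _ _).trans ((le_max_left _ _).trans hx)
  have hx2 : x2 ≤ x := (le_max_right _ _).trans ((le_max_left _ _).trans hx)
  have hx3 : x3 ≤ x := (le_max_left _ _).trans ((le_max_left _ _).trans ((le_max_right _ _).trans hx))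
  have hx4 : x4 ≤ x := (le_max_right _ _).trans ((le_max_left _ _).trans ((le_max_right _ _).trans hx))
  have hx5 : 2 ≤ x := (le_max_right _ _).trans ((le_max_right _ _).trans hx)
  obtain ⟨k1, k2, k3⟩ := h4 x hx4
  have hx : 1 < x := by linarith
  have hx0 : 0 < x := by linarith
  have hpow : ∀ {a c : ℝ}, a ≤ c → x ^ a ≤ x ^ c := fun h => Real.rpow_le_rpow_of_exponent_le hx.le h
  have hKpos : (0 : ℝ) < K := lt_of_lt_of_le (Real.rpow_pos_of_pos hx0 _) hK33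
  have hK1 : 1 ≤ K := by
    have : 0 < K := by exact_mod_cast hKpos
    omega
  have hM1 : 1 ≤ M := by
    rcases Nat.eq_zero_or_pos M with h0 | h0
    · exfalso
      rw [h0] at hMK1
      have : 0 < x / C0 := by positivity
      simp at hMK1
      linarith
    · exact h0
  set κ := Real.logb x K with hκ
  have hKκ : x ^ κ = K := Real.rpow_logb hx0 hx.ne' hKpos
  have hκ1 : 33000 * uu ≤ κ := by
    rw [← hKκ] at hK33
    exact (Real.rpow_le_rpow_left_iff hx).1 hK33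
  have hκ2 : κ ≤ 50001 * uu := by
    rw [← Real.rpow_le_rpow_left_iff hx, hKκ]
    refine hKC.trans ?_
    have : (50001 * uu : ℝ) = uu + 1 / 2 := by unfold uu; norm_num
    rw [this, Real.rpow_add hx0]
    exact mul_le_mul_of_nonneg_right k1 (Real.rpow_nonneg hx0.le _)
  obtain ⟨A, hA, hA1, hA2⟩ := choose_A hκ1 hκ2
  have hKA : x ^ (eI A + 50 * uu) ≤ K := by rw [← hKκ]; exact hpow hA1
  have hKA2 : (K : ℝ) ≤ x ^ (eI A + 260 * uu) := by rw [← hKκ]; exact hpow hA2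
  have hA9 : A ⊆ range 9 := by
    intro i hi
    have := Finset.mem_Icc.1 (hA hi)
    exact Finset.mem_range.2 (by omega)
  have hf := fca (t := t) (pps_sy hx) (h1 x hx1) (Finset.union_sdiff_of_subset hA9)
    (Finset.disjoint_sdiff) hM1 hK1 ha hb
  have hC0' : 0 ≤ Bil_C Cd := by unfold Bil_C; positivity
  have hterm : ∀ I ∈ A.powerset, (Cd : ℝ) ^ 9 * Real.sqrt ((SI (PP x) I).card * M *
      WW (PP x) (range 9 \ A) I t K M b) ≤
      (Cd : ℝ) ^ 9 * (Real.sqrt (Bil_C Cd) * C0 * x ^ (1 - 49 / 2 * uu)) := by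
    intro I hI
    apply mul_le_mul_of_nonneg_left _ (by positivity)
    have hI' := Finset.mem_powerset.1 hI
    have h5 := Bil_one hC0 hx (h1 x hx1) k2 hM1 hMK hK33 hA hKA ht htx hI' hb (fun I1 hI1 I2 hI2 => by
      rcases le_total (x ^ (eI I + eI I1 + eI I2 + 3 * uu)) (M * x ^ (-60 * uu)) with h6 | h6
      · exact h2 x hx2 K M hM1 A hA hKA I hI' I1 hI1 I2 hI2 t h6 b hb
      · exact h3 x hx3 K M hMK1 hMK hK33 hKC A hA hKA hKA2 t ht htx I hI' I1 hI1 I2 hI2 h6 b hb)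
    have h7 : Bil_C Cd * C0 ^ 2 * x ^ (2 - 49 * uu) =
        (Real.sqrt (Bil_C Cd) * C0 * x ^ (1 - 49 / 2 * uu)) ^ 2 := by
      rw [mul_pow, mul_pow, Real.sq_sqrt hC0', ← Real.rpow_natCast (x ^ (1 - 49 / 2 * uu)) 2,
        ← Real.rpow_mul hx0.le]
      congr 2
      push_cast
      ring
    rw [h7] at h5
    have h8 := Real.sqrt_le_sqrt h5
    rw [Real.sqrt_sq (by positivity)] at h8
    exact h8
  have hcard : (A.powerset.card : ℝ) ≤ 256 := by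
    rw [Finset.card_powerset]
    have h1 : A.card ≤ 8 := by
      have := Finset.card_le_card hA
      simpa using this
    have h2 : 2 ^ A.card ≤ 2 ^ 8 := Nat.pow_le_pow_right (by norm_num) h1
    have h3 : 2 ^ A.card ≤ 256 := by simpa using h2
    exact_mod_cast h3
  refine hf.trans ?_
  calc _ ≤ ∑ I ∈ A.powerset, (Cd : ℝ) ^ 9 * (Real.sqrt (Bil_C Cd) * C0 * x ^ (1 - 49 / 2 * uu)) :=
        Finset.sum_le_sum hterm
    _ = (A.powerset.card : ℝ) * ((Cd : ℝ) ^ 9 *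
        (Real.sqrt (Bil_C Cd) * C0 * x ^ (1 - 49 / 2 * uu))) := by
        rw [Finset.sum_const, nsmul_eq_mul]
    _ ≤ 256 * ((Cd : ℝ) ^ 9 * (Real.sqrt (Bil_C Cd) * C0 * x ^ (1 - 49 / 2 * uu))) :=
        mul_le_mul_of_nonneg_right hcard (by positivity)
    _ = (256 * (Cd : ℝ) ^ 9 * (Real.sqrt (Bil_C Cd) * C0)) * x ^ (1 - 49 / 2 * uu) := by ring
    _ ≤ x ^ (3 / 2 * uu) * x ^ (1 - 49 / 2 * uu) :=
        mul_le_mul_of_nonneg_right k3 (by positivity)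
    _ = x ^ (1 - 23 * uu) := by
        rw [← Real.rpow_add hx0]
        congr 1
        ring

end H69BG
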