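import Pool.Agent.H69.BG.Bla
import Pool.Agent.H69.LB.Sep

/-!
# BL2: the bilinear estimate with weights

1. `bla`: for dyadic blocks `(M, K)` and bounded coefficients, without weight.
2. The weight: `W(log(mk/x)) = ∫ w(ξ) e(ξ log m) e(ξ log k) e(-ξ log x) dξ` (`H69LB.sep`): costs `∫|w|`.
3. Dyadic blocks: `m ∈ (2^i, 2^{i+1}]`, `k ∈ (2^j, 2^{j+1}]`, `i, j ≤ 2 log x + C` (only blocks with `W ≠ 0` somewhere: `x e^{-M}/4 ≤ 2^{i+j} ≤ x e^M`): `C0 = 4 e^M`; as `m, k ≥ x^{0.331}` on the support, the block has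
   `2^i, 2^j ≥ x^{0.331}/2 ≥ x^{0.33}`; the smaller one is `≤ (C0 x)^{1/2}`; by symmetry (exchange of `m` and `k`) `bla` applies. The number of blocks is `O(log² x)`. (`m = 1`, `k = 1` are not in the support.)
Total `≤ A1 A2 C log² x · x^{1-16u} ≤ A1 A2 x^{1-14u}`.
-/

open Finset H69LB

namespace H69BG

open MeasureTheory

private lemma bl2_norm_ee (t : ℝ) : ‖ee t‖ = 1 := by
  unfold ee
  have h : (2 * Real.pi * t * Complex.I : ℂ) = ((2 * Real.pi * t : ℝ) : ℂ) * Complex.I := by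
    push_cast; ring
  rw [h, Complex.norm_exp_ofReal_mul_I]

private lemma bl2_ee_add (s t : ℝ) : ee (s + t) = ee s * ee t := by
  unfold ee
  rw [← Complex.exp_add]
  congr 1
  push_cast; ring

private lemma bl2_ee_cont : Continuous ee := by
  unfold ee; fun_prop

/-- separation of the variables in one block -/
private lemma bl2_sep {W : ℝ → ℝ} {w : ℝ → ℂ} (hwi : Integrable w)
    (hWw : ∀ η : ℝ, ((W η : ℝ) : ℂ) = ∫ ξ, w ξ * ee (ξ * η)) {x : ℝ} (hx : 0 < x)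
    (S T : Finset ℕ) (hS : ∀ m ∈ S, 1 ≤ m) (hT : ∀ k ∈ T, 1 ≤ k) (a b : ℕ → ℂ) (g : ℕ → ℕ → ℝ) :
    ∑ m ∈ S, ∑ k ∈ T, a m * b k * ((W (Real.log (((m * k : ℕ) : ℝ) / x)) * g m k : ℝ) : ℂ)
      = ∫ ξ, w ξ * (ee (-(ξ * Real.log x)) *
          ∑ m ∈ S, ∑ k ∈ T, (a m * ee (ξ * Real.log m)) * (b k * ee (ξ * Real.log k)) *
            (g m k : ℂ)) := by
  have hint : ∀ η : ℝ, Integrable (fun ξ => w ξ * ee (ξ * η)) := by
    intro η
    refine hwi.mul_bdd (c := 1) ?_ ?_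
    · exact (bl2_ee_cont.comp (continuous_id.mul continuous_const)).aestronglyMeasurable
    · exact Filter.Eventually.of_forall fun ξ => (bl2_norm_ee _).le
  have h1 : (fun ξ => w ξ * (ee (-(ξ * Real.log x)) *
          ∑ m ∈ S, ∑ k ∈ T, (a m * ee (ξ * Real.log m)) * (b k * ee (ξ * Real.log k)) *
            (g m k : ℂ)))
      = fun ξ => ∑ m ∈ S, ∑ k ∈ T, (a m * b k * (g m k : ℂ)) *
          (w ξ * ee (ξ * Real.log (((m * k : ℕ) : ℝ) / x))) := by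
    funext ξ
    rw [mul_sum, mul_sum]
    refine sum_congr rfl fun m hm => ?_
    rw [mul_sum, mul_sum]
    refine sum_congr rfl fun k hk => ?_
    have hm0 : (m : ℝ) ≠ 0 := by have := hS m hm; positivity
    have hk0 : (k : ℝ) ≠ 0 := by have := hT k hk; positivity
    have e1 : ξ * Real.log (((m * k : ℕ) : ℝ) / x)
        = -(ξ * Real.log x) + (ξ * Real.log m + ξ * Real.log k) := by
      push_cast
      rw [Real.log_div (mul_ne_zero hm0 hk0) hx.ne', Real.log_mul hm0 hk0]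
      ring
    rw [e1, bl2_ee_add, bl2_ee_add]
    ring
  rw [h1, integral_finsetSum]
  · refine sum_congr rfl fun m hm => ?_
    rw [integral_finsetSum]
    · refine sum_congr rfl fun k hk => ?_
      rw [integral_const_mul, ← hWw]
      push_cast
      ring
    · intro k hk
      exact (hint _).const_mul _
  · intro m hm
    exact integrable_finsetSum _ fun k hk => (hint _).const_mul _

private lemma bl2_bound {W : ℝ → ℝ} {w : ℝ → ℂ} (hwi : Integrable w)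
    (hWw : ∀ η : ℝ, ((W η : ℝ) : ℂ) = ∫ ξ, w ξ * ee (ξ * η)) {x : ℝ} (hx : 0 < x)
    (S T : Finset ℕ) (hS : ∀ m ∈ S, 1 ≤ m) (hT : ∀ k ∈ T, 1 ≤ k) (a b : ℕ → ℂ) (g : ℕ → ℕ → ℝ)
    {B : ℝ} (hB : ∀ ξ : ℝ, ‖∑ m ∈ S, ∑ k ∈ T, (a m * ee (ξ * Real.log m)) *
      (b k * ee (ξ * Real.log k)) * (g m k : ℂ)‖ ≤ B) :
    ‖∑ m ∈ S, ∑ k ∈ T, a m * b k * ((W (Real.log (((m * k : ℕ) : ℝ) / x)) * g m k : ℝ) : ℂ)‖
      ≤ (∫ ξ, ‖w ξ‖) * B := by
  rw [bl2_sep hwi hWw hx S T hS hT a b g, ← integral_mul_const]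
  refine norm_integral_le_of_norm_le (hwi.norm.mul_const B) (Filter.Eventually.of_forall fun ξ => ?_)
  rw [norm_mul, norm_mul, bl2_norm_ee, one_mul]
  exact mul_le_mul_of_nonneg_left (hB ξ) (norm_nonneg _)

private lemma bl2_dyadic (f : ℕ → ℂ) (J : ℕ) :
    ∑ m ∈ Ioc 1 (2 ^ J), f m = ∑ i ∈ range J, ∑ m ∈ Ioc (2 ^ i) (2 * 2 ^ i), f m := by
  induction J with
  | zero => simp
  | succ J ih =>
    rw [sum_range_succ, ← ih, pow_succ, mul_comm (2 ^ J) 2]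
    rw [sum_Ioc_consecutive]
    · exact Nat.one_le_two_pow
    · omega

/-- `W` vanishes -/
private lemma bl2_W {M : ℝ} {W : ℝ → ℝ} (hW : WS M W) {x : ℝ} (hx : 0 < x) {n : ℕ}
    (hn : NN M x < n) : W (Real.log ((n : ℝ) / x)) = 0 := by
  have h3 : x * Real.exp M < (n : ℝ) := Nat.lt_of_floor_lt hn
  have h4 : M ≤ Real.log ((n : ℝ) / x) := by
    rw [Real.le_log_iff_exp_le (div_pos (lt_trans (by positivity) h3) hx)]
    rw [le_div_iff₀ hx]
    linarith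
  exact hW.zero _ (h4.trans (le_abs_self _))

private lemma bl2_full {M : ℝ} {W : ℝ → ℝ} (hW : WS M W) {x : ℝ} (hx : 0 < x) {J : ℕ}
    (hJ : NN M x < 2 ^ J) (a b : ℕ → ℂ) (ha : a 1 = 0) (hb : b 1 = 0) (g : ℕ → ℕ → ℝ) :
    ∑ m ∈ Icc 1 (NN M x), ∑ k ∈ Icc 1 (NN M x / m),
      a m * b k * ((W (Real.log (((m * k : ℕ) : ℝ) / x)) * g m k : ℝ) : ℂ) =
    ∑ m ∈ Ioc 1 (2 ^ J), ∑ k ∈ Ioc 1 (2 ^ J),
      a m * b k * ((W (Real.log (((m * k : ℕ) : ℝ) / x)) * g m k : ℝ) : ℂ) := by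
  have hin : ∀ m, 1 ≤ m → ∑ k ∈ Icc 1 (NN M x / m),
      a m * b k * ((W (Real.log (((m * k : ℕ) : ℝ) / x)) * g m k : ℝ) : ℂ) =
      ∑ k ∈ Ioc 1 (2 ^ J),
      a m * b k * ((W (Real.log (((m * k : ℕ) : ℝ) / x)) * g m k : ℝ) : ℂ) := by
    intro m hm
    have h1 : ∑ k ∈ Icc 1 (NN M x / m),
      a m * b k * ((W (Real.log (((m * k : ℕ) : ℝ) / x)) * g m k : ℝ) : ℂ) =
      ∑ k ∈ Icc 1 (2 ^ J),
      a m * b k * ((W (Real.log (((m * k : ℕ) : ℝ) / x)) * g m k : ℝ) : ℂ) := by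
      apply sum_subset
      · intro k hk
        rw [mem_Icc] at hk ⊢
        exact ⟨hk.1, (hk.2.trans (Nat.div_le_self _ _)).trans hJ.le⟩
      · intro k hk hk'
        rw [mem_Icc] at hk hk'
        have h1 : NN M x / m < k := by
          by_contra h
          exact hk' ⟨hk.1, not_lt.mp h⟩
        have h2 : NN M x < m * k := by
          rw [mul_comm]
          exact (Nat.div_lt_iff_lt_mul (by omega)).mp h1
        rw [bl2_W hW hx h2]
        simp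
    have h2 : ∑ k ∈ Ioc 1 (2 ^ J),
      a m * b k * ((W (Real.log (((m * k : ℕ) : ℝ) / x)) * g m k : ℝ) : ℂ) =
      ∑ k ∈ Icc 1 (2 ^ J),
      a m * b k * ((W (Real.log (((m * k : ℕ) : ℝ) / x)) * g m k : ℝ) : ℂ) := by
      apply sum_subset
      · intro k hk
        rw [mem_Ioc] at hk
        rw [mem_Icc]
        exact ⟨hk.1.le, hk.2⟩
      · intro k hk hk'
        rw [mem_Icc] at hk
        rw [mem_Ioc] at hk'
        have h3 : k = 1 := by
          by_contra h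
          exact hk' ⟨by omega, hk.2⟩
        subst h3
        rw [hb]
        simp
    rw [h1, h2]
  rw [sum_congr rfl fun m hm => hin m (mem_Icc.1 hm).1]
  have h1 : ∑ m ∈ Icc 1 (NN M x), ∑ k ∈ Ioc 1 (2 ^ J),
      a m * b k * ((W (Real.log (((m * k : ℕ) : ℝ) / x)) * g m k : ℝ) : ℂ) =
      ∑ m ∈ Icc 1 (2 ^ J), ∑ k ∈ Ioc 1 (2 ^ J),
      a m * b k * ((W (Real.log (((m * k : ℕ) : ℝ) / x)) * g m k : ℝ) : ℂ) := by
    apply sum_subset
    · intro k hk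
      rw [mem_Icc] at hk ⊢
      exact ⟨hk.1, hk.2.trans hJ.le⟩
    · intro m hm hm'
      rw [mem_Icc] at hm hm'
      have h1 : NN M x < m := by
        by_contra h
        exact hm' ⟨hm.1, not_lt.mp h⟩
      apply sum_eq_zero
      intro k hk
      rw [mem_Ioc] at hk
      have h2 : NN M x < m * k := lt_of_lt_of_le h1 (Nat.le_mul_of_pos_right _ (by omega))
      rw [bl2_W hW hx h2]
      simp
  have h2 : ∑ m ∈ Ioc 1 (2 ^ J), ∑ k ∈ Ioc 1 (2 ^ J),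
      a m * b k * ((W (Real.log (((m * k : ℕ) : ℝ) / x)) * g m k : ℝ) : ℂ) =
      ∑ m ∈ Icc 1 (2 ^ J), ∑ k ∈ Ioc 1 (2 ^ J),
      a m * b k * ((W (Real.log (((m * k : ℕ) : ℝ) / x)) * g m k : ℝ) : ℂ) := by
    apply sum_subset
    · intro k hk
      rw [mem_Ioc] at hk
      rw [mem_Icc]
      exact ⟨hk.1.le, hk.2⟩
    · intro m hm hm'
      rw [mem_Icc] at hm
      rw [mem_Ioc] at hm'
      have h3 : m = 1 := by
        by_contra h
        exact hm' ⟨by omega, hm.2⟩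
      subst h3
      apply sum_eq_zero
      intro k _
      rw [ha]
      simp
  rw [h1, h2]

private lemma bl2_sqrt {C0 x q r : ℝ} (hC0 : 1 ≤ C0) (hx : 0 < x) (hq : 0 ≤ q) (hqr : q ≤ r)
    (h : r * q ≤ C0 * x) : q ≤ C0 * x ^ (1 / 2 : ℝ) := by
  have h1 : (x ^ (1 / 2 : ℝ)) ^ 2 = x := by
    rw [← Real.sqrt_eq_rpow, Real.sq_sqrt hx.le]
  have h2 : q ^ 2 ≤ (C0 * x ^ (1 / 2 : ℝ)) ^ 2 := by
    rw [mul_pow, h1]
    calc q ^ 2 = q * q := sq q
      _ ≤ r * q := mul_le_mul_of_nonneg_right hqr hq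
      _ ≤ C0 * x := h
      _ ≤ C0 ^ 2 * x := by
          apply mul_le_mul_of_nonneg_right _ hx.le
          nlinarith
  exact (pow_le_pow_iff_left₀ hq (by positivity) two_ne_zero).1 h2

private lemma bl2_block {M : ℝ} {W : ℝ → ℝ} (hW : WS M W) {w : ℝ → ℂ} (hwi : Integrable w)
    (hWw : ∀ η : ℝ, ((W η : ℝ) : ℂ) = ∫ ξ, w ξ * ee (ξ * η)) {x : ℝ} (hx : 0 < x) {C0 : ℝ}
    (hC : C0 = 4 * Real.exp M) (hC0 : 1 ≤ C0) {t : ℤ} {Bd : ℝ} (hBd : 0 ≤ Bd)
    (hbla : ∀ K M : ℕ, x / C0 ≤ M * K → (M : ℝ) * K ≤ C0 * x →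
      x ^ (33000 * uu) ≤ K → (K : ℝ) ≤ C0 * x ^ (1 / 2 : ℝ) →
      ∀ a b : ℕ → ℂ, (∀ m, ‖a m‖ ≤ 1) → (∀ k, ‖b k‖ ≤ 1) →
      ‖∑ m ∈ Ioc M (2 * M), ∑ k ∈ Ioc K (2 * K), a m * b k * (g2 x (m * k - t) : ℂ)‖ ≤ Bd)
    (hx2 : 2 * x ^ (33000 * uu) ≤ x ^ (331 / 1000 : ℝ)) (a b : ℕ → ℂ)
    (ha : ∀ m, ‖a m‖ ≤ 1) (hb : ∀ k, ‖b k‖ ≤ 1)
    (ha' : ∀ m : ℕ, a m ≠ 0 → x ^ (331 / 1000 : ℝ) ≤ m)
    (hb' : ∀ k : ℕ, b k ≠ 0 → x ^ (331 / 1000 : ℝ) ≤ k) {P Q : ℕ} (hP : 1 ≤ P) (hQ : 1 ≤ Q) :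
    ‖∑ m ∈ Ioc P (2 * P), ∑ k ∈ Ioc Q (2 * Q), a m * b k *
      ((W (Real.log (((m * k : ℕ) : ℝ) / x)) * g2 x (m * k - t) : ℝ) : ℂ)‖ ≤ (∫ ξ, ‖w ξ‖) * Bd := by
  by_cases h : ∃ m ∈ Ioc P (2 * P), ∃ k ∈ Ioc Q (2 * Q), a m ≠ 0 ∧ b k ≠ 0 ∧
      W (Real.log (((m * k : ℕ) : ℝ) / x)) ≠ 0
  · obtain ⟨m, hm, k, hk, ham, hbk, hWmk⟩ := h
    rw [mem_Ioc] at hm hk
    have hmk : |Real.log (((m * k : ℕ) : ℝ) / x)| < M := by
      by_contra hc
      exact hWmk (hW.zero _ (not_lt.1 hc))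
    have hm1 : (P : ℝ) ≤ m := by exact_mod_cast hm.1.le
    have hm2 : (m : ℝ) ≤ 2 * P := by exact_mod_cast hm.2
    have hk1 : (Q : ℝ) ≤ k := by exact_mod_cast hk.1.le
    have hk2 : (k : ℝ) ≤ 2 * Q := by exact_mod_cast hk.2
    have hP0 : (1 : ℝ) ≤ P := by exact_mod_cast hP
    have hQ0 : (1 : ℝ) ≤ Q := by exact_mod_cast hQ
    have hmk0 : 0 < ((m * k : ℕ) : ℝ) / x := by
      push_cast
      exact div_pos (mul_pos (by linarith) (by linarith)) hx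
    rw [abs_lt] at hmk
    have hu : ((m * k : ℕ) : ℝ) < x * Real.exp M := by
      have := (Real.log_lt_iff_lt_exp hmk0).1 hmk.2
      rw [div_lt_iff₀ hx] at this
      linarith
    have hl : x * Real.exp (-M) < ((m * k : ℕ) : ℝ) := by
      have := (Real.lt_log_iff_exp_lt hmk0).1 hmk.1
      rw [lt_div_iff₀ hx] at this
      linarith
    push_cast at hu hl
    have hPQ1 : (P : ℝ) * Q ≤ m * k := mul_le_mul hm1 hk1 (by linarith) (by linarith)
    have hPQ2 : (m : ℝ) * k ≤ 4 * (P * Q) := by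
      calc (m : ℝ) * k ≤ (2 * P) * (2 * Q) := mul_le_mul hm2 hk2 (by linarith) (by linarith)
        _ = _ := by ring
    have hexp : 0 < Real.exp M := Real.exp_pos M
    have hlow : x / C0 ≤ (P : ℝ) * Q := by
      rw [hC, div_le_iff₀ (by positivity)]
      rw [Real.exp_neg, ← div_eq_mul_inv, div_lt_iff₀ hexp] at hl
      nlinarith [mul_le_mul_of_nonneg_right hPQ2 hexp.le]
    have hupp : (P : ℝ) * Q ≤ C0 * x := by
      rw [hC]
      nlinarith [mul_pos hx hexp]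
    have hPl : x ^ (33000 * uu) ≤ P := by
      have := ha' m ham
      linarith
    have hQl : x ^ (33000 * uu) ≤ Q := by
      have := hb' k hbk
      linarith
    refine bl2_bound hwi hWw hx _ _ ?_ ?_ a b (fun m k => g2 x (m * k - t)) fun ξ => ?_
    · intro m hm
      rw [mem_Ioc] at hm
      omega
    · intro m hm
      rw [mem_Ioc] at hm
      omega
    · have hae : ∀ m : ℕ, ‖a m * ee (ξ * Real.log m)‖ ≤ 1 := by
        intro m
        rw [norm_mul, bl2_norm_ee, mul_one]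
        exact ha m
      have hbe : ∀ m : ℕ, ‖b m * ee (ξ * Real.log m)‖ ≤ 1 := by
        intro m
        rw [norm_mul, bl2_norm_ee, mul_one]
        exact hb m
      rcases le_total Q P with hQP | hPQ
      · have hQP' : (Q : ℝ) ≤ P := by exact_mod_cast hQP
        exact hbla Q P hlow hupp hQl (bl2_sqrt hC0 hx (by linarith) hQP' hupp)
          (fun m => a m * ee (ξ * Real.log m)) (fun m => b m * ee (ξ * Real.log m)) hae hbe
      · have hPQ' : (P : ℝ) ≤ Q := by exact_mod_cast hPQ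
        have hlow' : x / C0 ≤ (Q : ℝ) * P := by rw [mul_comm]; exact hlow
        have hupp' : (Q : ℝ) * P ≤ C0 * x := by rw [mul_comm]; exact hupp
        have h1 := hbla P Q hlow' hupp' hPl (bl2_sqrt hC0 hx (by linarith) hPQ' hupp')
          (fun m => b m * ee (ξ * Real.log m)) (fun m => a m * ee (ξ * Real.log m)) hbe hae
        rw [sum_comm] at h1
        refine le_trans (le_of_eq ?_) h1
        congr 1
        refine sum_congr rfl fun m _ => sum_congr rfl fun k _ => ?_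
        rw [mul_comm (m : ℤ) (k : ℤ)]
        ring
  · have h0 : ∑ m ∈ Ioc P (2 * P), ∑ k ∈ Ioc Q (2 * Q), a m * b k *
      ((W (Real.log (((m * k : ℕ) : ℝ) / x)) * g2 x (m * k - t) : ℝ) : ℂ) = 0 := by
      refine sum_eq_zero fun m hm => sum_eq_zero fun k hk => ?_
      by_cases ham : a m = 0
      · rw [ham]; simp
      · by_cases hbk : b k = 0
        · rw [hbk]; simp
        · by_cases hWk : W (Real.log (((m * k : ℕ) : ℝ) / x)) = 0
          · rw [hWk]; simp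
          · exact absurd ⟨m, hm, k, hk, ham, hbk, hWk⟩ h
    rw [h0, norm_zero]
    exact mul_nonneg (integral_nonneg fun _ => norm_nonneg _) hBd

private lemma bl2_J {M : ℝ} (hM : 0 < M) (Cw : ℝ) (hCw : 0 ≤ Cw) : ∀ᶠ x : ℝ in Filter.atTop,
    ((Nat.log 2 (NN M x) + 1 : ℕ) : ℝ) * ((Nat.log 2 (NN M x) + 1 : ℕ) : ℝ) * Cw ≤ x ^ (2 * uu) := by
  have hr : (0:ℝ) < uu / 2 := by unfold uu; norm_num
  have hu : (0:ℝ) < uu := by unfold uu; norm_num
  have h1 := (isLittleO_log_rpow_atTop hr).bound (c := 1 / 4) (by norm_num)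
  have h2 := (tendsto_rpow_atTop hr).eventually_ge_atTop (4 * M + 2)
  have h3 := (tendsto_rpow_atTop hu).eventually_ge_atTop Cw
  filter_upwards [h1, h2, h3, Filter.eventually_ge_atTop (1:ℝ)] with x h1 h2 h3 hx
  have hx0 : 0 < x := by linarith
  have hxr : 0 < x ^ (uu / 2) := Real.rpow_pos_of_pos hx0 _
  rw [Real.norm_of_nonneg (Real.log_nonneg hx), Real.norm_of_nonneg hxr.le] at h1
  have hNN : 1 ≤ NN M x := by
    unfold NN
    rw [Nat.one_le_floor_iff]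
    have := Real.one_le_exp hM.le
    nlinarith
  have hlog : ((Nat.log 2 (NN M x) : ℕ) : ℝ) ≤ 2 * (Real.log x + M) := by
    have h4 := Real.natLog_le_logb (NN M x) 2
    have h5 : Real.log (NN M x) ≤ Real.log x + M := by
      rw [← Real.log_exp M, ← Real.log_mul hx0.ne' (Real.exp_pos _).ne']
      rw [Real.log_exp]
      apply Real.log_le_log (by exact_mod_cast hNN)
      exact Nat.floor_le (by positivity)
    have h6 : 0 ≤ Real.log (NN M x) := Real.log_nonneg (by exact_mod_cast hNN)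
    have h7 : Real.logb 2 (NN M x) ≤ 2 * Real.log (NN M x) := by
      unfold Real.logb
      rw [div_le_iff₀ (Real.log_pos (by norm_num))]
      have := Real.log_two_gt_d9
      nlinarith
    have h8 : ((Nat.log 2 (NN M x) : ℕ) : ℝ) ≤ Real.logb 2 (NN M x) := by exact_mod_cast h4
    linarith
  have hJ : ((Nat.log 2 (NN M x) + 1 : ℕ) : ℝ) ≤ x ^ (uu / 2) := by
    push_cast
    linarith
  have e1 : x ^ (2 * uu) = x ^ (uu / 2) * x ^ (uu / 2) * x ^ uu := by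
    rw [← Real.rpow_add hx0, ← Real.rpow_add hx0]
    congr 1
    ring
  rw [e1]
  exact mul_le_mul (mul_le_mul hJ hJ (by positivity) hxr.le) h3 hCw (by positivity)

private lemma bl2_pow : ∀ᶠ x : ℝ in Filter.atTop,
    2 * x ^ (33000 * uu) ≤ x ^ (331 / 1000 : ℝ) ∧ 1 < x ^ (331 / 1000 : ℝ) := by
  have h1 := (tendsto_rpow_atTop (show (0:ℝ) < 1 / 1000 by norm_num)).eventually_ge_atTop 2
  filter_upwards [h1, Filter.eventually_gt_atTop (1:ℝ)] with x h1 hx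
  have hx0 : 0 < x := by linarith
  constructor
  · have e1 : x ^ (331 / 1000 : ℝ) = x ^ (1 / 1000 : ℝ) * x ^ (33000 * uu) := by
      rw [← Real.rpow_add hx0]
      congr 1
      unfold uu
      norm_num
    rw [e1]
    exact mul_le_mul_of_nonneg_right h1 (Real.rpow_pos_of_pos hx0 _).le
  · exact Real.one_lt_rpow hx (by norm_num)

theorem bl2 {M : ℝ} (hM : 0 < M) {W : ℝ → ℝ} (hW : WS M W) : ∃ x0 : ℝ, ∀ x, x0 ≤ x → ∀ t : ℤ, t ≠ 0 →
    (|t| : ℝ) ≤ x ^ (2 * uu) → ∀ A1 A2 : ℝ, 0 ≤ A1 → 0 ≤ A2 → ∀ a b : ℕ → ℂ,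
    (∀ m, ‖a m‖ ≤ A1) → (∀ k, ‖b k‖ ≤ A2) →
    (∀ m : ℕ, a m ≠ 0 → x ^ (331 / 1000 : ℝ) ≤ m) → (∀ k : ℕ, b k ≠ 0 → x ^ (331 / 1000 : ℝ) ≤ k) →
      ‖∑ m ∈ Icc 1 (NN M x), ∑ k ∈ Icc 1 (NN M x / m), a m * b k *
        ((W (Real.log ((m * k : ℕ) / x)) * g2 x (m * k - t) : ℝ) : ℂ)‖ ≤ A1 * A2 * x ^ (1 - 14 * uu) := by
  obtain ⟨w, -, hwi, hWw⟩ := sep hW
  set C0 : ℝ := 4 * Real.exp M with hC
  have hC0 : 1 ≤ C0 := by
    have := Real.one_le_exp hM.le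
    linarith
  obtain ⟨x1, hx1⟩ := bla C0 hC0
  have hCw : 0 ≤ ∫ ξ, ‖w ξ‖ := integral_nonneg fun _ => norm_nonneg _
  obtain ⟨x2, hx2⟩ := Filter.eventually_atTop.1 ((bl2_J hM (∫ ξ, ‖w ξ‖) hCw).and bl2_pow)
  refine ⟨max (max x1 x2) 1, fun x hx t ht htx A1 A2 hA1 hA2 a b ha hb ha' hb' => ?_⟩
  have hxx1 : x1 ≤ x := (le_max_left _ _).trans ((le_max_left _ _).trans hx)
  have hxx2 : x2 ≤ x := (le_max_right _ _).trans ((le_max_left _ _).trans hx)
  have hx1' : 1 ≤ x := (le_max_right _ _).trans hx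
  have hx0 : 0 < x := by linarith
  obtain ⟨hJb, hp2, hp1⟩ := hx2 x hxx2
  set J : ℕ := Nat.log 2 (NN M x) + 1 with hJdef
  have hJ : NN M x < 2 ^ J := Nat.lt_pow_succ_log_self (by norm_num) _
  -- the normalised estimate
  have key : ∀ a b : ℕ → ℂ, (∀ m, ‖a m‖ ≤ 1) → (∀ k, ‖b k‖ ≤ 1) →
      (∀ m : ℕ, a m ≠ 0 → x ^ (331 / 1000 : ℝ) ≤ m) →
      (∀ k : ℕ, b k ≠ 0 → x ^ (331 / 1000 : ℝ) ≤ k) →
      ‖∑ m ∈ Icc 1 (NN M x), ∑ k ∈ Icc 1 (NN M x / m), a m * b k *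
        ((W (Real.log ((m * k : ℕ) / x)) * g2 x (m * k - t) : ℝ) : ℂ)‖ ≤ x ^ (1 - 14 * uu) := by
    intro a b ha hb ha' hb'
    have ha1 : a 1 = 0 := by
      by_contra h
      have := ha' 1 h
      push_cast at this
      linarith
    have hb1 : b 1 = 0 := by
      by_contra h
      have := hb' 1 h
      push_cast at this
      linarith
    rw [bl2_full hW hx0 hJ a b ha1 hb1 (fun m k => g2 x (m * k - t)), bl2_dyadic]
    simp_rw [bl2_dyadic]
    have hxB : 0 < x ^ (1 - 16 * uu) := Real.rpow_pos_of_pos hx0 _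
    calc ‖∑ i ∈ range J, ∑ m ∈ Ioc (2 ^ i) (2 * 2 ^ i), ∑ j ∈ range J,
          ∑ k ∈ Ioc (2 ^ j) (2 * 2 ^ j), a m * b k *
          ((W (Real.log (((m * k : ℕ) : ℝ) / x)) * g2 x (m * k - t) : ℝ) : ℂ)‖
        = ‖∑ i ∈ range J, ∑ j ∈ range J, ∑ m ∈ Ioc (2 ^ i) (2 * 2 ^ i),
          ∑ k ∈ Ioc (2 ^ j) (2 * 2 ^ j), a m * b k *
          ((W (Real.log (((m * k : ℕ) : ℝ) / x)) * g2 x (m * k - t) : ℝ) : ℂ)‖ := by
          congr 1
          refine sum_congr rfl fun i _ => ?_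
          rw [sum_comm]
      _ ≤ ∑ i ∈ range J, ∑ j ∈ range J, (∫ ξ, ‖w ξ‖) * x ^ (1 - 16 * uu) := by
          refine (norm_sum_le _ _).trans (sum_le_sum fun i _ => ?_)
          refine (norm_sum_le _ _).trans (sum_le_sum fun j _ => ?_)
          exact bl2_block hW hwi hWw hx0 hC hC0 hxB.le
            (fun K M h1 h2 h3 h4 a b h5 h6 => hx1 x hxx1 K M h1 h2 h3 h4 t ht htx a b h5 h6)
            hp2 a b ha hb ha' hb' Nat.one_le_two_pow Nat.one_le_two_pow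
      _ = ((J : ℕ) : ℝ) * ((J : ℕ) : ℝ) * (∫ ξ, ‖w ξ‖) * x ^ (1 - 16 * uu) := by
          rw [sum_const, sum_const, card_range, nsmul_eq_mul, nsmul_eq_mul]
          ring
      _ ≤ x ^ (2 * uu) * x ^ (1 - 16 * uu) := mul_le_mul_of_nonneg_right hJb hxB.le
      _ = x ^ (1 - 14 * uu) := by
          rw [← Real.rpow_add hx0]
          congr 1
          ring
  rcases hA1.eq_or_lt with h0 | hA1'
  · have h1 : ∀ m, a m = 0 := by
      intro m
      have := ha m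
      rw [← h0] at this
      exact norm_le_zero_iff.1 this
    simp only [h1, zero_mul, sum_const_zero, norm_zero]
    positivity
  rcases hA2.eq_or_lt with h0 | hA2'
  · have h1 : ∀ m, b m = 0 := by
      intro m
      have := hb m
      rw [← h0] at this
      exact norm_le_zero_iff.1 this
    simp only [h1, mul_zero, zero_mul, sum_const_zero, norm_zero]
    positivity
  have h1 := key (fun m => a m / A1) (fun k => b k / A2)
    (fun m => by
      rw [norm_div, Complex.norm_real, Real.norm_of_nonneg hA1, div_le_one hA1']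
      exact ha m)
    (fun m => by
      rw [norm_div, Complex.norm_real, Real.norm_of_nonneg hA2, div_le_one hA2']
      exact hb m)
    (fun m hm => ha' m fun h => hm (by rw [h, zero_div]))
    (fun m hm => hb' m fun h => hm (by rw [h, zero_div]))
  have hA1c : (A1 : ℂ) ≠ 0 := by exact_mod_cast hA1'.ne'
  have hA2c : (A2 : ℂ) ≠ 0 := by exact_mod_cast hA2'.ne'
  have e1 : ∑ m ∈ Icc 1 (NN M x), ∑ k ∈ Icc 1 (NN M x / m), a m * b k *
        ((W (Real.log ((m * k : ℕ) / x)) * g2 x (m * k - t) : ℝ) : ℂ) =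
      ((A1 * A2 : ℝ) : ℂ) * ∑ m ∈ Icc 1 (NN M x), ∑ k ∈ Icc 1 (NN M x / m),
        (a m / A1) * (b k / A2) *
        ((W (Real.log ((m * k : ℕ) / x)) * g2 x (m * k - t) : ℝ) : ℂ) := by
    rw [mul_sum]
    refine sum_congr rfl fun m _ => ?_
    rw [mul_sum]
    refine sum_congr rfl fun k _ => ?_
    push_cast
    field_simp
  rw [e1, norm_mul, Complex.norm_real, Real.norm_of_nonneg (by positivity)]
  exact mul_le_mul_of_nonneg_left h1 (by positivity)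

end H69BG
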