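import Pool.Agent.H69.BG.Ssa
import Pool.Agent.H69.BG.Kap
import Pool.Agent.H69.LB.Div

/-!
# COE: the comparison functions as divisor sums

`aG R e = e ∑_{r ≤ R, e ∣ r} μ(r) μ(r/e)/φ(r)`. Exchange the sums in `GG`: `GG_eq`.
* `aG_le`: with `r = e j`: `|μ(r)| ≤ 1`, and only squarefree `r` count, so `(e, j) = 1`, `φ(r) = φ(e) φ(j)`: `|aG R e| ≤ (e/φ(e)) ∑_{j ≤ R} 1/φ(j)`, and `n ≤ 2 (1 + log n) φ(n)`
  (`H69LB.le_totient`), `∑ 1/j ≤ 1 + log R`: `≤ 2(1 + log R) · 2 (1 + log R)²`. `aG_eq_zero`: empty sum.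
* `g2_eq`: for `n ≠ 0`: `GG (yy x) n = ∑_{d ≤ y, d ∣ n} aG d`, `g9 = ∑_I (-1)^{|I|} kI(range 9 \ I) #{s ∈ SI I : s ∣ n}` (`gI_eq`); `d` and `s` are coprime (`SI_coprime_small`,
  `yy x ≤ zz x`), so `d ∣ n ∧ s ∣ n ↔ d s ∣ n`. Put `a2 x e = ∑_{d ≤ y} ∑_I ∑_{s ∈ SI I, d s = e} aG d (-1)^{|I|} kI(range 9 \ I)`. Given `e` there is at most one triple: `s` is
  the part of `e` with prime factors in the system, `I` the set of the occurring indices. So `|a2 x e| ≤ 4 (1 + log y)³ C^9 ≤ x^{uu}` (or crude: number of triples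
  `≤ y 2^9`, whence `x^{3u}`). `d s ≤ x^{2u} x^{50006u} ≤ x^{0.51}`.
-/

open Finset

namespace H69BG

/-- the coefficients of `G_R` as a divisor sum -/
noncomputable def aG (R e : ℕ) : ℝ :=
  e * ∑ r ∈ (Icc 1 R).filter (fun r => e ∣ r),
    (ArithmeticFunction.moebius r : ℝ) * (ArithmeticFunction.moebius (r / e) : ℝ) / (Nat.totient r : ℝ)

theorem GG_eq (R : ℕ) (n : ℤ) : GG R n = ∑ e ∈ (Icc 1 R).filter (fun e : ℕ => (e : ℤ) ∣ n), aG R e := by
  unfold GG aG cr
  simp_rw [Finset.mul_sum]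
  rw [Finset.sum_comm' (s' := fun e => (Icc 1 R).filter (fun r => e ∣ r))
    (t' := (Icc 1 R).filter (fun e : ℕ => (e : ℤ) ∣ n))]
  · refine sum_congr rfl fun e _ => sum_congr rfl fun r _ => ?_
    ring
  · intro r d
    simp only [mem_filter, mem_Icc, Nat.mem_divisors]
    constructor
    · rintro ⟨⟨h1, h2⟩, ⟨h3, h4⟩, h5⟩
      exact ⟨⟨⟨h1, h2⟩, h3⟩, ⟨Nat.pos_of_dvd_of_pos h3 h1, (Nat.le_of_dvd h1 h3).trans h2⟩, h5⟩
    · rintro ⟨⟨⟨h1, h2⟩, h3⟩, ⟨h4, h5⟩, h6⟩
      exact ⟨⟨h1, h2⟩, ⟨h3, by omega⟩, h6⟩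

theorem aG_eq_zero {R e : ℕ} (h : R < e) : aG R e = 0 := by
  unfold aG
  have h1 : (Icc 1 R).filter (fun r => e ∣ r) = ∅ := by
    rw [filter_eq_empty_iff]
    intro r hr hd
    rw [mem_Icc] at hr
    have h2 := Nat.le_of_dvd (by omega) hd
    omega
  rw [h1, sum_empty, mul_zero]

private theorem Coe_moebius (n : ℕ) : |(ArithmeticFunction.moebius n : ℝ)| ≤ 1 := by
  have h := ArithmeticFunction.abs_moebius_le_one (n := n)
  exact_mod_cast h

private theorem Coe_term {e j : ℕ} (he : 1 ≤ e) (hj : 1 ≤ j) :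
    |(ArithmeticFunction.moebius (e * j) : ℝ) * (ArithmeticFunction.moebius j : ℝ) /
      (Nat.totient (e * j) : ℝ)| ≤ 1 / ((Nat.totient e : ℝ) * (Nat.totient j : ℝ)) := by
  have h1 : (0 : ℝ) < Nat.totient e := by exact_mod_cast Nat.totient_pos.2 he
  have h2 : (0 : ℝ) < Nat.totient j := by exact_mod_cast Nat.totient_pos.2 hj
  by_cases hs : Squarefree (e * j)
  · have hc : Nat.Coprime e j := Nat.coprime_of_squarefree_mul hs
    rw [Nat.totient_mul hc, abs_div, abs_mul, Nat.cast_mul]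
    rw [abs_of_pos (mul_pos h1 h2)]
    refine div_le_div_of_nonneg_right ?_ (mul_pos h1 h2).le
    have h3 := Coe_moebius (e * j)
    have h4 := Coe_moebius j
    exact mul_le_one₀ h3 (abs_nonneg _) h4
  · rw [ArithmeticFunction.moebius_eq_zero_of_not_squarefree hs]
    simp only [Int.cast_zero, zero_mul, zero_div, abs_zero]
    positivity

private theorem Coe_inv_totient {j R : ℕ} (hj : 1 ≤ j) (hjR : j ≤ R) :
    1 / (Nat.totient j : ℝ) ≤ 2 * (1 + Real.log R) * ((j : ℝ))⁻¹ := by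
  have h2 : (0 : ℝ) < Nat.totient j := by exact_mod_cast Nat.totient_pos.2 hj
  have hj0 : (0 : ℝ) < j := by exact_mod_cast hj
  have h3 := H69LB.le_totient hj
  have h4 : Real.log j ≤ Real.log R := Real.log_le_log hj0 (by exact_mod_cast hjR)
  have h5 : (j : ℝ) ≤ 2 * (1 + Real.log R) * Nat.totient j :=
    h3.trans (mul_le_mul_of_nonneg_right (by linarith) h2.le)
  rw [div_le_iff₀ h2, mul_assoc, mul_comm ((j : ℝ))⁻¹, ← mul_assoc, ← div_eq_mul_inv,
    le_div_iff₀ hj0, one_mul]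
  exact h5

theorem aG_le {R e : ℕ} (hR : 1 ≤ R) (he : 1 ≤ e) : |aG R e| ≤ 4 * (1 + Real.log R) ^ 3 := by
  have hlR : 0 ≤ Real.log R := Real.log_natCast_nonneg R
  by_cases heR : R < e
  · rw [aG_eq_zero heR, abs_zero]
    positivity
  · push Not at heR
    have he0 : (0 : ℝ) < e := by exact_mod_cast he
    have hφ : (0 : ℝ) < Nat.totient e := by exact_mod_cast Nat.totient_pos.2 he
    have hre : ∑ r ∈ (Icc 1 R).filter (fun r => e ∣ r),
        (ArithmeticFunction.moebius r : ℝ) * (ArithmeticFunction.moebius (r / e) : ℝ) /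
          (Nat.totient r : ℝ) = ∑ j ∈ Icc 1 (R / e),
        (ArithmeticFunction.moebius (e * j) : ℝ) * (ArithmeticFunction.moebius j : ℝ) /
          (Nat.totient (e * j) : ℝ) := by
      refine sum_nbij' (fun r => r / e) (fun j => e * j) ?_ ?_ ?_ ?_ ?_
      · intro r hr
        rw [mem_filter, mem_Icc] at hr
        obtain ⟨⟨h1, h2⟩, h3⟩ := hr
        rw [mem_Icc]
        exact ⟨(Nat.one_le_div_iff (by omega)).2 (Nat.le_of_dvd h1 h3), Nat.div_le_div_right h2⟩
      · intro j hj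
        rw [mem_Icc] at hj
        rw [mem_filter, mem_Icc]
        refine ⟨⟨Nat.mul_pos he hj.1, ?_⟩, Dvd.intro _ rfl⟩
        have h1 := hj.2
        rw [Nat.le_div_iff_mul_le (by omega), mul_comm] at h1
        exact h1
      · intro r hr
        rw [mem_filter] at hr
        exact Nat.mul_div_cancel' hr.2
      · intro j _
        exact Nat.mul_div_cancel_left j (by omega)
      · intro r hr
        rw [mem_filter] at hr
        rw [Nat.mul_div_cancel' hr.2]
    have hb : |∑ j ∈ Icc 1 (R / e),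
        (ArithmeticFunction.moebius (e * j) : ℝ) * (ArithmeticFunction.moebius j : ℝ) /
          (Nat.totient (e * j) : ℝ)| ≤ 1 / (Nat.totient e : ℝ) * (2 * (1 + Real.log R) ^ 2) := by
      refine (abs_sum_le_sum_abs _ _).trans ?_
      calc ∑ j ∈ Icc 1 (R / e), |(ArithmeticFunction.moebius (e * j) : ℝ) *
            (ArithmeticFunction.moebius j : ℝ) / (Nat.totient (e * j) : ℝ)|
          ≤ ∑ j ∈ Icc 1 (R / e), 1 / (Nat.totient e : ℝ) *
            (2 * (1 + Real.log R) * ((j : ℝ))⁻¹) := by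
            refine sum_le_sum fun j hj => ?_
            rw [mem_Icc] at hj
            have hjR : j ≤ R := hj.2.trans (Nat.div_le_self _ _)
            refine (Coe_term he hj.1).trans ?_
            rw [← one_div_mul_one_div]
            exact mul_le_mul_of_nonneg_left (Coe_inv_totient hj.1 hjR) (by positivity)
        _ ≤ ∑ j ∈ Icc 1 R, 1 / (Nat.totient e : ℝ) *
            (2 * (1 + Real.log R) * ((j : ℝ))⁻¹) := by
            refine sum_le_sum_of_subset_of_nonneg
              (Icc_subset_Icc_right (Nat.div_le_self _ _)) fun j _ _ => ?_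
            positivity
        _ = 1 / (Nat.totient e : ℝ) * (2 * (1 + Real.log R)) * ∑ j ∈ Icc 1 R, ((j : ℝ))⁻¹ := by
            rw [mul_sum]
            refine sum_congr rfl fun j _ => ?_
            ring
        _ ≤ 1 / (Nat.totient e : ℝ) * (2 * (1 + Real.log R)) * (1 + Real.log R) :=
            mul_le_mul_of_nonneg_left (H69LB.sum_inv_le R) (by positivity)
        _ = 1 / (Nat.totient e : ℝ) * (2 * (1 + Real.log R) ^ 2) := by ring
    unfold aG
    rw [hre, abs_mul, abs_of_pos he0]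
    have h1 : (e : ℝ) * (1 / (Nat.totient e : ℝ)) ≤ 2 * (1 + Real.log R) := by
      have h2 := mul_le_mul_of_nonneg_left (Coe_inv_totient he heR) he0.le
      refine h2.trans (le_of_eq ?_)
      field_simp
    calc (e : ℝ) * |∑ j ∈ Icc 1 (R / e),
        (ArithmeticFunction.moebius (e * j) : ℝ) * (ArithmeticFunction.moebius j : ℝ) /
          (Nat.totient (e * j) : ℝ)|
        ≤ e * (1 / (Nat.totient e : ℝ) * (2 * (1 + Real.log R) ^ 2)) :=
          mul_le_mul_of_nonneg_left hb he0.le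
      _ = (e * (1 / (Nat.totient e : ℝ))) * (2 * (1 + Real.log R) ^ 2) := by ring
      _ ≤ (2 * (1 + Real.log R)) * (2 * (1 + Real.log R) ^ 2) :=
          mul_le_mul_of_nonneg_right h1 (by positivity)
      _ = 4 * (1 + Real.log R) ^ 3 := by ring

/-- the coefficients of `g2` -/
private noncomputable def Coe_a2 (x : ℝ) (e : ℕ) : ℝ :=
  ∑ d ∈ Icc 1 (yy x), ∑ I ∈ (range 9).powerset, ∑ s ∈ SI (PP x) I,
    if d * s = e then aG (yy x) d * ((-1) ^ I.card * kI (PP x) (range 9 \ I)) else 0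

private theorem Coe_kap_nonneg (P : ℕ → Finset ℕ) (i : ℕ) : 0 ≤ kap P i :=
  sum_nonneg fun p _ => by positivity

private theorem Coe_kI {P : ℕ → Finset ℕ} {C : ℝ} (hC : 1 ≤ C) (h : ∀ i, kap P i ≤ C)
    (I : Finset ℕ) : |kI P (range 9 \ I)| ≤ C ^ 9 := by
  unfold kI
  rw [Finset.abs_prod]
  calc ∏ i ∈ range 9 \ I, |kap P i| ≤ ∏ _i ∈ range 9 \ I, C := by
        refine prod_le_prod (fun i _ => abs_nonneg _) fun i _ => ?_
        rw [abs_of_nonneg (Coe_kap_nonneg P i)]
        exact h i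
    _ = C ^ (range 9 \ I).card := prod_const _
    _ ≤ C ^ 9 := by
        refine pow_le_pow_right₀ hC ?_
        have := card_le_card (sdiff_subset (s := range 9) (t := I))
        rwa [card_range] at this

private theorem Coe_a2_le {x C : ℝ} (hx : 1 ≤ x) (hC : 1 ≤ C) (h : ∀ i, kap (PP x) i ≤ C)
    (e : ℕ) : |Coe_a2 x e| ≤ x ^ (2 * uu) * (512 * (4 * (1 + Real.log x) ^ 3 * C ^ 9)) := by
  have hx0 : 0 < x := by linarith
  have hlx : 0 ≤ Real.log x := Real.log_nonneg hx
  have hu : (0 : ℝ) < uu := Sir_uu_pos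
  have hR1 : (1 : ℝ) ≤ x ^ (2 * uu) := Real.one_le_rpow hx (by positivity)
  have hR : 1 ≤ yy x := Nat.le_floor (by exact_mod_cast hR1)
  have hRx : ((yy x : ℕ) : ℝ) ≤ x ^ (2 * uu) := Nat.floor_le (by positivity)
  have hlog : Real.log (yy x) ≤ Real.log x := by
    have h1 : Real.log (yy x) ≤ Real.log (x ^ (2 * uu)) :=
      Real.log_le_log (by exact_mod_cast hR) hRx
    rw [Real.log_rpow hx0] at h1
    have h2 : 2 * uu * Real.log x ≤ 1 * Real.log x := by
      refine mul_le_mul_of_nonneg_right ?_ hlx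
      unfold uu
      norm_num
    linarith
  have hl0 : 0 ≤ Real.log (yy x) := Real.log_natCast_nonneg _
  set B : ℝ := 4 * (1 + Real.log x) ^ 3 * C ^ 9 with hB
  have hB0 : 0 ≤ B := by positivity
  have hterm : ∀ d ∈ Icc 1 (yy x), ∀ I : Finset ℕ,
      |aG (yy x) d * ((-1) ^ I.card * kI (PP x) (range 9 \ I))| ≤ B := by
    intro d hd I
    rw [mem_Icc] at hd
    rw [abs_mul, abs_mul, abs_pow, abs_neg, abs_one, one_pow, one_mul]
    have h1 := aG_le hR hd.1
    have h2 : 4 * (1 + Real.log (yy x)) ^ 3 ≤ 4 * (1 + Real.log x) ^ 3 := by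
      have := pow_le_pow_left₀ (by linarith) (add_le_add_right hlog 1) 3
      linarith
    exact mul_le_mul (h1.trans h2) (Coe_kI hC h I) (abs_nonneg _) (by positivity)
  have hd : ∀ d ∈ Icc 1 (yy x), |∑ I ∈ (range 9).powerset, ∑ s ∈ SI (PP x) I,
      if d * s = e then aG (yy x) d * ((-1) ^ I.card * kI (PP x) (range 9 \ I)) else 0| ≤
        512 * B := by
    intro d hd
    refine (abs_sum_le_sum_abs _ _).trans ?_
    calc ∑ I ∈ (range 9).powerset, |∑ s ∈ SI (PP x) I,
        if d * s = e then aG (yy x) d * ((-1) ^ I.card * kI (PP x) (range 9 \ I)) else 0|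
        ≤ ∑ _I ∈ (range 9).powerset, B := by
          refine sum_le_sum fun I _ => ?_
          by_cases hex : ∃ s ∈ SI (PP x) I, d * s = e
          · obtain ⟨s, hs, hse⟩ := hex
            rw [sum_eq_single s]
            · rw [if_pos hse]
              exact hterm d hd I
            · intro s' _ hne
              refine if_neg fun h => hne ?_
              rw [mem_Icc] at hd
              exact Nat.eq_of_mul_eq_mul_left (by omega) (h.trans hse.symm)
            · intro h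
              exact absurd hs h
          · rw [sum_eq_zero]
            · rw [abs_zero]
              exact hB0
            · intro s hs
              exact if_neg fun h => hex ⟨s, hs, h⟩
      _ = 512 * B := by
          rw [sum_const, card_powerset, card_range, nsmul_eq_mul]
          norm_num
  unfold Coe_a2
  refine (abs_sum_le_sum_abs _ _).trans ?_
  refine (sum_le_sum hd).trans ?_
  rw [sum_const, Nat.card_Icc, Nat.add_sub_cancel, nsmul_eq_mul]
  exact mul_le_mul_of_nonneg_right hRx (by positivity)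

private theorem Coe_eI {I : Finset ℕ} (hI : I ⊆ range 9) : eI I ≤ 50005 * uu := by
  have hu : (0 : ℝ) < uu := Sir_uu_pos
  have h1 : eI I ≤ eI (range 9) := by
    unfold eI
    refine sum_le_sum_of_subset_of_nonneg hI fun i _ _ => ?_
    unfold ex
    positivity
  refine h1.trans (le_of_eq ?_)
  unfold eI ex
  simp only [sum_range_succ, sum_range_zero, exN]
  push_cast
  ring

private theorem Coe_a2_zero {x : ℝ} (hx : 1 < x) {e : ℕ} (he : x ^ (51 / 100 : ℝ) < e) :
    Coe_a2 x e = 0 := by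
  have hx0 : 0 < x := by linarith
  have hRx : ((yy x : ℕ) : ℝ) ≤ x ^ (2 * uu) := Nat.floor_le (by positivity)
  unfold Coe_a2
  refine sum_eq_zero fun d hd => sum_eq_zero fun I hI => sum_eq_zero fun s hs => if_neg fun h => ?_
  rw [mem_powerset] at hI
  rw [mem_Icc] at hd
  have h1 := (SI_range hx hI hs).2
  have h2 : x ^ (eI I + uu) ≤ x ^ (50006 * uu) :=
    Real.rpow_le_rpow_of_exponent_le hx.le (by linarith [Coe_eI hI])
  have h3 : (d : ℝ) ≤ x ^ (2 * uu) := le_trans (by exact_mod_cast hd.2) hRx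
  have h4 : (e : ℝ) ≤ x ^ (2 * uu) * x ^ (50006 * uu) := by
    rw [← h, Nat.cast_mul]
    exact mul_le_mul h3 (h1.trans h2) (Nat.cast_nonneg _) (by positivity)
  rw [← Real.rpow_add hx0] at h4
  have h5 : x ^ (2 * uu + 50006 * uu) ≤ x ^ (51 / 100 : ℝ) := by
    refine Real.rpow_le_rpow_of_exponent_le hx.le ?_
    unfold uu
    norm_num
  linarith

private theorem Coe_a2_sum {x : ℝ} (hx : 1 < x) {n : ℕ} (hn : 1 ≤ n) :
    g2 x n = ∑ e ∈ n.divisors, Coe_a2 x e := by
  have hu : (0 : ℝ) < uu := Sir_uu_pos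
  have hS := pps_sy hx
  have hyz : yy x ≤ zz x := by
    unfold yy zz
    refine Nat.floor_le_floor (Real.rpow_le_rpow_of_exponent_le hx.le ?_)
    linarith
  have hR : ∑ e ∈ n.divisors, Coe_a2 x e = ∑ d ∈ Icc 1 (yy x), ∑ I ∈ (range 9).powerset,
      ∑ s ∈ SI (PP x) I, if d * s ∣ n then
        aG (yy x) d * ((-1) ^ I.card * kI (PP x) (range 9 \ I)) else 0 := by
    unfold Coe_a2
    rw [sum_comm]
    refine sum_congr rfl fun d _ => ?_
    rw [sum_comm]
    refine sum_congr rfl fun I _ => ?_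
    rw [sum_comm]
    refine sum_congr rfl fun s _ => ?_
    rw [sum_ite_eq]
    simp only [Nat.mem_divisors]
    have hn0 : n ≠ 0 := by omega
    simp only [hn0, ne_eq, not_false_eq_true, and_true]
  rw [hR]
  unfold g2 g9
  rw [GG_eq, gI_eq hS, sum_mul, sum_filter]
  refine sum_congr rfl fun d hd => ?_
  rw [mem_Icc] at hd
  by_cases hdn : (d : ℤ) ∣ (n : ℤ)
  · rw [if_pos hdn, mul_sum]
    refine sum_congr rfl fun I _ => ?_
    have hcard : (((SI (PP x) I).filter (fun s : ℕ => (s : ℤ) ∣ (n : ℤ))).card : ℝ) =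
        ∑ s ∈ SI (PP x) I, if d * s ∣ n then (1 : ℝ) else 0 := by
      rw [card_filter, Nat.cast_sum]
      refine sum_congr rfl fun s hs => ?_
      have hc : Nat.Coprime d s := (SI_coprime_small hS hs hd.1 (hd.2.trans hyz)).symm
      have hiff : (s : ℤ) ∣ (n : ℤ) ↔ d * s ∣ n := by
        rw [Int.natCast_dvd_natCast] at hdn ⊢
        constructor
        · intro h
          exact hc.mul_dvd_of_dvd_of_dvd hdn h
        · intro h
          exact (Dvd.intro_left _ rfl).trans h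
      by_cases hh : d * s ∣ n
      · rw [if_pos hh, if_pos (hiff.2 hh), Nat.cast_one]
      · rw [if_neg hh, if_neg (fun h => hh (hiff.1 h)), Nat.cast_zero]
    rw [hcard, mul_sum, mul_sum]
    refine sum_congr rfl fun s _ => ?_
    by_cases hh : d * s ∣ n
    · rw [if_pos hh, if_pos hh, mul_one]
    · rw [if_neg hh, if_neg hh, mul_zero, mul_zero]
  · rw [if_neg hdn]
    symm
    refine sum_eq_zero fun I _ => sum_eq_zero fun s _ => if_neg fun h => hdn ?_
    rw [Int.natCast_dvd_natCast]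
    exact (Dvd.intro _ rfl).trans h

/-- `g2` as a divisor sum -/
theorem g2_eq : ∃ x0 : ℝ, ∀ x, x0 ≤ x → ∃ a2 : ℕ → ℝ, (∀ e, |a2 e| ≤ x ^ (3 * uu)) ∧
    (∀ e : ℕ, x ^ (51 / 100 : ℝ) < e → a2 e = 0) ∧
    ∀ n : ℕ, 1 ≤ n → g2 x n = ∑ e ∈ n.divisors, a2 e := by
  obtain ⟨C, x1, hC⟩ := kap_le
  have hu : (0 : ℝ) < uu := Sir_uu_pos
  set C' : ℝ := max C 1 with hC'
  have hC1 : 1 ≤ C' := le_max_right _ _
  set K : ℝ := 512 * (4 * (1 + 6 / uu) ^ 3 * C' ^ 9) with hK
  have hK0 : 0 < K := by positivity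
  refine ⟨max (max x1 2) (K ^ (2 / uu)), fun x hx => ?_⟩
  have hx1 : x1 ≤ x := (le_max_left _ _).trans ((le_max_left _ _).trans hx)
  have hx2 : 2 ≤ x := (le_max_right _ _).trans ((le_max_left _ _).trans hx)
  have hx3 : K ^ (2 / uu) ≤ x := (le_max_right _ _).trans hx
  have hx' : 1 < x := by linarith
  have hx0 : 0 < x := by linarith
  have hlx : 0 ≤ Real.log x := Real.log_nonneg hx'.le
  refine ⟨Coe_a2 x, fun e => ?_, fun e he => Coe_a2_zero hx' he, fun n hn => Coe_a2_sum hx' hn⟩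
  refine (Coe_a2_le hx'.le hC1 (fun i => (hC x hx1 i).trans (le_max_left _ _)) e).trans ?_
  have h1 : 1 + Real.log x ≤ (1 + 6 / uu) * x ^ (uu / 6) := by
    have h2 := Real.log_le_rpow_div hx0.le (show 0 < uu / 6 by positivity)
    have h3 : (1 : ℝ) ≤ x ^ (uu / 6) := Real.one_le_rpow hx'.le (by positivity)
    have h4 : x ^ (uu / 6) / (uu / 6) = 6 / uu * x ^ (uu / 6) := by
      field_simp
    rw [h4] at h2
    linarith
  have h2 : (1 + Real.log x) ^ 3 ≤ (1 + 6 / uu) ^ 3 * x ^ (uu / 2) := by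
    have h3 := pow_le_pow_left₀ (by linarith) h1 3
    rw [mul_pow] at h3
    have h4 : (x ^ (uu / 6)) ^ 3 = x ^ (uu / 2) := by
      rw [← Real.rpow_natCast, ← Real.rpow_mul hx0.le]
      congr 1
      push_cast
      ring
    rw [h4] at h3
    exact h3
  have h3 : K ≤ x ^ (uu / 2) := by
    have h4 := Real.rpow_le_rpow (by positivity) hx3 (show 0 ≤ uu / 2 by positivity)
    rw [← Real.rpow_mul hK0.le] at h4
    have h5 : 2 / uu * (uu / 2) = 1 := by
      field_simp
    rw [h5, Real.rpow_one] at h4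
    exact h4
  have h4 : 512 * (4 * (1 + Real.log x) ^ 3 * C' ^ 9) ≤ x ^ uu := by
    calc 512 * (4 * (1 + Real.log x) ^ 3 * C' ^ 9)
        ≤ 512 * (4 * ((1 + 6 / uu) ^ 3 * x ^ (uu / 2)) * C' ^ 9) := by gcongr
      _ = K * x ^ (uu / 2) := by rw [hK]; ring
      _ ≤ x ^ (uu / 2) * x ^ (uu / 2) := mul_le_mul_of_nonneg_right h3 (by positivity)
      _ = x ^ uu := by
          rw [← Real.rpow_add hx0]
          congr 1
          ring
  calc x ^ (2 * uu) * (512 * (4 * (1 + Real.log x) ^ 3 * C' ^ 9))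
      ≤ x ^ (2 * uu) * x ^ uu := mul_le_mul_of_nonneg_left h4 (by positivity)
    _ = x ^ (3 * uu) := by
        rw [← Real.rpow_add hx0]
        congr 1
        ring

end H69BG
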