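import Pool.Agent.H69.BG.Bil
import Pool.Agent.H69.BG.Coe

/-!
# BLA: the bilinear estimate for `g2`

For `d ≥ 1`: `1[d ∣ m k - t] = ∑_{m0, k0 < d, d ∣ m0 k0 - t} 1[m ≡ m0 (d)] 1[k ≡ k0 (d)]`. For `(M, K)` as in `bil` and coefficients bounded by `1` (`a m 1[m ≡ m0]`, `b k 1[k ≡ k0]`):
`‖∑_{m,k} a b 1[d ∣ mk - t] g9(mk - t)‖ ≤ d² x^{1-23u}`. By `GG_eq`, `g2(n) = ∑_{d ≤ y, d ∣ n} aG (yy x) d · g9(n)`, `|aG| ≤ 4 (1 + log y)³` (`aG_le`), `∑_{d ≤ y} d² ≤ y³ ≤ x^{6u}`; total `≤ x^{1-16u}` for large `x`.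
-/

open Finset

namespace H69BG

private theorem BLA_large : ∃ x0 : ℝ, ∀ x, x0 ≤ x → 1 ≤ x ∧ 4 * (1 + Real.log x) ^ 3 ≤ x ^ uu := by
  have hu : (0 : ℝ) < uu / 4 := by unfold uu; norm_num
  have h1 := isLittleO_log_rpow_atTop hu
  have h2 := h1.bound (by norm_num : (0 : ℝ) < 1 / 2)
  have h3 := (tendsto_rpow_atTop hu).eventually_ge_atTop 4
  have h4 := Filter.eventually_ge_atTop (1 : ℝ)
  obtain ⟨x0, hx0⟩ := Filter.eventually_atTop.mp (h2.and (h3.and h4))
  refine ⟨x0, fun x hx => ?_⟩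
  obtain ⟨e1, e2, e3⟩ := hx0 x hx
  refine ⟨e3, ?_⟩
  have hx1 : (0 : ℝ) < x := by linarith
  have hl : 0 ≤ Real.log x := Real.log_nonneg e3
  rw [Real.norm_of_nonneg hl, Real.norm_of_nonneg (Real.rpow_nonneg hx1.le _)] at e1
  set y := x ^ (uu / 4) with hy
  have e4 : 1 + Real.log x ≤ y := by linarith
  have e5 : x ^ uu = y ^ 4 := by
    rw [hy, ← Real.rpow_natCast, ← Real.rpow_mul hx1.le]
    congr 1
    push_cast
    ring
  rw [e5]
  have e6 : (1 + Real.log x) ^ 3 ≤ y ^ 3 := pow_le_pow_left₀ (by linarith) e4 3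
  have e7 : 0 ≤ y ^ 3 := by positivity
  calc 4 * (1 + Real.log x) ^ 3 ≤ 4 * y ^ 3 := by linarith
    _ ≤ y * y ^ 3 := mul_le_mul_of_nonneg_right e2 e7
    _ = y ^ 4 := by ring

private theorem BLA_dvd {d : ℕ} (hd : 1 ≤ d) (t : ℤ) (m k : ℕ) :
    (if (d : ℤ) ∣ (m : ℤ) * k - t then (1 : ℂ) else 0) =
      ∑ m0 ∈ range d, ∑ k0 ∈ range d, (if (d : ℤ) ∣ (m0 : ℤ) * k0 - t then (1 : ℂ) else 0) *
        ((if m % d = m0 then (1 : ℂ) else 0) * (if k % d = k0 then (1 : ℂ) else 0)) := by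
  have h1 : ∀ m0 ∈ range d, ∀ k0 ∈ range d, (if (d : ℤ) ∣ (m0 : ℤ) * k0 - t then (1 : ℂ) else 0) *
        ((if m % d = m0 then (1 : ℂ) else 0) * (if k % d = k0 then (1 : ℂ) else 0)) =
      if m % d = m0 then (if k % d = k0 then (if (d : ℤ) ∣ (m : ℤ) * k - t then (1 : ℂ) else 0) else 0) else 0 := by
    intro m0 _ k0 _
    by_cases c1 : m % d = m0
    · by_cases c2 : k % d = k0
      · rw [if_pos c1, if_pos c2, if_pos c1, if_pos c2, mul_one, mul_one]
        have e1 : (d : ℤ) ∣ (m : ℤ) - m0 := by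
          rw [← c1]
          push_cast
          exact Int.dvd_self_sub_emod
        have e2 : (d : ℤ) ∣ (k : ℤ) - k0 := by
          rw [← c2]
          push_cast
          exact Int.dvd_self_sub_emod
        have e3 : (d : ℤ) ∣ ((m : ℤ) * k - t) - ((m0 : ℤ) * k0 - t) := by
          have : ((m : ℤ) * k - t) - ((m0 : ℤ) * k0 - t) = ((m : ℤ) - m0) * k + m0 * ((k : ℤ) - k0) := by ring
          rw [this]
          exact dvd_add (dvd_mul_of_dvd_left e1 _) (dvd_mul_of_dvd_right e2 _)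
        have e4 : (d : ℤ) ∣ (m0 : ℤ) * k0 - t ↔ (d : ℤ) ∣ (m : ℤ) * k - t := by
          constructor
          · intro h
            have := dvd_add e3 h
            simpa using this
          · intro h
            have := dvd_sub h e3
            simpa using this
        by_cases c3 : (d : ℤ) ∣ (m : ℤ) * k - t
        · rw [if_pos c3, if_pos (e4.mpr c3)]
        · rw [if_neg c3, if_neg (fun h => c3 (e4.mp h))]
      · rw [if_neg c2, if_neg c2, mul_zero, mul_zero, ite_self]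
    · rw [if_neg c1, if_neg c1, zero_mul, mul_zero]
  rw [sum_congr rfl (fun m0 hm0 => sum_congr rfl (fun k0 hk0 => h1 m0 hm0 k0 hk0))]
  have hm : m % d ∈ range d := mem_range.mpr (Nat.mod_lt _ hd)
  have hk : k % d ∈ range d := mem_range.mpr (Nat.mod_lt _ hd)
  rw [sum_eq_single_of_mem (m % d) hm]
  · rw [sum_eq_single_of_mem (k % d) hk]
    · rw [if_pos rfl, if_pos rfl]
    · intro b _ hb
      rw [if_pos rfl, if_neg (fun h => hb h.symm)]
  · intro b _ hb
    apply sum_eq_zero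
    intro c _
    rw [if_neg (fun h => hb h.symm)]

theorem bla (C0 : ℝ) (hC0 : 1 ≤ C0) : ∃ x0 : ℝ, ∀ x, x0 ≤ x → ∀ K M : ℕ, x / C0 ≤ M * K → (M : ℝ) * K ≤ C0 * x →
    x ^ (33000 * uu) ≤ K → (K : ℝ) ≤ C0 * x ^ (1 / 2 : ℝ) → ∀ t : ℤ, t ≠ 0 → (|t| : ℝ) ≤ x ^ (2 * uu) →
    ∀ a b : ℕ → ℂ, (∀ m, ‖a m‖ ≤ 1) → (∀ k, ‖b k‖ ≤ 1) →
      ‖∑ m ∈ Ioc M (2 * M), ∑ k ∈ Ioc K (2 * K), a m * b k * (g2 x (m * k - t) : ℂ)‖ ≤ x ^ (1 - 16 * uu) := by
  classical
  obtain ⟨x1, hx1⟩ := bil C0 hC0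
  obtain ⟨x2, hx2⟩ := BLA_large
  refine ⟨max x1 x2, fun x hx K M h1 h2 h3 h4 t ht htx a b ha hb => ?_⟩
  obtain ⟨hx1', hlog⟩ := hx2 x (le_trans (le_max_right _ _) hx)
  have hB := hx1 x (le_trans (le_max_left _ _) hx) K M h1 h2 h3 h4 t ht htx
  have hx0 : (0 : ℝ) < x := by linarith
  set E : ℝ := x ^ (1 - 23 * uu) with hE
  have hE0 : 0 ≤ E := Real.rpow_nonneg hx0.le _
  set y := yy x with hy
  have hyx : (y : ℝ) ≤ x ^ (2 * uu) := by
    rw [hy]
    unfold yy
    exact Nat.floor_le (Real.rpow_nonneg hx0.le _)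
  -- the sum for fixed d
  have hd : ∀ d : ℕ, 1 ≤ d → ‖∑ m ∈ Ioc M (2 * M), ∑ k ∈ Ioc K (2 * K), a m * b k *
      ((if (d : ℤ) ∣ (m : ℤ) * k - t then (1 : ℂ) else 0) * (g9 x (m * k - t) : ℂ))‖ ≤ (d : ℝ) ^ 2 * E := by
    intro d hd
    have e1 : ∑ m ∈ Ioc M (2 * M), ∑ k ∈ Ioc K (2 * K), a m * b k *
        ((if (d : ℤ) ∣ (m : ℤ) * k - t then (1 : ℂ) else 0) * (g9 x (m * k - t) : ℂ)) =
        ∑ m0 ∈ range d, ∑ k0 ∈ range d, (if (d : ℤ) ∣ (m0 : ℤ) * k0 - t then (1 : ℂ) else 0) *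
          ∑ m ∈ Ioc M (2 * M), ∑ k ∈ Ioc K (2 * K), (a m * (if m % d = m0 then (1 : ℂ) else 0)) *
            (b k * (if k % d = k0 then (1 : ℂ) else 0)) * (g9 x (m * k - t) : ℂ) := by
      calc _ = ∑ m ∈ Ioc M (2 * M), ∑ k ∈ Ioc K (2 * K), ∑ m0 ∈ range d, ∑ k0 ∈ range d,
            (if (d : ℤ) ∣ (m0 : ℤ) * k0 - t then (1 : ℂ) else 0) * ((a m * (if m % d = m0 then (1 : ℂ) else 0)) *
            (b k * (if k % d = k0 then (1 : ℂ) else 0)) * (g9 x (m * k - t) : ℂ)) := by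
            refine sum_congr rfl fun m _ => sum_congr rfl fun k _ => ?_
            rw [BLA_dvd hd t m k, sum_mul, mul_sum]
            refine sum_congr rfl fun m0 _ => ?_
            rw [sum_mul, mul_sum]
            refine sum_congr rfl fun k0 _ => ?_
            ring
        _ = ∑ m ∈ Ioc M (2 * M), ∑ m0 ∈ range d, ∑ k0 ∈ range d, ∑ k ∈ Ioc K (2 * K), 
            (if (d : ℤ) ∣ (m0 : ℤ) * k0 - t then (1 : ℂ) else 0) * ((a m * (if m % d = m0 then (1 : ℂ) else 0)) *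
            (b k * (if k % d = k0 then (1 : ℂ) else 0)) * (g9 x (m * k - t) : ℂ)) := by
            refine sum_congr rfl fun m _ => ?_
            rw [sum_comm]
            refine sum_congr rfl fun m0 _ => ?_
            rw [sum_comm]
        _ = ∑ m0 ∈ range d, ∑ k0 ∈ range d, ∑ m ∈ Ioc M (2 * M), ∑ k ∈ Ioc K (2 * K), 
            (if (d : ℤ) ∣ (m0 : ℤ) * k0 - t then (1 : ℂ) else 0) * ((a m * (if m % d = m0 then (1 : ℂ) else 0)) *
            (b k * (if k % d = k0 then (1 : ℂ) else 0)) * (g9 x (m * k - t) : ℂ)) := by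
            rw [sum_comm]
            refine sum_congr rfl fun m0 _ => ?_
            rw [sum_comm]
        _ = _ := by
            refine sum_congr rfl fun m0 _ => sum_congr rfl fun k0 _ => ?_
            rw [mul_sum]
            refine sum_congr rfl fun m _ => ?_
            rw [mul_sum]
    rw [e1]
    calc _ ≤ ∑ m0 ∈ range d, ∑ k0 ∈ range d, E := by
          refine le_trans (norm_sum_le _ _) (sum_le_sum fun m0 _ => ?_)
          refine le_trans (norm_sum_le _ _) (sum_le_sum fun k0 _ => ?_)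
          rw [norm_mul]
          have e2 : ‖(if (d : ℤ) ∣ (m0 : ℤ) * k0 - t then (1 : ℂ) else 0)‖ ≤ 1 := by
            split_ifs <;> simp
          have e3 := hB (fun m => a m * (if m % d = m0 then (1 : ℂ) else 0)) (fun k => b k * (if k % d = k0 then (1 : ℂ) else 0))
            (fun m => by
              rw [norm_mul]
              have : ‖(if m % d = m0 then (1 : ℂ) else 0)‖ ≤ 1 := by split_ifs <;> simp
              exact mul_le_one₀ (ha m) (norm_nonneg _) this)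
            (fun k => by
              rw [norm_mul]
              have : ‖(if k % d = k0 then (1 : ℂ) else 0)‖ ≤ 1 := by split_ifs <;> simp
              exact mul_le_one₀ (hb k) (norm_nonneg _) this)
          calc _ ≤ 1 * E := mul_le_mul e2 e3 (norm_nonneg _) (by norm_num)
            _ = E := one_mul _
      _ = (d : ℝ) ^ 2 * E := by
          rw [sum_const, sum_const, card_range, nsmul_eq_mul, nsmul_eq_mul]
          ring
  -- decomposition
  have e2 : ∑ m ∈ Ioc M (2 * M), ∑ k ∈ Ioc K (2 * K), a m * b k * (g2 x (m * k - t) : ℂ) =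
      ∑ d ∈ Icc 1 y, (aG y d : ℂ) * ∑ m ∈ Ioc M (2 * M), ∑ k ∈ Ioc K (2 * K), a m * b k *
      ((if (d : ℤ) ∣ (m : ℤ) * k - t then (1 : ℂ) else 0) * (g9 x (m * k - t) : ℂ)) := by
    calc _ = ∑ m ∈ Ioc M (2 * M), ∑ k ∈ Ioc K (2 * K), ∑ d ∈ Icc 1 y, (aG y d : ℂ) * (a m * b k *
      ((if (d : ℤ) ∣ (m : ℤ) * k - t then (1 : ℂ) else 0) * (g9 x (m * k - t) : ℂ))) := by
          refine sum_congr rfl fun m _ => sum_congr rfl fun k _ => ?_
          have : (g2 x (m * k - t) : ℂ) = (∑ d ∈ Icc 1 y, (aG y d : ℂ) * (if (d : ℤ) ∣ (m : ℤ) * k - t then (1 : ℂ) else 0)) *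
              (g9 x (m * k - t) : ℂ) := by
            unfold g2
            rw [← hy, GG_eq, sum_filter]
            push_cast
            congr 1
            refine sum_congr rfl fun d _ => ?_
            split_ifs <;> simp
          rw [this, sum_mul, mul_sum]
          refine sum_congr rfl fun d _ => ?_
          ring
      _ = ∑ m ∈ Ioc M (2 * M), ∑ d ∈ Icc 1 y, ∑ k ∈ Ioc K (2 * K), (aG y d : ℂ) * (a m * b k *
      ((if (d : ℤ) ∣ (m : ℤ) * k - t then (1 : ℂ) else 0) * (g9 x (m * k - t) : ℂ))) := by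
          refine sum_congr rfl fun m _ => ?_
          rw [sum_comm]
      _ = ∑ d ∈ Icc 1 y, ∑ m ∈ Ioc M (2 * M), ∑ k ∈ Ioc K (2 * K), (aG y d : ℂ) * (a m * b k *
      ((if (d : ℤ) ∣ (m : ℤ) * k - t then (1 : ℂ) else 0) * (g9 x (m * k - t) : ℂ))) := by
          rw [sum_comm]
      _ = _ := by
          refine sum_congr rfl fun d _ => ?_
          rw [mul_sum]
          refine sum_congr rfl fun m _ => ?_
          rw [mul_sum]
  rw [e2]
  have hlogy : ∀ d ∈ Icc 1 y, |aG y d| ≤ x ^ uu := by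
    intro d hd1
    rw [mem_Icc] at hd1
    have hy1 : 1 ≤ y := le_trans hd1.1 hd1.2
    refine le_trans (aG_le hy1 hd1.1) (le_trans ?_ hlog)
    have f1 : (1 : ℝ) ≤ y := by exact_mod_cast hy1
    have f2 : Real.log y ≤ Real.log x := by
      apply Real.log_le_log (by linarith)
      refine le_trans hyx ?_
      calc x ^ (2 * uu) ≤ x ^ (1 : ℝ) := Real.rpow_le_rpow_of_exponent_le hx1' (by unfold uu; norm_num)
        _ = x := Real.rpow_one x
    have f3 : 0 ≤ Real.log y := Real.log_nonneg f1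
    have f4 : (1 + Real.log y) ^ 3 ≤ (1 + Real.log x) ^ 3 := pow_le_pow_left₀ (by linarith) (by linarith) 3
    linarith
  have hxu : 0 ≤ x ^ uu := Real.rpow_nonneg hx0.le _
  calc _ ≤ ∑ d ∈ Icc 1 y, x ^ uu * ((y : ℝ) ^ 2 * E) := by
        refine le_trans (norm_sum_le _ _) (sum_le_sum fun d hd1 => ?_)
        rw [norm_mul, Complex.norm_real, Real.norm_eq_abs]
        have hd2 := hlogy d hd1
        rw [mem_Icc] at hd1
        refine mul_le_mul hd2 (le_trans (hd d hd1.1) ?_) (norm_nonneg _) hxu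
        apply mul_le_mul_of_nonneg_right _ hE0
        have : (d : ℝ) ≤ y := by exact_mod_cast hd1.2
        exact pow_le_pow_left₀ (by positivity) this 2
    _ = x ^ uu * ((y : ℝ) ^ 3 * E) := by
        rw [sum_const, Nat.card_Icc, nsmul_eq_mul]
        have : y + 1 - 1 = y := by omega
        rw [this]
        ring
    _ ≤ x ^ uu * ((x ^ (2 * uu)) ^ 3 * E) := by
        apply mul_le_mul_of_nonneg_left _ hxu
        apply mul_le_mul_of_nonneg_right _ hE0
        exact pow_le_pow_left₀ (by positivity) hyx 3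
    _ = x ^ (1 - 16 * uu) := by
        rw [hE, ← Real.rpow_natCast, ← Real.rpow_mul hx0.le, ← Real.rpow_add hx0, ← Real.rpow_add hx0]
        congr 1
        push_cast
        ring

end H69BG
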