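import Pool.Agent.H69.BG.Defs

/-!
# BVS: sequences of bounded variation in residue classes

`v` real, supported in `0..N`. `TVn N v = |v 0| + ∑_{k<N} |v(k+1) - v k| + |v N|`. For a class `c` mod `q`, with `A(k) = #{j ≤ k : j ≡ c (q)} - (k+1)/q ∈ [-1, 1]`:
`∑_{k ≤ N, k ≡ c} v k - (1/q) ∑_{k ≤ N} v k = ∑_{k ≤ N} v(k) (A(k) - A(k-1)) = A(N) v(N) - ∑_{k<N} A(k) (v(k+1) - v(k))` (`A(-1) = 0`), so its absolute value is `≤ TVn N v`.
The class may be given by a condition `a k ≡ t mod q`.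
-/

open Finset

namespace H69BG

/-- the total variation -/
noncomputable def TVn (N : ℕ) (v : ℕ → ℝ) : ℝ := |v 0| + (∑ k ∈ range N, |v (k + 1) - v k|) + |v N|

private theorem BVS_abel (f : ℕ → ℝ) (v : ℕ → ℝ) (N : ℕ) :
    ∑ k ∈ range (N + 1), f k * v k =
      (∑ j ∈ range (N + 1), f j) * v N - ∑ k ∈ range N, (∑ j ∈ range (k + 1), f j) * (v (k + 1) - v k) := by
  induction N with
  | zero => simp
  | succ n ih =>
    rw [sum_range_succ, ih, sum_range_succ (fun k => (∑ j ∈ range (k + 1), f j) * (v (k + 1) - v k)),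
      sum_range_succ f (n + 1)]
    ring

private theorem BVS_count {q : ℕ} (hq : 1 ≤ q) (c : ℤ) (n : ℕ) :
    |∑ j ∈ range n, ((if (q : ℤ) ∣ j - c then (1 : ℝ) else 0) - 1 / q)| ≤ 1 := by
  have hq0 : (0 : ℝ) < q := by exact_mod_cast hq
  have h1 : ((range n).filter (fun j : ℕ => (q : ℤ) ∣ j - c)).card =
      n / q + if (c % q).toNat % q < n % q then 1 else 0 := by
    rw [← Nat.count_modEq_card n hq, Nat.count_eq_card_filter_range]
    congr 1
    ext j
    simp only [mem_filter]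
    refine and_congr_right fun _ => ?_
    have hcn : ((c % q).toNat : ℤ) = c % q := Int.toNat_of_nonneg (Int.emod_nonneg _ (by omega))
    rw [← Int.natCast_modEq_iff, hcn, Int.modEq_iff_dvd, ← dvd_neg, show -((j : ℤ) - c) = c - j by ring]
    have h2 : (q : ℤ) ∣ c % q - c := by
      rw [← dvd_neg, neg_sub]; exact Int.dvd_self_sub_emod
    constructor
    · intro h; have := dvd_add h2 h; simpa using this
    · intro h
      have := dvd_sub h h2
      have e : c % (q : ℤ) - j - (c % q - c) = c - j := by ring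
      rwa [e] at this
  rw [sum_sub_distrib, ← sum_filter, sum_const, sum_const, h1, card_range, nsmul_eq_mul, nsmul_eq_mul]
  have h3 : (n : ℝ) = q * (n / q : ℕ) + (n % q : ℕ) := by exact_mod_cast (Nat.div_add_mod n q).symm
  have h4 : ((n % q : ℕ) : ℝ) < q := by exact_mod_cast Nat.mod_lt n hq
  have h5 : (0 : ℝ) ≤ ((n % q : ℕ) : ℝ) := by positivity
  have h6 : (n : ℝ) * (1 / q) = (n / q : ℕ) + ((n % q : ℕ) : ℝ) / q := by
    rw [mul_one_div]
    nth_rewrite 1 [h3]
    field_simp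
  have h7 : ((n % q : ℕ) : ℝ) / q < 1 := by rwa [div_lt_one hq0]
  have h8 : 0 ≤ ((n % q : ℕ) : ℝ) / q := by positivity
  rw [h6, abs_le]
  push_cast
  split_ifs <;> constructor <;> push_cast <;> linarith

theorem bvs {q : ℕ} (hq : 1 ≤ q) (c : ℤ) (N : ℕ) (v : ℕ → ℝ) :
    |∑ k ∈ (range (N + 1)).filter (fun k : ℕ => (q : ℤ) ∣ k - c), v k - (1 / q : ℝ) * ∑ k ∈ range (N + 1), v k|
      ≤ TVn N v := by
  have h1 : ∑ k ∈ (range (N + 1)).filter (fun k : ℕ => (q : ℤ) ∣ k - c), v k - (1 / q : ℝ) * ∑ k ∈ range (N + 1), v k =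
      ∑ k ∈ range (N + 1), ((if (q : ℤ) ∣ k - c then (1 : ℝ) else 0) - 1 / q) * v k := by
    rw [sum_filter, mul_sum, ← sum_sub_distrib]
    refine sum_congr rfl fun k _ => ?_
    split_ifs <;> ring
  rw [h1, BVS_abel]
  refine (abs_sub _ _).trans ?_
  have h2 : |(∑ j ∈ range (N + 1), ((if (q : ℤ) ∣ j - c then (1 : ℝ) else 0) - 1 / q)) * v N| ≤ |v N| := by
    rw [abs_mul]
    exact mul_le_of_le_one_left (abs_nonneg _) (BVS_count hq c _)
  have h3 : |∑ k ∈ range N, (∑ j ∈ range (k + 1), ((if (q : ℤ) ∣ j - c then (1 : ℝ) else 0) - 1 / q)) * (v (k + 1) - v k)|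
      ≤ ∑ k ∈ range N, |v (k + 1) - v k| := by
    refine (abs_sum_le_sum_abs _ _).trans (sum_le_sum fun k _ => ?_)
    rw [abs_mul]
    exact mul_le_of_le_one_left (abs_nonneg _) (BVS_count hq c _)
  rw [TVn]
  have h4 := abs_nonneg (v 0)
  linarith

/-- a linear congruence `s ∣ l k - t` with `(l, s) = 1` together with `d ∣ l k - t`, `(s, d) = 1`: the number `ρ ≤ d` of classes mod `d s` does not
depend on `s` -/
theorem bvs_lin {l d : ℕ} (hl : 1 ≤ l) (hd : 1 ≤ d) (t : ℤ) : ∃ ρ : ℕ, ρ ≤ d ∧ ∀ s : ℕ, 1 ≤ s → Nat.Coprime s d →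
    Nat.Coprime s l → ∀ (N : ℕ) (v : ℕ → ℝ),
      |∑ k ∈ (range (N + 1)).filter (fun k : ℕ => (s : ℤ) ∣ l * k - t ∧ (d : ℤ) ∣ l * k - t), v k
        - (ρ / (d * s) : ℝ) * ∑ k ∈ range (N + 1), v k| ≤ d * TVn N v := by
  set C : Finset ℕ := (range d).filter (fun c : ℕ => (d : ℤ) ∣ l * c - t) with hC
  have hCd : C.card ≤ d := (card_le_card (filter_subset _ _)).trans (by simp)
  refine ⟨C.card, hCd, fun s hs hsd hsl N v => ?_⟩
  obtain ⟨a, b, hab⟩ := Nat.isCoprime_iff_coprime.2 hsl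
  obtain ⟨x, y, hxy⟩ := Nat.isCoprime_iff_coprime.2 hsd
  -- the class mod `d s`
  set cc : ℕ → ℤ := fun c => b * t * (y * d) + c * (x * s) with hcc
  have hmaps : ∀ k ∈ (range (N + 1)).filter (fun k : ℕ => (s : ℤ) ∣ l * k - t ∧ (d : ℤ) ∣ l * k - t), k % d ∈ C := by
    intro k hk
    simp only [mem_filter, mem_range] at hk
    simp only [hC, mem_filter, mem_range]
    refine ⟨Nat.mod_lt _ hd, ?_⟩
    have h1 : (d : ℤ) ∣ (k : ℤ) - (k % d : ℕ) := by
      push_cast; exact Int.dvd_self_sub_emod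
    have h2 : (l : ℤ) * (k % d : ℕ) - t = (l * k - t) - l * ((k : ℤ) - (k % d : ℕ)) := by ring
    rw [h2]
    exact dvd_sub hk.2.2 (Dvd.dvd.mul_left h1 _)
  rw [← sum_fiberwise_of_maps_to hmaps]
  have hfib : ∀ c ∈ C, ((range (N + 1)).filter (fun k : ℕ => (s : ℤ) ∣ l * k - t ∧ (d : ℤ) ∣ l * k - t)).filter (fun k => k % d = c) =
      (range (N + 1)).filter (fun k : ℕ => ((d * s : ℕ) : ℤ) ∣ k - cc c) := by
    intro c hc
    simp only [hC, mem_filter, mem_range] at hc
    ext k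
    simp only [mem_filter, mem_range, and_assoc]
    refine and_congr_right fun _ => ?_
    have e1 : k % d = c ↔ (d : ℤ) ∣ k - c := by
      have : c % d = c := Nat.mod_eq_of_lt hc.1
      rw [← Int.modEq_iff_dvd, Int.natCast_modEq_iff, Nat.ModEq, this]
      exact eq_comm
    have e2 : (s : ℤ) ∣ l * k - t ↔ (s : ℤ) ∣ k - b * t := by
      constructor
      · intro h
        have : (k : ℤ) - b * t = s * (a * k) + b * (l * k - t) := by
          have : (k : ℤ) = (a * s + b * l) * k := by rw [hab, one_mul]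
          linear_combination this
        rw [this]
        exact dvd_add (dvd_mul_right _ _) (Dvd.dvd.mul_left h _)
      · intro h
        have : (l : ℤ) * k - t = l * (k - b * t) + s * (-(a * t)) := by
          linear_combination t * hab
        rw [this]
        exact dvd_add (Dvd.dvd.mul_left h _) (dvd_mul_right _ _)
    have e3 : (s : ℤ) ∣ k - b * t ↔ (s : ℤ) ∣ k - cc c := by
      have : (k : ℤ) - cc c = (k - b * t) - s * (x * (c - b * t)) := by
        simp only [hcc]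
        linear_combination (-(b * t)) * hxy
      rw [this]
      exact (dvd_sub_left (dvd_mul_right _ _)).symm
    have e4 : (d : ℤ) ∣ k - c ↔ (d : ℤ) ∣ k - cc c := by
      have : (k : ℤ) - cc c = (k - c) - d * (y * (b * t - c)) := by
        simp only [hcc]
        linear_combination (-(c : ℤ)) * hxy
      rw [this]
      exact (dvd_sub_left (dvd_mul_right _ _)).symm
    rw [e1, e2]
    constructor
    · rintro ⟨h1, h2, h3⟩
      push_cast
      exact IsCoprime.mul_dvd (Nat.isCoprime_iff_coprime.2 hsd.symm) (e4.1 h3) (e3.1 h1)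
    · intro h
      push_cast at h
      have h1 : (d : ℤ) ∣ k - c := e4.2 ((dvd_mul_right _ _).trans h)
      refine ⟨e3.2 ((dvd_mul_left _ _).trans h), ?_, h1⟩
      have h2 : (l : ℤ) * k - t = (l * c - t) + l * ((k : ℤ) - c) := by ring
      rw [h2]
      exact dvd_add hc.2 (Dvd.dvd.mul_left h1 _)
  rw [sum_congr rfl fun c hc => by rw [hfib c hc]]
  have hTV : 0 ≤ TVn N v := by rw [TVn]; positivity
  have hds : 1 ≤ d * s := Nat.mul_pos hd hs
  calc |∑ c ∈ C, ∑ k ∈ (range (N + 1)).filter (fun k : ℕ => ((d * s : ℕ) : ℤ) ∣ k - cc c), v k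
        - ((C.card : ℝ) / (d * s) : ℝ) * ∑ k ∈ range (N + 1), v k|
      = |∑ c ∈ C, (∑ k ∈ (range (N + 1)).filter (fun k : ℕ => ((d * s : ℕ) : ℤ) ∣ k - cc c), v k
        - (1 / ((d * s : ℕ) : ℝ)) * ∑ k ∈ range (N + 1), v k)| := by
        rw [sum_sub_distrib, sum_const, nsmul_eq_mul]
        push_cast
        congr 2
        ring
    _ ≤ ∑ c ∈ C, TVn N v := (abs_sum_le_sum_abs _ _).trans (sum_le_sum fun c _ => bvs hds (cc c) N v)
    _ = C.card * TVn N v := by rw [sum_const, nsmul_eq_mul]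
    _ ≤ d * TVn N v := mul_le_mul_of_nonneg_right (by exact_mod_cast hCd) hTV

end H69BG
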