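import Pool.Agent.H69.BG.Phk
import Pool.Agent.H69.BG.Crx
import Pool.Agent.H69.BG.Wll

/-!
# CRA: exponential integrals against `be2`

`∫ Wl W x v e(θv) conj be2(v) dv = ∑_{m ≤ N'} g2(m) ∫ Wl W x v e(θv) conj Φ(v-m) dv`, `N' = NN (M+1) x`. Replace `Wl W x v` by `Wl W x m`: error `≤ ∑_m x^{3u} (C/x) ∫ |v| ‖Φ(v)‖ dv ≤ C x^{3u} (1 + H) ≤ x^{5u}` (`g2_bd`, `Wl_lip`, `Ph_decay` with `A = 4`).
`∫ e(θv) conj Φ(v-m) dv = e(θm) φ(Hθ)` (`Ph_inv`).
-/

open Finset H69LB MeasureTheory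

namespace H69BG

private theorem Cra_ee_norm (t : ℝ) : ‖ee t‖ = 1 := by
  unfold ee
  rw [show (2 * Real.pi * t * Complex.I : ℂ) = ((2 * Real.pi * t : ℝ) : ℂ) * Complex.I by push_cast; ring]
  exact Complex.norm_exp_ofReal_mul_I _

private theorem Cra_ee_add (s t : ℝ) : ee (s + t) = ee s * ee t := by
  unfold ee
  rw [← Complex.exp_add]
  congr 1
  push_cast
  ring

private theorem Cra_ee_cont (θ : ℝ) : Continuous (fun v : ℝ => ee (θ * v)) := by
  unfold ee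
  fun_prop

private theorem Cra_int1 : Integrable (fun s : ℝ => 1 / (1 + |s|) ^ 2) := by
  have h := integrable_one_add_norm (E := ℝ) (μ := volume) (r := 2) (by
    rw [Module.finrank_self]
    norm_num)
  refine h.congr (Filter.Eventually.of_forall fun s => ?_)
  show (1 + ‖s‖) ^ (-2 : ℝ) = 1 / (1 + |s|) ^ 2
  rw [Real.norm_eq_abs, Real.rpow_neg (by positivity), one_div]
  congr 1
  exact Real.rpow_natCast (1 + |s|) 2

private theorem Cra_intH {H : ℝ} (hH : 0 < H) :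
    Integrable (fun v : ℝ => 1 / (1 + |v| / H) ^ 2) ∧
      ∫ v : ℝ, 1 / (1 + |v| / H) ^ 2 = H * ∫ s : ℝ, 1 / (1 + |s|) ^ 2 := by
  have e : (fun v : ℝ => 1 / (1 + |v| / H) ^ 2) = fun v => (fun s : ℝ => 1 / (1 + |s|) ^ 2) (v / H) := by
    funext v
    simp only
    rw [abs_div, abs_of_pos hH]
  constructor
  · rw [e]
    exact Cra_int1.comp_div hH.ne'
  · rw [e]
    have h1 := Measure.integral_comp_div (fun s : ℝ => 1 / (1 + |s|) ^ 2) H
    rw [abs_of_pos hH, smul_eq_mul] at h1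
    exact h1

private theorem Cra_intm {φ : ℝ → ℝ} (hφ : PH φ) {H : ℝ} (hH : 0 < H) (θ m : ℝ) :
    Integrable (fun v => ee (θ * v) * (starRingEnd ℂ) (Ph φ H (v - m))) := by
  have h1 : Integrable (fun v => Ph φ H (v - m)) := (Ph_integrable hφ hH).comp_sub_right m
  have h2 : Integrable (fun v => (starRingEnd ℂ) (Ph φ H (v - m))) :=
    ⟨Complex.continuous_conj.comp_aestronglyMeasurable h1.1,
      h1.2.congr' (Filter.Eventually.of_forall fun v => by simp only [RCLike.norm_conj])⟩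
  refine h2.bdd_mul (c := 1) (Cra_ee_cont θ).aestronglyMeasurable ?_
  exact Filter.Eventually.of_forall fun v => (Cra_ee_norm _).le

private theorem Cra_val {φ : ℝ → ℝ} (hφ : PH φ) {H : ℝ} (hH : 0 < H) (θ m : ℝ) :
    ∫ v, ee (θ * v) * (starRingEnd ℂ) (Ph φ H (v - m)) = ((φ (H * θ) : ℝ) : ℂ) * ee (θ * m) := by
  have h1 := integral_sub_right_eq_self (μ := volume)
    (fun v : ℝ => ee (θ * (v + m)) * (starRingEnd ℂ) (Ph φ H v)) m
  simp only [sub_add_cancel] at h1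
  rw [h1, ← Ph_inv hφ hH θ, ← integral_mul_const]
  refine integral_congr_ae (Filter.Eventually.of_forall fun v => ?_)
  simp only
  rw [mul_add, Cra_ee_add]
  ring

private theorem Cra_err {φ : ℝ → ℝ} (hφ : PH φ) {M : ℝ} {W : ℝ → ℝ} (hW : WS M W) :
    ∃ C : ℝ, 0 ≤ C ∧ ∀ x : ℝ, 0 < x → ∀ H : ℝ, 0 < H → ∀ θ m : ℝ,
      Integrable (fun v => ((Wl W x v : ℝ) : ℂ) * (ee (θ * v) * (starRingEnd ℂ) (Ph φ H (v - m)))) ∧
      ‖(∫ v, ((Wl W x v : ℝ) : ℂ) * (ee (θ * v) * (starRingEnd ℂ) (Ph φ H (v - m)))) -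
        ((Wl W x m : ℝ) : ℂ) * (((φ (H * θ) : ℝ) : ℂ) * ee (θ * m))‖ ≤ C * H / x := by
  obtain ⟨C1, hC1, h1⟩ := Wl_lip hW
  obtain ⟨C2, hC2, h2⟩ := Ph_decay hφ 3
  obtain ⟨I, hI⟩ : ∃ I : ℝ, I = ∫ s : ℝ, 1 / (1 + |s|) ^ 2 := ⟨_, rfl⟩
  have hI0 : 0 ≤ I := by
    rw [hI]
    exact integral_nonneg fun s => by positivity
  refine ⟨C1 * C2 * I, by positivity, fun x hx H hH θ m => ?_⟩
  have hi := Cra_intm hφ hH θ m
  obtain ⟨B, hB⟩ := (Wl_comp hW hx).exists_bound_of_continuous (Wl_cont hW hx)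
  have hWi : Integrable (fun v => ((Wl W x v : ℝ) : ℂ) * (ee (θ * v) * (starRingEnd ℂ) (Ph φ H (v - m)))) := by
    refine hi.bdd_mul (c := B) ?_ ?_
    · exact (Complex.continuous_ofReal.comp (Wl_cont hW hx)).aestronglyMeasurable
    · exact Filter.Eventually.of_forall fun v => by
        rw [Complex.norm_real]
        exact hB v
  refine ⟨hWi, ?_⟩
  rw [← Cra_val hφ hH θ m, ← integral_const_mul, ← integral_sub hWi (hi.const_mul _)]
  obtain ⟨hj, he⟩ := Cra_intH hH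
  have hjm : Integrable (fun v : ℝ => 1 / (1 + |v - m| / H) ^ 2) := hj.comp_sub_right m
  have hem : ∫ v : ℝ, 1 / (1 + |v - m| / H) ^ 2 = H * I := by
    rw [hI, ← he]
    exact integral_sub_right_eq_self (μ := volume) (fun v : ℝ => 1 / (1 + |v| / H) ^ 2) m
  calc ‖∫ v, (((Wl W x v : ℝ) : ℂ) * (ee (θ * v) * (starRingEnd ℂ) (Ph φ H (v - m))) -
          ((Wl W x m : ℝ) : ℂ) * (ee (θ * v) * (starRingEnd ℂ) (Ph φ H (v - m))))‖
        ≤ ∫ v, (C1 / x * C2) * (1 / (1 + |v - m| / H) ^ 2) := by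
          refine norm_integral_le_of_norm_le (hjm.const_mul _) (Filter.Eventually.of_forall fun v => ?_)
          rw [← sub_mul, ← Complex.ofReal_sub, norm_mul, norm_mul, Complex.norm_real, Cra_ee_norm, one_mul,
            RCLike.norm_conj, Real.norm_eq_abs]
          have a1 := h1 x hx v m
          have a2 := h2 H hH (v - m)
          have a3 : |v - m| * (C2 / H / (1 + |v - m| / H) ^ 3) ≤ C2 * (1 / (1 + |v - m| / H) ^ 2) := by
            have b1 : 0 < 1 + |v - m| / H := by positivity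
            have b2 : |v - m| / H / (1 + |v - m| / H) ≤ 1 := by
              rw [div_le_one b1]
              linarith
            have b3 : |v - m| * (C2 / H / (1 + |v - m| / H) ^ 3) =
                (C2 * (1 / (1 + |v - m| / H) ^ 2)) * (|v - m| / H / (1 + |v - m| / H)) := by
              field_simp
            rw [b3]
            exact mul_le_of_le_one_right (by positivity) b2
          calc |Wl W x v - Wl W x m| * ‖Ph φ H (v - m)‖ ≤
                (C1 / x * |v - m|) * (C2 / H / (1 + |v - m| / H) ^ 3) :=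
                mul_le_mul a1 a2 (norm_nonneg _) (by positivity)
            _ = C1 / x * (|v - m| * (C2 / H / (1 + |v - m| / H) ^ 3)) := by ring
            _ ≤ C1 / x * (C2 * (1 / (1 + |v - m| / H) ^ 2)) :=
                mul_le_mul_of_nonneg_left a3 (by positivity)
            _ = (C1 / x * C2) * (1 / (1 + |v - m| / H) ^ 2) := by ring
    _ = (C1 / x * C2) * (H * I) := by rw [integral_const_mul, hem]
    _ = C1 * C2 * I * H / x := by ring

theorem cra {φ : ℝ → ℝ} (hφ : PH φ) {M : ℝ} (hM : 0 < M) {W : ℝ → ℝ} (hW : WS M W) {c0 C0 : ℝ} (hc0 : 0 < c0) :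
    ∃ x0 : ℝ, ∀ x, x0 ≤ x → ∀ H : ℝ, c0 ≤ H → H ≤ C0 * x ^ uu → ∀ θ : ℝ,
      ‖(∫ v, ((Wl W x v : ℝ) : ℂ) * ee (θ * v) * (starRingEnd ℂ) (be2 φ M x H v)) -
        ∑ m ∈ Icc 1 (NN (M + 1) x), ((W (Real.log (m / x)) * g2 x m : ℝ) : ℂ) * (((φ (H * θ) : ℝ) : ℂ) * ee (θ * m))‖ ≤
          x ^ (5 * uu) := by
  have hu : (0 : ℝ) < uu := Crx_uu_pos
  obtain ⟨C, hC, herr⟩ := Cra_err hφ hW
  obtain ⟨x1, hg⟩ := g2_bd
  obtain ⟨K, hK⟩ : ∃ K, K = Real.exp (M + 1) * C * |C0| + 1 := ⟨_, rfl⟩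
  have hK0 : 0 < K := by rw [hK]; positivity
  refine ⟨max (max x1 2) (max (K ^ (1 / uu)) (Real.exp (M + 1) ^ (10 : ℝ))), fun x hx H hcH hHx θ => ?_⟩
  have hx1 : x1 ≤ x := (le_max_left _ _).trans ((le_max_left _ _).trans hx)
  have hx2 : 2 ≤ x := (le_max_right _ _).trans ((le_max_left _ _).trans hx)
  have hx3 : K ^ (1 / uu) ≤ x := (le_max_left _ _).trans ((le_max_right _ _).trans hx)
  have hx4 : Real.exp (M + 1) ^ (10 : ℝ) ≤ x := (le_max_right _ _).trans ((le_max_right _ _).trans hx)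
  have hx0 : 0 < x := by linarith
  have hH : 0 < H := lt_of_lt_of_le hc0 hcH
  have hKx : K ≤ x ^ uu := by
    have h4 := Real.rpow_le_rpow (by positivity) hx3 hu.le
    rw [← Real.rpow_mul (by positivity)] at h4
    have h5 : 1 / uu * uu = 1 := by field_simp
    rw [h5, Real.rpow_one] at h4
    exact h4
  have hEx : Real.exp (M + 1) ≤ x ^ (1 / 10 : ℝ) := by
    have h4 := Real.rpow_le_rpow (by positivity) hx4 (by norm_num : (0 : ℝ) ≤ 1 / 10)
    rw [← Real.rpow_mul (by positivity)] at h4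
    norm_num at h4
    norm_num
    exact h4
  have hNx : ((NN (M + 1) x : ℕ) : ℝ) ≤ x * Real.exp (M + 1) := Nat.floor_le (by positivity)
  have hNx2 : x * Real.exp (M + 1) ≤ x ^ (11 / 10 : ℝ) := by
    calc x * Real.exp (M + 1) ≤ x * x ^ (1 / 10 : ℝ) := mul_le_mul_of_nonneg_left hEx hx0.le
      _ = x ^ (11 / 10 : ℝ) := by
        rw [show (11 / 10 : ℝ) = 1 + 1 / 10 by norm_num, Real.rpow_add hx0, Real.rpow_one]
  -- the integral as a sum
  have e1 : (fun v => ((Wl W x v : ℝ) : ℂ) * ee (θ * v) * (starRingEnd ℂ) (be2 φ M x H v)) =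
      fun v => ∑ m ∈ Icc 1 (NN (M + 1) x), ((g2 x m : ℝ) : ℂ) *
        (((Wl W x v : ℝ) : ℂ) * (ee (θ * v) * (starRingEnd ℂ) (Ph φ H (v - (m : ℝ))))) := by
    funext v
    unfold be2
    rw [map_sum, Finset.mul_sum]
    refine Finset.sum_congr rfl fun m _ => ?_
    rw [map_mul, Complex.conj_ofReal]
    ring
  have e0 : ∀ m ∈ Icc 1 (NN (M + 1) x), Integrable (fun v => ((g2 x m : ℝ) : ℂ) *
        (((Wl W x v : ℝ) : ℂ) * (ee (θ * v) * (starRingEnd ℂ) (Ph φ H (v - (m : ℝ)))))) :=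
    fun m _ => ((herr x hx0 H hH θ (m : ℝ)).1).const_mul _
  rw [e1, integral_finsetSum _ e0, ← Finset.sum_sub_distrib]
  have e2 : ∀ m ∈ Icc 1 (NN (M + 1) x),
      ‖(∫ v, ((g2 x m : ℝ) : ℂ) *
        (((Wl W x v : ℝ) : ℂ) * (ee (θ * v) * (starRingEnd ℂ) (Ph φ H (v - (m : ℝ)))))) -
        ((W (Real.log (m / x)) * g2 x m : ℝ) : ℂ) * (((φ (H * θ) : ℝ) : ℂ) * ee (θ * m))‖ ≤
        x ^ (3 * uu) * (C * H / x) := by
    intro m hm
    rw [Finset.mem_Icc] at hm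
    have b1 := (herr x hx0 H hH θ (m : ℝ)).2
    rw [Wl_nat hm.1] at b1
    have b2 : |g2 x m| ≤ x ^ (3 * uu) := by
      refine hg x hx1 (m : ℤ) (by exact_mod_cast (by omega : m ≠ 0)) ?_
      have : ((m : ℕ) : ℝ) ≤ (NN (M + 1) x : ℕ) := by exact_mod_cast hm.2
      have h3 : (|(m : ℤ)| : ℝ) = (m : ℝ) := by
        push_cast
        exact abs_of_nonneg (by positivity)
      rw [h3]
      linarith
    rw [integral_const_mul]
    have e3 : ((g2 x m : ℝ) : ℂ) * (∫ v, ((Wl W x v : ℝ) : ℂ) * (ee (θ * v) * (starRingEnd ℂ) (Ph φ H (v - (m : ℝ))))) -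
        ((W (Real.log (m / x)) * g2 x m : ℝ) : ℂ) * (((φ (H * θ) : ℝ) : ℂ) * ee (θ * m)) =
        ((g2 x m : ℝ) : ℂ) * ((∫ v, ((Wl W x v : ℝ) : ℂ) * (ee (θ * v) * (starRingEnd ℂ) (Ph φ H (v - (m : ℝ))))) -
        ((W (Real.log (m / x)) : ℝ) : ℂ) * (((φ (H * θ) : ℝ) : ℂ) * ee (θ * m))) := by
      push_cast
      ring
    rw [e3, norm_mul, Complex.norm_real, Real.norm_eq_abs]
    exact mul_le_mul b2 b1 (norm_nonneg _) (by positivity)
  refine (norm_sum_le _ _).trans ((Finset.sum_le_sum e2).trans ?_)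
  rw [Finset.sum_const, Nat.card_Icc, Nat.add_sub_cancel, nsmul_eq_mul]
  have hH2 : H ≤ |C0| * x ^ uu := hHx.trans (mul_le_mul_of_nonneg_right (le_abs_self _) (by positivity))
  calc ((NN (M + 1) x : ℕ) : ℝ) * (x ^ (3 * uu) * (C * H / x)) ≤
        (x * Real.exp (M + 1)) * (x ^ (3 * uu) * (C * (|C0| * x ^ uu) / x)) := by gcongr
    _ = (Real.exp (M + 1) * C * |C0|) * (x ^ (3 * uu) * x ^ uu) := by
        field_simp
    _ ≤ K * (x ^ (3 * uu) * x ^ uu) := by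
        refine mul_le_mul_of_nonneg_right ?_ (by positivity)
        rw [hK]
        linarith
    _ ≤ x ^ uu * (x ^ (3 * uu) * x ^ uu) := mul_le_mul_of_nonneg_right hKx (by positivity)
    _ = x ^ (5 * uu) := by
        rw [← Real.rpow_add hx0, ← Real.rpow_add hx0]
        congr 1
        ring

end H69BG
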