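import Mathlib
import Pool.Agent.H69.LB.Defs

/-!
# Beyond the GRH barrier: shared definitions

Overview: /team-store/H69_F_beyond.md
-/

open Finset H69LB

namespace H69BG

/-! ## prime ranges, the function `g` -/

/-- the unit of the exponents -/
noncomputable def uu : ℝ := 1 / 100000

/-- exponents of the prime ranges, in units of `uu` -/
def exN : ℕ → ℕ
  | 0 => 200
  | 1 => 205
  | 2 => 400
  | 3 => 800
  | 4 => 1600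
  | 5 => 3200
  | 6 => 6400
  | 7 => 12400
  | 8 => 24800
  | _ => 0

/-- exponents of the prime ranges -/
noncomputable def ex (i : ℕ) : ℝ := exN i * uu

open Classical in
/-- the primes in `(x^{e_i}, x^{e_i + u/10}]` (empty for `i ≥ 9`) -/
noncomputable def PP (x : ℝ) (i : ℕ) : Finset ℕ :=
  if i < 9 then (range (⌊x⌋₊ + 1)).filter (fun p => p.Prime ∧ x ^ ex i < p ∧ (p : ℝ) ≤ x ^ (ex i + uu / 10)) else ∅

/-- `κ_i = ∑_{p ∈ P_i} 1/p` -/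
noncomputable def kap (P : ℕ → Finset ℕ) (i : ℕ) : ℝ := ∑ p ∈ P i, (1 / (p : ℝ))

/-- `ω_i(n) = #{p ∈ P_i : p ∣ n}` -/
noncomputable def om (P : ℕ → Finset ℕ) (i : ℕ) (n : ℤ) : ℝ := ((P i).filter (fun p : ℕ => (p : ℤ) ∣ n)).card

/-- `g_I(n) = ∏_{i ∈ I} (κ_i - ω_i(n))` -/
noncomputable def gI (P : ℕ → Finset ℕ) (I : Finset ℕ) (n : ℤ) : ℝ := ∏ i ∈ I, (kap P i - om P i n)

/-- the products `∏_{i ∈ I} p_i` with `p_i ∈ P_i` -/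
noncomputable def SI (P : ℕ → Finset ℕ) (I : Finset ℕ) : Finset ℕ :=
  (I.pi P).image (fun f => ∏ i ∈ I.attach, f i.1 i.2)

/-- `κ_I = ∏_{i ∈ I} κ_i` -/
noncomputable def kI (P : ℕ → Finset ℕ) (I : Finset ℕ) : ℝ := ∏ i ∈ I, kap P i

/-- a system of disjoint sets of primes greater than `z` -/
structure Sy (P : ℕ → Finset ℕ) (z : ℕ) : Prop where
  prime : ∀ i, ∀ p ∈ P i, p.Prime
  gt : ∀ i, ∀ p ∈ P i, z < p
  disj : ∀ i j, i ≠ j → Disjoint (P i) (P j)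

/-- bounds for the number of divisors up to `N`, and for `κ` -/
structure SyB (P : ℕ → Finset ℕ) (N Cd : ℕ) : Prop where
  one_le : 1 ≤ Cd
  div : ∀ I ⊆ range 9, ∀ n : ℤ, n ≠ 0 → |n| ≤ N → ((SI P I).filter (fun s : ℕ => (s : ℤ) ∣ n)).card ≤ Cd
  kap : ∀ i < 9, H69BG.kap P i ≤ Cd

/-! ## the triangular weight -/

/-- the triangular weight `2 (1 - |m - 2M|/(2M))₊`, supported in `0 < m < 4M`, at least `1` on `[M, 3M]` -/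
noncomputable def psi (M m : ℕ) : ℝ := 2 * max 0 (1 - |(m : ℝ) - 2 * M| / (2 * M))

/-- `∑_m psi(m) e(mθ)` -/
noncomputable def psiF (M : ℕ) (θ : ℝ) : ℂ := ∑ m ∈ range (4 * M), (psi M m : ℂ) * ee (m * θ)

/-- the nonzero integers `v` with `|v| ≤ V` -/
noncomputable def VV (V : ℕ) : Finset ℤ := (Icc (-(V : ℤ)) V).erase 0

/-! ## Kloosterman sums -/

/-- `e(a/k)` for `a : ZMod k` -/
noncomputable def eZ (k : ℕ) (a : ZMod k) : ℂ := ee ((a.val : ℝ) / k)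

/-- `S(a, h; k) = ∑_{ρ unit} e((a ρ⁻¹ + h ρ)/k)` -/
noncomputable def KS (k : ℕ) [NeZero k] (a h : ZMod k) : ℂ :=
  ∑ ρ : (ZMod k)ˣ, eZ k (a * ((ρ⁻¹ : (ZMod k)ˣ) : ZMod k) + h * (ρ : ZMod k))

/-- the fourth moment `∑_h |S(a, h; k)|⁴` -/
noncomputable def Phi4 (k : ℕ) [NeZero k] (a : ZMod k) : ℝ := ∑ h : ZMod k, ‖KS k a h‖ ^ 4

/-! ## the terms of the dispersion error -/

/-- the term with index `a = (w, w', v)`; moduli `q = u w`, `q' = u' w'`, `k' = k + r l` -/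
noncomputable def tm (M : ℕ) (t l : ℤ) (k u u' : ℕ) (a : ℕ × ℕ × ℤ) (r : ℕ) : ℂ :=
  if Nat.Coprime a.1 a.2.1 ∧ Nat.Coprime (a.1 * a.2.1) k ∧ Int.gcd (k + r * l) (u' * a.2.1) = 1 then
    (1 / ((r : ℂ) * u * a.1 * u' * a.2.1)) * psiF M ((a.2.2 : ℝ) / ((r : ℝ) * u * a.1 * u' * a.2.1)) *
      ee (-((t : ℝ) * a.2.2) / ((r : ℝ) * u * a.1 * u' * a.2.1 * k)) *
      eZ k ((t * a.2.2 : ℤ) * ((r * u * a.1 * u' * a.2.1 : ℕ) : ZMod k)⁻¹) *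
      eZ (u' * a.2.1) ((t * a.2.2 * l : ℤ) *
        (((u * a.1 * k : ℕ) : ZMod (u' * a.2.1)) * ((k + r * l : ℤ) : ZMod (u' * a.2.1)))⁻¹)
  else 0

/-- the index set `(w, w', v)` -/
noncomputable def AA (W1 W2 : Finset ℕ) (V1 : ℕ) : Finset (ℕ × ℕ × ℤ) := W1 ×ˢ W2 ×ˢ VV V1

/-- `ρ_v = min(1, (V/|v|)²)` -/
noncomputable def rhov (V : ℝ) (v : ℤ) : ℝ := min 1 ((V / |(v : ℝ)|) ^ 2)

/-! ## Ramanujan sums and the comparison functions -/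

/-- the Ramanujan sum `c_r(n) = ∑_{d ∣ (r, n)} d μ(r/d)` -/
noncomputable def cr (r : ℕ) (n : ℤ) : ℝ :=
  ∑ d ∈ r.divisors.filter (fun d : ℕ => (d : ℤ) ∣ n), (d : ℝ) * (ArithmeticFunction.moebius (r / d) : ℝ)

/-- `G_R(n) = ∑_{r ≤ R} (μ(r)/φ(r)) c_r(n)` -/
noncomputable def GG (R : ℕ) (n : ℤ) : ℝ :=
  ∑ r ∈ Icc 1 R, (ArithmeticFunction.moebius r : ℝ) / (Nat.totient r : ℝ) * cr r n

/-- `L_R = ∑_{q ≤ R} μ(q)²/φ(q)` -/
noncomputable def LL (R : ℕ) : ℝ := ∑ q ∈ Icc 1 R, (ArithmeticFunction.moebius q : ℝ) ^ 2 / (Nat.totient q : ℝ)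

/-- `y = ⌊x^{2u}⌋` -/
noncomputable def yy (x : ℝ) : ℕ := ⌊x ^ (2 * uu)⌋₊

/-- `g(n) = ∏_{i < 9} (κ_i - ω_i(n))` for the system `PP x` -/
noncomputable def g9 (x : ℝ) (n : ℤ) : ℝ := gI (PP x) (range 9) n

/-- `g2(n) = lam_y(n) g(n)` -/
noncomputable def g2 (x : ℝ) (n : ℤ) : ℝ := GG (yy x) n * g9 x n

/-- `κ* = ∏_{i < 9} κ_i` -/
noncomputable def kst (x : ℝ) : ℝ := kI (PP x) (range 9)

/-- `C_f(t) = ∑ f(n) W(log(n/x)) g2(n - t)` -/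
noncomputable def corr (W : ℝ → ℝ) (M x : ℝ) (f : ℕ → ℝ) (t : ℤ) : ℝ :=
  ∑ n ∈ Icc 1 (NN M x), W (Real.log (n / x)) * f n * g2 x (n - t)

/-- `∫ W(η) e^η dη` -/
noncomputable def Wm (W : ℝ → ℝ) : ℝ := ∫ η, W η * Real.exp η

end H69BG
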