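import Pool.Agent.H69.BG.Defs

/-!
# DGS: the diagonal of the second Cauchy inequality

`sum_rhov`: `∑_{0<|v|≤V1, w ∣ v} min(1, (V/|v|)²) ≤ 6 V/w` for all real `V > 0`, integers `w ≥ 1`: put `z = V/w`; `2 ∑_{j≥1} min(1, (z/j)²)`; if `z ≤ 1` it is
`≤ 2 z² π²/6 ≤ 4 z` (or use `∑ 1/j² ≤ 2`), if `z > 1` it is `≤ 2 (z + z² · 2/z) = 6 z` (`∑_{j>z} 1/j² ≤ 1/⌊z⌋ ≤ 2/z`).

`dgs`: `ρ_v ρ_v' ≤ ρ_v`, hence the sum is `≤ ∑_{a=(w1,w1',v1)} ρ_{v1} #{b=(w2,w2',v2) : v1 w2 w2' = v2 w1 w1', w2, w2' coprime}`.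
For given `a`, `(w2, w2')` determines `v2`. With `N1 = |W1|`, `N2 = |W2|` the number of `b` is at most
`2 + 2 N1 [w1 ∣ v1] + 2 N2 [w1' ∣ v1] + N1 N2 [w1 w1' ∣ v1]`, and `N1/w1, N2/w1' ≤ w1/w0`.
-/

open Finset

namespace H69BG

private theorem DGS_rho_nonneg (V : ℝ) (v : ℤ) : 0 ≤ rhov V v := le_min zero_le_one (sq_nonneg _)

private theorem DGS_rho_le_one (V : ℝ) (v : ℤ) : rhov V v ≤ 1 := min_le_left _ _

private theorem DGS_sum_min {z : ℝ} (hz : 0 < z) (N : ℕ) :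
    ∑ j ∈ Ioc 0 N, min (1 : ℝ) ((z / (j : ℝ)) ^ 2) ≤ 3 * z := by
  rcases le_or_gt z 1 with h | h
  · rcases Nat.eq_zero_or_pos N with hN | hN
    · subst hN; simp; exact hz.le
    have h1 : ∑ j ∈ Ioc 0 N, min (1 : ℝ) ((z / (j : ℝ)) ^ 2) ≤ z ^ 2 * ∑ j ∈ Ioc 0 N, ((j : ℝ) ^ 2)⁻¹ := by
      rw [Finset.mul_sum]
      refine sum_le_sum fun j _ => (min_le_right _ _).trans (le_of_eq ?_)
      rw [div_pow, div_eq_mul_inv]
    have h2 : ∑ j ∈ Ioc 0 N, ((j : ℝ) ^ 2)⁻¹ ≤ 2 := by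
      have h3 : Ioc 0 N = insert 1 (Ioc 1 N) := by
        ext j; simp only [mem_Ioc, mem_insert]; omega
      rw [h3, sum_insert (by simp)]
      have h4 := sum_Ioc_inv_sq_le_sub (α := ℝ) (k := 1) (n := N) one_ne_zero hN
      have h5 : (0 : ℝ) ≤ (N : ℝ)⁻¹ := by positivity
      norm_num at h4 ⊢
      linarith
    nlinarith [sq_nonneg z, mul_le_mul_of_nonneg_left h2 (sq_nonneg z)]
  · set n := ⌊z⌋₊ with hn
    have hn1 : 1 ≤ n := Nat.one_le_floor_iff z |>.2 h.le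
    have hnz : (n : ℝ) ≤ z := Nat.floor_le hz.le
    have hnz' : z < n + 1 := Nat.lt_floor_add_one z
    have hn1' : (1 : ℝ) ≤ n := by exact_mod_cast hn1
    have hsub : ∑ j ∈ Ioc 0 N, min (1 : ℝ) ((z / (j : ℝ)) ^ 2) ≤
        ∑ j ∈ Ioc 0 n, min (1 : ℝ) ((z / (j : ℝ)) ^ 2) + ∑ j ∈ Ioc n (max n N), min (1 : ℝ) ((z / (j : ℝ)) ^ 2) := by
      have hd : Disjoint (Ioc 0 n) (Ioc n (max n N)) := by
        rw [Finset.disjoint_left]; intro j h1 h2; simp only [mem_Ioc] at h1 h2; omega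
      rw [← sum_union hd]
      refine sum_le_sum_of_subset_of_nonneg ?_ fun j _ _ => le_min zero_le_one (sq_nonneg _)
      intro j hj
      simp only [mem_Ioc, mem_union] at hj ⊢
      omega
    have h1 : ∑ j ∈ Ioc 0 n, min (1 : ℝ) ((z / (j : ℝ)) ^ 2) ≤ n := by
      calc _ ≤ ∑ j ∈ Ioc 0 n, (1 : ℝ) := sum_le_sum fun j _ => min_le_left _ _
        _ = n := by simp
    have h2 : ∑ j ∈ Ioc n (max n N), min (1 : ℝ) ((z / (j : ℝ)) ^ 2) ≤ z ^ 2 * (n : ℝ)⁻¹ := by
      have h3 := sum_Ioc_inv_sq_le_sub (α := ℝ) (k := n) (n := max n N) (by omega) (le_max_left _ _)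
      have h4 : (0 : ℝ) ≤ ((max n N : ℕ) : ℝ)⁻¹ := by positivity
      calc ∑ j ∈ Ioc n (max n N), min (1 : ℝ) ((z / (j : ℝ)) ^ 2)
          ≤ z ^ 2 * ∑ j ∈ Ioc n (max n N), ((j : ℝ) ^ 2)⁻¹ := by
            rw [Finset.mul_sum]
            refine sum_le_sum fun j _ => (min_le_right _ _).trans (le_of_eq ?_)
            rw [div_pow, div_eq_mul_inv]
        _ ≤ z ^ 2 * (n : ℝ)⁻¹ := mul_le_mul_of_nonneg_left (by linarith) (sq_nonneg _)
    have h3 : z ^ 2 * (n : ℝ)⁻¹ ≤ 2 * z := by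
      rw [← div_eq_mul_inv, div_le_iff₀ (by linarith)]
      nlinarith
    linarith

theorem sum_rhov {V : ℝ} (hV : 0 < V) (V1 : ℕ) {w : ℕ} (hw : 1 ≤ w) :
    ∑ v ∈ (VV V1).filter (fun v : ℤ => (w : ℤ) ∣ v), rhov V v ≤ 6 * V / w := by
  have hw0 : (0 : ℝ) < w := by exact_mod_cast hw
  have hwz : (w : ℤ) ≠ 0 := by omega
  set T1 : Finset ℤ := (Ioc 0 V1).image (fun j : ℕ => (w : ℤ) * j) with hT1
  set T2 : Finset ℤ := (Ioc 0 V1).image (fun j : ℕ => -((w : ℤ) * j)) with hT2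
  have hsub : (VV V1).filter (fun v : ℤ => (w : ℤ) ∣ v) ⊆ T1 ∪ T2 := by
    intro v hv
    simp only [VV, mem_filter, mem_erase, mem_Icc] at hv
    obtain ⟨⟨hv0, hv1, hv2⟩, c, hc⟩ := hv
    simp only [hT1, hT2, mem_union, mem_image, mem_Ioc]
    have hc0 : c ≠ 0 := by rintro rfl; simp at hc; exact hv0 hc
    rcases lt_or_gt_of_ne hc0 with h | h
    · right
      refine ⟨c.natAbs, ⟨by omega, ?_⟩, ?_⟩
      · have : (c.natAbs : ℤ) = -c := by omega
        have h2 : (w : ℤ) * (-c) ≤ V1 := by rw [mul_neg, ← hc]; linarith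
        have h3 : -c ≤ (w : ℤ) * (-c) := by nlinarith [show (1 : ℤ) ≤ w by exact_mod_cast hw]
        omega
      · have : (c.natAbs : ℤ) = -c := by omega
        rw [this, hc]; ring
    · left
      refine ⟨c.natAbs, ⟨by omega, ?_⟩, ?_⟩
      · have : (c.natAbs : ℤ) = c := by omega
        have h2 : (w : ℤ) * c ≤ V1 := by rw [← hc]; linarith
        have h3 : c ≤ (w : ℤ) * c := by nlinarith [show (1 : ℤ) ≤ w by exact_mod_cast hw]
        omega
      · have : (c.natAbs : ℤ) = c := by omega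
        rw [this, hc]
  have hz : 0 < V / w := div_pos hV hw0
  have key : ∀ j : ℕ, (V / ((w : ℝ) * j)) ^ 2 = (V / w / (j : ℝ)) ^ 2 := fun j => by rw [div_div]
  have h1 : ∑ v ∈ T1, rhov V v ≤ 3 * (V / w) := by
    rw [hT1, sum_image]
    · refine le_trans (le_of_eq ?_) (DGS_sum_min hz V1)
      refine sum_congr rfl fun j _ => ?_
      rw [rhov]
      push_cast
      rw [abs_of_nonneg (by positivity), key]
    · intro a _ b _ hab
      have := mul_left_cancel₀ hwz hab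
      exact_mod_cast this
  have h2 : ∑ v ∈ T2, rhov V v ≤ 3 * (V / w) := by
    rw [hT2, sum_image]
    · refine le_trans (le_of_eq ?_) (DGS_sum_min hz V1)
      refine sum_congr rfl fun j _ => ?_
      rw [rhov]
      push_cast
      rw [abs_neg, abs_of_nonneg (by positivity), key]
    · intro a _ b _ hab
      have := mul_left_cancel₀ hwz (neg_injective hab)
      exact_mod_cast this
  calc ∑ v ∈ (VV V1).filter (fun v : ℤ => (w : ℤ) ∣ v), rhov V v
      ≤ ∑ v ∈ T1 ∪ T2, rhov V v :=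
        sum_le_sum_of_subset_of_nonneg hsub fun v _ _ => DGS_rho_nonneg V v
    _ ≤ ∑ v ∈ T1, rhov V v + ∑ v ∈ T2, rhov V v := by
        have h := sum_union_inter (s₁ := T1) (s₂ := T2) (f := fun v => rhov V v)
        have h0 : 0 ≤ ∑ v ∈ T1 ∩ T2, rhov V v := sum_nonneg fun v _ => DGS_rho_nonneg V v
        linarith
    _ ≤ 3 * (V / w) + 3 * (V / w) := add_le_add h1 h2
    _ = 6 * V / w := by ring

private theorem DGS_cnt {P0 W1 W2 : Finset ℕ} (hP : ∀ p ∈ P0, p.Prime) (h1 : W1 = P0 ∨ W1 = {1}) (h2 : W2 = P0 ∨ W2 = {1})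
    (V1 : ℕ) {w w' : ℕ} (hw : w ∈ W1) (hw' : w' ∈ W2) (hc : Nat.Coprime w w') (v : ℤ) :
    (((AA W1 W2 V1).filter (fun b => Nat.Coprime b.1 b.2.1 ∧ v * b.1 * b.2.1 = b.2.2 * w * w')).card : ℝ) ≤
      2 + 2 * W1.card * (if (w : ℤ) ∣ v then 1 else 0) + 2 * W2.card * (if (w' : ℤ) ∣ v then 1 else 0) +
        W1.card * W2.card * (if ((w * w' : ℕ) : ℤ) ∣ v then 1 else 0) := by
  have hW1 : ∀ x ∈ W1, x = 1 ∨ x.Prime := by
    intro x hx
    rcases h1 with h | h
    · right; exact hP x (h ▸ hx)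
    · left; rw [h] at hx; simpa using hx
  have hW2 : ∀ x ∈ W2, x = 1 ∨ x.Prime := by
    intro x hx
    rcases h2 with h | h
    · right; exact hP x (h ▸ hx)
    · left; rw [h] at hx; simpa using hx
  have hw0 : (w : ℤ) ≠ 0 := by
    rcases hW1 w hw with h | h
    · simp [h]
    · exact_mod_cast h.ne_zero
  have hw0' : (w' : ℤ) ≠ 0 := by
    rcases hW2 w' hw' with h | h
    · simp [h]
    · exact_mod_cast h.ne_zero
  set S : Finset (ℕ × ℕ) := (W1 ×ˢ W2).filter (fun x => Nat.Coprime x.1 x.2 ∧ (w : ℤ) ∣ v * x.1 * x.2 ∧ (w' : ℤ) ∣ v * x.1 * x.2)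
    with hS
  have hle : ((AA W1 W2 V1).filter (fun b => Nat.Coprime b.1 b.2.1 ∧ v * b.1 * b.2.1 = b.2.2 * w * w')).card ≤ S.card := by
    refine card_le_card_of_injOn (fun b => (b.1, b.2.1)) ?_ ?_
    · intro b hb
      simp only [AA, coe_filter, mem_product, Set.mem_ofPred_eq] at hb
      simp only [hS, coe_filter, mem_product, Set.mem_ofPred_eq]
      refine ⟨⟨hb.1.1, hb.1.2.1⟩, hb.2.1, ?_, ?_⟩
      · rw [hb.2.2]; exact ⟨b.2.2 * w', by ring⟩
      · rw [hb.2.2]; exact ⟨b.2.2 * w, by ring⟩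
    · intro b hb c hc' hbc
      simp only [AA, coe_filter, mem_product, Set.mem_ofPred_eq] at hb hc'
      simp only [Prod.mk.injEq] at hbc
      obtain ⟨e1, e2⟩ := hbc
      have e3 : b.2.2 * w * w' = c.2.2 * w * w' := by rw [← hb.2.2, ← hc'.2.2, e1, e2]
      have e4 : b.2.2 = c.2.2 := mul_right_cancel₀ hw0 (mul_right_cancel₀ hw0' e3)
      exact Prod.ext e1 (Prod.ext e2 e4)
  have hN1 : (0 : ℝ) ≤ W1.card := by positivity
  have hN2 : (0 : ℝ) ≤ W2.card := by positivity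
  refine (Nat.cast_le.2 hle).trans ?_
  -- divisibility of a product by a prime
  have hpd : ∀ q : ℕ, q.Prime → ∀ x y : ℕ, (x = 1 ∨ x.Prime) → (y = 1 ∨ y.Prime) → ¬ (q : ℤ) ∣ v → (q : ℤ) ∣ v * x * y →
      x = q ∨ y = q := by
    intro q hq x y hx hy hv hd
    have hqp : Prime (q : ℤ) := Nat.prime_iff_prime_int.1 hq
    rcases hqp.dvd_or_dvd hd with h | h
    · rcases hqp.dvd_or_dvd h with h | h
      · exact absurd h hv
      · left
        have h' : q ∣ x := by exact_mod_cast h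
        rcases hx with hx | hx
        · rw [hx] at h'; exact absurd (Nat.dvd_one.1 h') hq.one_lt.ne'
        · exact ((Nat.prime_dvd_prime_iff_eq hq hx).1 h').symm
    · right
      have h' : q ∣ y := by exact_mod_cast h
      rcases hy with hy | hy
      · rw [hy] at h'; exact absurd (Nat.dvd_one.1 h') hq.one_lt.ne'
      · exact ((Nat.prime_dvd_prime_iff_eq hq hy).1 h').symm
  have hp1 : ¬ (w : ℤ) ∣ v → w.Prime ∧ W1 = P0 := by
    intro h
    rcases h1 with h1 | h1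
    · exact ⟨hP w (h1 ▸ hw), h1⟩
    · rw [h1] at hw
      simp only [mem_singleton] at hw
      rw [hw] at h; simp at h
  have hp2 : ¬ (w' : ℤ) ∣ v → w'.Prime ∧ W2 = P0 := by
    intro h
    rcases h2 with h2 | h2
    · exact ⟨hP w' (h2 ▸ hw'), h2⟩
    · rw [h2] at hw'
      simp only [mem_singleton] at hw'
      rw [hw'] at h; simp at h
  by_cases hv : (w : ℤ) ∣ v <;> by_cases hv' : (w' : ℤ) ∣ v
  · have hvv : ((w * w' : ℕ) : ℤ) ∣ v := by
      push_cast
      exact IsCoprime.mul_dvd (Nat.isCoprime_iff_coprime.2 hc) hv hv'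
    have h3 : (S.card : ℝ) ≤ W1.card * W2.card := by
      rw [← Nat.cast_mul, ← card_product]
      exact Nat.cast_le.2 (card_le_card (filter_subset _ _))
    simp only [hv, hv', hvv, if_true]
    linarith
  · obtain ⟨hq, hW⟩ := hp2 hv'
    have h3 : S ⊆ W1 ×ˢ {w'} ∪ (if W1 = P0 then {w'} ×ˢ W2 else ∅) := by
      intro x hx
      simp only [hS, mem_filter, mem_product] at hx
      simp only [mem_union, mem_product, mem_singleton]
      rcases hpd w' hq x.1 x.2 (hW1 _ hx.1.1) (hW2 _ hx.1.2) hv' hx.2.2.2 with h | h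
      · right
        have hWP : W1 = P0 := by
          rcases h1 with h1 | h1
          · exact h1
          · have := hx.1.1
            rw [h1, mem_singleton, h] at this
            rw [this] at hv'; simp at hv'
        rw [if_pos hWP]
        simp only [mem_product, mem_singleton]
        exact ⟨h, hx.1.2⟩
      · left; exact ⟨hx.1.1, h⟩
    have h4 : (S.card : ℝ) ≤ 2 * W1.card := by
      have h5 : S.card ≤ W1.card + W1.card := by
        refine (card_le_card h3).trans ((card_union_le _ _).trans ?_)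
        refine add_le_add (by simp) ?_
        split_ifs with h
        · rw [card_product, card_singleton, one_mul, hW, ← h]
        · simp
      have h6 : (S.card : ℝ) ≤ (W1.card + W1.card : ℕ) := Nat.cast_le.2 h5
      push_cast at h6
      linarith
    have h7 : (0 : ℝ) ≤ W1.card * W2.card * (if ((w * w' : ℕ) : ℤ) ∣ v then 1 else 0) := by positivity
    simp only [hv, hv', if_true, if_false]
    linarith
  · obtain ⟨hq, hW⟩ := hp1 hv
    have h3 : S ⊆ {w} ×ˢ W2 ∪ (if W2 = P0 then W1 ×ˢ {w} else ∅) := by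
      intro x hx
      simp only [hS, mem_filter, mem_product] at hx
      simp only [mem_union, mem_product, mem_singleton]
      rcases hpd w hq x.1 x.2 (hW1 _ hx.1.1) (hW2 _ hx.1.2) hv hx.2.2.1 with h | h
      · left; exact ⟨h, hx.1.2⟩
      · right
        have hWP : W2 = P0 := by
          rcases h2 with h2 | h2
          · exact h2
          · have := hx.1.2
            rw [h2, mem_singleton, h] at this
            rw [this] at hv; simp at hv
        rw [if_pos hWP]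
        simp only [mem_product, mem_singleton]
        exact ⟨hx.1.1, h⟩
    have h4 : (S.card : ℝ) ≤ 2 * W2.card := by
      have h5 : S.card ≤ W2.card + W2.card := by
        refine (card_le_card h3).trans ((card_union_le _ _).trans ?_)
        refine add_le_add (by simp) ?_
        split_ifs with h
        · rw [card_product, card_singleton, mul_one, hW, ← h]
        · simp
      have h6 : (S.card : ℝ) ≤ (W2.card + W2.card : ℕ) := Nat.cast_le.2 h5
      push_cast at h6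
      linarith
    have h7 : (0 : ℝ) ≤ W1.card * W2.card * (if ((w * w' : ℕ) : ℤ) ∣ v then 1 else 0) := by positivity
    simp only [hv, hv', if_true, if_false]
    linarith
  · obtain ⟨hq, hW⟩ := hp1 hv
    obtain ⟨hq', hW'⟩ := hp2 hv'
    have hne : w ≠ w' := by
      rintro rfl
      rw [Nat.coprime_self] at hc
      exact hq.one_lt.ne' hc
    have h3 : S ⊆ {(w, w'), (w', w)} := by
      intro x hx
      simp only [hS, mem_filter, mem_product] at hx
      have ha := hpd w hq x.1 x.2 (hW1 _ hx.1.1) (hW2 _ hx.1.2) hv hx.2.2.1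
      have hb := hpd w' hq' x.1 x.2 (hW1 _ hx.1.1) (hW2 _ hx.1.2) hv' hx.2.2.2
      simp only [mem_insert, mem_singleton]
      rcases ha with ha | ha <;> rcases hb with hb | hb
      · exact absurd (ha.symm.trans hb) hne
      · left; exact Prod.ext ha hb
      · right; exact Prod.ext hb ha
      · exact absurd (ha.symm.trans hb) hne
    have h4 : (S.card : ℝ) ≤ 2 := by
      have h5 : S.card ≤ 2 := (card_le_card h3).trans card_le_two
      exact_mod_cast h5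
    have h7 : (0 : ℝ) ≤ W1.card * W2.card * (if ((w * w' : ℕ) : ℤ) ∣ v then 1 else 0) := by positivity
    simp only [hv, hv', if_false]
    linarith

private theorem DGS_card {P0 W : Finset ℕ} {w0 w1 : ℝ} (hw0 : 1 ≤ w0) (hw : w0 ≤ w1)
    (hP : ∀ p ∈ P0, p.Prime ∧ w0 ≤ p ∧ (p : ℝ) ≤ w1) (h : W = P0 ∨ W = {1}) {w : ℕ} (hwW : w ∈ W) :
    1 ≤ w ∧ (W.card : ℝ) / w ≤ w1 / w0 := by
  rcases h with rfl | rfl
  · have h1 : W ⊆ Ioc 0 ⌊w1⌋₊ := by
      intro p hp
      rw [mem_Ioc]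
      exact ⟨(hP p hp).1.pos, Nat.le_floor (hP p hp).2.2⟩
    have h2 : (W.card : ℝ) ≤ w1 := by
      have h3 : W.card ≤ ⌊w1⌋₊ := by simpa using card_le_card h1
      exact (Nat.cast_le.2 h3).trans (Nat.floor_le (by linarith))
    exact ⟨(hP w hwW).1.pos, div_le_div₀ (by linarith) h2 (by linarith) (hP w hwW).2.1⟩
  · simp only [mem_singleton] at hwW
    subst hwW
    refine ⟨le_refl _, ?_⟩
    simp only [card_singleton, Nat.cast_one, div_one]
    rwa [one_le_div (by linarith)]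

theorem dgs {P0 W1 W2 : Finset ℕ} {w0 w1 : ℝ} (hw0 : 1 ≤ w0) (hw : w0 ≤ w1)
    (hP : ∀ p ∈ P0, p.Prime ∧ w0 ≤ p ∧ (p : ℝ) ≤ w1) (h1 : W1 = P0 ∨ W1 = {1}) (h2 : W2 = P0 ∨ W2 = {1})
    {V : ℝ} (hV : 0 < V) (V1 : ℕ) :
    ∑ a ∈ (AA W1 W2 V1).filter (fun a => Nat.Coprime a.1 a.2.1),
      ∑ b ∈ (AA W1 W2 V1).filter (fun b => Nat.Coprime b.1 b.2.1 ∧ a.2.2 * b.1 * b.2.1 = b.2.2 * a.1 * a.2.1),
        rhov V a.2.2 * rhov V b.2.2 ≤ 66 * V * (W1.card : ℝ) * W2.card * (w1 / w0) ^ 2 := by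
  have hP' : ∀ p ∈ P0, p.Prime := fun p hp => (hP p hp).1
  set R := w1 / w0 with hR
  have hR1 : 1 ≤ R := by rw [hR, one_le_div (by linarith)]; exact hw
  set N1 : ℝ := (W1.card : ℝ) with hN1
  set N2 : ℝ := (W2.card : ℝ) with hN2
  have hN1' : 0 ≤ N1 := by positivity
  have hN2' : 0 ≤ N2 := by positivity
  -- the majorant
  set F : ℕ × ℕ × ℤ → ℝ := fun a => rhov V a.2.2 * (2 + 2 * N1 * (if (a.1 : ℤ) ∣ a.2.2 then 1 else 0) +
    2 * N2 * (if (a.2.1 : ℤ) ∣ a.2.2 then 1 else 0) + N1 * N2 * (if ((a.1 * a.2.1 : ℕ) : ℤ) ∣ a.2.2 then 1 else 0)) with hF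
  have hF0 : ∀ a, 0 ≤ F a := by
    intro a
    refine mul_nonneg (DGS_rho_nonneg _ _) ?_
    have e1 : (0 : ℝ) ≤ (if (a.1 : ℤ) ∣ a.2.2 then 1 else 0) := by positivity
    have e2 : (0 : ℝ) ≤ (if (a.2.1 : ℤ) ∣ a.2.2 then 1 else 0) := by positivity
    have e3 : (0 : ℝ) ≤ (if ((a.1 * a.2.1 : ℕ) : ℤ) ∣ a.2.2 then 1 else 0) := by positivity
    positivity
  have step1 : ∑ a ∈ (AA W1 W2 V1).filter (fun a => Nat.Coprime a.1 a.2.1),
      ∑ b ∈ (AA W1 W2 V1).filter (fun b => Nat.Coprime b.1 b.2.1 ∧ a.2.2 * b.1 * b.2.1 = b.2.2 * a.1 * a.2.1),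
        rhov V a.2.2 * rhov V b.2.2 ≤ ∑ a ∈ AA W1 W2 V1, F a := by
    refine (sum_le_sum fun a ha => ?_).trans (sum_le_sum_of_subset_of_nonneg (filter_subset _ _) fun a _ _ => hF0 a)
    rw [mem_filter, AA, mem_product, mem_product] at ha
    have hcnt := DGS_cnt hP' h1 h2 V1 ha.1.1 ha.1.2.1 ha.2 a.2.2
    calc ∑ b ∈ (AA W1 W2 V1).filter (fun b => Nat.Coprime b.1 b.2.1 ∧ a.2.2 * b.1 * b.2.1 = b.2.2 * a.1 * a.2.1),
          rhov V a.2.2 * rhov V b.2.2
        ≤ ∑ b ∈ (AA W1 W2 V1).filter (fun b => Nat.Coprime b.1 b.2.1 ∧ a.2.2 * b.1 * b.2.1 = b.2.2 * a.1 * a.2.1),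
          rhov V a.2.2 := by
          refine sum_le_sum fun b _ => ?_
          exact mul_le_of_le_one_right (DGS_rho_nonneg _ _) (DGS_rho_le_one _ _)
      _ = rhov V a.2.2 * ((AA W1 W2 V1).filter (fun b => Nat.Coprime b.1 b.2.1 ∧
            a.2.2 * b.1 * b.2.1 = b.2.2 * a.1 * a.2.1)).card := by
          rw [sum_const, nsmul_eq_mul, mul_comm]
      _ ≤ F a := mul_le_mul_of_nonneg_left hcnt (DGS_rho_nonneg _ _)
  refine step1.trans ?_
  have step2 : ∀ w ∈ W1, ∀ w' ∈ W2, ∑ v ∈ VV V1, F (w, w', v) ≤ 42 * V * R ^ 2 := by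
    intro w hww w' hww'
    obtain ⟨g1, g2⟩ := DGS_card hw0 hw hP h1 hww
    obtain ⟨g1', g2'⟩ := DGS_card hw0 hw hP h2 hww'
    have hwp : (0 : ℝ) < w := by exact_mod_cast g1
    have hwp' : (0 : ℝ) < w' := by exact_mod_cast g1'
    have s1 : ∑ v ∈ VV V1, rhov V v ≤ 6 * V := by
      have := sum_rhov hV V1 (le_refl 1)
      simpa using this
    have s2 := sum_rhov hV V1 g1
    have s3 := sum_rhov hV V1 g1'
    have s4 := sum_rhov hV V1 (w := w * w') (Nat.mul_pos g1 g1')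
    have expand : ∑ v ∈ VV V1, F (w, w', v) = 2 * ∑ v ∈ VV V1, rhov V v +
        2 * N1 * ∑ v ∈ (VV V1).filter (fun v : ℤ => (w : ℤ) ∣ v), rhov V v +
        2 * N2 * ∑ v ∈ (VV V1).filter (fun v : ℤ => (w' : ℤ) ∣ v), rhov V v +
        N1 * N2 * ∑ v ∈ (VV V1).filter (fun v : ℤ => ((w * w' : ℕ) : ℤ) ∣ v), rhov V v := by
      rw [sum_filter, sum_filter, sum_filter, mul_sum, mul_sum, mul_sum, mul_sum, ← sum_add_distrib, ← sum_add_distrib,
        ← sum_add_distrib]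
      refine sum_congr rfl fun v _ => ?_
      simp only [hF]
      split_ifs <;> ring
    rw [expand]
    have t1 : 2 * N1 * ∑ v ∈ (VV V1).filter (fun v : ℤ => (w : ℤ) ∣ v), rhov V v ≤ 12 * V * R := by
      calc _ ≤ 2 * N1 * (6 * V / w) := mul_le_mul_of_nonneg_left s2 (by positivity)
        _ = 12 * V * (N1 / w) := by ring
        _ ≤ 12 * V * R := mul_le_mul_of_nonneg_left g2 (by positivity)
    have t2 : 2 * N2 * ∑ v ∈ (VV V1).filter (fun v : ℤ => (w' : ℤ) ∣ v), rhov V v ≤ 12 * V * R := by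
      calc _ ≤ 2 * N2 * (6 * V / w') := mul_le_mul_of_nonneg_left s3 (by positivity)
        _ = 12 * V * (N2 / w') := by ring
        _ ≤ 12 * V * R := mul_le_mul_of_nonneg_left g2' (by positivity)
    have t3 : N1 * N2 * ∑ v ∈ (VV V1).filter (fun v : ℤ => ((w * w' : ℕ) : ℤ) ∣ v), rhov V v ≤ 6 * V * R ^ 2 := by
      calc _ ≤ N1 * N2 * (6 * V / (w * w' : ℕ)) := mul_le_mul_of_nonneg_left s4 (by positivity)
        _ = 6 * V * ((N1 / w) * (N2 / w')) := by
          push_cast; field_simp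
        _ ≤ 6 * V * (R * R) := mul_le_mul_of_nonneg_left (mul_le_mul g2 g2' (by positivity) (by positivity)) (by positivity)
        _ = 6 * V * R ^ 2 := by ring
    have t4 : V ≤ V * R ^ 2 := le_mul_of_one_le_right hV.le (one_le_pow₀ hR1)
    have t5 : V * R ≤ V * R ^ 2 := mul_le_mul_of_nonneg_left (le_self_pow₀ hR1 two_ne_zero) hV.le
    nlinarith
  calc ∑ a ∈ AA W1 W2 V1, F a = ∑ w ∈ W1, ∑ w' ∈ W2, ∑ v ∈ VV V1, F (w, w', v) := by
        rw [AA, sum_product]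
        refine sum_congr rfl fun w _ => ?_
        rw [sum_product]
    _ ≤ ∑ w ∈ W1, ∑ w' ∈ W2, 42 * V * R ^ 2 := sum_le_sum fun w hw1 => sum_le_sum fun w' hw1' => step2 w hw1 w' hw1'
    _ = 42 * V * N1 * N2 * R ^ 2 := by
        simp only [sum_const, nsmul_eq_mul]; ring
    _ ≤ 66 * V * N1 * N2 * R ^ 2 := by
        have : 0 ≤ V * N1 * N2 * R ^ 2 := by positivity
        nlinarith

end H69BG
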