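import Pool.Agent.H69.BG.Ez

/-!
# PHA: the phase identity

`C = r q q'`, `k' = k + r l`, `μ k ≡ t mod r q`, `μ k' ≡ t mod q'`. Claim:
`-vμ/C ≡ t v (rqq')⁻¹/k + t v l (q k k')⁻¹/q' - t v/(C k)  mod 1`.
Proof: take integers `a1`, `a2` with `a1 r q q' ≡ 1 mod k`, `a2 q k k' ≡ 1 mod q'` (they represent the inverses in `ZMod k`,
`ZMod q'`; `eZ_int`). Multiply the difference of the two sides by `C k = r q q' k`: one needs the integer
`X = -v μ k - t v a1 r q q' - t v l a2 r q k + t v` to be divisible by `r q q' k`. As `r q`, `q'`, `k` are pairwise coprime, check: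
* mod `r q`: `X ≡ -v μ k + t v ≡ 0`;
* mod `k`: `X ≡ -t v a1 r q q' + t v ≡ 0`;
* mod `q'`: `X ≡ v (t - t l a2 r q k - μ k)`; multiply by the unit `k'`: `t k' - t l r (a2 q k k') - μ k' k ≡ t k' - t l r - t k = 0`.
-/

open Finset H69LB

namespace H69BG

theorem phase {r q q' k : ℕ} {k' l t v μ : ℤ} (hr : 1 ≤ r) (hq : 1 ≤ q) (hq' : 1 ≤ q') (hk : 1 ≤ k)
    (h1 : Nat.Coprime (r * q) q') (h2 : Nat.Coprime (r * q * q') k) (hk' : k' = k + r * l)
    (h3 : Int.gcd k' q' = 1) (h4 : ((r * q : ℕ) : ℤ) ∣ μ * k - t) (h5 : (q' : ℤ) ∣ μ * k' - t) :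
    ee (-((v : ℝ) * μ / ((r * q * q' : ℕ) : ℝ))) =
      eZ k ((t * v : ℤ) * ((r * q * q' : ℕ) : ZMod k)⁻¹) *
        eZ q' ((t * v * l : ℤ) * (((q * k : ℕ) : ZMod q') * (k' : ZMod q'))⁻¹) *
        ee (-((t : ℝ) * v) / ((r : ℝ) * q * q' * k)) := by
  -- representatives of the inverses
  obtain ⟨a1, ha1⟩ := ZMod.intCast_surjective ((((r * q * q' : ℕ) : ZMod k))⁻¹)
  obtain ⟨a2, ha2⟩ := ZMod.intCast_surjective ((((q * k : ℕ) : ZMod q') * (k' : ZMod q'))⁻¹)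
  have hd1 : (k : ℤ) ∣ a1 * (r * q * q') - 1 := by
    rw [← ZMod.intCast_zmod_eq_zero_iff_dvd]
    have h6 := ZMod.coe_mul_inv_eq_one (r * q * q') h2
    push_cast at h6 ha1 ⊢
    rw [ha1, mul_comm, h6, sub_self]
  have hd2 : (q' : ℤ) ∣ a2 * (q * k * k') - 1 := by
    rw [← ZMod.intCast_zmod_eq_zero_iff_dvd]
    have hu1 : IsUnit ((q * k : ℕ) : ZMod q') := by
      rw [ZMod.isUnit_iff_coprime]
      refine Nat.Coprime.mul_left ?_ ?_
      · exact Nat.Coprime.coprime_mul_left h1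
      · exact (Nat.Coprime.coprime_mul_left h2).symm
    have hu2 : IsUnit (k' : ZMod q') := by
      rw [ZMod.coe_int_isUnit_iff_isCoprime]
      exact (Int.isCoprime_iff_gcd_eq_one.2 h3).symm
    have h6 := ZMod.mul_inv_of_unit _ (hu1.mul hu2)
    push_cast at h6 ha2 ⊢
    rw [ha2, mul_comm, h6, sub_self]
  have he1 : eZ k ((t * v : ℤ) * ((r * q * q' : ℕ) : ZMod k)⁻¹) = ee (((t * v * a1 : ℤ) : ℝ) / k) := by
    rw [← eZ_int hk, ← ha1]
    push_cast
    rfl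
  have he2 : eZ q' ((t * v * l : ℤ) * (((q * k : ℕ) : ZMod q') * (k' : ZMod q'))⁻¹) =
      ee (((t * v * l * a2 : ℤ) : ℝ) / q') := by
    rw [← eZ_int hq', ← ha2]
    push_cast
    rfl
  -- the integer
  set N : ℤ := t * v * a1 * (r * q * q') + t * v * l * a2 * (r * q * k) - t * v + v * μ * k with hN
  have hN1 : ((r * q : ℕ) : ℤ) ∣ N := by
    obtain ⟨c, hc⟩ := h4
    refine ⟨t * v * a1 * q' + t * v * l * a2 * k + v * c, ?_⟩
    have : v * (μ * k - t) = v * (((r * q : ℕ) : ℤ) * c) := by rw [hc]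
    push_cast at this ⊢
    rw [hN]
    linear_combination this
  have hN2 : (k : ℤ) ∣ N := by
    obtain ⟨c, hc⟩ := hd1
    refine ⟨t * v * c + t * v * l * a2 * (r * q) + v * μ, ?_⟩
    rw [hN]
    linear_combination t * v * hc
  have hN3 : (q' : ℤ) ∣ N := by
    have h6 : (q' : ℤ) ∣ N * k' := by
      obtain ⟨c, hc⟩ := hd2
      obtain ⟨d, hd⟩ := h5
      refine ⟨t * v * a1 * (r * q) * k' + t * v * l * r * c + v * k * d, ?_⟩
      rw [hN]
      linear_combination t * v * l * r * hc + v * k * hd - t * v * hk'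
    have h7 : IsCoprime (q' : ℤ) k' := (Int.isCoprime_iff_gcd_eq_one.2 h3).symm
    exact h7.dvd_of_dvd_mul_right h6
  have hN4 : ((r * q * q' * k : ℕ) : ℤ) ∣ N := by
    have c1 : IsCoprime (((r * q : ℕ) : ℤ)) (q' : ℤ) := Nat.isCoprime_iff_coprime.2 h1
    have c2 : IsCoprime (((r * q * q' : ℕ) : ℤ)) (k : ℤ) := Nat.isCoprime_iff_coprime.2 h2
    have h6 : ((r * q * q' : ℕ) : ℤ) ∣ N := by
      have := c1.mul_dvd hN1 hN3
      push_cast at this ⊢
      exact this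
    have := c2.mul_dvd h6 hN2
    push_cast at this ⊢
    exact this
  obtain ⟨m, hm⟩ := hN4
  rw [he1, he2, ← ee_add, ← ee_add]
  have hr0 : (r : ℝ) ≠ 0 := by
    have : (1 : ℝ) ≤ r := by exact_mod_cast hr
    linarith
  have hq0 : (q : ℝ) ≠ 0 := by
    have : (1 : ℝ) ≤ q := by exact_mod_cast hq
    linarith
  have hq'0 : (q' : ℝ) ≠ 0 := by
    have : (1 : ℝ) ≤ q' := by exact_mod_cast hq'
    linarith
  have hk0 : (k : ℝ) ≠ 0 := by
    have : (1 : ℝ) ≤ k := by exact_mod_cast hk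
    linarith
  have hmR : ((t : ℝ) * v * a1 * (r * q * q') + t * v * l * a2 * (r * q * k) - t * v + v * μ * k) =
      (r * q * q' * k) * m := by
    have : ((N : ℤ) : ℝ) = (((r * q * q' * k : ℕ) : ℤ) * m : ℤ) := by rw [hm]
    rw [hN] at this
    push_cast at this
    linarith
  have key : ((t * v * a1 : ℤ) : ℝ) / k + ((t * v * l * a2 : ℤ) : ℝ) / q' + -((t : ℝ) * v) / ((r : ℝ) * q * q' * k) =
      -((v : ℝ) * μ / ((r * q * q' : ℕ) : ℝ)) + ((m : ℤ) : ℝ) := by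
    push_cast
    field_simp
    linear_combination hmR
  rw [key, ee_add, ee_int, mul_one]

end H69BG
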