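import Pool.Agent.H69.BG.Ker2
import Pool.Agent.H69.BG.Pha

/-!
# DLT: the number of solutions for a good tuple

`C = r q q'`, `k' ≡ k mod r`, `k' = k + r l`; `r, q, q'` pairwise coprime; `k` coprime to `r q q'`, `k'` coprime to `q'` (and then to `r`). The conditions
`r q ∣ m k - t`, `r q' ∣ m k' - t` say `m ≡ μ mod C` for one class `μ`: mod `r q`: `m ≡ t k⁻¹`; mod `q'`: `m ≡ t k'⁻¹`; the condition mod `r` of the
second is the same as that of the first since `k ≡ k' mod r`. (Chinese remainder theorem for the coprime moduli `r q`, `q'`.) Then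
`psi_class_triv`, resp. `psi_class_trunc` and `phase`; `tm` with `u = q`, `w = 1`... here the phases are written with `q`, `q'` directly.
-/

open Finset H69LB

namespace H69BG

/-- the number of solutions `m`, weighted with `psi`, of `a ∣ m k - t`, `b ∣ m k' - t` -/
noncomputable def NN2 (M : ℕ) (t : ℤ) (a b k k' : ℕ) : ℝ :=
  ∑ m ∈ (range (4 * M)).filter (fun m : ℕ => (a : ℤ) ∣ m * k - t ∧ (b : ℤ) ∣ m * k' - t), psi M m

/-- one class -/
theorem exists_class {r q q' k k' : ℕ} {t : ℤ} (hr : 1 ≤ r) (hq : 1 ≤ q) (hq' : 1 ≤ q')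
    (h1 : Nat.Coprime r q) (h2 : Nat.Coprime (r * q) q') (h3 : Nat.Coprime (r * q) k) (h4 : Nat.Coprime q' k')
    (hkk : k' ≡ k [MOD r]) :
    ∃ μ : ℤ, ((r * q : ℕ) : ℤ) ∣ μ * k - t ∧ (q' : ℤ) ∣ μ * k' - t ∧ ∀ m : ℤ,
      (((r * q : ℕ) : ℤ) ∣ m * k - t ∧ ((r * q' : ℕ) : ℤ) ∣ m * k' - t ↔ ((r * q * q' : ℕ) : ℤ) ∣ m - μ) := by
  have c1 : IsCoprime ((r * q : ℕ) : ℤ) (k : ℤ) := Nat.isCoprime_iff_coprime.2 h3
  have c2 : IsCoprime (q' : ℤ) (k' : ℤ) := Nat.isCoprime_iff_coprime.2 h4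
  have c3 : IsCoprime ((r * q : ℕ) : ℤ) (q' : ℤ) := Nat.isCoprime_iff_coprime.2 h2
  have c4 : IsCoprime (r : ℤ) (q' : ℤ) :=
    Nat.isCoprime_iff_coprime.2 (Nat.Coprime.coprime_dvd_left (Dvd.intro _ rfl) h2)
  have hkr : (r : ℤ) ∣ (k' : ℤ) - k := (Int.natCast_modEq_iff.2 hkk).symm.dvd
  obtain ⟨a₁, b₁, e₁⟩ := c1
  obtain ⟨a₂, b₂, e₂⟩ := c2
  obtain ⟨a, b, e⟩ := c3
  -- `t b₁` solves the first congruence, `t b₂` the second
  have f1 : ((r * q : ℕ) : ℤ) ∣ (t * b₁) * k - t := ⟨-(t * a₁), by linear_combination t * e₁⟩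
  have f2 : (q' : ℤ) ∣ (t * b₂) * k' - t := ⟨-(t * a₂), by linear_combination t * e₂⟩
  refine ⟨(t * b₁) * (b * q') + (t * b₂) * (a * ((r * q : ℕ) : ℤ)), ?_, ?_, ?_⟩
  · obtain ⟨z, hz⟩ := f1
    refine ⟨z + (t * b₂ * a - t * b₁ * a) * k, ?_⟩
    linear_combination hz + (t * b₁ * k) * e
  · obtain ⟨z, hz⟩ := f2
    refine ⟨z + (t * b₁ * b - t * b₂ * b) * k', ?_⟩
    linear_combination hz + (t * b₂ * k') * e
  · set μ : ℤ := (t * b₁) * (b * q') + (t * b₂) * (a * ((r * q : ℕ) : ℤ)) with hμ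
    have g1 : ((r * q : ℕ) : ℤ) ∣ μ * k - t := by
      obtain ⟨z, hz⟩ := f1
      refine ⟨z + (t * b₂ * a - t * b₁ * a) * k, ?_⟩
      rw [hμ]
      linear_combination hz + (t * b₁ * k) * e
    have g2 : (q' : ℤ) ∣ μ * k' - t := by
      obtain ⟨z, hz⟩ := f2
      refine ⟨z + (t * b₁ * b - t * b₂ * b) * k', ?_⟩
      rw [hμ]
      linear_combination hz + (t * b₂ * k') * e
    intro m
    constructor
    · rintro ⟨d1, d2⟩
      have d3 : ((r * q : ℕ) : ℤ) ∣ (m - μ) * k := by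
        have := dvd_sub d1 g1
        have h5 : m * k - t - (μ * k - t) = (m - μ) * k := by ring
        rwa [h5] at this
      have d4 : ((r * q : ℕ) : ℤ) ∣ m - μ :=
        (Nat.isCoprime_iff_coprime.2 h3).dvd_of_dvd_mul_right d3
      have d5 : (q' : ℤ) ∣ m * k' - t := by
        refine dvd_trans ?_ d2
        push_cast
        exact Dvd.intro_left _ rfl
      have d6 : (q' : ℤ) ∣ (m - μ) * k' := by
        have := dvd_sub d5 g2
        have h5 : m * k' - t - (μ * k' - t) = (m - μ) * k' := by ring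
        rwa [h5] at this
      have d7 : (q' : ℤ) ∣ m - μ := (Nat.isCoprime_iff_coprime.2 h4).dvd_of_dvd_mul_right d6
      have d8 := (Nat.isCoprime_iff_coprime.2 h2).mul_dvd d4 d7
      have h6 : ((r * q * q' : ℕ) : ℤ) = ((r * q : ℕ) : ℤ) * (q' : ℤ) := by push_cast; ring
      rw [h6]
      exact d8
    · intro d
      have d1 : ((r * q : ℕ) : ℤ) ∣ m - μ := by
        refine dvd_trans ?_ d
        have h6 : ((r * q * q' : ℕ) : ℤ) = ((r * q : ℕ) : ℤ) * (q' : ℤ) := by push_cast; ring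
        rw [h6]
        exact Dvd.intro _ rfl
      have d2 : (q' : ℤ) ∣ m - μ := by
        refine dvd_trans ?_ d
        have h6 : ((r * q * q' : ℕ) : ℤ) = ((r * q : ℕ) : ℤ) * (q' : ℤ) := by push_cast; ring
        rw [h6]
        exact Dvd.intro_left _ rfl
      have d3 : ((r * q : ℕ) : ℤ) ∣ m * k - t := by
        have h5 : m * k - t = (m - μ) * k + (μ * k - t) := by ring
        rw [h5]
        exact dvd_add (Dvd.dvd.mul_right d1 _) g1
      have d4 : (q' : ℤ) ∣ m * k' - t := by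
        have h5 : m * k' - t = (m - μ) * k' + (μ * k' - t) := by ring
        rw [h5]
        exact dvd_add (Dvd.dvd.mul_right d2 _) g2
      have d5 : (r : ℤ) ∣ m * k' - t := by
        have h5 : m * k' - t = m * (k' - k) + (m * k - t) := by ring
        rw [h5]
        refine dvd_add (Dvd.dvd.mul_left hkr _) (dvd_trans ?_ d3)
        push_cast
        exact Dvd.intro _ rfl
      refine ⟨d3, ?_⟩
      have h6 : ((r * q' : ℕ) : ℤ) = (r : ℤ) * (q' : ℤ) := by push_cast; ring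
      rw [h6]
      exact c4.mul_dvd d5 d4

theorem delta_triv {M : ℕ} (hM : 1 ≤ M) {r q q' k k' : ℕ} {t : ℤ} (hr : 1 ≤ r) (hq : 1 ≤ q) (hq' : 1 ≤ q')
    (h1 : Nat.Coprime r q) (h2 : Nat.Coprime (r * q) q') (h3 : Nat.Coprime (r * q) k) (h4 : Nat.Coprime q' k')
    (hkk : k' ≡ k [MOD r]) : |NN2 M t (r * q) (r * q') k k' - 4 * M / ((r : ℝ) * q * q')| ≤ 2 := by
  obtain ⟨μ, -, -, hμ⟩ := exists_class (t := t) hr hq hq' h1 h2 h3 h4 hkk
  have hC : 1 ≤ r * q * q' := Nat.mul_pos (Nat.mul_pos hr hq) hq'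
  have h := psi_class_triv hM hC μ
  have h5 : NN2 M t (r * q) (r * q') k k' =
      ∑ m ∈ (range (4 * M)).filter (fun m : ℕ => ((r * q * q' : ℕ) : ℤ) ∣ m - μ), psi M m := by
    unfold NN2
    refine Finset.sum_congr (Finset.filter_congr fun m _ => hμ m) fun _ _ => rfl
  rw [h5]
  have h6 : ((r * q * q' : ℕ) : ℝ) = (r : ℝ) * q * q' := by push_cast; ring
  rwa [h6] at h

theorem delta_good {M : ℕ} (hM : 1 ≤ M) {r q q' k k' V1 : ℕ} {t l : ℤ} (hr : 1 ≤ r) (hq : 1 ≤ q) (hq' : 1 ≤ q')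
    (hk : 1 ≤ k) (h1 : Nat.Coprime r q) (h2 : Nat.Coprime (r * q) q') (h3 : Nat.Coprime (r * q * q') k)
    (h4 : Nat.Coprime q' k') (hkk : (k' : ℤ) = k + r * l) (hV : 1 ≤ V1) (hVC : 2 * V1 < r * q * q') :
    ‖((NN2 M t (r * q) (r * q') k k' : ℝ) : ℂ) - 4 * M / ((r : ℂ) * q * q') -
        ∑ v ∈ VV V1, (1 / ((r : ℂ) * q * q')) * psiF M ((v : ℝ) / ((r : ℝ) * q * q')) *
          ee (-((t : ℝ) * v) / ((r : ℝ) * q * q' * k)) *
          eZ k ((t * v : ℤ) * ((r * q * q' : ℕ) : ZMod k)⁻¹) *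
          eZ q' ((t * v * l : ℤ) * (((q * k : ℕ) : ZMod q') * ((k + r * l : ℤ) : ZMod q'))⁻¹)‖
      ≤ (r : ℝ) * q * q' / (2 * M * V1) := by
  have hkk' : k' ≡ k [MOD r] := by
    have h5 : (r : ℤ) ∣ (k' : ℤ) - k := ⟨l, by rw [hkk]; ring⟩
    exact (Int.natCast_modEq_iff.1 (Int.modEq_iff_dvd.2 h5)).symm
  have h3' : Nat.Coprime (r * q) k := Nat.Coprime.coprime_dvd_left (Dvd.intro _ rfl) h3
  obtain ⟨μ, g1, g2, hμ⟩ := exists_class (t := t) hr hq hq' h1 h2 h3' h4 hkk'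
  have hC : 1 ≤ r * q * q' := Nat.mul_pos (Nat.mul_pos hr hq) hq'
  have h := psi_class_trunc hM hC μ hV hVC
  have h5 : NN2 M t (r * q) (r * q') k k' =
      ∑ m ∈ (range (4 * M)).filter (fun m : ℕ => ((r * q * q' : ℕ) : ℤ) ∣ m - μ), psi M m := by
    unfold NN2
    refine Finset.sum_congr (Finset.filter_congr fun m _ => hμ m) fun _ _ => rfl
  have hg : Int.gcd (k' : ℤ) q' = 1 := by
    rw [Int.gcd_natCast_natCast]
    exact h4.symm
  have h6 : ((r * q * q' : ℕ) : ℝ) = (r : ℝ) * q * q' := by push_cast; ring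
  have h7 : ((r * q * q' : ℕ) : ℂ) = (r : ℂ) * q * q' := by push_cast; ring
  rw [← h5] at h
  have h8 : (1 / ((r * q * q' : ℕ) : ℂ)) * ∑ v ∈ VV V1, psiF M ((v : ℝ) / ((r * q * q' : ℕ) : ℝ)) *
      ee (-((v : ℝ) * μ / ((r * q * q' : ℕ) : ℝ))) =
      ∑ v ∈ VV V1, (1 / ((r : ℂ) * q * q')) * psiF M ((v : ℝ) / ((r : ℝ) * q * q')) *
          ee (-((t : ℝ) * v) / ((r : ℝ) * q * q' * k)) *
          eZ k ((t * v : ℤ) * ((r * q * q' : ℕ) : ZMod k)⁻¹) *
          eZ q' ((t * v * l : ℤ) * (((q * k : ℕ) : ZMod q') * ((k + r * l : ℤ) : ZMod q'))⁻¹) := by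
    rw [Finset.mul_sum]
    refine Finset.sum_congr rfl fun v _ => ?_
    rw [phase hr hq hq' hk h2 h3 hkk hg g1 g2, h6, h7]
    have h9 : ((k' : ℤ) : ZMod q') = ((k + r * l : ℤ) : ZMod q') := by rw [hkk]
    rw [h9]
    ring
  rw [h8, h6, h7] at h
  exact h

end H69BG
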