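import Pool.Agent.H69.BG.Rsm
import Pool.Agent.H69.BG.Dgs

/-!
# DSP: the second Cauchy inequality

By Cauchy-Schwarz over the tuples `(l, k, r, u, u')` (at most `Nout = 2L · K · (R'-R) · |U1| |U2|` of them; `‖γ‖ ≤ 1`):
`‖S‖² ≤ Nout ∑_{l,k,u,u'} ∑_{r ∈ (R,R'], (r,k)=1} ‖∑_a tm(a, r)‖²` (the sum over `r ∈ RR` is enlarged to all `r ∈ (R, R']` coprime to `k`).
For fixed `(l, k, u, u')` (with `u u'` coprime to `k`) open the square: `∑_{a,b} ∑_r tm(a,r) conj tm(b,r)`.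
* pairs with `v1 w2 w2' = v2 w1 w1'`: `tm(a, r) = 0` unless `a.1, a.2.1` are coprime, `tm_le` (with `4M/Cm · ρ`), so their total is
  `≤ (R'-R) (4M/Cm)² · 66 V |W1||W2| (w1/w0)²` by `dgs`, `V = Cp/(4M)`;
* the other pairs (at most `(2 V1 |W1| |W2|)²`): `rsm`.
Sum over `l, k, u, u'`: `(2L) K |U1| |U2|` times, and factor out `R' - R`.
-/

open Finset H69LB

namespace H69BG

private theorem dsp_card_VV (V : ℕ) : (VV V).card = 2 * V := by
  unfold VV
  rw [Finset.card_erase_of_mem (by simp), Int.card_Icc]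
  omega

private theorem dsp_tm_zero {M : ℕ} {t l : ℤ} {k u u' : ℕ} {a : ℕ × ℕ × ℤ} {r : ℕ}
    (h : ¬ Nat.Coprime a.1 a.2.1) : tm M t l k u u' a r = 0 := by
  unfold tm
  rw [if_neg]
  rintro ⟨h1, -, -⟩
  exact h h1

private theorem dsp_sq {α β : Type*} (s : Finset α) (Q : Finset β) (f : α → β → ℂ) :
    ∑ r ∈ Q, ‖∑ a ∈ s, f a r‖ ^ 2 ≤ ∑ a ∈ s, ∑ b ∈ s, ‖∑ r ∈ Q, f a r * (starRingEnd ℂ) (f b r)‖ := by
  have h1 : ((∑ r ∈ Q, ‖∑ a ∈ s, f a r‖ ^ 2 : ℝ) : ℂ) = ∑ a ∈ s, ∑ b ∈ s, ∑ r ∈ Q, f a r * (starRingEnd ℂ) (f b r) := by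
    push_cast
    have h2 : ∀ r ∈ Q, ((‖∑ a ∈ s, f a r‖ : ℂ)) ^ 2 = ∑ a ∈ s, ∑ b ∈ s, f a r * (starRingEnd ℂ) (f b r) := by
      intro r _
      rw [← Complex.mul_conj', map_sum, Finset.sum_mul_sum]
    rw [Finset.sum_congr rfl h2, Finset.sum_comm]
    refine Finset.sum_congr rfl fun a _ => ?_
    rw [Finset.sum_comm]
  have h3 : (0 : ℝ) ≤ ∑ r ∈ Q, ‖∑ a ∈ s, f a r‖ ^ 2 := Finset.sum_nonneg fun _ _ => sq_nonneg _
  calc ∑ r ∈ Q, ‖∑ a ∈ s, f a r‖ ^ 2 = ‖((∑ r ∈ Q, ‖∑ a ∈ s, f a r‖ ^ 2 : ℝ) : ℂ)‖ := by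
        rw [Complex.norm_real, Real.norm_of_nonneg h3]
    _ = ‖∑ a ∈ s, ∑ b ∈ s, ∑ r ∈ Q, f a r * (starRingEnd ℂ) (f b r)‖ := by rw [h1]
    _ ≤ ∑ a ∈ s, ‖∑ b ∈ s, ∑ r ∈ Q, f a r * (starRingEnd ℂ) (f b r)‖ := norm_sum_le _ _
    _ ≤ _ := Finset.sum_le_sum fun a _ => norm_sum_le _ _

private theorem dsp_inner {M K B g0 R R' V1 : ℕ} {t l : ℤ} {k u u' : ℕ} {Cm Cp Tst w0 w1 : ℝ} {P0 W1 W2 : Finset ℕ}
    (hM : 1 ≤ M) (hK : 1 ≤ K) (hR : 1 ≤ R) (hRR : R < R') (hk : K < k) (hu : 1 ≤ u) (hu' : 1 ≤ u')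
    (ht : t ≠ 0) (hCm : 0 < Cm) (hTst : 0 ≤ Tst)
    (hw0 : 1 ≤ w0) (hw : w0 ≤ w1) (hP : ∀ p ∈ P0, p.Prime ∧ w0 ≤ p ∧ (p : ℝ) ≤ w1)
    (h1 : W1 = P0 ∨ W1 = {1}) (h2 : W2 = P0 ∨ W2 = {1}) (hCp : 0 < Cp)
    (hcop : Nat.Coprime (u * u') k)
    (hC : ∀ r ∈ Ioc R R', ∀ w ∈ W1, ∀ w' ∈ W2, Cm ≤ (r : ℝ) * u * w * u' * w' ∧ (r : ℝ) * u * w * u' * w' ≤ Cp)
    (hV1 : 2 * (V1 : ℝ) ≤ Cm)
    (hB : ∀ w ∈ W2, ∀ w' ∈ W2, u' * w * w' ≤ B)
    (hg : |(t : ℝ)| * (2 * V1) * w1 ^ 2 ≤ g0)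
    (hT : ∀ b : ℕ, 1 ≤ b → b ≤ B → Nat.Coprime k b → ∀ A : ZMod k, Nat.gcd A.val k ≤ g0 → ∀ G : ZMod b → ℂ,
      (∀ s, ‖G s‖ ≤ 1) → ∀ X Y : ℕ, Y ≤ X + R' →
        ‖∑ r ∈ (Ioc X Y).filter (fun r => Nat.Coprime r k), eZ k (A * (r : ZMod k)⁻¹) * G (r : ZMod b)‖ ≤ Tst) :
    ∑ r ∈ (Ioc R R').filter (fun r => Nat.Coprime r k), ‖∑ a ∈ AA W1 W2 V1, tm M t l k u u' a r‖ ^ 2
      ≤ (R' - R) * (4 * M / Cm) ^ 2 * (66 * (Cp / (4 * M)) * W1.card * W2.card * (w1 / w0) ^ 2) +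
          (2 * V1 * W1.card * W2.card) ^ 2 * ((4 * M / Cm) ^ 2 * (1 + 2 * Xf M K V1 t Cm * (R' - R) / R) * Tst) := by
  have hM0 : (0 : ℝ) < M := by exact_mod_cast hM
  have hK0 : (0 : ℝ) < K := by exact_mod_cast hK
  have hR0 : (0 : ℝ) < R := by exact_mod_cast hR
  have hRR0 : (0 : ℝ) < (R' : ℝ) - R := by
    have : (R : ℝ) < R' := by exact_mod_cast hRR
    linarith
  have hWl : ∀ W : Finset ℕ, (W = P0 ∨ W = {1}) → ∀ w ∈ W, 1 ≤ w ∧ (w : ℝ) ≤ w1 := by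
    rintro W (rfl | rfl) w hw'
    · exact ⟨(hP w hw').1.one_lt.le, (hP w hw').2.2⟩
    · rw [Finset.mem_singleton] at hw'
      subst hw'
      exact ⟨le_refl _, by push_cast; linarith⟩
  have hXf : 0 ≤ Xf M K V1 t Cm := by
    unfold Xf
    have := Real.pi_pos
    positivity
  set Bd : ℝ := (4 * M / Cm) ^ 2 * (1 + 2 * Xf M K V1 t Cm * (R' - R) / R) * Tst with hBd
  have hBd0 : 0 ≤ Bd := by
    rw [hBd]
    have : 0 ≤ 2 * Xf M K V1 t Cm * (R' - R) / R := by positivity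
    positivity
  set X : ℝ := (R' - R) * (4 * M / Cm) ^ 2 with hX
  have hX0 : 0 ≤ X := by rw [hX]; positivity
  set V : ℝ := Cp / (4 * M) with hV
  have hV0 : 0 < V := by rw [hV]; positivity
  have hrho : ∀ v : ℤ, 0 ≤ rhov V v := by
    intro v
    unfold rhov
    positivity
  refine (dsp_sq _ _ _).trans ?_
  -- bound of each pair
  have hpair : ∀ a ∈ AA W1 W2 V1, ∀ b ∈ AA W1 W2 V1,
      ‖∑ r ∈ (Ioc R R').filter (fun r => Nat.Coprime r k), tm M t l k u u' a r * (starRingEnd ℂ) (tm M t l k u u' b r)‖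
        ≤ (if Nat.Coprime a.1 a.2.1 then
            (if Nat.Coprime b.1 b.2.1 ∧ a.2.2 * b.1 * b.2.1 = b.2.2 * a.1 * a.2.1 then X * (rhov V a.2.2 * rhov V b.2.2)
              else 0) else 0) + Bd := by
    intro a ha b hb
    by_cases hd : a.2.2 * b.1 * b.2.1 = b.2.2 * a.1 * a.2.1
    · by_cases hca : Nat.Coprime a.1 a.2.1
      · by_cases hcb : Nat.Coprime b.1 b.2.1
        · rw [if_pos hca, if_pos ⟨hcb, hd⟩]
          have htm : ∀ c ∈ AA W1 W2 V1, ∀ r ∈ (Ioc R R').filter (fun r => Nat.Coprime r k),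
              ‖tm M t l k u u' c r‖ ≤ 4 * M / Cm * rhov V c.2.2 := by
            intro c hc r hr
            obtain ⟨c1, c2, c3⟩ := c
            simp only [AA, Finset.mem_product, VV, Finset.mem_erase, Finset.mem_Icc] at hc
            obtain ⟨hc1, hc2, hc3, hc4, hc5⟩ := hc
            rw [Finset.mem_filter] at hr
            have hCC := hC r hr.1 c1 hc1 c2 hc2
            refine tm_le hM hCm hc3 ?_ hCC.1 hCC.2
            have : |(c3 : ℝ)| ≤ V1 := by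
              rw [abs_le]
              exact ⟨by exact_mod_cast hc4, by exact_mod_cast hc5⟩
            simp only
            linarith
          calc ‖∑ r ∈ (Ioc R R').filter (fun r => Nat.Coprime r k),
                tm M t l k u u' a r * (starRingEnd ℂ) (tm M t l k u u' b r)‖
              ≤ ∑ r ∈ (Ioc R R').filter (fun r => Nat.Coprime r k),
                ‖tm M t l k u u' a r * (starRingEnd ℂ) (tm M t l k u u' b r)‖ := norm_sum_le _ _
            _ ≤ ∑ r ∈ (Ioc R R').filter (fun r => Nat.Coprime r k),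
                (4 * M / Cm) ^ 2 * (rhov V a.2.2 * rhov V b.2.2) := by
                refine Finset.sum_le_sum fun r hr => ?_
                rw [norm_mul, RCLike.norm_conj]
                calc ‖tm M t l k u u' a r‖ * ‖tm M t l k u u' b r‖
                    ≤ (4 * M / Cm * rhov V a.2.2) * (4 * M / Cm * rhov V b.2.2) := by
                      apply mul_le_mul (htm a ha r hr) (htm b hb r hr) (norm_nonneg _)
                      have := hrho a.2.2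
                      positivity
                  _ = (4 * M / Cm) ^ 2 * (rhov V a.2.2 * rhov V b.2.2) := by ring
            _ = (((Ioc R R').filter (fun r => Nat.Coprime r k)).card : ℝ) *
                  ((4 * M / Cm) ^ 2 * (rhov V a.2.2 * rhov V b.2.2)) := by
                rw [Finset.sum_const, nsmul_eq_mul]
            _ ≤ (R' - R) * ((4 * M / Cm) ^ 2 * (rhov V a.2.2 * rhov V b.2.2)) := by
                apply mul_le_mul_of_nonneg_right
                · have h5 : ((Ioc R R').filter (fun r => Nat.Coprime r k)).card ≤ R' - R := by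
                    refine (Finset.card_filter_le _ _).trans ?_
                    rw [Nat.card_Ioc]
                  have h6 : (((Ioc R R').filter (fun r => Nat.Coprime r k)).card : ℝ) ≤ ((R' - R : ℕ) : ℝ) := by
                    exact_mod_cast h5
                  rwa [Nat.cast_sub hRR.le] at h6
                · have := hrho a.2.2
                  have := hrho b.2.2
                  positivity
            _ = X * (rhov V a.2.2 * rhov V b.2.2) := by rw [hX]; ring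
            _ ≤ _ := by linarith
        · have h0 : ∀ r ∈ (Ioc R R').filter (fun r => Nat.Coprime r k),
              tm M t l k u u' a r * (starRingEnd ℂ) (tm M t l k u u' b r) = 0 := by
            intro r _
            rw [dsp_tm_zero hcb, map_zero, mul_zero]
          rw [Finset.sum_eq_zero h0, norm_zero, if_pos hca, if_neg (fun h => hcb h.1), zero_add]
          exact hBd0
      · have h0 : ∀ r ∈ (Ioc R R').filter (fun r => Nat.Coprime r k),
            tm M t l k u u' a r * (starRingEnd ℂ) (tm M t l k u u' b r) = 0 := by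
          intro r _
          rw [dsp_tm_zero hca, zero_mul]
        rw [Finset.sum_eq_zero h0, norm_zero, if_neg hca, zero_add]
        exact hBd0
    · have h5 := rsm (l := l) hM hK hR hRR hk hu hu' ht hCm hTst (hWl W1 h1) (hWl W2 h2) hcop
        (fun r hr w hw w' hw' => (hC r hr w hw w' hw').1) hB hg hT ha hb hd
      refine h5.trans ?_
      have h6 : (0 : ℝ) ≤ (if Nat.Coprime a.1 a.2.1 then
            (if Nat.Coprime b.1 b.2.1 ∧ a.2.2 * b.1 * b.2.1 = b.2.2 * a.1 * a.2.1 then X * (rhov V a.2.2 * rhov V b.2.2)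
              else 0) else 0) := by
        have := hrho a.2.2
        have := hrho b.2.2
        split_ifs
        · positivity
        · exact le_refl _
        · exact le_refl _
      linarith
  refine (Finset.sum_le_sum fun a ha => Finset.sum_le_sum fun b hb => hpair a ha b hb).trans ?_
  have hcard : ((AA W1 W2 V1).card : ℝ) = 2 * V1 * W1.card * W2.card := by
    unfold AA
    rw [Finset.card_product, Finset.card_product, dsp_card_VV]
    push_cast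
    ring
  have hdg := dgs hw0 hw hP h1 h2 hV0 V1
  have hsplit : ∑ a ∈ AA W1 W2 V1, ∑ b ∈ AA W1 W2 V1, ((if Nat.Coprime a.1 a.2.1 then
            (if Nat.Coprime b.1 b.2.1 ∧ a.2.2 * b.1 * b.2.1 = b.2.2 * a.1 * a.2.1 then X * (rhov V a.2.2 * rhov V b.2.2)
              else 0) else 0) + Bd)
      = X * (∑ a ∈ (AA W1 W2 V1).filter (fun a => Nat.Coprime a.1 a.2.1),
      ∑ b ∈ (AA W1 W2 V1).filter (fun b => Nat.Coprime b.1 b.2.1 ∧ a.2.2 * b.1 * b.2.1 = b.2.2 * a.1 * a.2.1),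
        rhov V a.2.2 * rhov V b.2.2) + (2 * V1 * W1.card * W2.card) ^ 2 * Bd := by
    rw [← hcard]
    simp only [Finset.sum_add_distrib, Finset.sum_const, nsmul_eq_mul]
    congr 1
    · rw [Finset.sum_filter, Finset.mul_sum]
      refine Finset.sum_congr rfl fun a _ => ?_
      by_cases hca : Nat.Coprime a.1 a.2.1
      · simp only [if_pos hca]
        rw [Finset.sum_filter, Finset.mul_sum]
        refine Finset.sum_congr rfl fun b _ => ?_
        split_ifs <;> simp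
      · simp only [if_neg hca]
        simp
    · ring
  rw [hsplit]
  have := mul_le_mul_of_nonneg_left hdg hX0
  linarith

private theorem dsp_alg (l k D u1 u2 X A B E Ts : ℝ) (hD : D ≠ 0) :
    (2 * l * k * D * u1 * u2) * ((2 * l * k * u1 * u2) * (D * X ^ 2 * A + B ^ 2 * (X ^ 2 * E * Ts))) =
      (2 * l * k * D * u1 * u2) ^ 2 * X ^ 2 * (A + B ^ 2 * E * Ts / D) := by
  field_simp

theorem disp {M K B g0 R R' V1 L : ℕ} {t : ℤ} {Cm Cp Tst w0 w1 : ℝ} {P0 W1 W2 U1 U2 RR : Finset ℕ}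
    (hM : 1 ≤ M) (hK : 1 ≤ K) (hR : 1 ≤ R) (hRR : R < R') (ht : t ≠ 0) (hCm : 0 < Cm) (hTst : 0 ≤ Tst)
    (hw0 : 1 ≤ w0) (hw : w0 ≤ w1) (hP : ∀ p ∈ P0, p.Prime ∧ w0 ≤ p ∧ (p : ℝ) ≤ w1)
    (h1 : W1 = P0 ∨ W1 = {1}) (h2 : W2 = P0 ∨ W2 = {1})
    (hU1 : ∀ u ∈ U1, 1 ≤ u) (hU2 : ∀ u ∈ U2, 1 ≤ u) (hRRs : RR ⊆ Ioc R R')
    (hC : ∀ r ∈ Ioc R R', ∀ u ∈ U1, ∀ w ∈ W1, ∀ u' ∈ U2, ∀ w' ∈ W2,
      Cm ≤ (r : ℝ) * u * w * u' * w' ∧ (r : ℝ) * u * w * u' * w' ≤ Cp)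
    (hV1 : 2 * (V1 : ℝ) ≤ Cm)
    (hB : ∀ u' ∈ U2, ∀ w ∈ W2, ∀ w' ∈ W2, u' * w * w' ≤ B)
    (hg : |(t : ℝ)| * (2 * V1) * w1 ^ 2 ≤ g0)
    (hT : ∀ k ∈ Ioc K (2 * K), ∀ b : ℕ, 1 ≤ b → b ≤ B → Nat.Coprime k b → ∀ A : ZMod k, Nat.gcd A.val k ≤ g0 →
      ∀ G : ZMod b → ℂ, (∀ s, ‖G s‖ ≤ 1) → ∀ X Y : ℕ, Y ≤ X + R' →
        ‖∑ r ∈ (Ioc X Y).filter (fun r => Nat.Coprime r k), eZ k (A * (r : ZMod k)⁻¹) * G (r : ZMod b)‖ ≤ Tst)
    (γ : ℤ → ℕ → ℕ → ℂ) (hγ : ∀ l k r, ‖γ l k r‖ ≤ 1) :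
    ‖∑ l ∈ VV L, ∑ k ∈ Ioc K (2 * K), ∑ r ∈ RR.filter (fun r => Nat.Coprime r k), γ l k r *
        ∑ u ∈ U1, ∑ u' ∈ U2.filter (fun u' => Nat.Coprime u u' ∧ Nat.Coprime (u * u') k),
          ∑ a ∈ AA W1 W2 V1, tm M t l k u u' a r‖ ^ 2
      ≤ (2 * L * K * (R' - R) * U1.card * U2.card) ^ 2 * (4 * M / Cm) ^ 2 *
        (66 * (Cp / (4 * M)) * W1.card * W2.card * (w1 / w0) ^ 2 +
          (2 * V1 * W1.card * W2.card) ^ 2 * (1 + 2 * Xf M K V1 t Cm * (R' - R) / R) * Tst / (R' - R)) := by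
  have hM0 : (0 : ℝ) < M := by exact_mod_cast hM
  have hK0 : (0 : ℝ) < K := by exact_mod_cast hK
  have hR0 : (0 : ℝ) < R := by exact_mod_cast hR
  have hRR0 : (0 : ℝ) < (R' : ℝ) - R := by
    have : (R : ℝ) < R' := by exact_mod_cast hRR
    linarith
  have hXf : 0 ≤ Xf M K V1 t Cm := by
    unfold Xf
    have := Real.pi_pos
    positivity
  -- trivial cases
  by_cases hUne : U1.Nonempty ∧ U2.Nonempty ∧ W1.Nonempty ∧ W2.Nonempty
  swap
  · have hz : ∀ l ∈ VV L, ∀ k ∈ Ioc K (2 * K), ∀ r ∈ RR.filter (fun r => Nat.Coprime r k), γ l k r *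
        ∑ u ∈ U1, ∑ u' ∈ U2.filter (fun u' => Nat.Coprime u u' ∧ Nat.Coprime (u * u') k),
          ∑ a ∈ AA W1 W2 V1, tm M t l k u u' a r = 0 := by
      intro l _ k _ r _
      rw [not_and_or, not_and_or, not_and_or] at hUne
      simp only [Finset.not_nonempty_iff_eq_empty] at hUne
      rcases hUne with h | h | h | h
      · rw [h]; simp
      · rw [h]; simp
      · rw [h]; simp [AA]
      · rw [h]; simp [AA]
    rw [Finset.sum_eq_zero fun l hl => Finset.sum_eq_zero fun k hk => Finset.sum_eq_zero fun r hr => hz l hl k hk r hr]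
    rw [norm_zero, zero_pow (by norm_num)]
    rw [not_and_or, not_and_or, not_and_or] at hUne
    simp only [Finset.not_nonempty_iff_eq_empty] at hUne
    rcases hUne with h | h | h | h
    · rw [h]; simp
    · rw [h]; simp
    · rw [h]; simp
    · rw [h]; simp
  obtain ⟨⟨u0, hu0⟩, ⟨u0', hu0'⟩, ⟨z0, hz0⟩, ⟨z0', hz0'⟩⟩ := hUne
  have hCp : 0 < Cp := by
    have := hC (R + 1) (Finset.mem_Ioc.2 ⟨by omega, by omega⟩) u0 hu0 z0 hz0 u0' hu0' z0' hz0'
    linarith [this.1, this.2]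
  set Z : ℝ := (R' - R) * (4 * M / Cm) ^ 2 * (66 * (Cp / (4 * M)) * W1.card * W2.card * (w1 / w0) ^ 2) +
          (2 * V1 * W1.card * W2.card) ^ 2 * ((4 * M / Cm) ^ 2 * (1 + 2 * Xf M K V1 t Cm * (R' - R) / R) * Tst) with hZ
  have hZ0 : 0 ≤ Z := by
    rw [hZ]
    have h7 : 0 ≤ 2 * Xf M K V1 t Cm * (R' - R) / R := by positivity
    have h8 : 0 < w0 := by linarith
    have h9 : 0 < w1 := by linarith
    positivity
  -- the index set
  let T : Finset (ℤ × ℕ × ℕ × ℕ × ℕ) :=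
    (VV L ×ˢ Ioc K (2 * K) ×ˢ RR ×ˢ U1 ×ˢ U2).filter (fun p => Nat.Coprime p.2.2.1 p.2.1 ∧
      (Nat.Coprime p.2.2.2.1 p.2.2.2.2 ∧ Nat.Coprime (p.2.2.2.1 * p.2.2.2.2) p.2.1))
  let F : ℤ × ℕ × ℕ × ℕ × ℕ → ℂ := fun p => ∑ a ∈ AA W1 W2 V1, tm M t p.1 p.2.1 p.2.2.2.1 p.2.2.2.2 a p.2.2.1
  have hS : ∑ l ∈ VV L, ∑ k ∈ Ioc K (2 * K), ∑ r ∈ RR.filter (fun r => Nat.Coprime r k), γ l k r *
        ∑ u ∈ U1, ∑ u' ∈ U2.filter (fun u' => Nat.Coprime u u' ∧ Nat.Coprime (u * u') k),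
          ∑ a ∈ AA W1 W2 V1, tm M t l k u u' a r
      = ∑ p ∈ T, γ p.1 p.2.1 p.2.2.1 * F p := by
    simp only [T, F]
    rw [Finset.sum_filter, Finset.sum_product]
    refine Finset.sum_congr rfl fun l _ => ?_
    rw [Finset.sum_product]
    refine Finset.sum_congr rfl fun k _ => ?_
    rw [Finset.sum_product, Finset.sum_filter]
    refine Finset.sum_congr rfl fun r _ => ?_
    rw [Finset.sum_product]
    by_cases hrk : Nat.Coprime r k
    · rw [if_pos hrk, Finset.mul_sum]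
      refine Finset.sum_congr rfl fun u _ => ?_
      rw [Finset.sum_filter, Finset.mul_sum]
      refine Finset.sum_congr rfl fun u' _ => ?_
      by_cases hc : Nat.Coprime u u' ∧ Nat.Coprime (u * u') k
      · rw [if_pos hc, if_pos ⟨hrk, hc⟩]
      · rw [if_neg hc, if_neg (fun h => hc h.2), mul_zero]
    · rw [if_neg hrk]
      symm
      refine Finset.sum_eq_zero fun u _ => Finset.sum_eq_zero fun u' _ => ?_
      rw [if_neg (fun h => hrk h.1)]
  have hcardT : (T.card : ℝ) ≤ 2 * L * K * (R' - R) * U1.card * U2.card := by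
    have h3 : T.card ≤ 2 * L * (K * ((R' - R) * (U1.card * U2.card))) := by
      refine (Finset.card_filter_le _ _).trans ?_
      rw [Finset.card_product, Finset.card_product, Finset.card_product, Finset.card_product, dsp_card_VV, Nat.card_Ioc]
      have h4 : RR.card ≤ R' - R := by
        have := Finset.card_le_card hRRs
        rwa [Nat.card_Ioc] at this
      have h5 : 2 * K - K = K := by omega
      rw [h5]
      gcongr
    have h6 : (T.card : ℝ) ≤ ((2 * L * (K * ((R' - R) * (U1.card * U2.card))) : ℕ) : ℝ) := by exact_mod_cast h3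
    refine h6.trans (le_of_eq ?_)
    push_cast [Nat.cast_sub hRR.le]
    ring
  have hsum : ∑ p ∈ T, ‖F p‖ ^ 2 ≤ (2 * L * K * U1.card * U2.card) * Z := by
    have h3 : ∑ p ∈ T, ‖F p‖ ^ 2 = ∑ l ∈ VV L, ∑ k ∈ Ioc K (2 * K), ∑ u ∈ U1, ∑ u' ∈ U2, ∑ r ∈ RR,
        (if (Nat.Coprime r k ∧ (Nat.Coprime u u' ∧ Nat.Coprime (u * u') k)) then
          ‖∑ a ∈ AA W1 W2 V1, tm M t l k u u' a r‖ ^ 2 else 0) := by
      simp only [T, F]
      rw [Finset.sum_filter, Finset.sum_product]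
      refine Finset.sum_congr rfl fun l _ => ?_
      rw [Finset.sum_product]
      refine Finset.sum_congr rfl fun k _ => ?_
      rw [Finset.sum_product_right, Finset.sum_product]
    rw [h3]
    have h4 : ∀ l ∈ VV L, ∀ k ∈ Ioc K (2 * K), ∀ u ∈ U1, ∀ u' ∈ U2, ∑ r ∈ RR,
        (if (Nat.Coprime r k ∧ (Nat.Coprime u u' ∧ Nat.Coprime (u * u') k)) then
          ‖∑ a ∈ AA W1 W2 V1, tm M t l k u u' a r‖ ^ 2 else 0) ≤ Z := by
      intro l _ k hk u hu u' hu'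
      by_cases hc : Nat.Coprime (u * u') k
      · refine le_trans ?_ (dsp_inner (l := l) hM hK hR hRR (Finset.mem_Ioc.1 hk).1 (hU1 u hu) (hU2 u' hu') ht hCm hTst
          hw0 hw hP h1 h2 hCp hc (fun r hr w hw w' hw' => hC r hr u hu w hw u' hu' w' hw') hV1
          (fun w hw w' hw' => hB u' hu' w hw w' hw') hg (hT k hk))
        rw [← Finset.sum_filter]
        refine Finset.sum_le_sum_of_subset_of_nonneg ?_ fun _ _ _ => sq_nonneg _
        intro r hr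
        rw [Finset.mem_filter] at hr ⊢
        exact ⟨hRRs hr.1, hr.2.1⟩
      · rw [Finset.sum_eq_zero]
        · exact hZ0
        · intro r _
          rw [if_neg (fun h => hc h.2.2)]
    refine (Finset.sum_le_sum fun l hl => Finset.sum_le_sum fun k hk => Finset.sum_le_sum fun u hu =>
      Finset.sum_le_sum fun u' hu' => h4 l hl k hk u hu u' hu').trans (le_of_eq ?_)
    simp only [Finset.sum_const, nsmul_eq_mul, dsp_card_VV, Nat.card_Ioc]
    have h5 : 2 * K - K = K := by omega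
    rw [h5]
    push_cast
    ring
  rw [hS]
  have h10 : ‖∑ p ∈ T, γ p.1 p.2.1 p.2.2.1 * F p‖ ≤ ∑ p ∈ T, ‖F p‖ := by
    refine (norm_sum_le _ _).trans (Finset.sum_le_sum fun p _ => ?_)
    rw [norm_mul]
    exact mul_le_of_le_one_left (norm_nonneg _) (hγ _ _ _)
  calc ‖∑ p ∈ T, γ p.1 p.2.1 p.2.2.1 * F p‖ ^ 2 ≤ (∑ p ∈ T, ‖F p‖) ^ 2 :=
        pow_le_pow_left₀ (norm_nonneg _) h10 2
    _ ≤ (T.card : ℝ) * ∑ p ∈ T, ‖F p‖ ^ 2 := sq_sum_le_card_mul_sum_sq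
    _ ≤ (2 * L * K * (R' - R) * U1.card * U2.card) * ((2 * L * K * U1.card * U2.card) * Z) := by
        apply mul_le_mul hcardT hsum (Finset.sum_nonneg fun _ _ => sq_nonneg _)
        positivity
    _ = _ := by
        rw [hZ]
        exact dsp_alg _ _ _ _ _ _ _ _ _ _ hRR0.ne'

end H69BG
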