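import Pool.Agent.H69.BG.Bvs

/-!
# TVW: total variation of the weights

`W` is smooth and zero for `|η| ≥ M`, so it is bounded and Lipschitz with some constant `B`. `vW(k+1) - vW(k)` is `0` unless `x e^{-M} < l (k+1)` and `l k < x e^M`; for `k ≥ 1` it is at most `B log((k+1)/k) ≤ B/k`, and
`∑ 1/k` over `max(1, x e^{-M}/l - 1) ≤ k ≤ x e^M/l` is at most `C` (the ratio of the end points is bounded: `≤ 1 + 1 + log(...)`). At most `x e^M/l` of the numbers are nonzero. For `vWl`: `k ≤ x e^M/l`, so `0 ≤ log k ≤ log x + M`, and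
`|vWl(k+1) - vWl(k)| ≤ |vW(k+1) - vW(k)| log(k+1) + |vW(k)|/k`.
-/

open Finset H69LB

namespace H69BG

/-- the weight as a sequence -/
noncomputable def vW (W : ℝ → ℝ) (x : ℝ) (l k : ℕ) : ℝ := if k = 0 then 0 else W (Real.log ((l * k : ℕ) / x))

/-- the weight with a logarithm -/
noncomputable def vWl (W : ℝ → ℝ) (x : ℝ) (l k : ℕ) : ℝ := vW W x l k * Real.log k

theorem TVW_sum (F : ℕ → ℝ) {a b K : ℝ} (hK : 0 ≤ K) (ha : 0 ≤ a) (hb : 0 ≤ b) (h0 : F 0 ≤ b)
    (h1 : ∀ k : ℕ, 1 ≤ k → (k : ℝ) < K → F k ≤ a) (h2 : ∀ k : ℕ, 1 ≤ k → K ≤ k → F k ≤ 0) (n : ℕ) :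
    ∑ k ∈ range n, F k ≤ b + a * K := by
  classical
  have hle : ∀ k ∈ range n, F k ≤ (if k = 0 then b else 0) + (if 1 ≤ k ∧ (k : ℝ) < K then a else 0) := by
    intro k _
    rcases Nat.eq_zero_or_pos k with hk | hk
    · rw [hk, if_pos rfl]
      have : ¬ (1 ≤ 0 ∧ ((0 : ℕ) : ℝ) < K) := by
        rintro ⟨h, _⟩
        omega
      rw [if_neg this, add_zero]
      exact h0
    · rw [if_neg (by omega), zero_add]
      split_ifs with h
      · exact h1 k h.1 h.2
      · refine h2 k hk ?_
        by_contra hcon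
        exact h ⟨hk, not_le.mp hcon⟩
  refine (sum_le_sum hle).trans ?_
  rw [sum_add_distrib]
  refine add_le_add ?_ ?_
  · rw [sum_ite_eq']
    split_ifs
    · exact le_rfl
    · exact hb
  · rw [← sum_filter, sum_const, nsmul_eq_mul, mul_comm]
    refine mul_le_mul_of_nonneg_left ?_ ha
    have hsub : (range n).filter (fun k : ℕ => 1 ≤ k ∧ (k : ℝ) < K) ⊆ Ioc 0 ⌊K⌋₊ := by
      intro k hk
      simp only [mem_filter, mem_range, mem_Ioc] at hk ⊢
      exact ⟨hk.2.1, Nat.le_floor hk.2.2.le⟩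
    have hc := card_le_card hsub
    rw [Nat.card_Ioc, Nat.sub_zero] at hc
    calc (((range n).filter (fun k : ℕ => 1 ≤ k ∧ (k : ℝ) < K)).card : ℝ) ≤ (⌊K⌋₊ : ℝ) := by exact_mod_cast hc
      _ ≤ K := Nat.floor_le hK

theorem tvw {M : ℝ} (hM : 0 < M) {W : ℝ → ℝ} (hW : WS M W) : ∃ C : ℝ, 0 ≤ C ∧ ∀ x : ℝ, 1 ≤ x → ∀ l : ℕ, 1 ≤ l → (l : ℝ) ≤ x →
    ∀ N : ℕ, TVn N (vW W x l) ≤ C ∧ ∑ k ∈ range (N + 1), |vW W x l k| ≤ C * (x / l) ∧
      TVn N (vWl W x l) ≤ C * (1 + Real.log x) ∧
      ∑ k ∈ range (N + 1), |vWl W x l k| ≤ C * (x / l) * (1 + Real.log x) := by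
  have hcs : HasCompactSupport W := by
    refine HasCompactSupport.intro (isCompact_Icc (a := -M) (b := M)) ?_
    intro η hη
    refine hW.zero η ?_
    rw [Set.mem_Icc, not_and_or, not_le, not_le] at hη
    rcases hη with h | h
    · exact le_trans (by linarith) (neg_le_abs η)
    · exact h.le.trans (le_abs_self η)
  obtain ⟨B0, hB0⟩ := hW.smooth.continuous.bounded_above_of_compact_support hcs
  obtain ⟨B1, hB1⟩ := hW.smooth.lipschitzWith_of_hasCompactSupport hcs (by simp)
  set B : ℝ := max 1 (max B0 B1) with hB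
  have hBpos : 0 < B := lt_of_lt_of_le one_pos (le_max_left _ _)
  have hBW : ∀ η, |W η| ≤ B := fun η =>
    (hB0 η).trans ((le_max_left _ _).trans (le_max_right _ _))
  have hBL : ∀ a b, |W a - W b| ≤ B * |a - b| := by
    intro a b
    have h1 := hB1.dist_le_mul a b
    rw [Real.dist_eq, Real.dist_eq] at h1
    refine h1.trans (mul_le_mul_of_nonneg_right ?_ (abs_nonneg _))
    exact (le_max_right _ _).trans (le_max_right _ _)
  set E : ℝ := Real.exp M with hE
  have hE1 : 1 ≤ E := Real.one_le_exp hM.le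
  have hE0 : 0 < E := Real.exp_pos M
  refine ⟨5 * B * (1 + M) * E ^ 2, by positivity, ?_⟩
  intro x hx l hl hlx N
  have hx0 : 0 < x := lt_of_lt_of_le one_pos hx
  have hlR : (1 : ℝ) ≤ l := by exact_mod_cast hl
  have hl0 : (0 : ℝ) < l := lt_of_lt_of_le one_pos hlR
  have hlog : 0 ≤ Real.log x := Real.log_nonneg hx
  set K : ℝ := x * E / l with hK
  have hK0 : 0 < K := by positivity
  set G : ℕ → ℝ := vW W x l with hG
  have hG0 : G 0 = 0 := by rw [hG]; unfold vW; rw [if_pos rfl]
  have hGk : ∀ k : ℕ, 1 ≤ k → G k = W (Real.log ((l * k : ℕ) / x)) := by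
    intro k hk
    rw [hG]; unfold vW; rw [if_neg (by omega)]
  have hGB : ∀ k, |G k| ≤ B := by
    intro k
    rcases Nat.eq_zero_or_pos k with h | h
    · rw [h, hG0, abs_zero]; exact hBpos.le
    · rw [hGk k h]; exact hBW _
  -- vanishing for large k
  have hbig : ∀ k : ℕ, 1 ≤ k → K ≤ k → G k = 0 := by
    intro k hk hKk
    rw [hGk k hk]
    refine hW.zero _ (le_trans ?_ (le_abs_self _))
    rw [Real.le_log_iff_exp_le (by positivity)]
    rw [le_div_iff₀ hx0]
    rw [hK, div_le_iff₀ hl0] at hKk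
    push_cast
    nlinarith
  -- a nonzero value forces k to be large
  have hsmall : ∀ k : ℕ, 1 ≤ k → G k ≠ 0 → (1 : ℝ) / k ≤ l * E / x := by
    intro k hk hne
    have hkR : (0 : ℝ) < k := by exact_mod_cast hk
    by_contra hcon
    rw [not_le] at hcon
    apply hne
    rw [hGk k hk]
    refine hW.zero _ (le_trans ?_ (neg_le_abs _))
    have h1 : ((l * k : ℕ) : ℝ) / x ≤ Real.exp (-M) := by
      rw [Real.exp_neg, ← hE]
      rw [div_lt_div_iff₀ hx0 hkR] at hcon
      rw [div_le_iff₀ hx0]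
      push_cast
      have : (l : ℝ) * k = E⁻¹ * (l * E * k) := by field_simp
      rw [this]
      refine mul_le_mul_of_nonneg_left ?_ (by positivity)
      linarith
    have h2 : Real.log ((l * k : ℕ) / x) ≤ -M := by
      rw [Real.log_le_iff_le_exp (by positivity)]
      exact h1
    linarith
  have hlogstep : ∀ k : ℕ, 1 ≤ k → Real.log ((k + 1 : ℕ) : ℝ) - Real.log k ≤ 1 / k := by
    intro k hk
    have hkR : (0 : ℝ) < k := by exact_mod_cast hk
    rw [← Real.log_div (by positivity) hkR.ne']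
    have e : ((k + 1 : ℕ) : ℝ) / k = 1 + 1 / k := by
      push_cast
      field_simp
    rw [e]
    have := Real.log_le_sub_one_of_pos (show (0 : ℝ) < 1 + 1 / k by positivity)
    linarith
  have hlogmono : ∀ k : ℕ, 1 ≤ k → 0 ≤ Real.log ((k + 1 : ℕ) : ℝ) - Real.log k := by
    intro k hk
    have hkR : (0 : ℝ) < k := by exact_mod_cast hk
    have : Real.log (k : ℝ) ≤ Real.log ((k + 1 : ℕ) : ℝ) :=
      Real.log_le_log hkR (by push_cast; linarith)
    linarith
  have hdiff : ∀ k : ℕ, 1 ≤ k → |G (k + 1) - G k| ≤ B * (1 / k) := by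
    intro k hk
    have hkR : (0 : ℝ) < k := by exact_mod_cast hk
    rw [hGk k hk, hGk (k + 1) (by omega)]
    refine (hBL _ _).trans (mul_le_mul_of_nonneg_left ?_ hBpos.le)
    have e1 : Real.log ((l * (k + 1) : ℕ) / x) - Real.log ((l * k : ℕ) / x) =
        Real.log ((k + 1 : ℕ) : ℝ) - Real.log k := by
      have a1 : Real.log ((l * (k + 1) : ℕ) / x) = Real.log l + Real.log ((k + 1 : ℕ) : ℝ) - Real.log x := by
        rw [Real.log_div (by positivity) hx0.ne', Nat.cast_mul, Real.log_mul hl0.ne' (by positivity)]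
      have a2 : Real.log ((l * k : ℕ) / x) = Real.log l + Real.log k - Real.log x := by
        rw [Real.log_div (by positivity) hx0.ne', Nat.cast_mul, Real.log_mul hl0.ne' hkR.ne']
      rw [a1, a2]
      ring
    rw [e1, abs_of_nonneg (hlogmono k hk)]
    exact hlogstep k hk
  have hdK : ∀ k : ℕ, 1 ≤ k → K ≤ k → |G (k + 1) - G k| = 0 := by
    intro k hk hKk
    rw [hbig k hk hKk, hbig (k + 1) (by omega) (by push_cast; linarith), sub_zero, abs_zero]
  have hdE : ∀ k : ℕ, 1 ≤ k → |G (k + 1) - G k| ≤ 2 * B * (l * E / x) := by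
    intro k hk
    have hkR : (1 : ℝ) ≤ k := by exact_mod_cast hk
    have hpos : 0 ≤ 2 * B * (l * E / x) := by positivity
    by_cases h1 : G (k + 1) = 0
    · by_cases h2 : G k = 0
      · rw [h1, h2, sub_zero, abs_zero]; exact hpos
      · have := hsmall k hk h2
        refine (hdiff k hk).trans ?_
        nlinarith [mul_le_mul_of_nonneg_left this hBpos.le, mul_nonneg hBpos.le (show 0 ≤ (l : ℝ) * E / x by positivity)]
    · have := hsmall (k + 1) (by omega) h1
      refine (hdiff k hk).trans ?_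
      have h3 : (1 : ℝ) / k ≤ 2 * (1 / ((k + 1 : ℕ) : ℝ)) := by
        push_cast
        rw [mul_one_div, div_le_div_iff₀ (by positivity) (by positivity)]
        linarith
      calc B * (1 / k) ≤ B * (2 * (1 / ((k + 1 : ℕ) : ℝ))) := mul_le_mul_of_nonneg_left h3 hBpos.le
        _ ≤ B * (2 * (l * E / x)) := by
          refine mul_le_mul_of_nonneg_left ?_ hBpos.le
          linarith
        _ = 2 * B * (l * E / x) := by ring
  have hEK : l * E / x * K = E ^ 2 := by
    rw [hK]; field_simp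
  have hsumd : ∑ k ∈ range N, |G (k + 1) - G k| ≤ B + 2 * B * E ^ 2 := by
    have h := TVW_sum (fun k => |G (k + 1) - G k|) (a := 2 * B * (l * E / x)) (b := B) (K := K) hK0.le
      (by positivity) hBpos.le (by
        show |G (0 + 1) - G 0| ≤ B
        rw [hG0, sub_zero]
        exact hGB _) (fun k hk _ => hdE k hk) (fun k hk hKk => (hdK k hk hKk).le) N
    refine h.trans (le_of_eq ?_)
    rw [mul_assoc (2 * B), hEK]
  have hE2 : E ≤ E ^ 2 := by nlinarith
  have hE21 : 1 ≤ E ^ 2 := by nlinarith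
  have hBE : 0 < B * E ^ 2 := by positivity
  have hBB : B ≤ B * E ^ 2 := by nlinarith
  have hMl : M + Real.log x ≤ (1 + M) * (1 + Real.log x) := by nlinarith [mul_nonneg hM.le hlog]
  have hMl1 : 1 + M + Real.log x ≤ (1 + M) * (1 + Real.log x) := by nlinarith [mul_nonneg hM.le hlog]
  -- logarithms in the support
  have hlogk : ∀ k : ℕ, 1 ≤ k → (k : ℝ) < K → Real.log ((k + 1 : ℕ) : ℝ) ≤ 1 + M + Real.log x := by
    intro k hk hkK
    have h1 : K ≤ x * E := by
      rw [hK]
      exact div_le_self (by positivity) hlR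
    have h2 : ((k + 1 : ℕ) : ℝ) ≤ 2 * (x * E) := by
      have hkR : (1 : ℝ) ≤ k := by exact_mod_cast hk
      push_cast
      linarith
    have h3 : Real.log ((k + 1 : ℕ) : ℝ) ≤ Real.log (2 * (x * E)) :=
      Real.log_le_log (by positivity) h2
    rw [Real.log_mul (by norm_num) (by positivity), Real.log_mul hx0.ne' hE0.ne', hE, Real.log_exp] at h3
    have h4 : Real.log 2 ≤ 1 := by
      have := Real.log_two_lt_d9
      linarith
    linarith
  have hlogk0 : ∀ k : ℕ, 1 ≤ k → (k : ℝ) < K → Real.log (k : ℝ) ≤ M + Real.log x := by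
    intro k hk hkK
    have hkR : (0 : ℝ) < k := by exact_mod_cast hk
    have h1 : K ≤ x * E := by
      rw [hK]
      exact div_le_self (by positivity) hlR
    have h3 : Real.log (k : ℝ) ≤ Real.log (x * E) :=
      Real.log_le_log hkR (by linarith)
    rw [Real.log_mul hx0.ne' hE0.ne', hE, Real.log_exp] at h3
    linarith
  have hlogpos : ∀ k : ℕ, 1 ≤ k → 0 ≤ Real.log (k : ℝ) := fun k _ => Real.log_natCast_nonneg k
  -- the log-weighted sequence
  set H : ℕ → ℝ := vWl W x l with hH
  have hHk : ∀ k, H k = G k * Real.log k := fun k => rfl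
  have hH0 : H 0 = 0 := by rw [hHk, hG0, zero_mul]
  have hH1 : H 1 = 0 := by rw [hHk, Nat.cast_one, Real.log_one, mul_zero]
  have hHB : ∀ k, |H k| ≤ B * (M + Real.log x) := by
    intro k
    have hpos : 0 ≤ B * (M + Real.log x) := by positivity
    rcases Nat.eq_zero_or_pos k with h | h
    · rw [h, hH0, abs_zero]; exact hpos
    · rcases lt_or_ge (k : ℝ) K with hkK | hkK
      · rw [hHk, abs_mul, abs_of_nonneg (hlogpos k h)]
        exact mul_le_mul (hGB k) (hlogk0 k h hkK) (hlogpos k h) hBpos.le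
      · rw [hHk, hbig k h hkK, zero_mul, abs_zero]; exact hpos
  have hHd : ∀ k : ℕ, 1 ≤ k → |H (k + 1) - H k| ≤
      (1 + M + Real.log x) * |G (k + 1) - G k| + (if (k : ℝ) < K then B * (l * E / x) else 0) := by
    intro k hk
    rcases lt_or_ge (k : ℝ) K with hkK | hkK
    · rw [if_pos hkK]
      have e : H (k + 1) - H k = Real.log ((k + 1 : ℕ) : ℝ) * (G (k + 1) - G k) +
          G k * (Real.log ((k + 1 : ℕ) : ℝ) - Real.log k) := by
        rw [hHk, hHk]; ring
      rw [e]
      refine (abs_add_le _ _).trans (add_le_add ?_ ?_)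
      · rw [abs_mul, abs_of_nonneg (hlogpos (k + 1) (by omega))]
        exact mul_le_mul_of_nonneg_right (hlogk k hk hkK) (abs_nonneg _)
      · rw [abs_mul, abs_of_nonneg (hlogmono k hk)]
        by_cases h0 : G k = 0
        · rw [h0, abs_zero, zero_mul]; positivity
        · exact mul_le_mul (hGB k) ((hlogstep k hk).trans (hsmall k hk h0)) (hlogmono k hk) hBpos.le
    · rw [if_neg (not_lt.mpr hkK)]
      rw [hHk, hHk, hbig k hk hkK, hbig (k + 1) (by omega) (by push_cast; linarith)]
      simp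
  have hsumdH : ∑ k ∈ range N, |H (k + 1) - H k| ≤
      (1 + M + Real.log x) * (B + 2 * B * E ^ 2) + B * E ^ 2 := by
    have h1 : ∑ k ∈ range N, |H (k + 1) - H k| ≤ ∑ k ∈ range N,
        ((1 + M + Real.log x) * |G (k + 1) - G k| +
          (if 1 ≤ k ∧ (k : ℝ) < K then B * (l * E / x) else 0)) := by
      refine sum_le_sum fun k _ => ?_
      rcases Nat.eq_zero_or_pos k with h | h
      · rw [h]
        have : |H (0 + 1) - H 0| = 0 := by rw [hH0, zero_add, hH1, sub_zero, abs_zero]
        rw [this]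
        have h2 : 0 ≤ (1 + M + Real.log x) * |G (0 + 1) - G 0| := by positivity
        have h3 : 0 ≤ (if 1 ≤ 0 ∧ ((0 : ℕ) : ℝ) < K then B * (l * E / x) else 0) := by
          split_ifs <;> positivity
        linarith
      · have h2 := hHd k h
        refine h2.trans ?_
        have e : (if 1 ≤ k ∧ (k : ℝ) < K then B * (l * E / x) else 0) =
            (if (k : ℝ) < K then B * (l * E / x) else 0) := by
          by_cases hc : (k : ℝ) < K
          · rw [if_pos hc, if_pos ⟨h, hc⟩]
          · rw [if_neg hc, if_neg (fun hh => hc hh.2)]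
        rw [e]
    refine h1.trans ?_
    rw [sum_add_distrib, ← mul_sum]
    refine add_le_add (mul_le_mul_of_nonneg_left hsumd (by positivity)) ?_
    have h := TVW_sum (fun k => if 1 ≤ k ∧ (k : ℝ) < K then B * (l * E / x) else 0)
      (a := B * (l * E / x)) (b := 0) (K := K) hK0.le (by positivity) le_rfl (by
        have : ¬ (1 ≤ 0 ∧ ((0 : ℕ) : ℝ) < K) := fun hh => by omega
        simp only [this, if_false, le_refl]) (fun k hk hkK => by
        simp only [hk, hkK, and_self, if_true, le_refl]) (fun k hk hkK => by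
        have : ¬ (1 ≤ k ∧ (k : ℝ) < K) := fun hh => absurd hh.2 (not_lt.mpr hkK)
        simp only [this, if_false, le_refl]) N
    refine h.trans (le_of_eq ?_)
    rw [zero_add, mul_assoc, hEK]
  have hsumG : ∑ k ∈ range (N + 1), |G k| ≤ B * K := by
    have h := TVW_sum (fun k => |G k|) (a := B) (b := 0) (K := K) hK0.le hBpos.le le_rfl (by
        show |G 0| ≤ 0
        rw [hG0, abs_zero]) (fun k _ _ => hGB k) (fun k hk hKk => by
        show |G k| ≤ 0
        rw [hbig k hk hKk, abs_zero]) (N + 1)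
    rw [zero_add] at h
    exact h
  have hsumH : ∑ k ∈ range (N + 1), |H k| ≤ B * (M + Real.log x) * K := by
    have h := TVW_sum (fun k => |H k|) (a := B * (M + Real.log x)) (b := 0) (K := K) hK0.le (by positivity) le_rfl (by
        show |H 0| ≤ 0
        rw [hH0, abs_zero]) (fun k _ _ => hHB k) (fun k hk hKk => by
        show |H k| ≤ 0
        rw [hHk, hbig k hk hKk, zero_mul, abs_zero]) (N + 1)
    rw [zero_add] at h
    exact h
  have hKe : K = E * (x / l) := by rw [hK]; ring
  have hxl : 0 < x / l := by positivity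
  refine ⟨?_, ?_, ?_, ?_⟩
  · unfold TVn
    rw [hG0, abs_zero, zero_add]
    have h1 := hGB N
    have h2 : 0 ≤ B * E ^ 2 * M := by positivity
    nlinarith
  · refine hsumG.trans ?_
    rw [hKe, ← mul_assoc]
    refine mul_le_mul_of_nonneg_right ?_ hxl.le
    have h2 : 0 ≤ B * E ^ 2 * M := by positivity
    nlinarith
  · unfold TVn
    rw [hH0, abs_zero, zero_add]
    have h1 := hHB N
    have h3 : (1 + M + Real.log x) * (B + 2 * B * E ^ 2) ≤ (1 + M) * (1 + Real.log x) * (3 * (B * E ^ 2)) :=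
      mul_le_mul hMl1 (by linarith) (by positivity) (by positivity)
    have h4 : B * (M + Real.log x) ≤ (1 + M) * (1 + Real.log x) * (B * E ^ 2) := by
      rw [mul_comm B]
      exact mul_le_mul hMl hBB hBpos.le (by positivity)
    have h5 : B * E ^ 2 ≤ (1 + M) * (1 + Real.log x) * (B * E ^ 2) := by
      have : 1 ≤ (1 + M) * (1 + Real.log x) := by nlinarith [mul_nonneg hM.le hlog]
      nlinarith
    calc (∑ k ∈ range N, |H (k + 1) - H k|) + |H N| ≤
        ((1 + M + Real.log x) * (B + 2 * B * E ^ 2) + B * E ^ 2) + B * (M + Real.log x) :=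
          add_le_add hsumdH h1
      _ ≤ ((1 + M) * (1 + Real.log x) * (3 * (B * E ^ 2)) + (1 + M) * (1 + Real.log x) * (B * E ^ 2)) +
          (1 + M) * (1 + Real.log x) * (B * E ^ 2) := add_le_add (add_le_add h3 h5) h4
      _ = 5 * B * (1 + M) * E ^ 2 * (1 + Real.log x) := by ring
  · refine hsumH.trans ?_
    have h4 : B * (M + Real.log x) ≤ (1 + M) * (1 + Real.log x) * B := by
      rw [mul_comm B]
      exact mul_le_mul_of_nonneg_right hMl hBpos.le
    calc B * (M + Real.log x) * K ≤ (1 + M) * (1 + Real.log x) * B * K :=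
          mul_le_mul_of_nonneg_right h4 hK0.le
      _ = (1 + M) * (1 + Real.log x) * B * (x / l) * E := by rw [hKe]; ring
      _ ≤ (1 + M) * (1 + Real.log x) * B * (x / l) * (5 * E ^ 2) := by
          refine mul_le_mul_of_nonneg_left ?_ (by positivity)
          linarith
      _ = 5 * B * (1 + M) * E ^ 2 * (x / l) * (1 + Real.log x) := by ring

end H69BG
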