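import Pool.Agent.H69.BG.Smo
import Pool.Agent.H69.BG.Bl2
import Pool.Agent.H69.BG.Tvw

/-!
# DVF: correlations of divisor sums, and of `Λ`, with `g2`

Total variation of the weights: `tvw`.

`dvf`: `corr W M x f t = ∑_e a e ∑_k W(log(e k/x)) g2(e k - t)`. For `e ≤ x^{0.34}`: `smo` with `v = G`: total `≤ A ∑_e (C x^{0.501} + C x^{0.99}/e) ≤ A x^{0.995}`. For `e > x^{0.34}`: `bl2` with `a m = a m 1[m > x^{0.34}]`,
`b k = 1[k ≥ x^{0.331}]` (for `e ≤ x^{0.51}` and `W ≠ 0`: `k ≥ x^{0.49} e^{-M}`).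

`val`: Vaughan (`H69LB.vaughan`) with `U = V = ⌊x^{0.332}⌋`, `N = NN M x`, `g n = W(log(n/x)) g2(n - t)` (zero for `n ≤ U`). First sum: `d ≤ V`: `smo` with `v = G log` (`TVn ≤ C log x`). Second: `l ≤ U V ≤ x^{0.664}`,
`|cUV| ≤ log l`: `smo` for `l ≤ x^{0.34}`, `bl2` for `l > x^{0.34}` (then `k ≥ x^{0.335}`). Third: `m > U`, `betaV V k = 0` for `k ≤ V`; `Λ(m) ≤ log m`, `|betaV V k| ≤ τ(k) ≤ x^{u/10}` (divisor bound, `Pool/Agent/H94/WeylC.lean`): `bl2`.
-/

open Finset H69LB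

namespace H69BG

private theorem Dvf_swap (N : ℕ) (G : ℕ → ℕ → ℝ) :
    ∑ n ∈ Icc 1 N, ∑ e ∈ n.divisors, G e n = ∑ e ∈ Icc 1 N, ∑ k ∈ Icc 1 (N / e), G e (e * k) := by
  rw [Finset.sum_sigma', Finset.sum_sigma']
  refine Finset.sum_nbij' (fun p => ⟨p.2, p.1 / p.2⟩) (fun p => ⟨p.1 * p.2, p.1⟩) ?_ ?_ ?_ ?_ ?_
  · rintro ⟨n, e⟩ h
    simp only [Finset.mem_sigma, Finset.mem_Icc, Nat.mem_divisors] at h ⊢
    obtain ⟨⟨h1, h2⟩, h3, h4⟩ := h
    have he : 0 < e := Nat.pos_of_dvd_of_pos h3 h1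
    have hle : e ≤ n := Nat.le_of_dvd h1 h3
    exact ⟨⟨he, hle.trans h2⟩, Nat.div_pos hle he, Nat.div_le_div_right h2⟩
  · rintro ⟨e, k⟩ h
    simp only [Finset.mem_sigma, Finset.mem_Icc, Nat.mem_divisors] at h ⊢
    obtain ⟨⟨h1, h2⟩, h3, h4⟩ := h
    have h5 : e * k ≤ N := by
      rw [mul_comm]
      exact (Nat.le_div_iff_mul_le h1).1 h4
    have h6 : 0 < e * k := Nat.mul_pos h1 h3
    exact ⟨⟨h6, h5⟩, Dvd.intro k rfl, h6.ne'⟩
  · rintro ⟨n, e⟩ h
    simp only [Finset.mem_sigma, Finset.mem_Icc, Nat.mem_divisors] at h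
    simp only [Nat.mul_div_cancel' h.2.1]
  · rintro ⟨e, k⟩ h
    simp only [Finset.mem_sigma, Finset.mem_Icc] at h
    simp only [Nat.mul_div_cancel_left k h.1.1]
  · rintro ⟨n, e⟩ h
    simp only [Finset.mem_sigma, Finset.mem_Icc, Nat.mem_divisors] at h
    simp only [Nat.mul_div_cancel' h.2.1]

private theorem Dvf_large (C : ℝ) (hC : 0 ≤ C) (M : ℝ) : ∃ x0 : ℝ, 1 ≤ x0 ∧ ∀ x, x0 ≤ x →
    x ^ (331 / 1000 : ℝ) * Real.exp M ≤ x ^ (49 / 100 : ℝ) ∧
    C * x ^ (841 / 1000 : ℝ) + C * x ^ (99 / 100 : ℝ) * (1 + Real.log x) + x ^ (1 - 14 * uu) ≤ x ^ (1 - 13 * uu) := by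
  have hu : (0 : ℝ) < uu := by norm_num [uu]
  have e1 : ∀ᶠ x : ℝ in Filter.atTop, Real.exp M ≤ x ^ (159 / 1000 : ℝ) :=
    (tendsto_rpow_atTop (by norm_num)).eventually_ge_atTop _
  have e2 : ∀ᶠ x : ℝ in Filter.atTop, 6 * C + 3 ≤ x ^ uu :=
    (tendsto_rpow_atTop hu).eventually_ge_atTop _
  have e3 : ∀ᶠ x : ℝ in Filter.atTop, Real.log x ≤ x ^ uu := by
    have := (isLittleO_log_rpow_atTop hu).bound (c := 1) one_pos
    filter_upwards [this, Filter.eventually_ge_atTop 1] with x hx hx1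
    have h1 : 0 ≤ Real.log x := Real.log_nonneg hx1
    have h2 : 0 ≤ x ^ uu := by positivity
    simpa [abs_of_nonneg h1, abs_of_nonneg h2] using hx
  obtain ⟨x0, h0⟩ := Filter.eventually_atTop.1 (e1.and (e2.and e3))
  refine ⟨max x0 1, le_max_right _ _, fun x hx => ?_⟩
  obtain ⟨h1, h2, h3⟩ := h0 x ((le_max_left _ _).trans hx)
  have hx1 : 1 ≤ x := (le_max_right _ _).trans hx
  have hx0 : 0 < x := by linarith
  constructor
  · calc x ^ (331 / 1000 : ℝ) * Real.exp M ≤ x ^ (331 / 1000 : ℝ) * x ^ (159 / 1000 : ℝ) :=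
        mul_le_mul_of_nonneg_left h1 (by positivity)
      _ = x ^ (49 / 100 : ℝ) := by rw [← Real.rpow_add hx0]; norm_num
  · have hp : 0 ≤ x ^ uu := by positivity
    have k1 : C * x ^ (841 / 1000 : ℝ) ≤ x ^ (1 - 13 * uu) / 3 := by
      have : x ^ uu * x ^ (841 / 1000 : ℝ) ≤ x ^ (1 - 13 * uu) := by
        rw [← Real.rpow_add hx0]
        exact Real.rpow_le_rpow_of_exponent_le hx1 (by norm_num [uu])
      have h4 : 3 * C ≤ x ^ uu := by linarith
      have := mul_le_mul_of_nonneg_right h4 (by positivity : 0 ≤ x ^ (841 / 1000 : ℝ))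
      linarith
    have k2 : C * x ^ (99 / 100 : ℝ) * (1 + Real.log x) ≤ x ^ (1 - 13 * uu) / 3 := by
      have h5 : x ^ uu * x ^ (99 / 100 : ℝ) * x ^ uu ≤ x ^ (1 - 13 * uu) := by
        rw [← Real.rpow_add hx0, ← Real.rpow_add hx0]
        exact Real.rpow_le_rpow_of_exponent_le hx1 (by norm_num [uu])
      have h6 : 1 + Real.log x ≤ 2 * x ^ uu := by linarith
      have h7 : C * x ^ (99 / 100 : ℝ) * (1 + Real.log x) ≤ C * x ^ (99 / 100 : ℝ) * (2 * x ^ uu) :=
        mul_le_mul_of_nonneg_left h6 (by positivity)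
      have h8 : 6 * C ≤ x ^ uu := by linarith
      have h9 := mul_le_mul_of_nonneg_right h8 (by positivity : 0 ≤ x ^ (99 / 100 : ℝ) * x ^ uu)
      nlinarith
    have k3 : x ^ (1 - 14 * uu) ≤ x ^ (1 - 13 * uu) / 3 := by
      have h5 : x ^ uu * x ^ (1 - 14 * uu) = x ^ (1 - 13 * uu) := by
        rw [← Real.rpow_add hx0]
        congr 1
        ring
      have h6 : 3 ≤ x ^ uu := by linarith
      have h7 := mul_le_mul_of_nonneg_right h6 (by positivity : 0 ≤ x ^ (1 - 14 * uu))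
      linarith
    linarith

theorem dvf {M : ℝ} (hM : 0 < M) {W : ℝ → ℝ} (hW : WS M W) : ∃ x0 : ℝ, ∀ x, x0 ≤ x → ∀ t : ℤ, t ≠ 0 →
    (|t| : ℝ) ≤ x ^ (2 * uu) → ∀ A : ℝ, 0 ≤ A → ∀ a : ℕ → ℝ, (∀ e, |a e| ≤ A) →
    (∀ e : ℕ, x ^ (51 / 100 : ℝ) < e → a e = 0) → ∀ f : ℕ → ℝ, (∀ n, 1 ≤ n → f n = ∑ e ∈ n.divisors, a e) →
      |corr W M x f t| ≤ A * x ^ (1 - 13 * uu) := by
  obtain ⟨xs, hs⟩ := smo
  obtain ⟨xb, hb⟩ := bl2 hM hW
  obtain ⟨C, hC0, hC⟩ := tvw hM hW
  obtain ⟨xl, hxl1, hl⟩ := Dvf_large C hC0 M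
  refine ⟨max xs (max xb xl), fun x hx t ht0 ht A hA a ha ha0 f hf => ?_⟩
  have hxs : xs ≤ x := (le_max_left _ _).trans hx
  have hxb : xb ≤ x := ((le_max_left _ _).trans (le_max_right _ _)).trans hx
  have hxl : xl ≤ x := ((le_max_right _ _).trans (le_max_right _ _)).trans hx
  have hx1 : 1 ≤ x := hxl1.trans hxl
  have hx0 : 0 < x := by linarith
  obtain ⟨hl1, hl2⟩ := hl x hxl
  set N := NN M x with hN
  set E : ℝ := x ^ (34 / 100 : ℝ) with hE
  have hE0 : 0 < E := by positivity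
  have hEx : E ≤ x := by
    have := Real.rpow_le_rpow_of_exponent_le hx1 (by norm_num : (34 / 100 : ℝ) ≤ 1)
    rwa [Real.rpow_one] at this
  have hE1 : 1 ≤ E := Real.one_le_rpow hx1 (by norm_num)
  -- exchange
  set T : ℕ → ℕ → ℝ := fun e k => W (Real.log ((e * k : ℕ) / x)) * g2 x (e * k - t) with hT
  have h1 : corr W M x f t = ∑ e ∈ Icc 1 N, ∑ k ∈ Icc 1 (N / e), a e * T e k := by
    have := Dvf_swap N (fun e n => a e * (W (Real.log ((n : ℕ) / x)) * g2 x (n - t)))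
    unfold corr
    rw [← hN]
    refine Eq.trans ?_ (this.trans ?_)
    · refine Finset.sum_congr rfl fun n hn => ?_
      rw [hf n (Finset.mem_Icc.1 hn).1, ← Finset.sum_mul]
      ring
    · refine Finset.sum_congr rfl fun e _ => Finset.sum_congr rfl fun k _ => ?_
      simp only [hT]
      push_cast
      rfl
  -- split
  have h2 : ∑ e ∈ Icc 1 N, ∑ k ∈ Icc 1 (N / e), a e * T e k
      = ∑ e ∈ (Icc 1 N).filter (fun e : ℕ => (e : ℝ) ≤ E), a e * ∑ k ∈ Icc 1 (N / e), T e k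
        + ∑ e ∈ Icc 1 N, ∑ k ∈ Icc 1 (N / e), (if (e : ℝ) ≤ E then 0 else a e) * T e k := by
    rw [Finset.sum_filter, ← Finset.sum_add_distrib]
    refine Finset.sum_congr rfl fun e _ => ?_
    by_cases he : (e : ℝ) ≤ E
    · rw [if_pos he]
      simp only [if_pos he, zero_mul, Finset.sum_const_zero, add_zero, Finset.mul_sum]
    · rw [if_neg he]
      simp only [if_neg he, zero_add]
  -- the small ones
  have h3 : |∑ e ∈ (Icc 1 N).filter (fun e : ℕ => (e : ℝ) ≤ E), a e * ∑ k ∈ Icc 1 (N / e), T e k|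
      ≤ A * (C * x ^ (841 / 1000 : ℝ) + C * x ^ (99 / 100 : ℝ) * (1 + Real.log x)) := by
    have h31 : ∀ e ∈ (Icc 1 N).filter (fun e : ℕ => (e : ℝ) ≤ E), |a e * ∑ k ∈ Icc 1 (N / e), T e k|
        ≤ A * (C * x ^ (501 / 1000 : ℝ) + C * x ^ (99 / 100 : ℝ) * (e : ℝ)⁻¹) := by
      intro e he
      rw [Finset.mem_filter, Finset.mem_Icc] at he
      obtain ⟨⟨he1, _⟩, heE⟩ := he
      have he0 : (0 : ℝ) < e := by exact_mod_cast he1
      have hex : (e : ℝ) ≤ x := heE.trans hEx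
      rw [abs_mul]
      refine mul_le_mul (ha e) ?_ (abs_nonneg _) hA
      have e1 : ∑ k ∈ Icc 1 (N / e), T e k = ∑ k ∈ range (N / e + 1), vW W x e k * g2 x (e * k - t) := by
        rw [Finset.sum_range_succ', vW, if_pos rfl, zero_mul, add_zero, Finset.range_eq_Ico,
          Finset.sum_Ico_add' (fun k => vW W x e k * g2 x (e * k - t)) 0 (N / e) 1]
        refine Finset.sum_congr (by ext; simp [Nat.lt_succ_iff]) fun k hk => ?_
        have hk1 : k ≠ 0 := by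
          have := (Finset.mem_Ico.1 hk).1
          omega
        simp only [hT, vW, if_neg hk1]
      rw [e1]
      have e2 := hs x hxs t ht0 ht e he1 hex (N / e) (vW W x e)
      obtain ⟨c1, c2, _, _⟩ := hC x hx1 e he1 hex (N / e)
      refine e2.trans (add_le_add (mul_le_mul_of_nonneg_right c1 (by positivity)) ?_)
      have e3 : |∑ k ∈ range (N / e + 1), vW W x e k| ≤ C * (x / e) :=
        (Finset.abs_sum_le_sum_abs _ _).trans c2
      calc x ^ (-(1 / 100) : ℝ) * |∑ k ∈ range (N / e + 1), vW W x e k|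
          ≤ x ^ (-(1 / 100) : ℝ) * (C * (x / e)) := mul_le_mul_of_nonneg_left e3 (by positivity)
        _ = C * (x ^ (-(1 / 100) : ℝ) * x) * (e : ℝ)⁻¹ := by ring
        _ = C * x ^ (99 / 100 : ℝ) * (e : ℝ)⁻¹ := by
            congr 2
            nth_rewrite 2 [← Real.rpow_one x]
            rw [← Real.rpow_add hx0]
            norm_num
    have h32 : ∑ e ∈ (Icc 1 N).filter (fun e : ℕ => (e : ℝ) ≤ E), (1 : ℝ) ≤ E := by
      have : (Icc 1 N).filter (fun e : ℕ => (e : ℝ) ≤ E) ⊆ Icc 1 ⌊E⌋₊ := by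
        intro e he
        rw [Finset.mem_filter, Finset.mem_Icc] at he
        exact Finset.mem_Icc.2 ⟨he.1.1, Nat.le_floor he.2⟩
      rw [Finset.sum_const, nsmul_eq_mul, mul_one]
      calc (((Icc 1 N).filter (fun e : ℕ => (e : ℝ) ≤ E)).card : ℝ) ≤ ((Icc 1 ⌊E⌋₊).card : ℝ) := by
            exact_mod_cast Finset.card_le_card this
        _ ≤ E := by
            rw [Nat.card_Icc, Nat.add_sub_cancel]
            exact Nat.floor_le hE0.le
    have h33 : ∑ e ∈ (Icc 1 N).filter (fun e : ℕ => (e : ℝ) ≤ E), (e : ℝ)⁻¹ ≤ 1 + Real.log x := by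
      have : (Icc 1 N).filter (fun e : ℕ => (e : ℝ) ≤ E) ⊆ Icc 1 ⌊E⌋₊ := by
        intro e he
        rw [Finset.mem_filter, Finset.mem_Icc] at he
        exact Finset.mem_Icc.2 ⟨he.1.1, Nat.le_floor he.2⟩
      calc ∑ e ∈ (Icc 1 N).filter (fun e : ℕ => (e : ℝ) ≤ E), (e : ℝ)⁻¹ ≤ ∑ e ∈ Icc 1 ⌊E⌋₊, (e : ℝ)⁻¹ :=
            Finset.sum_le_sum_of_subset_of_nonneg this fun e _ _ => by positivity
        _ = ((harmonic ⌊E⌋₊ : ℚ) : ℝ) := by
            rw [harmonic_eq_sum_Icc]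
            push_cast
            rfl
        _ ≤ 1 + Real.log E := harmonic_floor_le_one_add_log E hE1
        _ ≤ 1 + Real.log x := by
            have := Real.log_le_log hE0 hEx
            linarith
    calc |∑ e ∈ (Icc 1 N).filter (fun e : ℕ => (e : ℝ) ≤ E), a e * ∑ k ∈ Icc 1 (N / e), T e k|
        ≤ ∑ e ∈ (Icc 1 N).filter (fun e : ℕ => (e : ℝ) ≤ E), |a e * ∑ k ∈ Icc 1 (N / e), T e k| :=
          Finset.abs_sum_le_sum_abs _ _
      _ ≤ ∑ e ∈ (Icc 1 N).filter (fun e : ℕ => (e : ℝ) ≤ E),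
            A * (C * x ^ (501 / 1000 : ℝ) + C * x ^ (99 / 100 : ℝ) * (e : ℝ)⁻¹) := Finset.sum_le_sum h31
      _ = A * (C * x ^ (501 / 1000 : ℝ) * (∑ e ∈ (Icc 1 N).filter (fun e : ℕ => (e : ℝ) ≤ E), (1 : ℝ))
            + C * x ^ (99 / 100 : ℝ) * ∑ e ∈ (Icc 1 N).filter (fun e : ℕ => (e : ℝ) ≤ E), (e : ℝ)⁻¹) := by
          rw [← Finset.mul_sum, Finset.sum_add_distrib]
          congr 2
          · rw [Finset.mul_sum]
            simp only [mul_one]
          · rw [Finset.mul_sum]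
      _ ≤ A * (C * x ^ (501 / 1000 : ℝ) * E + C * x ^ (99 / 100 : ℝ) * (1 + Real.log x)) := by
          refine mul_le_mul_of_nonneg_left (add_le_add ?_ ?_) hA
          · exact mul_le_mul_of_nonneg_left h32 (by positivity)
          · exact mul_le_mul_of_nonneg_left h33 (by positivity)
      _ = A * (C * x ^ (841 / 1000 : ℝ) + C * x ^ (99 / 100 : ℝ) * (1 + Real.log x)) := by
          have : x ^ (501 / 1000 : ℝ) * E = x ^ (841 / 1000 : ℝ) := by
            rw [hE, ← Real.rpow_add hx0]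
            norm_num
          rw [mul_assoc C, this]
  -- the large ones
  have h4 : |∑ e ∈ Icc 1 N, ∑ k ∈ Icc 1 (N / e), (if (e : ℝ) ≤ E then 0 else a e) * T e k|
      ≤ A * x ^ (1 - 14 * uu) := by
    have h41 := hb x hxb t ht0 ht A 1 hA zero_le_one
      (fun e => ((if (e : ℝ) ≤ E then 0 else a e : ℝ) : ℂ))
      (fun k => if x ^ (331 / 1000 : ℝ) ≤ k then 1 else 0) ?_ ?_ ?_ ?_
    · rw [mul_one] at h41
      refine le_trans (le_of_eq ?_) h41
      rw [← Real.norm_eq_abs, ← Complex.norm_real]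
      congr 1
      push_cast
      rw [← hN]
      refine Finset.sum_congr rfl fun e he => Finset.sum_congr rfl fun k hk => ?_
      rw [Finset.mem_Icc] at he hk
      simp only [hT]
      by_cases he' : (e : ℝ) ≤ E
      · simp [he']
      by_cases he2 : x ^ (51 / 100 : ℝ) < e
      · simp [ha0 e he2]
      rw [not_lt] at he2
      by_cases hk2 : x ^ (331 / 1000 : ℝ) ≤ k
      · rw [if_pos hk2]
        push_cast
        ring
      rw [not_le] at hk2
      have hW0 : W (Real.log ((e * k : ℕ) / x)) = 0 := by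
        apply hW.zero
        have hek : (0 : ℝ) < ((e * k : ℕ) : ℝ) := by
          exact_mod_cast Nat.mul_pos he.1 hk.1
        have h5 : ((e * k : ℕ) : ℝ) / x ≤ Real.exp (-M) := by
          rw [div_le_iff₀ hx0, Real.exp_neg]
          push_cast
          have h6 : (e : ℝ) * k ≤ x ^ (51 / 100 : ℝ) * x ^ (331 / 1000 : ℝ) :=
            mul_le_mul he2 hk2.le (Nat.cast_nonneg k) (by positivity)
          have h7 : x ^ (51 / 100 : ℝ) * x ^ (49 / 100 : ℝ) = x := by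
            rw [← Real.rpow_add hx0]
            norm_num
          rw [inv_mul_eq_div, le_div_iff₀ (Real.exp_pos M)]
          calc (e : ℝ) * k * Real.exp M ≤ x ^ (51 / 100 : ℝ) * x ^ (331 / 1000 : ℝ) * Real.exp M :=
                mul_le_mul_of_nonneg_right h6 (Real.exp_pos M).le
            _ = x ^ (51 / 100 : ℝ) * (x ^ (331 / 1000 : ℝ) * Real.exp M) := by ring
            _ ≤ x ^ (51 / 100 : ℝ) * x ^ (49 / 100 : ℝ) := mul_le_mul_of_nonneg_left hl1 (by positivity)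
            _ = x := h7
        have h8 : Real.log (((e * k : ℕ) : ℝ) / x) ≤ -M := by
          rw [Real.log_le_iff_le_exp (by positivity)]
          exact h5
        rw [abs_of_nonpos (by linarith)]
        linarith
      have hW1 : W (Real.log ((e : ℝ) * k / x)) = 0 := by
        rw [← Nat.cast_mul]
        exact hW0
      simp [hW1]
    · intro e
      rw [Complex.norm_real, Real.norm_eq_abs]
      split_ifs
      · simpa using hA
      · exact ha e
    · intro k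
      split_ifs <;> simp
    · intro e he
      have : ¬ (e : ℝ) ≤ E := by
        intro h
        apply he
        simp [h]
      rw [not_le] at this
      exact (Real.rpow_le_rpow_of_exponent_le hx1 (by norm_num)).trans this.le
    · intro k hk
      by_contra h
      apply hk
      rw [if_neg h]
  rw [h1, h2]
  calc _ ≤ A * (C * x ^ (841 / 1000 : ℝ) + C * x ^ (99 / 100 : ℝ) * (1 + Real.log x)) + A * x ^ (1 - 14 * uu) :=
        (abs_add_le _ _).trans (add_le_add h3 h4)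
    _ = A * (C * x ^ (841 / 1000 : ℝ) + C * x ^ (99 / 100 : ℝ) * (1 + Real.log x) + x ^ (1 - 14 * uu)) := by ring
    _ ≤ A * x ^ (1 - 13 * uu) := mul_le_mul_of_nonneg_left hl2 hA

end H69BG
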