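import Pool.Agent.H69.BG.Defs

/-!
# SSA: the sets `SI P I` of products

All proofs: `SI P (insert i I)` is the set of the products `p s`, `p ∈ P i`, `s ∈ SI P I` (`i ∉ I`), and `(p, s) ↦ p s` is injective there: the
prime factors of `s ∈ SI P I` lie in `⋃_{j ∈ I} P j` (product of one prime from each `P j`), which is disjoint from `P i`; `p` is the only prime
factor of `p s` in `P i`. Then induct on `I` (resp. on `I'` in `sum_SI_union`).
* `card_dvd`: `∏_{i ∈ I} ω_i(n)` counts the choices of `p_i ∣ n`; for distinct primes, all `p_i ∣ n` iff the product divides `n`.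
* `gI_eq`: `Finset.prod_sub`-type expansion: `∏ (κ_i - ω_i) = ∑_{I' ⊆ I} (-1)^{|I'|} ∏_{I \ I'} κ_i ∏_{I'} ω_i` (`Finset.prod_add`).
-/

open Finset

namespace H69BG

private theorem Ssa_mem {P : ℕ → Finset ℕ} {I : Finset ℕ} {s : ℕ} :
    s ∈ SI P I ↔ ∃ f : ℕ → ℕ, (∀ i ∈ I, f i ∈ P i) ∧ ∏ i ∈ I, f i = s := by
  unfold SI
  rw [Finset.mem_image]
  constructor
  · rintro ⟨f, hf, rfl⟩
    rw [Finset.mem_pi] at hf
    refine ⟨fun i => if h : i ∈ I then f i h else 0, fun i hi => ?_, ?_⟩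
    · simp only [dif_pos hi]
      exact hf i hi
    · rw [← Finset.prod_attach]
      refine Finset.prod_congr rfl fun i _ => ?_
      simp only [dif_pos i.2]
  · rintro ⟨f, hf, rfl⟩
    refine ⟨fun i _ => f i, ?_, ?_⟩
    · rw [Finset.mem_pi]
      exact fun i hi => hf i hi
    · exact Finset.prod_attach I f

private theorem Ssa_prime_dvd {P : ℕ → Finset ℕ} {z : ℕ} (hS : Sy P z) {I : Finset ℕ} {f : ℕ → ℕ}
    (hf : ∀ i ∈ I, f i ∈ P i) {p : ℕ} (hp : p.Prime) (h : p ∣ ∏ i ∈ I, f i) : ∃ i ∈ I, p = f i := by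
  obtain ⟨i, hi, h1⟩ := (hp.prime.dvd_finsetProd_iff f).1 h
  exact ⟨i, hi, (Nat.prime_dvd_prime_iff_eq hp (hS.prime i _ (hf i hi))).1 h1⟩

private theorem Ssa_ne {P : ℕ → Finset ℕ} {z : ℕ} (hS : Sy P z) {i j : ℕ} (hij : i ≠ j) {p q : ℕ}
    (hp : p ∈ P i) (hq : q ∈ P j) : p ≠ q := by
  rintro rfl
  exact Finset.disjoint_left.1 (hS.disj i j hij) hp hq

private theorem Ssa_pos {P : ℕ → Finset ℕ} {z : ℕ} (hS : Sy P z) {I : Finset ℕ} {s : ℕ}
    (hs : s ∈ SI P I) : 0 < s := by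
  obtain ⟨f, hf, rfl⟩ := Ssa_mem.1 hs
  exact Finset.prod_pos fun i hi => (hS.prime i _ (hf i hi)).pos

private theorem Ssa_cop {P : ℕ → Finset ℕ} {z : ℕ} (hS : Sy P z) {I I' : Finset ℕ}
    (h : Disjoint I I') {s s' : ℕ} (hs : s ∈ SI P I) (hs' : s' ∈ SI P I') : Nat.Coprime s s' := by
  obtain ⟨f, hf, rfl⟩ := Ssa_mem.1 hs
  obtain ⟨g, hg, rfl⟩ := Ssa_mem.1 hs'
  refine Nat.Coprime.prod_left fun i hi => Nat.Coprime.prod_right fun j hj => ?_
  have hij : i ≠ j := by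
    rintro rfl
    exact Finset.disjoint_left.1 h hi hj
  exact (Nat.coprime_primes (hS.prime i _ (hf i hi)) (hS.prime j _ (hg j hj))).2
    (Ssa_ne hS hij (hf i hi) (hg j hj))

private theorem Ssa_union {P : ℕ → Finset ℕ} {I I' : Finset ℕ} (h : Disjoint I I') :
    SI P (I ∪ I') = (SI P I ×ˢ SI P I').image (fun x => x.1 * x.2) := by
  ext s
  rw [Finset.mem_image, Ssa_mem]
  constructor
  · rintro ⟨f, hf, rfl⟩
    refine ⟨(∏ i ∈ I, f i, ∏ i ∈ I', f i), ?_, (Finset.prod_union h).symm⟩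
    rw [Finset.mem_product]
    exact ⟨Ssa_mem.2 ⟨f, fun i hi => hf i (Finset.mem_union_left _ hi), rfl⟩,
      Ssa_mem.2 ⟨f, fun i hi => hf i (Finset.mem_union_right _ hi), rfl⟩⟩
  · rintro ⟨⟨a, b⟩, hab, rfl⟩
    rw [Finset.mem_product] at hab
    obtain ⟨f, hf, hfa⟩ := Ssa_mem.1 hab.1
    obtain ⟨g, hg, hgb⟩ := Ssa_mem.1 hab.2
    refine ⟨fun i => if i ∈ I then f i else g i, fun i hi => ?_, ?_⟩
    · by_cases hI : i ∈ I
      · simp only [if_pos hI]
        exact hf i hI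
      · simp only [if_neg hI]
        exact hg i ((Finset.mem_union.1 hi).resolve_left hI)
    · rw [Finset.prod_union h]
      show _ = a * b
      simp only at hfa hgb
      rw [← hfa, ← hgb]
      congr 1
      · exact Finset.prod_congr rfl fun i hi => if_pos hi
      · refine Finset.prod_congr rfl fun i hi => if_neg fun hI => ?_
        exact Finset.disjoint_left.1 h hI hi

private theorem Ssa_sum {P : ℕ → Finset ℕ} {z : ℕ} (hS : Sy P z) {I I' : Finset ℕ}
    (h : Disjoint I I') {β : Type*} [AddCommMonoid β] (F : ℕ → β) :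
    ∑ s ∈ SI P (I ∪ I'), F s = ∑ s ∈ SI P I, ∑ s' ∈ SI P I', F (s * s') := by
  rw [Ssa_union h, Finset.sum_image, Finset.sum_product]
  rintro ⟨a, b⟩ hab ⟨c, d⟩ hcd heq
  rw [Finset.mem_coe, Finset.mem_product] at hab hcd
  simp only at hab hcd heq
  have h1 : a ∣ c := by
    have h2 : a ∣ c * d := Dvd.intro _ heq
    exact (Ssa_cop hS h hab.1 hcd.2).dvd_of_dvd_mul_right h2
  have h3 : c ∣ a := by
    have h2 : c ∣ a * b := Dvd.intro _ heq.symm
    exact (Ssa_cop hS h hcd.1 hab.2).dvd_of_dvd_mul_right h2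
  have h4 : a = c := Nat.dvd_antisymm h1 h3
  subst h4
  have h5 : b = d := Nat.eq_of_mul_eq_mul_left (Ssa_pos hS hab.1) heq
  rw [h5]

private theorem Ssa_empty (P : ℕ → Finset ℕ) : SI P ∅ = {1} := by
  ext s
  rw [Ssa_mem, Finset.mem_singleton]
  constructor
  · rintro ⟨f, -, rfl⟩
    exact Finset.prod_empty
  · rintro rfl
    exact ⟨fun _ => 0, fun i hi => absurd hi (Finset.notMem_empty i), Finset.prod_empty⟩

private theorem Ssa_singleton (P : ℕ → Finset ℕ) (i : ℕ) : SI P {i} = P i := by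
  ext s
  rw [Ssa_mem]
  constructor
  · rintro ⟨f, hf, rfl⟩
    rw [Finset.prod_singleton]
    exact hf i (Finset.mem_singleton_self i)
  · intro h
    refine ⟨fun _ => s, fun j hj => ?_, Finset.prod_singleton _ _⟩
    rw [Finset.mem_singleton.1 hj]
    exact h

private theorem Ssa_prod {P : ℕ → Finset ℕ} {z : ℕ} (hS : Sy P z) (I : Finset ℕ) {β : Type*}
    [CommSemiring β] (F : ℕ → β) (h1 : F 1 = 1)
    (hF : ∀ a b, Nat.Coprime a b → F (a * b) = F a * F b) :
    ∑ s ∈ SI P I, F s = ∏ i ∈ I, ∑ p ∈ P i, F p := by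
  induction I using Finset.induction_on with
  | empty => rw [Ssa_empty, Finset.sum_singleton, Finset.prod_empty, h1]
  | insert i I hi ih =>
    have hd : Disjoint {i} I := Finset.disjoint_singleton_left.2 hi
    rw [Finset.insert_eq, Ssa_sum hS hd, Finset.prod_union hd, Finset.prod_singleton, ← ih,
      Ssa_singleton, Finset.sum_mul]
    refine Finset.sum_congr rfl fun p hp => ?_
    rw [Finset.mul_sum]
    refine Finset.sum_congr rfl fun s hs => hF p s ?_
    refine Ssa_cop hS hd ?_ hs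
    rw [Ssa_singleton]
    exact hp

theorem SI_empty (P : ℕ → Finset ℕ) : SI P ∅ = {1} := by
  exact Ssa_empty P

theorem SI_singleton (P : ℕ → Finset ℕ) (i : ℕ) : SI P {i} = P i := by
  exact Ssa_singleton P i

theorem SI_squarefree {P : ℕ → Finset ℕ} {z : ℕ} (hS : Sy P z) {I : Finset ℕ} {s : ℕ} (hs : s ∈ SI P I) :
    Squarefree s := by
  induction I using Finset.induction_on generalizing s with
  | empty =>
    rw [Ssa_empty, Finset.mem_singleton] at hs
    rw [hs]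
    exact squarefree_one
  | insert i I hi ih =>
    have hd : Disjoint {i} I := Finset.disjoint_singleton_left.2 hi
    rw [Finset.insert_eq, Ssa_union hd, Finset.mem_image] at hs
    obtain ⟨⟨a, b⟩, hab, rfl⟩ := hs
    rw [Finset.mem_product] at hab
    have hc := Ssa_cop hS hd hab.1 hab.2
    have ha := hab.1
    rw [Ssa_singleton] at ha
    exact (Nat.squarefree_mul hc).2 ⟨(hS.prime i _ ha).squarefree, ih hab.2⟩

/-- prime factors: one in each `P i`, `i ∈ I`, and no others -/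
theorem SI_primeFactors {P : ℕ → Finset ℕ} {z : ℕ} (hS : Sy P z) {I : Finset ℕ} {s : ℕ} (hs : s ∈ SI P I) :
    (∀ p : ℕ, p.Prime → p ∣ s → ∃ i ∈ I, p ∈ P i) ∧ (∀ i ∈ I, ∃ p ∈ P i, p ∣ s ∧ ∀ q ∈ P i, q ∣ s → q = p) ∧
      s.primeFactors.card = I.card := by
  obtain ⟨f, hf, rfl⟩ := Ssa_mem.1 hs
  have hinj : Set.InjOn f I := by
    intro i hi j hj hij
    by_contra hne
    exact Ssa_ne hS hne (hf i hi) (hf j hj) hij
  refine ⟨fun p hp h => ?_, fun i hi => ?_, ?_⟩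
  · obtain ⟨i, hi, rfl⟩ := Ssa_prime_dvd hS hf hp h
    exact ⟨i, hi, hf i hi⟩
  · refine ⟨f i, hf i hi, Finset.dvd_prod_of_mem f hi, fun q hq hqd => ?_⟩
    obtain ⟨j, hj, rfl⟩ := Ssa_prime_dvd hS hf (hS.prime i q hq) hqd
    by_contra hne
    have hij : i ≠ j := by
      rintro rfl
      exact hne rfl
    exact Ssa_ne hS hij hq (hf j hj) rfl
  · have h1 : (∏ i ∈ I, f i).primeFactors = I.image f := by
      ext p
      rw [Nat.mem_primeFactors, Finset.mem_image]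
      constructor
      · rintro ⟨hp, h, -⟩
        obtain ⟨i, hi, rfl⟩ := Ssa_prime_dvd hS hf hp h
        exact ⟨i, hi, rfl⟩
      · rintro ⟨i, hi, rfl⟩
        exact ⟨hS.prime i _ (hf i hi), Finset.dvd_prod_of_mem f hi, (Ssa_pos hS hs).ne'⟩
    rw [h1, Finset.card_image_of_injOn hinj]

theorem SI_coprime {P : ℕ → Finset ℕ} {z : ℕ} (hS : Sy P z) {I I' : Finset ℕ} (h : Disjoint I I') {s s' : ℕ}
    (hs : s ∈ SI P I) (hs' : s' ∈ SI P I') : Nat.Coprime s s' := by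
  exact Ssa_cop hS h hs hs'

/-- every element of `SI P I` is coprime to every positive integer `n ≤ z` -/
theorem SI_coprime_small {P : ℕ → Finset ℕ} {z : ℕ} (hS : Sy P z) {I : Finset ℕ} {s : ℕ} (hs : s ∈ SI P I) {n : ℕ}
    (hn : 1 ≤ n) (hnz : n ≤ z) : Nat.Coprime s n := by
  obtain ⟨f, hf, rfl⟩ := Ssa_mem.1 hs
  refine Nat.Coprime.prod_left fun i hi => ?_
  rw [(hS.prime i _ (hf i hi)).coprime_iff_not_dvd]
  intro h
  have h1 := Nat.le_of_dvd (by omega) h
  have h2 := hS.gt i _ (hf i hi)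
  omega

theorem sum_SI_union {P : ℕ → Finset ℕ} {z : ℕ} (hS : Sy P z) {I I' : Finset ℕ} (h : Disjoint I I')
    {β : Type*} [AddCommMonoid β] (F : ℕ → β) :
    ∑ s ∈ SI P (I ∪ I'), F s = ∑ s ∈ SI P I, ∑ s' ∈ SI P I', F (s * s') := by
  exact Ssa_sum hS h F

theorem card_SI {P : ℕ → Finset ℕ} {z : ℕ} (hS : Sy P z) (I : Finset ℕ) :
    (SI P I).card = ∏ i ∈ I, (P i).card := by
  have h := Ssa_prod hS I (fun _ => (1 : ℕ)) rfl fun _ _ _ => rfl
  rw [Finset.sum_const, smul_eq_mul, mul_one] at h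
  rw [h]
  refine Finset.prod_congr rfl fun i _ => ?_
  rw [Finset.sum_const, smul_eq_mul, mul_one]

theorem sum_inv_SI {P : ℕ → Finset ℕ} {z : ℕ} (hS : Sy P z) (I : Finset ℕ) :
    ∑ s ∈ SI P I, (1 / (s : ℝ)) = kI P I := by
  refine Ssa_prod hS I (fun s : ℕ => 1 / (s : ℝ)) ?_ fun a b _ => ?_
  · rw [Nat.cast_one, div_one]
  · show 1 / ((a * b : ℕ) : ℝ) = 1 / (a : ℝ) * (1 / (b : ℝ))
    rw [Nat.cast_mul, one_div_mul_one_div]

theorem card_dvd {P : ℕ → Finset ℕ} {z : ℕ} (hS : Sy P z) (I : Finset ℕ) (n : ℤ) :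
    (((SI P I).filter (fun s : ℕ => (s : ℤ) ∣ n)).card : ℝ) = ∏ i ∈ I, om P i n := by
  classical
  have h := Ssa_prod hS I (fun s : ℕ => if (s : ℤ) ∣ n then (1 : ℝ) else 0) (if_pos (one_dvd n))
    fun a b hab => by
      have h1 : ((a * b : ℕ) : ℤ) ∣ n ↔ (a : ℤ) ∣ n ∧ (b : ℤ) ∣ n := by
        rw [Nat.cast_mul]
        constructor
        · intro h
          exact ⟨(Dvd.intro _ rfl).trans h, (Dvd.intro_left _ rfl).trans h⟩
        · rintro ⟨h1, h2⟩
          exact (Nat.isCoprime_iff_coprime.2 hab).mul_dvd h1 h2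
      simp only [h1]
      by_cases h2 : (a : ℤ) ∣ n
      · by_cases h3 : (b : ℤ) ∣ n
        · rw [if_pos ⟨h2, h3⟩, if_pos h2, if_pos h3, mul_one]
        · rw [if_neg fun h => h3 h.2, if_neg h3, mul_zero]
      · rw [if_neg fun h => h2 h.1, if_neg h2, zero_mul]
  have e : ∀ T : Finset ℕ, ((T.filter (fun s : ℕ => (s : ℤ) ∣ n)).card : ℝ) =
      ∑ s ∈ T, if (s : ℤ) ∣ n then (1 : ℝ) else 0 := by
    intro T
    rw [Finset.card_filter, Nat.cast_sum]
    refine Finset.sum_congr rfl fun s _ => ?_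
    by_cases h2 : (s : ℤ) ∣ n
    · rw [if_pos h2, if_pos h2, Nat.cast_one]
    · rw [if_neg h2, if_neg h2, Nat.cast_zero]
  rw [e, h]
  refine Finset.prod_congr rfl fun i _ => ?_
  unfold om
  rw [e]

theorem gI_eq {P : ℕ → Finset ℕ} {z : ℕ} (hS : Sy P z) (I : Finset ℕ) (n : ℤ) :
    gI P I n = ∑ I' ∈ I.powerset, (-1) ^ I'.card * kI P (I \ I') *
      (((SI P I').filter (fun s : ℕ => (s : ℤ) ∣ n)).card : ℝ) := by
  unfold gI
  have h1 : ∏ i ∈ I, (kap P i - om P i n) = ∏ i ∈ I, (-1 * om P i n + kap P i) :=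
    Finset.prod_congr rfl fun i _ => by ring
  rw [h1, Finset.prod_add]
  refine Finset.sum_congr rfl fun I' _ => ?_
  rw [Finset.prod_mul_distrib, Finset.prod_const, card_dvd hS]
  unfold kI
  ring

/-- `|κ_i - ω_i| ≤ Cd` -/
theorem abs_gI_le {P : ℕ → Finset ℕ} {z N Cd : ℕ} (hS : Sy P z) (hB : SyB P N Cd) {I : Finset ℕ} (hI : I ⊆ range 9)
    {n : ℤ} (hn : n ≠ 0) (hnN : |n| ≤ N) : |gI P I n| ≤ (Cd : ℝ) ^ 9 := by
  have hC : (1 : ℝ) ≤ Cd := by exact_mod_cast hB.one_le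
  have h1 : ∀ i ∈ I, |kap P i - om P i n| ≤ (Cd : ℝ) := by
    intro i hi
    have hi9 : i < 9 := Finset.mem_range.1 (hI hi)
    have h2 : kap P i ≤ Cd := hB.kap i hi9
    have h3 : 0 ≤ kap P i := Finset.sum_nonneg fun p _ => by positivity
    have h4 : om P i n ≤ Cd := by
      have h5 := hB.div {i} (Finset.singleton_subset_iff.2 (hI hi)) n hn hnN
      rw [Ssa_singleton] at h5
      unfold om
      exact_mod_cast h5
    have h5 : 0 ≤ om P i n := by
      unfold om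
      positivity
    rw [abs_le]
    constructor <;> linarith
  unfold gI
  rw [Finset.abs_prod]
  calc ∏ i ∈ I, |kap P i - om P i n| ≤ ∏ _i ∈ I, (Cd : ℝ) :=
        Finset.prod_le_prod (fun i _ => abs_nonneg _) h1
    _ = (Cd : ℝ) ^ I.card := Finset.prod_const _
    _ ≤ (Cd : ℝ) ^ 9 := by
        refine pow_le_pow_right₀ hC ?_
        have := Finset.card_le_card hI
        rwa [Finset.card_range] at this

end H69BG
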