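import Pool.Agent.H69.BG.Dlt
import Pool.Agent.H69.BG.Dsp
import Pool.Agent.H69.BG.Ssa

/-!
# EIN: the error of the good tuples

`EE` is the sum over the good tuples of `NN2 - 4M/(r q q')`. All moduli are pairwise coprime: `r ∈ SI P I`, `q ∈ SI P I1`, `q' ∈ SI P I2`, `I` disjoint from
`I1`, `I2` (`SI_coprime`); `q`, `q'` coprime by `good`.
* `ein_triv`: `delta_triv` for each tuple; for given `r`, `k` the `k' ≡ k mod r`, `k' ≠ k` in `(K, 2K]` are `k + r l` with `0 < |l| ≤ L` since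
  `|k' - k| < K ≤ L r`: at most `2L`.
* `ein`: `delta_good` for each tuple (`2 V1 < Cm ≤ r q q'`); the errors `r q q'/(2 M V1) ≤ Cp/(2 M V1)` add up to the second term. In the main part write
  `k' = k + r l`, `q = u w`, `q' = u' w'` with `w ∈ W1 = (if 0 ∈ I1 then P 0 else {1})`, `u ∈ U1 = SI P (I1.erase 0)` (`sum_SI_union` with
  `I1 = (I1.erase 0) ∪ {0}`, `SI_singleton`), the same for `q'`. The condition `good`: `gcd(u w, u' w') = 1` iff `gcd(u, u') = 1` and `gcd(w, w') = 1`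
  (prime ranges are disjoint), `gcd(q q', k) = 1`, `gcd(q', k') = 1`: exactly the conditions in `disp` and in `tm`; the `v`-sum of `delta_good`
  is `∑_v tm(M, t, l, k, u, u', (w, w', v), r)`. So the main part is the sum in `disp` with `RR = SI P I`,
  `γ l k r = b k conj(b (k + r l)) 1[k + r l ∈ (K, 2K]]`. Hypothesis `hB`, `hC` of `disp` from `hB`, `hC` here.
-/

open Finset H69LB

namespace H69BG

/-- good tuples -/
def good (q q' k k' : ℕ) : Prop := Nat.Coprime q q' ∧ Nat.Coprime (q * q') k ∧ Nat.Coprime q' k'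

instance (q q' k k' : ℕ) : Decidable (good q q' k k') := by unfold good; infer_instance

/-- the error of the good tuples -/
noncomputable def EE (P : ℕ → Finset ℕ) (I I1 I2 : Finset ℕ) (t : ℤ) (K M : ℕ) (b : ℕ → ℂ) : ℂ :=
  ∑ r ∈ SI P I, ∑ k ∈ (Ioc K (2 * K)).filter (fun k => Nat.Coprime r k),
    ∑ k' ∈ (Ioc K (2 * K)).filter (fun k' => k' ≠ k ∧ k' ≡ k [MOD r]), b k * (starRingEnd ℂ) (b k') *
      ∑ q ∈ SI P I1, ∑ q' ∈ (SI P I2).filter (fun q' => good q q' k k'),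
        (((NN2 M t (r * q) (r * q') k k' : ℝ) : ℂ) - 4 * M / ((r : ℂ) * q * q'))

/-! ### auxiliary facts -/

theorem EIN_pos {P : ℕ → Finset ℕ} {z : ℕ} (hS : Sy P z) {I : Finset ℕ} {s : ℕ} (hs : s ∈ SI P I) :
    1 ≤ s := Nat.one_le_iff_ne_zero.2 (SI_squarefree hS hs).ne_zero

/-- the set of the `w` -/
noncomputable def EIN_W (P : ℕ → Finset ℕ) (I : Finset ℕ) : Finset ℕ := if 0 ∈ I then P 0 else {1}

theorem EIN_W_card (P : ℕ → Finset ℕ) (I : Finset ℕ) :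
    ((EIN_W P I).card : ℝ) = if 0 ∈ I then ((P 0).card : ℝ) else 1 := by
  unfold EIN_W
  split_ifs <;> simp

theorem EIN_sum {P : ℕ → Finset ℕ} {z : ℕ} (hS : Sy P z) (I : Finset ℕ) {β : Type*}
    [AddCommMonoid β] (F : ℕ → β) :
    ∑ q ∈ SI P I, F q = ∑ u ∈ SI P (I.erase 0), ∑ w ∈ EIN_W P I, F (u * w) := by
  unfold EIN_W
  split_ifs with h
  · have h1 : I = I.erase 0 ∪ {0} := by
      rw [union_comm, ← insert_eq, insert_erase h]
    have h2 : Disjoint (I.erase 0) {0} := by simp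
    conv_lhs => rw [h1]
    rw [sum_SI_union hS h2 F, SI_singleton]
  · rw [erase_eq_of_notMem h]
    simp

theorem EIN_mem {P : ℕ → Finset ℕ} {z : ℕ} (hS : Sy P z) {I : Finset ℕ} {u w : ℕ}
    (hu : u ∈ SI P (I.erase 0)) (hw : w ∈ EIN_W P I) : u * w ∈ SI P I := by
  classical
  have h1 := EIN_sum hS I (fun q => if q ∈ SI P I then 0 else 1)
  have h2 : ∑ q ∈ SI P I, (if q ∈ SI P I then 0 else 1) = 0 := by
    refine Finset.sum_eq_zero fun q hq => ?_
    rw [if_pos hq]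
  rw [h2] at h1
  have h3 := (Finset.sum_eq_zero_iff.1 h1.symm) u hu
  have h4 := (Finset.sum_eq_zero_iff.1 h3) w hw
  by_contra h
  rw [if_neg h] at h4
  exact one_ne_zero h4

theorem EIN_cross {P : ℕ → Finset ℕ} {z : ℕ} (hS : Sy P z) {I I' : Finset ℕ} {u w : ℕ}
    (hu : u ∈ SI P (I.erase 0)) (hw : w ∈ EIN_W P I') : Nat.Coprime u w := by
  unfold EIN_W at hw
  split_ifs at hw with h
  · rw [← SI_singleton P 0] at hw
    exact SI_coprime hS (by simp) hu hw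
  · rw [mem_singleton] at hw
    rw [hw]
    exact Nat.coprime_one_right u

theorem EIN_W_mem {P : ℕ → Finset ℕ} {I : Finset ℕ} {w0 w1 : ℝ} (hw0 : 1 ≤ w0) (hw : w0 ≤ w1)
    (hP : ∀ p ∈ P 0, w0 ≤ p ∧ (p : ℝ) ≤ w1) {w : ℕ} (h : w ∈ EIN_W P I) : (w : ℝ) ≤ w1 := by
  unfold EIN_W at h
  split_ifs at h with h0
  · exact (hP w h).2
  · rw [mem_singleton] at h
    rw [h, Nat.cast_one]
    linarith

theorem EIN_VV_card (L : ℕ) : (VV L).card = 2 * L := by
  unfold VV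
  rw [card_erase_of_mem (by simp), Int.card_Icc]
  omega

theorem EIN_reindex {K r L k : ℕ} (hr : 1 ≤ r) (hL : K ≤ L * r) (hk : k ∈ Ioc K (2 * K))
    {β : Type*} [AddCommMonoid β] (F : ℕ → β) :
    ∑ k' ∈ (Ioc K (2 * K)).filter (fun k' => k' ≠ k ∧ k' ≡ k [MOD r]), F k' =
      ∑ l ∈ (VV L).filter (fun l : ℤ => (K : ℤ) < k + r * l ∧ (k : ℤ) + r * l ≤ 2 * K),
        F ((k : ℤ) + r * l).toNat := by
  have hr0 : (r : ℤ) ≠ 0 := by positivity
  have hrp : (0 : ℤ) < r := by positivity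
  obtain ⟨hk1, hk2⟩ := mem_Ioc.1 hk
  have hdiv : ∀ k' : ℕ, k' ≡ k [MOD r] → (r : ℤ) * (((k' : ℤ) - k) / r) = (k' : ℤ) - k := by
    intro k' h
    exact Int.mul_ediv_cancel' ((Nat.modEq_iff_dvd.1 h.symm))
  refine Finset.sum_bij' (fun k' _ => ((k' : ℤ) - k) / r) (fun l _ => ((k : ℤ) + r * l).toNat)
    ?_ ?_ ?_ ?_ ?_
  · intro k' hk'
    rw [mem_filter, mem_Ioc] at hk'
    obtain ⟨⟨a1, a2⟩, a3, a4⟩ := hk'
    have e := hdiv k' a4
    obtain ⟨l, hl⟩ : ∃ l : ℤ, l = ((k' : ℤ) - k) / r := ⟨_, rfl⟩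
    rw [← hl] at e ⊢
    have hl0 : l ≠ 0 := by
      rintro rfl
      rw [mul_zero] at e
      exact a3 (by omega)
    have hLr : (K : ℤ) ≤ L * r := by exact_mod_cast hL
    have b1 : l ≤ L := by
      by_contra h
      push Not at h
      have : (r : ℤ) * (L + 1) ≤ r * l := mul_le_mul_of_nonneg_left (by omega) hrp.le
      have h3 : (r : ℤ) * (L + 1) = L * r + r := by ring
      omega
    have b2 : -(L : ℤ) ≤ l := by
      by_contra h
      push Not at h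
      have : (r : ℤ) * l ≤ r * (-(L : ℤ) - 1) := mul_le_mul_of_nonneg_left (by omega) hrp.le
      have h3 : (r : ℤ) * (-(L : ℤ) - 1) = -(L * r) - r := by ring
      omega
    rw [mem_filter]
    refine ⟨?_, ?_, ?_⟩
    · unfold VV
      rw [mem_erase, Finset.mem_Icc]
      exact ⟨hl0, b2, b1⟩
    · omega
    · omega
  · intro l hl
    rw [mem_filter] at hl
    obtain ⟨a1, a2, a3⟩ := hl
    unfold VV at a1
    rw [mem_erase] at a1
    have e : ((((k : ℤ) + r * l).toNat : ℕ) : ℤ) = k + r * l := Int.toNat_of_nonneg (by omega)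
    rw [mem_filter, mem_Ioc]
    refine ⟨⟨by omega, by omega⟩, ?_, ?_⟩
    · intro h
      have h1 : (r : ℤ) * l = 0 := by omega
      rcases mul_eq_zero.1 h1 with h2 | h2
      · exact hr0 h2
      · exact a1.1 h2
    · apply Nat.ModEq.symm
      rw [Nat.modEq_iff_dvd, e]
      exact ⟨l, by ring⟩
  · intro k' hk'
    rw [mem_filter, mem_Ioc] at hk'
    rw [hdiv k' hk'.2.2]
    simp
  · intro l hl
    rw [mem_filter] at hl
    obtain ⟨a1, a2, a3⟩ := hl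
    have e : ((((k : ℤ) + r * l).toNat : ℕ) : ℤ) = k + r * l := Int.toNat_of_nonneg (by omega)
    rw [e, add_sub_cancel_left, Int.mul_ediv_cancel_left _ hr0]
  · intro k' hk'
    rw [mem_filter, mem_Ioc] at hk'
    rw [hdiv k' hk'.2.2]
    congr 1
    simp

theorem EIN_count {K r L k : ℕ} (hr : 1 ≤ r) (hL : K ≤ L * r) (hk : k ∈ Ioc K (2 * K)) :
    ((Ioc K (2 * K)).filter (fun k' => k' ≠ k ∧ k' ≡ k [MOD r])).card ≤ 2 * L := by
  have h := EIN_reindex hr hL hk (fun _ => 1)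
  rw [← card_eq_sum_ones, ← card_eq_sum_ones] at h
  rw [h, ← EIN_VV_card L]
  exact card_filter_le _ _

/-- the nested sum -/
noncomputable def EIN_S (P : ℕ → Finset ℕ) (I I1 I2 : Finset ℕ) (K : ℕ) (b : ℕ → ℂ)
    (D : ℕ → ℕ → ℕ → ℕ → ℕ → ℂ) : ℂ :=
  ∑ r ∈ SI P I, ∑ k ∈ (Ioc K (2 * K)).filter (fun k => Nat.Coprime r k),
    ∑ k' ∈ (Ioc K (2 * K)).filter (fun k' => k' ≠ k ∧ k' ≡ k [MOD r]), b k * (starRingEnd ℂ) (b k') *
      ∑ q ∈ SI P I1, ∑ q' ∈ (SI P I2).filter (fun q' => good q q' k k'), D r k k' q q'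

theorem EIN_ns {ι : Type*} {s : Finset ι} {f : ι → ℂ} {c N : ℝ} (h : ∀ x ∈ s, ‖f x‖ ≤ c)
    (hc : 0 ≤ c) (hN : (s.card : ℝ) ≤ N) : ‖∑ x ∈ s, f x‖ ≤ N * c := by
  refine (norm_sum_le_of_le s h).trans ?_
  rw [sum_const, nsmul_eq_mul]
  exact mul_le_mul_of_nonneg_right hN hc

theorem EIN_bound {P : ℕ → Finset ℕ} {z : ℕ} (hS : Sy P z) {I I1 I2 : Finset ℕ} {K L : ℕ}
    {b : ℕ → ℂ} (hb : ∀ k, ‖b k‖ ≤ 1) (hL : ∀ r ∈ SI P I, K ≤ L * r)
    {D : ℕ → ℕ → ℕ → ℕ → ℕ → ℂ} {X : ℝ} (hX : 0 ≤ X)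
    (hD : ∀ r ∈ SI P I, ∀ k ∈ Ioc K (2 * K), ∀ k' ∈ Ioc K (2 * K), Nat.Coprime r k →
      k' ≡ k [MOD r] → ∀ q ∈ SI P I1, ∀ q' ∈ SI P I2, good q q' k k' → ‖D r k k' q q'‖ ≤ X) :
    ‖EIN_S P I I1 I2 K b D‖ ≤
      (SI P I).card * K * (2 * L) * (SI P I1).card * (SI P I2).card * X := by
  have h1 : ‖EIN_S P I I1 I2 K b D‖ ≤ (SI P I).card * (K * ((2 * L) * ((SI P I1).card *
      ((SI P I2).card * X)))) := by
    unfold EIN_S
    refine EIN_ns (fun r hr => EIN_ns (fun k hk => EIN_ns (fun k' hk' => ?_) (by positivity) ?_)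
      (by positivity) ?_) (by positivity) le_rfl
    · rw [mem_filter] at hk hk'
      rw [norm_mul, norm_mul, RCLike.norm_conj]
      have e1 : ‖b k‖ * ‖b k'‖ ≤ 1 := mul_le_one₀ (hb k) (norm_nonneg _) (hb k')
      refine (mul_le_of_le_one_left (norm_nonneg _) e1).trans ?_
      refine EIN_ns (fun q hq => EIN_ns (fun q' hq' => ?_) hX ?_) (by positivity) le_rfl
      · rw [mem_filter] at hq'
        exact hD r hr k hk.1 k' hk'.1 hk.2 hk'.2.2 q hq q' hq'.1 hq'.2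
      · exact_mod_cast card_filter_le _ _
    · exact_mod_cast EIN_count (EIN_pos hS hr) (hL r hr) (mem_filter.1 hk).1
    · have e2 := card_filter_le (Ioc K (2 * K)) (fun k => Nat.Coprime r k)
      rw [Nat.card_Ioc] at e2
      exact_mod_cast (by omega : ((Ioc K (2 * K)).filter (fun k => Nat.Coprime r k)).card ≤ K)
  refine h1.trans (le_of_eq ?_)
  ring

/-- coprimality of the moduli -/
theorem EIN_cop {P : ℕ → Finset ℕ} {z : ℕ} (hS : Sy P z) {I I1 I2 : Finset ℕ}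
    (h1 : Disjoint I I1) (h2 : Disjoint I I2) {r q q' k k' : ℕ} (hr : r ∈ SI P I)
    (hq : q ∈ SI P I1) (hq' : q' ∈ SI P I2) (hrk : Nat.Coprime r k) (hg : good q q' k k') :
    Nat.Coprime r q ∧ Nat.Coprime (r * q) q' ∧ Nat.Coprime (r * q) k ∧
      Nat.Coprime (r * q * q') k ∧ Nat.Coprime q' k' := by
  obtain ⟨g1, g2, g3⟩ := hg
  have a1 := SI_coprime hS h1 hr hq
  have a2 := SI_coprime hS h2 hr hq'
  have b1 : Nat.Coprime q k := Nat.Coprime.coprime_mul_right g2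
  have b2 : Nat.Coprime q' k := Nat.Coprime.coprime_mul_left g2
  exact ⟨a1, Nat.Coprime.mul_left a2 g1, Nat.Coprime.mul_left hrk b1,
    Nat.Coprime.mul_left (Nat.Coprime.mul_left hrk b1) b2, g3⟩

theorem ein_triv {P : ℕ → Finset ℕ} {z : ℕ} (hS : Sy P z) {I I1 I2 : Finset ℕ} (h1 : Disjoint I I1) (h2 : Disjoint I I2)
    {t : ℤ} {K M L : ℕ} (hM : 1 ≤ M) (hK : 1 ≤ K) {b : ℕ → ℂ} (hb : ∀ k, ‖b k‖ ≤ 1)
    (hL : ∀ r ∈ SI P I, K ≤ L * r) :
    ‖EE P I I1 I2 t K M b‖ ≤ 2 * ((SI P I).card * K * (2 * L) * (SI P I1).card * (SI P I2).card) := by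
  have h := EIN_bound (I1 := I1) (I2 := I2) hS hb hL
    (D := fun r k k' q q' => ((NN2 M t (r * q) (r * q') k k' : ℝ) : ℂ) - 4 * M / ((r : ℂ) * q * q'))
    (X := 2) (by norm_num) ?_
  · refine le_trans (le_of_eq ?_) (h.trans (le_of_eq ?_))
    · rfl
    · ring
  · intro r hr k hk k' hk' hrk hkk q hq q' hq' hg
    obtain ⟨c1, c2, c3, c4, c5⟩ := EIN_cop hS h1 h2 hr hq hq' hrk hg
    have e := delta_triv (t := t) hM (EIN_pos hS hr) (EIN_pos hS hq) (EIN_pos hS hq') c1 c2 c3 c5 hkk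
    have e2 : ((NN2 M t (r * q) (r * q') k k' : ℝ) : ℂ) - 4 * M / ((r : ℂ) * q * q') =
        ((NN2 M t (r * q) (r * q') k k' - 4 * M / ((r : ℝ) * q * q') : ℝ) : ℂ) := by
      push_cast
      ring
    rw [e2, Complex.norm_real, Real.norm_eq_abs]
    exact e

/-- the main term of a tuple -/
noncomputable def EIN_T (M : ℕ) (t : ℤ) (V1 : ℕ) (l : ℤ) (k r q q' : ℕ) : ℂ :=
  ∑ v ∈ VV V1, (1 / ((r : ℂ) * q * q')) * psiF M ((v : ℝ) / ((r : ℝ) * q * q')) *
          ee (-((t : ℝ) * v) / ((r : ℝ) * q * q' * k)) *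
          eZ k ((t * v : ℤ) * ((r * q * q' : ℕ) : ZMod k)⁻¹) *
          eZ q' ((t * v * l : ℤ) * (((q * k : ℕ) : ZMod q') * ((k + r * l : ℤ) : ZMod q'))⁻¹)

theorem EIN_inner {P : ℕ → Finset ℕ} {z : ℕ} (hS : Sy P z) {I1 I2 : Finset ℕ} {M : ℕ} {t : ℤ}
    {V1 : ℕ} {l : ℤ} {k r k' : ℕ} (hk' : (k' : ℤ) = k + r * l) :
    ∑ q ∈ SI P I1, ∑ q' ∈ (SI P I2).filter (fun q' => good q q' k k'), EIN_T M t V1 l k r q q' =
      ∑ u ∈ SI P (I1.erase 0), ∑ u' ∈ (SI P (I2.erase 0)).filter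
        (fun u' => Nat.Coprime u u' ∧ Nat.Coprime (u * u') k),
          ∑ a ∈ AA (EIN_W P I1) (EIN_W P I2) V1, tm M t l k u u' a r := by
  classical
  rw [EIN_sum hS I1]
  refine Finset.sum_congr rfl fun u hu => ?_
  have e1 : ∀ w ∈ EIN_W P I1, ∑ q' ∈ (SI P I2).filter (fun q' => good (u * w) q' k k'),
      EIN_T M t V1 l k r (u * w) q' = ∑ u' ∈ SI P (I2.erase 0), ∑ w' ∈ EIN_W P I2,
        if good (u * w) (u' * w') k k' then EIN_T M t V1 l k r (u * w) (u' * w') else 0 := by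
    intro w _
    rw [sum_filter, EIN_sum hS I2]
  rw [Finset.sum_congr rfl e1, Finset.sum_comm, sum_filter]
  refine Finset.sum_congr rfl fun u' hu' => ?_
  unfold AA
  rw [sum_product]
  simp_rw [sum_product]
  by_cases hc : Nat.Coprime u u' ∧ Nat.Coprime (u * u') k
  · rw [if_pos hc]
    refine Finset.sum_congr rfl fun w hw => Finset.sum_congr rfl fun w' hw' => ?_
    have x1 : Nat.Coprime u w' := EIN_cross hS hu hw'
    have x2 : Nat.Coprime u' w := EIN_cross hS hu' hw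
    have hiff : good (u * w) (u' * w') k k' ↔
        (Nat.Coprime w w' ∧ Nat.Coprime (w * w') k ∧ Int.gcd (k + r * l) (u' * w') = 1) := by
      have hg : Int.gcd (k + r * l) (u' * w') = Nat.gcd k' (u' * w') := by
        rw [← hk']
        exact_mod_cast Int.gcd_natCast_natCast k' (u' * w')
      rw [hg]
      unfold good
      constructor
      · rintro ⟨g1, g2, g3⟩
        refine ⟨?_, ?_, ?_⟩
        · exact Nat.Coprime.coprime_mul_left (Nat.Coprime.coprime_mul_left_right g1)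
        · have y1 : Nat.Coprime w k :=
            Nat.Coprime.coprime_mul_left (Nat.Coprime.coprime_mul_right g2)
          have y2 : Nat.Coprime w' k :=
            Nat.Coprime.coprime_mul_left (Nat.Coprime.coprime_mul_left g2)
          exact Nat.Coprime.mul_left y1 y2
        · exact g3.symm
      · rintro ⟨g1, g2, g3⟩
        refine ⟨?_, ?_, ?_⟩
        · exact Nat.Coprime.mul_left (Nat.Coprime.mul_right hc.1 x1)
            (Nat.Coprime.mul_right x2.symm g1)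
        · have y1 : Nat.Coprime u k := Nat.Coprime.coprime_mul_right hc.2
          have y2 : Nat.Coprime u' k := Nat.Coprime.coprime_mul_left hc.2
          have y3 : Nat.Coprime w k := Nat.Coprime.coprime_mul_right g2
          have y4 : Nat.Coprime w' k := Nat.Coprime.coprime_mul_left g2
          exact Nat.Coprime.mul_left (Nat.Coprime.mul_left y1 y3) (Nat.Coprime.mul_left y2 y4)
        · exact Nat.Coprime.symm g3
    unfold tm EIN_T
    simp only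
    by_cases hg : good (u * w) (u' * w') k k'
    · rw [if_pos hg]
      refine Finset.sum_congr rfl fun v _ => ?_
      rw [if_pos (hiff.1 hg)]
      have y1 : (r : ℂ) * ((u * w : ℕ) : ℂ) * ((u' * w' : ℕ) : ℂ) = (r : ℂ) * u * w * u' * w' := by
        push_cast; ring
      have y2 : (r : ℝ) * ((u * w : ℕ) : ℝ) * ((u' * w' : ℕ) : ℝ) = (r : ℝ) * u * w * u' * w' := by
        push_cast; ring
      have y3 : r * (u * w) * (u' * w') = r * u * w * u' * w' := by ring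
      rw [y1, y2, y3]
    · rw [if_neg hg]
      symm
      refine Finset.sum_eq_zero fun v _ => ?_
      rw [if_neg (fun h => hg (hiff.2 h))]
  · rw [if_neg hc]
    refine Finset.sum_eq_zero fun w _ => Finset.sum_eq_zero fun w' _ => ?_
    rw [if_neg]
    rintro ⟨g1, g2, g3⟩
    apply hc
    refine ⟨?_, ?_⟩
    · exact Nat.Coprime.coprime_mul_right (Nat.Coprime.coprime_mul_right_right g1)
    · exact Nat.Coprime.mul_left (Nat.Coprime.coprime_mul_right (Nat.Coprime.coprime_mul_right g2))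
        (Nat.Coprime.coprime_mul_right (Nat.Coprime.coprime_mul_left g2))

/-- the coefficients -/
noncomputable def EIN_g (K : ℕ) (b : ℕ → ℂ) (l : ℤ) (k r : ℕ) : ℂ :=
  if (K : ℤ) < k + r * l ∧ (k : ℤ) + r * l ≤ 2 * K then
    b k * (starRingEnd ℂ) (b ((k : ℤ) + r * l).toNat) else 0

theorem EIN_g_norm {K : ℕ} {b : ℕ → ℂ} (hb : ∀ k, ‖b k‖ ≤ 1) (l : ℤ) (k r : ℕ) :
    ‖EIN_g K b l k r‖ ≤ 1 := by
  unfold EIN_g
  split_ifs
  · rw [norm_mul, RCLike.norm_conj]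
    exact mul_le_one₀ (hb _) (norm_nonneg _) (hb _)
  · rw [norm_zero]
    exact zero_le_one

theorem EIN_main {P : ℕ → Finset ℕ} {z : ℕ} (hS : Sy P z) {I I1 I2 : Finset ℕ} {M : ℕ} {t : ℤ}
    {V1 K L : ℕ} {b : ℕ → ℂ} (hL : ∀ r ∈ SI P I, K ≤ L * r) :
    EIN_S P I I1 I2 K b (fun r k k' q q' => EIN_T M t V1 (((k' : ℤ) - k) / r) k r q q') =
      ∑ l ∈ VV L, ∑ k ∈ Ioc K (2 * K), ∑ r ∈ (SI P I).filter (fun r => Nat.Coprime r k),
        EIN_g K b l k r *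
        ∑ u ∈ SI P (I1.erase 0), ∑ u' ∈ (SI P (I2.erase 0)).filter
          (fun u' => Nat.Coprime u u' ∧ Nat.Coprime (u * u') k),
            ∑ a ∈ AA (EIN_W P I1) (EIN_W P I2) V1, tm M t l k u u' a r := by
  classical
  obtain ⟨G, hG⟩ : ∃ G : ℤ → ℕ → ℕ → ℂ, G = fun l k r => EIN_g K b l k r *
        ∑ u ∈ SI P (I1.erase 0), ∑ u' ∈ (SI P (I2.erase 0)).filter
          (fun u' => Nat.Coprime u u' ∧ Nat.Coprime (u * u') k),
            ∑ a ∈ AA (EIN_W P I1) (EIN_W P I2) V1, tm M t l k u u' a r := ⟨_, rfl⟩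
  have h1 : EIN_S P I I1 I2 K b (fun r k k' q q' => EIN_T M t V1 (((k' : ℤ) - k) / r) k r q q') =
      ∑ r ∈ SI P I, ∑ k ∈ (Ioc K (2 * K)).filter (fun k => Nat.Coprime r k),
        ∑ l ∈ VV L, G l k r := by
    unfold EIN_S
    refine Finset.sum_congr rfl fun r hr => Finset.sum_congr rfl fun k hk => ?_
    have hr0 : (r : ℤ) ≠ 0 := by
      have := EIN_pos hS hr
      positivity
    rw [EIN_reindex (EIN_pos hS hr) (hL r hr) (mem_filter.1 hk).1, sum_filter]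
    refine Finset.sum_congr rfl fun l _ => ?_
    rw [hG]
    simp only [EIN_g]
    by_cases hc : (K : ℤ) < k + r * l ∧ (k : ℤ) + r * l ≤ 2 * K
    · rw [if_pos hc, if_pos hc]
      have e : ((((k : ℤ) + r * l).toNat : ℕ) : ℤ) = k + r * l := Int.toNat_of_nonneg (by omega)
      rw [← EIN_inner hS e]
      rw [e, add_sub_cancel_left, Int.mul_ediv_cancel_left _ hr0]
    · rw [if_neg hc, if_neg hc, zero_mul]
  have h2 : ∑ r ∈ SI P I, ∑ k ∈ (Ioc K (2 * K)).filter (fun k => Nat.Coprime r k),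
        ∑ l ∈ VV L, G l k r = ∑ k ∈ Ioc K (2 * K),
          ∑ r ∈ (SI P I).filter (fun r => Nat.Coprime r k), ∑ l ∈ VV L, G l k r := by
    refine Finset.sum_comm' fun r k => ?_
    simp only [mem_filter]
    tauto
  rw [h1, h2]
  rw [Finset.sum_comm (s := VV L)]
  refine Finset.sum_congr rfl fun k _ => ?_
  rw [Finset.sum_comm]
  refine Finset.sum_congr rfl fun l _ => Finset.sum_congr rfl fun r _ => ?_
  rw [hG]

theorem ein {P : ℕ → Finset ℕ} {z : ℕ} (hS : Sy P z) {I I1 I2 : Finset ℕ} (h1 : Disjoint I I1) (h2 : Disjoint I I2)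
    (h0 : 0 ∉ I) {t : ℤ} (ht : t ≠ 0) {K M L R R' V1 B g0 : ℕ} {Cm Cp Tst w0 w1 : ℝ}
    (hM : 1 ≤ M) (hK : 1 ≤ K) (hR : 1 ≤ R) (hRR : R < R') (hCm : 0 < Cm) (hTst : 0 ≤ Tst) (hV : 1 ≤ V1)
    (hw0 : 1 ≤ w0) (hw : w0 ≤ w1) (hP : ∀ p ∈ P 0, w0 ≤ p ∧ (p : ℝ) ≤ w1)
    (hI : SI P I ⊆ Ioc R R') (hL : K ≤ L * R)
    (hC : ∀ r ∈ Ioc R R', ∀ q ∈ SI P I1, ∀ q' ∈ SI P I2, Cm ≤ (r : ℝ) * q * q' ∧ (r : ℝ) * q * q' ≤ Cp)
    (hV1 : 2 * (V1 : ℝ) < Cm)
    (hB : ∀ q' ∈ SI P I2, (q' : ℝ) * w1 ≤ B)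
    (hg : |(t : ℝ)| * (2 * V1) * w1 ^ 2 ≤ g0)
    (hT : ∀ k ∈ Ioc K (2 * K), ∀ b : ℕ, 1 ≤ b → b ≤ B → Nat.Coprime k b → ∀ A : ZMod k, Nat.gcd A.val k ≤ g0 →
      ∀ G : ZMod b → ℂ, (∀ s, ‖G s‖ ≤ 1) → ∀ X Y : ℕ, Y ≤ X + R' →
        ‖∑ r ∈ (Ioc X Y).filter (fun r => Nat.Coprime r k), eZ k (A * (r : ZMod k)⁻¹) * G (r : ZMod b)‖ ≤ Tst)
    {b : ℕ → ℂ} (hb : ∀ k, ‖b k‖ ≤ 1) :
    ‖EE P I I1 I2 t K M b‖ ≤
      Real.sqrt ((2 * L * K * (R' - R) * (SI P (I1.erase 0)).card * (SI P (I2.erase 0)).card) ^ 2 * (4 * M / Cm) ^ 2 *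
        (66 * (Cp / (4 * M)) * (if 0 ∈ I1 then ((P 0).card : ℝ) else 1) * (if 0 ∈ I2 then ((P 0).card : ℝ) else 1) *
            (w1 / w0) ^ 2 +
          (2 * V1 * (if 0 ∈ I1 then ((P 0).card : ℝ) else 1) * (if 0 ∈ I2 then ((P 0).card : ℝ) else 1)) ^ 2 *
            (1 + 2 * Xf M K V1 t Cm * (R' - R) / R) * Tst / (R' - R))) +
      (SI P I).card * K * (2 * L) * (SI P I1).card * (SI P I2).card * (Cp / (2 * M * V1)) := by
  have hL' : ∀ r ∈ SI P I, K ≤ L * r := fun r hr =>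
    hL.trans (Nat.mul_le_mul_left _ (mem_Ioc.1 (hI hr)).1.le)
  have hM0 : (0 : ℝ) < M := by exact_mod_cast hM
  have hV0 : (0 : ℝ) < V1 := by exact_mod_cast hV
  -- splitting
  have hsplit : EE P I I1 I2 t K M b =
      EIN_S P I I1 I2 K b (fun r k k' q q' => EIN_T M t V1 (((k' : ℤ) - k) / r) k r q q') +
      EIN_S P I I1 I2 K b (fun r k k' q q' =>
        ((NN2 M t (r * q) (r * q') k k' : ℝ) : ℂ) - 4 * M / ((r : ℂ) * q * q') -
          EIN_T M t V1 (((k' : ℤ) - k) / r) k r q q') := by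
    unfold EE EIN_S
    simp only [← Finset.sum_add_distrib, ← mul_add, add_sub_cancel]
  have hmain := disp (M := M) (K := K) (B := B) (g0 := g0) (R := R) (R' := R') (V1 := V1) (L := L)
    (t := t) (Cm := Cm) (Cp := Cp) (Tst := Tst) (w0 := w0) (w1 := w1) (P0 := P 0)
    (W1 := EIN_W P I1) (W2 := EIN_W P I2) (U1 := SI P (I1.erase 0)) (U2 := SI P (I2.erase 0))
    (RR := SI P I) hM hK hR hRR ht hCm hTst hw0 hw
    (fun p hp => ⟨hS.prime 0 p hp, (hP p hp).1, (hP p hp).2⟩)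
    (by unfold EIN_W; split_ifs; exacts [Or.inl rfl, Or.inr rfl])
    (by unfold EIN_W; split_ifs; exacts [Or.inl rfl, Or.inr rfl])
    (fun u hu => EIN_pos hS hu) (fun u hu => EIN_pos hS hu) hI
    (by
      intro r hr u hu w hw' u' hu' w' hw''
      have e := hC r hr _ (EIN_mem hS hu hw') _ (EIN_mem hS hu' hw'')
      have e2 : (r : ℝ) * ((u * w : ℕ) : ℝ) * ((u' * w' : ℕ) : ℝ) = (r : ℝ) * u * w * u' * w' := by
        push_cast; ring
      rw [e2] at e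
      exact e)
    hV1.le
    (by
      intro u' hu' w hw' w' hw''
      have e := hB _ (EIN_mem hS hu' hw')
      have e2 : (w' : ℝ) ≤ w1 := EIN_W_mem hw0 hw hP hw''
      have e3 : ((u' * w * w' : ℕ) : ℝ) ≤ B := by
        push_cast
        push_cast at e
        exact (mul_le_mul_of_nonneg_left e2 (by positivity)).trans e
      exact_mod_cast e3)
    hg hT (EIN_g K b) (EIN_g_norm hb)
  rw [← EIN_main hS hL', EIN_W_card, EIN_W_card] at hmain
  have herr := EIN_bound (I1 := I1) (I2 := I2) hS hb hL'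
    (D := fun r k k' q q' =>
        ((NN2 M t (r * q) (r * q') k k' : ℝ) : ℂ) - 4 * M / ((r : ℂ) * q * q') -
          EIN_T M t V1 (((k' : ℤ) - k) / r) k r q q')
    (X := |Cp| / (2 * M * V1)) (by positivity) ?_
  · have hCp : ((SI P I).card : ℝ) * K * (2 * L) * (SI P I1).card * (SI P I2).card *
        (|Cp| / (2 * M * V1)) =
        (SI P I).card * K * (2 * L) * (SI P I1).card * (SI P I2).card * (Cp / (2 * M * V1)) := by
      rcases (SI P I).eq_empty_or_nonempty with e | ⟨r, hr⟩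
      · rw [e, card_empty, Nat.cast_zero]; ring
      rcases (SI P I1).eq_empty_or_nonempty with e | ⟨q, hq⟩
      · rw [e, card_empty, Nat.cast_zero]; ring
      rcases (SI P I2).eq_empty_or_nonempty with e | ⟨q', hq'⟩
      · rw [e, card_empty, Nat.cast_zero]; ring
      obtain ⟨d1, d2⟩ := hC r (hI hr) q hq q' hq'
      rw [abs_of_pos (hCm.trans_le (d1.trans d2))]
    rw [hsplit]
    refine (norm_add_le _ _).trans (add_le_add ?_ (herr.trans hCp.le))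
    exact Real.le_sqrt_of_sq_le hmain
  · intro r hr k hk k' hk' hrk hkk q hq q' hq' hgd
    obtain ⟨c1, c2, c3, c4, c5⟩ := EIN_cop hS h1 h2 hr hq hq' hrk hgd
    obtain ⟨d1, d2⟩ := hC r (hI hr) q hq q' hq'
    have e : (k' : ℤ) = k + r * (((k' : ℤ) - k) / r) := by
      rw [Int.mul_ediv_cancel' ((Nat.modEq_iff_dvd.1 hkk.symm))]
      ring
    have hVC : 2 * V1 < r * q * q' := by
      have : (2 * V1 : ℝ) < (r : ℝ) * q * q' := hV1.trans_le d1
      exact_mod_cast this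
    have e3 := delta_good (t := t) hM (EIN_pos hS hr) (EIN_pos hS hq) (EIN_pos hS hq')
      (by have := (mem_Ioc.1 hk).1; omega) c1 c2 c4 c5 e hV hVC
    refine e3.trans ?_
    exact div_le_div_of_nonneg_right (d2.trans (le_abs_self _)) (by positivity)

end H69BG
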