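import Pool.Agent.H69.BG.Wwb

/-!
# FCA: the first Cauchy inequality

`gI P (range 9) = gI P A · gI P B` (`range 9 = A ∪ B`, disjoint). Expand `gI P A` by `gI_eq`: for each `I ⊆ A` the coefficient `(-1)^{|I|} kI(A \ I)` has absolute
value `≤ Cd^9`, and one gets `S_I = ∑_{r ∈ SI P I} ∑_{m ∈ (M, 2M]} a m ∑_{k ∈ (K,2K], r ∣ m k - t} b k gI P B (m k - t)`. Cauchy-Schwarz over `(r, m)`:
`|S_I|² ≤ |SI P I| M ∑_r ∑_{m ∈ (M, 2M]} |∑_k ...|² ≤ |SI P I| M WW` since `psi M m ≥ 1` for `M ≤ m ≤ 3M` and `psi ≥ 0`.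
-/

open Finset

namespace H69BG

theorem Fca_key {P : ℕ → Finset ℕ} {z : ℕ} (hS : Sy P z) {A B : Finset ℕ}
    (hAB : A ∪ B = range 9) (hd : Disjoint A B) (n : ℤ) :
    (gI P (range 9) n : ℂ) = ∑ I ∈ A.powerset, (((-1) ^ I.card * kI P (A \ I) : ℝ) : ℂ) *
      ∑ r ∈ SI P I, if (r : ℤ) ∣ n then (gI P B n : ℂ) else 0 := by
  have h1 : gI P (range 9) n = gI P A n * gI P B n := by
    unfold gI
    rw [← hAB, Finset.prod_union hd]
  rw [h1, gI_eq hS A n, Finset.sum_mul]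
  push_cast
  refine Finset.sum_congr rfl fun I _ => ?_
  rw [← Finset.sum_filter, Finset.sum_const, nsmul_eq_mul]
  ring

theorem Fca_kI {P : ℕ → Finset ℕ} {N Cd : ℕ} (hB : SyB P N Cd) {J : Finset ℕ}
    (hJ : J ⊆ range 9) : 0 ≤ kI P J ∧ kI P J ≤ (Cd : ℝ) ^ 9 := by
  have hC : (1 : ℝ) ≤ Cd := by exact_mod_cast hB.one_le
  have h3 : ∀ i, 0 ≤ kap P i := fun i => Finset.sum_nonneg fun p _ => by positivity
  unfold kI
  refine ⟨Finset.prod_nonneg fun i _ => h3 i, ?_⟩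
  calc ∏ i ∈ J, kap P i ≤ ∏ _i ∈ J, (Cd : ℝ) :=
        Finset.prod_le_prod (fun i _ => h3 i) fun i hi => hB.kap i (Finset.mem_range.1 (hJ hi))
    _ = (Cd : ℝ) ^ J.card := by rw [Finset.prod_const]
    _ ≤ (Cd : ℝ) ^ 9 := by
        apply pow_le_pow_right₀ hC
        have := Finset.card_le_card hJ
        simpa using this

theorem Fca_psi {M m : ℕ} (hM : 1 ≤ M) (h1 : M ≤ m) (h2 : m ≤ 3 * M) : 1 ≤ psi M m := by
  unfold psi
  have hM' : (1 : ℝ) ≤ M := by exact_mod_cast hM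
  have h1' : (M : ℝ) ≤ m := by exact_mod_cast h1
  have h2' : (m : ℝ) ≤ 3 * M := by exact_mod_cast h2
  have h3 : |(m : ℝ) - 2 * M| / (2 * M) ≤ 1 / 2 := by
    rw [div_le_iff₀ (by positivity), abs_le]
    constructor <;> linarith
  have h4 := le_max_right 0 (1 - |(m : ℝ) - 2 * M| / (2 * M))
  linarith

theorem Fca_psi0 (M m : ℕ) : 0 ≤ psi M m := by
  unfold psi
  have := le_max_left 0 (1 - |(m : ℝ) - 2 * M| / (2 * M))
  linarith

theorem fca {P : ℕ → Finset ℕ} {z N Cd : ℕ} (hS : Sy P z) (hB : SyB P N Cd) {A B : Finset ℕ}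
    (hAB : A ∪ B = range 9) (hd : Disjoint A B) {t : ℤ} {K M : ℕ} (hM : 1 ≤ M) (hK : 1 ≤ K)
    {a b : ℕ → ℂ} (ha : ∀ m, ‖a m‖ ≤ 1) (hb : ∀ k, ‖b k‖ ≤ 1) :
    ‖∑ m ∈ Ioc M (2 * M), ∑ k ∈ Ioc K (2 * K), a m * b k * (gI P (range 9) (m * k - t) : ℂ)‖
      ≤ ∑ I ∈ A.powerset, (Cd : ℝ) ^ 9 * Real.sqrt ((SI P I).card * M * WW P B I t K M b) := by
  classical
  have hA9 : A ⊆ range 9 := by rw [← hAB]; exact Finset.subset_union_left
  have hC1 : (1 : ℝ) ≤ Cd := by exact_mod_cast hB.one_le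
  obtain ⟨T, hT⟩ : ∃ T : ℕ → ℕ → ℂ, T = fun (r m : ℕ) =>
    ∑ k ∈ (Ioc K (2 * K)).filter (fun k : ℕ => (r : ℤ) ∣ m * k - t), b k * (gI P B (m * k - t) : ℂ) :=
    ⟨_, rfl⟩
  obtain ⟨c, hc⟩ : ∃ c : Finset ℕ → ℂ, c = fun I => (((-1) ^ I.card * kI P (A \ I) : ℝ) : ℂ) :=
    ⟨_, rfl⟩
  have hmain : ∑ m ∈ Ioc M (2 * M), ∑ k ∈ Ioc K (2 * K), a m * b k * (gI P (range 9) (m * k - t) : ℂ) =
      ∑ I ∈ A.powerset, c I * ∑ r ∈ SI P I, ∑ m ∈ Ioc M (2 * M), a m * T r m := by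
    calc ∑ m ∈ Ioc M (2 * M), ∑ k ∈ Ioc K (2 * K), a m * b k * (gI P (range 9) (m * k - t) : ℂ)
        = ∑ m ∈ Ioc M (2 * M), ∑ k ∈ Ioc K (2 * K), ∑ I ∈ A.powerset, ∑ r ∈ SI P I,
            c I * (a m * if (r : ℤ) ∣ m * k - t then b k * (gI P B (m * k - t) : ℂ) else 0) := by
          refine Finset.sum_congr rfl fun m _ => Finset.sum_congr rfl fun k _ => ?_
          rw [Fca_key hS hAB hd, Finset.mul_sum]
          refine Finset.sum_congr rfl fun I _ => ?_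
          rw [Finset.mul_sum, Finset.mul_sum, hc]
          refine Finset.sum_congr rfl fun r _ => ?_
          split_ifs
          · ring
          · ring
      _ = ∑ I ∈ A.powerset, ∑ r ∈ SI P I, ∑ m ∈ Ioc M (2 * M), ∑ k ∈ Ioc K (2 * K),
            c I * (a m * if (r : ℤ) ∣ m * k - t then b k * (gI P B (m * k - t) : ℂ) else 0) := by
          have e1 : ∀ m ∈ Ioc M (2 * M), ∑ k ∈ Ioc K (2 * K), ∑ I ∈ A.powerset, ∑ r ∈ SI P I,
              c I * (a m * if (r : ℤ) ∣ m * k - t then b k * (gI P B (m * k - t) : ℂ) else 0) =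
              ∑ I ∈ A.powerset, ∑ r ∈ SI P I, ∑ k ∈ Ioc K (2 * K),
              c I * (a m * if (r : ℤ) ∣ m * k - t then b k * (gI P B (m * k - t) : ℂ) else 0) := by
            intro m _
            rw [Finset.sum_comm]
            refine Finset.sum_congr rfl fun I _ => ?_
            rw [Finset.sum_comm]
          rw [Finset.sum_congr rfl e1, Finset.sum_comm]
          refine Finset.sum_congr rfl fun I _ => ?_
          rw [Finset.sum_comm]
      _ = ∑ I ∈ A.powerset, c I * ∑ r ∈ SI P I, ∑ m ∈ Ioc M (2 * M), a m * T r m := by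
          refine Finset.sum_congr rfl fun I _ => ?_
          rw [Finset.mul_sum]
          refine Finset.sum_congr rfl fun r _ => ?_
          rw [Finset.mul_sum]
          refine Finset.sum_congr rfl fun m _ => ?_
          rw [hT, ← Finset.mul_sum, ← Finset.mul_sum, ← Finset.sum_filter]
  rw [hmain]
  refine (norm_sum_le _ _).trans (Finset.sum_le_sum fun I hI => ?_)
  rw [norm_mul]
  have hcI : ‖c I‖ ≤ (Cd : ℝ) ^ 9 := by
    obtain ⟨k1, k2⟩ := Fca_kI hB (J := A \ I) (Finset.sdiff_subset.trans hA9)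
    rw [hc]
    simp only [Complex.norm_real, norm_mul, norm_pow, norm_neg, norm_one, one_pow, one_mul]
    rw [Real.norm_eq_abs, abs_of_nonneg k1]
    exact k2
  refine mul_le_mul hcI ?_ (norm_nonneg _) (by positivity)
  have h1 : ‖∑ r ∈ SI P I, ∑ m ∈ Ioc M (2 * M), a m * T r m‖ ≤
      ∑ x ∈ SI P I ×ˢ Ioc M (2 * M), ‖T x.1 x.2‖ := by
    rw [Finset.sum_product]
    refine (norm_sum_le _ _).trans (Finset.sum_le_sum fun r _ => ?_)
    refine (norm_sum_le _ _).trans (Finset.sum_le_sum fun m _ => ?_)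
    rw [norm_mul]
    exact mul_le_of_le_one_left (norm_nonneg _) (ha m)
  refine h1.trans (le_trans (le_abs_self _) (Real.abs_le_sqrt ?_))
  refine (sq_sum_le_card_mul_sum_sq).trans ?_
  have hcard : ((SI P I ×ˢ Ioc M (2 * M)).card : ℝ) = (SI P I).card * M := by
    rw [Finset.card_product, Nat.card_Ioc]
    have : 2 * M - M = M := by omega
    rw [this]
    push_cast
    ring
  rw [hcard]
  refine mul_le_mul_of_nonneg_left ?_ (by positivity)
  rw [Finset.sum_product, WW]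
  refine Finset.sum_le_sum fun r _ => ?_
  calc ∑ m ∈ Ioc M (2 * M), ‖T r m‖ ^ 2
      ≤ ∑ m ∈ Ioc M (2 * M), psi M m * ‖T r m‖ ^ 2 := by
        refine Finset.sum_le_sum fun m hm => ?_
        rw [Finset.mem_Ioc] at hm
        have h2 : 1 ≤ psi M m := Fca_psi hM hm.1.le (by omega)
        have h3 : 0 ≤ ‖T r m‖ ^ 2 := by positivity
        nlinarith
    _ ≤ ∑ m ∈ range (4 * M), psi M m * ‖T r m‖ ^ 2 := by
        refine Finset.sum_le_sum_of_subset_of_nonneg ?_ fun m _ _ =>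
          mul_nonneg (Fca_psi0 M m) (by positivity)
        intro m hm
        rw [Finset.mem_Ioc] at hm
        rw [Finset.mem_range]
        omega
    _ = _ := by rw [hT]

end H69BG
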