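import Pool.Agent.H69.BG.Kla
import Pool.Agent.H69.BG.Ez

/-!
# KLB: the fourth moment of Kloosterman sums

* `klb_orth`: `|S|⁴ = S S S̄ S̄`; expand over `r1, r2, r3, r4` (`+` for `r1, r2`, conjugates for `r3, r4`) and sum over `a` and `h`
  with `eZ_sum`: `∑_a ∑_h |S(a,h)|⁴ = k² #{...}`, the set of `kcount`.
* `klb_unit`: `S(a u, h) = S(a, h u)` for a unit `u`: substitute `ρ → u ρ`: `a u (uρ)⁻¹ + h u ρ = a ρ⁻¹ + (h u) ρ`. Hence
  `Phi4 k (a u) = Phi4 k a`.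
* `phi4_le`: let `g = gcd(a.val, k)`. The elements `a u` (`u` unit) run through a set of at least `φ(k)/g` elements: the fibres of
  `u ↦ a u` have at most `g` elements (`a (u - u') = 0` iff `k/g ∣ u - u'`, at most `g` residues mod `k`). So
  `(φ(k)/g) Phi4 k a ≤ ∑_{a'} Phi4 k a' ≤ k² · 2 k² τ(k)²`.
-/

open Finset H69LB

namespace H69BG

private theorem KLB_pos (k : ℕ) [NeZero k] : 1 ≤ k := Nat.one_le_iff_ne_zero.mpr (NeZero.ne k)

private theorem KLB_pow4 (z : ℂ) :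
    ((‖z‖ ^ 4 : ℝ) : ℂ) = z * z * ((starRingEnd ℂ) z * (starRingEnd ℂ) z) := by
  have h : ((‖z‖ ^ 2 : ℝ) : ℂ) = z * (starRingEnd ℂ) z := by
    rw [Complex.mul_conj, Complex.normSq_eq_norm_sq]
  have h2 : (‖z‖ ^ 4 : ℝ) = ‖z‖ ^ 2 * ‖z‖ ^ 2 := by ring
  rw [h2, Complex.ofReal_mul, h]
  ring

private theorem KLB_conj (k : ℕ) [NeZero k] (a h : ZMod k) : (starRingEnd ℂ) (KS k a h) =
    ∑ ρ : (ZMod k)ˣ, eZ k (-(a * ((ρ⁻¹ : (ZMod k)ˣ) : ZMod k) + h * (ρ : ZMod k))) := by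
  unfold KS
  rw [map_sum]
  exact Finset.sum_congr rfl fun ρ _ => (eZ_neg (KLB_pos k) _).symm

private def KLB_A {k : ℕ} (r : (ZMod k)ˣ × (ZMod k)ˣ × (ZMod k)ˣ × (ZMod k)ˣ) : ZMod k :=
  ((r.1⁻¹ : (ZMod k)ˣ) : ZMod k) + ((r.2.1⁻¹ : (ZMod k)ˣ) : ZMod k) -
    (((r.2.2.1⁻¹ : (ZMod k)ˣ) : ZMod k) + ((r.2.2.2⁻¹ : (ZMod k)ˣ) : ZMod k))

private def KLB_H {k : ℕ} (r : (ZMod k)ˣ × (ZMod k)ˣ × (ZMod k)ˣ × (ZMod k)ˣ) : ZMod k :=
  (r.1 : ZMod k) + (r.2.1 : ZMod k) - ((r.2.2.1 : ZMod k) + (r.2.2.2 : ZMod k))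

private theorem KLB_expand (k : ℕ) [NeZero k] (a h : ZMod k) :
    ((‖KS k a h‖ ^ 4 : ℝ) : ℂ) =
      ∑ r : (ZMod k)ˣ × (ZMod k)ˣ × (ZMod k)ˣ × (ZMod k)ˣ,
        eZ k (KLB_A r * a) * eZ k (KLB_H r * h) := by
  have hk := KLB_pos k
  have key : ∀ r : (ZMod k)ˣ × (ZMod k)ˣ × (ZMod k)ˣ × (ZMod k)ˣ,
      eZ k (KLB_A r * a) * eZ k (KLB_H r * h) =
      eZ k (a * ((r.1⁻¹ : (ZMod k)ˣ) : ZMod k) + h * (r.1 : ZMod k)) *
        (eZ k (a * ((r.2.1⁻¹ : (ZMod k)ˣ) : ZMod k) + h * (r.2.1 : ZMod k)) *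
        (eZ k (-(a * ((r.2.2.1⁻¹ : (ZMod k)ˣ) : ZMod k) + h * (r.2.2.1 : ZMod k))) *
          eZ k (-(a * ((r.2.2.2⁻¹ : (ZMod k)ˣ) : ZMod k) + h * (r.2.2.2 : ZMod k))))) := by
    intro r
    rw [← eZ_add hk, ← eZ_add hk, ← eZ_add hk, ← eZ_add hk]
    congr 1
    unfold KLB_A KLB_H
    ring
  rw [KLB_pow4, KLB_conj]
  unfold KS
  simp only [key]
  rw [Fintype.sum_prod_type]
  rw [mul_assoc, Finset.sum_mul]
  refine Finset.sum_congr rfl fun r1 _ => ?_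
  rw [Fintype.sum_prod_type, Finset.sum_mul, Finset.mul_sum]
  refine Finset.sum_congr rfl fun r2 _ => ?_
  rw [Fintype.sum_prod_type, Finset.sum_mul, Finset.mul_sum, Finset.mul_sum]
  refine Finset.sum_congr rfl fun r3 _ => ?_
  rw [Finset.mul_sum, Finset.mul_sum, Finset.mul_sum]

theorem klb_orth (k : ℕ) [NeZero k] : ∑ a : ZMod k, Phi4 k a =
    k ^ 2 * (((univ : Finset ((ZMod k)ˣ × (ZMod k)ˣ × (ZMod k)ˣ × (ZMod k)ˣ)).filter
      (fun r => (r.1 : ZMod k) + (r.2.1 : ZMod k) = (r.2.2.1 : ZMod k) + (r.2.2.2 : ZMod k) ∧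
        ((r.1⁻¹ : (ZMod k)ˣ) : ZMod k) + ((r.2.1⁻¹ : (ZMod k)ˣ) : ZMod k) =
          ((r.2.2.1⁻¹ : (ZMod k)ˣ) : ZMod k) + ((r.2.2.2⁻¹ : (ZMod k)ˣ) : ZMod k))).card : ℝ) := by
  have h1 : ((∑ a : ZMod k, Phi4 k a : ℝ) : ℂ) =
      ∑ a : ZMod k, ∑ h : ZMod k, ∑ r : (ZMod k)ˣ × (ZMod k)ˣ × (ZMod k)ˣ × (ZMod k)ˣ,
        eZ k (KLB_A r * a) * eZ k (KLB_H r * h) := by
    unfold Phi4
    rw [Complex.ofReal_sum]
    refine Finset.sum_congr rfl fun a _ => ?_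
    rw [Complex.ofReal_sum]
    exact Finset.sum_congr rfl fun h _ => KLB_expand k a h
  have h2 : ∑ a : ZMod k, ∑ h : ZMod k, ∑ r : (ZMod k)ˣ × (ZMod k)ˣ × (ZMod k)ˣ × (ZMod k)ˣ,
        eZ k (KLB_A r * a) * eZ k (KLB_H r * h) =
      ∑ r : (ZMod k)ˣ × (ZMod k)ˣ × (ZMod k)ˣ × (ZMod k)ˣ,
        (∑ a : ZMod k, eZ k (KLB_A r * a)) * ∑ h : ZMod k, eZ k (KLB_H r * h) := by
    have e1 : ∀ a : ZMod k, ∑ h : ZMod k, ∑ r : (ZMod k)ˣ × (ZMod k)ˣ × (ZMod k)ˣ × (ZMod k)ˣ,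
        eZ k (KLB_A r * a) * eZ k (KLB_H r * h) =
        ∑ r : (ZMod k)ˣ × (ZMod k)ˣ × (ZMod k)ˣ × (ZMod k)ˣ,
          eZ k (KLB_A r * a) * ∑ h : ZMod k, eZ k (KLB_H r * h) := by
      intro a
      rw [Finset.sum_comm]
      exact Finset.sum_congr rfl fun r _ => (Finset.mul_sum _ _ _).symm
    simp only [e1]
    rw [Finset.sum_comm]
    exact Finset.sum_congr rfl fun r _ => (Finset.sum_mul _ _ _).symm
  have h3 : ∀ r : (ZMod k)ˣ × (ZMod k)ˣ × (ZMod k)ˣ × (ZMod k)ˣ,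
      (∑ a : ZMod k, eZ k (KLB_A r * a)) * ∑ h : ZMod k, eZ k (KLB_H r * h) =
      if ((r.1 : ZMod k) + (r.2.1 : ZMod k) = (r.2.2.1 : ZMod k) + (r.2.2.2 : ZMod k) ∧
        ((r.1⁻¹ : (ZMod k)ˣ) : ZMod k) + ((r.2.1⁻¹ : (ZMod k)ˣ) : ZMod k) =
          ((r.2.2.1⁻¹ : (ZMod k)ˣ) : ZMod k) + ((r.2.2.2⁻¹ : (ZMod k)ˣ) : ZMod k))
        then (k : ℂ) ^ 2 else 0 := by
    intro r
    rw [eZ_sum, eZ_sum]
    have hA : KLB_A r = 0 ↔ ((r.1⁻¹ : (ZMod k)ˣ) : ZMod k) + ((r.2.1⁻¹ : (ZMod k)ˣ) : ZMod k) =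
          ((r.2.2.1⁻¹ : (ZMod k)ˣ) : ZMod k) + ((r.2.2.2⁻¹ : (ZMod k)ˣ) : ZMod k) := sub_eq_zero
    have hH : KLB_H r = 0 ↔ (r.1 : ZMod k) + (r.2.1 : ZMod k) =
        (r.2.2.1 : ZMod k) + (r.2.2.2 : ZMod k) := sub_eq_zero
    simp only [hA, hH]
    by_cases c1 : (r.1 : ZMod k) + (r.2.1 : ZMod k) = (r.2.2.1 : ZMod k) + (r.2.2.2 : ZMod k)
    · by_cases c2 : ((r.1⁻¹ : (ZMod k)ˣ) : ZMod k) + ((r.2.1⁻¹ : (ZMod k)ˣ) : ZMod k) =
          ((r.2.2.1⁻¹ : (ZMod k)ˣ) : ZMod k) + ((r.2.2.2⁻¹ : (ZMod k)ˣ) : ZMod k)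
      · rw [if_pos c1, if_pos c2, if_pos ⟨c1, c2⟩]
        ring
      · rw [if_neg c2, zero_mul, if_neg]
        exact fun h => c2 h.2
    · rw [if_neg c1, mul_zero, if_neg]
      exact fun h => c1 h.1
  have h4 : ((∑ a : ZMod k, Phi4 k a : ℝ) : ℂ) = ((k ^ 2 *
      (((univ : Finset ((ZMod k)ˣ × (ZMod k)ˣ × (ZMod k)ˣ × (ZMod k)ˣ)).filter
      (fun r => (r.1 : ZMod k) + (r.2.1 : ZMod k) = (r.2.2.1 : ZMod k) + (r.2.2.2 : ZMod k) ∧
        ((r.1⁻¹ : (ZMod k)ˣ) : ZMod k) + ((r.2.1⁻¹ : (ZMod k)ˣ) : ZMod k) =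
          ((r.2.2.1⁻¹ : (ZMod k)ˣ) : ZMod k) + ((r.2.2.2⁻¹ : (ZMod k)ˣ) : ZMod k))).card : ℝ) : ℝ) :
        ℂ) := by
    rw [h1, h2, Finset.sum_congr rfl fun r _ => h3 r, ← Finset.sum_filter, Finset.sum_const,
      nsmul_eq_mul]
    push_cast
    ring
  exact_mod_cast h4

private theorem KLB_KS (k : ℕ) [NeZero k] (a : ZMod k) (u : (ZMod k)ˣ) (h : ZMod k) :
    KS k (a * u) h = KS k a (h * u) := by
  unfold KS
  rw [← Equiv.sum_comp (Equiv.mulLeft u)]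
  refine Finset.sum_congr rfl fun ρ _ => ?_
  congr 1
  rw [Equiv.coe_mulLeft, mul_inv, Units.val_mul, Units.val_mul]
  have h1 : (u : ZMod k) * ((u⁻¹ : (ZMod k)ˣ) : ZMod k) = 1 := Units.mul_inv u
  linear_combination (a * ((ρ⁻¹ : (ZMod k)ˣ) : ZMod k)) * h1

theorem klb_unit (k : ℕ) [NeZero k] (a : ZMod k) (u : (ZMod k)ˣ) : Phi4 k (a * u) = Phi4 k a := by
  unfold Phi4
  simp only [KLB_KS]
  exact Equiv.sum_comp (Units.mulRight u) (fun h => ‖KS k a h‖ ^ 4)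

/-- the number of zero divisors of `a` -/
private theorem KLB_ann (k : ℕ) [NeZero k] (a : ZMod k) :
    ((univ : Finset (ZMod k)).filter (fun y => a * y = 0)).card ≤ Nat.gcd a.val k := by
  have hk : 0 < k := Nat.pos_of_ne_zero (NeZero.ne k)
  set g := Nat.gcd a.val k with hg
  have hg0 : 0 < g := Nat.gcd_pos_of_pos_right _ hk
  obtain ⟨a', k', hco, ha, hk'⟩ := Nat.exists_coprime a.val k
  rw [← hg] at ha hk'
  have hk'0 : 0 < k' := by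
    rcases Nat.eq_zero_or_pos k' with h | h
    · rw [h, zero_mul] at hk'
      omega
    · exact h
  have hdvd : ∀ y : ZMod k, a * y = 0 → k' ∣ y.val := by
    intro y hy
    have h1 : k ∣ a.val * y.val := by
      rw [← ZMod.natCast_eq_zero_iff, Nat.cast_mul, ZMod.natCast_zmod_val, ZMod.natCast_zmod_val]
      exact hy
    have h2 : k' * g ∣ (a' * y.val) * g := by
      have h5 : (a' * y.val) * g = (a' * g) * y.val := by ring
      rw [h5, ← ha, ← hk']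
      exact h1
    have h3 : k' ∣ a' * y.val := Nat.dvd_of_mul_dvd_mul_right hg0 h2
    exact Nat.Coprime.dvd_of_dvd_mul_left hco.symm h3
  calc ((univ : Finset (ZMod k)).filter (fun y => a * y = 0)).card
      ≤ (Finset.range g).card := by
        refine Finset.card_le_card_of_injOn (fun y => y.val / k') ?_ ?_
        · intro y hy
          have hy' : a * y = 0 := by simpa using hy
          have h1 : y.val < k := ZMod.val_lt y
          simp only [Finset.coe_range, Set.mem_Iio]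
          rw [Nat.div_lt_iff_lt_mul hk'0]
          calc y.val < k := h1
            _ = g * k' := by rw [hk']; ring
        · intro y hy z hz hyz
          have hy' : a * y = 0 := by simpa using hy
          have hz' : a * z = 0 := by simpa using hz
          have h1 := Nat.div_mul_cancel (hdvd y hy')
          have h2 := Nat.div_mul_cancel (hdvd z hz')
          have hyz' : y.val / k' = z.val / k' := hyz
          rw [hyz', h2] at h1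
          exact (ZMod.val_injective k h1).symm
    _ = g := Finset.card_range g

private theorem KLB_fib (k : ℕ) [NeZero k] (a b : ZMod k) :
    ((univ : Finset ((ZMod k)ˣ)).filter (fun u : (ZMod k)ˣ => a * (u : ZMod k) = b)).card ≤ Nat.gcd a.val k := by
  rcases Finset.eq_empty_or_nonempty
    ((univ : Finset ((ZMod k)ˣ)).filter (fun u : (ZMod k)ˣ => a * (u : ZMod k) = b)) with h | ⟨u₀, hu₀⟩
  · rw [h, Finset.card_empty]
    exact Nat.zero_le _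
  · have hu₀' : a * (u₀ : ZMod k) = b := by simpa using hu₀
    refine le_trans ?_ (KLB_ann k a)
    refine Finset.card_le_card_of_injOn (fun u : (ZMod k)ˣ => (u : ZMod k) - u₀) ?_ ?_
    · intro u hu
      have hu' : a * (u : ZMod k) = b := by simpa using hu
      simp only [Finset.coe_filter, Finset.mem_univ, true_and, Set.mem_ofPred_eq]
      rw [mul_sub, hu', hu₀', sub_self]
    · intro u _ v _ huv
      have h1 : (u : ZMod k) - u₀ = v - u₀ := huv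
      exact Units.ext (sub_left_inj.mp h1)

theorem phi4_le (k : ℕ) [NeZero k] (a : ZMod k) :
    Phi4 k a ≤ 2 * (Nat.gcd a.val k : ℝ) * k ^ 4 * (k.divisors.card : ℝ) ^ 2 / (Nat.totient k : ℝ) := by
  have hk : 0 < k := Nat.pos_of_ne_zero (NeZero.ne k)
  have hφ : 0 < (Nat.totient k : ℝ) := by
    exact_mod_cast Nat.totient_pos.mpr hk
  have hnn : ∀ b : ZMod k, 0 ≤ Phi4 k b := fun b =>
    Finset.sum_nonneg fun h _ => pow_nonneg (norm_nonneg _) 4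
  rw [le_div_iff₀ hφ]
  have h1 : Phi4 k a * (Nat.totient k : ℝ) = ∑ u : (ZMod k)ˣ, Phi4 k (a * u) := by
    simp only [klb_unit]
    rw [Finset.sum_const, Finset.card_univ, ZMod.card_units_eq_totient, nsmul_eq_mul, mul_comm]
  have h2 : ∑ u : (ZMod k)ˣ, Phi4 k (a * u) = ∑ b : ZMod k,
      (((univ : Finset ((ZMod k)ˣ)).filter (fun u : (ZMod k)ˣ => a * (u : ZMod k) = b)).card : ℝ) * Phi4 k b := by
    rw [← Finset.sum_fiberwise_of_maps_to (s := (univ : Finset ((ZMod k)ˣ)))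
      (t := (univ : Finset (ZMod k))) (g := fun u : (ZMod k)ˣ => a * (u : ZMod k))
      (fun u _ => Finset.mem_univ _)]
    refine Finset.sum_congr rfl fun b _ => ?_
    rw [Finset.sum_congr rfl (g := fun _ => Phi4 k b), Finset.sum_const, nsmul_eq_mul]
    intro u hu
    rw [(Finset.mem_filter.mp hu).2]
  have h3 : ∑ b : ZMod k,
      (((univ : Finset ((ZMod k)ˣ)).filter (fun u : (ZMod k)ˣ => a * (u : ZMod k) = b)).card : ℝ) * Phi4 k b ≤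
      (Nat.gcd a.val k : ℝ) * ∑ b : ZMod k, Phi4 k b := by
    rw [Finset.mul_sum]
    refine Finset.sum_le_sum fun b _ => ?_
    exact mul_le_mul_of_nonneg_right (by exact_mod_cast KLB_fib k a b) (hnn b)
  rw [h1, h2]
  refine h3.trans ?_
  rw [klb_orth]
  have h4 : (((univ : Finset ((ZMod k)ˣ × (ZMod k)ˣ × (ZMod k)ˣ × (ZMod k)ˣ)).filter
      (fun r => (r.1 : ZMod k) + (r.2.1 : ZMod k) = (r.2.2.1 : ZMod k) + (r.2.2.2 : ZMod k) ∧
        ((r.1⁻¹ : (ZMod k)ˣ) : ZMod k) + ((r.2.1⁻¹ : (ZMod k)ˣ) : ZMod k) =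
          ((r.2.2.1⁻¹ : (ZMod k)ˣ) : ZMod k) + ((r.2.2.2⁻¹ : (ZMod k)ˣ) : ZMod k))).card : ℝ)
      ≤ 2 * k ^ 2 * (k.divisors.card : ℝ) ^ 2 := by
    exact_mod_cast kcount k
  have h5 : (Nat.gcd a.val k : ℝ) * (k ^ 2 * (2 * k ^ 2 * (k.divisors.card : ℝ) ^ 2)) =
      2 * (Nat.gcd a.val k : ℝ) * k ^ 4 * (k.divisors.card : ℝ) ^ 2 := by ring
  rw [← h5]
  exact mul_le_mul_of_nonneg_left (mul_le_mul_of_nonneg_left h4 (by positivity)) (by positivity)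

end H69BG
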