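import Pool.Agent.H69.BG.Incb
import Pool.Agent.H69.BG.Klb

/-!
# INC: incomplete sums of `e(a r⁻¹/k) G(r)`

`inc_complete`, Cauchy-Schwarz `∑ wt |F||Gh| ≤ (∑ wt |F|²)^{1/2} (∑ wt |Gh|²)^{1/2}`, `incb_F`, `incb_G`:
`≤ (4 + log N) (Phi4 L/(b k))^{1/4} b^{1/2} = (4 + log N) (Phi4 L b/k)^{1/4}`.
-/

open Finset H69LB

namespace H69BG

private theorem Inc_sqrt_sqrt {x : ℝ} (hx : 0 ≤ x) : Real.sqrt (Real.sqrt x) = x ^ (1 / 4 : ℝ) := by
  rw [Real.sqrt_eq_rpow, Real.sqrt_eq_rpow, ← Real.rpow_mul hx]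
  norm_num

theorem inc {k b : ℕ} [NeZero k] (hb : 1 ≤ b) (hkb : Nat.Coprime k b) (a : ZMod k) (G : ZMod b → ℂ)
    (hG : ∀ s, ‖G s‖ ≤ 1) {L X Y : ℕ} (hbL : b ≤ L) (hLk : L ≤ k) (hXY : Y ≤ X + L) :
    ‖∑ r ∈ (Ioc X Y).filter (fun r => Nat.Coprime r k), eZ k (a * (r : ZMod k)⁻¹) * G (r : ZMod b)‖
      ≤ (4 + Real.log ((k * b : ℕ) : ℝ)) * (Phi4 k a * L * b / k) ^ (1 / 4 : ℝ) := by
  have : NeZero b := ⟨by omega⟩
  have hk : 1 ≤ k := Nat.one_le_iff_ne_zero.2 (NeZero.ne k)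
  have hk0 : (0 : ℝ) < k := by exact_mod_cast hk
  have hb0 : (0 : ℝ) < b := by exact_mod_cast hb
  have hL0 : (0 : ℝ) ≤ L := Nat.cast_nonneg L
  have hlog : 0 ≤ Real.log ((k * b : ℕ) : ℝ) := Real.log_natCast_nonneg _
  have hPhi : 0 ≤ Phi4 k a := by unfold Phi4; positivity
  have hF := incb_F hkb a hbL hLk
  have hGG := incb_G hkb G hG hLk
  refine (inc_complete hkb a G hXY).trans ?_
  set T := 4 + Real.log ((k * b : ℕ) : ℝ) with hT
  have hT0 : 0 ≤ T := by positivity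
  set F : ℕ → ℝ := fun h => ‖KS k a (-((h : ZMod k) * (b : ZMod k)⁻¹))‖ with hFd
  set H : ℕ → ℝ := fun h => ‖Gh k b G h‖ with hHd
  set w : ℕ → ℝ := fun h => wt (k * b) L h with hw
  have hw0 : ∀ h, 0 ≤ w h := fun h => wt_nonneg _ _ _
  have e : ∀ h, Real.sqrt (w h) ^ 2 = w h := fun h => Real.sq_sqrt (hw0 h)
  have h8 : (∑ h ∈ range (k * b), w h * F h * H h) ^ 2
      ≤ (∑ h ∈ range (k * b), w h * F h ^ 2) * ∑ h ∈ range (k * b), w h * H h ^ 2 := by
    have := Finset.sum_mul_sq_le_sq_mul_sq (range (k * b)) (fun h => Real.sqrt (w h) * F h)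
      (fun h => Real.sqrt (w h) * H h)
    refine (le_of_eq ?_).trans (this.trans (le_of_eq ?_))
    · congr 1
      refine Finset.sum_congr rfl fun h _ => ?_
      calc w h * F h * H h = Real.sqrt (w h) ^ 2 * F h * H h := by rw [e]
        _ = Real.sqrt (w h) * F h * (Real.sqrt (w h) * H h) := by ring
    · congr 1
      · exact Finset.sum_congr rfl fun h _ => by rw [mul_pow, e]
      · exact Finset.sum_congr rfl fun h _ => by rw [mul_pow, e]
  have hx0 : 0 ≤ Phi4 k a * L * b / k := by positivity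
  have h9 : (∑ h ∈ range (k * b), w h * F h * H h) ^ 2
      ≤ (T * (Phi4 k a * L * b / k) ^ (1 / 4 : ℝ)) ^ 2 := by
    refine h8.trans ((mul_le_mul hF hGG
      (Finset.sum_nonneg fun h _ => mul_nonneg (hw0 h) (by positivity)) (by positivity)).trans (le_of_eq ?_))
    rw [← Inc_sqrt_sqrt hx0, mul_pow, Real.sq_sqrt (Real.sqrt_nonneg _)]
    have h10 : (b : ℝ) * Real.sqrt (Phi4 k a * L / (b * k)) = Real.sqrt (Phi4 k a * L * b / k) := by
      rw [eq_comm, Real.sqrt_eq_iff_mul_self_eq hx0 (by positivity)]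
      have h11 := Real.mul_self_sqrt (show 0 ≤ Phi4 k a * L / (b * k) by positivity)
      symm
      calc (b : ℝ) * Real.sqrt (Phi4 k a * L / (b * k)) * (b * Real.sqrt (Phi4 k a * L / (b * k)))
          = b * b * (Real.sqrt (Phi4 k a * L / (b * k)) * Real.sqrt (Phi4 k a * L / (b * k))) := by ring
        _ = Phi4 k a * L * b / k := by
          rw [h11]
          field_simp
    rw [← h10]
    ring
  exact (abs_le_of_sq_le_sq' h9 (by positivity)).2

end H69BG
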