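import Pool.Agent.H69.BG.Wts

/-!
# INCA: completion of the incomplete sums

`N = k b`, `f(r) = 1[(r,k)=1] e(a r⁻¹/k) G(r mod b)` has period `N`. `∑_{r mod N} f(r) e(-h r/N) = KS k a (-h b⁻¹) · Gh h` by the Chinese remainder theorem
(`r ↔ (r mod k, r mod b)`) and `eZ_crt`; finite Fourier inversion `f(r) = (1/N) ∑_{h<N} (...) e(h r/N)`. Sum over `r ∈ (X, Y]`, exchange, and use `geo_le`.
-/

open Finset H69LB

namespace H69BG

/-- the Fourier coefficients of `G` -/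
noncomputable def Gh (k b : ℕ) [NeZero b] (G : ZMod b → ℂ) (h : ℕ) : ℂ :=
  ∑ σ : ZMod b, G σ * eZ b (-((h : ZMod b) * (k : ZMod b)⁻¹ * σ))

private theorem Inca_sum_crt {k b : ℕ} [NeZero k] [NeZero b] (hkb : Nat.Coprime k b)
    (φ : ZMod k → ℂ) (ψ : ZMod b → ℂ) :
    ∑ h ∈ range (k * b), φ (h : ZMod k) * ψ (h : ZMod b) = (∑ x : ZMod k, φ x) * ∑ y : ZMod b, ψ y := by
  haveI : NeZero (k * b) := ⟨Nat.mul_ne_zero (NeZero.ne k) (NeZero.ne b)⟩
  have h1 : ∑ h ∈ range (k * b), φ (h : ZMod k) * ψ (h : ZMod b)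
      = ∑ z : ZMod (k * b), φ ((ZMod.chineseRemainder hkb z).1) * ψ ((ZMod.chineseRemainder hkb z).2) := by
    refine Finset.sum_nbij' (fun h => (h : ZMod (k * b))) (fun z => z.val) ?_ ?_ ?_ ?_ ?_
    · intro h _; exact mem_univ _
    · intro z _; exact mem_range.2 (ZMod.val_lt z)
    · intro h hh; exact ZMod.val_cast_of_lt (mem_range.1 hh)
    · intro z _; exact ZMod.natCast_zmod_val z
    · intro h _
      have : ZMod.chineseRemainder hkb (h : ZMod (k * b)) = ((h : ZMod k), (h : ZMod b)) := by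
        rw [map_natCast]; rfl
      rw [this]
  have h2 := Equiv.sum_comp (ZMod.chineseRemainder hkb).toEquiv (fun p : ZMod k × ZMod b => φ p.1 * ψ p.2)
  rw [h1]
  refine Eq.trans h2 ?_
  rw [Fintype.sum_prod_type, Finset.sum_mul_sum]

private theorem Inca_unit {k b : ℕ} (hkb : Nat.Coprime k b) (x y : ZMod k) :
    (b : ZMod k)⁻¹ * (x - y) = 0 ↔ y = x := by
  have hu : IsUnit ((b : ZMod k)⁻¹) := by
    have : (b : ZMod k) * (b : ZMod k)⁻¹ = 1 := ZMod.coe_mul_inv_eq_one b hkb.symm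
    exact IsUnit.of_mul_eq_one_right _ this
  rw [hu.mul_right_eq_zero, sub_eq_zero, eq_comm]

/-- Fourier inversion -/
private theorem Inca_inv {k b : ℕ} [NeZero k] [NeZero b] (hkb : Nat.Coprime k b) (a : ZMod k) (G : ZMod b → ℂ)
    (r : ℕ) :
    ∑ h ∈ range (k * b), KS k a (-((h : ZMod k) * (b : ZMod k)⁻¹)) * Gh k b G h * ee ((h : ℝ) * r / ((k * b : ℕ) : ℝ))
      = (k * b : ℂ) * (if Nat.Coprime r k then eZ k (a * (r : ZMod k)⁻¹) * G (r : ZMod b) else 0) := by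
  have hk : 1 ≤ k := Nat.one_le_iff_ne_zero.2 (NeZero.ne k)
  have hb : 1 ≤ b := Nat.one_le_iff_ne_zero.2 (NeZero.ne b)
  -- expand
  have hterm : ∀ h ∈ range (k * b),
      KS k a (-((h : ZMod k) * (b : ZMod k)⁻¹)) * Gh k b G h * ee ((h : ℝ) * r / ((k * b : ℕ) : ℝ))
      = (∑ ρ : (ZMod k)ˣ, eZ k (a * ((ρ⁻¹ : (ZMod k)ˣ) : ZMod k)) *
            eZ k (((b : ZMod k)⁻¹ * ((r : ZMod k) - ρ)) * (h : ZMod k))) *
          (∑ σ : ZMod b, G σ * eZ b (((k : ZMod b)⁻¹ * ((r : ZMod b) - σ)) * (h : ZMod b))) := by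
    intro h _
    have hee : ee ((h : ℝ) * r / ((k * b : ℕ) : ℝ))
        = eZ k ((h * r : ZMod k) * (b : ZMod k)⁻¹) * eZ b ((h * r : ZMod b) * (k : ZMod b)⁻¹) := by
      have := eZ_crt hk hb hkb ((h * r : ℕ) : ℤ)
      push_cast at this ⊢
      exact this
    rw [hee, KS, Gh]
    rw [mul_mul_mul_comm]
    congr 1
    · rw [Finset.sum_mul]
      refine Finset.sum_congr rfl fun ρ _ => ?_
      rw [← eZ_add hk, ← eZ_add hk]
      congr 1
      ring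
    · rw [Finset.sum_mul]
      refine Finset.sum_congr rfl fun σ _ => ?_
      rw [mul_assoc, ← eZ_add hb]
      congr 2
      ring
  rw [Finset.sum_congr rfl hterm,
    Inca_sum_crt hkb
      (fun x => ∑ ρ : (ZMod k)ˣ, eZ k (a * ((ρ⁻¹ : (ZMod k)ˣ) : ZMod k)) *
            eZ k (((b : ZMod k)⁻¹ * ((r : ZMod k) - ρ)) * x))
      (fun y => ∑ σ : ZMod b, G σ * eZ b (((k : ZMod b)⁻¹ * ((r : ZMod b) - σ)) * y))]
  have h1 : ∑ x : ZMod k, ∑ ρ : (ZMod k)ˣ, eZ k (a * ((ρ⁻¹ : (ZMod k)ˣ) : ZMod k)) *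
            eZ k (((b : ZMod k)⁻¹ * ((r : ZMod k) - ρ)) * x)
      = k * (if Nat.Coprime r k then eZ k (a * (r : ZMod k)⁻¹) else 0) := by
    rw [Finset.sum_comm]
    have h11 : ∀ ρ : (ZMod k)ˣ, ∑ x : ZMod k, eZ k (a * ((ρ⁻¹ : (ZMod k)ˣ) : ZMod k)) *
            eZ k (((b : ZMod k)⁻¹ * ((r : ZMod k) - ρ)) * x)
        = if (ρ : ZMod k) = r then k * eZ k (a * (r : ZMod k)⁻¹) else 0 := by
      intro ρ
      rw [← Finset.mul_sum, eZ_sum]
      by_cases hρ : (ρ : ZMod k) = r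
      · rw [if_pos ((Inca_unit hkb _ _).2 hρ), if_pos hρ, ← hρ, ZMod.inv_coe_unit, mul_comm]
      · rw [if_neg (fun h => hρ ((Inca_unit hkb _ _).1 h)), if_neg hρ, mul_zero]
    rw [Finset.sum_congr rfl fun ρ _ => h11 ρ]
    by_cases hc : Nat.Coprime r k
    · rw [if_pos hc]
      rw [Finset.sum_eq_single (ZMod.unitOfCoprime r hc)]
      · rw [if_pos (ZMod.coe_unitOfCoprime r hc)]
      · intro ρ _ hρ
        rw [if_neg]
        intro h
        apply hρ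
        ext
        rw [h, ZMod.coe_unitOfCoprime]
      · intro h; exact absurd (mem_univ _) h
    · rw [if_neg hc, mul_zero]
      refine Finset.sum_eq_zero fun ρ _ => ?_
      rw [if_neg]
      intro h
      apply hc
      exact (ZMod.isUnit_iff_coprime r k).1 (h ▸ ρ.isUnit)
  have h2 : ∑ y : ZMod b, ∑ σ : ZMod b, G σ * eZ b (((k : ZMod b)⁻¹ * ((r : ZMod b) - σ)) * y)
      = b * G (r : ZMod b) := by
    rw [Finset.sum_comm]
    have h21 : ∀ σ : ZMod b, ∑ y : ZMod b, G σ * eZ b (((k : ZMod b)⁻¹ * ((r : ZMod b) - σ)) * y)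
        = if σ = r then b * G (r : ZMod b) else 0 := by
      intro σ
      rw [← Finset.mul_sum, eZ_sum]
      by_cases hσ : σ = r
      · rw [if_pos ((Inca_unit hkb.symm _ _).2 hσ), if_pos hσ, ← hσ, mul_comm]
      · rw [if_neg (fun h => hσ ((Inca_unit hkb.symm _ _).1 h)), if_neg hσ, mul_zero]
    rw [Finset.sum_congr rfl fun σ _ => h21 σ]
    simp
  rw [h1, h2]
  split_ifs
  · ring
  · ring

theorem inc_complete {k b : ℕ} [NeZero k] [NeZero b] (hkb : Nat.Coprime k b) (a : ZMod k) (G : ZMod b → ℂ)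
    {L X Y : ℕ} (hXY : Y ≤ X + L) :
    ‖∑ r ∈ (Ioc X Y).filter (fun r => Nat.Coprime r k), eZ k (a * (r : ZMod k)⁻¹) * G (r : ZMod b)‖
      ≤ ∑ h ∈ range (k * b), wt (k * b) L h * ‖KS k a (-((h : ZMod k) * (b : ZMod k)⁻¹))‖ * ‖Gh k b G h‖ := by
  have hN : 1 ≤ k * b := Nat.one_le_iff_ne_zero.2 (Nat.mul_ne_zero (NeZero.ne k) (NeZero.ne b))
  have hN0 : (0 : ℝ) < ((k * b : ℕ) : ℝ) := by exact_mod_cast hN
  have hkbC : ((k : ℂ) * b) ≠ 0 := by
    have : ((k * b : ℕ) : ℂ) ≠ 0 := by exact_mod_cast (Nat.one_le_iff_ne_zero.1 hN)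
    simpa using this
  set c : ℕ → ℂ := fun h => KS k a (-((h : ZMod k) * (b : ZMod k)⁻¹)) * Gh k b G h with hc
  have e1 : (k * b : ℂ) * ∑ r ∈ (Ioc X Y).filter (fun r => Nat.Coprime r k), eZ k (a * (r : ZMod k)⁻¹) * G (r : ZMod b)
      = ∑ h ∈ range (k * b), c h * ∑ r ∈ Ioc X Y, ee ((h : ℝ) * r / ((k * b : ℕ) : ℝ)) := by
    rw [Finset.sum_filter, Finset.mul_sum]
    rw [Finset.sum_congr rfl fun r _ => (Inca_inv hkb a G r).symm]
    rw [Finset.sum_comm]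
    refine Finset.sum_congr rfl fun h _ => ?_
    rw [Finset.mul_sum]
  have e2 : ‖∑ r ∈ (Ioc X Y).filter (fun r => Nat.Coprime r k), eZ k (a * (r : ZMod k)⁻¹) * G (r : ZMod b)‖
      = ‖∑ h ∈ range (k * b), c h * ∑ r ∈ Ioc X Y, ee ((h : ℝ) * r / ((k * b : ℕ) : ℝ))‖ / ((k * b : ℕ) : ℝ) := by
    rw [← e1, norm_mul]
    have : ‖(k * b : ℂ)‖ = ((k * b : ℕ) : ℝ) := by
      rw [← Nat.cast_mul, Complex.norm_natCast]
    rw [this]
    field_simp
  rw [e2, div_le_iff₀ hN0, Finset.sum_mul]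
  refine (norm_sum_le _ _).trans (Finset.sum_le_sum fun h hh => ?_)
  rw [norm_mul]
  have hg := geo_le hN (mem_range.1 hh) hXY
  have hcn : ‖c h‖ = ‖KS k a (-((h : ZMod k) * (b : ZMod k)⁻¹))‖ * ‖Gh k b G h‖ := by
    rw [hc]; exact norm_mul _ _
  calc ‖c h‖ * ‖∑ r ∈ Ioc X Y, ee ((h : ℝ) * r / ((k * b : ℕ) : ℝ))‖
      ≤ ‖c h‖ * (((k * b : ℕ) : ℝ) * wt (k * b) L h) :=
        mul_le_mul_of_nonneg_left hg (norm_nonneg _)
    _ = wt (k * b) L h * ‖KS k a (-((h : ZMod k) * (b : ZMod k)⁻¹))‖ * ‖Gh k b G h‖ * ((k * b : ℕ) : ℝ) := by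
        rw [hcn]; ring

end H69BG
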