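import Pool.Agent.H69.BG.Inca

/-!
# INCB: the two weighted mean values

`N = k b`, `b ≤ L ≤ k`.
* `incb_G`: `Gh h` depends on `h` mod `b` only; group by classes mod `b` and use `wt_class` (`c = b`; `2L/N ≤ 2/b` as `L ≤ k`):
  `∑ wt ‖Gh‖² ≤ ((4 + log N)/b) ∑_{j : ZMod b} ‖∑_σ G σ e(-j k⁻¹ σ/b)‖²`, and the last sum is `b ∑ ‖G‖² ≤ b²` (Parseval; `j ↦ j k⁻¹` is a bijection).
* `incb_F`: `∑ wt |F|² ≤ (∑ wt)^{1/2} (∑ wt |F|⁴)^{1/2}`, `∑ wt ≤ 2 + log N`; `F` depends on `h` mod `k` and `h ↦ -h b⁻¹` is a bijection of `ZMod k`, so by `wt_class` (`c = k`):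
  `∑ wt |F|⁴ ≤ (2L/N + (2 + log N)/k) Phi4 k a ≤ (L/(b k)) (4 + log N) Phi4 k a` (`L ≥ b`).
-/

open Finset H69LB

namespace H69BG

private theorem Incb_group {N L c : ℕ} [NeZero c] (hN : 1 ≤ N) (hL : L ≤ N) (hc : c ∣ N) (f : ZMod c → ℝ)
    (hf : ∀ j, 0 ≤ f j) :
    ∑ h ∈ range N, wt N L h * f (h : ZMod c) ≤ (2 * (L : ℝ) / N + (2 + Real.log N) / c) * ∑ j : ZMod c, f j := by
  rw [← Finset.sum_fiberwise (range N) (fun h : ℕ => (h : ZMod c)), Finset.mul_sum]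
  refine Finset.sum_le_sum fun j _ => ?_
  calc ∑ h ∈ (range N).filter (fun h : ℕ => (h : ZMod c) = j), wt N L h * f (h : ZMod c)
      = (∑ h ∈ (range N).filter (fun h : ℕ => (h : ZMod c) = j), wt N L h) * f j := by
        rw [Finset.sum_mul]
        refine Finset.sum_congr rfl fun h hh => ?_
        rw [(Finset.mem_filter.1 hh).2]
    _ ≤ (2 * (L : ℝ) / N + (2 + Real.log N) / c) * f j :=
        mul_le_mul_of_nonneg_right (wt_class hN hL hc j) (hf j)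

private theorem Incb_unit {k b : ℕ} (hkb : Nat.Coprime k b) : IsUnit ((b : ZMod k)⁻¹) := by
  have : (b : ZMod k) * (b : ZMod k)⁻¹ = 1 := ZMod.coe_mul_inv_eq_one b hkb.symm
  exact IsUnit.of_mul_eq_one_right _ this

/-- Parseval -/
private theorem Incb_pars {b : ℕ} [NeZero b] (u : ZMod b) (hu : IsUnit u) (G : ZMod b → ℂ) :
    ∑ j : ZMod b, ‖∑ σ : ZMod b, G σ * eZ b (-(j * u * σ))‖ ^ 2 = b * ∑ σ : ZMod b, ‖G σ‖ ^ 2 := by
  have hb : 1 ≤ b := Nat.one_le_iff_ne_zero.2 (NeZero.ne b)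
  have key : ((∑ j : ZMod b, ‖∑ σ : ZMod b, G σ * eZ b (-(j * u * σ))‖ ^ 2 : ℝ) : ℂ)
      = ((b * ∑ σ : ZMod b, ‖G σ‖ ^ 2 : ℝ) : ℂ) := by
    push_cast
    have h1 : ∀ j : ZMod b, ((‖∑ σ : ZMod b, G σ * eZ b (-(j * u * σ))‖ : ℂ)) ^ 2
        = ∑ σ : ZMod b, ∑ τ : ZMod b, (G σ * (starRingEnd ℂ) (G τ)) * eZ b ((u * (τ - σ)) * j) := by
      intro j
      rw [← Complex.mul_conj', map_sum, Finset.sum_mul_sum]
      refine Finset.sum_congr rfl fun σ _ => Finset.sum_congr rfl fun τ _ => ?_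
      rw [map_mul, ← eZ_neg hb, mul_mul_mul_comm, ← eZ_add hb]
      congr 2
      ring
    rw [Finset.sum_congr rfl fun j _ => h1 j, Finset.sum_comm, Finset.mul_sum]
    refine Finset.sum_congr rfl fun σ _ => ?_
    rw [Finset.sum_comm]
    have h2 : ∀ τ : ZMod b, ∑ j : ZMod b, (G σ * (starRingEnd ℂ) (G τ)) * eZ b ((u * (τ - σ)) * j)
        = if τ = σ then (b : ℂ) * (‖G σ‖ : ℂ) ^ 2 else 0 := by
      intro τ
      rw [← Finset.mul_sum, eZ_sum]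
      by_cases h : τ = σ
      · rw [if_pos h, h, sub_self, mul_zero, if_pos rfl, Complex.mul_conj']
        ring
      · rw [if_neg h, if_neg, mul_zero]
        intro h3
        exact h (sub_eq_zero.1 ((hu.mul_right_eq_zero).1 h3))
    rw [Finset.sum_congr rfl fun τ _ => h2 τ]
    simp
  exact_mod_cast key

theorem incb_G {k b : ℕ} [NeZero k] [NeZero b] (hkb : Nat.Coprime k b) (G : ZMod b → ℂ) (hG : ∀ s, ‖G s‖ ≤ 1)
    {L : ℕ} (hLk : L ≤ k) :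
    ∑ h ∈ range (k * b), wt (k * b) L h * ‖Gh k b G h‖ ^ 2 ≤ b * (4 + Real.log ((k * b : ℕ) : ℝ)) := by
  have hk : 1 ≤ k := Nat.one_le_iff_ne_zero.2 (NeZero.ne k)
  have hb : 1 ≤ b := Nat.one_le_iff_ne_zero.2 (NeZero.ne b)
  have hN : 1 ≤ k * b := Nat.one_le_iff_ne_zero.2 (Nat.mul_ne_zero (NeZero.ne k) (NeZero.ne b))
  have hLN : L ≤ k * b := hLk.trans (Nat.le_mul_of_pos_right k hb)
  have hk0 : (0 : ℝ) < k := by exact_mod_cast hk
  have hb0 : (0 : ℝ) < b := by exact_mod_cast hb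
  have hlog : 0 ≤ Real.log ((k * b : ℕ) : ℝ) := Real.log_natCast_nonneg _
  have h1 := Incb_group hN hLN (Dvd.intro_left k rfl : b ∣ k * b)
    (fun j : ZMod b => ‖∑ σ : ZMod b, G σ * eZ b (-(j * (k : ZMod b)⁻¹ * σ))‖ ^ 2) (fun j => by positivity)
  rw [Incb_pars _ (Incb_unit hkb.symm)] at h1
  have h2 : ∑ σ : ZMod b, ‖G σ‖ ^ 2 ≤ b := by
    calc ∑ σ : ZMod b, ‖G σ‖ ^ 2 ≤ ∑ _σ : ZMod b, (1 : ℝ) :=
          Finset.sum_le_sum fun σ _ => pow_le_one₀ (norm_nonneg _) (hG σ)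
      _ = b := by simp [ZMod.card]
  have h3 : 2 * (L : ℝ) / ((k * b : ℕ) : ℝ) + (2 + Real.log ((k * b : ℕ) : ℝ)) / b
      ≤ (4 + Real.log ((k * b : ℕ) : ℝ)) / b := by
    have h4 : 2 * (L : ℝ) / ((k * b : ℕ) : ℝ) ≤ 2 / b := by
      rw [div_le_div_iff₀ (by positivity) hb0]
      push_cast
      have : (L : ℝ) ≤ k := by exact_mod_cast hLk
      nlinarith [mul_le_mul_of_nonneg_right this hb0.le]
    calc _ ≤ 2 / (b : ℝ) + (2 + Real.log ((k * b : ℕ) : ℝ)) / b := by linarith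
      _ = (4 + Real.log ((k * b : ℕ) : ℝ)) / b := by ring
  refine h1.trans ?_
  calc (2 * (L : ℝ) / ((k * b : ℕ) : ℝ) + (2 + Real.log ((k * b : ℕ) : ℝ)) / b) * (b * ∑ σ : ZMod b, ‖G σ‖ ^ 2)
      ≤ ((4 + Real.log ((k * b : ℕ) : ℝ)) / b) * (b * b) := by
        refine mul_le_mul h3 (mul_le_mul_of_nonneg_left h2 hb0.le) (by positivity) (by positivity)
    _ = b * (4 + Real.log ((k * b : ℕ) : ℝ)) := by
        field_simp

private theorem Incb_phi {k : ℕ} [NeZero k] (a u : ZMod k) (hu : IsUnit u) :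
    ∑ j : ZMod k, ‖KS k a (-(j * u))‖ ^ 4 = Phi4 k a := by
  obtain ⟨v, rfl⟩ := hu
  unfold Phi4
  exact Equiv.sum_comp ((Units.mulRight v).trans (Equiv.neg (ZMod k))) (fun h => ‖KS k a h‖ ^ 4)

theorem incb_F {k b : ℕ} [NeZero k] [NeZero b] (hkb : Nat.Coprime k b) (a : ZMod k) {L : ℕ} (hbL : b ≤ L) (hLk : L ≤ k) :
    ∑ h ∈ range (k * b), wt (k * b) L h * ‖KS k a (-((h : ZMod k) * (b : ZMod k)⁻¹))‖ ^ 2
      ≤ (4 + Real.log ((k * b : ℕ) : ℝ)) * Real.sqrt (Phi4 k a * L / (b * k)) := by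
  have hk : 1 ≤ k := Nat.one_le_iff_ne_zero.2 (NeZero.ne k)
  have hb : 1 ≤ b := Nat.one_le_iff_ne_zero.2 (NeZero.ne b)
  have hN : 1 ≤ k * b := Nat.one_le_iff_ne_zero.2 (Nat.mul_ne_zero (NeZero.ne k) (NeZero.ne b))
  have hLN : L ≤ k * b := hLk.trans (Nat.le_mul_of_pos_right k hb)
  have hk0 : (0 : ℝ) < k := by exact_mod_cast hk
  have hb0 : (0 : ℝ) < b := by exact_mod_cast hb
  have hL0 : (0 : ℝ) ≤ L := Nat.cast_nonneg L
  have hlog : 0 ≤ Real.log ((k * b : ℕ) : ℝ) := Real.log_natCast_nonneg _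
  have hPhi : 0 ≤ Phi4 k a := by unfold Phi4; positivity
  have h1 := Incb_group hN hLN (Dvd.intro b rfl : k ∣ k * b)
    (fun j : ZMod k => ‖KS k a (-(j * (b : ZMod k)⁻¹))‖ ^ 4) (fun j => by positivity)
  rw [Incb_phi _ _ (Incb_unit hkb)] at h1
  have h3 : 2 * (L : ℝ) / ((k * b : ℕ) : ℝ) + (2 + Real.log ((k * b : ℕ) : ℝ)) / k
      ≤ (4 + Real.log ((k * b : ℕ) : ℝ)) * (L / (b * k)) := by
    have h4 : (2 + Real.log ((k * b : ℕ) : ℝ)) / k ≤ (2 + Real.log ((k * b : ℕ) : ℝ)) * (L / (b * k)) := by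
      rw [div_eq_mul_inv]
      refine mul_le_mul_of_nonneg_left ?_ (by positivity)
      rw [inv_eq_one_div, div_le_div_iff₀ hk0 (by positivity)]
      have : (b : ℝ) ≤ L := by exact_mod_cast hbL
      nlinarith [mul_le_mul_of_nonneg_right this hk0.le]
    have h5 : 2 * (L : ℝ) / ((k * b : ℕ) : ℝ) = 2 * (L / (b * k)) := by
      push_cast
      rw [mul_comm (k : ℝ) b]
      ring
    rw [h5]
    nlinarith
  set T := 4 + Real.log ((k * b : ℕ) : ℝ) with hT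
  have hT0 : 0 ≤ T := by positivity
  have h6 : ∑ h ∈ range (k * b), wt (k * b) L h * ‖KS k a (-((h : ZMod k) * (b : ZMod k)⁻¹))‖ ^ 4
      ≤ T * (Phi4 k a * L / (b * k)) := by
    refine h1.trans ((mul_le_mul_of_nonneg_right h3 hPhi).trans (le_of_eq ?_))
    ring
  have h7 : ∑ h ∈ range (k * b), wt (k * b) L h ≤ T := by
    have := wt_sum hN hLN
    linarith
  have h8 : (∑ h ∈ range (k * b), wt (k * b) L h * ‖KS k a (-((h : ZMod k) * (b : ZMod k)⁻¹))‖ ^ 2) ^ 2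
      ≤ (∑ h ∈ range (k * b), wt (k * b) L h) *
        ∑ h ∈ range (k * b), wt (k * b) L h * ‖KS k a (-((h : ZMod k) * (b : ZMod k)⁻¹))‖ ^ 4 := by
    have := Finset.sum_mul_sq_le_sq_mul_sq (range (k * b)) (fun h => Real.sqrt (wt (k * b) L h))
      (fun h => Real.sqrt (wt (k * b) L h) * ‖KS k a (-((h : ZMod k) * (b : ZMod k)⁻¹))‖ ^ 2)
    have e : ∀ h, Real.sqrt (wt (k * b) L h) ^ 2 = wt (k * b) L h := fun h => Real.sq_sqrt (wt_nonneg _ _ _)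
    refine (le_of_eq ?_).trans (this.trans (le_of_eq ?_))
    · congr 1
      refine Finset.sum_congr rfl fun h _ => ?_
      rw [← mul_assoc, ← pow_two, e]
    · congr 1
      · exact Finset.sum_congr rfl fun h _ => e h
      · refine Finset.sum_congr rfl fun h _ => ?_
        rw [mul_pow, e, ← pow_mul]
  have h9 : (∑ h ∈ range (k * b), wt (k * b) L h * ‖KS k a (-((h : ZMod k) * (b : ZMod k)⁻¹))‖ ^ 2) ^ 2
      ≤ (T * Real.sqrt (Phi4 k a * L / (b * k))) ^ 2 := by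
    rw [mul_pow, Real.sq_sqrt (by positivity)]
    refine h8.trans ?_
    calc _ ≤ T * (T * (Phi4 k a * L / (b * k))) :=
          mul_le_mul h7 h6 (Finset.sum_nonneg fun h _ => mul_nonneg (wt_nonneg _ _ _) (by positivity)) hT0
      _ = T ^ 2 * (Phi4 k a * L / (b * k)) := by ring
  exact (abs_le_of_sq_le_sq' h9 (by positivity)).2

end H69BG
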