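import Pool.Agent.H69.BG.Defs

/-!
# KER1: the triangular weight

`psi M m = (2M - |m - 2M|)₊ / M` is `1/M` times the number of pairs `(i, j)` with `i, j < 2M`, `i + j + 1 = m`
(`M ≥ 1`). Hence `psiF_eq`. Then `‖∑_{j<2M} e(jθ)‖ ≤ 2M` and (geometric sum, `|e(θ) - 1| = 2 |sin πθ| ≥ 4|θ|` for `|θ| ≤ 1/2`)
`‖∑_{j<2M} e(jθ)‖ ≤ 1/(2|θ|)`, which give `psiF_le`, `psiF_le'`. `psiF_lip`: `|e(mθ) - e(mθ')| ≤ 2π m |θ - θ'|`, `m ≤ 4M`,
`∑ psi = 4M`.
-/

open Finset H69LB

namespace H69BG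

private lemma KER1_norm (t : ℝ) : ‖ee t‖ = 1 := by
  unfold ee
  rw [Complex.norm_exp]
  simp

private lemma KER1_add (s t : ℝ) : ee (s + t) = ee s * ee t := by
  unfold ee
  rw [← Complex.exp_add]
  congr 1
  push_cast
  ring

private lemma KER1_sub_one (t : ℝ) : ‖ee t - 1‖ = 2 * |Real.sin (Real.pi * t)| := by
  have h : ee t = Complex.exp (Complex.I * ((2 * Real.pi * t : ℝ) : ℂ)) := by
    unfold ee
    congr 1
    push_cast
    ring
  rw [h, Complex.norm_exp_I_mul_ofReal_sub_one, norm_mul, Real.norm_eq_abs, Real.norm_eq_abs,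
    abs_of_pos (by norm_num : (0:ℝ) < 2)]
  congr 3
  ring

private lemma KER1_lip (s t : ℝ) : ‖ee s - ee t‖ ≤ 2 * Real.pi * |s - t| := by
  have h : ee s - ee t = ee t * (ee (s - t) - 1) := by
    rw [mul_sub, ← KER1_add, mul_one]
    congr 2
    ring
  rw [h, norm_mul, KER1_norm, one_mul, KER1_sub_one, mul_assoc]
  refine mul_le_mul_of_nonneg_left ?_ (by norm_num)
  refine Real.abs_sin_le_abs.trans ?_
  rw [abs_mul, abs_of_pos Real.pi_pos]

private lemma KER1_geom (n : ℕ) {θ : ℝ} (h0 : θ ≠ 0) (h : |θ| ≤ 1 / 2) :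
    ‖∑ j ∈ range n, ee (j * θ)‖ ≤ 1 / (2 * |θ|) := by
  have hθ : 0 < |θ| := abs_pos.2 h0
  have h1 : 4 * |θ| ≤ ‖ee θ - 1‖ := by
    rw [KER1_sub_one]
    have e1 : |Real.sin (Real.pi * θ)| = |Real.sin (Real.pi * |θ|)| := by
      rcases abs_cases θ with ⟨h1, _⟩ | ⟨h1, _⟩
      · rw [h1]
      · rw [h1, mul_neg, Real.sin_neg, abs_neg]
    have e2 := Real.mul_le_sin (x := Real.pi * |θ|) (by positivity) (by nlinarith [Real.pi_pos])
    have e3 : 2 / Real.pi * (Real.pi * |θ|) = 2 * |θ| := by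
      field_simp
    rw [e3] at e2
    rw [e1]
    have e4 := le_abs_self (Real.sin (Real.pi * |θ|))
    linarith
  have h2 : (ee θ - 1) * ∑ j ∈ range n, ee (j * θ) = ee (n * θ) - 1 := by
    induction n with
    | zero => simp [ee]
    | succ n ih =>
      rw [Finset.sum_range_succ, mul_add, ih]
      have : ee (((n + 1 : ℕ) : ℝ) * θ) = ee θ * ee (n * θ) := by
        rw [← KER1_add]
        congr 1
        push_cast
        ring
      rw [this]
      ring
  have h3 : ‖ee (n * θ) - 1‖ ≤ 2 := by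
    refine (norm_sub_le _ _).trans ?_
    rw [KER1_norm, norm_one]
    norm_num
  rw [← h2, norm_mul] at h3
  rw [le_div_iff₀ (by positivity)]
  have h4 := mul_le_mul_of_nonneg_right h1 (norm_nonneg (∑ j ∈ range n, ee (j * θ)))
  linarith

theorem psi_nonneg (M m : ℕ) : 0 ≤ psi M m := by
  unfold psi
  positivity

theorem psi_le_two (M m : ℕ) : psi M m ≤ 2 := by
  unfold psi
  have h1 : 0 ≤ |(m : ℝ) - 2 * M| / (2 * M) := by positivity
  have h2 : max 0 (1 - |(m : ℝ) - 2 * M| / (2 * M)) ≤ 1 := max_le zero_le_one (by linarith)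
  linarith

theorem one_le_psi {M m : ℕ} (hM : 1 ≤ M) (h1 : M ≤ m) (h2 : m ≤ 3 * M) : 1 ≤ psi M m := by
  unfold psi
  have hM' : (1 : ℝ) ≤ M := by exact_mod_cast hM
  have h1' : (M : ℝ) ≤ m := by exact_mod_cast h1
  have h2' : (m : ℝ) ≤ 3 * M := by exact_mod_cast h2
  have h3 : |(m : ℝ) - 2 * M| ≤ M := abs_le.2 ⟨by linarith, by linarith⟩
  have h4 : |(m : ℝ) - 2 * M| / (2 * M) ≤ 1 / 2 := by
    rw [div_le_iff₀ (by linarith)]
    linarith
  have h5 := le_max_right 0 (1 - |(m : ℝ) - 2 * M| / (2 * M))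
  linarith

theorem psi_zero {M : ℕ} (hM : 1 ≤ M) : psi M 0 = 0 := by
  unfold psi
  have hM' : (0 : ℝ) < M := by exact_mod_cast hM
  have h1 : |((0 : ℕ) : ℝ) - 2 * M| = 2 * M := by
    rw [Nat.cast_zero, zero_sub, abs_neg, abs_of_pos (by positivity)]
  rw [h1, div_self (by positivity), sub_self, max_self, mul_zero]

theorem psi_eq_zero {M m : ℕ} (hM : 1 ≤ M) (h : 4 * M ≤ m) : psi M m = 0 := by
  unfold psi
  have hM' : (0 : ℝ) < M := by exact_mod_cast hM
  have h' : 4 * (M : ℝ) ≤ m := by exact_mod_cast h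
  have h1 : |(m : ℝ) - 2 * M| = m - 2 * M := abs_of_nonneg (by linarith)
  have h2 : 1 ≤ |(m : ℝ) - 2 * M| / (2 * M) := by
    rw [h1, one_le_div (by positivity)]
    linarith
  rw [max_eq_left (by linarith), mul_zero]

private lemma KER1_card {M m : ℕ} (hm : 1 ≤ m) :
    ((range (2 * M) ×ˢ range (2 * M)).filter (fun p : ℕ × ℕ => p.1 + p.2 + 1 = m)).card =
      min (2 * M) m - (m - 2 * M) := by
  rw [← Nat.card_Ico]
  refine Finset.card_nbij' (fun p => p.1) (fun i => (i, m - 1 - i)) ?_ ?_ ?_ ?_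
  · intro p hp
    simp only [coe_filter, mem_product, mem_range, Set.mem_ofPred_eq] at hp
    simp only [coe_Ico, Set.mem_Ico]
    omega
  · intro i hi
    simp only [coe_Ico, Set.mem_Ico] at hi
    simp only [coe_filter, mem_product, mem_range, Set.mem_ofPred_eq]
    omega
  · intro p hp
    simp only [coe_filter, mem_product, mem_range, Set.mem_ofPred_eq] at hp
    ext
    · rfl
    · simp only
      omega
  · intro i hi
    rfl

/-- the number of pairs -/
theorem psi_eq_card {M m : ℕ} (hM : 1 ≤ M) :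
    psi M m = (((range (2 * M) ×ˢ range (2 * M)).filter (fun p : ℕ × ℕ => p.1 + p.2 + 1 = m)).card : ℝ) / M := by
  have hM' : (0 : ℝ) < M := by exact_mod_cast hM
  rcases Nat.eq_zero_or_pos m with rfl | hm
  · rw [psi_zero hM]
    simp
  rw [KER1_card hm]
  rcases le_total m (2 * M) with h1 | h1
  · have e : min (2 * M) m - (m - 2 * M) = m := by omega
    have h1' : (m : ℝ) ≤ 2 * M := by exact_mod_cast h1
    rw [e]
    unfold psi
    rw [abs_of_nonpos (by linarith)]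
    have h2 : 1 - -((m : ℝ) - 2 * M) / (2 * M) = m / (2 * M) := by
      field_simp
      ring
    rw [h2, max_eq_right (by positivity)]
    field_simp
  · rcases le_total m (4 * M) with h2 | h2
    · have e : min (2 * M) m - (m - 2 * M) = 4 * M - m := by omega
      have h1' : 2 * (M : ℝ) ≤ m := by exact_mod_cast h1
      have h2' : (m : ℝ) ≤ 4 * M := by exact_mod_cast h2
      rw [e, Nat.cast_sub h2]
      unfold psi
      rw [abs_of_nonneg (by linarith)]
      have h3 : 1 - ((m : ℝ) - 2 * M) / (2 * M) = (4 * M - m) / (2 * M) := by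
        field_simp
        ring
      rw [h3, max_eq_right (div_nonneg (by linarith) (by positivity))]
      push_cast
      field_simp
    · have e : min (2 * M) m - (m - 2 * M) = 0 := by omega
      rw [e, psi_eq_zero hM h2]
      simp

theorem sum_psi {M : ℕ} (hM : 1 ≤ M) : ∑ m ∈ range (4 * M), psi M m = 4 * M := by
  have hM' : (0 : ℝ) < M := by exact_mod_cast hM
  simp only [psi_eq_card hM]
  rw [← Finset.sum_div, ← Nat.cast_sum, ← Finset.card_eq_sum_card_fiberwise]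
  · rw [card_product, card_range]
    push_cast
    field_simp
    ring
  · intro p hp
    simp only [coe_product, coe_range, Set.mem_prod, Set.mem_Iio] at hp
    simp only [coe_range, Set.mem_Iio]
    omega

theorem psiF_eq {M : ℕ} (hM : 1 ≤ M) (θ : ℝ) :
    psiF M θ = (1 / (M : ℂ)) * ee θ * (∑ j ∈ range (2 * M), ee (j * θ)) ^ 2 := by
  have hmap : ∀ p ∈ range (2 * M) ×ˢ range (2 * M), p.1 + p.2 + 1 ∈ range (4 * M) := by
    intro p hp
    simp only [mem_product, mem_range] at hp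
    simp only [mem_range]
    omega
  have h1 : ∀ m ∈ range (4 * M), (psi M m : ℂ) * ee (m * θ) = (1 / (M : ℂ)) *
      ∑ p ∈ (range (2 * M) ×ˢ range (2 * M)).filter (fun p : ℕ × ℕ => p.1 + p.2 + 1 = m),
        ee θ * (ee (p.1 * θ) * ee (p.2 * θ)) := by
    intro m _
    have h2 : ∀ p ∈ (range (2 * M) ×ˢ range (2 * M)).filter (fun p : ℕ × ℕ => p.1 + p.2 + 1 = m),
        ee θ * (ee (p.1 * θ) * ee (p.2 * θ)) = ee (m * θ) := by
      intro p hp
      rw [← (Finset.mem_filter.1 hp).2, ← KER1_add, ← KER1_add]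
      congr 1
      push_cast
      ring
    rw [Finset.sum_congr rfl h2, Finset.sum_const, nsmul_eq_mul, psi_eq_card hM]
    push_cast
    ring
  unfold psiF
  rw [Finset.sum_congr rfl h1, ← Finset.mul_sum, Finset.sum_fiberwise_of_maps_to hmap,
    ← Finset.mul_sum, Finset.sum_product, mul_assoc, sq, Finset.sum_mul_sum]

theorem psiF_le {M : ℕ} (hM : 1 ≤ M) (θ : ℝ) : ‖psiF M θ‖ ≤ 4 * M := by
  unfold psiF
  refine (norm_sum_le _ _).trans ?_
  rw [← sum_psi hM]
  refine Finset.sum_le_sum fun m _ => ?_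
  rw [norm_mul, KER1_norm, mul_one, Complex.norm_real, Real.norm_eq_abs,
    abs_of_nonneg (psi_nonneg M m)]

theorem psiF_le' {M : ℕ} (hM : 1 ≤ M) {θ : ℝ} (h0 : θ ≠ 0) (h : |θ| ≤ 1 / 2) :
    ‖psiF M θ‖ ≤ 1 / (4 * M * θ ^ 2) := by
  have hM' : (0 : ℝ) < M := by exact_mod_cast hM
  have hθ : 0 < |θ| := abs_pos.2 h0
  rw [psiF_eq hM, norm_mul, norm_mul, KER1_norm, mul_one, norm_pow, norm_div, norm_one,
    Complex.norm_natCast]
  have h1 := KER1_geom (2 * M) h0 h
  have h2 := pow_le_pow_left₀ (norm_nonneg _) h1 2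
  calc 1 / (M : ℝ) * ‖∑ j ∈ range (2 * M), ee (j * θ)‖ ^ 2 ≤ 1 / (M : ℝ) * (1 / (2 * |θ|)) ^ 2 :=
        mul_le_mul_of_nonneg_left h2 (by positivity)
    _ = 1 / (4 * M * θ ^ 2) := by
        rw [div_pow, mul_pow, sq_abs, one_pow, one_div_mul_one_div]
        congr 1
        ring

theorem psiF_lip {M : ℕ} (hM : 1 ≤ M) (θ θ' : ℝ) : ‖psiF M θ - psiF M θ'‖ ≤ 32 * Real.pi * M ^ 2 * |θ - θ'| := by
  unfold psiF
  rw [← Finset.sum_sub_distrib]
  refine (norm_sum_le _ _).trans ?_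
  have h1 : ∀ m ∈ range (4 * M), ‖(psi M m : ℂ) * ee (m * θ) - (psi M m : ℂ) * ee (m * θ')‖ ≤
      psi M m * (8 * Real.pi * M * |θ - θ'|) := by
    intro m hm
    rw [← mul_sub, norm_mul, Complex.norm_real, Real.norm_eq_abs, abs_of_nonneg (psi_nonneg M m)]
    refine mul_le_mul_of_nonneg_left ?_ (psi_nonneg M m)
    refine (KER1_lip _ _).trans ?_
    rw [← mul_sub, abs_mul, Nat.abs_cast]
    have h2 : (m : ℝ) ≤ 4 * M := by exact_mod_cast (mem_range.1 hm).le
    have h3 : (m : ℝ) * |θ - θ'| ≤ 4 * M * |θ - θ'| := mul_le_mul_of_nonneg_right h2 (abs_nonneg _)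
    have h4 := mul_le_mul_of_nonneg_left h3 (by positivity : (0:ℝ) ≤ 2 * Real.pi)
    linarith
  refine (Finset.sum_le_sum h1).trans ?_
  rw [← Finset.sum_mul, sum_psi hM]
  refine le_of_eq ?_
  ring

end H69BG
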