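import Pool.Agent.H69.BG.Ker1

/-!
# KER2: the triangular weight in residue classes

* `psi_class`: orthogonality, `1[C ∣ m - μ] = (1/C) ∑_{v < C} e(v(m-μ)/C)`.
* `psi_class_triv`: by `psi_eq_card`, `∑_{m ≡ μ} psi(m) = (1/M) ∑_{i < 2M} #{j < 2M : i + j + 1 ≡ μ (C)}`, and each inner number
  differs from `2M/C` by at most `1` (`2M` consecutive integers in a residue class), so the total differs from
  `(1/M)(2M)(2M/C) = 4M/C` by at most `2`.
* `psi_class_trunc`: in `psi_class` take the representatives `v` with `-C/2 < v ≤ C/2` (`psiF M (v/C) e(-vμ/C)` depends on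
  `v` mod `C` only, as `m`, `μ` are integers). The term `v = 0` is `4M/C` (`sum_psi`). For `V1 < |v| ≤ C/2` use `psiF_le'`:
  `(1/C) ∑_{V1 < |v|} C²/(4 M v²) ≤ (1/C) 2 (C²/(4M)) (1/V1) = C/(2 M V1)` (`∑_{v > V1} 1/v² ≤ 1/V1`).
-/

open Finset H69LB

namespace H69BG

theorem ker2_ee_add (s t : ℝ) : ee (s + t) = ee s * ee t := by
  unfold ee
  rw [← Complex.exp_add]
  congr 1
  push_cast
  ring

theorem ker2_ee_int (n : ℤ) : ee n = 1 := by
  unfold ee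
  rw [Complex.exp_eq_one_iff]
  exact ⟨n, by push_cast; ring⟩

theorem ker2_ee_nat (n : ℕ) : ee n = 1 := by
  have := ker2_ee_int n
  simpa using this

theorem ker2_ee_norm (t : ℝ) : ‖ee t‖ = 1 := by
  unfold ee
  have h : (2 * (Real.pi : ℂ) * (t : ℂ) * Complex.I) = ((2 * Real.pi * t : ℝ) : ℂ) * Complex.I := by
    push_cast; ring
  rw [h, Complex.norm_exp_ofReal_mul_I]

theorem ker2_ee_pow (n : ℕ) (t : ℝ) : ee (n * t) = ee t ^ n := by
  unfold ee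
  rw [← Complex.exp_nat_mul]
  congr 1
  push_cast
  ring

theorem ker2_orth {C : ℕ} (hC : 1 ≤ C) (n : ℤ) :
    (1 / (C : ℂ)) * ∑ v ∈ range C, ee ((v : ℝ) * n / C) = if (C : ℤ) ∣ n then 1 else 0 := by
  have hC0 : (C : ℝ) ≠ 0 := by positivity
  have hC1 : (C : ℂ) ≠ 0 := by exact_mod_cast (by omega : C ≠ 0)
  have hterm : ∀ v : ℕ, ee ((v : ℝ) * n / C) = ee ((n : ℝ) / C) ^ v := by
    intro v
    rw [← ker2_ee_pow]
    congr 1
    ring
  split_ifs with h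
  · obtain ⟨k, hk⟩ := h
    have h1 : ee ((n : ℝ) / C) = 1 := by
      have : (n : ℝ) / C = (k : ℝ) := by
        rw [hk]; push_cast; field_simp
      rw [this]
      exact ker2_ee_int k
    simp only [hterm, h1, one_pow, sum_const, card_range, nsmul_eq_mul, mul_one]
    field_simp
  · have h1 : ee ((n : ℝ) / C) ≠ 1 := by
      intro h1
      unfold ee at h1
      rw [Complex.exp_eq_one_iff] at h1
      obtain ⟨k, hk⟩ := h1
      apply h
      refine ⟨k, ?_⟩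
      have h2 : (2 * (Real.pi : ℂ) * Complex.I) ≠ 0 := Complex.two_pi_I_ne_zero
      have h3 : (((n : ℝ) / C : ℝ) : ℂ) = (k : ℂ) := by
        have h4 : (2 * (Real.pi : ℂ) * Complex.I) * (((n : ℝ) / C : ℝ) : ℂ) =
            (2 * (Real.pi : ℂ) * Complex.I) * (k : ℂ) := by
          linear_combination hk
        exact mul_left_cancel₀ h2 h4
      have h5 : ((n : ℝ) / C : ℝ) = (k : ℝ) := by exact_mod_cast h3
      have h6 : (n : ℝ) = C * k := by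
        field_simp at h5
        linarith
      exact_mod_cast h6
    have h2 : ee ((n : ℝ) / C) ^ C = 1 := by
      rw [← ker2_ee_pow]
      have : (C : ℝ) * ((n : ℝ) / C) = (n : ℝ) := by field_simp
      rw [this]
      exact ker2_ee_int n
    simp only [hterm]
    rw [geom_sum_eq h1, h2]
    simp

theorem psi_class {M : ℕ} (hM : 1 ≤ M) {C : ℕ} (hC : 1 ≤ C) (μ : ℤ) :
    ((∑ m ∈ (range (4 * M)).filter (fun m : ℕ => (C : ℤ) ∣ m - μ), psi M m : ℝ) : ℂ) =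
      (1 / (C : ℂ)) * ∑ v ∈ range C, psiF M ((v : ℝ) / C) * ee (-((v : ℝ) * μ / C)) := by
  have h1 : ∀ v ∈ range C, psiF M ((v : ℝ) / C) * ee (-((v : ℝ) * μ / C)) =
      ∑ m ∈ range (4 * M), (psi M m : ℂ) * ee ((v : ℝ) * ((m : ℤ) - μ : ℤ) / C) := by
    intro v _
    unfold psiF
    rw [sum_mul]
    refine sum_congr rfl fun m _ => ?_
    rw [mul_assoc, ← ker2_ee_add]
    congr 2
    push_cast
    ring
  rw [sum_congr rfl h1, sum_comm, mul_sum]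
  have h2 : ∀ m ∈ range (4 * M), (1 / (C : ℂ)) * ∑ v ∈ range C, (psi M m : ℂ) * ee ((v : ℝ) * ((m : ℤ) - μ : ℤ) / C) =
      if (C : ℤ) ∣ (m : ℤ) - μ then (psi M m : ℂ) else 0 := by
    intro m _
    rw [← mul_sum]
    have h3 := ker2_orth hC ((m : ℤ) - μ)
    have h4 : (1 / (C : ℂ)) * ((psi M m : ℂ) * ∑ v ∈ range C, ee ((v : ℝ) * ((m : ℤ) - μ : ℤ) / C)) =
        (psi M m : ℂ) * ((1 / (C : ℂ)) * ∑ v ∈ range C, ee ((v : ℝ) * ((m : ℤ) - μ : ℤ) / C)) := by ring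
    rw [h4, h3]
    split_ifs <;> simp
  rw [sum_congr rfl h2, ← sum_filter]
  push_cast
  rfl

theorem ker2_count {C : ℕ} (hC : 1 ≤ C) (L : ℕ) (a : ℤ) :
    |(((range L).filter (fun j : ℕ => (C : ℤ) ∣ (j : ℤ) + a)).card : ℝ) - (L : ℝ) / C| ≤ 1 := by
  have hCr : (0 : ℝ) < C := by positivity
  have hcard : (((range L).filter (fun j : ℕ => (C : ℤ) ∣ (j : ℤ) + a)).card : ℤ) =
      ((Ico (0 : ℤ) L).filter (fun x => x ≡ -a [ZMOD C])).card := by
    have : ((Ico (0 : ℤ) L).filter (fun x => x ≡ -a [ZMOD C])) =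
        ((range L).filter (fun j : ℕ => (C : ℤ) ∣ (j : ℤ) + a)).map Nat.castEmbedding := by
      ext x
      simp only [mem_filter, mem_Ico, mem_map, mem_range, Nat.castEmbedding_apply]
      constructor
      · rintro ⟨⟨h0, h1⟩, h2⟩
        refine ⟨x.toNat, ⟨by omega, ?_⟩, by omega⟩
        have h3 : ((x.toNat : ℕ) : ℤ) = x := by omega
        rw [h3]
        have h4 := h2.symm.dvd
        simpa using h4
      · rintro ⟨j, ⟨h1, h2⟩, rfl⟩
        refine ⟨⟨by omega, by omega⟩, ?_⟩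
        apply Int.ModEq.symm
        rw [Int.modEq_iff_dvd]
        simpa using h2
    rw [this, card_map]
  have h := Int.Ico_filter_modEq_card (0 : ℤ) L (r := (C : ℤ)) (by exact_mod_cast hC) (-a)
  rw [← hcard] at h
  have hr : ((((range L).filter (fun j : ℕ => (C : ℤ) ∣ (j : ℤ) + a)).card : ℤ) : ℝ) =
      ((max (⌈(((L : ℤ) : ℚ) - ((-a : ℤ) : ℚ)) / ((C : ℤ) : ℚ)⌉ - ⌈(((0 : ℤ) : ℚ) - ((-a : ℤ) : ℚ)) / ((C : ℤ) : ℚ)⌉) 0 : ℤ) : ℝ) := by
    exact_mod_cast h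
  have hr' : ((((range L).filter (fun j : ℕ => (C : ℤ) ∣ (j : ℤ) + a)).card : ℕ) : ℝ) =
      ((((range L).filter (fun j : ℕ => (C : ℤ) ∣ (j : ℤ) + a)).card : ℤ) : ℝ) := by norm_cast
  rw [hr', hr]
  set p : ℤ := ⌈(((L : ℤ) : ℚ) - ((-a : ℤ) : ℚ)) / ((C : ℤ) : ℚ)⌉ with hp
  set q : ℤ := ⌈(((0 : ℤ) : ℚ) - ((-a : ℤ) : ℚ)) / ((C : ℤ) : ℚ)⌉ with hq
  have hp1 : (((L : ℤ) : ℚ) - ((-a : ℤ) : ℚ)) / ((C : ℤ) : ℚ) ≤ p := Int.le_ceil _
  have hp2 : (p : ℚ) < (((L : ℤ) : ℚ) - ((-a : ℤ) : ℚ)) / ((C : ℤ) : ℚ) + 1 := Int.ceil_lt_add_one _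
  have hq1 : (((0 : ℤ) : ℚ) - ((-a : ℤ) : ℚ)) / ((C : ℤ) : ℚ) ≤ q := Int.le_ceil _
  have hq2 : (q : ℚ) < (((0 : ℤ) : ℚ) - ((-a : ℤ) : ℚ)) / ((C : ℤ) : ℚ) + 1 := Int.ceil_lt_add_one _
  have hp1' : (((L : ℤ) : ℝ) - ((-a : ℤ) : ℝ)) / ((C : ℤ) : ℝ) ≤ p := by exact_mod_cast hp1
  have hp2' : (p : ℝ) < (((L : ℤ) : ℝ) - ((-a : ℤ) : ℝ)) / ((C : ℤ) : ℝ) + 1 := by exact_mod_cast hp2
  have hq1' : (((0 : ℤ) : ℝ) - ((-a : ℤ) : ℝ)) / ((C : ℤ) : ℝ) ≤ q := by exact_mod_cast hq1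
  have hq2' : (q : ℝ) < (((0 : ℤ) : ℝ) - ((-a : ℤ) : ℝ)) / ((C : ℤ) : ℝ) + 1 := by exact_mod_cast hq2
  have e1 : (((L : ℤ) : ℝ) - ((-a : ℤ) : ℝ)) / ((C : ℤ) : ℝ) = (L : ℝ) / C + (a : ℝ) / C := by
    push_cast; ring
  have e2 : (((0 : ℤ) : ℝ) - ((-a : ℤ) : ℝ)) / ((C : ℤ) : ℝ) = (a : ℝ) / C := by
    push_cast; ring
  rw [e1] at hp1' hp2'
  rw [e2] at hq1' hq2'
  have hLC : (0 : ℝ) ≤ (L : ℝ) / C := by positivity
  have hpq : q ≤ p := by
    apply Int.ceil_le_ceil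
    gcongr
    push_cast
    positivity
  have hmax : max (p - q) 0 = p - q := max_eq_left (by omega)
  rw [hmax]
  push_cast
  rw [abs_le]
  constructor <;> linarith

theorem psi_class_triv {M : ℕ} (hM : 1 ≤ M) {C : ℕ} (hC : 1 ≤ C) (μ : ℤ) :
    |∑ m ∈ (range (4 * M)).filter (fun m : ℕ => (C : ℤ) ∣ m - μ), psi M m - 4 * M / C| ≤ 2 := by
  have hMr : (0 : ℝ) < M := by positivity
  have hCr : (0 : ℝ) < C := by positivity
  have key : ∑ m ∈ (range (4 * M)).filter (fun m : ℕ => (C : ℤ) ∣ m - μ), psi M m =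
      (1 / (M : ℝ)) * ∑ i ∈ range (2 * M),
        (((range (2 * M)).filter (fun j : ℕ => (C : ℤ) ∣ (j : ℤ) + (i + 1 - μ))).card : ℝ) := by
    have h1 : ∀ m ∈ (range (4 * M)).filter (fun m : ℕ => (C : ℤ) ∣ m - μ), psi M m =
        (1 / (M : ℝ)) * ∑ i ∈ range (2 * M), ∑ j ∈ range (2 * M), (if i + j + 1 = m then (1 : ℝ) else 0) := by
      intro m _
      rw [psi_eq_card hM, ← sum_product', ← sum_filter]
      simp only [sum_const, nsmul_eq_mul, mul_one]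
      ring
    rw [sum_congr rfl h1, ← mul_sum, sum_comm]
    congr 1
    refine sum_congr rfl fun i hi => ?_
    rw [sum_comm]
    rw [card_filter]
    push_cast
    refine sum_congr rfl fun j hj => ?_
    rw [mem_range] at hi hj
    rw [sum_ite_eq]
    have h3 : i + j + 1 ∈ (range (4 * M)).filter (fun m : ℕ => (C : ℤ) ∣ m - μ) ↔ (C : ℤ) ∣ (j : ℤ) + (i + 1 - μ) := by
      rw [mem_filter, mem_range]
      have h4 : (((i + j + 1 : ℕ) : ℤ) - μ) = (j : ℤ) + (i + 1 - μ) := by push_cast; ring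
      rw [h4]
      constructor
      · exact fun h => h.2
      · exact fun h => ⟨by omega, h⟩
    by_cases h : (C : ℤ) ∣ (j : ℤ) + (i + 1 - μ)
    · rw [if_pos (h3.2 h), if_pos h]
    · rw [if_neg (fun h' => h (h3.1 h')), if_neg h]
  rw [key]
  have h5 : (4 * (M : ℝ) / C) = (1 / (M : ℝ)) * ∑ i ∈ range (2 * M), (((2 * M : ℕ) : ℝ) / C) := by
    rw [sum_const, card_range, nsmul_eq_mul]
    push_cast
    field_simp
    ring
  rw [h5, ← mul_sub, ← sum_sub_distrib, abs_mul, abs_of_pos (by positivity : (0 : ℝ) < 1 / M)]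
  have h6 : |∑ i ∈ range (2 * M), ((((range (2 * M)).filter (fun j : ℕ => (C : ℤ) ∣ (j : ℤ) + (i + 1 - μ))).card : ℝ) -
      (((2 * M : ℕ) : ℝ) / C))| ≤ ∑ i ∈ range (2 * M), (1 : ℝ) := by
    refine (abs_sum_le_sum_abs _ _).trans (sum_le_sum fun i _ => ?_)
    exact ker2_count hC (2 * M) (i + 1 - μ)
  rw [sum_const, card_range, nsmul_eq_mul, mul_one] at h6
  calc (1 / (M : ℝ)) * _ ≤ (1 / (M : ℝ)) * ((2 * M : ℕ) : ℝ) := by
        exact mul_le_mul_of_nonneg_left h6 (by positivity)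
    _ = 2 := by push_cast; field_simp

theorem ker2_per_sum {C : ℕ} (hC : 1 ≤ C) (F : ℤ → ℂ) (hF : ∀ v, F (v + C) = F v) (h : ℕ) :
    ∑ v ∈ Ico (-(h : ℤ)) (C - h), F v = ∑ v ∈ Ico (0 : ℤ) C, F v := by
  induction h with
  | zero => simp
  | succ n ih =>
    rw [← ih]
    have h1 : Ico (-((n + 1 : ℕ) : ℤ)) (C - (n + 1 : ℕ)) =
        insert (-((n + 1 : ℕ) : ℤ)) (Ico (-(n : ℤ)) (C - (n + 1 : ℕ))) := by
      ext x
      simp only [mem_Ico, mem_insert]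
      push_cast
      omega
    have h2 : Ico (-(n : ℤ)) (C - n) = insert ((C : ℤ) - (n + 1 : ℕ)) (Ico (-(n : ℤ)) (C - (n + 1 : ℕ))) := by
      ext x
      simp only [mem_Ico, mem_insert]
      push_cast
      omega
    rw [h1, h2, sum_insert, sum_insert]
    · congr 1
      have h3 := hF (-((n + 1 : ℕ) : ℤ))
      have h4 : (C : ℤ) - (n + 1 : ℕ) = -((n + 1 : ℕ) : ℤ) + C := by ring
      rw [h4, h3]
    · simp only [mem_Ico]
      push_cast
      omega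
    · simp only [mem_Ico]
      push_cast
      omega

theorem ker2_inv_sq {V1 N : ℕ} (hV : 1 ≤ V1) : ∑ i ∈ Ioc V1 N, (1 / (i : ℝ) ^ 2) ≤ 1 / (V1 : ℝ) := by
  rcases le_or_gt V1 N with h | h
  · have h1 := sum_Ioc_inv_sq_le_sub (α := ℝ) (k := V1) (n := N) (by omega) h
    have h2 : (0 : ℝ) ≤ (N : ℝ)⁻¹ := by positivity
    have h3 : ∑ i ∈ Ioc V1 N, (1 / (i : ℝ) ^ 2) = ∑ i ∈ Ioc V1 N, ((i : ℝ) ^ 2)⁻¹ := by
      refine sum_congr rfl fun i _ => ?_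
      rw [one_div]
    rw [h3, one_div]
    linarith
  · rw [Ioc_eq_empty (by omega)]
    simp

theorem psi_class_trunc {M : ℕ} (hM : 1 ≤ M) {C : ℕ} (hC : 1 ≤ C) (μ : ℤ) {V1 : ℕ} (hV : 1 ≤ V1) (hVC : 2 * V1 < C) :
    ‖((∑ m ∈ (range (4 * M)).filter (fun m : ℕ => (C : ℤ) ∣ m - μ), psi M m : ℝ) : ℂ) - 4 * M / C -
      (1 / (C : ℂ)) * ∑ v ∈ VV V1, psiF M ((v : ℝ) / C) * ee (-((v : ℝ) * μ / C))‖ ≤ C / (2 * M * V1) := by
  have hMr : (0 : ℝ) < M := by positivity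
  have hCr : (0 : ℝ) < C := by positivity
  have hVr : (0 : ℝ) < V1 := by positivity
  set F : ℤ → ℂ := fun v => psiF M ((v : ℝ) / C) * ee (-((v : ℝ) * μ / C)) with hFdef
  have hF : ∀ v, F (v + C) = F v := by
    intro v
    simp only [hFdef]
    congr 1
    · unfold psiF
      refine sum_congr rfl fun m _ => ?_
      congr 1
      have h1 : (m : ℝ) * (((v + C : ℤ) : ℝ) / C) = (m : ℝ) * ((v : ℝ) / C) + ((m : ℤ) : ℝ) := by
        push_cast
        field_simp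
      rw [h1, ker2_ee_add, ker2_ee_int, mul_one]
    · have h1 : -(((v + C : ℤ) : ℝ) * μ / C) = -((v : ℝ) * μ / C) + ((-μ : ℤ) : ℝ) := by
        push_cast
        field_simp
        ring
      rw [h1, ker2_ee_add, ker2_ee_int, mul_one]
  have hsum : ∑ v ∈ range C, psiF M ((v : ℝ) / C) * ee (-((v : ℝ) * μ / C)) = ∑ v ∈ Ico (0 : ℤ) C, F v := by
    have h1 : Ico (0 : ℤ) C = (range C).map Nat.castEmbedding := by
      ext x
      simp only [mem_Ico, mem_map, mem_range, Nat.castEmbedding_apply]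
      constructor
      · rintro ⟨h0, h1⟩
        exact ⟨x.toNat, by omega, by omega⟩
      · rintro ⟨j, h1, rfl⟩
        exact ⟨by omega, by omega⟩
    rw [h1, sum_map]
    refine sum_congr rfl fun v _ => ?_
    simp only [hFdef, Nat.castEmbedding_apply]
    push_cast
    rfl
  set h : ℕ := (C - 1) / 2 with hh
  have hh1 : V1 ≤ h := by omega
  have hh2 : 2 * h + 1 ≤ C := by omega
  have hh3 : C ≤ 2 * h + 2 := by omega
  have hF0 : F 0 = 4 * M := by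
    simp only [hFdef]
    have h1 : ee (-(((0 : ℤ) : ℝ) * μ / C)) = 1 := by
      have h2 : -(((0 : ℤ) : ℝ) * μ / C) = ((0 : ℤ) : ℝ) := by push_cast; ring
      rw [h2, ker2_ee_int]
    rw [h1, mul_one]
    unfold psiF
    have h3 : ∀ m ∈ range (4 * M), (psi M m : ℂ) * ee ((m : ℝ) * (((0 : ℤ) : ℝ) / C)) = (psi M m : ℂ) := by
      intro m _
      have h2 : (m : ℝ) * (((0 : ℤ) : ℝ) / C) = ((0 : ℤ) : ℝ) := by push_cast; ring
      rw [h2, ker2_ee_int, mul_one]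
    rw [sum_congr rfl h3]
    have h4 := sum_psi hM
    have h5 : ((∑ m ∈ range (4 * M), psi M m : ℝ) : ℂ) = ((4 * M : ℝ) : ℂ) := by rw [h4]
    push_cast at h5
    exact h5
  have hsplit : ∑ v ∈ Ico (-(h : ℤ)) (C - h), F v = F 0 + ∑ v ∈ VV V1, F v +
      ∑ v ∈ (Ico (-(h : ℤ)) (C - h)) \ (Icc (-(V1 : ℤ)) V1), F v := by
    have h1 : Icc (-(V1 : ℤ)) V1 ⊆ Ico (-(h : ℤ)) (C - h) := by
      intro x hx
      rw [mem_Icc] at hx
      rw [mem_Ico]
      omega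
    rw [← sum_sdiff h1, add_comm]
    congr 1
    have h2 : (0 : ℤ) ∈ Icc (-(V1 : ℤ)) V1 := by
      rw [mem_Icc]; omega
    unfold VV
    rw [add_sum_erase _ _ h2]
  rw [psi_class hM hC, hsum, ← ker2_per_sum hC F hF h, hsplit, hF0]
  have e1 : (1 / (C : ℂ)) * (4 * (M : ℂ) + ∑ v ∈ VV V1, F v + ∑ v ∈ (Ico (-(h : ℤ)) (C - h)) \ (Icc (-(V1 : ℤ)) V1), F v) -
      4 * M / C - (1 / (C : ℂ)) * ∑ v ∈ VV V1, F v =
      (1 / (C : ℂ)) * ∑ v ∈ (Ico (-(h : ℤ)) (C - h)) \ (Icc (-(V1 : ℤ)) V1), F v := by ring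
  have e2 : (1 / (C : ℂ)) * ∑ v ∈ VV V1, psiF M ((v : ℝ) / C) * ee (-((v : ℝ) * μ / C)) =
      (1 / (C : ℂ)) * ∑ v ∈ VV V1, F v := rfl
  rw [e2, e1, norm_mul]
  have hn : ‖(1 / (C : ℂ))‖ = 1 / (C : ℝ) := by
    rw [norm_div, norm_one, Complex.norm_natCast]
  rw [hn]
  -- bound each term
  have hterm : ∀ v ∈ (Ico (-(h : ℤ)) (C - h)) \ (Icc (-(V1 : ℤ)) V1), ‖F v‖ ≤ (C : ℝ) ^ 2 / (4 * M) * (1 / (v : ℝ) ^ 2) := by
    intro v hv
    rw [mem_sdiff, mem_Ico, mem_Icc] at hv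
    have hv0 : v ≠ 0 := by
      rintro rfl
      apply hv.2
      omega
    have hvr : (v : ℝ) ≠ 0 := by exact_mod_cast hv0
    simp only [hFdef]
    rw [norm_mul, ker2_ee_norm, mul_one]
    have hθ : (v : ℝ) / C ≠ 0 := div_ne_zero hvr hCr.ne'
    have habs : |(v : ℝ) / C| ≤ 1 / 2 := by
      rw [abs_div, abs_of_pos hCr, div_le_iff₀ hCr]
      have h1 : |(v : ℝ)| * 2 ≤ C := by
        have h2 : |v| * 2 ≤ (C : ℤ) := by
          rcases abs_cases v with ⟨h3, _⟩ | ⟨h3, _⟩ <;> rw [h3] <;> omega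
        exact_mod_cast h2
      linarith
    refine (psiF_le' hM hθ habs).trans (le_of_eq ?_)
    field_simp
  have hset : (Ico (-(h : ℤ)) (C - h)) \ (Icc (-(V1 : ℤ)) V1) ⊆
      ((Ioc V1 C).map Nat.castEmbedding) ∪ ((Ioc V1 C).map (Nat.castEmbedding.trans (Equiv.neg ℤ).toEmbedding)) := by
    intro x hx
    rw [mem_sdiff, mem_Ico, mem_Icc] at hx
    rw [mem_union, mem_map, mem_map]
    rcases le_or_gt 0 x with h0 | h0
    · left
      refine ⟨x.toNat, ?_, ?_⟩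
      · rw [mem_Ioc]; omega
      · simp only [Nat.castEmbedding_apply]; omega
    · right
      refine ⟨(-x).toNat, ?_, ?_⟩
      · rw [mem_Ioc]; omega
      · simp only [Function.Embedding.trans_apply, Nat.castEmbedding_apply, Equiv.coe_toEmbedding, Equiv.neg_apply]
        omega
  have hbound : ‖∑ v ∈ (Ico (-(h : ℤ)) (C - h)) \ (Icc (-(V1 : ℤ)) V1), F v‖ ≤ (C : ℝ) ^ 2 / (4 * M) * (2 / V1) := by
    refine (norm_sum_le _ _).trans ((sum_le_sum hterm).trans ?_)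
    rw [← mul_sum]
    refine mul_le_mul_of_nonneg_left ?_ (by positivity)
    refine (sum_le_sum_of_subset_of_nonneg hset (fun _ _ _ => by positivity)).trans ?_
    have hun : ∀ (A B : Finset ℤ) (f : ℤ → ℝ), (∀ x, 0 ≤ f x) → ∑ x ∈ A ∪ B, f x ≤ ∑ x ∈ A, f x + ∑ x ∈ B, f x := by
      intro A B f hf
      rw [← sum_union_inter]
      have : 0 ≤ ∑ x ∈ A ∩ B, f x := sum_nonneg fun x _ => hf x
      linarith
    refine (hun _ _ _ (fun _ => by positivity)).trans ?_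
    rw [sum_map, sum_map]
    have h1 := ker2_inv_sq (N := C) hV
    have h2 : ∑ i ∈ Ioc V1 C, (1 / ((Nat.castEmbedding i : ℤ) : ℝ) ^ 2) = ∑ i ∈ Ioc V1 C, (1 / (i : ℝ) ^ 2) := by
      refine sum_congr rfl fun i _ => ?_
      simp only [Nat.castEmbedding_apply]
      push_cast
      rfl
    have h3 : ∑ i ∈ Ioc V1 C, (1 / (((Nat.castEmbedding.trans (Equiv.neg ℤ).toEmbedding) i : ℤ) : ℝ) ^ 2) =
        ∑ i ∈ Ioc V1 C, (1 / (i : ℝ) ^ 2) := by
      refine sum_congr rfl fun i _ => ?_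
      simp only [Function.Embedding.trans_apply, Nat.castEmbedding_apply, Equiv.coe_toEmbedding, Equiv.neg_apply]
      push_cast
      rw [neg_sq]
    rw [h2, h3]
    have h4 : (2 : ℝ) / V1 = 1 / V1 + 1 / V1 := by ring
    rw [h4]
    linarith
  calc (1 / (C : ℝ)) * _ ≤ (1 / (C : ℝ)) * ((C : ℝ) ^ 2 / (4 * M) * (2 / V1)) :=
        mul_le_mul_of_nonneg_left hbound (by positivity)
    _ = C / (2 * M * V1) := by field_simp; ring

end H69BG
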