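import Pool.Agent.H69.BG.Defs

/-!
# KLA: counting solutions

`kla2`: `#{(A,B) mod k : A B = 0} = ∑_A gcd(A,k) = ∑_{d ∣ k} d #{A : gcd(A,k) = d} ≤ k τ(k)` (for given `A` the number of `B` with
`A B = 0` is `gcd(A,k)`; the number of `A` with `gcd(A, k) = d` is at most `k/d`).
`kla3`: `#{(A,B,C) : A B C = 0} ≤ k² τ(k)²`: for given `A` with `g = gcd(A,k)`, `A (BC) = 0` iff `k/g ∣ BC`; the number of `(B,C)` mod `k` is
`g² #{(B,C) mod k/g : BC = 0} ≤ g² (k/g) τ(k/g) ≤ g k τ(k)`; and `∑_A gcd(A,k) ≤ k τ(k)`.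
`kcount`: let `r1 + r2 = r3 + r4 = S` and `r1⁻¹ + r2⁻¹ = r3⁻¹ + r4⁻¹`. Multiply the second by `r1 r2 r3 r4`: `S r3 r4 = S r1 r2`. With
`r2 = S - r1`, `r4 = S - r3`: `S (r3 r4 - r1 r2) = S (r3 - r1)(r2 - r3)`, so `(r1 + r2)(r3 - r1)(r3 - r2) = 0`, and `r4` is determined by
`r1, r2, r3`. The map `(r1, r2, r3) ↦ (A, B, C) = (r1 + r2, r3 - r1, r3 - r2)` is at most two to one: the difference of two
points with the same image is `(d, -d, d)` with `d = -d`... i.e. `2 d = 0`, which has at most `2` solutions mod `k`. So the number is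
`≤ 2 k² τ(k)²`.
-/

open Finset

namespace H69BG

theorem KLA_mult (m g : ℕ) (hm : 0 < m) :
    ((range (m * g)).filter (fun b => m ∣ b)).card ≤ g := by
  calc ((range (m * g)).filter (fun b => m ∣ b)).card
      ≤ ((range g).image (fun j => m * j)).card := by
        apply card_le_card
        intro b hb
        rw [mem_filter, mem_range] at hb
        obtain ⟨hb1, j, rfl⟩ := hb
        rw [mem_image]
        exact ⟨j, mem_range.2 (Nat.lt_of_mul_lt_mul_left hb1), rfl⟩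
    _ ≤ (range g).card := card_image_le
    _ = g := card_range g

theorem KLA_inj {k : ℕ} [NeZero k] (P : ℕ → Prop) [DecidablePred P] (s : Finset (ZMod k))
    (hs : ∀ x ∈ s, P x.val) : s.card ≤ ((range k).filter P).card := by
  apply card_le_card_of_injOn (fun x : ZMod k => x.val)
  · intro x hx
    have hx' : x ∈ s := hx
    simp only [coe_filter, mem_range, Set.mem_ofPred_eq]
    exact ⟨ZMod.val_lt x, hs x hx'⟩
  · intro x _ y _ h
    exact ZMod.val_injective k h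

theorem KLA_ann {k : ℕ} [NeZero k] (A : ZMod k) :
    ((univ : Finset (ZMod k)).filter (fun B => A * B = 0)).card ≤ Nat.gcd A.val k := by
  have hk : 0 < k := Nat.pos_of_ne_zero (NeZero.ne k)
  have hg : 0 < Nat.gcd A.val k := Nat.gcd_pos_of_pos_right _ hk
  obtain ⟨m, hm⟩ : Nat.gcd A.val k ∣ k := Nat.gcd_dvd_right _ _
  have hkm : k = m * Nat.gcd A.val k := by rw [mul_comm]; exact hm
  have hm0 : 0 < m := Nat.pos_of_ne_zero (by rintro rfl; simp at hm; omega)
  have h1 := KLA_inj (k := k) (fun b => m ∣ b)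
    ((univ : Finset (ZMod k)).filter (fun B => A * B = 0)) (by
      intro B hB
      rw [mem_filter] at hB
      have h2 : k ∣ A.val * B.val := by
        have h3 := hB.2
        rw [← ZMod.natCast_zmod_val A, ← ZMod.natCast_zmod_val B, ← Nat.cast_mul,
          ZMod.natCast_eq_zero_iff] at h3
        exact h3
      obtain ⟨a, ha⟩ : Nat.gcd A.val k ∣ A.val := Nat.gcd_dvd_left _ _
      have hcop : Nat.Coprime m a := by
        have h4 : Nat.gcd (Nat.gcd A.val k * a) (Nat.gcd A.val k * m) = Nat.gcd A.val k := by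
          rw [← ha, ← hm]
        rw [Nat.gcd_mul_left] at h4
        have h5 : Nat.gcd A.val k * Nat.gcd a m = Nat.gcd A.val k * 1 := by rw [h4, mul_one]
        have h6 := Nat.eq_of_mul_eq_mul_left hg h5
        rw [Nat.Coprime, Nat.gcd_comm]
        exact h6
      have h7 : Nat.gcd A.val k * m ∣ Nat.gcd A.val k * (a * B.val) := by
        rw [← mul_assoc, ← ha, ← hm]
        exact h2
      have h8 : m ∣ a * B.val := Nat.dvd_of_mul_dvd_mul_left hg h7
      exact hcop.dvd_of_dvd_mul_left h8)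
  refine h1.trans ?_
  have h9 : (range k).filter (fun b => m ∣ b) =
      (range (m * Nat.gcd A.val k)).filter (fun b => m ∣ b) := by rw [← hkm]
  rw [h9]
  exact KLA_mult m _ hm0

theorem KLA_gsum (k : ℕ) [NeZero k] :
    ∑ A : ZMod k, Nat.gcd A.val k ≤ k * k.divisors.card := by
  have hk : 0 < k := Nat.pos_of_ne_zero (NeZero.ne k)
  rw [← sum_fiberwise_of_maps_to (s := (univ : Finset (ZMod k))) (t := k.divisors)
    (g := fun A => Nat.gcd A.val k) (fun A _ => by
      rw [Nat.mem_divisors]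
      exact ⟨Nat.gcd_dvd_right _ _, hk.ne'⟩)]
  have h1 : ∀ d ∈ k.divisors, ∑ A ∈ (univ : Finset (ZMod k)).filter (fun A => Nat.gcd A.val k = d),
      Nat.gcd A.val k ≤ k := by
    intro d hd
    rw [Nat.mem_divisors] at hd
    obtain ⟨⟨m, hm⟩, -⟩ := hd
    have hd0 : 0 < d := Nat.pos_of_ne_zero (by rintro rfl; simp at hm; omega)
    have h2 : ∑ A ∈ (univ : Finset (ZMod k)).filter (fun A => Nat.gcd A.val k = d),
        Nat.gcd A.val k = ((univ : Finset (ZMod k)).filter (fun A => Nat.gcd A.val k = d)).card * d := by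
      rw [sum_congr rfl (fun A hA => (mem_filter.1 hA).2), sum_const, smul_eq_mul]
    have h3 : ((univ : Finset (ZMod k)).filter (fun A => Nat.gcd A.val k = d)).card ≤ m := by
      refine (KLA_inj (k := k) (fun b => d ∣ b) _ ?_).trans ?_
      · intro A hA
        rw [mem_filter] at hA
        have h4 : Nat.gcd A.val k ∣ A.val := Nat.gcd_dvd_left _ _
        rw [hA.2] at h4
        exact h4
      · have h5 : (range k).filter (fun b => d ∣ b) = (range (d * m)).filter (fun b => d ∣ b) := by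
          rw [← hm]
        rw [h5]
        exact KLA_mult d m hd0
    rw [h2]
    calc _ ≤ m * d := Nat.mul_le_mul_right _ h3
      _ = k := by rw [hm, mul_comm]
  calc _ ≤ ∑ _d ∈ k.divisors, k := sum_le_sum h1
    _ = k * k.divisors.card := by rw [sum_const, smul_eq_mul, mul_comm]

theorem kla2 (k : ℕ) [NeZero k] :
    ((univ : Finset (ZMod k × ZMod k)).filter (fun p => p.1 * p.2 = 0)).card ≤ k * k.divisors.card := by
  have h1 : ((univ : Finset (ZMod k × ZMod k)).filter (fun p => p.1 * p.2 = 0)).card =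
      ∑ A : ZMod k, ((univ : Finset (ZMod k)).filter (fun B => A * B = 0)).card := by
    rw [card_filter, ← univ_product_univ, sum_product]
    exact sum_congr rfl fun A _ => (card_filter _ _).symm
  rw [h1]
  exact (sum_le_sum fun A _ => KLA_ann A).trans (KLA_gsum k)

theorem kla3 (k : ℕ) [NeZero k] :
    ((univ : Finset (ZMod k × ZMod k × ZMod k)).filter (fun p => p.1 * p.2.1 * p.2.2 = 0)).card
      ≤ k ^ 2 * k.divisors.card ^ 2 := by
  have hk : 0 < k := Nat.pos_of_ne_zero (NeZero.ne k)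
  have h1 : ((univ : Finset (ZMod k × ZMod k × ZMod k)).filter
      (fun p => p.1 * p.2.1 * p.2.2 = 0)).card =
      ∑ A : ZMod k, ∑ B : ZMod k, ((univ : Finset (ZMod k)).filter (fun C => A * B * C = 0)).card := by
    rw [card_filter, ← univ_product_univ, sum_product]
    refine sum_congr rfl fun A _ => ?_
    rw [← univ_product_univ, sum_product]
    exact sum_congr rfl fun B _ => (card_filter _ _).symm
  have h2 : ∀ A B : ZMod k, ((univ : Finset (ZMod k)).filter (fun C => A * B * C = 0)).card ≤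
      Nat.gcd A.val k * Nat.gcd B.val k := by
    intro A B
    refine (KLA_ann (A * B)).trans ?_
    have h3 : Nat.gcd (A * B).val k = Nat.gcd k (A.val * B.val) := by
      rw [ZMod.val_mul, Nat.gcd_rec k (A.val * B.val)]
    rw [h3, Nat.gcd_comm A.val k, Nat.gcd_comm B.val k]
    exact Nat.le_of_dvd (Nat.mul_pos (Nat.gcd_pos_of_pos_left _ hk) (Nat.gcd_pos_of_pos_left _ hk))
      (Nat.gcd_mul_right_dvd_mul_gcd _ _ _)
  rw [h1]
  calc _ ≤ ∑ A : ZMod k, ∑ B : ZMod k, Nat.gcd A.val k * Nat.gcd B.val k :=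
        sum_le_sum fun A _ => sum_le_sum fun B _ => h2 A B
    _ = (∑ A : ZMod k, Nat.gcd A.val k) * (∑ B : ZMod k, Nat.gcd B.val k) := by
        rw [sum_mul_sum]
    _ ≤ (k * k.divisors.card) * (k * k.divisors.card) := Nat.mul_le_mul (KLA_gsum k) (KLA_gsum k)
    _ = k ^ 2 * k.divisors.card ^ 2 := by ring

theorem KLA_ident {k : ℕ} (r1 r2 r3 r4 : (ZMod k)ˣ)
    (h1 : (r1 : ZMod k) + r2 = r3 + r4)
    (h2 : ((r1⁻¹ : (ZMod k)ˣ) : ZMod k) + ((r2⁻¹ : (ZMod k)ˣ) : ZMod k) =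
      ((r3⁻¹ : (ZMod k)ˣ) : ZMod k) + ((r4⁻¹ : (ZMod k)ˣ) : ZMod k)) :
    ((r1 : ZMod k) + r2) * (r3 - r1) * (r3 - r2) = 0 := by
  have a1 : (r1 : ZMod k) * ((r1⁻¹ : (ZMod k)ˣ) : ZMod k) = 1 := r1.mul_inv
  have a2 : (r2 : ZMod k) * ((r2⁻¹ : (ZMod k)ˣ) : ZMod k) = 1 := r2.mul_inv
  have a3 : (r3 : ZMod k) * ((r3⁻¹ : (ZMod k)ˣ) : ZMod k) = 1 := r3.mul_inv
  have a4 : (r4 : ZMod k) * ((r4⁻¹ : (ZMod k)ˣ) : ZMod k) = 1 := r4.mul_inv
  generalize ((r1⁻¹ : (ZMod k)ˣ) : ZMod k) = v1 at *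
  generalize ((r2⁻¹ : (ZMod k)ˣ) : ZMod k) = v2 at *
  generalize ((r3⁻¹ : (ZMod k)ˣ) : ZMod k) = v3 at *
  generalize ((r4⁻¹ : (ZMod k)ˣ) : ZMod k) = v4 at *
  generalize (r1 : ZMod k) = u1 at *
  generalize (r2 : ZMod k) = u2 at *
  generalize (r3 : ZMod k) = u3 at *
  generalize (r4 : ZMod k) = u4 at *
  have e1 : u3 * u4 * (u1 + u2) = u1 * u2 * (u3 + u4) := by
    linear_combination (u1 * u2 * u3 * u4) * h2 - (u2 * u3 * u4) * a1 - (u1 * u3 * u4) * a2 +
      (u1 * u2 * u4) * a3 + (u1 * u2 * u3) * a4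
  linear_combination (-1) * e1 + (u1 * u2 - (u1 + u2) * u3) * h1

theorem kcount (k : ℕ) [NeZero k] :
    ((univ : Finset ((ZMod k)ˣ × (ZMod k)ˣ × (ZMod k)ˣ × (ZMod k)ˣ)).filter
      (fun r => (r.1 : ZMod k) + (r.2.1 : ZMod k) = (r.2.2.1 : ZMod k) + (r.2.2.2 : ZMod k) ∧
        ((r.1⁻¹ : (ZMod k)ˣ) : ZMod k) + ((r.2.1⁻¹ : (ZMod k)ˣ) : ZMod k) =
          ((r.2.2.1⁻¹ : (ZMod k)ˣ) : ZMod k) + ((r.2.2.2⁻¹ : (ZMod k)ˣ) : ZMod k))).card
      ≤ 2 * k ^ 2 * k.divisors.card ^ 2 := by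
  classical
  have hk : 0 < k := Nat.pos_of_ne_zero (NeZero.ne k)
  have htwo : ((univ : Finset (ZMod k)).filter (fun B => (2 : ZMod k) * B = 0)).card ≤ 2 := by
    refine (KLA_ann (2 : ZMod k)).trans ?_
    have h3 : (2 : ZMod k).val = 2 % k := by
      have := ZMod.val_natCast k 2
      simpa using this
    have h4 : Nat.gcd (2 : ZMod k).val k = Nat.gcd k 2 := by
      rw [h3, Nat.gcd_rec k 2]
    rw [h4]
    exact Nat.gcd_le_right _ (by norm_num)
  have key := card_le_mul_card_image_of_maps_to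
    (s := (univ : Finset ((ZMod k)ˣ × (ZMod k)ˣ × (ZMod k)ˣ × (ZMod k)ˣ)).filter
      (fun r => (r.1 : ZMod k) + (r.2.1 : ZMod k) = (r.2.2.1 : ZMod k) + (r.2.2.2 : ZMod k) ∧
        ((r.1⁻¹ : (ZMod k)ˣ) : ZMod k) + ((r.2.1⁻¹ : (ZMod k)ˣ) : ZMod k) =
          ((r.2.2.1⁻¹ : (ZMod k)ˣ) : ZMod k) + ((r.2.2.2⁻¹ : (ZMod k)ˣ) : ZMod k)))
    (t := (univ : Finset (ZMod k × ZMod k × ZMod k)).filter (fun p => p.1 * p.2.1 * p.2.2 = 0))
    (f := fun r => ((r.1 : ZMod k) + (r.2.1 : ZMod k), (r.2.2.1 : ZMod k) - (r.1 : ZMod k),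
      (r.2.2.1 : ZMod k) - (r.2.1 : ZMod k)))
    (by
      rintro ⟨r1, r2, r3, r4⟩ hr
      rw [mem_filter] at hr
      rw [mem_filter]
      exact ⟨mem_univ _, KLA_ident r1 r2 r3 r4 hr.2.1 hr.2.2⟩) 2 (by
      intro b _
      rcases Finset.eq_empty_or_nonempty (((univ : Finset ((ZMod k)ˣ × (ZMod k)ˣ × (ZMod k)ˣ × (ZMod k)ˣ)).filter
        (fun r => (r.1 : ZMod k) + (r.2.1 : ZMod k) = (r.2.2.1 : ZMod k) + (r.2.2.2 : ZMod k) ∧
        ((r.1⁻¹ : (ZMod k)ˣ) : ZMod k) + ((r.2.1⁻¹ : (ZMod k)ˣ) : ZMod k) =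
          ((r.2.2.1⁻¹ : (ZMod k)ˣ) : ZMod k) + ((r.2.2.2⁻¹ : (ZMod k)ˣ) : ZMod k))).filter
        (fun r => ((r.1 : ZMod k) + (r.2.1 : ZMod k), (r.2.2.1 : ZMod k) - (r.1 : ZMod k),
      (r.2.2.1 : ZMod k) - (r.2.1 : ZMod k)) = b)) with he | ⟨r0, hr0⟩
      · rw [he]; simp
      · refine le_trans (card_le_card_of_injOn (fun r => (r.1 : ZMod k) - (r0.1 : ZMod k)) ?_ ?_) htwo
        · intro r hr
          have hr' := mem_filter.1 (Finset.mem_coe.1 hr)
          have hr0' := mem_filter.1 hr0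
          have e := hr'.2.trans hr0'.2.symm
          simp only [Prod.mk.injEq] at e
          obtain ⟨e1, e2, e3⟩ := e
          simp only [coe_filter, mem_univ, true_and, Set.mem_ofPred_eq]
          linear_combination e1 - e2 + e3
        · intro r hr r' hr' h
          have hr1 := mem_filter.1 (Finset.mem_coe.1 hr)
          have hr2 := mem_filter.1 (Finset.mem_coe.1 hr')
          have e := hr1.2.trans hr2.2.symm
          simp only [Prod.mk.injEq] at e
          obtain ⟨e1, e2, e3⟩ := e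
          have s1 := (mem_filter.1 hr1.1).2.1
          have s2 := (mem_filter.1 hr2.1).2.1
          have h' : (r.1 : ZMod k) - (r0.1 : ZMod k) = (r'.1 : ZMod k) - (r0.1 : ZMod k) := h
          have d1 : (r.1 : ZMod k) = (r'.1 : ZMod k) := by linear_combination h'
          have d2 : (r.2.1 : ZMod k) = (r'.2.1 : ZMod k) := by linear_combination e1 - d1
          have d3 : (r.2.2.1 : ZMod k) = (r'.2.2.1 : ZMod k) := by linear_combination e2 + d1
          have d4 : (r.2.2.2 : ZMod k) = (r'.2.2.2 : ZMod k) := by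
            linear_combination d1 + d2 - d3 - s1 + s2
          exact Prod.ext (Units.ext d1) (Prod.ext (Units.ext d2) (Prod.ext (Units.ext d3)
            (Units.ext d4))))
  refine key.trans ?_
  have := kla3 k
  calc 2 * _ ≤ 2 * (k ^ 2 * k.divisors.card ^ 2) := Nat.mul_le_mul_left _ this
    _ = 2 * k ^ 2 * k.divisors.card ^ 2 := by ring

end H69BG
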