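import Pool.Agent.H69.BG.Ein

/-!
# MAI: the main terms of the good tuples

Without the condition `good` the sum over `q, q'` factors: `∑_{q ∈ SI I1} 1/q = kI I1` (`sum_inv_SI`) and
`∑_{I1 ⊆ B} (-1)^{|I1|} kI(B \ I1) kI(I1) = kI(B) ∑ (-1)^{|I1|} = 0` as `B ≠ ∅` (`Finset.sum_powerset_neg_one_pow_card`). So the sum over the good
pairs is minus the sum over the bad pairs. A bad pair has (a) a prime `p ∈ P i`, `i ∈ I1 ∩ I2`, `p ∣ q`, `p ∣ q'`; or (b) `p ∣ q` or `p ∣ q'`, and `p ∣ k`;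
or (c) `p ∣ q'`, `p ∣ k'`.
(a): `∑_{p ∈ P i} 1/p² · kI(I1 \ i) kI(I2 \ i) ≤ (1/z) κ_i Cd^{16} ≤ Cd^{17}/z` (`p > z`), at most 9 values of `i`.
(b), (c): the number of `p ∈ P i` dividing `k` (or `k'`) is `≤ Cd` (`SyB.div` for `I = {i}`), each with `1/p ≤ 1/z`: `≤ Cd/z · Cd^{17}`, at most `9 · 3` such sums.
Together `≤ 36 Cd^{18}/z` for each `(I1, I2)`; times `kI(B \ I1) kI(B \ I2) ≤ Cd^{18}` and at most `4^9` pairs: `4^9 · 36 Cd^{36}/z ≤ 10^8 Cd^{40}/z`.
(`0 ≤ κ_i ≤ Cd`, `Cd ≥ 1`.)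
-/

open Finset

namespace H69BG

private lemma MAI_kap_nonneg (P : ℕ → Finset ℕ) (i : ℕ) : 0 ≤ kap P i :=
  Finset.sum_nonneg fun p _ => by positivity

private lemma MAI_kI_nonneg (P : ℕ → Finset ℕ) (I : Finset ℕ) : 0 ≤ kI P I :=
  Finset.prod_nonneg fun i _ => MAI_kap_nonneg P i

private lemma MAI_kI_le {P : ℕ → Finset ℕ} {N Cd : ℕ} (hB : SyB P N Cd) {I : Finset ℕ}
    (hI : I ⊆ range 9) : kI P I ≤ (Cd : ℝ) ^ 9 := by
  have h1 : (1 : ℝ) ≤ Cd := by exact_mod_cast hB.one_le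
  calc kI P I ≤ ∏ _i ∈ I, (Cd : ℝ) := Finset.prod_le_prod (fun i _ => MAI_kap_nonneg P i)
        fun i hi => hB.kap i (mem_range.1 (hI hi))
    _ = (Cd : ℝ) ^ I.card := by rw [Finset.prod_const]
    _ ≤ (Cd : ℝ) ^ 9 := by
        refine pow_le_pow_right₀ h1 ?_
        simpa using Finset.card_le_card hI

private lemma MAI_D {P : ℕ → Finset ℕ} {z : ℕ} (hS : Sy P z) {I : Finset ℕ} {i p : ℕ}
    (hi : i ∈ I) (hp : p ∈ P i) :
    ∑ q ∈ SI P I, (if p ∣ q then 1 / (q : ℝ) else 0) = 1 / (p : ℝ) * kI P (I.erase i) := by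
  have hd : Disjoint ({i} : Finset ℕ) (I.erase i) := by simp
  have hu : I = {i} ∪ I.erase i := by
    rw [← Finset.insert_eq, Finset.insert_erase hi]
  have hpp := hS.prime i p hp
  conv_lhs => rw [hu]
  rw [sum_SI_union hS hd, SI_singleton, Finset.sum_eq_single p]
  · rw [← sum_inv_SI hS, Finset.mul_sum]
    refine Finset.sum_congr rfl fun s _ => ?_
    rw [if_pos (Dvd.intro _ rfl)]
    push_cast
    rw [one_div_mul_one_div]
  · intro p' hp' hne
    refine Finset.sum_eq_zero fun s hs => ?_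
    rw [if_neg]
    intro hdvd
    rcases (Nat.Prime.dvd_mul hpp).1 hdvd with h | h
    · exact hne ((Nat.prime_dvd_prime_iff_eq hpp (hS.prime i p' hp')).1 h).symm
    · obtain ⟨j, hj, hpj⟩ := (SI_primeFactors hS hs).1 p hpp h
      have hji : j ≠ i := Finset.ne_of_mem_erase hj
      exact Finset.disjoint_left.1 (hS.disj j i hji) hpj hp
  · intro h
    exact absurd hp h

private lemma MAI_D_le {P : ℕ → Finset ℕ} {z N Cd : ℕ} (hS : Sy P z) (hB : SyB P N Cd)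
    {I : Finset ℕ} (hI : I ⊆ range 9) {i p : ℕ} (hp : p ∈ P i) :
    ∑ q ∈ SI P I, (if p ∣ q then 1 / (q : ℝ) else 0) ≤ 1 / (p : ℝ) * (Cd : ℝ) ^ 9 := by
  by_cases hi : i ∈ I
  · rw [MAI_D hS hi hp]
    exact mul_le_mul_of_nonneg_left (MAI_kI_le hB ((Finset.erase_subset _ _).trans hI)) (by positivity)
  · rw [Finset.sum_eq_zero]
    · positivity
    · intro q hq
      rw [if_neg]
      intro hdvd
      obtain ⟨j, hj, hpj⟩ := (SI_primeFactors hS hq).1 p (hS.prime i p hp) hdvd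
      have hji : j ≠ i := fun h => hi (h ▸ hj)
      exact Finset.disjoint_left.1 (hS.disj j i hji) hpj hp

private lemma MAI_D_nonneg (S : Finset ℕ) (p : ℕ) :
    0 ≤ ∑ q ∈ S, (if p ∣ q then 1 / (q : ℝ) else 0) :=
  Finset.sum_nonneg fun q _ => by split_ifs <;> positivity

private lemma MAI_inv_le {P : ℕ → Finset ℕ} {z : ℕ} (hS : Sy P z) (hz : 1 ≤ z) {i p : ℕ}
    (hp : p ∈ P i) : 1 / (p : ℝ) ≤ 1 / z := by
  have h1 : (z : ℝ) ≤ p := by exact_mod_cast (hS.gt i p hp).le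
  have h2 : (0 : ℝ) < z := by exact_mod_cast hz
  exact one_div_le_one_div_of_le h2 h1

/-- number of the primes of `P i` dividing `k` -/
private lemma MAI_cnt {P : ℕ → Finset ℕ} {N Cd : ℕ} (hB : SyB P N Cd) {i k : ℕ} (hi : i < 9)
    (hk : 1 ≤ k) (hkN : k ≤ N) : ((P i).filter (fun p => p ∣ k)).card ≤ Cd := by
  have h := hB.div {i} (by simpa using hi) (k : ℤ) (by exact_mod_cast (by omega : k ≠ 0))
    (by rw [abs_of_nonneg (by positivity)]; exact_mod_cast hkN)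
  rw [SI_singleton] at h
  simpa [Int.natCast_dvd_natCast] using h

private lemma MAI_one {P : ℕ → Finset ℕ} {z N Cd : ℕ} (hS : Sy P z) (hB : SyB P N Cd) (hz : 1 ≤ z)
    {I : Finset ℕ} (hI : I ⊆ range 9) {i k : ℕ} (hi : i < 9) (hk : 1 ≤ k) (hkN : k ≤ N) :
    ∑ p ∈ P i, (if p ∣ k then ∑ q ∈ SI P I, (if p ∣ q then 1 / (q : ℝ) else 0) else 0) ≤
      (Cd : ℝ) ^ 10 / z := by
  rw [← Finset.sum_filter]
  have h0 : (0 : ℝ) < z := by exact_mod_cast hz
  calc ∑ p ∈ (P i).filter (fun p => p ∣ k), ∑ q ∈ SI P I, (if p ∣ q then 1 / (q : ℝ) else 0)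
      ≤ ∑ _p ∈ (P i).filter (fun p => p ∣ k), (Cd : ℝ) ^ 9 / z := by
        refine Finset.sum_le_sum fun p hp => ?_
        have hp' := (Finset.mem_filter.1 hp).1
        refine (MAI_D_le hS hB hI hp').trans ?_
        have := mul_le_mul_of_nonneg_right (MAI_inv_le hS hz hp') (by positivity : (0:ℝ) ≤ (Cd : ℝ) ^ 9)
        refine this.trans (le_of_eq ?_)
        ring
    _ = ((P i).filter (fun p => p ∣ k)).card * ((Cd : ℝ) ^ 9 / z) := by
        rw [Finset.sum_const, nsmul_eq_mul]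
    _ ≤ Cd * ((Cd : ℝ) ^ 9 / z) := by
        refine mul_le_mul_of_nonneg_right ?_ (by positivity)
        exact_mod_cast MAI_cnt hB hi hk hkN
    _ = (Cd : ℝ) ^ 10 / z := by ring

private lemma MAI_two {P : ℕ → Finset ℕ} {z N Cd : ℕ} (hS : Sy P z) (hB : SyB P N Cd) (hz : 1 ≤ z)
    {I1 I2 : Finset ℕ} (hI1 : I1 ⊆ range 9) (hI2 : I2 ⊆ range 9) {i : ℕ} (hi : i < 9) :
    ∑ p ∈ P i, (∑ q ∈ SI P I1, (if p ∣ q then 1 / (q : ℝ) else 0)) *
      (∑ q ∈ SI P I2, (if p ∣ q then 1 / (q : ℝ) else 0)) ≤ (Cd : ℝ) ^ 19 / z := by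
  have h0 : (0 : ℝ) < z := by exact_mod_cast hz
  calc ∑ p ∈ P i, (∑ q ∈ SI P I1, (if p ∣ q then 1 / (q : ℝ) else 0)) *
      (∑ q ∈ SI P I2, (if p ∣ q then 1 / (q : ℝ) else 0))
      ≤ ∑ p ∈ P i, (1 / (p : ℝ)) * ((Cd : ℝ) ^ 18 / z) := by
        refine Finset.sum_le_sum fun p hp => ?_
        have h1 := MAI_D_le hS hB hI1 hp
        have h2 := MAI_D_le hS hB hI2 hp
        have h3 := mul_le_mul h1 h2 (MAI_D_nonneg _ p) (by positivity)
        refine h3.trans ?_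
        have h4 := MAI_inv_le hS hz hp
        have h5 : 1 / (p : ℝ) * (Cd : ℝ) ^ 9 * (1 / (p : ℝ) * (Cd : ℝ) ^ 9) =
            1 / (p : ℝ) * ((Cd : ℝ) ^ 18 * (1 / (p : ℝ))) := by ring
        rw [h5]
        refine mul_le_mul_of_nonneg_left ?_ (by positivity)
        rw [div_eq_mul_one_div ((Cd : ℝ) ^ 18)]
        exact mul_le_mul_of_nonneg_left h4 (by positivity)
    _ = kap P i * ((Cd : ℝ) ^ 18 / z) := by
        rw [← Finset.sum_mul]
        rfl
    _ ≤ Cd * ((Cd : ℝ) ^ 18 / z) := mul_le_mul_of_nonneg_right (hB.kap i hi) (by positivity)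
    _ = (Cd : ℝ) ^ 19 / z := by ring

private lemma MAI_point {P : ℕ → Finset ℕ} {z : ℕ} (hS : Sy P z) {I1 I2 : Finset ℕ}
    (hI1 : I1 ⊆ range 9) (hI2 : I2 ⊆ range 9) {k k' q q' : ℕ} (hq : q ∈ SI P I1)
    (hq' : q' ∈ SI P I2) (h : ¬ good q q' k k') :
    1 / ((q : ℝ) * q') ≤ ∑ i ∈ range 9, ∑ p ∈ P i,
      ((if p ∣ q then 1 / (q : ℝ) else 0) * (if p ∣ q' then 1 / (q' : ℝ) else 0) +
        (if p ∣ k then (if p ∣ q then 1 / (q : ℝ) else 0) else 0) * (1 / (q' : ℝ)) +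
        (1 / (q : ℝ)) * (if p ∣ k then (if p ∣ q' then 1 / (q' : ℝ) else 0) else 0) +
        (1 / (q : ℝ)) * (if p ∣ k' then (if p ∣ q' then 1 / (q' : ℝ) else 0) else 0)) := by
  set F : ℕ → ℝ := fun p => ((if p ∣ q then 1 / (q : ℝ) else 0) * (if p ∣ q' then 1 / (q' : ℝ) else 0) +
        (if p ∣ k then (if p ∣ q then 1 / (q : ℝ) else 0) else 0) * (1 / (q' : ℝ)) +
        (1 / (q : ℝ)) * (if p ∣ k then (if p ∣ q' then 1 / (q' : ℝ) else 0) else 0) +
        (1 / (q : ℝ)) * (if p ∣ k' then (if p ∣ q' then 1 / (q' : ℝ) else 0) else 0)) with hF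
  have hF0 : ∀ p, 0 ≤ F p := by
    intro p
    simp only [hF]
    have a1 : 0 ≤ (if p ∣ q then 1 / (q : ℝ) else 0) := by split_ifs <;> positivity
    have a2 : 0 ≤ (if p ∣ q' then 1 / (q' : ℝ) else 0) := by split_ifs <;> positivity
    have a3 : 0 ≤ (if p ∣ k then (if p ∣ q then 1 / (q : ℝ) else 0) else 0) := by
      split_ifs <;> positivity
    have a4 : 0 ≤ (if p ∣ k then (if p ∣ q' then 1 / (q' : ℝ) else 0) else 0) := by
      split_ifs <;> positivity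
    have a5 : 0 ≤ (if p ∣ k' then (if p ∣ q' then 1 / (q' : ℝ) else 0) else 0) := by
      split_ifs <;> positivity
    positivity
  have key : ∃ i ∈ range 9, ∃ p ∈ P i, 1 / ((q : ℝ) * q') ≤ F p := by
    have hmul : 1 / ((q : ℝ) * q') = 1 / (q : ℝ) * (1 / (q' : ℝ)) := by
      rw [one_div_mul_one_div]
    have hex : (∃ p : ℕ, p.Prime ∧ p ∣ q ∧ p ∣ q') ∨ (∃ p : ℕ, p.Prime ∧ p ∣ q ∧ p ∣ k) ∨
        (∃ p : ℕ, p.Prime ∧ p ∣ q' ∧ p ∣ k) ∨ (∃ p : ℕ, p.Prime ∧ p ∣ q' ∧ p ∣ k') := by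
      by_contra hcon
      push Not at hcon
      obtain ⟨c1, c2, c3, c4⟩ := hcon
      apply h
      refine ⟨?_, ?_, ?_⟩
      · exact Nat.coprime_of_dvd fun p hp h1 h2 => c1 p hp h1 h2
      · refine Nat.coprime_of_dvd fun p hp h1 h2 => ?_
        rcases (Nat.Prime.dvd_mul hp).1 h1 with h3 | h3
        · exact c2 p hp h3 h2
        · exact c3 p hp h3 h2
      · exact Nat.coprime_of_dvd fun p hp h1 h2 => c4 p hp h1 h2
    have a1 : ∀ p, 0 ≤ (if p ∣ q then 1 / (q : ℝ) else 0) * (if p ∣ q' then 1 / (q' : ℝ) else 0) := by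
      intro p
      split_ifs <;> positivity
    have a2 : ∀ p, 0 ≤ (if p ∣ k then (if p ∣ q then 1 / (q : ℝ) else 0) else 0) * (1 / (q' : ℝ)) := by
      intro p
      split_ifs <;> positivity
    have a3 : ∀ p, 0 ≤ (1 / (q : ℝ)) * (if p ∣ k then (if p ∣ q' then 1 / (q' : ℝ) else 0) else 0) := by
      intro p
      split_ifs <;> positivity
    have a4 : ∀ p, 0 ≤ (1 / (q : ℝ)) * (if p ∣ k' then (if p ∣ q' then 1 / (q' : ℝ) else 0) else 0) := by
      intro p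
      split_ifs <;> positivity
    rcases hex with ⟨p, hp, h1, h2⟩ | ⟨p, hp, h1, h2⟩ | ⟨p, hp, h1, h2⟩ | ⟨p, hp, h1, h2⟩
    · obtain ⟨i, hi, hpi⟩ := (SI_primeFactors hS hq).1 p hp h1
      refine ⟨i, hI1 hi, p, hpi, ?_⟩
      have b1 : (if p ∣ q then 1 / (q : ℝ) else 0) * (if p ∣ q' then 1 / (q' : ℝ) else 0) =
          1 / ((q : ℝ) * q') := by rw [if_pos h1, if_pos h2, hmul]
      simp only [hF]
      linarith [a1 p, a2 p, a3 p, a4 p]
    · obtain ⟨i, hi, hpi⟩ := (SI_primeFactors hS hq).1 p hp h1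
      refine ⟨i, hI1 hi, p, hpi, ?_⟩
      have b1 : (if p ∣ k then (if p ∣ q then 1 / (q : ℝ) else 0) else 0) * (1 / (q' : ℝ)) =
          1 / ((q : ℝ) * q') := by rw [if_pos h2, if_pos h1, hmul]
      simp only [hF]
      linarith [a1 p, a2 p, a3 p, a4 p]
    · obtain ⟨i, hi, hpi⟩ := (SI_primeFactors hS hq').1 p hp h1
      refine ⟨i, hI2 hi, p, hpi, ?_⟩
      have b1 : (1 / (q : ℝ)) * (if p ∣ k then (if p ∣ q' then 1 / (q' : ℝ) else 0) else 0) =
          1 / ((q : ℝ) * q') := by rw [if_pos h2, if_pos h1, hmul]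
      simp only [hF]
      linarith [a1 p, a2 p, a3 p, a4 p]
    · obtain ⟨i, hi, hpi⟩ := (SI_primeFactors hS hq').1 p hp h1
      refine ⟨i, hI2 hi, p, hpi, ?_⟩
      have b1 : (1 / (q : ℝ)) * (if p ∣ k' then (if p ∣ q' then 1 / (q' : ℝ) else 0) else 0) =
          1 / ((q : ℝ) * q') := by rw [if_pos h2, if_pos h1, hmul]
      simp only [hF]
      linarith [a1 p, a2 p, a3 p, a4 p]
  obtain ⟨i, hi, p, hp, hle⟩ := key
  refine hle.trans ?_
  refine (Finset.single_le_sum (f := F) (fun p _ => hF0 p) hp).trans ?_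
  exact Finset.single_le_sum (f := fun i => ∑ p ∈ P i, F p)
    (fun i _ => Finset.sum_nonneg fun p _ => hF0 p) hi

private lemma MAI_bad {P : ℕ → Finset ℕ} {z N Cd : ℕ} (hS : Sy P z) (hB : SyB P N Cd) (hz : 1 ≤ z)
    {I1 I2 : Finset ℕ} (hI1 : I1 ⊆ range 9) (hI2 : I2 ⊆ range 9)
    {k k' : ℕ} (hk : 1 ≤ k) (hkN : k ≤ N) (hk' : 1 ≤ k') (hkN' : k' ≤ N) :
    ∑ q ∈ SI P I1, ∑ q' ∈ (SI P I2).filter (fun q' => ¬ good q q' k k'), (1 / ((q : ℝ) * q')) ≤
      36 * ((Cd : ℝ) ^ 19 / z) := by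
  have h0 : (0 : ℝ) < z := by exact_mod_cast hz
  have hK1 := MAI_kI_le hB hI1
  have hK2 := MAI_kI_le hB hI2
  have hs1 := sum_inv_SI hS I1
  have hs2 := sum_inv_SI hS I2
  set f : ℕ → ℕ → ℝ := fun p q => if p ∣ q then 1 / (q : ℝ) else 0 with hf
  have hf0 : ∀ p q, 0 ≤ f p q := by
    intro p q
    simp only [hf]
    split_ifs <;> positivity
  calc ∑ q ∈ SI P I1, ∑ q' ∈ (SI P I2).filter (fun q' => ¬ good q q' k k'), (1 / ((q : ℝ) * q'))
      ≤ ∑ q ∈ SI P I1, ∑ q' ∈ (SI P I2).filter (fun q' => ¬ good q q' k k'),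
        ∑ i ∈ range 9, ∑ p ∈ P i, (f p q * f p q' + (if p ∣ k then f p q else 0) * (1 / (q' : ℝ)) +
          (1 / (q : ℝ)) * (if p ∣ k then f p q' else 0) +
          (1 / (q : ℝ)) * (if p ∣ k' then f p q' else 0)) := by
        refine Finset.sum_le_sum fun q hq => Finset.sum_le_sum fun q' hq' => ?_
        exact MAI_point hS hI1 hI2 hq (Finset.mem_filter.1 hq').1 (Finset.mem_filter.1 hq').2
    _ ≤ ∑ q ∈ SI P I1, ∑ q' ∈ SI P I2,
        ∑ i ∈ range 9, ∑ p ∈ P i, (f p q * f p q' + (if p ∣ k then f p q else 0) * (1 / (q' : ℝ)) +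
          (1 / (q : ℝ)) * (if p ∣ k then f p q' else 0) +
          (1 / (q : ℝ)) * (if p ∣ k' then f p q' else 0)) := by
        refine Finset.sum_le_sum fun q hq => ?_
        refine Finset.sum_le_sum_of_subset_of_nonneg (Finset.filter_subset _ _) fun q' _ _ => ?_
        refine Finset.sum_nonneg fun i _ => Finset.sum_nonneg fun p _ => ?_
        have b1 := hf0 p q
        have b2 := hf0 p q'
        have b3 : 0 ≤ (if p ∣ k then f p q else 0) := by split_ifs <;> [exact b1; exact le_rfl]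
        have b4 : 0 ≤ (if p ∣ k then f p q' else 0) := by split_ifs <;> [exact b2; exact le_rfl]
        have b5 : 0 ≤ (if p ∣ k' then f p q' else 0) := by split_ifs <;> [exact b2; exact le_rfl]
        positivity
    _ = ∑ i ∈ range 9, ((∑ p ∈ P i, (∑ q ∈ SI P I1, f p q) * (∑ q' ∈ SI P I2, f p q')) +
          (∑ p ∈ P i, (if p ∣ k then ∑ q ∈ SI P I1, f p q else 0)) * kI P I2 +
          kI P I1 * (∑ p ∈ P i, (if p ∣ k then ∑ q' ∈ SI P I2, f p q' else 0)) +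
          kI P I1 * (∑ p ∈ P i, (if p ∣ k' then ∑ q' ∈ SI P I2, f p q' else 0))) := by
        have e1 : ∀ q, ∑ q' ∈ SI P I2,
            ∑ i ∈ range 9, ∑ p ∈ P i, (f p q * f p q' + (if p ∣ k then f p q else 0) * (1 / (q' : ℝ)) +
              (1 / (q : ℝ)) * (if p ∣ k then f p q' else 0) +
              (1 / (q : ℝ)) * (if p ∣ k' then f p q' else 0)) =
            ∑ i ∈ range 9, ∑ p ∈ P i, ∑ q' ∈ SI P I2,
             (f p q * f p q' + (if p ∣ k then f p q else 0) * (1 / (q' : ℝ)) +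
              (1 / (q : ℝ)) * (if p ∣ k then f p q' else 0) +
              (1 / (q : ℝ)) * (if p ∣ k' then f p q' else 0)) := by
          intro q
          rw [Finset.sum_comm]
          exact Finset.sum_congr rfl fun i _ => Finset.sum_comm
        simp only [e1]
        rw [Finset.sum_comm]
        refine Finset.sum_congr rfl fun i _ => ?_
        rw [Finset.sum_comm, Finset.sum_mul, Finset.mul_sum, Finset.mul_sum,
          ← Finset.sum_add_distrib, ← Finset.sum_add_distrib, ← Finset.sum_add_distrib]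
        refine Finset.sum_congr rfl fun p _ => ?_
        rw [← hs1, ← hs2]
        have c1 : ∀ (a : ℕ) (S : Finset ℕ), (if p ∣ a then ∑ q ∈ S, f p q else 0) =
            ∑ q ∈ S, (if p ∣ a then f p q else 0) := by
          intro a S
          split_ifs
          · rfl
          · simp
        rw [c1, c1, c1, Finset.sum_mul_sum, Finset.sum_mul_sum, Finset.sum_mul_sum,
          Finset.sum_mul_sum, ← Finset.sum_add_distrib, ← Finset.sum_add_distrib,
          ← Finset.sum_add_distrib]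
        refine Finset.sum_congr rfl fun q _ => ?_
        rw [← Finset.sum_add_distrib, ← Finset.sum_add_distrib, ← Finset.sum_add_distrib]
    _ ≤ ∑ _i ∈ range 9, 4 * ((Cd : ℝ) ^ 19 / z) := by
        refine Finset.sum_le_sum fun i hi => ?_
        have hi9 := mem_range.1 hi
        have t1 := MAI_two hS hB hz hI1 hI2 hi9
        have t2 := MAI_one hS hB hz hI1 hi9 hk hkN
        have t3 := MAI_one hS hB hz hI2 hi9 hk hkN
        have t4 := MAI_one hS hB hz hI2 hi9 hk' hkN'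
        have u2 : (∑ p ∈ P i, (if p ∣ k then ∑ q ∈ SI P I1, f p q else 0)) * kI P I2 ≤
            (Cd : ℝ) ^ 10 / z * (Cd : ℝ) ^ 9 :=
          mul_le_mul t2 hK2 (MAI_kI_nonneg P I2) (by positivity)
        have hsn : ∀ (a : ℕ) (S : Finset ℕ), 0 ≤ ∑ p ∈ P i, (if p ∣ a then ∑ q ∈ S, f p q else 0) := by
          intro a S
          refine Finset.sum_nonneg fun p _ => ?_
          split_ifs
          · exact Finset.sum_nonneg fun q _ => hf0 p q
          · exact le_rfl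
        have u3 : kI P I1 * (∑ p ∈ P i, (if p ∣ k then ∑ q' ∈ SI P I2, f p q' else 0)) ≤
            (Cd : ℝ) ^ 9 * ((Cd : ℝ) ^ 10 / z) :=
          mul_le_mul hK1 t3 (hsn _ _) (by positivity)
        have u4 : kI P I1 * (∑ p ∈ P i, (if p ∣ k' then ∑ q' ∈ SI P I2, f p q' else 0)) ≤
            (Cd : ℝ) ^ 9 * ((Cd : ℝ) ^ 10 / z) :=
          mul_le_mul hK1 t4 (hsn _ _) (by positivity)
        have e : (Cd : ℝ) ^ 10 / z * (Cd : ℝ) ^ 9 = (Cd : ℝ) ^ 19 / z := by ring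
        have e' : (Cd : ℝ) ^ 9 * ((Cd : ℝ) ^ 10 / z) = (Cd : ℝ) ^ 19 / z := by ring
        rw [e] at u2
        rw [e'] at u3 u4
        linarith
    _ = 36 * ((Cd : ℝ) ^ 19 / z) := by
        rw [Finset.sum_const, card_range, nsmul_eq_mul]
        push_cast
        ring

theorem mai {P : ℕ → Finset ℕ} {z N Cd : ℕ} (hS : Sy P z) (hB : SyB P N Cd) (hz : 1 ≤ z) {B : Finset ℕ} (hB9 : B ⊆ range 9)
    (hB0 : B.Nonempty) {k k' : ℕ} (hk : 1 ≤ k) (hkN : k ≤ N) (hk' : 1 ≤ k') (hkN' : k' ≤ N) :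
    |∑ I1 ∈ B.powerset, ∑ I2 ∈ B.powerset, (-1 : ℝ) ^ I1.card * (-1) ^ I2.card * kI P (B \ I1) * kI P (B \ I2) *
        ∑ q ∈ SI P I1, ∑ q' ∈ (SI P I2).filter (fun q' => good q q' k k'), (1 / ((q : ℝ) * q'))|
      ≤ 10 ^ 8 * (Cd : ℝ) ^ 40 / z := by
  have h0 : (0 : ℝ) < z := by exact_mod_cast hz
  have hCd : (1 : ℝ) ≤ Cd := by exact_mod_cast hB.one_le
  set c : Finset ℕ → ℝ := fun I => (-1 : ℝ) ^ I.card * kI P (B \ I) with hc
  set bad : Finset ℕ → Finset ℕ → ℝ := fun I1 I2 => ∑ q ∈ SI P I1,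
    ∑ q' ∈ (SI P I2).filter (fun q' => ¬ good q q' k k'), (1 / ((q : ℝ) * q')) with hbad
  have hsplit : ∀ I1 I2 : Finset ℕ, ∑ q ∈ SI P I1,
      ∑ q' ∈ (SI P I2).filter (fun q' => good q q' k k'), (1 / ((q : ℝ) * q')) =
      kI P I1 * kI P I2 - bad I1 I2 := by
    intro I1 I2
    rw [eq_sub_iff_add_eq, hbad, ← Finset.sum_add_distrib, ← sum_inv_SI hS, ← sum_inv_SI hS,
      Finset.sum_mul_sum]
    refine Finset.sum_congr rfl fun q _ => ?_
    rw [Finset.sum_filter_add_sum_filter_not]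
    exact Finset.sum_congr rfl fun q' _ => by rw [one_div_mul_one_div]
  have hzero : ∑ I ∈ B.powerset, c I * kI P I = 0 := by
    have h1 : ∀ I ∈ B.powerset, c I * kI P I = (-1 : ℝ) ^ I.card * kI P B := by
      intro I hI
      have : kI P (B \ I) * kI P I = kI P B := Finset.prod_sdiff (Finset.mem_powerset.1 hI)
      simp only [hc]
      rw [mul_assoc, this]
    rw [Finset.sum_congr rfl h1, ← Finset.sum_mul]
    have h2 := Finset.sum_powerset_neg_one_pow_card_of_nonempty hB0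
    have h3 : ∑ I ∈ B.powerset, (-1 : ℝ) ^ I.card = 0 := by exact_mod_cast h2
    rw [h3, zero_mul]
  have hmain : ∑ I1 ∈ B.powerset, ∑ I2 ∈ B.powerset, (-1 : ℝ) ^ I1.card * (-1) ^ I2.card *
      kI P (B \ I1) * kI P (B \ I2) * ∑ q ∈ SI P I1,
        ∑ q' ∈ (SI P I2).filter (fun q' => good q q' k k'), (1 / ((q : ℝ) * q')) =
      -∑ I1 ∈ B.powerset, ∑ I2 ∈ B.powerset, c I1 * c I2 * bad I1 I2 := by
    have h1 : ∑ I1 ∈ B.powerset, ∑ I2 ∈ B.powerset, (-1 : ℝ) ^ I1.card * (-1) ^ I2.card *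
      kI P (B \ I1) * kI P (B \ I2) * ∑ q ∈ SI P I1,
        ∑ q' ∈ (SI P I2).filter (fun q' => good q q' k k'), (1 / ((q : ℝ) * q')) =
        (∑ I1 ∈ B.powerset, ∑ I2 ∈ B.powerset, (c I1 * kI P I1) * (c I2 * kI P I2)) -
        ∑ I1 ∈ B.powerset, ∑ I2 ∈ B.powerset, c I1 * c I2 * bad I1 I2 := by
      rw [← Finset.sum_sub_distrib]
      refine Finset.sum_congr rfl fun I1 _ => ?_
      rw [← Finset.sum_sub_distrib]
      refine Finset.sum_congr rfl fun I2 _ => ?_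
      rw [hsplit]
      simp only [hc]
      ring
    rw [h1, ← Finset.sum_mul_sum, hzero, zero_mul, zero_sub]
  rw [hmain, abs_neg]
  have hcb : ∀ I ∈ B.powerset, |c I| ≤ (Cd : ℝ) ^ 9 := by
    intro I _
    simp only [hc]
    rw [abs_mul, abs_pow, abs_neg, abs_one, one_pow, one_mul, abs_of_nonneg (MAI_kI_nonneg P _)]
    exact MAI_kI_le hB (Finset.sdiff_subset.trans hB9)
  have hbadn : ∀ I1 I2, 0 ≤ bad I1 I2 := fun I1 I2 =>
    Finset.sum_nonneg fun q _ => Finset.sum_nonneg fun q' _ => by positivity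
  have hcard : (B.powerset.card : ℝ) ≤ 512 := by
    rw [Finset.card_powerset]
    have h1 : B.card ≤ 9 := by simpa using Finset.card_le_card hB9
    have h2 : 2 ^ B.card ≤ 2 ^ 9 := Nat.pow_le_pow_right (by norm_num) h1
    have h3 : 2 ^ B.card ≤ 512 := by simpa using h2
    exact_mod_cast h3
  calc |∑ I1 ∈ B.powerset, ∑ I2 ∈ B.powerset, c I1 * c I2 * bad I1 I2|
      ≤ ∑ I1 ∈ B.powerset, |∑ I2 ∈ B.powerset, c I1 * c I2 * bad I1 I2| :=
        Finset.abs_sum_le_sum_abs _ _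
    _ ≤ ∑ I1 ∈ B.powerset, ∑ I2 ∈ B.powerset, |c I1 * c I2 * bad I1 I2| :=
        Finset.sum_le_sum fun I1 _ => Finset.abs_sum_le_sum_abs _ _
    _ ≤ ∑ _I1 ∈ B.powerset, ∑ _I2 ∈ B.powerset,
        ((Cd : ℝ) ^ 9 * (Cd : ℝ) ^ 9 * (36 * ((Cd : ℝ) ^ 19 / z))) := by
        refine Finset.sum_le_sum fun I1 h1 => Finset.sum_le_sum fun I2 h2 => ?_
        rw [abs_mul, abs_mul, abs_of_nonneg (hbadn I1 I2)]
        refine mul_le_mul (mul_le_mul (hcb I1 h1) (hcb I2 h2) (abs_nonneg _) (by positivity))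
          ?_ (hbadn I1 I2) (by positivity)
        exact MAI_bad hS hB hz ((Finset.mem_powerset.1 h1).trans hB9)
          ((Finset.mem_powerset.1 h2).trans hB9) hk hkN hk' hkN'
    _ = (B.powerset.card : ℝ) * B.powerset.card * (36 * ((Cd : ℝ) ^ 37 / z)) := by
        rw [Finset.sum_const, Finset.sum_const, nsmul_eq_mul, nsmul_eq_mul]
        ring
    _ ≤ 512 * 512 * (36 * ((Cd : ℝ) ^ 37 / z)) := by
        refine mul_le_mul_of_nonneg_right ?_ (by positivity)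
        exact mul_le_mul hcard hcard (by positivity) (by norm_num)
    _ = 9437184 * (Cd : ℝ) ^ 37 / z := by ring
    _ ≤ 10 ^ 8 * (Cd : ℝ) ^ 40 / z := by
        refine div_le_div_of_nonneg_right ?_ h0.le
        refine mul_le_mul (by norm_num) (pow_le_pow_right₀ hCd (by norm_num)) (by positivity)
          (by positivity)

end H69BG
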