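import Pool.Agent.H69.BG.Shf
import Pool.Agent.H69.BG.F1

/-!
# NRM: the square of the norm of `be2`

`C := C_φ` from `Ph_sq`. Write `Φ_m(v) = Φ(v - m)`, `N' = NN (M+1) x`. `‖be2 v‖² = Re ∑_{m, m' ≤ N'} g2(m) g2(m') Φ(v-m) conj Φ(v-m')`, a finite sum; all functions `Wl W x v (1 + |v|) ‖Φ(v-m)‖ ‖Φ(v-m')‖` are integrable (`Ph_conv`).
1. Replace `Wl W x v` by `Wl W x m`: error (`Wl_lip`, `g2_bd`, substitution `v → v + m`) `≤ ∑_{m,m'} x^{6u} (C/x) ∫ |v| ‖Φ(v)‖ ‖Φ(v - (m'-m))‖ dv ≤ (C/x) x^{6u} ∑_{m,m'} (1 + 1/H)(1 + |m'-m|/H)^{-2} ≤ (C/x) x^{6u} N' (1+H) ≤ x^{8u}`.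
2. Main: `∑_m ∑_{m'} Wl W x m g2(m) g2(m') Ξ(m' - m)`, `Ξ(j) = ∫ Φ(v) conj Φ(v - j) dv`, `|Ξ(j)| ≤ C (1+1/H) (1 + |j|/H)^{-A}` for `A = 10^6` (`Ph_conv`). For `m` with `Wl W x m ≠ 0` all `m' = m - t`, `|t| ≤ x^{2u}`, are in `[1, N']`. The `m'` with `|m'-m| > x^{2u}` contribute
  `≤ C x · x^{6u} · C x · x^{-9}`. The rest is `∑_{|t| ≤ x^{2u}} Ξ(-t) corr W M x (g2) t`; for `t ≠ 0` use `f1g` and `∑_t |Ξ(-t)| ≤ C (1 + 1/H)(1 + H) ≤ C x^{u}`; for `t = 0`: `Ξ(0) = ∫ ‖Φ‖² ≤ C_φ/H` and `corr W M x g2 0 ≥ 0`.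
-/

open Finset H69LB MeasureTheory

namespace H69BG

/-- the product of two shifted kernels -/
noncomputable def Nrm_k (φ : ℝ → ℝ) (H j v : ℝ) : ℝ := (Ph φ H v * (starRingEnd ℂ) (Ph φ H (v - j))).re

/-- the autocorrelation of the kernel -/
noncomputable def Nrm_R (φ : ℝ → ℝ) (H j : ℝ) : ℝ := ∫ v, Nrm_k φ H j v

theorem Nrm_tel {H : ℝ} (hH : 0 < H) (N : ℕ) :
    ∑ j ∈ range (N + 1), 1 / (1 + (j : ℝ) / H) ^ 2 ≤ 1 + H - H / (1 + N / H) := by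
  induction N with
  | zero => simp
  | succ N ih =>
    rw [Finset.sum_range_succ]
    have h1 : 0 < 1 + (N : ℝ) / H := by positivity
    have h2 : 0 < 1 + ((N : ℝ) + 1) / H := by positivity
    have h3 : H / (1 + N / H) - H / (1 + ((N : ℝ) + 1) / H) =
        1 / ((1 + N / H) * (1 + ((N : ℝ) + 1) / H)) := by
      field_simp
      ring
    have h4 : 1 / (1 + ((N : ℝ) + 1) / H) ^ 2 ≤ 1 / ((1 + N / H) * (1 + ((N : ℝ) + 1) / H)) := by
      refine one_div_le_one_div_of_le (by positivity) ?_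
      rw [sq]
      refine mul_le_mul_of_nonneg_right ?_ h2.le
      gcongr
      linarith
    push_cast
    linarith

theorem Nrm_sumN {H : ℝ} (hH : 0 < H) (s : Finset ℕ) :
    ∑ j ∈ s, 1 / (1 + (j : ℝ) / H) ^ 2 ≤ 1 + H := by
  have h1 : s ⊆ range (s.sup id + 1) := by
    intro j hj
    rw [mem_range]
    have : j ≤ s.sup id := Finset.le_sup (f := id) hj
    omega
  refine (Finset.sum_le_sum_of_subset_of_nonneg h1 fun j _ _ => by positivity).trans ?_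
  have h2 := Nrm_tel hH (s.sup id)
  have h3 : 0 < H / (1 + ((s.sup id : ℕ) : ℝ) / H) := by positivity
  linarith

theorem Nrm_sumZ {H : ℝ} (hH : 0 < H) (s : Finset ℤ) :
    ∑ t ∈ s, 1 / (1 + |(t : ℝ)| / H) ^ 2 ≤ 2 * (1 + H) := by
  have key : ∀ s' : Finset ℤ, Set.InjOn Int.natAbs (s' : Set ℤ) →
      ∑ t ∈ s', 1 / (1 + |(t : ℝ)| / H) ^ 2 ≤ 1 + H := by
    intro s' hs'
    have h1 : ∑ t ∈ s', 1 / (1 + |(t : ℝ)| / H) ^ 2 =
        ∑ j ∈ s'.image Int.natAbs, 1 / (1 + (j : ℝ) / H) ^ 2 := by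
      rw [Finset.sum_image hs']
      refine Finset.sum_congr rfl fun t _ => ?_
      rw [Nat.cast_natAbs, Int.cast_abs]
    rw [h1]
    exact Nrm_sumN hH _
  rw [← Finset.sum_filter_add_sum_filter_not s (fun t => 0 ≤ t)]
  have h1 := key (s.filter (fun t => 0 ≤ t)) (by
    intro a ha b hb hab
    simp only [coe_filter, Set.mem_ofPred_eq] at ha hb
    have hab' : a.natAbs = b.natAbs := hab
    omega)
  have h2 := key (s.filter (fun t => ¬ 0 ≤ t)) (by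
    intro a ha b hb hab
    simp only [coe_filter, Set.mem_ofPred_eq] at ha hb
    have hab' : a.natAbs = b.natAbs := hab
    omega)
  linarith

theorem Nrm_exp (φ : ℝ → ℝ) (M x H v : ℝ) :
    ‖be2 φ M x H v‖ ^ 2 = ∑ m ∈ Icc 1 (NN (M + 1) x), ∑ m' ∈ Icc 1 (NN (M + 1) x),
      g2 x m * g2 x m' * (Ph φ H (v - m) * (starRingEnd ℂ) (Ph φ H (v - m'))).re := by
  have h : ((‖be2 φ M x H v‖ ^ 2 : ℝ) : ℂ) = be2 φ M x H v * (starRingEnd ℂ) (be2 φ M x H v) := by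
    rw [Complex.mul_conj, Complex.normSq_eq_norm_sq]
  have h2 : ‖be2 φ M x H v‖ ^ 2 = (be2 φ M x H v * (starRingEnd ℂ) (be2 φ M x H v)).re := by
    rw [← h, Complex.ofReal_re]
  rw [h2]
  unfold be2
  rw [map_sum, Finset.sum_mul_sum, Complex.re_sum]
  refine Finset.sum_congr rfl fun m _ => ?_
  rw [Complex.re_sum]
  refine Finset.sum_congr rfl fun m' _ => ?_
  rw [map_mul, Complex.conj_ofReal]
  rw [show (g2 x m : ℂ) * Ph φ H (v - m) * ((g2 x m' : ℂ) * (starRingEnd ℂ) (Ph φ H (v - m'))) =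
    ((g2 x m * g2 x m' : ℝ) : ℂ) * (Ph φ H (v - m) * (starRingEnd ℂ) (Ph φ H (v - m'))) by
      push_cast; ring]
  rw [Complex.re_ofReal_mul]

theorem Nrm_kcont {φ : ℝ → ℝ} (hφ : PH φ) {H : ℝ} (hH : 0 < H) (a b : ℝ) :
    Continuous (fun v => (Ph φ H (v - a) * (starRingEnd ℂ) (Ph φ H (v - b))).re) := by
  have h := (Ph_smooth hφ hH).continuous
  refine Complex.continuous_re.comp ?_
  refine (h.comp (continuous_id.sub continuous_const)).mul ?_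
  exact Complex.continuous_conj.comp (h.comp (continuous_id.sub continuous_const))

theorem Nrm_kcont' {φ : ℝ → ℝ} (hφ : PH φ) {H : ℝ} (hH : 0 < H) (j : ℝ) :
    Continuous (Nrm_k φ H j) := by
  have h := Nrm_kcont hφ hH 0 j
  have e : Nrm_k φ H j = fun v => (Ph φ H (v - 0) * (starRingEnd ℂ) (Ph φ H (v - j))).re := by
    funext v
    rw [sub_zero]
    rfl
  rw [e]
  exact h

theorem Nrm_kle (φ : ℝ → ℝ) (H j v : ℝ) : |Nrm_k φ H j v| ≤ ‖Ph φ H v‖ * ‖Ph φ H (v - j)‖ := by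
  unfold Nrm_k
  refine (Complex.abs_re_le_norm _).trans ?_
  rw [norm_mul, RCLike.norm_conj]

theorem Nrm_kle' (φ : ℝ → ℝ) (H j v : ℝ) :
    |Nrm_k φ H j v| ≤ (1 + |v|) * (‖Ph φ H v‖ * ‖Ph φ H (v - j)‖) := by
  refine (Nrm_kle φ H j v).trans ?_
  have h1 : 0 ≤ ‖Ph φ H v‖ * ‖Ph φ H (v - j)‖ := by positivity
  nlinarith [mul_nonneg (abs_nonneg v) h1]

theorem Nrm_kint {φ : ℝ → ℝ} (hφ : PH φ) {H : ℝ} (hH : 0 < H) (j : ℝ) :
    Integrable (Nrm_k φ H j) := by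
  obtain ⟨C, _, hC⟩ := Ph_conv hφ 0
  refine (hC H hH j).1.mono' (Nrm_kcont' hφ hH j).aestronglyMeasurable ?_
  exact Filter.Eventually.of_forall fun v => by
    rw [Real.norm_eq_abs]
    exact Nrm_kle' φ H j v

theorem Nrm_Rle {φ : ℝ → ℝ} (hφ : PH φ) (A : ℕ) : ∃ C : ℝ, 0 ≤ C ∧ ∀ H : ℝ, 0 < H → ∀ j : ℝ,
    |Nrm_R φ H j| ≤ C * (1 + 1 / H) / (1 + |j| / H) ^ A := by
  obtain ⟨C, hC0, hC⟩ := Ph_conv hφ A
  refine ⟨C, hC0, fun H hH j => ?_⟩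
  refine le_trans ?_ (hC H hH j).2
  unfold Nrm_R
  rw [← Real.norm_eq_abs]
  refine norm_integral_le_of_norm_le (hC H hH j).1 (Filter.Eventually.of_forall fun v => ?_)
  rw [Real.norm_eq_abs]
  exact Nrm_kle' φ H j v

theorem Nrm_R0 {φ : ℝ → ℝ} (hφ : PH φ) : ∃ C : ℝ, 0 ≤ C ∧ ∀ H : ℝ, 0 < H → Nrm_R φ H 0 ≤ C / H := by
  obtain ⟨C, hC0, hC⟩ := Ph_sq hφ
  refine ⟨C, hC0, fun H hH => ?_⟩
  refine le_trans (le_of_eq ?_) (hC H hH).2
  unfold Nrm_R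
  refine integral_congr_ae (Filter.Eventually.of_forall fun v => ?_)
  show Nrm_k φ H 0 v = ‖Ph φ H v‖ ^ 2
  unfold Nrm_k
  rw [sub_zero, Complex.mul_conj, Complex.normSq_eq_norm_sq, Complex.ofReal_re]

theorem Nrm_int {φ : ℝ → ℝ} (hφ : PH φ) {M : ℝ} {W : ℝ → ℝ} (hW : WS M W) {x H : ℝ} (hx : 0 < x)
    (hH : 0 < H) :
    ∫ v, Wl W x v * ‖be2 φ M x H v‖ ^ 2 =
      ∑ m ∈ Icc 1 (NN (M + 1) x), ∑ m' ∈ Icc 1 (NN (M + 1) x), g2 x m * g2 x m' *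
        ∫ v, Wl W x v * (Ph φ H (v - m) * (starRingEnd ℂ) (Ph φ H (v - m'))).re := by
  have hint : ∀ a b : ℝ, Integrable (fun v => Wl W x v *
      (Ph φ H (v - a) * (starRingEnd ℂ) (Ph φ H (v - b))).re) := by
    intro a b
    refine Continuous.integrable_of_hasCompactSupport ?_ ?_
    · exact (Wl_cont hW hx).mul (Nrm_kcont hφ hH a b)
    · exact (Wl_comp hW hx).mul_right
  have h1 : ∀ v, Wl W x v * ‖be2 φ M x H v‖ ^ 2 =
      ∑ m ∈ Icc 1 (NN (M + 1) x), ∑ m' ∈ Icc 1 (NN (M + 1) x), g2 x m * g2 x m' *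
        (Wl W x v * (Ph φ H (v - m) * (starRingEnd ℂ) (Ph φ H (v - m'))).re) := by
    intro v
    rw [Nrm_exp, Finset.mul_sum]
    refine Finset.sum_congr rfl fun m _ => ?_
    rw [Finset.mul_sum]
    refine Finset.sum_congr rfl fun m' _ => ?_
    ring
  simp_rw [h1]
  rw [integral_finsetSum]
  · refine Finset.sum_congr rfl fun m _ => ?_
    rw [integral_finsetSum]
    · refine Finset.sum_congr rfl fun m' _ => ?_
      rw [integral_const_mul]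
    · intro m' _
      exact (hint m m').const_mul _
  · intro m _
    refine integrable_finsetSum _ fun m' _ => ?_
    exact (hint m m').const_mul _

theorem Nrm_err {φ : ℝ → ℝ} (hφ : PH φ) {M : ℝ} {W : ℝ → ℝ} (hW : WS M W) :
    ∃ K : ℝ, 0 ≤ K ∧ ∀ x H : ℝ, 0 < x → 0 < H → ∀ m m' : ℕ,
      |(∫ v, Wl W x v * (Ph φ H (v - m) * (starRingEnd ℂ) (Ph φ H (v - m'))).re) -
        Wl W x m * Nrm_R φ H ((m' : ℝ) - m)| ≤ K / x * (1 + 1 / H) / (1 + |(m' : ℝ) - m| / H) ^ 2 := by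
  obtain ⟨CL, hCL0, hCL⟩ := Wl_lip hW
  obtain ⟨C2, hC20, hC2⟩ := Ph_conv hφ 2
  refine ⟨CL * C2, mul_nonneg hCL0 hC20, fun x H hx hH m m' => ?_⟩
  obtain ⟨j, hj⟩ : ∃ j : ℝ, j = (m' : ℝ) - m := ⟨_, rfl⟩
  have e1 : (∫ v, Wl W x v * (Ph φ H (v - m) * (starRingEnd ℂ) (Ph φ H (v - m'))).re) =
      ∫ v, Wl W x (v + m) * Nrm_k φ H j v := by
    rw [← integral_add_right_eq_self (fun v => Wl W x v *
      (Ph φ H (v - m) * (starRingEnd ℂ) (Ph φ H (v - m'))).re) (m : ℝ)]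
    refine integral_congr_ae (Filter.Eventually.of_forall fun v => ?_)
    show Wl W x (v + m) * (Ph φ H (v + m - m) * (starRingEnd ℂ) (Ph φ H (v + m - m'))).re =
      Wl W x (v + m) * Nrm_k φ H j v
    unfold Nrm_k
    have a1 : v + m - m = v := by ring
    have a2 : v + m - m' = v - j := by rw [hj]; ring
    rw [a1, a2]
  have i1 : Integrable (fun v => Wl W x (v + m) * Nrm_k φ H j v) := by
    refine Continuous.integrable_of_hasCompactSupport ?_ ?_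
    · exact ((Wl_cont hW hx).comp (continuous_id.add continuous_const)).mul (Nrm_kcont' hφ hH j)
    · refine HasCompactSupport.mul_right ?_
      exact (Wl_comp hW hx).comp_homeomorph (Homeomorph.addRight (m : ℝ))
  have i2 : Integrable (fun v => Wl W x m * Nrm_k φ H j v) := (Nrm_kint hφ hH j).const_mul _
  rw [e1, ← hj]
  have e2 : Wl W x m * Nrm_R φ H j = ∫ v, Wl W x m * Nrm_k φ H j v := by
    rw [integral_const_mul]
    rfl
  rw [e2, ← integral_sub i1 i2]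
  have h3 : CL * C2 / x * (1 + 1 / H) / (1 + |j| / H) ^ 2 =
      CL / x * (C2 * (1 + 1 / H) / (1 + |j| / H) ^ 2) := by ring
  rw [h3]
  have h4 : 0 ≤ CL / x := by positivity
  refine le_trans ?_ (mul_le_mul_of_nonneg_left (hC2 H hH j).2 h4)
  rw [← integral_const_mul, ← Real.norm_eq_abs]
  refine norm_integral_le_of_norm_le ((hC2 H hH j).1.const_mul _)
    (Filter.Eventually.of_forall fun v => ?_)
  show ‖Wl W x (v + m) * Nrm_k φ H j v - Wl W x m * Nrm_k φ H j v‖ ≤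
    CL / x * ((1 + |v|) * (‖Ph φ H v‖ * ‖Ph φ H (v - j)‖))
  rw [← sub_mul, norm_mul, Real.norm_eq_abs, Real.norm_eq_abs]
  have h5 := hCL x hx (v + m) m
  rw [add_sub_cancel_right] at h5
  have h6 := Nrm_kle φ H j v
  calc |Wl W x (v + m) - Wl W x m| * |Nrm_k φ H j v| ≤
        (CL / x * |v|) * (‖Ph φ H v‖ * ‖Ph φ H (v - j)‖) :=
        mul_le_mul h5 h6 (abs_nonneg _) (by positivity)
    _ ≤ CL / x * ((1 + |v|) * (‖Ph φ H v‖ * ‖Ph φ H (v - j)‖)) := by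
        rw [mul_assoc]
        refine mul_le_mul_of_nonneg_left ?_ h4
        refine mul_le_mul_of_nonneg_right ?_ (by positivity)
        linarith

theorem Nrm_near (φ : ℝ → ℝ) {M x H : ℝ} {W : ℝ → ℝ} (hW : WS M W) (hx : 0 < x) {N' T : ℕ}
    (hT1 : (T : ℝ) + 1 ≤ x * Real.exp (-M)) (hT2 : x * Real.exp M + T ≤ N') {m : ℕ}
    (hm : Wl W x m ≠ 0) :
    ∑ m' ∈ (Icc 1 N').filter (fun m' : ℕ => |(m' : ℤ) - m| ≤ T),
        g2 x m' * Nrm_R φ H ((m' : ℝ) - m) =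
      ∑ t ∈ Icc (-(T : ℤ)) T, g2 x (m - t) * Nrm_R φ H (-(t : ℝ)) := by
  obtain ⟨h1, h2⟩ := Wl_ne hW hx hm
  have h3 : (T : ℤ) + 1 ≤ m := by
    have : ((T : ℝ) + 1) ≤ m := by linarith
    exact_mod_cast this
  have h4 : (m : ℤ) + T ≤ N' := by
    have : ((m : ℝ) + T) ≤ N' := by linarith
    exact_mod_cast this
  refine Finset.sum_nbij' (fun m' : ℕ => (m : ℤ) - m') (fun t : ℤ => ((m : ℤ) - t).toNat) ?_ ?_ ?_ ?_ ?_
  · intro m' hm'
    simp only [mem_filter, mem_Icc, abs_le] at hm' ⊢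
    omega
  · intro t ht
    simp only [mem_filter, mem_Icc, abs_le] at ht ⊢
    omega
  · intro m' hm'
    simp only [mem_filter, mem_Icc, abs_le] at hm' ⊢
    omega
  · intro t ht
    simp only [mem_Icc] at ht ⊢
    omega
  · intro m' hm'
    congr 2
    · ring
    · push_cast
      ring

theorem Nrm_corr {M x : ℝ} {W : ℝ → ℝ} (hW : WS M W) (hx : 0 < x) (t : ℤ) :
    ∑ m ∈ Icc 1 (NN (M + 1) x), Wl W x m * g2 x m * g2 x (m - t) =
      corr W M x (fun n => g2 x n) t := by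
  unfold corr
  have hsub : Icc 1 (NN M x) ⊆ Icc 1 (NN (M + 1) x) := by
    refine Finset.Icc_subset_Icc le_rfl ?_
    unfold NN
    refine Nat.floor_le_floor ?_
    refine mul_le_mul_of_nonneg_left ?_ hx.le
    exact Real.exp_le_exp.2 (by linarith)
  symm
  rw [← Finset.sum_subset hsub]
  · refine Finset.sum_congr rfl fun n hn => ?_
    rw [mem_Icc] at hn
    rw [Wl_nat hn.1]
  · intro n _ hn2
    have hz : Wl W x n = 0 := by
      by_contra hne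
      obtain ⟨h1, h2⟩ := Wl_ne hW hx hne
      apply hn2
      rw [mem_Icc]
      constructor
      · have : (0 : ℝ) < n := lt_of_le_of_lt (by positivity) h1
        have h3 : 0 < n := by exact_mod_cast this
        omega
      · exact Nat.le_floor h2.le
    rw [hz, zero_mul, zero_mul]

theorem Nrm_main (φ : ℝ → ℝ) {M x H : ℝ} {W : ℝ → ℝ} (hW : WS M W) (hx : 0 < x) {T : ℕ}
    (hT1 : (T : ℝ) + 1 ≤ x * Real.exp (-M)) (hT2 : x * Real.exp M + T ≤ (NN (M + 1) x : ℕ))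
    {B G ρ : ℝ} (hB : 0 ≤ B) (hG : 0 ≤ G) (hρ : 0 ≤ ρ) (hWB : ∀ m : ℕ, |Wl W x m| ≤ B)
    (hg : ∀ m ∈ Icc 1 (NN (M + 1) x), |g2 x (m : ℕ)| ≤ G)
    (hR : ∀ j : ℤ, (T : ℤ) < |j| → |Nrm_R φ H j| ≤ ρ) :
    ∑ m ∈ Icc 1 (NN (M + 1) x), ∑ m' ∈ Icc 1 (NN (M + 1) x),
        g2 x m * g2 x m' * (Wl W x m * Nrm_R φ H ((m' : ℝ) - m)) ≤
      ∑ t ∈ Icc (-(T : ℤ)) T, Nrm_R φ H (-(t : ℝ)) * corr W M x (fun n => g2 x n) t +
        (NN (M + 1) x : ℕ) * ((B * G) * ((NN (M + 1) x : ℕ) * (G * ρ))) := by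
  obtain ⟨N', hN'⟩ : ∃ N' : ℕ, N' = NN (M + 1) x := ⟨_, rfl⟩
  rw [← hN'] at hT2 hg ⊢
  have h1 : ∀ m ∈ Icc 1 N', ∑ m' ∈ Icc 1 N', g2 x m * g2 x m' * (Wl W x m * Nrm_R φ H ((m' : ℝ) - m)) ≤
      (∑ t ∈ Icc (-(T : ℤ)) T, Nrm_R φ H (-(t : ℝ)) * (Wl W x m * g2 x m * g2 x (m - t))) +
        (B * G) * (N' * (G * ρ)) := by
    intro m hm
    have hpos : 0 ≤ (B * G) * (N' * (G * ρ)) := by positivity
    by_cases hz : Wl W x m = 0
    · rw [hz]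
      simp only [zero_mul, mul_zero, Finset.sum_const_zero]
      linarith
    · have e1 : ∑ m' ∈ Icc 1 N', g2 x m * g2 x m' * (Wl W x m * Nrm_R φ H ((m' : ℝ) - m)) =
          Wl W x m * g2 x m * ∑ m' ∈ Icc 1 N', g2 x m' * Nrm_R φ H ((m' : ℝ) - m) := by
        rw [Finset.mul_sum]
        refine Finset.sum_congr rfl fun m' _ => ?_
        ring
      have e2 : ∑ t ∈ Icc (-(T : ℤ)) T, Nrm_R φ H (-(t : ℝ)) * (Wl W x m * g2 x m * g2 x (m - t)) =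
          Wl W x m * g2 x m * ∑ t ∈ Icc (-(T : ℤ)) T, g2 x (m - t) * Nrm_R φ H (-(t : ℝ)) := by
        rw [Finset.mul_sum]
        refine Finset.sum_congr rfl fun m' _ => ?_
        ring
      rw [e1, e2, ← Finset.sum_filter_add_sum_filter_not (Icc 1 N') (fun m' : ℕ => |(m' : ℤ) - m| ≤ T),
        Nrm_near φ hW hx hT1 hT2 hz, mul_add]
      refine add_le_add le_rfl ?_
      refine (le_abs_self _).trans ?_
      rw [abs_mul]
      refine mul_le_mul ?_ ?_ (abs_nonneg _) (by positivity)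
      · rw [abs_mul]
        exact mul_le_mul (hWB m) (hg m hm) (abs_nonneg _) hB
      · refine (Finset.abs_sum_le_sum_abs _ _).trans ?_
        have h2 : ∀ m' ∈ (Icc 1 N').filter (fun m' : ℕ => ¬ |(m' : ℤ) - m| ≤ T),
            |g2 x m' * Nrm_R φ H ((m' : ℝ) - m)| ≤ G * ρ := by
          intro m' hm'
          rw [mem_filter] at hm'
          rw [abs_mul]
          refine mul_le_mul (hg m' hm'.1) ?_ (abs_nonneg _) hG
          have := hR ((m' : ℤ) - m) (by omega)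
          push_cast at this
          exact this
        refine (Finset.sum_le_sum h2).trans ?_
        rw [Finset.sum_const, nsmul_eq_mul]
        refine mul_le_mul_of_nonneg_right ?_ (by positivity)
        have h3 := Finset.card_filter_le (Icc 1 N') (fun m' : ℕ => ¬ |(m' : ℤ) - m| ≤ T)
        rw [Nat.card_Icc, Nat.add_sub_cancel] at h3
        exact_mod_cast h3
  refine (Finset.sum_le_sum h1).trans ?_
  rw [Finset.sum_add_distrib, Finset.sum_comm, Finset.sum_const, nsmul_eq_mul, Nat.card_Icc,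
    Nat.add_sub_cancel]
  refine add_le_add (le_of_eq ?_) le_rfl
  refine Finset.sum_congr rfl fun t _ => ?_
  rw [← Finset.mul_sum, hN', Nrm_corr hW hx t]

theorem Nrm_Wl_le {W : ℝ → ℝ} {B : ℝ} (hB0 : 0 ≤ B) (hB : ∀ η, |W η| ≤ B) (x v : ℝ) :
    |Wl W x v| ≤ B := by
  unfold Wl
  split_ifs
  · rw [abs_zero]
    exact hB0
  · exact hB _

/-- the sum over the second index of the error -/
theorem Nrm_row {H : ℝ} (hH : 0 < H) (N' m : ℕ) :
    ∑ m' ∈ Icc 1 N', 1 / (1 + |(m' : ℝ) - m| / H) ^ 2 ≤ 2 * (1 + H) := by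
  have h1 : ∑ m' ∈ Icc 1 N', 1 / (1 + |(m' : ℝ) - m| / H) ^ 2 =
      ∑ t ∈ (Icc 1 N').image (fun m' : ℕ => (m' : ℤ) - m), 1 / (1 + |(t : ℝ)| / H) ^ 2 := by
    rw [Finset.sum_image]
    · refine Finset.sum_congr rfl fun m' _ => ?_
      push_cast
      rfl
    · intro a _ b _ hab
      have hab' : (a : ℤ) - m = b - m := hab
      omega
  rw [h1]
  exact Nrm_sumZ hH _

theorem Nrm_errsum {x H G K : ℝ} (hx : 0 < x) (hH : 0 < H) (hG : 0 ≤ G) (hK : 0 ≤ K) {N' : ℕ}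
    (hg : ∀ m ∈ Icc 1 N', |g2 x (m : ℕ)| ≤ G) (D E : ℕ → ℕ → ℝ)
    (hDE : ∀ m m' : ℕ, |D m m' - E m m'| ≤ K / x * (1 + 1 / H) / (1 + |(m' : ℝ) - m| / H) ^ 2) :
    ∑ m ∈ Icc 1 N', ∑ m' ∈ Icc 1 N', g2 x m * g2 x m' * D m m' ≤
      ∑ m ∈ Icc 1 N', ∑ m' ∈ Icc 1 N', g2 x m * g2 x m' * E m m' +
        N' * (G ^ 2 * (K / x * (1 + 1 / H)) * (2 * (1 + H))) := by
  have h1 : ∀ m ∈ Icc 1 N', ∑ m' ∈ Icc 1 N', g2 x m * g2 x m' * D m m' ≤
      ∑ m' ∈ Icc 1 N', g2 x m * g2 x m' * E m m' +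
        G ^ 2 * (K / x * (1 + 1 / H)) * (2 * (1 + H)) := by
    intro m hm
    have h2 : ∀ m' ∈ Icc 1 N', g2 x m * g2 x m' * D m m' ≤ g2 x m * g2 x m' * E m m' +
        G ^ 2 * (K / x * (1 + 1 / H)) * (1 / (1 + |(m' : ℝ) - m| / H) ^ 2) := by
      intro m' hm'
      have h3 : |g2 x m * g2 x m' * (D m m' - E m m')| ≤
          G ^ 2 * (K / x * (1 + 1 / H)) * (1 / (1 + |(m' : ℝ) - m| / H) ^ 2) := by
        rw [abs_mul, abs_mul, mul_assoc (G ^ 2), mul_one_div]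
        refine mul_le_mul ?_ (hDE m m') (abs_nonneg _) (by positivity)
        rw [sq]
        exact mul_le_mul (hg m hm) (hg m' hm') (abs_nonneg _) hG
      have h4 := le_abs_self (g2 x m * g2 x m' * (D m m' - E m m'))
      linarith
    refine (Finset.sum_le_sum h2).trans ?_
    rw [Finset.sum_add_distrib, ← Finset.mul_sum]
    refine add_le_add le_rfl ?_
    exact mul_le_mul_of_nonneg_left (Nrm_row hH N' m) (by positivity)
  refine (Finset.sum_le_sum h1).trans ?_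
  rw [Finset.sum_add_distrib, Finset.sum_const, nsmul_eq_mul, Nat.card_Icc, Nat.add_sub_cancel]

/-- the diagonal sum of the correlations -/
theorem Nrm_diag (φ : ℝ → ℝ) {M x H : ℝ} {W : ℝ → ℝ} {T : ℕ} {C K δ : ℝ} (hH : 0 < H) (hK : 0 ≤ K)
    (hδ : 0 ≤ δ)
    (hR0 : Nrm_R φ H 0 ≤ C / H) (hR : ∀ j : ℝ, |Nrm_R φ H j| ≤ K * (1 + 1 / H) / (1 + |j| / H) ^ 2)
    (h0 : 0 ≤ corr W M x (fun n => g2 x n) 0)
    (hc : ∀ t : ℤ, t ≠ 0 → |t| ≤ (T : ℤ) → |corr W M x (fun n => g2 x n) t| ≤ δ) :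
    ∑ t ∈ Icc (-(T : ℤ)) T, Nrm_R φ H (-(t : ℝ)) * corr W M x (fun n => g2 x n) t ≤
      C / H * corr W M x (fun n => g2 x n) 0 + K * (1 + 1 / H) * δ * (2 * (1 + H)) := by
  have hmem : (0 : ℤ) ∈ Icc (-(T : ℤ)) T := by
    rw [mem_Icc]
    omega
  rw [← Finset.add_sum_erase _ _ hmem]
  refine add_le_add ?_ ?_
  · rw [Int.cast_zero, neg_zero]
    exact mul_le_mul_of_nonneg_right hR0 h0
  · have h1 : ∀ t ∈ (Icc (-(T : ℤ)) T).erase 0,
        Nrm_R φ H (-(t : ℝ)) * corr W M x (fun n => g2 x n) t ≤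
          K * (1 + 1 / H) * δ * (1 / (1 + |(t : ℝ)| / H) ^ 2) := by
      intro t ht
      rw [mem_erase, mem_Icc] at ht
      refine (le_abs_self _).trans ?_
      rw [abs_mul]
      have h2 := hR (-(t : ℝ))
      rw [abs_neg] at h2
      have h3 := hc t ht.1 (abs_le.2 ⟨by omega, by omega⟩)
      calc |Nrm_R φ H (-(t : ℝ))| * |corr W M x (fun n => g2 x n) t| ≤
            K * (1 + 1 / H) / (1 + |(t : ℝ)| / H) ^ 2 * δ :=
            mul_le_mul h2 h3 (abs_nonneg _) (by positivity)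
        _ = K * (1 + 1 / H) * δ * (1 / (1 + |(t : ℝ)| / H) ^ 2) := by ring
    refine (Finset.sum_le_sum h1).trans ?_
    rw [← Finset.mul_sum]
    exact mul_le_mul_of_nonneg_left (Nrm_sumZ hH _) (by positivity)

theorem Nrm_a1 {x y H c0 C1 e1 K : ℝ} {N' : ℕ} (hx : 0 < x) (hy : 1 ≤ y) (hH : 0 < H) (hc0 : 0 < c0)
    (hcH : c0 ≤ H) (hHC : H ≤ C1 * y) (hC1 : 1 ≤ C1) (he1 : 0 < e1) (hK : 0 ≤ K) (hN : (N' : ℝ) ≤ x * e1)
    (hyx : y ^ 16 ≤ x) (hk : 3 * (e1 * K * (1 + 1 / c0) * (2 * (1 + C1))) ≤ y) :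
    N' * ((y ^ 3) ^ 2 * (K / x * (1 + 1 / H)) * (2 * (1 + H))) ≤ x / y ^ 8 / 3 := by
  have hy0 : 0 < y := by linarith
  have h1 : 1 / H ≤ 1 / c0 := one_div_le_one_div_of_le hc0 hcH
  have h2 : 1 + H ≤ (1 + C1) * y := by nlinarith
  calc (N' : ℝ) * ((y ^ 3) ^ 2 * (K / x * (1 + 1 / H)) * (2 * (1 + H)))
      ≤ (x * e1) * ((y ^ 3) ^ 2 * (K / x * (1 + 1 / c0)) * (2 * ((1 + C1) * y))) := by gcongr
    _ = (e1 * K * (1 + 1 / c0) * (2 * (1 + C1))) * y ^ 7 := by field_simp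
    _ ≤ (y / 3) * y ^ 7 := by
        refine mul_le_mul_of_nonneg_right ?_ (by positivity)
        linarith
    _ = y ^ 16 / y ^ 8 / 3 := by field_simp
    _ ≤ x / y ^ 8 / 3 := by gcongr

theorem Nrm_a2 {x y H c0 C1 K : ℝ} (hx : 0 < x) (hy : 1 ≤ y) (hH : 0 < H) (hc0 : 0 < c0)
    (hcH : c0 ≤ H) (hHC : H ≤ C1 * y) (hC1 : 1 ≤ C1) (hK : 0 ≤ K)
    (hk : 3 * (K * (1 + 1 / c0) * (2 * (1 + C1))) ≤ y) :
    K * (1 + 1 / H) * (x / y ^ 10) * (2 * (1 + H)) ≤ x / y ^ 8 / 3 := by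
  have hy0 : 0 < y := by linarith
  have h1 : 1 / H ≤ 1 / c0 := one_div_le_one_div_of_le hc0 hcH
  have h2 : 1 + H ≤ (1 + C1) * y := by nlinarith
  calc K * (1 + 1 / H) * (x / y ^ 10) * (2 * (1 + H))
      ≤ K * (1 + 1 / c0) * (x / y ^ 10) * (2 * ((1 + C1) * y)) := by gcongr
    _ = (K * (1 + 1 / c0) * (2 * (1 + C1))) * (x / y ^ 9) := by field_simp
    _ ≤ (y / 3) * (x / y ^ 9) := by
        refine mul_le_mul_of_nonneg_right ?_ (by positivity)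
        linarith
    _ = x / y ^ 8 / 3 := by field_simp

theorem Nrm_a3 {x y c0 C1 e1 K B : ℝ} {N' A : ℕ} (hx : 1 ≤ x) (hy : 1 ≤ y) (hc0 : 0 < c0)
    (hC1 : 1 ≤ C1) (he1 : 0 < e1) (hK : 0 ≤ K) (hB : 0 ≤ B) (hN : (N' : ℝ) ≤ x * e1)
    (hyx : y ^ 16 ≤ x) (hyA : y ^ A = x ^ 10)
    (hk : 3 * (e1 * e1 * B * (K * (1 + 1 / c0)) * C1 ^ A) ≤ y) :
    N' * ((B * y ^ 3) * (N' * (y ^ 3 * (K * (1 + 1 / c0) / (y / C1) ^ A)))) ≤ x / y ^ 8 / 3 := by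
  have hy0 : 0 < y := by linarith
  have hx0 : 0 < x := by linarith
  rw [div_pow, hyA]
  calc (N' : ℝ) * ((B * y ^ 3) * (N' * (y ^ 3 * (K * (1 + 1 / c0) / (x ^ 10 / C1 ^ A)))))
      ≤ (x * e1) * ((B * y ^ 3) * ((x * e1) * (y ^ 3 * (K * (1 + 1 / c0) / (x ^ 10 / C1 ^ A))))) := by
        gcongr
    _ = (e1 * e1 * B * (K * (1 + 1 / c0)) * C1 ^ A) * (y ^ 6 / x ^ 8) := by field_simp
    _ ≤ (y / 3) * (y ^ 6 / x ^ 8) := by
        refine mul_le_mul_of_nonneg_right ?_ (by positivity)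
        linarith
    _ ≤ (y / 3) * (y ^ 6 / 1) := by
        refine mul_le_mul_of_nonneg_left ?_ (by positivity)
        refine div_le_div_of_nonneg_left (by positivity) one_pos ?_
        exact one_le_pow₀ hx
    _ = y ^ 15 / y ^ 8 / 3 := by field_simp
    _ ≤ y ^ 16 / y ^ 8 / 3 := by
        gcongr
        norm_num
    _ ≤ x / y ^ 8 / 3 := by gcongr

theorem nrm {φ : ℝ → ℝ} (hφ : PH φ) : ∃ C : ℝ, 0 < C ∧ ∀ M : ℝ, 0 < M → ∀ W : ℝ → ℝ, WS M W → (∀ η, 0 ≤ W η) →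
    ∀ c0 C0 : ℝ, 0 < c0 → ∃ x0 : ℝ, ∀ x, x0 ≤ x → ∀ H : ℝ, c0 ≤ H → H ≤ C0 * x ^ uu →
      ∫ v, Wl W x v * ‖be2 φ M x H v‖ ^ 2 ≤ C / H * corr W M x (fun n => g2 x n) 0 + x ^ (1 - 8 * uu) := by
  obtain ⟨A, hA⟩ : ∃ A : ℕ, A = 1000000 := ⟨_, rfl⟩
  obtain ⟨Cφ, hCφ0, hCφ⟩ := Nrm_R0 hφ
  obtain ⟨K2, hK20, hK2⟩ := Nrm_Rle hφ 2
  obtain ⟨KA, hKA0, hKA⟩ := Nrm_Rle hφ A
  refine ⟨Cφ + 1, by linarith, ?_⟩
  intro M hM W hW hW0 c0 C0 hc0
  obtain ⟨Ke, hKe0, hKe⟩ := Nrm_err hφ hW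
  obtain ⟨B, hB0, hB⟩ := WS_bdd hW
  obtain ⟨x1, hx1⟩ := g2_bd
  obtain ⟨x2, hx2⟩ := f1g hM hW
  obtain ⟨C1, hC1⟩ : ∃ C1 : ℝ, C1 = max C0 1 := ⟨_, rfl⟩
  have hC1' : 1 ≤ C1 := by rw [hC1]; exact le_max_right _ _
  obtain ⟨e1, he1⟩ : ∃ e1 : ℝ, e1 = Real.exp (M + 1) := ⟨_, rfl⟩
  have he1' : 0 < e1 := by rw [he1]; exact Real.exp_pos _
  have hu0 : (0 : ℝ) < uu := F1_uu
  have t1 : ∀ c : ℝ, ∀ᶠ x : ℝ in Filter.atTop, c ≤ x ^ uu := fun c =>
    (tendsto_rpow_atTop hu0).eventually_ge_atTop c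
  have t2 : ∀ᶠ x : ℝ in Filter.atTop, e1 ≤ x ^ (1 / 10 : ℝ) :=
    (tendsto_rpow_atTop (by norm_num)).eventually_ge_atTop _
  have t3 : ∀ᶠ x : ℝ in Filter.atTop, 2 * Real.exp M ≤ x ^ (1 - 2 * uu) :=
    (tendsto_rpow_atTop (by unfold uu; norm_num)).eventually_ge_atTop _
  obtain ⟨x0, hx0⟩ := Filter.eventually_atTop.1
    (((t1 (3 * (e1 * Ke * (1 + 1 / c0) * (2 * (1 + C1))))).and
      ((t1 (3 * (K2 * (1 + 1 / c0) * (2 * (1 + C1))))).and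
        (t1 (3 * (e1 * e1 * B * (KA * (1 + 1 / c0)) * C1 ^ A))))).and
      ((t2.and t3).and ((Filter.eventually_ge_atTop (1 : ℝ)).and
        ((Filter.eventually_ge_atTop x1).and (Filter.eventually_ge_atTop x2)))))
  refine ⟨x0, fun x hx H hcH hHC => ?_⟩
  obtain ⟨⟨s1, s2, s3⟩, ⟨s4, s5⟩, s6, s7, s8⟩ := hx0 x hx
  have hxpos : 0 < x := by linarith
  have hH : 0 < H := by linarith
  obtain ⟨y, hy⟩ : ∃ y : ℝ, y = x ^ uu := ⟨_, rfl⟩
  have hy1 : 1 ≤ y := by rw [hy]; exact Real.one_le_rpow s6 hu0.le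
  have hy0 : 0 < y := by linarith
  have ypow : ∀ n : ℕ, y ^ n = x ^ ((n : ℝ) * uu) := by
    intro n
    rw [hy, ← Real.rpow_natCast, ← Real.rpow_mul hxpos.le, mul_comm]
  have hHC' : H ≤ C1 * y := by
    rw [← hy] at hHC
    refine hHC.trans (mul_le_mul_of_nonneg_right ?_ hy0.le)
    rw [hC1]
    exact le_max_left _ _
  rw [← hy] at s1 s2 s3
  have hyA : y ^ A = x ^ 10 := by
    rw [ypow, hA, ← Real.rpow_natCast x 10]
    congr 1
    unfold uu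
    norm_num
  have hyx : y ^ 16 ≤ x := by
    rw [ypow]
    calc x ^ (((16 : ℕ) : ℝ) * uu) ≤ x ^ (1 : ℝ) :=
          Real.rpow_le_rpow_of_exponent_le s6 (by unfold uu; norm_num)
      _ = x := Real.rpow_one x
  have hG3 : x ^ (3 * uu) = y ^ 3 := by rw [ypow]; norm_num
  have hG2 : x ^ (2 * uu) = y ^ 2 := by rw [ypow]; norm_num
  have hG8 : x ^ (1 - 8 * uu) = x / y ^ 8 := by
    rw [ypow, Real.rpow_sub hxpos, Real.rpow_one]
    norm_num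
  have hG10 : x ^ (1 - 10 * uu) = x / y ^ 10 := by
    rw [ypow, Real.rpow_sub hxpos, Real.rpow_one]
    norm_num
  obtain ⟨N', hN'⟩ : ∃ N' : ℕ, N' = NN (M + 1) x := ⟨_, rfl⟩
  have hN1 : (N' : ℝ) ≤ x * e1 := by
    rw [hN', he1]
    unfold NN
    exact Nat.floor_le (by positivity)
  obtain ⟨T, hT⟩ : ∃ T : ℕ, T = ⌊x ^ (2 * uu)⌋₊ := ⟨_, rfl⟩
  have hTle : (T : ℝ) ≤ x ^ (2 * uu) := by
    rw [hT]
    exact Nat.floor_le (Real.rpow_nonneg hxpos.le _)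
  have hTlt : x ^ (2 * uu) < (T : ℝ) + 1 := by
    rw [hT]
    exact Nat.lt_floor_add_one _
  have h2u1 : 1 ≤ x ^ (2 * uu) := Real.one_le_rpow s6 (by linarith)
  have hT1 : (T : ℝ) + 1 ≤ x * Real.exp (-M) := by
    have e2 : x = x ^ (1 - 2 * uu) * x ^ (2 * uu) := by
      rw [← Real.rpow_add hxpos]
      norm_num
    have e3 : 2 * Real.exp M * x ^ (2 * uu) ≤ x := by
      calc 2 * Real.exp M * x ^ (2 * uu) ≤ x ^ (1 - 2 * uu) * x ^ (2 * uu) :=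
            mul_le_mul_of_nonneg_right s5 (by linarith)
        _ = x := e2.symm
    rw [Real.exp_neg, ← div_eq_mul_inv, le_div_iff₀ (Real.exp_pos M)]
    have e4 : ((T : ℝ) + 1) * Real.exp M ≤ (x ^ (2 * uu) + x ^ (2 * uu)) * Real.exp M :=
      mul_le_mul_of_nonneg_right (by linarith) (Real.exp_pos M).le
    linarith
  have hT2 : x * Real.exp M + T ≤ (NN (M + 1) x : ℕ) := by
    have e2 : x * Real.exp (M + 1) < (NN (M + 1) x : ℕ) + 1 := by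
      unfold NN
      exact Nat.lt_floor_add_one _
    have e3 : Real.exp M + Real.exp (-M) ≤ Real.exp (M + 1) := by
      have e4 : Real.exp (-M) ≤ Real.exp M := Real.exp_le_exp.2 (by linarith)
      have e5 : (2 : ℝ) ≤ Real.exp 1 := by
        have := Real.add_one_le_exp (1 : ℝ)
        linarith
      rw [Real.exp_add]
      have e6 := Real.exp_pos M
      nlinarith
    have e4 : x * (Real.exp M + Real.exp (-M)) ≤ x * Real.exp (M + 1) :=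
      mul_le_mul_of_nonneg_left e3 hxpos.le
    linarith
  have hg : ∀ m ∈ Icc 1 N', |g2 x (m : ℕ)| ≤ y ^ 3 := by
    intro m hm
    rw [mem_Icc] at hm
    rw [← hG3]
    refine hx1 x s7 m (by omega) ?_
    have e2 : (m : ℝ) ≤ x * e1 := le_trans (by exact_mod_cast hm.2) hN1
    have e3 : x ^ (11 / 10 : ℝ) = x * x ^ (1 / 10 : ℝ) := by
      rw [show (11 / 10 : ℝ) = 1 + 1 / 10 by norm_num, Real.rpow_add hxpos, Real.rpow_one]
    have e4 : |(((m : ℕ) : ℤ) : ℝ)| = m := by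
      rw [Int.cast_natCast, Nat.abs_cast]
    rw [e3]
    refine le_trans (le_of_eq ?_) (e2.trans (mul_le_mul_of_nonneg_left s4 hxpos.le))
    exact_mod_cast e4
  have hcorr0 : 0 ≤ corr W M x (fun n => g2 x n) 0 := by
    unfold corr
    refine Finset.sum_nonneg fun n _ => ?_
    rw [sub_zero, mul_assoc]
    exact mul_nonneg (hW0 _) (mul_self_nonneg _)
  -- the far terms
  have hRfar : ∀ j : ℤ, (T : ℤ) < |j| → |Nrm_R φ H j| ≤ KA * (1 + 1 / c0) / (y / C1) ^ A := by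
    intro j hj
    refine (hKA H hH j).trans ?_
    have hC10 : 0 < C1 := by linarith
    have e2 : (T : ℝ) + 1 ≤ |(j : ℝ)| := by
      have : (T : ℤ) + 1 ≤ |j| := by omega
      exact_mod_cast this
    have e3 : y / C1 ≤ 1 + |(j : ℝ)| / H := by
      have e4 : y / C1 ≤ |(j : ℝ)| / H := by
        rw [div_le_div_iff₀ hC10 hH]
        calc y * H ≤ y * (C1 * y) := mul_le_mul_of_nonneg_left hHC' hy0.le
          _ = y ^ 2 * C1 := by ring
          _ ≤ |(j : ℝ)| * C1 := by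
            refine mul_le_mul_of_nonneg_right ?_ hC10.le
            rw [← hG2]
            linarith
      linarith
    have e5 : 1 / H ≤ 1 / c0 := one_div_le_one_div_of_le hc0 hcH
    have e6 : (y / C1) ^ A ≤ (1 + |(j : ℝ)| / H) ^ A := pow_le_pow_left₀ (by positivity) e3 A
    have e7 : 0 < (y / C1) ^ A := by positivity
    have e8 : KA * (1 + 1 / H) ≤ KA * (1 + 1 / c0) := mul_le_mul_of_nonneg_left (by linarith) hKA0
    exact div_le_div₀ (by positivity) e8 e7 e6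
  -- assembly
  rw [Nrm_int hφ hW hxpos hH]
  have f1 := Nrm_errsum (N' := N') hxpos hH (G := y ^ 3) (K := Ke) (by positivity) hKe0 hg
    (fun m m' => ∫ v, Wl W x v * (Ph φ H (v - m) * (starRingEnd ℂ) (Ph φ H (v - m'))).re)
    (fun m m' => Wl W x m * Nrm_R φ H ((m' : ℝ) - m)) (hKe x H hxpos hH)
  have f2 := Nrm_main φ (H := H) hW hxpos (T := T) hT1 hT2 (B := B) (G := y ^ 3)
    (ρ := KA * (1 + 1 / c0) / (y / C1) ^ A) hB0 (by positivity) (by positivity)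
    (fun m => Nrm_Wl_le hB0 hB x m) (by rw [← hN']; exact hg) hRfar
  have f3 := Nrm_diag φ (M := M) (x := x) (W := W) (T := T) (C := Cφ) (K := K2) (δ := x / y ^ 10) hH hK20
    (by positivity) (hCφ H hH) (hK2 H hH) hcorr0 (by
      intro t ht htT
      rw [← hG10]
      refine hx2 x s8 t ht ?_
      refine le_trans ?_ hTle
      exact_mod_cast htT)
  have g1 := Nrm_a1 (N' := N') (K := Ke) hxpos hy1 hH hc0 hcH hHC' hC1' he1' hKe0 hN1 hyx s1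
  have g2' := Nrm_a2 (K := K2) hxpos hy1 hH hc0 hcH hHC' hC1' hK20 s2
  have g3 := Nrm_a3 (N' := N') (A := A) (K := KA) (B := B) s6 hy1 hc0 hC1' he1' hKA0 hB0 hN1 hyx hyA s3
  rw [← hN'] at f2 ⊢
  have f4 : Cφ / H * corr W M x (fun n => g2 x n) 0 ≤ (Cφ + 1) / H * corr W M x (fun n => g2 x n) 0 := by
    refine mul_le_mul_of_nonneg_right ?_ hcorr0
    exact div_le_div_of_nonneg_right (by linarith) hH.le
  rw [hG8]
  have f5 : x / y ^ 8 = x / y ^ 8 / 3 + x / y ^ 8 / 3 + x / y ^ 8 / 3 := by ring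
  linarith

end H69BG
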