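import Pool.Agent.H69.BG.Ana

/-!
# PHK: the kernel `Φ`

`Ph φ H v = (1/H) ∫ φ(s) e(s v/H) ds` (substitute `s = Hθ`), i.e. `(1/H)` times the inverse Fourier transform of the `C_c^∞` (Schwartz) function `φ` at `v/H`.
* `exists_PH`: for example `φ(θ) = smooth transition products` (as in `H69/LB/Pcs.lean`) or a `ContDiffBump` centred at `3/8`.
* `Ph_decay`: Schwartz decay. `Ph_smooth`: the Fourier transform of a Schwartz function is smooth.
* `Ph_inv`: Fourier inversion: `∫ e(θv) conj(Φ(v)) dv = conj ∫ e(-θv) Φ(v) dv = φ(Hθ)` (`φ` real).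
* `Ph_sum`: `∑_m ‖Φ(v - m)‖ ≤ ∑_m (C/H)(1 + |v-m|/H)^{-2} ≤ C (1 + 1/H)`: comparison with `2 · (C/H)` for the two nearest integers and an integral.
* `Ph_conv`: `∫ (1+|v|) ‖Φ(v)‖ ‖Φ(v - j)‖ dv`: substitute `v = H s`; `(1/H) ∫ (1 + H|s|) (1+|s|)^{-4-A} (1 + |s - j/H|)^{-A} ds ≤ C (1 + 1/H)(1 + |j|/H)^{-A}`, as `(1+|s|)(1+|s - a|) ≥ 1 + |a|`.
-/

open Finset H69LB MeasureTheory
open scoped ContDiff

namespace H69BG

open scoped FourierTransform in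
private theorem Phk_key {φ : ℝ → ℝ} (hφ : PH φ) : ∃ F : SchwartzMap ℝ ℂ,
    (∀ w, F w = ∫ s, ((φ s : ℝ) : ℂ) * ee (s * w)) ∧
    ∀ w, ∫ s, ee (-(w * s)) * F s = ((φ w : ℝ) : ℂ) := by
  have hc : HasCompactSupport (fun s => ((φ s : ℝ) : ℂ)) := by
    refine HasCompactSupport.intro (isCompact_Icc (a := (1 / 4 : ℝ)) (b := 1 / 2)) fun x hx => ?_
    have h0 : φ x = 0 := by
      refine hφ.zero x ?_
      by_contra hcon
      push Not at hcon
      exact hx ⟨hcon.1.le, hcon.2.le⟩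
    rw [h0, Complex.ofReal_zero]
  have hs : ContDiff ℝ ∞ (fun s => ((φ s : ℝ) : ℂ)) := Complex.ofRealCLM.contDiff.comp hφ.smooth
  obtain ⟨f, hf⟩ : ∃ f : SchwartzMap ℝ ℂ, ∀ s, f s = ((φ s : ℝ) : ℂ) :=
    ⟨hc.toSchwartzMap hs, fun s => rfl⟩
  refine ⟨𝓕⁻ f, fun w => ?_, fun w => ?_⟩
  · rw [SchwartzMap.fourierInv_coe, Real.fourierInv_eq']
    refine integral_congr_ae (Filter.Eventually.of_forall fun v => ?_)
    show Complex.exp (((2 * Real.pi * inner ℝ v w : ℝ) : ℂ) * Complex.I) • f v = _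
    rw [hf, smul_eq_mul, mul_comm]
    congr 1
    unfold ee
    congr 1
    have h1 : inner ℝ v w = v * w := by
      rw [real_inner_comm]
      rfl
    rw [h1]
    push_cast
    ring
  · have h : 𝓕 (𝓕⁻ f) = f := FourierTransform.fourier_fourierInv_eq f
    have h2 : (𝓕 (𝓕⁻ f)) w = f w := by rw [h]
    rw [SchwartzMap.fourier_coe, Real.fourier_real_eq_integral_exp_smul, hf] at h2
    rw [← h2]
    refine integral_congr_ae (Filter.Eventually.of_forall fun v => ?_)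
    show ee (-(w * v)) * (𝓕⁻ f) v = Complex.exp (((-2 * Real.pi * v * w : ℝ) : ℂ) * Complex.I) • (𝓕⁻ f) v
    rw [smul_eq_mul]
    congr 1
    unfold ee
    congr 1
    push_cast
    ring

private theorem Phk_scale {φ : ℝ → ℝ} {F : SchwartzMap ℝ ℂ}
    (hF : ∀ w, F w = ∫ s, ((φ s : ℝ) : ℂ) * ee (s * w)) {H : ℝ} (hH : 0 < H) (v : ℝ) :
    Ph φ H v = ((1 / H : ℝ) : ℂ) * F (v / H) := by
  have h1 := Measure.integral_comp_mul_left (fun s : ℝ => ((φ s : ℝ) : ℂ) * ee (s * (v / H))) H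
  rw [← hF, abs_of_pos (inv_pos.2 hH)] at h1
  unfold Ph
  have h2 : (fun θ : ℝ => ((φ (H * θ) : ℝ) : ℂ) * ee (θ * v)) =
      fun θ => ((φ (H * θ) : ℝ) : ℂ) * ee (H * θ * (v / H)) := by
    funext θ
    congr 2
    field_simp
  rw [h2, h1, one_div, Complex.real_smul]

private theorem Phk_dec (F : SchwartzMap ℝ ℂ) (A : ℕ) : ∃ C : ℝ, 0 ≤ C ∧ ∀ x : ℝ,
    (1 + |x|) ^ A * ‖F x‖ ≤ C := by
  refine ⟨2 ^ A * (Finset.Iic (A, 0)).sup (fun m => SchwartzMap.seminorm ℝ m.1 m.2) F, ?_,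
    fun x => ?_⟩
  · positivity
  · have h := SchwartzMap.one_add_le_sup_seminorm_apply (𝕜 := ℝ) (m := (A, 0)) (k := A) (n := 0)
      le_rfl le_rfl F x
    rw [norm_iteratedFDeriv_zero, Real.norm_eq_abs] at h
    exact h

private theorem Phk_decay {φ : ℝ → ℝ} (hφ : PH φ) (A : ℕ) : ∃ C : ℝ, 0 ≤ C ∧ ∀ H : ℝ, 0 < H →
    ∀ v : ℝ, ‖Ph φ H v‖ ≤ C / H / (1 + |v| / H) ^ A := by
  obtain ⟨F, hF, -⟩ := Phk_key hφ
  obtain ⟨C, hC, h⟩ := Phk_dec F A
  refine ⟨C, hC, fun H hH v => ?_⟩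
  rw [Phk_scale hF hH, norm_mul, Complex.norm_real, Real.norm_eq_abs, abs_of_pos (by positivity)]
  have h1 := h (v / H)
  rw [abs_div, abs_of_pos hH] at h1
  have h2 : 0 < (1 + |v| / H) ^ A := by positivity
  rw [le_div_iff₀ h2]
  calc 1 / H * ‖F (v / H)‖ * (1 + |v| / H) ^ A = ((1 + |v| / H) ^ A * ‖F (v / H)‖) / H := by ring
    _ ≤ C / H := by gcongr

private theorem Phk_smooth {φ : ℝ → ℝ} (hφ : PH φ) {H : ℝ} (hH : 0 < H) :
    ContDiff ℝ ∞ (Ph φ H) := by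
  obtain ⟨F, hF, -⟩ := Phk_key hφ
  have h1 : Ph φ H = fun v => ((1 / H : ℝ) : ℂ) * F (v / H) := funext (Phk_scale hF hH)
  rw [h1]
  exact contDiff_const.mul (F.smooth'.comp (contDiff_id.div_const H))

private theorem Phk_int1 : Integrable (fun s : ℝ => 1 / (1 + |s|) ^ 2) := by
  have h := integrable_one_add_norm (E := ℝ) (μ := volume) (r := 2) (by
    rw [Module.finrank_self]
    norm_num)
  refine h.congr (Filter.Eventually.of_forall fun s => ?_)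
  show (1 + ‖s‖) ^ (-2 : ℝ) = 1 / (1 + |s|) ^ 2
  rw [Real.norm_eq_abs, Real.rpow_neg (by positivity), one_div]
  congr 1
  exact Real.rpow_natCast (1 + |s|) 2

private theorem Phk_intH {H : ℝ} (hH : 0 < H) :
    Integrable (fun v : ℝ => 1 / (1 + |v| / H) ^ 2) ∧
      ∫ v : ℝ, 1 / (1 + |v| / H) ^ 2 = H * ∫ s : ℝ, 1 / (1 + |s|) ^ 2 := by
  have e : (fun v : ℝ => 1 / (1 + |v| / H) ^ 2) = fun v => (fun s : ℝ => 1 / (1 + |s|) ^ 2) (v / H) := by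
    funext v
    simp only
    rw [abs_div, abs_of_pos hH]
  constructor
  · rw [e]
    exact Phk_int1.comp_div hH.ne'
  · rw [e]
    have h1 := Measure.integral_comp_div (fun s : ℝ => 1 / (1 + |s|) ^ 2) H
    rw [abs_of_pos hH, smul_eq_mul] at h1
    exact h1

private theorem Phk_tel {H : ℝ} (hH : 0 < H) (N : ℕ) :
    ∑ j ∈ range N, 1 / (1 + ((j : ℝ) + 1) / H) ^ 2 ≤ H - H / (1 + N / H) := by
  induction N with
  | zero => simp
  | succ N ih =>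
    rw [Finset.sum_range_succ]
    have h1 : 0 < 1 + (N : ℝ) / H := by positivity
    have h2 : 0 < 1 + ((N : ℝ) + 1) / H := by positivity
    have h3 : H / (1 + N / H) - H / (1 + ((N : ℝ) + 1) / H) =
        1 / ((1 + N / H) * (1 + ((N : ℝ) + 1) / H)) := by
      field_simp
      ring
    have h4 : 1 / (1 + ((N : ℝ) + 1) / H) ^ 2 ≤ 1 / ((1 + N / H) * (1 + ((N : ℝ) + 1) / H)) := by
      refine one_div_le_one_div_of_le (by positivity) ?_
      rw [sq]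
      refine mul_le_mul_of_nonneg_right ?_ h2.le
      gcongr
      linarith
    push_cast
    linarith

private theorem Phk_sumN {H : ℝ} (hH : 0 < H) (t : Finset ℕ) :
    ∑ j ∈ t, 1 / (1 + (j : ℝ) / H) ^ 2 ≤ 1 + H := by
  obtain ⟨N, hN⟩ : ∃ N, t ⊆ range (N + 1) := by
    obtain ⟨N, hN⟩ := t.exists_nat_subset_range
    exact ⟨N, hN.trans (Finset.range_subset_range.2 (Nat.le_succ N))⟩
  have h1 : ∑ j ∈ t, 1 / (1 + (j : ℝ) / H) ^ 2 ≤ ∑ j ∈ range (N + 1), 1 / (1 + (j : ℝ) / H) ^ 2 :=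
    Finset.sum_le_sum_of_subset_of_nonneg hN fun j _ _ => by positivity
  rw [Finset.sum_range_succ'] at h1
  have h2 := Phk_tel hH N
  have h3 : 0 ≤ H / (1 + N / H) := by positivity
  have h4 : 1 / (1 + ((0 : ℕ) : ℝ) / H) ^ 2 = 1 := by simp
  rw [h4] at h1
  push_cast at h1
  linarith

private theorem Phk_sumZ {H : ℝ} (hH : 0 < H) (v : ℝ) (s : Finset ℤ) :
    ∑ m ∈ s, 1 / (1 + |v - m| / H) ^ 2 ≤ 2 * (1 + H) := by
  have hv1 := Int.floor_le v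
  have hv2 := Int.lt_floor_add_one v
  have hA : ∑ m ∈ s.filter (fun m => m ≤ ⌊v⌋), 1 / (1 + |v - m| / H) ^ 2 ≤ 1 + H := by
    have h1 : ∀ m ∈ s.filter (fun m => m ≤ ⌊v⌋), 1 / (1 + |v - m| / H) ^ 2 ≤
        1 / (1 + (((⌊v⌋ - m).toNat : ℕ) : ℝ) / H) ^ 2 := by
      intro m hm
      have hm1 : m ≤ ⌊v⌋ := (Finset.mem_filter.1 hm).2
      have h2 : (((⌊v⌋ - m).toNat : ℕ) : ℝ) = (⌊v⌋ : ℝ) - m := by
        have h3 : (((⌊v⌋ - m).toNat : ℕ) : ℤ) = ⌊v⌋ - m := Int.toNat_of_nonneg (by omega)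
        have h4 : ((((⌊v⌋ - m).toNat : ℕ) : ℤ) : ℝ) = ((⌊v⌋ - m : ℤ) : ℝ) := by rw [h3]
        push_cast at h4
        exact h4
      have h5 : (((⌊v⌋ - m).toNat : ℕ) : ℝ) ≤ |v - m| := by
        rw [h2]
        exact (by linarith : (⌊v⌋ : ℝ) - m ≤ v - m).trans (le_abs_self _)
      refine one_div_le_one_div_of_le (by positivity) ?_
      gcongr
    refine (Finset.sum_le_sum h1).trans ?_
    have hinj : Set.InjOn (fun m : ℤ => (⌊v⌋ - m).toNat) (s.filter (fun m => m ≤ ⌊v⌋)) := by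
      intro a ha b hb hab
      have ha1 : a ≤ ⌊v⌋ := (Finset.mem_filter.1 (Finset.mem_coe.1 ha)).2
      have hb1 : b ≤ ⌊v⌋ := (Finset.mem_filter.1 (Finset.mem_coe.1 hb)).2
      simp only at hab
      omega
    rw [← Finset.sum_image (f := fun j : ℕ => 1 / (1 + (j : ℝ) / H) ^ 2) hinj]
    exact Phk_sumN hH _
  have hB : ∑ m ∈ s.filter (fun m => ¬ m ≤ ⌊v⌋), 1 / (1 + |v - m| / H) ^ 2 ≤ 1 + H := by
    have h1 : ∀ m ∈ s.filter (fun m => ¬ m ≤ ⌊v⌋), 1 / (1 + |v - m| / H) ^ 2 ≤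
        1 / (1 + (((m - ⌊v⌋ - 1).toNat : ℕ) : ℝ) / H) ^ 2 := by
      intro m hm
      have hm1 : ¬ m ≤ ⌊v⌋ := (Finset.mem_filter.1 hm).2
      have h2 : (((m - ⌊v⌋ - 1).toNat : ℕ) : ℝ) = (m : ℝ) - ⌊v⌋ - 1 := by
        have h3 : (((m - ⌊v⌋ - 1).toNat : ℕ) : ℤ) = m - ⌊v⌋ - 1 := Int.toNat_of_nonneg (by omega)
        have h4 : ((((m - ⌊v⌋ - 1).toNat : ℕ) : ℤ) : ℝ) = ((m - ⌊v⌋ - 1 : ℤ) : ℝ) := by rw [h3]
        push_cast at h4
        exact h4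
      have h5 : (((m - ⌊v⌋ - 1).toNat : ℕ) : ℝ) ≤ |v - m| := by
        rw [h2, abs_sub_comm]
        exact (by linarith : (m : ℝ) - ⌊v⌋ - 1 ≤ m - v).trans (le_abs_self _)
      refine one_div_le_one_div_of_le (by positivity) ?_
      gcongr
    refine (Finset.sum_le_sum h1).trans ?_
    have hinj : Set.InjOn (fun m : ℤ => (m - ⌊v⌋ - 1).toNat) (s.filter (fun m => ¬ m ≤ ⌊v⌋)) := by
      intro a ha b hb hab
      have ha1 : ¬ a ≤ ⌊v⌋ := (Finset.mem_filter.1 (Finset.mem_coe.1 ha)).2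
      have hb1 : ¬ b ≤ ⌊v⌋ := (Finset.mem_filter.1 (Finset.mem_coe.1 hb)).2
      simp only at hab
      omega
    rw [← Finset.sum_image (f := fun j : ℕ => 1 / (1 + (j : ℝ) / H) ^ 2) hinj]
    exact Phk_sumN hH _
  rw [← Finset.sum_filter_add_sum_filter_not s (fun m => m ≤ ⌊v⌋)]
  linarith

theorem exists_PH : ∃ φ : ℝ → ℝ, PH φ := by
  let b : ContDiffBump (3 / 8 : ℝ) := ⟨1 / 32, 1 / 16, by norm_num, by norm_num⟩
  refine ⟨b, b.contDiff, fun θ hθ => ?_, fun θ => b.nonneg, b.integral_pos⟩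
  refine b.zero_of_le_dist ?_
  show (1 / 16 : ℝ) ≤ dist θ (3 / 8)
  rw [Real.dist_eq]
  rcases hθ with h | h
  · rw [abs_of_neg (by linarith)]
    linarith
  · rw [abs_of_pos (by linarith)]
    linarith

theorem Ph_decay {φ : ℝ → ℝ} (hφ : PH φ) (A : ℕ) : ∃ C : ℝ, 0 ≤ C ∧ ∀ H : ℝ, 0 < H → ∀ v : ℝ,
    ‖Ph φ H v‖ ≤ C / H / (1 + |v| / H) ^ A := by
  exact Phk_decay hφ A

theorem Ph_smooth {φ : ℝ → ℝ} (hφ : PH φ) {H : ℝ} (hH : 0 < H) : ContDiff ℝ ∞ (Ph φ H) := by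
  exact Phk_smooth hφ hH

theorem Ph_zero {φ : ℝ → ℝ} (hφ : PH φ) {H : ℝ} (hH : 0 < H) : Ph φ H 0 = ((1 / H * ∫ θ, φ θ : ℝ) : ℂ) := by
  obtain ⟨F, hF, -⟩ := Phk_key hφ
  rw [Phk_scale hF hH, zero_div, hF]
  have h1 : (fun s : ℝ => ((φ s : ℝ) : ℂ) * ee (s * 0)) = fun s => ((φ s : ℝ) : ℂ) := by
    funext s
    unfold ee
    simp
  rw [h1, integral_complex_ofReal]
  push_cast
  rfl

theorem Ph_integrable {φ : ℝ → ℝ} (hφ : PH φ) {H : ℝ} (hH : 0 < H) : Integrable (Ph φ H) := by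
  obtain ⟨F, hF, -⟩ := Phk_key hφ
  have h1 : Ph φ H = fun v => ((1 / H : ℝ) : ℂ) * F (v / H) := funext (Phk_scale hF hH)
  rw [h1]
  exact (F.integrable.comp_div hH.ne').const_mul _

theorem Ph_inv {φ : ℝ → ℝ} (hφ : PH φ) {H : ℝ} (hH : 0 < H) (θ : ℝ) :
    ∫ v, ee (θ * v) * (starRingEnd ℂ) (Ph φ H v) = ((φ (H * θ) : ℝ) : ℂ) := by
  obtain ⟨F, hF, hinv⟩ := Phk_key hφ
  have hconj : ∀ t : ℝ, (starRingEnd ℂ) (ee t) = ee (-t) := by
    intro t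
    unfold ee
    rw [← Complex.exp_conj]
    congr 1
    simp only [map_mul, Complex.conj_I, Complex.conj_ofReal, map_ofNat]
    push_cast
    ring
  have h1 : (fun v : ℝ => ee (θ * v) * (starRingEnd ℂ) (Ph φ H v)) =
      fun v => (fun s : ℝ => ((1 / H : ℝ) : ℂ) * (starRingEnd ℂ) (ee (-(H * θ * s)) * F s)) (v / H) := by
    funext v
    simp only
    rw [Phk_scale hF hH, map_mul, map_mul, Complex.conj_ofReal, hconj, neg_neg,
      show H * θ * (v / H) = θ * v by field_simp]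
    ring
  have h2 := Measure.integral_comp_div
    (fun s : ℝ => ((1 / H : ℝ) : ℂ) * (starRingEnd ℂ) (ee (-(H * θ * s)) * F s)) H
  have h3 : ∫ s : ℝ, ((1 / H : ℝ) : ℂ) * (starRingEnd ℂ) (ee (-(H * θ * s)) * F s) =
      ((1 / H : ℝ) : ℂ) * ((φ (H * θ) : ℝ) : ℂ) := by
    rw [integral_const_mul, integral_conj, hinv, Complex.conj_ofReal]
  rw [h1]
  refine h2.trans ?_
  rw [h3, abs_of_pos hH, Complex.real_smul, ← mul_assoc, ← Complex.ofReal_mul,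
    mul_one_div_cancel hH.ne', Complex.ofReal_one, one_mul]

theorem Ph_sum {φ : ℝ → ℝ} (hφ : PH φ) : ∃ C : ℝ, 0 ≤ C ∧ ∀ H : ℝ, 0 < H → ∀ v : ℝ, ∀ s : Finset ℤ,
    ∑ m ∈ s, ‖Ph φ H (v - m)‖ ≤ C * (1 + 1 / H) := by
  obtain ⟨C, hC, h⟩ := Phk_decay hφ 2
  refine ⟨2 * C, by positivity, fun H hH v s => ?_⟩
  have h1 : ∑ m ∈ s, ‖Ph φ H (v - m)‖ ≤ ∑ m ∈ s, C / H * (1 / (1 + |v - m| / H) ^ 2) := by
    refine Finset.sum_le_sum fun m _ => ?_
    refine (h H hH (v - m)).trans (le_of_eq ?_)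
    rw [div_eq_mul_one_div]
  rw [← Finset.mul_sum] at h1
  refine h1.trans ?_
  calc C / H * ∑ m ∈ s, 1 / (1 + |v - m| / H) ^ 2 ≤ C / H * (2 * (1 + H)) :=
        mul_le_mul_of_nonneg_left (Phk_sumZ hH v s) (by positivity)
    _ = 2 * C * (1 + 1 / H) := by
        field_simp
        ring

theorem Ph_conv {φ : ℝ → ℝ} (hφ : PH φ) (A : ℕ) : ∃ C : ℝ, 0 ≤ C ∧ ∀ H : ℝ, 0 < H → ∀ j : ℝ,
    Integrable (fun v => (1 + |v|) * (‖Ph φ H v‖ * ‖Ph φ H (v - j)‖)) ∧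
    ∫ v, (1 + |v|) * (‖Ph φ H v‖ * ‖Ph φ H (v - j)‖) ≤ C * (1 + 1 / H) / (1 + |j| / H) ^ A := by
  obtain ⟨C1, hC1, h1⟩ := Phk_decay hφ (A + 3)
  obtain ⟨C2, hC2, h2⟩ := Phk_decay hφ A
  obtain ⟨I, hI⟩ : ∃ I : ℝ, I = ∫ s : ℝ, 1 / (1 + |s|) ^ 2 := ⟨_, rfl⟩
  have hI0 : 0 ≤ I := by
    rw [hI]
    exact integral_nonneg fun s => by positivity
  refine ⟨C1 * C2 * I, by positivity, fun H hH j => ?_⟩
  obtain ⟨hi, he⟩ := Phk_intH hH
  have hcont : Continuous (fun v => (1 + |v|) * (‖Ph φ H v‖ * ‖Ph φ H (v - j)‖)) := by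
    have hc := (Phk_smooth hφ hH).continuous
    exact (continuous_const.add continuous_abs).mul
      (hc.norm.mul (hc.comp (continuous_id.sub continuous_const)).norm)
  have hbd : ∀ v, (1 + |v|) * (‖Ph φ H v‖ * ‖Ph φ H (v - j)‖) ≤
      C1 * C2 / H ^ 2 * (1 + H) / (1 + |j| / H) ^ A * (1 / (1 + |v| / H) ^ 2) := by
    intro v
    have a0 : 0 < 1 + |v| / H := by positivity
    have b0 : 0 < 1 + |v - j| / H := by positivity
    have c0 : 0 < 1 + |j| / H := by positivity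
    have e1 : 1 + |v| ≤ (1 + H) * (1 + |v| / H) := by
      have : (1 + H) * (1 + |v| / H) = 1 + |v| + (|v| / H + H) := by
        field_simp
        ring
      rw [this]
      have : 0 ≤ |v| / H + H := by positivity
      linarith
    have e2 : (1 + |j| / H) ^ A ≤ (1 + |v| / H) ^ A * (1 + |v - j| / H) ^ A := by
      rw [← mul_pow]
      refine pow_le_pow_left₀ c0.le ?_ A
      have e3 : |j| ≤ |v| + |v - j| := by
        have := abs_sub v (v - j)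
        rwa [sub_sub_cancel] at this
      have e4 : |j| / H ≤ |v| / H + |v - j| / H := by
        rw [← add_div]
        gcongr
      have e5 : 0 ≤ |v| / H * (|v - j| / H) := by positivity
      nlinarith
    have e6 : ‖Ph φ H v‖ * ‖Ph φ H (v - j)‖ ≤
        C1 / H / (1 + |v| / H) ^ (A + 3) * (C2 / H / (1 + |v - j| / H) ^ A) :=
      mul_le_mul (h1 H hH v) (h2 H hH (v - j)) (norm_nonneg _) (by positivity)
    calc (1 + |v|) * (‖Ph φ H v‖ * ‖Ph φ H (v - j)‖)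
        ≤ ((1 + H) * (1 + |v| / H)) *
          (C1 / H / (1 + |v| / H) ^ (A + 3) * (C2 / H / (1 + |v - j| / H) ^ A)) :=
          mul_le_mul e1 e6 (by positivity) (by positivity)
      _ = C1 * C2 / H ^ 2 * (1 + H) / ((1 + |v| / H) ^ A * (1 + |v - j| / H) ^ A) *
          (1 / (1 + |v| / H) ^ 2) := by
          have : (1 + |v| / H) ^ (A + 3) = (1 + |v| / H) ^ A * (1 + |v| / H) ^ 2 * (1 + |v| / H) := by
            ring
          rw [this]
          have a1 : (1 + |v| / H) ^ A ≠ 0 := by positivity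
          have b1 : (1 + |v - j| / H) ^ A ≠ 0 := by positivity
          generalize (1 + |v| / H) ^ A = X at *
          generalize (1 + |v - j| / H) ^ A = Y at *
          generalize 1 + |v| / H = Z at *
          field_simp
      _ ≤ C1 * C2 / H ^ 2 * (1 + H) / (1 + |j| / H) ^ A * (1 / (1 + |v| / H) ^ 2) := by
          gcongr
  have hint : Integrable (fun v => (1 + |v|) * (‖Ph φ H v‖ * ‖Ph φ H (v - j)‖)) := by
    refine (hi.const_mul (C1 * C2 / H ^ 2 * (1 + H) / (1 + |j| / H) ^ A)).mono'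
      hcont.aestronglyMeasurable (Filter.Eventually.of_forall fun v => ?_)
    rw [Real.norm_eq_abs, abs_of_nonneg (by positivity)]
    exact hbd v
  refine ⟨hint, ?_⟩
  calc ∫ v, (1 + |v|) * (‖Ph φ H v‖ * ‖Ph φ H (v - j)‖)
      ≤ ∫ v, C1 * C2 / H ^ 2 * (1 + H) / (1 + |j| / H) ^ A * (1 / (1 + |v| / H) ^ 2) :=
        integral_mono hint (hi.const_mul _) hbd
    _ = C1 * C2 / H ^ 2 * (1 + H) / (1 + |j| / H) ^ A * (H * I) := by
        rw [integral_const_mul, he, hI]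
    _ = C1 * C2 * I * (1 + 1 / H) / (1 + |j| / H) ^ A := by
        have c1 : (1 + |j| / H) ^ A ≠ 0 := by positivity
        generalize (1 + |j| / H) ^ A = X at *
        field_simp
        ring

/-- with the correct scaling at `j = 0` -/
theorem Ph_sq {φ : ℝ → ℝ} (hφ : PH φ) : ∃ C : ℝ, 0 ≤ C ∧ ∀ H : ℝ, 0 < H →
    Integrable (fun v => ‖Ph φ H v‖ ^ 2) ∧ ∫ v, ‖Ph φ H v‖ ^ 2 ≤ C / H := by
  obtain ⟨C, hC, h⟩ := Phk_decay hφ 1
  obtain ⟨I, hI⟩ : ∃ I : ℝ, I = ∫ s : ℝ, 1 / (1 + |s|) ^ 2 := ⟨_, rfl⟩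
  have hI0 : 0 ≤ I := by
    rw [hI]
    exact integral_nonneg fun s => by positivity
  refine ⟨C ^ 2 * I, by positivity, fun H hH => ?_⟩
  obtain ⟨hi, he⟩ := Phk_intH hH
  have hbd : ∀ v, ‖Ph φ H v‖ ^ 2 ≤ C ^ 2 / H ^ 2 * (1 / (1 + |v| / H) ^ 2) := by
    intro v
    have h1 := h H hH v
    rw [pow_one] at h1
    calc ‖Ph φ H v‖ ^ 2 ≤ (C / H / (1 + |v| / H)) ^ 2 :=
          pow_le_pow_left₀ (norm_nonneg _) h1 2
      _ = C ^ 2 / H ^ 2 * (1 / (1 + |v| / H) ^ 2) := by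
          rw [div_pow, div_pow]
          ring
  have hint : Integrable (fun v => ‖Ph φ H v‖ ^ 2) := by
    refine (hi.const_mul (C ^ 2 / H ^ 2)).mono'
      ((Phk_smooth hφ hH).continuous.norm.pow 2).aestronglyMeasurable
      (Filter.Eventually.of_forall fun v => ?_)
    rw [Real.norm_eq_abs, abs_of_nonneg (by positivity)]
    exact hbd v
  refine ⟨hint, ?_⟩
  calc ∫ v, ‖Ph φ H v‖ ^ 2 ≤ ∫ v, C ^ 2 / H ^ 2 * (1 / (1 + |v| / H) ^ 2) :=
        integral_mono hint (hi.const_mul _) hbd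
    _ = C ^ 2 / H ^ 2 * (H * I) := by rw [integral_const_mul, he, hI]
    _ = C ^ 2 * I / H := by
        field_simp

end H69BG
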