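import Pool.Agent.H69.BG.Phk
import Pool.Agent.H69.BG.Crx

/-!
# POI: Poisson summation over the shifts

For `θ` real, `∑_{t ∈ ℤ} Φ(t) e(-θt) = ∑_{k ∈ ℤ} φ(H(θ + k))` (Poisson summation for the Schwartz function `Φ = Ph φ H`, whose Fourier transform is `φ(H ·)`; Mathlib: `SchwartzMap.tsum_eq_tsum_fourier...`).
Insert `cr_exp`: `∑_t Φ(t) c_r(m - t) = ∑_{b ≤ r, (b,r)=1} e(bm/r) ∑_t Φ(t) e(-bt/r) = ∑_b e(bm/r) ∑_k φ(H (b + k r)/r) = ∑_{a ∈ ℤ, (a,r)=1} φ(Ha/r) e(am/r)` (`a = b + k r`, `e(bm/r) = e(am/r)`), and `φ(Ha/r) = 0` unless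
`1 ≤ a ≤ r/(2H) ≤ A`.
-/

open Finset H69LB

namespace H69BG

private theorem poi_summable {φ : ℝ → ℝ} (hφ : PH φ) {H : ℝ} (hH : 0 < H) :
    Summable (fun t : ℤ => ‖Ph φ H t‖) := by
  obtain ⟨C, hC, hdec⟩ := Ph_decay hφ 2
  have h1 : Summable (fun t : ℤ => C * H * |(t : ℝ)| ^ (-2 : ℝ)) :=
    (Real.summable_abs_int_rpow one_lt_two).mul_left _
  refine h1.of_norm_bounded_eventually ?_
  have h2 : ∀ᶠ t : ℤ in Filter.cofinite, t ≠ 0 := by
    rw [Filter.eventually_cofinite]
    simp
  filter_upwards [h2] with t ht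
  rw [norm_norm]
  refine (hdec H hH t).trans ?_
  have ht0 : 0 < |(t : ℝ)| := abs_pos.2 (by exact_mod_cast ht)
  have h3 : (|(t : ℝ)| / H) ^ 2 ≤ (1 + |(t : ℝ)| / H) ^ 2 :=
    pow_le_pow_left₀ (by positivity) (by linarith [div_pos ht0 hH]) 2
  have h4 : C * H * |(t : ℝ)| ^ (-2 : ℝ) = C / H / (|(t : ℝ)| / H) ^ 2 := by
    rw [show (-2 : ℝ) = ((-2 : ℤ) : ℝ) by norm_num, Real.rpow_intCast]
    rw [zpow_neg, show (2 : ℤ) = ((2 : ℕ) : ℤ) by norm_num, zpow_natCast]
    field_simp
  rw [h4]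
  exact div_le_div_of_nonneg_left (by positivity) (by positivity) h3

private theorem poi_ee (a b : ℝ) : ee (a + b) = ee a * ee b := by
  unfold ee
  rw [← Complex.exp_add]
  congr 1
  push_cast
  ring

private theorem poi_ee_int (n : ℤ) : ee n = 1 := by
  unfold ee
  rw [Complex.exp_eq_one_iff]
  exact ⟨n, by push_cast; ring⟩

private theorem poi_ee_norm (a : ℝ) : ‖ee a‖ = 1 := by
  unfold ee
  rw [show (2 * Real.pi * a * Complex.I : ℂ) = ((2 * Real.pi * a : ℝ) : ℂ) * Complex.I by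
    push_cast; ring]
  exact Complex.norm_exp_ofReal_mul_I _

open FourierTransform in
private theorem poi_main {φ : ℝ → ℝ} (hφ : PH φ) {H : ℝ} (hH : 0 < H) (θ : ℝ) :
    ∑' t : ℤ, Ph φ H t * ee (-(θ * t)) = ∑' k : ℤ, ((φ (H * (θ + k)) : ℝ) : ℂ) := by
  set f : ℝ → ℂ := fun u => ((φ (H * u) : ℝ) : ℂ) with hf
  have hfc : Continuous f := by
    have := hφ.smooth.continuous
    simp only [hf]
    fun_prop
  have hfF : ∀ n : ℤ, 𝓕 f n = Ph φ H (-n) := by
    intro n
    rw [Real.fourier_real_eq_integral_exp_smul]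
    unfold Ph
    refine MeasureTheory.integral_congr_ae (Filter.Eventually.of_forall fun v => ?_)
    simp only [hf, smul_eq_mul]
    rw [mul_comm]
    congr 1
    unfold ee
    congr 1
    push_cast
    ring
  have hdec : f =O[Filter.cocompact ℝ] (fun x : ℝ => |x| ^ (-2 : ℝ)) := by
    have h1 : f =ᶠ[Filter.cocompact ℝ] fun _ => 0 := by
      rw [Filter.EventuallyEq, Filter.eventually_iff_exists_mem]
      refine ⟨(Set.Icc 0 (1 / (2 * H)))ᶜ, isCompact_Icc.compl_mem_cocompact, fun u hu => ?_⟩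
      simp only [hf]
      have h2 : φ (H * u) = 0 := by
        apply hφ.zero
        by_contra hcon
        push Not at hcon
        apply hu
        constructor
        · by_contra h3
          push Not at h3
          have : H * u < 0 := mul_neg_of_pos_of_neg hH h3
          linarith [hcon.1]
        · rw [le_div_iff₀ (by positivity)]
          nlinarith [hcon.2]
      rw [h2, Complex.ofReal_zero]
    exact h1.trans_isBigO (Asymptotics.isBigO_zero _ _)
  have hsum : Summable fun n : ℤ => 𝓕 f n := by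
    have h1 : Summable (fun t : ℤ => Ph φ H t) := (poi_summable hφ hH).of_norm
    have h2 := (Equiv.neg ℤ).summable_iff.2 h1
    refine h2.congr fun n => ?_
    rw [hfF]
    simp
  have hP := Real.tsum_eq_tsum_fourier_of_rpow_decay_of_summable hfc one_lt_two hdec hsum θ
  simp only [hf] at hP
  rw [hP, ← (Equiv.neg ℤ).tsum_eq]
  refine tsum_congr fun n => ?_
  have h3 := hfF n
  simp only [hf] at h3
  rw [h3, fourier_coe_apply]
  simp only [Equiv.neg_apply, Int.cast_neg]
  congr 1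
  unfold ee
  congr 1
  push_cast
  simp
  ring

theorem poi {φ : ℝ → ℝ} (hφ : PH φ) {H : ℝ} (hH : 0 < H) {r A : ℕ} (hr : 1 ≤ r) (hA : (r : ℝ) / (2 * H) ≤ A) (m : ℤ) :
    Summable (fun t : ℤ => Ph φ H t * (cr r (m - t) : ℂ)) ∧
    ∑' t : ℤ, Ph φ H t * (cr r (m - t) : ℂ) =
      ∑ a ∈ (Icc 1 A).filter (fun a => Nat.Coprime a r), ((φ (H * a / r) : ℝ) : ℂ) * ee ((a : ℝ) * m / r) := by
  have hr0 : (0 : ℝ) < r := by exact_mod_cast hr
  have hS := poi_summable hφ hH
  have hSe : ∀ θ : ℝ, Summable (fun t : ℤ => Ph φ H t * ee (θ * t)) := by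
    intro θ
    refine Summable.of_norm ?_
    refine hS.congr fun t => ?_
    rw [norm_mul, poi_ee_norm, mul_one]
  constructor
  · refine Summable.of_norm_bounded (g := fun t : ℤ => ‖Ph φ H t‖ * (Nat.totient r : ℝ))
      (hS.mul_right _) fun t => ?_
    rw [norm_mul, Complex.norm_real, Real.norm_eq_abs]
    exact mul_le_mul_of_nonneg_left (abs_cr_phi hr _) (norm_nonneg _)
  set B : Finset ℕ := (Icc 1 r).filter (fun a => Nat.Coprime a r) with hB
  set Fn : ℤ → ℂ := fun a => ((φ (H * a / r) : ℝ) : ℂ) * ee ((a : ℝ) * m / r) with hFn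
  have hF0 : ∀ a : ℤ, (a ≤ 0 ∨ (A : ℤ) < a) → Fn a = 0 := by
    intro a ha
    simp only [hFn]
    rw [hφ.zero, Complex.ofReal_zero, zero_mul]
    rcases ha with ha | ha
    · left
      have h1 : (a : ℝ) ≤ 0 := by exact_mod_cast ha
      have h2 : H * a / r ≤ 0 := div_nonpos_of_nonpos_of_nonneg
        (mul_nonpos_of_nonneg_of_nonpos hH.le h1) hr0.le
      linarith
    · right
      have h1 : (A : ℝ) < a := by exact_mod_cast ha
      have h2 : (r : ℝ) / (2 * H) < a := hA.trans_lt h1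
      rw [div_lt_iff₀ (by positivity)] at h2
      rw [le_div_iff₀ hr0]
      nlinarith
  have h1 : ∀ t : ℤ, Ph φ H t * (cr r (m - t) : ℂ) =
      ∑ b ∈ B, ee ((b : ℝ) * m / r) * (Ph φ H t * ee (-((b : ℝ) / r * t))) := by
    intro t
    rw [cr_exp hr, Finset.mul_sum]
    refine Finset.sum_congr rfl fun b _ => ?_
    have : ((b : ℝ) * ((m - t : ℤ) : ℝ) / r) = (b : ℝ) * m / r + -((b : ℝ) / r * t) := by
      push_cast
      ring
    rw [this, poi_ee]
    ring
  have h2 : ∑' t : ℤ, Ph φ H t * (cr r (m - t) : ℂ) =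
      ∑ b ∈ B, ∑' k : ℤ, Fn (b + k * r) := by
    rw [tsum_congr h1, Summable.tsum_finsetSum]
    · refine Finset.sum_congr rfl fun b _ => ?_
      rw [tsum_mul_left, poi_main hφ hH, ← tsum_mul_left]
      refine tsum_congr fun k => ?_
      simp only [hFn]
      rw [mul_comm]
      have e1 : H * ((b : ℝ) / r + k) = H * (((b : ℤ) + k * r : ℤ) : ℝ) / r := by
        push_cast
        field_simp
      have e2 : (((b : ℤ) + k * r : ℤ) : ℝ) * m / r = (b : ℝ) * m / r + ((k * m : ℤ) : ℝ) := by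
        push_cast
        field_simp
      rw [e1, e2, poi_ee, poi_ee_int, mul_one]
    · intro b _
      refine Summable.mul_left _ ?_
      refine (hSe (-((b : ℝ) / r))).congr fun t => ?_
      rw [neg_mul]
  rw [h2]
  have h3 : ∀ b ∈ B, ∑' k : ℤ, Fn (b + k * r) = ∑ k ∈ range (A + 1), Fn ((b + k * r : ℕ) : ℤ) := by
    intro b hb
    have hb1 : 1 ≤ b ∧ b ≤ r := by
      have := (Finset.mem_filter.1 hb).1
      exact Finset.mem_Icc.1 this
    rw [tsum_eq_sum (s := (range (A + 1)).map ⟨((↑) : ℕ → ℤ), Nat.cast_injective⟩)]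
    · rw [Finset.sum_map]
      refine Finset.sum_congr rfl fun k _ => ?_
      simp
    · intro k hk
      apply hF0
      rcases lt_or_ge k 0 with h0 | h0
      · left
        have e1 : k * (r : ℤ) ≤ -1 * (r : ℤ) := by
          apply mul_le_mul_of_nonneg_right _ (by positivity)
          omega
        have : (b : ℤ) ≤ r := by exact_mod_cast hb1.2
        linarith
      · right
        obtain ⟨n, rfl⟩ := Int.eq_ofNat_of_zero_le h0
        have hn : A + 1 ≤ n := by
          by_contra hlt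
          push Not at hlt
          apply hk
          rw [Finset.mem_map]
          exact ⟨n, Finset.mem_range.2 hlt, rfl⟩
        have e1 : n * 1 ≤ n * r := Nat.mul_le_mul_left n hr
        have e2 : A < b + n * r := by omega
        have e3 : ((b : ℤ) + (n : ℤ) * (r : ℤ)) = ((b + n * r : ℕ) : ℤ) := by push_cast; ring
        rw [e3]
        exact_mod_cast e2
  rw [Finset.sum_congr rfl h3, ← Finset.sum_product']
  have hinj : Set.InjOn (fun x : ℕ × ℕ => x.1 + x.2 * r) ((B ×ˢ range (A + 1) : Finset (ℕ × ℕ)) : Set (ℕ × ℕ)) := by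
    rintro ⟨b, k⟩ hx ⟨b', k'⟩ hx' hbk
    simp only [Finset.coe_product, Set.mem_prod, Finset.mem_coe, hB, Finset.mem_filter,
      Finset.mem_Icc] at hx hx'
    simp only at hbk
    obtain ⟨⟨⟨hb1, hb2⟩, -⟩, -⟩ := hx
    obtain ⟨⟨⟨hb1', hb2'⟩, -⟩, -⟩ := hx'
    have hk : k = k' := by
      rcases lt_trichotomy k k' with h | h | h
      · exfalso
        have : (k + 1) * r ≤ k' * r := Nat.mul_le_mul_right r h
        rw [add_mul, one_mul] at this
        omega
      · exact h
      · exfalso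
        have : (k' + 1) * r ≤ k * r := Nat.mul_le_mul_right r h
        rw [add_mul, one_mul] at this
        omega
    subst hk
    have : b = b' := by omega
    rw [this]
  have h4 : ∑ x ∈ B ×ˢ range (A + 1), Fn ((x.1 + x.2 * r : ℕ) : ℤ) =
      ∑ a ∈ (B ×ˢ range (A + 1)).image (fun x : ℕ × ℕ => x.1 + x.2 * r), Fn (a : ℤ) :=
    (Finset.sum_image (f := fun a : ℕ => Fn (a : ℤ)) hinj).symm
  rw [h4]
  symm
  have h5 : ∑ a ∈ (Icc 1 A).filter (fun a => Nat.Coprime a r), Fn (a : ℤ) =
      ∑ a ∈ (B ×ˢ range (A + 1)).image (fun x : ℕ × ℕ => x.1 + x.2 * r), Fn (a : ℤ) := by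
    apply Finset.sum_subset
    · intro a ha
      rw [Finset.mem_filter, Finset.mem_Icc] at ha
      obtain ⟨⟨ha1, ha2⟩, hac⟩ := ha
      rw [Finset.mem_image]
      refine ⟨((a - 1) % r + 1, (a - 1) / r), ?_, ?_⟩
      · rw [Finset.mem_product, hB, Finset.mem_filter, Finset.mem_Icc, Finset.mem_range]
        have hlt := Nat.mod_lt (a - 1) hr
        refine ⟨⟨⟨by omega, by omega⟩, ?_⟩, ?_⟩
        · have e1 : a = ((a - 1) % r + 1) + r * ((a - 1) / r) := by
            have := Nat.mod_add_div (a - 1) r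
            omega
          rw [e1] at hac
          simpa using hac
        · have := Nat.div_le_self (a - 1) r
          omega
      · show (a - 1) % r + 1 + (a - 1) / r * r = a
        have := Nat.mod_add_div (a - 1) r
        rw [mul_comm r] at this
        omega
    · intro a ha hna
      apply hF0
      rw [Finset.mem_image] at ha
      obtain ⟨⟨b, k⟩, hx, rfl⟩ := ha
      rw [Finset.mem_product, hB, Finset.mem_filter, Finset.mem_Icc] at hx
      obtain ⟨⟨⟨hb1, hb2⟩, hbc⟩, -⟩ := hx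
      right
      by_contra hle
      push Not at hle
      apply hna
      rw [Finset.mem_filter, Finset.mem_Icc]
      refine ⟨⟨?_, ?_⟩, ?_⟩
      · show 1 ≤ b + k * r
        simp only at hb1
        omega
      · exact_mod_cast hle
      · show Nat.Coprime (b + k * r) r
        simp only at hbc
        simpa using hbc
  rw [← h5]
  refine Finset.sum_congr rfl fun a _ => ?_
  simp [hFn]

end H69BG
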