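import Pool.Agent.H69.BG.Ker1
import Pool.Agent.H69.BG.Ez

/-!
# RSM: the off-diagonal sum over `r`

Fix `a = (w1, w1', v1)`, `b = (w2, w2', v2)`. For `r` coprime to `k`: if one of the conditions in `tm` fails (they depend on `r` only through
`gcd(k + r l, u' w')`), the term is `0`. Otherwise, as `r`, `u u'`, `w1 w1'`, `w2 w2'` are units mod `k`,
`tm(a, r) conj(tm(b, r)) = Ω(r) eZ k (A r⁻¹) G(r)` with
* `A = t v1 (u w1 u' w1')⁻¹ - t v2 (u w2 u' w2')⁻¹ : ZMod k`. `A · (u u' w1 w1' w2 w2') = t (v1 w2 w2' - v2 w1 w1')`, the factor is a unit, so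
  `gcd(A.val, k) = gcd(|t (v1 w2 w2' - v2 w1 w1')|, k) ≤ |t| · 2 V1 w1²` (nonzero integer) `≤ g0`;
* `G(r) = 1[gcd(k+rl, u'w1') = 1 = gcd(k+rl, u'w2')] eZ(u'w1')(...) conj eZ(u'w2')(...)`, a function of `r` mod `b0 = u' w1' w2'`
  (`ZMod.castHom`), `‖G‖ ≤ 1`, `b0 ≤ B`, `gcd(k, b0) = 1`;
* `Ω(r) = A1(r) conj(A2(r))`, `A_i(r) = (1/C_i) psiF M (v_i/C_i) ee(-t v_i/(C_i k))`, `C_i = r u w_i u' w_i' ≥ Cm`. By `psiF_le`, `|A_i| ≤ 4M/Cm =: S`. And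
  `|A_i(r+1) - A_i(r)| ≤ S X/R` with `X = 1 + 8π M V1/Cm + 2π |t| V1/(Cm K)`:
  `1/C(r) - 1/C(r+1) ≤ 1/(Cm R)` (`= 1/(C(r)(r+1))`), `|v/C(r) - v/C(r+1)| ≤ V1/(Cm R)` and `psiF_lip`, `ee_lip` (`k ≥ K`), the norm of each factor
  being at most `1/Cm`, `4M`, `1`.
  So `|Ω| ≤ S²`, `|Ω(r+1) - Ω(r)| ≤ 2 S² X/R`.
Abel summation over `r ∈ (R, R']`: `‖∑ Ω(r) z_r‖ ≤ (|Ω(R')| + ∑ |Ω(r+1) - Ω(r)|) max_Y ‖∑_{R<r≤Y} z_r‖ ≤ S² (1 + 2 X (R'-R)/R) Tst`, where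
`z_r = 1[(r,k)=1] eZ k (A r⁻¹) G(r)` and `hT` bounds the inner sums. (If `A` has the wrong conditions everything is `0`.)
-/

open Finset H69LB

namespace H69BG

/-- the variation factor -/
noncomputable def Xf (M K V1 : ℕ) (t : ℤ) (Cm : ℝ) : ℝ :=
  1 + 8 * Real.pi * M * V1 / Cm + 2 * Real.pi * |(t : ℝ)| * V1 / (Cm * K)

/-- Abel summation -/
theorem RSM_abel_id (Om z : ℕ → ℂ) (R n : ℕ) :
    ∑ r ∈ Ioc R (R + n + 1), Om r * z r
      = Om (R + n + 1) * ∑ r ∈ Ioc R (R + n + 1), z r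
        - ∑ j ∈ range n, (Om (R + j + 2) - Om (R + j + 1)) * ∑ r ∈ Ioc R (R + j + 1), z r := by
  induction n with
  | zero => simp [Nat.Ioc_succ_singleton]
  | succ n ih =>
    have h1 : Ioc R (R + (n + 1) + 1) = insert (R + (n + 1) + 1) (Ioc R (R + n + 1)) := by
      ext x
      simp only [mem_Ioc, mem_insert]
      omega
    have h2 : (R + (n + 1) + 1) ∉ Ioc R (R + n + 1) := by
      simp only [mem_Ioc]
      omega
    rw [h1, sum_insert h2, sum_insert h2, ih, sum_range_succ]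
    have e1 : R + (n + 1) + 1 = R + n + 2 := by ring
    rw [e1]
    ring

/-- Abel summation, the bound -/
theorem RSM_abel (Om z : ℕ → ℂ) {R R' : ℕ} (hRR : R < R') {S D T : ℝ} (hT : 0 ≤ T) (hD : 0 ≤ D)
    (h1 : ∀ r, R < r → r ≤ R' → ‖Om r‖ ≤ S)
    (h2 : ∀ r, R < r → r + 1 ≤ R' → ‖Om (r + 1) - Om r‖ ≤ D)
    (h3 : ∀ Y, R ≤ Y → Y ≤ R' → ‖∑ r ∈ Ioc R Y, z r‖ ≤ T) :
    ‖∑ r ∈ Ioc R R', Om r * z r‖ ≤ (S + D * (R' - R)) * T := by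
  obtain ⟨n, rfl⟩ : ∃ n, R' = R + n + 1 := ⟨R' - R - 1, by omega⟩
  rw [RSM_abel_id]
  have hS : 0 ≤ S := (norm_nonneg _).trans (h1 (R + n + 1) (by omega) le_rfl)
  have e1 : ‖Om (R + n + 1) * ∑ r ∈ Ioc R (R + n + 1), z r‖ ≤ S * T := by
    rw [norm_mul]
    exact mul_le_mul (h1 _ (by omega) le_rfl) (h3 _ (by omega) le_rfl) (norm_nonneg _) hS
  have e2 : ‖∑ j ∈ range n, (Om (R + j + 2) - Om (R + j + 1)) * ∑ r ∈ Ioc R (R + j + 1), z r‖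
      ≤ n * (D * T) := by
    refine (norm_sum_le _ _).trans ?_
    have : ∀ j ∈ range n, ‖(Om (R + j + 2) - Om (R + j + 1)) * ∑ r ∈ Ioc R (R + j + 1), z r‖ ≤ D * T := by
      intro j hj
      rw [mem_range] at hj
      rw [norm_mul]
      exact mul_le_mul (h2 (R + j + 1) (by omega) (by omega)) (h3 _ (by omega) (by omega)) (norm_nonneg _) hD
    refine (sum_le_sum this).trans ?_
    rw [sum_const, card_range, nsmul_eq_mul]
  refine (norm_sub_le _ _).trans ((add_le_add e1 e2).trans ?_)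
  push_cast
  nlinarith [mul_nonneg hD hT]

/-- the amplitude -/
noncomputable def RSM_amp (M : ℕ) (t : ℤ) (k : ℕ) (c v : ℝ) (r : ℕ) : ℂ :=
  (1 / (((r : ℝ) * c : ℝ) : ℂ)) * psiF M (v / ((r : ℝ) * c)) * ee (-((t : ℝ) * v) / ((r : ℝ) * c * k))

theorem RSM_amp_le {M : ℕ} {t : ℤ} {k : ℕ} {c v Cm : ℝ} {r : ℕ} (hM : 1 ≤ M) (hCm : 0 < Cm)
    (h : Cm ≤ (r : ℝ) * c) : ‖RSM_amp M t k c v r‖ ≤ 4 * M / Cm := by
  unfold RSM_amp
  rw [norm_mul, norm_mul, ee_norm, mul_one, norm_div, norm_one, Complex.norm_real, Real.norm_eq_abs,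
    abs_of_pos (hCm.trans_le h)]
  have h1 : 1 / ((r : ℝ) * c) ≤ 1 / Cm := one_div_le_one_div_of_le hCm h
  calc 1 / ((r : ℝ) * c) * ‖psiF M (v / ((r : ℝ) * c))‖ ≤ 1 / Cm * (4 * M) :=
        mul_le_mul h1 (psiF_le hM _) (norm_nonneg _) (by positivity)
    _ = 4 * M / Cm := by ring

/-- `0 ≤ 1/(rc) - 1/((r+1)c) ≤ 1/(Cm R)` -/
theorem RSM_inv {c Cm : ℝ} {r R : ℕ} (hCm : 0 < Cm) (hR : 1 ≤ R) (hr : R ≤ r)
    (h : Cm ≤ (r : ℝ) * c) :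
    0 ≤ 1 / ((r : ℝ) * c) - 1 / (((r + 1 : ℕ) : ℝ) * c) ∧
      1 / ((r : ℝ) * c) - 1 / (((r + 1 : ℕ) : ℝ) * c) ≤ 1 / (Cm * R) := by
  have hr0 : (0 : ℝ) < r := by
    have : 1 ≤ r := hR.trans hr
    exact_mod_cast this
  have hc : 0 < c := by
    have h1 : 0 < (r : ℝ) * c := hCm.trans_le h
    exact (mul_pos_iff_of_pos_left hr0).mp h1
  have hR0 : (0 : ℝ) < R := by exact_mod_cast hR
  have e : 1 / ((r : ℝ) * c) - 1 / (((r + 1 : ℕ) : ℝ) * c) = 1 / (((r : ℝ) * c) * (r + 1)) := by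
    push_cast
    field_simp
    ring
  rw [e]
  refine ⟨by positivity, ?_⟩
  apply one_div_le_one_div_of_le (by positivity)
  have hrR : (R : ℝ) ≤ r + 1 := by
    have : (R : ℝ) ≤ r := by exact_mod_cast hr
    linarith
  exact mul_le_mul h hrR hR0.le (hCm.le.trans h)

theorem RSM_amp_lip {M K V1 : ℕ} {t : ℤ} {k : ℕ} {c v Cm : ℝ} {r R : ℕ} (hM : 1 ≤ M) (hK : 1 ≤ K) (hk : K < k)
    (hCm : 0 < Cm) (hR : 1 ≤ R) (hr : R ≤ r) (hv : |v| ≤ V1)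
    (h : Cm ≤ (r : ℝ) * c) :
    ‖RSM_amp M t k c v (r + 1) - RSM_amp M t k c v r‖ ≤ 4 * M / Cm * Xf M K V1 t Cm / R := by
  have hr0 : (0 : ℝ) < r := by
    have : 1 ≤ r := hR.trans hr
    exact_mod_cast this
  have hc : 0 < c := by
    have h1 : 0 < (r : ℝ) * c := hCm.trans_le h
    exact (mul_pos_iff_of_pos_left hr0).mp h1
  have hR0 : (0 : ℝ) < R := by exact_mod_cast hR
  have hK0 : (0 : ℝ) < K := by exact_mod_cast hK
  have hkK : (K : ℝ) ≤ k := by exact_mod_cast hk.le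
  have hk0 : (0 : ℝ) < k := hK0.trans_le hkK
  have hM0 : (0 : ℝ) < M := by exact_mod_cast hM
  obtain ⟨i0, i1⟩ := RSM_inv (c := c) hCm hR hr h
  have h' : Cm ≤ ((r + 1 : ℕ) : ℝ) * c := by
    push_cast
    nlinarith
  unfold RSM_amp
  set f := (1 / (((r : ℝ) * c : ℝ) : ℂ)) with hf
  set f' := (1 / ((((r + 1 : ℕ) : ℝ) * c : ℝ) : ℂ)) with hf'
  set g := psiF M (v / ((r : ℝ) * c)) with hg
  set g' := psiF M (v / (((r + 1 : ℕ) : ℝ) * c)) with hg'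
  set e := ee (-((t : ℝ) * v) / ((r : ℝ) * c * k)) with he
  set e' := ee (-((t : ℝ) * v) / (((r + 1 : ℕ) : ℝ) * c * k)) with he'
  have key : f' * g' * e' - f * g * e = (f' - f) * g' * e' + f * (g' - g) * e' + f * g * (e' - e) := by ring
  rw [key]
  have n1 : ‖f' - f‖ ≤ 1 / (Cm * R) := by
    have : f' - f = (((1 / (((r + 1 : ℕ) : ℝ) * c) - 1 / ((r : ℝ) * c) : ℝ)) : ℂ) := by
      rw [hf, hf']
      push_cast
      ring
    rw [this, Complex.norm_real, Real.norm_eq_abs, abs_sub_comm, abs_of_nonneg i0]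
    exact i1
  have n2 : ‖f‖ ≤ 1 / Cm := by
    rw [hf, norm_div, norm_one, Complex.norm_real, Real.norm_eq_abs, abs_of_pos (hCm.trans_le h)]
    exact one_div_le_one_div_of_le hCm h
  have n3 : ‖g' - g‖ ≤ 32 * Real.pi * M ^ 2 * (V1 / (Cm * R)) := by
    refine (psiF_lip hM _ _).trans ?_
    refine mul_le_mul_of_nonneg_left ?_ (by positivity)
    have e1 : v / (((r + 1 : ℕ) : ℝ) * c) - v / ((r : ℝ) * c)
        = - (v * (1 / ((r : ℝ) * c) - 1 / (((r + 1 : ℕ) : ℝ) * c))) := by ring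
    rw [e1, abs_neg, abs_mul, abs_of_nonneg i0]
    calc |v| * (1 / ((r : ℝ) * c) - 1 / (((r + 1 : ℕ) : ℝ) * c)) ≤ V1 * (1 / (Cm * R)) :=
          mul_le_mul hv i1 i0 (by positivity)
      _ = V1 / (Cm * R) := by ring
  have n4 : ‖e' - e‖ ≤ 2 * Real.pi * (|(t : ℝ)| * V1 / (Cm * R * K)) := by
    refine (ee_lip _ _).trans ?_
    refine mul_le_mul_of_nonneg_left ?_ (by positivity)
    have e1 : -((t : ℝ) * v) / (((r + 1 : ℕ) : ℝ) * c * k) - -((t : ℝ) * v) / ((r : ℝ) * c * k)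
        = ((t : ℝ) * v) * (1 / ((r : ℝ) * c) - 1 / (((r + 1 : ℕ) : ℝ) * c)) * (1 / k) := by
      have hr1 : (((r + 1 : ℕ) : ℝ)) ≠ 0 := by positivity
      field_simp
      ring
    rw [e1, abs_mul, abs_mul, abs_mul, abs_of_nonneg i0, abs_of_pos (show (0 : ℝ) < 1 / k by positivity)]
    calc |(t : ℝ)| * |v| * (1 / ((r : ℝ) * c) - 1 / (((r + 1 : ℕ) : ℝ) * c)) * (1 / k)
        ≤ |(t : ℝ)| * V1 * (1 / (Cm * R)) * (1 / K) := by
          refine mul_le_mul ?_ (one_div_le_one_div_of_le hK0 hkK) (by positivity) (by positivity)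
          refine mul_le_mul ?_ i1 i0 (by positivity)
          exact mul_le_mul_of_nonneg_left hv (abs_nonneg _)
      _ = |(t : ℝ)| * V1 / (Cm * R * K) := by
          field_simp
  have n5 : ‖g'‖ ≤ 4 * M := psiF_le hM _
  have n6 : ‖g‖ ≤ 4 * M := psiF_le hM _
  have n7 : ‖e'‖ = 1 := ee_norm _
  have t1 : ‖(f' - f) * g' * e'‖ ≤ 1 / (Cm * R) * (4 * M) := by
    rw [norm_mul, norm_mul, n7, mul_one]
    exact mul_le_mul n1 n5 (norm_nonneg _) (by positivity)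
  have t2 : ‖f * (g' - g) * e'‖ ≤ 1 / Cm * (32 * Real.pi * M ^ 2 * (V1 / (Cm * R))) := by
    rw [norm_mul, norm_mul, n7, mul_one]
    exact mul_le_mul n2 n3 (norm_nonneg _) (by positivity)
  have t3 : ‖f * g * (e' - e)‖ ≤ 1 / Cm * (4 * M) * (2 * Real.pi * (|(t : ℝ)| * V1 / (Cm * R * K))) := by
    rw [norm_mul, norm_mul]
    exact mul_le_mul (mul_le_mul n2 n6 (norm_nonneg _) (by positivity)) n4 (norm_nonneg _) (by positivity)
  refine (norm_add₃_le).trans ((add_le_add (add_le_add t1 t2) t3).trans (le_of_eq ?_))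
  unfold Xf
  field_simp
  ring

/-- inverse of a product of units of `ZMod k` -/
theorem RSM_inv_mul {k : ℕ} {x y : ZMod k} (hx : IsUnit x) (hy : IsUnit y) : (x * y)⁻¹ = x⁻¹ * y⁻¹ := by
  obtain ⟨a, rfl⟩ := hx
  obtain ⟨b, rfl⟩ := hy
  rw [← Units.val_mul, ZMod.inv_coe_unit, ZMod.inv_coe_unit, ZMod.inv_coe_unit, mul_inv, Units.val_mul]

open Classical in
/-- the factor of modulus `q = u' w'`, as a function on `ZMod q` -/
noncomputable def RSM_E (q : ℕ) (l : ℤ) (k m : ℕ) (n : ℤ) (s : ZMod q) : ℂ :=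
  if IsUnit ((k : ZMod q) + s * (l : ZMod q)) then
    eZ q ((n : ZMod q) * ((m : ZMod q) * ((k : ZMod q) + s * (l : ZMod q)))⁻¹)
  else 0

theorem RSM_E_le (q : ℕ) (l : ℤ) (k m : ℕ) (n : ℤ) (s : ZMod q) : ‖RSM_E q l k m n s‖ ≤ 1 := by
  unfold RSM_E
  split_ifs
  · rw [eZ_norm]
  · simp

theorem RSM_tm {M : ℕ} {t l : ℤ} {k u u' : ℕ} {a : ℕ × ℕ × ℤ} {r : ℕ}
    (h1 : Nat.Coprime a.1 a.2.1) (h2 : Nat.Coprime (a.1 * a.2.1) k) :
    tm M t l k u u' a r = RSM_amp M t k ((u : ℝ) * a.1 * u' * a.2.1) (a.2.2 : ℝ) r *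
      eZ k ((t * a.2.2 : ℤ) * ((r * u * a.1 * u' * a.2.1 : ℕ) : ZMod k)⁻¹) *
      RSM_E (u' * a.2.1) l k (u * a.1 * k) (t * a.2.2 * l) (r : ZMod (u' * a.2.1)) := by
  have hc : (Int.gcd (k + r * l) (u' * a.2.1) = 1) ↔
      IsUnit ((k : ZMod (u' * a.2.1)) + (r : ZMod (u' * a.2.1)) * (l : ZMod (u' * a.2.1))) := by
    have e1 : (k : ZMod (u' * a.2.1)) + (r : ZMod (u' * a.2.1)) * (l : ZMod (u' * a.2.1))
        = (((k : ℤ) + r * l : ℤ) : ZMod (u' * a.2.1)) := by push_cast; ring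
    rw [e1, ZMod.coe_int_isUnit_iff_isCoprime, Int.isCoprime_iff_gcd_eq_one, Int.gcd_comm]
    push_cast
    rfl
  unfold tm RSM_E RSM_amp
  by_cases hg : Int.gcd (k + r * l) (u' * a.2.1) = 1
  · rw [if_pos ⟨h1, h2, hg⟩, if_pos (hc.mp hg)]
    have e1 : (r : ℝ) * u * a.1 * u' * a.2.1 = (r : ℝ) * ((u : ℝ) * a.1 * u' * a.2.1) := by ring
    have e2 : (r : ℂ) * u * a.1 * u' * a.2.1 = (((r : ℝ) * ((u : ℝ) * a.1 * u' * a.2.1) : ℝ) : ℂ) := by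
      push_cast; ring
    rw [e1, e2]
    congr 2
    push_cast
    ring
  · rw [if_neg (fun h => hg h.2.2), if_neg (fun h => hg (hc.mpr h)), mul_zero]

theorem rsm {M K B g0 R R' V1 : ℕ} {t l : ℤ} {k u u' : ℕ} {Cm Tst w1 : ℝ} {W1 W2 : Finset ℕ}
    (hM : 1 ≤ M) (hK : 1 ≤ K) (hR : 1 ≤ R) (hRR : R < R') (hk : K < k) (hu : 1 ≤ u) (hu' : 1 ≤ u')
    (ht : t ≠ 0) (hCm : 0 < Cm) (hTst : 0 ≤ Tst)
    (hW1 : ∀ w ∈ W1, 1 ≤ w ∧ (w : ℝ) ≤ w1) (hW2 : ∀ w ∈ W2, 1 ≤ w ∧ (w : ℝ) ≤ w1)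
    (hcop : Nat.Coprime (u * u') k)
    (hC : ∀ r ∈ Ioc R R', ∀ w ∈ W1, ∀ w' ∈ W2, Cm ≤ (r : ℝ) * u * w * u' * w')
    (hB : ∀ w ∈ W2, ∀ w' ∈ W2, u' * w * w' ≤ B)
    (hg : |(t : ℝ)| * (2 * V1) * w1 ^ 2 ≤ g0)
    (hT : ∀ b : ℕ, 1 ≤ b → b ≤ B → Nat.Coprime k b → ∀ A : ZMod k, Nat.gcd A.val k ≤ g0 → ∀ G : ZMod b → ℂ,
      (∀ s, ‖G s‖ ≤ 1) → ∀ X Y : ℕ, Y ≤ X + R' →
        ‖∑ r ∈ (Ioc X Y).filter (fun r => Nat.Coprime r k), eZ k (A * (r : ZMod k)⁻¹) * G (r : ZMod b)‖ ≤ Tst)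
    {a b : ℕ × ℕ × ℤ} (ha : a ∈ AA W1 W2 V1) (hb : b ∈ AA W1 W2 V1)
    (hab : a.2.2 * b.1 * b.2.1 ≠ b.2.2 * a.1 * a.2.1) :
    ‖∑ r ∈ (Ioc R R').filter (fun r => Nat.Coprime r k),
        tm M t l k u u' a r * (starRingEnd ℂ) (tm M t l k u u' b r)‖
      ≤ (4 * M / Cm) ^ 2 * (1 + 2 * Xf M K V1 t Cm * (R' - R) / R) * Tst := by
  classical
  have hM0 : (0 : ℝ) < M := by exact_mod_cast hM
  have hK0 : (0 : ℝ) < K := by exact_mod_cast hK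
  have hR0 : (0 : ℝ) < R := by exact_mod_cast hR
  have hRR' : (R : ℝ) < R' := by exact_mod_cast hRR
  have hXf : 0 ≤ Xf M K V1 t Cm := by unfold Xf; positivity
  have hRHS : 0 ≤ (4 * M / Cm) ^ 2 * (1 + 2 * Xf M K V1 t Cm * (R' - R) / R) * Tst := by
    have : 0 ≤ (R' : ℝ) - R := by linarith
    positivity
  obtain ⟨w₁, w₁', v₁⟩ := a
  obtain ⟨w₂, w₂', v₂⟩ := b
  simp only [AA, mem_product] at ha hb
  obtain ⟨ha1, ha2, ha3⟩ := ha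
  obtain ⟨hb1, hb2, hb3⟩ := hb
  simp only at hab
  by_cases c1 : Nat.Coprime w₁ w₁' ∧ Nat.Coprime (w₁ * w₁') k
  swap
  · have : ∀ r, tm M t l k u u' (w₁, w₁', v₁) r = 0 := by
      intro r
      unfold tm
      rw [if_neg (fun h => c1 ⟨h.1, h.2.1⟩)]
    rw [sum_eq_zero (fun r _ => by rw [this r, zero_mul]), norm_zero]
    exact hRHS
  by_cases c2 : Nat.Coprime w₂ w₂' ∧ Nat.Coprime (w₂ * w₂') k
  swap
  · have : ∀ r, tm M t l k u u' (w₂, w₂', v₂) r = 0 := by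
      intro r
      unfold tm
      rw [if_neg (fun h => c2 ⟨h.1, h.2.1⟩)]
    rw [sum_eq_zero (fun r _ => by rw [this r, map_zero, mul_zero]), norm_zero]
    exact hRHS
  -- the integers
  have hw₁ := hW1 _ ha1
  have hw₁' := hW2 _ ha2
  have hw₂ := hW1 _ hb1
  have hw₂' := hW2 _ hb2
  have hk1 : 1 ≤ k := by omega
  have hkpos : 0 < k := hk1
  have hv₁ : |(v₁ : ℝ)| ≤ V1 := by
    simp only [VV, mem_erase, mem_Icc] at ha3
    rw [abs_le]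
    exact ⟨by exact_mod_cast ha3.2.1, by exact_mod_cast ha3.2.2⟩
  have hv₂ : |(v₂ : ℝ)| ≤ V1 := by
    simp only [VV, mem_erase, mem_Icc] at hb3
    rw [abs_le]
    exact ⟨by exact_mod_cast hb3.2.1, by exact_mod_cast hb3.2.2⟩
  -- the data
  set b0 : ℕ := u' * w₁' * w₂' with hb0
  have hd1 : u' * w₁' ∣ b0 := Dvd.intro _ rfl
  have hd2 : u' * w₂' ∣ b0 := ⟨w₁', by rw [hb0]; ring⟩
  have hb01 : 1 ≤ b0 := Nat.mul_pos (Nat.mul_pos hu' hw₁'.1) hw₂'.1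
  have hcu : Nat.Coprime u k := Nat.Coprime.coprime_mul_right hcop
  have hcu' : Nat.Coprime u' k := Nat.Coprime.coprime_mul_left hcop
  have hcw₁ : Nat.Coprime w₁ k := Nat.Coprime.coprime_mul_right c1.2
  have hcw₁' : Nat.Coprime w₁' k := Nat.Coprime.coprime_mul_left c1.2
  have hcw₂ : Nat.Coprime w₂ k := Nat.Coprime.coprime_mul_right c2.2
  have hcw₂' : Nat.Coprime w₂' k := Nat.Coprime.coprime_mul_left c2.2
  have hkb0 : Nat.Coprime k b0 :=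
    (Nat.Coprime.mul_left (Nat.Coprime.mul_left hcu' hcw₁') hcw₂').symm
  have hU1 : IsUnit ((u * w₁ * u' * w₁' : ℕ) : ZMod k) := by
    rw [ZMod.isUnit_iff_coprime]
    exact Nat.Coprime.mul_left (Nat.Coprime.mul_left (Nat.Coprime.mul_left hcu hcw₁) hcu') hcw₁'
  have hU2 : IsUnit ((u * w₂ * u' * w₂' : ℕ) : ZMod k) := by
    rw [ZMod.isUnit_iff_coprime]
    exact Nat.Coprime.mul_left (Nat.Coprime.mul_left (Nat.Coprime.mul_left hcu hcw₂) hcu') hcw₂'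
  set A : ZMod k := ((t * v₁ : ℤ) : ZMod k) * ((u * w₁ * u' * w₁' : ℕ) : ZMod k)⁻¹
    - ((t * v₂ : ℤ) : ZMod k) * ((u * w₂ * u' * w₂' : ℕ) : ZMod k)⁻¹ with hA
  set N : ℤ := t * (v₁ * w₂ * w₂' - v₂ * w₁ * w₁') with hN
  have hN0 : N ≠ 0 := by
    rw [hN]
    exact mul_ne_zero ht (sub_ne_zero.mpr hab)
  have hNA : (N : ZMod k) = A * ((u * u' * w₁ * w₁' * w₂ * w₂' : ℕ) : ZMod k) := by
    have i1 := ZMod.mul_inv_of_unit _ hU1
    have i2 := ZMod.mul_inv_of_unit _ hU2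
    rw [hA, hN]
    push_cast at i1 i2 ⊢
    linear_combination (-(t : ZMod k) * v₁ * w₂ * w₂') * i1 + ((t : ZMod k) * v₂ * w₁ * w₁') * i2
  have hgA : Nat.gcd A.val k ≤ g0 := by
    haveI : NeZero k := ⟨by omega⟩
    have hd : ((Nat.gcd A.val k : ℕ) : ℤ) ∣ N := by
      have h1 : (N : ZMod k) = (((A.val * (u * u' * w₁ * w₁' * w₂ * w₂') : ℕ) : ℤ) : ZMod k) := by
        rw [hNA]
        push_cast
        rw [ZMod.natCast_zmod_val]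
      rw [ZMod.intCast_eq_intCast_iff_dvd_sub] at h1
      have h2 : ((Nat.gcd A.val k : ℕ) : ℤ) ∣ ((A.val * (u * u' * w₁ * w₁' * w₂ * w₂') : ℕ) : ℤ) := by
        exact_mod_cast Dvd.dvd.mul_right (Nat.gcd_dvd_left A.val k) _
      have h3 : ((Nat.gcd A.val k : ℕ) : ℤ) ∣ ((A.val * (u * u' * w₁ * w₁' * w₂ * w₂') : ℕ) : ℤ) - N :=
        dvd_trans (by exact_mod_cast Nat.gcd_dvd_right A.val k) h1
      have := dvd_sub h2 h3
      simpa using this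
    have h4 : ((Nat.gcd A.val k : ℕ) : ℤ) ≤ |N| := Int.le_of_dvd (abs_pos.mpr hN0) ((dvd_abs _ _).mpr hd)
    have h5 : ((Nat.gcd A.val k : ℕ) : ℝ) ≤ |(N : ℝ)| := by
      have := (Int.cast_le (R := ℝ)).mpr h4
      push_cast at this ⊢
      exact this
    have hw0 : 0 ≤ w1 := le_trans (by positivity) hw₁.2
    have h6 : |(N : ℝ)| ≤ |(t : ℝ)| * (2 * V1) * w1 ^ 2 := by
      rw [hN]
      push_cast
      rw [abs_mul]
      have p1 : |(v₁ : ℝ) * w₂ * w₂'| ≤ V1 * w1 * w1 := by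
        rw [abs_mul, abs_mul, Nat.abs_cast, Nat.abs_cast]
        exact mul_le_mul (mul_le_mul hv₁ hw₂.2 (by positivity) (by positivity)) hw₂'.2 (by positivity) (by positivity)
      have p2 : |(v₂ : ℝ) * w₁ * w₁'| ≤ V1 * w1 * w1 := by
        rw [abs_mul, abs_mul, Nat.abs_cast, Nat.abs_cast]
        exact mul_le_mul (mul_le_mul hv₂ hw₁.2 (by positivity) (by positivity)) hw₁'.2 (by positivity) (by positivity)
      have p3 := (abs_sub _ _).trans (add_le_add p1 p2)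
      calc |(t : ℝ)| * |(v₁ : ℝ) * w₂ * w₂' - (v₂ : ℝ) * w₁ * w₁'| ≤ |(t : ℝ)| * (V1 * w1 * w1 + V1 * w1 * w1) :=
            mul_le_mul_of_nonneg_left p3 (abs_nonneg _)
        _ = |(t : ℝ)| * (2 * V1) * w1 ^ 2 := by ring
    exact_mod_cast h5.trans (h6.trans hg)
  set G : ZMod b0 → ℂ := fun s =>
    RSM_E (u' * w₁') l k (u * w₁ * k) (t * v₁ * l) (ZMod.castHom hd1 (ZMod (u' * w₁')) s) *
    (starRingEnd ℂ) (RSM_E (u' * w₂') l k (u * w₂ * k) (t * v₂ * l) (ZMod.castHom hd2 (ZMod (u' * w₂')) s)) with hG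
  have hG1 : ∀ s, ‖G s‖ ≤ 1 := by
    intro s
    simp only [hG, norm_mul, RCLike.norm_conj]
    exact mul_le_one₀ (RSM_E_le _ _ _ _ _ _) (norm_nonneg _) (RSM_E_le _ _ _ _ _ _)
  have hT' := hT b0 hb01 (hB _ ha2 _ hb2) hkb0 A hgA G hG1
  set Om : ℕ → ℂ := fun r => RSM_amp M t k ((u : ℝ) * w₁ * u' * w₁') (v₁ : ℝ) r *
    (starRingEnd ℂ) (RSM_amp M t k ((u : ℝ) * w₂ * u' * w₂') (v₂ : ℝ) r) with hOm
  set z : ℕ → ℂ := fun r => if Nat.Coprime r k then eZ k (A * (r : ZMod k)⁻¹) * G (r : ZMod b0) else 0 with hz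
  have hsum : ∑ r ∈ (Ioc R R').filter (fun r => Nat.Coprime r k),
        tm M t l k u u' (w₁, w₁', v₁) r * (starRingEnd ℂ) (tm M t l k u u' (w₂, w₂', v₂) r)
      = ∑ r ∈ Ioc R R', Om r * z r := by
    rw [sum_filter]
    refine sum_congr rfl (fun r _ => ?_)
    by_cases hr : Nat.Coprime r k
    swap
    · rw [if_neg hr]
      simp only [hz, if_neg hr, mul_zero]
    rw [if_pos hr]
    simp only [hz, if_pos hr]
    rw [RSM_tm (a := (w₁, w₁', v₁)) c1.1 c1.2, RSM_tm (a := (w₂, w₂', v₂)) c2.1 c2.2]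
    simp only
    have hru : IsUnit ((r : ℕ) : ZMod k) := (ZMod.isUnit_iff_coprime _ _).mpr hr
    have e1 : (((r * u * w₁ * u' * w₁' : ℕ)) : ZMod k)⁻¹
        = (r : ZMod k)⁻¹ * ((u * w₁ * u' * w₁' : ℕ) : ZMod k)⁻¹ := by
      rw [← RSM_inv_mul hru hU1]
      congr 1
      push_cast
      ring
    have e2 : (((r * u * w₂ * u' * w₂' : ℕ)) : ZMod k)⁻¹
        = (r : ZMod k)⁻¹ * ((u * w₂ * u' * w₂' : ℕ) : ZMod k)⁻¹ := by
      rw [← RSM_inv_mul hru hU2]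
      congr 1
      push_cast
      ring
    have e3 : eZ k (((t * v₁ : ℤ) : ZMod k) * (((r * u * w₁ * u' * w₁' : ℕ)) : ZMod k)⁻¹) *
        (starRingEnd ℂ) (eZ k (((t * v₂ : ℤ) : ZMod k) * (((r * u * w₂ * u' * w₂' : ℕ)) : ZMod k)⁻¹))
        = eZ k (A * (r : ZMod k)⁻¹) := by
      rw [← eZ_neg hk1, ← eZ_add hk1, e1, e2, hA]
      congr 1
      ring
    simp only [hG, hOm, map_mul, map_natCast] at *
    rw [← e3]
    ring
  rw [hsum]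
  have hS : ∀ r, R < r → r ≤ R' → ‖Om r‖ ≤ (4 * M / Cm) ^ 2 := by
    intro r h1 h2
    have hr : r ∈ Ioc R R' := mem_Ioc.mpr ⟨h1, h2⟩
    simp only [hOm, norm_mul, RCLike.norm_conj]
    rw [sq]
    refine mul_le_mul (RSM_amp_le hM hCm ?_) (RSM_amp_le hM hCm ?_) (norm_nonneg _) (by positivity)
    · refine (hC r hr w₁ ha1 w₁' ha2).trans (le_of_eq (by ring))
    · refine (hC r hr w₂ hb1 w₂' hb2).trans (le_of_eq (by ring))
  have hD : ∀ r, R < r → r + 1 ≤ R' → ‖Om (r + 1) - Om r‖ ≤ 2 * (4 * M / Cm) ^ 2 * Xf M K V1 t Cm / R := by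
    intro r h1 h2
    have hr : r ∈ Ioc R R' := mem_Ioc.mpr ⟨h1, by omega⟩
    have hr' : r + 1 ∈ Ioc R R' := mem_Ioc.mpr ⟨by omega, h2⟩
    have g1 : Cm ≤ (r : ℝ) * ((u : ℝ) * w₁ * u' * w₁') := (hC r hr w₁ ha1 w₁' ha2).trans (le_of_eq (by ring))
    have g2 : Cm ≤ (r : ℝ) * ((u : ℝ) * w₂ * u' * w₂') := (hC r hr w₂ hb1 w₂' hb2).trans (le_of_eq (by ring))
    have g2' : Cm ≤ ((r + 1 : ℕ) : ℝ) * ((u : ℝ) * w₂ * u' * w₂') :=
      (hC (r + 1) hr' w₂ hb1 w₂' hb2).trans (le_of_eq (by ring))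
    have l1 := RSM_amp_lip (K := K) (V1 := V1) (t := t) (v := (v₁ : ℝ)) hM hK hk hCm hR h1.le hv₁ g1
    have l2 := RSM_amp_lip (K := K) (V1 := V1) (t := t) (v := (v₂ : ℝ)) hM hK hk hCm hR h1.le hv₂ g2
    have n1 := RSM_amp_le (t := t) (k := k) (v := (v₁ : ℝ)) hM hCm g1
    have n2 := RSM_amp_le (t := t) (k := k) (v := (v₂ : ℝ)) hM hCm g2'
    simp only [hOm]
    set a1 := RSM_amp M t k ((u : ℝ) * w₁ * u' * w₁') (v₁ : ℝ) r
    set a1' := RSM_amp M t k ((u : ℝ) * w₁ * u' * w₁') (v₁ : ℝ) (r + 1)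
    set a2 := RSM_amp M t k ((u : ℝ) * w₂ * u' * w₂') (v₂ : ℝ) r
    set a2' := RSM_amp M t k ((u : ℝ) * w₂ * u' * w₂') (v₂ : ℝ) (r + 1)
    have key : a1' * (starRingEnd ℂ) a2' - a1 * (starRingEnd ℂ) a2
        = (a1' - a1) * (starRingEnd ℂ) a2' + a1 * (starRingEnd ℂ) (a2' - a2) := by
      rw [map_sub]
      ring
    rw [key]
    have b1 : ‖(a1' - a1) * (starRingEnd ℂ) a2'‖ ≤ 4 * M / Cm * Xf M K V1 t Cm / R * (4 * M / Cm) := by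
      rw [norm_mul, RCLike.norm_conj]
      exact mul_le_mul l1 n2 (norm_nonneg _) (by positivity)
    have b2 : ‖a1 * (starRingEnd ℂ) (a2' - a2)‖ ≤ 4 * M / Cm * (4 * M / Cm * Xf M K V1 t Cm / R) := by
      rw [norm_mul, RCLike.norm_conj]
      exact mul_le_mul n1 l2 (norm_nonneg _) (by positivity)
    refine (norm_add_le _ _).trans ((add_le_add b1 b2).trans (le_of_eq (by ring)))
  have hZ : ∀ Y, R ≤ Y → Y ≤ R' → ‖∑ r ∈ Ioc R Y, z r‖ ≤ Tst := by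
    intro Y _ hY
    have := hT' R Y (by omega)
    rw [sum_filter] at this
    exact this
  refine (RSM_abel Om z hRR hTst (by positivity) hS hD hZ).trans (le_of_eq (by ring))

/-- the size of one term -/
theorem tm_le {M : ℕ} {t l : ℤ} {k u u' : ℕ} {Cm Cp : ℝ} {r : ℕ} {a : ℕ × ℕ × ℤ} (hM : 1 ≤ M) (hCm : 0 < Cm)
    (hv : a.2.2 ≠ 0) (hv2 : 2 * |(a.2.2 : ℝ)| ≤ Cm)
    (h1 : Cm ≤ (r : ℝ) * u * a.1 * u' * a.2.1) (h2 : (r : ℝ) * u * a.1 * u' * a.2.1 ≤ Cp) :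
    ‖tm M t l k u u' a r‖ ≤ 4 * M / Cm * rhov (Cp / (4 * M)) a.2.2 := by
  have hM0 : (0 : ℝ) < M := by exact_mod_cast hM
  set C : ℝ := (r : ℝ) * u * a.1 * u' * a.2.1 with hC
  have hC0 : 0 < C := hCm.trans_le h1
  have hCp : 0 < Cp := hC0.trans_le h2
  have hv0 : (0 : ℝ) < |(a.2.2 : ℝ)| := abs_pos.mpr (by exact_mod_cast hv)
  have hrho : 0 ≤ rhov (Cp / (4 * M)) a.2.2 := by
    unfold rhov
    positivity
  by_cases c1 : Nat.Coprime a.1 a.2.1 ∧ Nat.Coprime (a.1 * a.2.1) k ∧ Int.gcd (k + r * l) (u' * a.2.1) = 1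
  swap
  · unfold tm
    rw [if_neg c1, norm_zero]
    positivity
  have hE : ‖tm M t l k u u' a r‖ ≤ 1 / C * ‖psiF M ((a.2.2 : ℝ) / C)‖ := by
    unfold tm
    rw [if_pos c1, norm_mul, norm_mul, norm_mul, norm_mul, eZ_norm, eZ_norm, ee_norm, mul_one, mul_one, mul_one,
      norm_div, norm_one]
    have e2 : (r : ℂ) * u * a.1 * u' * a.2.1 = ((C : ℝ) : ℂ) := by
      rw [hC]; push_cast; ring
    rw [e2, Complex.norm_real, Real.norm_eq_abs, abs_of_pos hC0]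
  refine hE.trans ?_
  unfold rhov
  have hCi : 1 / C ≤ 1 / Cm := one_div_le_one_div_of_le hCm h1
  rw [mul_min_of_nonneg _ _ (by positivity)]
  refine le_min ?_ ?_
  · calc 1 / C * ‖psiF M ((a.2.2 : ℝ) / C)‖ ≤ 1 / Cm * (4 * M) :=
          mul_le_mul hCi (psiF_le hM _) (norm_nonneg _) (by positivity)
      _ = 4 * M / Cm * 1 := by ring
  · have hθ0 : (a.2.2 : ℝ) / C ≠ 0 := div_ne_zero (by exact_mod_cast hv) hC0.ne'
    have hθ : |(a.2.2 : ℝ) / C| ≤ 1 / 2 := by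
      rw [abs_div, abs_of_pos hC0, div_le_iff₀ hC0]
      linarith
    have h3 := psiF_le' hM hθ0 hθ
    calc 1 / C * ‖psiF M ((a.2.2 : ℝ) / C)‖ ≤ 1 / Cm * (1 / (4 * M * ((a.2.2 : ℝ) / C) ^ 2)) :=
          mul_le_mul hCi h3 (norm_nonneg _) (by positivity)
      _ ≤ 4 * M / Cm * (Cp / (4 * M) / |(a.2.2 : ℝ)|) ^ 2 := by
          have e1 : 1 / Cm * (1 / (4 * M * ((a.2.2 : ℝ) / C) ^ 2)) = (1 / (4 * M * Cm * |(a.2.2 : ℝ)| ^ 2)) * C ^ 2 := by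
            rw [sq_abs]
            field_simp
          have e2 : 4 * M / Cm * (Cp / (4 * M) / |(a.2.2 : ℝ)|) ^ 2 = (1 / (4 * M * Cm * |(a.2.2 : ℝ)| ^ 2)) * Cp ^ 2 := by
            field_simp
          rw [e1, e2]
          exact mul_le_mul_of_nonneg_left (pow_le_pow_left₀ hC0.le h2 2) (by positivity)

end H69BG
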