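import Pool.Agent.H69.BG.Bvs
import Pool.Agent.H69.BG.Coe

/-!
# SMO: one smooth variable

`g2 x (l k - t) = ∑_{d ≤ y, d ∣ l k - t} aG d · ∑_I (-1)^{|I|} kI(range 9 \ I) #{s ∈ SI I : s ∣ l k - t}` (`GG_eq`, `gI_eq`). If `gcd(s, l) > 1` a prime `p > z ≥ |t|` divides `l` and
would divide `t`: no solution. Otherwise `bvs_lin` (`s` is coprime to `d ≤ y ≤ z`): `∑_{k : d, s ∣ l k - t} v k = (ρ_d/(d s)) ∑ v + O(d TVn)`. The errors: `∑_d |aG d| ∑_I Cd^9 |SI I| d TVn ≤ C (log)^3 y² x^{50006u} TVn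
≤ TVn x^{0.501}`. The main terms: `∑_v (ρ_d/d) ∑_I (-1)^{|I|} kI(range 9 \ I) ∑_{s ∈ SI I, (s,l)=1} 1/s = (ρ_d/d) ∏_{i<9} (κ_i - ∑_{p ∈ P i, p ∤ l} 1/p) = (ρ_d/d) ∏_i ∑_{p ∈ P i, p ∣ l} 1/p` (apply
`gI`-type expansion with the system `P' i = {p ∈ P i : p ∤ l}`), at most `550/z` for every `i` (`om_le`; `1 ≤ l ≤ x`), so `≤ (550/z)^9 ≤ x^{-0.017}`. With `∑_{d ≤ y} |aG d| ≤ x^{3u}`: `≤ x^{-0.01} |∑ v|`.
-/

open Finset

namespace H69BG

private theorem Smo_growth (K c : ℝ) (hc : 0 < c) :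
    ∃ x0 : ℝ, 1 ≤ x0 ∧ ∀ x, x0 ≤ x → K * (1 + Real.log x) ^ 3 ≤ x ^ c := by
  have hε : 0 < c / 6 := by linarith
  set M : ℝ := |K| * (1 + 1 / (c / 6)) ^ 3 with hM
  obtain ⟨x1, hx1⟩ := Filter.eventually_atTop.1
    ((tendsto_rpow_atTop (show 0 < c / 2 by linarith)).eventually_ge_atTop M)
  refine ⟨max x1 1, le_max_right _ _, fun x hx => ?_⟩
  have hx1' : M ≤ x ^ (c / 2) := hx1 x ((le_max_left _ _).trans hx)
  have h1 : 1 ≤ x := (le_max_right _ _).trans hx
  have h0 : 0 < x := by linarith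
  have hlog : 0 ≤ Real.log x := Real.log_nonneg h1
  have h2 : Real.log x ≤ x ^ (c / 6) / (c / 6) := Real.log_le_rpow_div h0.le hε
  have h3 : 1 ≤ x ^ (c / 6) := Real.one_le_rpow h1 hε.le
  have h4 : 1 + Real.log x ≤ (1 + 1 / (c / 6)) * x ^ (c / 6) := by
    have : (1 + 1 / (c / 6)) * x ^ (c / 6) = x ^ (c / 6) + x ^ (c / 6) / (c / 6) := by ring
    rw [this]
    linarith
  have h5 : (1 + Real.log x) ^ 3 ≤ (1 + 1 / (c / 6)) ^ 3 * x ^ (c / 2) := by
    calc (1 + Real.log x) ^ 3 ≤ ((1 + 1 / (c / 6)) * x ^ (c / 6)) ^ 3 :=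
          pow_le_pow_left₀ (by linarith) h4 3
      _ = (1 + 1 / (c / 6)) ^ 3 * x ^ (c / 2) := by
          rw [mul_pow, ← Real.rpow_natCast (x ^ (c / 6)) 3, ← Real.rpow_mul h0.le]
          congr 2
          push_cast
          ring
  calc K * (1 + Real.log x) ^ 3 ≤ |K| * (1 + Real.log x) ^ 3 :=
        mul_le_mul_of_nonneg_right (le_abs_self K) (by positivity)
    _ ≤ |K| * ((1 + 1 / (c / 6)) ^ 3 * x ^ (c / 2)) :=
        mul_le_mul_of_nonneg_left h5 (abs_nonneg _)
    _ = M * x ^ (c / 2) := by rw [hM]; ring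
    _ ≤ x ^ (c / 2) * x ^ (c / 2) := mul_le_mul_of_nonneg_right hx1' (by positivity)
    _ = x ^ c := by
        rw [← Real.rpow_add h0]
        congr 1
        ring

/-- exchange of the sums -/
private theorem Smo_exch {ι : Type} (K D : Finset ℕ) (T : Finset ι) (S : ι → Finset ℕ) (v A : ℕ → ℝ)
    (c : ι → ℝ) (α β : ℕ → ℕ → ℝ) :
    ∑ k ∈ K, v k * ((∑ d ∈ D, A d * α d k) * (∑ I ∈ T, c I * ∑ s ∈ S I, β s k)) =
      ∑ d ∈ D, A d * ∑ I ∈ T, c I * ∑ s ∈ S I, ∑ k ∈ K, v k * (α d k * β s k) := by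
  have h1 : ∀ k ∈ K, v k * ((∑ d ∈ D, A d * α d k) * (∑ I ∈ T, c I * ∑ s ∈ S I, β s k)) =
      ∑ d ∈ D, ∑ I ∈ T, ∑ s ∈ S I, A d * (c I * (v k * (α d k * β s k))) := by
    intro k _
    rw [Finset.sum_mul, Finset.mul_sum]
    refine Finset.sum_congr rfl fun d _ => ?_
    rw [Finset.mul_sum, Finset.mul_sum]
    refine Finset.sum_congr rfl fun I _ => ?_
    rw [Finset.mul_sum, Finset.mul_sum, Finset.mul_sum]
    refine Finset.sum_congr rfl fun s _ => ?_
    ring
  rw [Finset.sum_congr rfl h1, Finset.sum_comm]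
  refine Finset.sum_congr rfl fun d _ => ?_
  rw [Finset.sum_comm, Finset.mul_sum]
  refine Finset.sum_congr rfl fun I _ => ?_
  rw [Finset.sum_comm, Finset.mul_sum, Finset.mul_sum]
  refine Finset.sum_congr rfl fun s _ => ?_
  rw [Finset.mul_sum, Finset.mul_sum]

private theorem Smo_prod {P : ℕ → Finset ℕ} {z : ℕ} (hS : Sy P z) (I : Finset ℕ) (F : ℕ → ℝ)
    (h1 : F 1 = 1) (hF : ∀ a b, F (a * b) = F a * F b) :
    ∑ s ∈ SI P I, F s = ∏ i ∈ I, ∑ p ∈ P i, F p := by
  induction I using Finset.induction_on with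
  | empty => rw [SI_empty, Finset.sum_singleton, Finset.prod_empty, h1]
  | insert i I hi ih =>
    have hd : Disjoint {i} I := Finset.disjoint_singleton_left.2 hi
    rw [Finset.insert_eq, sum_SI_union hS hd, Finset.prod_union hd, Finset.prod_singleton, ← ih,
      SI_singleton, Finset.sum_mul]
    refine Finset.sum_congr rfl fun p hp => ?_
    rw [Finset.mul_sum]
    exact Finset.sum_congr rfl fun s hs => hF p s

open Classical in
/-- `1/s` for `s` coprime to `l` -/
private noncomputable def Smo_F (l s : ℕ) : ℝ := if Nat.Coprime s l then 1 / (s : ℝ) else 0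

private theorem Smo_F_one (l : ℕ) : Smo_F l 1 = 1 := by
  unfold Smo_F
  rw [if_pos (Nat.coprime_one_left l)]
  norm_num

private theorem Smo_F_mul (l a b : ℕ) : Smo_F l (a * b) = Smo_F l a * Smo_F l b := by
  unfold Smo_F
  by_cases ha : Nat.Coprime a l
  · by_cases hb : Nat.Coprime b l
    · rw [if_pos (Nat.Coprime.mul_left ha hb), if_pos ha, if_pos hb, Nat.cast_mul,
        one_div_mul_one_div]
    · rw [if_neg (fun h => hb (Nat.Coprime.coprime_mul_left h)), if_neg hb, mul_zero]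
  · rw [if_neg (fun h => ha (Nat.Coprime.coprime_mul_right h)), if_neg ha, zero_mul]

/-- the alternating sum is a product of small factors -/
private theorem Smo_alt {P : ℕ → Finset ℕ} {z : ℕ} (hS : Sy P z) (l : ℕ) :
    ∑ I ∈ (range 9).powerset, ((-1) ^ I.card * kI P (range 9 \ I)) * ∑ s ∈ SI P I, Smo_F l s =
      ∏ i ∈ range 9, (kap P i - ∑ p ∈ P i, Smo_F l p) := by
  have h1 : ∏ i ∈ range 9, (kap P i - ∑ p ∈ P i, Smo_F l p) =
      ∏ i ∈ range 9, (-1 * (∑ p ∈ P i, Smo_F l p) + kap P i) :=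
    Finset.prod_congr rfl fun i _ => by ring
  rw [h1, Finset.prod_add]
  refine Finset.sum_congr rfl fun I' _ => ?_
  rw [Finset.prod_mul_distrib, Finset.prod_const,
    Smo_prod hS I' (Smo_F l) (Smo_F_one l) (Smo_F_mul l)]
  unfold kI
  ring

private theorem Smo_fac {x : ℝ} (hx : 1 < x) {l : ℕ} (hl : 1 ≤ l) (hlx : (l : ℝ) ≤ x) (i : ℕ) :
    0 ≤ kap (PP x) i - ∑ p ∈ PP x i, Smo_F l p ∧
      kap (PP x) i - ∑ p ∈ PP x i, Smo_F l p ≤ 550 * x ^ (-(200 * uu)) := by
  classical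
  have hx0 : 0 < x := by linarith
  have h1 : kap (PP x) i - ∑ p ∈ PP x i, Smo_F l p =
      ∑ p ∈ (PP x i).filter (fun p : ℕ => (p : ℤ) ∣ (l : ℤ)), (1 / (p : ℝ)) := by
    unfold kap
    rw [← Finset.sum_sub_distrib, Finset.sum_filter]
    refine Finset.sum_congr rfl fun p hp => ?_
    have hpp := (Sir_mem_PP hp).2.1
    unfold Smo_F
    by_cases h : p ∣ l
    · rw [if_neg (fun hc => hpp.one_lt.ne' (Nat.Coprime.eq_one_of_dvd hc h)),
        if_pos (Int.natCast_dvd_natCast.2 h), sub_zero]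
    · rw [if_pos ((Nat.Prime.coprime_iff_not_dvd hpp).2 h),
        if_neg (fun hc => h (Int.natCast_dvd_natCast.1 hc)), sub_self]
  rw [h1]
  refine ⟨Finset.sum_nonneg fun p _ => by positivity, ?_⟩
  have h2 : ∀ p ∈ (PP x i).filter (fun p : ℕ => (p : ℤ) ∣ (l : ℤ)),
      (1 / (p : ℝ)) ≤ x ^ (-(200 * uu)) := by
    intro p hp
    obtain ⟨hi, -, h3, -⟩ := Sir_mem_PP (Finset.mem_filter.1 hp).1
    have h4 : x ^ (200 * uu) ≤ p :=
      (Real.rpow_le_rpow_of_exponent_le hx.le (Sir_ex_ge hi)).trans h3.le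
    rw [Real.rpow_neg hx0.le, ← one_div]
    exact one_div_le_one_div_of_le (by positivity) h4
  have h3 := Finset.sum_le_card_nsmul _ _ _ h2
  refine h3.trans ?_
  rw [nsmul_eq_mul]
  refine mul_le_mul_of_nonneg_right ?_ (by positivity)
  have hlx' : ((|(l : ℤ)| : ℤ) : ℝ) ≤ x ^ (11 / 10 : ℝ) := by
    have e : ((|(l : ℤ)| : ℤ) : ℝ) = l := by
      rw [abs_of_nonneg (Int.natCast_nonneg l)]
      exact Int.cast_natCast l
    rw [e]
    calc (l : ℝ) ≤ x := hlx
      _ = x ^ (1 : ℝ) := (Real.rpow_one x).symm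
      _ ≤ x ^ (11 / 10 : ℝ) := Real.rpow_le_rpow_of_exponent_le hx.le (by norm_num)
  have h4 := om_le hx i (n := (l : ℤ)) (by positivity) (by simpa using hlx')
  unfold om at h4
  exact h4

/-- a prime of the system dividing both `l k - t` and `l` -/
private theorem Smo_none {x : ℝ} (hx : 1 < x) {t : ℤ} (ht : t ≠ 0) (htx : (|t| : ℝ) ≤ x ^ (2 * uu))
    {l : ℕ} {I : Finset ℕ} {s : ℕ} (hs : s ∈ SI (PP x) I) (hsl : ¬ Nat.Coprime s l) (k : ℕ) :
    ¬ ((s : ℤ) ∣ (l : ℤ) * k - t) := by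
  intro h
  obtain ⟨p, hp, hps, hpl⟩ := Nat.Prime.not_coprime_iff_dvd.1 hsl
  have hS := pps_sy hx
  obtain ⟨i, -, hpi⟩ := (SI_primeFactors hS hs).1 p hp hps
  have h1 : (p : ℤ) ∣ (l : ℤ) * k - t := (Int.natCast_dvd_natCast.2 hps).trans h
  have h2 : (p : ℤ) ∣ (l : ℤ) * k := Dvd.dvd.mul_right (Int.natCast_dvd_natCast.2 hpl) _
  have h3 : (p : ℤ) ∣ t := by
    have := dvd_sub h2 h1
    simpa using this
  have h4 : p ≤ t.natAbs := Nat.le_of_dvd (Int.natAbs_pos.2 ht) (Int.natCast_dvd.1 h3)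
  have h5 : (t.natAbs : ℝ) ≤ x ^ (2 * uu) := by
    rw [Nat.cast_natAbs, Int.cast_abs]
    exact htx
  have h6 : x ^ (2 * uu) ≤ x ^ (200 * uu) := by
    apply Real.rpow_le_rpow_of_exponent_le hx.le
    have := Sir_uu_pos
    linarith
  have h7 : t.natAbs ≤ zz x := Nat.le_floor (h5.trans h6)
  have h8 := hS.gt i p hpi
  omega

theorem smo : ∃ x0 : ℝ, ∀ x, x0 ≤ x → ∀ t : ℤ, t ≠ 0 → (|t| : ℝ) ≤ x ^ (2 * uu) → ∀ l : ℕ, 1 ≤ l → (l : ℝ) ≤ x →
    ∀ (N : ℕ) (v : ℕ → ℝ), |∑ k ∈ range (N + 1), v k * g2 x (l * k - t)| ≤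
      TVn N v * x ^ (501 / 1000 : ℝ) + x ^ (-(1 / 100) : ℝ) * |∑ k ∈ range (N + 1), v k| := by
  classical
  obtain ⟨C₀, xk, hkap⟩ := kap_le
  set C : ℝ := max C₀ 1 with hC
  have hC1 : 1 ≤ C := le_max_right _ _
  obtain ⟨xa, hxa1, hxa⟩ := Smo_growth (4 * (512 * C ^ 9)) (50 * uu) (by have := Sir_uu_pos; linarith)
  obtain ⟨xb, hxb1, hxb⟩ := Smo_growth (4 * 550 ^ 9) (700 * uu) (by have := Sir_uu_pos; linarith)
  refine ⟨max (max xa xb) (max xk 2), fun x hx t ht htx l hl hlx N v => ?_⟩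
  have hxxa : xa ≤ x := ((le_max_left _ _).trans (le_max_left _ _)).trans hx
  have hxxb : xb ≤ x := ((le_max_right _ _).trans (le_max_left _ _)).trans hx
  have hxxk : xk ≤ x := ((le_max_left _ _).trans (le_max_right _ _)).trans hx
  have hx2 : 2 ≤ x := ((le_max_right _ _).trans (le_max_right _ _)).trans hx
  have hx1 : 1 < x := by linarith
  have hx0 : 0 < x := by linarith
  have hu := Sir_uu_pos
  have hS := pps_sy hx1
  set P := PP x with hP
  set y := yy x with hy
  set V : ℝ := ∑ k ∈ range (N + 1), v k with hV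
  set TV : ℝ := TVn N v with hTV
  have hTV0 : 0 ≤ TV := by
    rw [hTV]
    unfold TVn
    have : 0 ≤ ∑ k ∈ range N, |v (k + 1) - v k| := Finset.sum_nonneg fun _ _ => abs_nonneg _
    positivity
  have hyx : (y : ℝ) ≤ x ^ (2 * uu) := Nat.floor_le (by positivity)
  have hyz : y ≤ zz x := by
    refine Nat.le_floor (hyx.trans ?_)
    apply Real.rpow_le_rpow_of_exponent_le hx1.le
    linarith
  have hy1 : 1 ≤ y := by
    refine Nat.le_floor ?_
    rw [Nat.cast_one]
    exact Real.one_le_rpow hx1.le (by linarith)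
  -- the coefficients
  set cI : Finset ℕ → ℝ := fun I => (-1) ^ I.card * kI P (range 9 \ I) with hcI
  have hkap' : ∀ i, kap P i ≤ C := fun i => (hkap x hxxk i).trans (le_max_left _ _)
  have hkap0 : ∀ i, 0 ≤ kap P i := fun i => Finset.sum_nonneg fun p _ => by positivity
  have hcI_le : ∀ I ∈ (range 9).powerset, |cI I| ≤ C ^ 9 := by
    intro I _
    rw [hcI]
    simp only
    rw [abs_mul, abs_pow, abs_neg, abs_one, one_pow, one_mul]
    unfold kI
    rw [Finset.abs_prod]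
    calc ∏ i ∈ range 9 \ I, |kap P i| ≤ ∏ _i ∈ range 9 \ I, C := by
          refine Finset.prod_le_prod (fun i _ => abs_nonneg _) fun i _ => ?_
          rw [abs_of_nonneg (hkap0 i)]
          exact hkap' i
      _ = C ^ (range 9 \ I).card := Finset.prod_const _
      _ ≤ C ^ 9 := by
          refine pow_le_pow_right₀ hC1 ?_
          have := Finset.card_le_card (Finset.sdiff_subset (s := range 9) (t := I))
          rwa [Finset.card_range] at this
  -- the classes
  have hcl : ∀ d : ℕ, ∃ ρ : ℕ, 1 ≤ d → (ρ ≤ d ∧ ∀ s : ℕ, 1 ≤ s → Nat.Coprime s d →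
      Nat.Coprime s l → ∀ (N : ℕ) (v : ℕ → ℝ),
        |∑ k ∈ (range (N + 1)).filter (fun k : ℕ => (s : ℤ) ∣ l * k - t ∧ (d : ℤ) ∣ l * k - t), v k
          - (ρ / (d * s) : ℝ) * ∑ k ∈ range (N + 1), v k| ≤ d * TVn N v) := by
    intro d
    by_cases hd : 1 ≤ d
    · obtain ⟨ρ, h1, h2⟩ := bvs_lin hl hd t
      exact ⟨ρ, fun _ => ⟨h1, h2⟩⟩
    · exact ⟨0, fun h => absurd h hd⟩
  choose ρ hρ using hcl
  set W : ℕ → ℕ → ℝ := fun d s =>
    ∑ k ∈ (range (N + 1)).filter (fun k : ℕ => (s : ℤ) ∣ l * k - t ∧ (d : ℤ) ∣ l * k - t), v k with hW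
  -- the expansion
  have hexp : ∑ k ∈ range (N + 1), v k * g2 x (l * k - t) =
      ∑ d ∈ Icc 1 y, aG y d * ∑ I ∈ (range 9).powerset, cI I * ∑ s ∈ SI P I, W d s := by
    have h1 := Smo_exch (range (N + 1)) (Icc 1 y) (range 9).powerset (fun I => SI P I) v
      (fun d => aG y d) cI (fun d k => if (d : ℤ) ∣ (l : ℤ) * k - t then (1 : ℝ) else 0)
      (fun s k => if (s : ℤ) ∣ (l : ℤ) * k - t then (1 : ℝ) else 0)
    have h2 : ∀ d s : ℕ, ∑ k ∈ range (N + 1), v k *
        ((if (d : ℤ) ∣ (l : ℤ) * k - t then (1 : ℝ) else 0) *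
          (if (s : ℤ) ∣ (l : ℤ) * k - t then (1 : ℝ) else 0)) = W d s := by
      intro d s
      rw [hW]
      simp only
      rw [Finset.sum_filter]
      refine Finset.sum_congr rfl fun k _ => ?_
      by_cases h3 : (s : ℤ) ∣ (l : ℤ) * k - t
      · by_cases h4 : (d : ℤ) ∣ (l : ℤ) * k - t
        · simp only [h3, h4, and_self, if_true, mul_one]
        · simp only [h3, h4, and_false, if_false, if_true, mul_zero, zero_mul]
      · simp only [h3, false_and, if_false, mul_zero]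
    simp only [h2] at h1
    rw [← h1]
    refine Finset.sum_congr rfl fun k _ => ?_
    have h5 : GG y ((l : ℤ) * k - t) =
        ∑ d ∈ Icc 1 y, aG y d * (if (d : ℤ) ∣ (l : ℤ) * k - t then (1 : ℝ) else 0) := by
      rw [GG_eq, Finset.sum_filter]
      refine Finset.sum_congr rfl fun d _ => ?_
      split_ifs <;> ring
    have h6 : g9 x ((l : ℤ) * k - t) = ∑ I ∈ (range 9).powerset, cI I *
        ∑ s ∈ SI P I, (if (s : ℤ) ∣ (l : ℤ) * k - t then (1 : ℝ) else 0) := by
      unfold g9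
      rw [gI_eq hS]
      refine Finset.sum_congr rfl fun I _ => ?_
      rw [Finset.card_filter, Nat.cast_sum]
      congr 1
      refine Finset.sum_congr rfl fun s _ => ?_
      split_ifs <;> simp
    unfold g2
    rw [← h5, ← h6]
  -- one `d`, one `I`
  set Pi : ℝ := ∏ i ∈ range 9, (kap P i - ∑ p ∈ P i, Smo_F l p) with hPi
  have hPi_le : |Pi| ≤ 550 ^ 9 * x ^ (-(1800 * uu)) := by
    rw [hPi, Finset.abs_prod]
    calc ∏ i ∈ range 9, |kap P i - ∑ p ∈ P i, Smo_F l p|
        ≤ ∏ _i ∈ range 9, (550 * x ^ (-(200 * uu))) := by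
          refine Finset.prod_le_prod (fun i _ => abs_nonneg _) fun i _ => ?_
          obtain ⟨h1, h2⟩ := Smo_fac hx1 hl hlx i
          rw [abs_of_nonneg h1]
          exact h2
      _ = 550 ^ 9 * x ^ (-(1800 * uu)) := by
          rw [Finset.prod_const, Finset.card_range, mul_pow,
            ← Real.rpow_natCast (x ^ (-(200 * uu))) 9, ← Real.rpow_mul hx0.le]
          congr 2
          push_cast
          ring
  have hsumS : ∀ d ∈ Icc 1 y, ∀ I ∈ (range 9).powerset,
      |∑ s ∈ SI P I, W d s - ((ρ d : ℝ) / d) * V * ∑ s ∈ SI P I, Smo_F l s| ≤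
        x ^ (50006 * uu) * (d * TV) := by
    intro d hd I hI
    rw [Finset.mem_Icc] at hd
    obtain ⟨hρ1, hρ2⟩ := hρ d hd.1
    have hd0 : (0 : ℝ) < d := by exact_mod_cast hd.1
    have hpt : ∀ s ∈ SI P I, |W d s - ((ρ d : ℝ) / d) * V * Smo_F l s| ≤ d * TV := by
      intro s hs
      by_cases hsl : Nat.Coprime s l
      · have hsd : Nat.Coprime s d := SI_coprime_small hS hs hd.1 (hd.2.trans hyz)
        have hs1 : 1 ≤ s := by
          rcases Nat.eq_zero_or_pos s with h0 | h0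
          · exfalso
            have := (SI_squarefree hS hs).ne_zero
            exact this h0
          · exact h0
        have hs0 : (0 : ℝ) < s := by exact_mod_cast hs1
        have h1 := hρ2 s hs1 hsd hsl N v
        have h2 : ((ρ d : ℝ) / d) * V * Smo_F l s = ((ρ d : ℝ) / (d * s)) * V := by
          unfold Smo_F
          rw [if_pos hsl]
          field_simp
        rw [h2]
        exact h1
      · have h1 : W d s = 0 := by
          rw [hW]
          simp only
          rw [Finset.filter_false_of_mem, Finset.sum_empty]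
          intro k _ hk
          exact Smo_none hx1 ht htx hs hsl k hk.1
        have h2 : Smo_F l s = 0 := by
          unfold Smo_F
          rw [if_neg hsl]
        rw [h1, h2, mul_zero, sub_zero, abs_zero]
        positivity
    have hI9 : I ⊆ range 9 := Finset.mem_powerset.1 hI
    have hcard : ((SI P I).card : ℝ) ≤ x ^ (50006 * uu) := by
      refine (card_SI_le hx1 hI9).trans ?_
      apply Real.rpow_le_rpow_of_exponent_le hx1.le
      have h3 : eI I ≤ eI (range 9) := by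
        unfold eI
        refine Finset.sum_le_sum_of_subset_of_nonneg hI9 fun i _ _ => ?_
        unfold ex
        positivity
      rw [eI_range9] at h3
      linarith
    rw [Finset.mul_sum, ← Finset.sum_sub_distrib]
    refine (Finset.abs_sum_le_sum_abs _ _).trans ((Finset.sum_le_card_nsmul _ _ _ hpt).trans ?_)
    rw [nsmul_eq_mul]
    exact mul_le_mul_of_nonneg_right hcard (by positivity)
  -- one `d`
  have hone : ∀ d ∈ Icc 1 y,
      |∑ I ∈ (range 9).powerset, cI I * ∑ s ∈ SI P I, W d s| ≤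
        |V| * |Pi| + 512 * C ^ 9 * (x ^ (50006 * uu) * (y * TV)) := by
    intro d hd
    have hd' := Finset.mem_Icc.1 hd
    have hd0 : (0 : ℝ) < d := by exact_mod_cast hd'.1
    have hρd : (ρ d : ℝ) / d ≤ 1 := by
      rw [div_le_one hd0]
      exact_mod_cast (hρ d hd'.1).1
    have hρ0 : 0 ≤ (ρ d : ℝ) / d := by positivity
    have h1 : ∑ I ∈ (range 9).powerset, cI I * ∑ s ∈ SI P I, W d s =
        ((ρ d : ℝ) / d) * V * Pi + ∑ I ∈ (range 9).powerset, cI I *
          (∑ s ∈ SI P I, W d s - ((ρ d : ℝ) / d) * V * ∑ s ∈ SI P I, Smo_F l s) := by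
      rw [hPi, ← Smo_alt hS l, Finset.mul_sum, ← Finset.sum_add_distrib]
      refine Finset.sum_congr rfl fun I _ => ?_
      rw [hcI]
      ring
    rw [h1]
    refine (abs_add_le _ _).trans (add_le_add ?_ ?_)
    · rw [abs_mul, abs_mul, abs_of_nonneg hρ0]
      calc (ρ d : ℝ) / d * |V| * |Pi| ≤ 1 * |V| * |Pi| := by
            refine mul_le_mul_of_nonneg_right ?_ (abs_nonneg _)
            exact mul_le_mul_of_nonneg_right hρd (abs_nonneg _)
        _ = |V| * |Pi| := by rw [one_mul]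
    · refine (Finset.abs_sum_le_sum_abs _ _).trans ?_
      have h2 : ∀ I ∈ (range 9).powerset, |cI I *
          (∑ s ∈ SI P I, W d s - ((ρ d : ℝ) / d) * V * ∑ s ∈ SI P I, Smo_F l s)| ≤
          C ^ 9 * (x ^ (50006 * uu) * (y * TV)) := by
        intro I hI
        rw [abs_mul]
        refine mul_le_mul (hcI_le I hI) ((hsumS d hd I hI).trans ?_) (abs_nonneg _) (by positivity)
        refine mul_le_mul_of_nonneg_left ?_ (by positivity)
        refine mul_le_mul_of_nonneg_right ?_ hTV0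
        exact_mod_cast hd'.2
      refine (Finset.sum_le_card_nsmul _ _ _ h2).trans (le_of_eq ?_)
      rw [Finset.card_powerset, Finset.card_range, nsmul_eq_mul]
      push_cast
      ring
  -- all `d`
  have hlog : Real.log y ≤ Real.log x := by
    refine Real.log_le_log (by exact_mod_cast hy1) (hyx.trans ?_)
    calc x ^ (2 * uu) ≤ x ^ (1 : ℝ) := by
          apply Real.rpow_le_rpow_of_exponent_le hx1.le
          unfold uu
          norm_num
      _ = x := Real.rpow_one x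
  have hlogy0 : 0 ≤ Real.log y := Real.log_natCast_nonneg y
  set L : ℝ := 1 + Real.log x with hL
  have haG : ∀ d ∈ Icc 1 y, |aG y d| ≤ 4 * L ^ 3 := by
    intro d hd
    refine (aG_le hy1 (Finset.mem_Icc.1 hd).1).trans ?_
    refine mul_le_mul_of_nonneg_left ?_ (by norm_num)
    exact pow_le_pow_left₀ (by linarith) (by linarith) 3
  have hL0 : 0 ≤ L := by linarith
  set B : ℝ := |V| * |Pi| + 512 * C ^ 9 * (x ^ (50006 * uu) * (y * TV)) with hB
  have hB0 : 0 ≤ B := by positivity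
  have htot : |∑ k ∈ range (N + 1), v k * g2 x (l * k - t)| ≤ x ^ (2 * uu) * ((4 * L ^ 3) * B) := by
    rw [hexp]
    refine (Finset.abs_sum_le_sum_abs _ _).trans ?_
    have h2 : ∀ d ∈ Icc 1 y,
        |aG y d * ∑ I ∈ (range 9).powerset, cI I * ∑ s ∈ SI P I, W d s| ≤ (4 * L ^ 3) * B := by
      intro d hd
      rw [abs_mul]
      exact mul_le_mul (haG d hd) (hone d hd) (abs_nonneg _) (by positivity)
    refine (Finset.sum_le_card_nsmul _ _ _ h2).trans ?_
    rw [Nat.card_Icc, Nat.add_sub_cancel, nsmul_eq_mul]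
    exact mul_le_mul_of_nonneg_right hyx (by positivity)
  refine htot.trans ?_
  have hsplit : x ^ (2 * uu) * ((4 * L ^ 3) * B) =
      x ^ (2 * uu) * ((4 * L ^ 3) * (|V| * |Pi|)) +
        (4 * (512 * C ^ 9)) * L ^ 3 * (x ^ (2 * uu) * x ^ (50006 * uu) * y * TV) := by
    rw [hB]
    ring
  rw [hsplit, add_comm]
  refine add_le_add ?_ ?_
  · have h1 := hxa x hxxa
    have h2 : x ^ (2 * uu) * x ^ (50006 * uu) * y * TV ≤ x ^ (50010 * uu) * TV := by
      refine mul_le_mul_of_nonneg_right ?_ hTV0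
      calc x ^ (2 * uu) * x ^ (50006 * uu) * y ≤ x ^ (2 * uu) * x ^ (50006 * uu) * x ^ (2 * uu) :=
            mul_le_mul_of_nonneg_left hyx (by positivity)
        _ = x ^ (50010 * uu) := by
            rw [← Real.rpow_add hx0, ← Real.rpow_add hx0]
            congr 1
            ring
    calc (4 * (512 * C ^ 9)) * L ^ 3 * (x ^ (2 * uu) * x ^ (50006 * uu) * y * TV)
        ≤ x ^ (50 * uu) * (x ^ (50010 * uu) * TV) :=
          mul_le_mul h1 h2 (by positivity) (by positivity)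
      _ = TV * (x ^ (50 * uu) * x ^ (50010 * uu)) := by ring
      _ = TV * x ^ (50060 * uu) := by
          rw [← Real.rpow_add hx0]
          congr 2
          ring
      _ ≤ TV * x ^ (501 / 1000 : ℝ) := by
          refine mul_le_mul_of_nonneg_left ?_ hTV0
          apply Real.rpow_le_rpow_of_exponent_le hx1.le
          unfold uu
          norm_num
  · have h1 := hxb x hxxb
    calc x ^ (2 * uu) * ((4 * L ^ 3) * (|V| * |Pi|))
        ≤ x ^ (2 * uu) * ((4 * L ^ 3) * (|V| * (550 ^ 9 * x ^ (-(1800 * uu))))) := by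
          refine mul_le_mul_of_nonneg_left ?_ (by positivity)
          refine mul_le_mul_of_nonneg_left ?_ (by positivity)
          exact mul_le_mul_of_nonneg_left hPi_le (abs_nonneg _)
      _ = (x ^ (2 * uu) * x ^ (-(1800 * uu))) * ((4 * 550 ^ 9) * L ^ 3) * |V| := by ring
      _ ≤ (x ^ (2 * uu) * x ^ (-(1800 * uu))) * x ^ (700 * uu) * |V| := by
          refine mul_le_mul_of_nonneg_right ?_ (abs_nonneg _)
          exact mul_le_mul_of_nonneg_left h1 (by positivity)
      _ = x ^ (-(1098 * uu)) * |V| := by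
          rw [← Real.rpow_add hx0, ← Real.rpow_add hx0]
          congr 2
          ring
      _ ≤ x ^ (-(1 / 100) : ℝ) * |V| := by
          refine mul_le_mul_of_nonneg_right ?_ (abs_nonneg _)
          apply Real.rpow_le_rpow_of_exponent_le hx1.le
          unfold uu
          norm_num

end H69BG
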