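import Pool.Agent.H69.BG.Ez

/-!
# WTS: the weights of completion

`wt N L h = min(L, N/(2|h|))/N` (`= L/N` for `h = 0`), for `0 ≤ h < N` with `|h|` replaced by the distance `min(h, N-h)`.
* `geo_le`: `‖∑_{X<r≤Y} e(h r/N)‖ ≤ min(Y - X, N/(2 dist))`: geometric sum, `|e(θ) - 1| = 2|sin πθ| ≥ 4 ‖θ‖`.
* `wt_sum`: `∑_{0≤h<N} wt ≤ (1/N)(L + 2 ∑_{1≤h≤N/2} N/(2h)) ≤ L/N + 1 + log N ≤ 2 + log N` for `L ≤ N`.
* `wt_class`: for `c ∣ N` and a class `j` mod `c`: for the `h` in the class with `0 ≤ h ≤ N/2` (where `wt` is nonincreasing in `h`): all but the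
  smallest, `wt(h) ≤ (1/c) ∑_{h-c < h' ≤ h} wt(h')`, the smallest contributes `≤ L/N`; the same on the other side. Total
  `≤ 2 L/N + (1/c) ∑ wt`.
-/

open Finset H69LB

namespace H69BG

/-- the distance of `h < N` to the nearest multiple of `N` -/
def dN (N h : ℕ) : ℕ := min h (N - h)

/-- the weight of completion -/
noncomputable def wt (N L h : ℕ) : ℝ := if dN N h = 0 then (L : ℝ) / N else min (L : ℝ) (N / (2 * (dN N h : ℝ))) / N

/-- the weight as a function of the distance -/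
noncomputable def WTS_v (N L d : ℕ) : ℝ := if d = 0 then (L : ℝ) / N else min (L : ℝ) (N / (2 * (d : ℝ))) / N

theorem WTS_wt (N L h : ℕ) : wt N L h = WTS_v N L (dN N h) := rfl

theorem WTS_nonneg (N L d : ℕ) : 0 ≤ WTS_v N L d := by
  unfold WTS_v
  split_ifs
  · positivity
  · positivity

theorem WTS_le (N L d : ℕ) : WTS_v N L d ≤ (L : ℝ) / N := by
  unfold WTS_v
  split_ifs
  · exact le_rfl
  · exact div_le_div_of_nonneg_right (min_le_left _ _) (by positivity)

theorem WTS_anti (N L : ℕ) : Antitone (WTS_v N L) := by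
  intro a b hab
  rcases Nat.eq_zero_or_pos a with ha | ha
  · have : WTS_v N L a = (L : ℝ) / N := by unfold WTS_v; rw [if_pos ha]
    rw [this]
    exact WTS_le N L b
  · have ha' : a ≠ 0 := by omega
    have hb' : b ≠ 0 := by omega
    unfold WTS_v
    rw [if_neg ha', if_neg hb']
    have haR : (0 : ℝ) < a := by exact_mod_cast ha
    have habR : (a : ℝ) ≤ b := by exact_mod_cast hab
    refine div_le_div_of_nonneg_right (min_le_min le_rfl ?_) (by positivity)
    exact div_le_div_of_nonneg_left (by positivity) (by positivity) (by linarith)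

/-- upper bound by `1/(2d)` -/
theorem WTS_inv {N : ℕ} (hN : 1 ≤ N) (L : ℕ) {d : ℕ} (hd : 1 ≤ d) : WTS_v N L d ≤ 1 / 2 * (d : ℝ)⁻¹ := by
  have hd' : d ≠ 0 := by omega
  have hNR : (0 : ℝ) < N := by exact_mod_cast hN
  have hdR : (0 : ℝ) < d := by exact_mod_cast hd
  unfold WTS_v
  rw [if_neg hd']
  calc min (L : ℝ) (N / (2 * (d : ℝ))) / N ≤ (N / (2 * (d : ℝ))) / N :=
        div_le_div_of_nonneg_right (min_le_right _ _) hNR.le
    _ = 1 / 2 * (d : ℝ)⁻¹ := by field_simp

theorem WTS_harm (n : ℕ) (hn : 1 ≤ n) : ∑ d ∈ Ioc 0 n, ((d : ℝ)⁻¹) ≤ 1 + Real.log n := by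
  have h := harmonic_le_one_add_log n
  have e : (harmonic n : ℝ) = ∑ d ∈ Ioc 0 n, ((d : ℝ)⁻¹) := by
    rw [harmonic_eq_sum_Icc]
    push_cast
    rfl
  rw [← e]
  exact h

theorem WTS_ee_pow (N h r : ℕ) : ee ((h : ℝ) * r / N) = ee ((h : ℝ) / N) ^ r := by
  unfold ee
  rw [← Complex.exp_nat_mul]
  congr 1
  push_cast
  ring

theorem WTS_sin {N : ℕ} (hN : 1 ≤ N) {h : ℕ} (hh : h < N) :
    2 * (dN N h : ℝ) / N ≤ Real.sin (Real.pi * h / N) := by
  have hNR : (0 : ℝ) < N := by exact_mod_cast hN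
  have hpi := Real.pi_pos
  have key : ∀ a : ℝ, 0 ≤ a → 2 * a ≤ N → 2 * a / N ≤ Real.sin (Real.pi * a / N) := by
    intro a ha haN
    have h1 : 0 ≤ Real.pi * a / N := by positivity
    have h2 : Real.pi * a / N ≤ Real.pi / 2 := by
      rw [div_le_div_iff₀ hNR (by norm_num)]
      nlinarith
    have h3 := Real.mul_le_sin h1 h2
    refine le_trans (le_of_eq ?_) h3
    field_simp
  by_cases hc : 2 * h ≤ N
  · have e : dN N h = h := by unfold dN; omega
    rw [e]
    exact key h (by positivity) (by exact_mod_cast hc)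
  · have e : dN N h = N - h := by unfold dN; omega
    rw [e]
    have hcast : ((N - h : ℕ) : ℝ) = (N : ℝ) - h := by
      rw [Nat.cast_sub hh.le]
    have h1 := key ((N - h : ℕ) : ℝ) (by positivity) (by
      have : 2 * (N - h) ≤ N := by omega
      exact_mod_cast this)
    refine h1.trans (le_of_eq ?_)
    rw [hcast, ← Real.sin_pi_sub]
    congr 1
    field_simp
    ring

theorem geo_le {N : ℕ} (hN : 1 ≤ N) {h : ℕ} (hh : h < N) {L X Y : ℕ} (hXY : Y ≤ X + L) :
    ‖∑ r ∈ Ioc X Y, ee ((h : ℝ) * r / N)‖ ≤ N * wt N L h := by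
  have hNR : (0 : ℝ) < N := by exact_mod_cast hN
  have htriv : ‖∑ r ∈ Ioc X Y, ee ((h : ℝ) * r / N)‖ ≤ L := by
    refine (norm_sum_le _ _).trans ?_
    simp only [ee_norm, sum_const, Nat.card_Ioc, nsmul_eq_mul, mul_one]
    have : Y - X ≤ L := by omega
    exact_mod_cast this
  unfold wt
  split_ifs with hd
  · rw [mul_div_cancel₀ _ hNR.ne']
    exact htriv
  · rw [mul_div_cancel₀ _ hNR.ne']
    refine le_min htriv ?_
    have hdpos : (0 : ℝ) < dN N h := by
      have : 0 < dN N h := by omega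
      exact_mod_cast this
    rcases le_or_gt Y X with hyx | hyx
    · rw [Ioc_eq_empty_of_le hyx, sum_empty, norm_zero]
      positivity
    set ω : ℂ := ee ((h : ℝ) / N) with hω
    have hsub : 4 * (dN N h : ℝ) / N ≤ ‖ω - 1‖ := by
      have e1 : ω = Complex.exp (Complex.I * ((2 * Real.pi * (h / N) : ℝ) : ℂ)) := by
        rw [hω]
        unfold ee
        congr 1
        push_cast
        ring
      rw [e1, Complex.norm_exp_I_mul_ofReal_sub_one]
      have e2 : 2 * Real.pi * ((h : ℝ) / N) / 2 = Real.pi * h / N := by ring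
      rw [e2]
      have h1 := WTS_sin hN hh
      have h2 : 2 * Real.sin (Real.pi * h / N) ≤ ‖2 * Real.sin (Real.pi * h / N)‖ := by
        rw [Real.norm_eq_abs]
        exact le_abs_self _
      refine le_trans ?_ h2
      calc 4 * (dN N h : ℝ) / N = 2 * (2 * (dN N h : ℝ) / N) := by ring
        _ ≤ 2 * Real.sin (Real.pi * h / N) := by linarith
    have hpos : 0 < ‖ω - 1‖ := lt_of_lt_of_le (by positivity) hsub
    have hne : ω ≠ 1 := by
      intro h0
      rw [h0, sub_self, norm_zero] at hpos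
      exact lt_irrefl _ hpos
    have e3 : ∑ r ∈ Ioc X Y, ee ((h : ℝ) * r / N) = (ω ^ (Y + 1) - ω ^ (X + 1)) / (ω - 1) := by
      rw [← geom_sum_Ico hne (by omega : X + 1 ≤ Y + 1)]
      have e4 : Ioc X Y = Ico (X + 1) (Y + 1) := by
        ext r
        simp only [mem_Ioc, mem_Ico]
        omega
      rw [e4]
      refine sum_congr rfl fun r _ => ?_
      rw [hω, WTS_ee_pow]
    rw [e3, norm_div]
    have h5 : ‖ω ^ (Y + 1) - ω ^ (X + 1)‖ ≤ 2 := by
      refine (norm_sub_le _ _).trans ?_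
      rw [norm_pow, norm_pow, hω, ee_norm, one_pow, one_pow]
      norm_num
    rw [div_le_iff₀ hpos]
    refine h5.trans ?_
    calc (2 : ℝ) = N / (2 * (dN N h : ℝ)) * (4 * (dN N h : ℝ) / N) := by
          field_simp
          norm_num
      _ ≤ N / (2 * (dN N h : ℝ)) * ‖ω - 1‖ := mul_le_mul_of_nonneg_left hsub (by positivity)

theorem wt_nonneg (N L h : ℕ) : 0 ≤ wt N L h := WTS_nonneg N L _

theorem WTS_log_half (N n : ℕ) (hn : n ≤ N) (h1 : 1 ≤ n) : Real.log n ≤ Real.log N := by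
  have : (0 : ℝ) < n := by exact_mod_cast h1
  exact Real.log_le_log this (by exact_mod_cast hn)

/-- the sum of the weights over the distances `1, …, n` -/
theorem WTS_sum_Ioc {N : ℕ} (hN : 1 ≤ N) (L : ℕ) {n : ℕ} (hn : n ≤ N) :
    ∑ d ∈ Ioc 0 n, WTS_v N L d ≤ (1 + Real.log N) / 2 := by
  rcases Nat.eq_zero_or_pos n with h0 | h0
  · rw [h0, Ioc_self, sum_empty]
    have : 0 ≤ Real.log N := Real.log_natCast_nonneg N
    positivity
  · have h1 : ∑ d ∈ Ioc 0 n, WTS_v N L d ≤ ∑ d ∈ Ioc 0 n, 1 / 2 * (d : ℝ)⁻¹ := by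
      refine sum_le_sum fun d hd => ?_
      rw [mem_Ioc] at hd
      exact WTS_inv hN L hd.1
    refine h1.trans ?_
    rw [← mul_sum]
    have h2 := WTS_harm n h0
    have h3 := WTS_log_half N n hn h0
    linarith

/-- sum of an antitone function over a residue class -/
theorem WTS_class (f : ℕ → ℝ) (hf : Antitone f) (hf0 : ∀ n, 0 ≤ f n) {c : ℕ} (hc : 1 ≤ c) (j : ZMod c) (M : ℕ) :
    ∑ h ∈ (range (M + 1)).filter (fun h : ℕ => (h : ZMod c) = j), f h ≤
      f 0 + (1 / (c : ℝ)) * ∑ h ∈ Ioc 0 M, f h := by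
  classical
  have hcR : (0 : ℝ) < c := by exact_mod_cast hc
  set S := (range (M + 1)).filter (fun h : ℕ => (h : ZMod c) = j) with hS
  have hsplit : ∑ h ∈ S, f h = ∑ h ∈ S.filter (fun h => h < c), f h + ∑ h ∈ S.filter (fun h => ¬ h < c), f h :=
    (sum_filter_add_sum_filter_not S _ _).symm
  have h1 : ∑ h ∈ S.filter (fun h => h < c), f h ≤ f 0 := by
    have hcard : (S.filter (fun h => h < c)).card ≤ 1 := by
      rw [card_le_one]
      intro a ha b hb
      simp only [hS, mem_filter, mem_range] at ha hb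
      have hab : (a : ZMod c) = b := by rw [ha.1.2, hb.1.2]
      rw [ZMod.natCast_eq_natCast_iff] at hab
      have := Nat.ModEq.eq_of_lt_of_lt hab ha.2 hb.2
      exact this
    calc ∑ h ∈ S.filter (fun h => h < c), f h ≤ ∑ h ∈ S.filter (fun h => h < c), f 0 :=
          sum_le_sum fun h _ => hf (Nat.zero_le h)
      _ = (S.filter (fun h => h < c)).card * f 0 := by rw [sum_const, nsmul_eq_mul]
      _ ≤ 1 * f 0 := mul_le_mul_of_nonneg_right (by exact_mod_cast hcard) (hf0 0)
      _ = f 0 := one_mul _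
  have h2 : (c : ℝ) * ∑ h ∈ S.filter (fun h => ¬ h < c), f h ≤ ∑ h ∈ Ioc 0 M, f h := by
    have hA : (c : ℝ) * ∑ h ∈ S.filter (fun h => ¬ h < c), f h ≤
        ∑ h ∈ S.filter (fun h => ¬ h < c), ∑ k ∈ Ioc (h - c) h, f k := by
      rw [mul_sum]
      refine sum_le_sum fun h hh => ?_
      simp only [mem_filter, not_lt] at hh
      have hcd : (Ioc (h - c) h).card = c := by
        rw [Nat.card_Ioc]
        omega
      calc (c : ℝ) * f h = ∑ k ∈ Ioc (h - c) h, f h := by rw [sum_const, hcd, nsmul_eq_mul]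
        _ ≤ ∑ k ∈ Ioc (h - c) h, f k := sum_le_sum fun k hk => hf (mem_Ioc.mp hk).2
    refine hA.trans ?_
    rw [← sum_biUnion]
    · refine sum_le_sum_of_subset_of_nonneg ?_ fun k _ _ => hf0 k
      intro k hk
      simp only [mem_biUnion, mem_filter, mem_range, hS, mem_Ioc] at hk
      obtain ⟨h, ⟨⟨hhM, _⟩, hhc⟩, hk1, hk2⟩ := hk
      rw [mem_Ioc]
      omega
    · intro a ha b hb hab
      simp only [coe_filter, Set.mem_setOf_eq, hS, mem_filter, mem_range, not_lt] at ha hb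
      have hab' : (a : ZMod c) = b := by rw [ha.1.2, hb.1.2]
      rw [ZMod.natCast_eq_natCast_iff] at hab'
      show Disjoint (Ioc (a - c) a) (Ioc (b - c) b)
      rw [disjoint_left]
      intro k hk1 hk2
      rw [mem_Ioc] at hk1 hk2
      apply hab
      have h3 : (c : ℤ) ∣ (b : ℤ) - a := (Nat.modEq_iff_dvd).mp hab'
      have h4 : (b : ℤ) - a < c := by omega
      have h5 : -(c : ℤ) < (b : ℤ) - a := by omega
      obtain ⟨q, hq⟩ := h3
      have hq1 : q < 1 := by
        by_contra hcon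
        rw [not_lt] at hcon
        nlinarith
      have hq2 : -1 < q := by
        by_contra hcon
        rw [not_lt] at hcon
        nlinarith
      have : q = 0 := by omega
      rw [this] at hq
      omega
  have h3 : ∑ h ∈ S.filter (fun h => ¬ h < c), f h ≤ (1 / (c : ℝ)) * ∑ h ∈ Ioc 0 M, f h := by
    rw [one_div, ← div_eq_inv_mul, le_div_iff₀ hcR, mul_comm]
    exact h2
  rw [hsplit]
  linarith

/-- splitting of a sum of weights at the middle -/
theorem WTS_split {N : ℕ} (L : ℕ) (p p' : ℕ → Prop) [DecidablePred p] [DecidablePred p']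
    (hpp : ∀ h, h < N → p h → p' (N - h)) :
    ∑ h ∈ (range N).filter p, wt N L h ≤
      ∑ h ∈ (range (N / 2 + 1)).filter p, WTS_v N L h + ∑ h ∈ (Ioc 0 ((N - 1) / 2)).filter p', WTS_v N L h := by
  classical
  rw [← sum_filter_add_sum_filter_not ((range N).filter p) (fun h => 2 * h ≤ N)]
  refine add_le_add ?_ ?_
  · have h1 : ∑ h ∈ ((range N).filter p).filter (fun h => 2 * h ≤ N), wt N L h =
        ∑ h ∈ ((range N).filter p).filter (fun h => 2 * h ≤ N), WTS_v N L h := by
      refine sum_congr rfl fun h hh => ?_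
      simp only [mem_filter, mem_range] at hh
      rw [WTS_wt]
      congr 1
      unfold dN
      omega
    rw [h1]
    refine sum_le_sum_of_subset_of_nonneg ?_ fun k _ _ => WTS_nonneg N L k
    intro h hh
    simp only [mem_filter, mem_range] at hh ⊢
    refine ⟨by omega, hh.1.2⟩
  · have h1 : ∑ h ∈ ((range N).filter p).filter (fun h => ¬ 2 * h ≤ N), wt N L h =
        ∑ h ∈ (((range N).filter p).filter (fun h => ¬ 2 * h ≤ N)).image (fun h => N - h), WTS_v N L h := by
      rw [sum_image]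
      · refine sum_congr rfl fun h hh => ?_
        simp only [mem_filter, mem_range] at hh
        rw [WTS_wt]
        congr 1
        unfold dN
        omega
      · intro a ha b hb hab
        simp only [coe_filter, Set.mem_setOf_eq, mem_filter, mem_range] at ha hb
        have hab' : N - a = N - b := hab
        omega
    rw [h1]
    refine sum_le_sum_of_subset_of_nonneg ?_ fun k _ _ => WTS_nonneg N L k
    intro k hk
    simp only [mem_image, mem_filter, mem_range, mem_Ioc] at hk ⊢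
    obtain ⟨h, ⟨⟨hh1, hh2⟩, hh3⟩, rfl⟩ := hk
    exact ⟨⟨by omega, by omega⟩, hpp h hh1 hh2⟩

theorem wt_sum {N L : ℕ} (hN : 1 ≤ N) (hL : L ≤ N) : ∑ h ∈ range N, wt N L h ≤ 2 + Real.log N := by
  classical
  have hNR : (0 : ℝ) < N := by exact_mod_cast hN
  have h := WTS_split (N := N) L (fun _ => True) (fun _ => True) (fun _ _ _ => trivial)
  simp only [filter_true_of_mem (fun _ _ => trivial)] at h
  refine h.trans ?_
  have e : range (N / 2 + 1) = insert 0 (Ioc 0 (N / 2)) := by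
    ext k
    simp only [mem_range, mem_insert, mem_Ioc]
    omega
  rw [e, sum_insert (by simp)]
  have h0 : WTS_v N L 0 ≤ 1 := by
    refine (WTS_le N L 0).trans ?_
    rw [div_le_one hNR]
    exact_mod_cast hL
  have h1 := WTS_sum_Ioc hN L (n := N / 2) (by omega)
  have h2 := WTS_sum_Ioc hN L (n := (N - 1) / 2) (by omega)
  linarith

theorem wt_class {N L c : ℕ} (hN : 1 ≤ N) (hL : L ≤ N) (hc : c ∣ N) (j : ZMod c) :
    ∑ h ∈ (range N).filter (fun h : ℕ => (h : ZMod c) = j), wt N L h ≤ 2 * (L : ℝ) / N + (2 + Real.log N) / c := by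
  classical
  have hNR : (0 : ℝ) < N := by exact_mod_cast hN
  have hc1 : 1 ≤ c := Nat.pos_of_dvd_of_pos hc hN
  have hcR : (0 : ℝ) < c := by exact_mod_cast hc1
  have h := WTS_split (N := N) L (fun h : ℕ => (h : ZMod c) = j) (fun h : ℕ => (h : ZMod c) = -j) (by
    intro h hh hj
    rw [Nat.cast_sub hh.le, hj]
    have : (N : ZMod c) = 0 := (ZMod.natCast_eq_zero_iff N c).mpr hc
    rw [this, zero_sub])
  refine h.trans ?_
  have h1 := WTS_class (WTS_v N L) (WTS_anti N L) (WTS_nonneg N L) hc1 j (N / 2)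
  have h2 := WTS_class (WTS_v N L) (WTS_anti N L) (WTS_nonneg N L) hc1 (-j) ((N - 1) / 2)
  have h3 : ∑ h ∈ (Ioc 0 ((N - 1) / 2)).filter (fun h : ℕ => (h : ZMod c) = -j), WTS_v N L h ≤
      ∑ h ∈ (range ((N - 1) / 2 + 1)).filter (fun h : ℕ => (h : ZMod c) = -j), WTS_v N L h := by
    refine sum_le_sum_of_subset_of_nonneg ?_ fun k _ _ => WTS_nonneg N L k
    intro k hk
    simp only [mem_filter, mem_Ioc, mem_range] at hk ⊢
    exact ⟨by omega, hk.2⟩
  have h4 := WTS_sum_Ioc hN L (n := N / 2) (by omega)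
  have h5 := WTS_sum_Ioc hN L (n := (N - 1) / 2) (by omega)
  have h0 : WTS_v N L 0 ≤ (L : ℝ) / N := WTS_le N L 0
  have hlog : 0 ≤ Real.log N := Real.log_natCast_nonneg N
  have h6 : (1 / (c : ℝ)) * ∑ h ∈ Ioc 0 (N / 2), WTS_v N L h ≤ (1 / (c : ℝ)) * ((1 + Real.log N) / 2) :=
    mul_le_mul_of_nonneg_left h4 (by positivity)
  have h7 : (1 / (c : ℝ)) * ∑ h ∈ Ioc 0 ((N - 1) / 2), WTS_v N L h ≤ (1 / (c : ℝ)) * ((1 + Real.log N) / 2) :=
    mul_le_mul_of_nonneg_left h5 (by positivity)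
  have h8 : (1 / (c : ℝ)) * ((1 + Real.log N) / 2) + (1 / (c : ℝ)) * ((1 + Real.log N) / 2) ≤ (2 + Real.log N) / c := by
    rw [← mul_add, add_halves, one_div, ← div_eq_inv_mul]
    exact div_le_div_of_nonneg_right (by linarith) hcR.le
  have h9 : 2 * (L : ℝ) / N = L / N + L / N := by ring
  rw [h9]
  linarith

end H69BG
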