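import Pool.Agent.H69.BG.Mai
import Pool.Agent.H69.BG.Bad

/-!
# WWB: the sum after the first Cauchy inequality

Open the square in `WW`. All `n = m k - t` with `1 ≤ m < 4M`, `k ∈ (K, 2K]` are nonzero with `|n| ≤ N`; `psi M 0 = 0`.
* `k = k'`: `∑_r ∑_m psi(m) ∑_{k : r ∣ m k - t} gI² ≤ 2 · 4M · K · Cd · Cd^{18}` (`abs_gI_le`, at most `Cd` values of `r`): `8 M K Cd^{19}`.
* `k ≠ k'`: `r ∣ m k - t`, `r ∣ m k' - t` force `gcd(r, k) = 1` (as `gcd(r, t) = 1`), `gcd(r, m) = 1` and `k ≡ k'` mod `r`. Insert `gI_eq` for `B` twice; `r` and `q` are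
  coprime so `r ∣ n ∧ q ∣ n ↔ r q ∣ n`: the sum over `m` is
  `∑_{I1, I2 ⊆ B} (-1)^{|I1|+|I2|} kI(B\I1) kI(B\I2) ∑_{q ∈ SI I1} ∑_{q' ∈ SI I2} NN2 M t (r q) (r q') k k'`.
  Split the `(q, q')` into good and bad. Bad: `|coefficient| ≤ Cd^{18}`, at most `4^9` pairs `(I1, I2)`, `bad`. Good: `NN2 = (NN2 - 4M/(r q q')) + 4M/(r q q')`; the first
  part gives `∑ Cd^{18} ‖EE‖`; the second part is bounded by `mai`: `≤ (4M/r) 10^8 Cd^{40}/z` for each `(r, k, k')`, `r ≥ R`, and there are at most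
  `|SI P I| · K · 2L` triples (`k' = k + r l`, `0 < |l| ≤ L`, `K ≤ L r`).
-/

open Finset

namespace H69BG

/-- the sum after the first Cauchy inequality -/
noncomputable def WW (P : ℕ → Finset ℕ) (B I : Finset ℕ) (t : ℤ) (K M : ℕ) (b : ℕ → ℂ) : ℝ :=
  ∑ r ∈ SI P I, ∑ m ∈ range (4 * M), psi M m *
    ‖∑ k ∈ (Ioc K (2 * K)).filter (fun k : ℕ => (r : ℤ) ∣ m * k - t), b k * (gI P B (m * k - t) : ℂ)‖ ^ 2

/-- the coefficients of the expansion -/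
noncomputable def WWB_c (P : ℕ → Finset ℕ) (B I1 I2 : Finset ℕ) : ℝ :=
  (-1) ^ I1.card * (-1) ^ I2.card * kI P (B \ I1) * kI P (B \ I2)

theorem WWB_kI {P : ℕ → Finset ℕ} {N Cd : ℕ} (hB : SyB P N Cd) {J : Finset ℕ} (hJ : J ⊆ range 9) :
    0 ≤ kI P J ∧ kI P J ≤ (Cd : ℝ) ^ 9 := by
  have h0 : ∀ i, 0 ≤ kap P i := fun i => Finset.sum_nonneg fun p _ => by positivity
  have h1 : (1 : ℝ) ≤ Cd := by exact_mod_cast hB.one_le
  refine ⟨Finset.prod_nonneg fun i _ => h0 i, ?_⟩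
  have h2 : kI P J ≤ ∏ i ∈ J, (Cd : ℝ) :=
    Finset.prod_le_prod (fun i _ => h0 i) fun i hi => hB.kap i (Finset.mem_range.mp (hJ hi))
  rw [Finset.prod_const] at h2
  have h3 : J.card ≤ 9 := by
    have := Finset.card_le_card hJ
    rwa [Finset.card_range] at this
  exact h2.trans (pow_le_pow_right₀ h1 h3)

theorem WWB_c_le {P : ℕ → Finset ℕ} {N Cd : ℕ} (hB : SyB P N Cd) {B : Finset ℕ}
    (hB9 : B ⊆ range 9) (I1 I2 : Finset ℕ) : |WWB_c P B I1 I2| ≤ (Cd : ℝ) ^ 18 := by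
  obtain ⟨a1, a2⟩ := WWB_kI hB (J := B \ I1) (Finset.sdiff_subset.trans hB9)
  obtain ⟨b1, b2⟩ := WWB_kI hB (J := B \ I2) (Finset.sdiff_subset.trans hB9)
  unfold WWB_c
  rw [abs_mul, abs_mul, abs_mul, abs_pow, abs_pow, abs_neg, abs_one, one_pow, one_pow, one_mul,
    one_mul, abs_of_nonneg a1, abs_of_nonneg b1]
  calc kI P (B \ I1) * kI P (B \ I2) ≤ (Cd : ℝ) ^ 9 * (Cd : ℝ) ^ 9 :=
        mul_le_mul a2 b2 b1 (by positivity)
    _ = (Cd : ℝ) ^ 18 := by ring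

theorem WWB_mn {z N : ℕ} {t : ℤ} (htz : |t| ≤ z) {K M : ℕ} (hK : z < K)
    (hN : 8 * M * K + z ≤ N) {m k : ℕ} (hm : 1 ≤ m) (hm4 : m < 4 * M) (hk : k ∈ Ioc K (2 * K)) :
    (m : ℤ) * k - t ≠ 0 ∧ |(m : ℤ) * k - t| ≤ N := by
  rw [Finset.mem_Ioc] at hk
  have h1 : k ≤ m * k := Nat.le_mul_of_pos_left k hm
  have h2 : m * k ≤ 4 * M * (2 * K) := Nat.mul_le_mul hm4.le hk.2
  have h2' : m * k ≤ 8 * M * K := by
    calc m * k ≤ 4 * M * (2 * K) := h2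
      _ = 8 * M * K := by ring
  have h3 : ((m * k : ℕ) : ℤ) = (m : ℤ) * k := by push_cast; ring
  rw [abs_le] at htz
  rw [← h3]
  constructor
  · omega
  · rw [abs_le]
    omega

theorem WWB_psi0 {M : ℕ} (hM : 1 ≤ M) : psi M 0 = 0 := by
  have h : (M : ℝ) ≠ 0 := by positivity
  unfold psi
  have : |((0 : ℕ) : ℝ) - 2 * M| / (2 * M) = 1 := by
    rw [Nat.cast_zero, zero_sub, abs_neg, abs_of_nonneg (by positivity)]
    field_simp
  rw [this]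
  simp

theorem WWB_psi {M : ℕ} (m : ℕ) : 0 ≤ psi M m ∧ psi M m ≤ 2 := by
  unfold psi
  constructor
  · positivity
  · have h1 : 0 ≤ |(m : ℝ) - 2 * M| / (2 * M) := by positivity
    have h2 : max 0 (1 - |(m : ℝ) - 2 * M| / (2 * M)) ≤ 1 := max_le (by norm_num) (by linarith)
    linarith

/-- the summand -/
noncomputable def WWB_a (P : ℕ → Finset ℕ) (B : Finset ℕ) (t : ℤ) (r m : ℕ) (b : ℕ → ℂ) (k : ℕ) :
    ℂ := if (r : ℤ) ∣ (m : ℤ) * k - t then b k * ((gI P B ((m : ℤ) * k - t) : ℝ) : ℂ) else 0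

theorem WWB_sq (P : ℕ → Finset ℕ) (B : Finset ℕ) (t : ℤ) (r m K : ℕ) (b : ℕ → ℂ) :
    ((‖∑ k ∈ (Ioc K (2 * K)).filter (fun k : ℕ => (r : ℤ) ∣ m * k - t),
      b k * (gI P B (m * k - t) : ℂ)‖ ^ 2 : ℝ) : ℂ) =
    (∑ k ∈ Ioc K (2 * K), WWB_a P B t r m b k * (starRingEnd ℂ) (WWB_a P B t r m b k)) +
      ∑ k ∈ Ioc K (2 * K), ∑ k' ∈ (Ioc K (2 * K)).erase k,
        WWB_a P B t r m b k * (starRingEnd ℂ) (WWB_a P B t r m b k') := by
  have h1 : ∑ k ∈ (Ioc K (2 * K)).filter (fun k : ℕ => (r : ℤ) ∣ m * k - t),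
      b k * (gI P B (m * k - t) : ℂ) = ∑ k ∈ Ioc K (2 * K), WWB_a P B t r m b k := by
    rw [Finset.sum_filter]
    rfl
  rw [h1, ← Complex.normSq_eq_norm_sq, ← Complex.mul_conj, map_sum, Finset.sum_mul_sum,
    ← Finset.sum_add_distrib]
  refine Finset.sum_congr rfl fun k hk => ?_
  exact (Finset.add_sum_erase _ _ hk).symm

theorem WWB_prod (P : ℕ → Finset ℕ) (B : Finset ℕ) (t : ℤ) (r m : ℕ) (b : ℕ → ℂ) (k k' : ℕ) :
    WWB_a P B t r m b k * (starRingEnd ℂ) (WWB_a P B t r m b k') =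
      b k * (starRingEnd ℂ) (b k') * (((if (r : ℤ) ∣ (m : ℤ) * k - t ∧ (r : ℤ) ∣ (m : ℤ) * k' - t
        then gI P B ((m : ℤ) * k - t) * gI P B ((m : ℤ) * k' - t) else 0 : ℝ)) : ℂ) := by
  unfold WWB_a
  by_cases h1 : (r : ℤ) ∣ (m : ℤ) * k - t
  · by_cases h2 : (r : ℤ) ∣ (m : ℤ) * k' - t
    · rw [if_pos h1, if_pos h2, if_pos ⟨h1, h2⟩, map_mul, Complex.conj_ofReal, Complex.ofReal_mul]
      ring
    · simp [h1, h2]
  · simp [h1]

theorem WWB_diag {P : ℕ → Finset ℕ} {z N Cd : ℕ} (hS : Sy P z) (hB : SyB P N Cd) {I B : Finset ℕ}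
    (hI : I ⊆ range 9) (hB9 : B ⊆ range 9)
    {t : ℤ} (htz : |t| ≤ z) {K M : ℕ} (hM : 1 ≤ M) (hK : z < K) (hN : 8 * M * K + z ≤ N)
    {b : ℕ → ℂ} (hb : ∀ k, ‖b k‖ ≤ 1) :
    ‖∑ r ∈ SI P I, ∑ m ∈ range (4 * M), (psi M m : ℂ) *
      ∑ k ∈ Ioc K (2 * K), WWB_a P B t r m b k * (starRingEnd ℂ) (WWB_a P B t r m b k)‖ ≤
      8 * M * K * (Cd : ℝ) ^ 19 := by
  have h1 : (1 : ℝ) ≤ Cd := by exact_mod_cast hB.one_le
  rw [Finset.sum_comm]
  have key : ∀ m ∈ range (4 * M), ‖∑ r ∈ SI P I, (psi M m : ℂ) *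
      ∑ k ∈ Ioc K (2 * K), WWB_a P B t r m b k * (starRingEnd ℂ) (WWB_a P B t r m b k)‖ ≤
      2 * K * (Cd : ℝ) ^ 19 := by
    intro m hm
    rw [Finset.mem_range] at hm
    obtain ⟨p0, p2⟩ := WWB_psi (M := M) m
    rcases Nat.eq_zero_or_pos m with h0 | h0
    · subst h0
      have : ∑ r ∈ SI P I, (psi M 0 : ℂ) *
        ∑ k ∈ Ioc K (2 * K), WWB_a P B t r 0 b k * (starRingEnd ℂ) (WWB_a P B t r 0 b k) = 0 := by
        refine Finset.sum_eq_zero fun r _ => ?_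
        rw [WWB_psi0 hM, Complex.ofReal_zero, zero_mul]
      rw [this, norm_zero]
      positivity
    · rw [← Finset.mul_sum, norm_mul, Complex.norm_real, Real.norm_of_nonneg p0, Finset.sum_comm]
      have h2 : ∀ k ∈ Ioc K (2 * K), ‖∑ r ∈ SI P I, WWB_a P B t r m b k *
          (starRingEnd ℂ) (WWB_a P B t r m b k)‖ ≤ (Cd : ℝ) ^ 19 := by
        intro k hk
        obtain ⟨n0, nN⟩ := WWB_mn htz hK hN h0 hm hk
        have h3 := hB.div I hI _ n0 nN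
        have h4 := abs_gI_le hS hB hB9 n0 nN
        have h5 : ∀ r ∈ SI P I, ‖WWB_a P B t r m b k * (starRingEnd ℂ) (WWB_a P B t r m b k)‖ ≤
            if (r : ℤ) ∣ (m : ℤ) * k - t then (Cd : ℝ) ^ 18 else 0 := by
          intro r _
          rw [norm_mul, RCLike.norm_conj]
          unfold WWB_a
          split_ifs with h6
          · rw [norm_mul, Complex.norm_real, Real.norm_eq_abs]
            have h7 : ‖b k‖ * |gI P B ((m : ℤ) * k - t)| ≤ 1 * (Cd : ℝ) ^ 9 :=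
              mul_le_mul (hb k) h4 (abs_nonneg _) zero_le_one
            rw [one_mul] at h7
            calc ‖b k‖ * |gI P B ((m : ℤ) * k - t)| * (‖b k‖ * |gI P B ((m : ℤ) * k - t)|) ≤
                (Cd : ℝ) ^ 9 * (Cd : ℝ) ^ 9 := mul_le_mul h7 h7 (by positivity) (by positivity)
              _ = (Cd : ℝ) ^ 18 := by ring
          · rw [norm_zero, mul_zero]
        refine (norm_sum_le _ _).trans ((Finset.sum_le_sum h5).trans ?_)
        rw [← Finset.sum_filter, Finset.sum_const, nsmul_eq_mul]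
        calc (((SI P I).filter (fun s : ℕ => (s : ℤ) ∣ (m : ℤ) * k - t)).card : ℝ) *
            (Cd : ℝ) ^ 18 ≤ Cd * (Cd : ℝ) ^ 18 :=
              mul_le_mul_of_nonneg_right (by exact_mod_cast h3) (by positivity)
          _ = (Cd : ℝ) ^ 19 := by ring
      have h3 : ‖∑ k ∈ Ioc K (2 * K), ∑ r ∈ SI P I, WWB_a P B t r m b k *
          (starRingEnd ℂ) (WWB_a P B t r m b k)‖ ≤ K * (Cd : ℝ) ^ 19 := by
        refine (norm_sum_le _ _).trans ((Finset.sum_le_sum h2).trans ?_)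
        rw [Finset.sum_const, nsmul_eq_mul, Nat.card_Ioc]
        have : 2 * K - K = K := by omega
        rw [this]
      calc psi M m * ‖∑ k ∈ Ioc K (2 * K), ∑ r ∈ SI P I, WWB_a P B t r m b k *
            (starRingEnd ℂ) (WWB_a P B t r m b k)‖ ≤ 2 * (K * (Cd : ℝ) ^ 19) :=
            mul_le_mul p2 h3 (norm_nonneg _) (by norm_num)
        _ = 2 * K * (Cd : ℝ) ^ 19 := by ring
  refine (norm_sum_le _ _).trans ((Finset.sum_le_sum key).trans ?_)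
  rw [Finset.sum_const, nsmul_eq_mul, Finset.card_range]
  push_cast
  exact le_of_eq (by ring)

theorem WWB_expand {P : ℕ → Finset ℕ} {z : ℕ} (hS : Sy P z) {I B : Finset ℕ} (hIB : Disjoint I B)
    (t : ℤ) (M : ℕ) {r : ℕ} (hr : r ∈ SI P I) (k k' : ℕ) :
    ∑ m ∈ range (4 * M), psi M m * (if (r : ℤ) ∣ (m : ℤ) * k - t ∧ (r : ℤ) ∣ (m : ℤ) * k' - t
      then gI P B ((m : ℤ) * k - t) * gI P B ((m : ℤ) * k' - t) else 0) =
    ∑ I1 ∈ B.powerset, ∑ I2 ∈ B.powerset, WWB_c P B I1 I2 *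
      ∑ q ∈ SI P I1, ∑ q' ∈ SI P I2, NN2 M t (r * q) (r * q') k k' := by
  have hco : ∀ J ∈ B.powerset, ∀ q ∈ SI P J, ∀ n : ℤ, (r : ℤ) ∣ n →
      (((r * q : ℕ) : ℤ) ∣ n ↔ (q : ℤ) ∣ n) := by
    intro J hJ q hq n hn
    rw [Finset.mem_powerset] at hJ
    have hc : Nat.Coprime r q := SI_coprime hS (hIB.mono_right hJ) hr hq
    constructor
    · intro h
      refine dvd_trans ?_ h
      push_cast
      exact dvd_mul_left _ _
    · intro h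
      push_cast
      exact IsCoprime.mul_dvd (Nat.isCoprime_iff_coprime.mpr hc) hn h
  have hno : ∀ q : ℕ, ∀ n : ℤ, ((r * q : ℕ) : ℤ) ∣ n → (r : ℤ) ∣ n := by
    intro q n h
    refine dvd_trans ?_ h
    push_cast
    exact dvd_mul_right _ _
  have key : ∀ m : ℕ, (if (r : ℤ) ∣ (m : ℤ) * k - t ∧ (r : ℤ) ∣ (m : ℤ) * k' - t
      then gI P B ((m : ℤ) * k - t) * gI P B ((m : ℤ) * k' - t) else 0) =
      ∑ I1 ∈ B.powerset, ∑ I2 ∈ B.powerset, ∑ q ∈ SI P I1, ∑ q' ∈ SI P I2, WWB_c P B I1 I2 *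
        (if ((r * q : ℕ) : ℤ) ∣ (m : ℤ) * k - t ∧ ((r * q' : ℕ) : ℤ) ∣ (m : ℤ) * k' - t
          then 1 else 0) := by
    intro m
    by_cases h : (r : ℤ) ∣ (m : ℤ) * k - t ∧ (r : ℤ) ∣ (m : ℤ) * k' - t
    · rw [if_pos h, gI_eq hS, gI_eq hS, Finset.sum_mul_sum]
      refine Finset.sum_congr rfl fun I1 hI1 => Finset.sum_congr rfl fun I2 hI2 => ?_
      rw [Finset.natCast_card_filter, Finset.natCast_card_filter]
      have e1 : (-1 : ℝ) ^ I1.card * kI P (B \ I1) *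
          (∑ q ∈ SI P I1, if (q : ℤ) ∣ (m : ℤ) * k - t then (1 : ℝ) else 0) *
          ((-1 : ℝ) ^ I2.card * kI P (B \ I2) *
          (∑ q' ∈ SI P I2, if (q' : ℤ) ∣ (m : ℤ) * k' - t then (1 : ℝ) else 0)) =
          WWB_c P B I1 I2 *
          ((∑ q ∈ SI P I1, if (q : ℤ) ∣ (m : ℤ) * k - t then (1 : ℝ) else 0) *
          (∑ q' ∈ SI P I2, if (q' : ℤ) ∣ (m : ℤ) * k' - t then (1 : ℝ) else 0)) := by
        unfold WWB_c
        ring
      rw [e1, Finset.sum_mul_sum, Finset.mul_sum]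
      refine Finset.sum_congr rfl fun q hq => ?_
      rw [Finset.mul_sum]
      refine Finset.sum_congr rfl fun q' hq' => ?_
      rw [if_congr (and_congr (hco I1 hI1 q hq _ h.1) (hco I2 hI2 q' hq' _ h.2)) rfl rfl]
      congr 1
      by_cases h1 : (q : ℤ) ∣ (m : ℤ) * k - t
      · by_cases h2 : (q' : ℤ) ∣ (m : ℤ) * k' - t
        · rw [if_pos h1, if_pos h2, if_pos ⟨h1, h2⟩, one_mul]
        · simp [h1, h2]
      · simp [h1]
    · rw [if_neg h]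
      symm
      refine Finset.sum_eq_zero fun I1 _ => Finset.sum_eq_zero fun I2 _ =>
        Finset.sum_eq_zero fun q _ => Finset.sum_eq_zero fun q' _ => ?_
      rw [if_neg (fun h' => h ⟨hno q _ h'.1, hno q' _ h'.2⟩), mul_zero]
  simp_rw [key, Finset.mul_sum]
  rw [Finset.sum_comm]
  refine Finset.sum_congr rfl fun I1 _ => ?_
  rw [Finset.sum_comm]
  refine Finset.sum_congr rfl fun I2 _ => ?_
  rw [Finset.sum_comm]
  refine Finset.sum_congr rfl fun q _ => ?_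
  rw [Finset.sum_comm]
  refine Finset.sum_congr rfl fun q' _ => ?_
  rw [NN2, Finset.sum_filter, Finset.mul_sum]
  refine Finset.sum_congr rfl fun m _ => ?_
  split_ifs <;> ring

theorem WWB_zero {P : ℕ → Finset ℕ} {z : ℕ} (hS : Sy P z) {I : Finset ℕ} {t : ℤ} (ht : t ≠ 0)
    (htz : |t| ≤ z) (M : ℕ) {r : ℕ} (hr : r ∈ SI P I) (q q' k k' : ℕ)
    (h : ¬ (Nat.Coprime r k ∧ k' ≡ k [MOD r])) : NN2 M t (r * q) (r * q') k k' = 0 := by
  have h1 : Nat.Coprime r t.natAbs := by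
    refine SI_coprime_small hS hr ?_ ?_
    · exact Nat.pos_of_ne_zero (Int.natAbs_ne_zero.mpr ht)
    · have : ((t.natAbs : ℕ) : ℤ) ≤ z := by rwa [Int.natCast_natAbs]
      exact_mod_cast this
  have h1' : IsCoprime (r : ℤ) t := by
    rw [Int.isCoprime_iff_gcd_eq_one]
    simpa [Int.gcd] using h1
  unfold NN2
  refine Finset.sum_eq_zero fun m hm => ?_
  exfalso
  rw [Finset.mem_filter] at hm
  obtain ⟨_, h2, h3⟩ := hm
  have h4 : (r : ℤ) ∣ (m : ℤ) * k - t := by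
    refine dvd_trans ?_ h2
    push_cast
    exact dvd_mul_right _ _
  have h5 : (r : ℤ) ∣ (m : ℤ) * k' - t := by
    refine dvd_trans ?_ h3
    push_cast
    exact dvd_mul_right _ _
  have h6 : IsCoprime (r : ℤ) ((m : ℤ) * k) := by
    obtain ⟨c, hc⟩ := h4
    have : (m : ℤ) * k = t + r * c := by linarith
    rw [this]
    exact IsCoprime.add_mul_left_right h1' c
  obtain ⟨h7, h8⟩ := (IsCoprime.mul_right_iff.mp h6)
  apply h
  constructor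
  · exact Nat.isCoprime_iff_coprime.mp h8
  · have h9 : (r : ℤ) ∣ (m : ℤ) * ((k : ℤ) - k') := by
      have := dvd_sub h4 h5
      have e : (m : ℤ) * k - t - ((m : ℤ) * k' - t) = (m : ℤ) * ((k : ℤ) - k') := by ring
      rwa [e] at this
    have h10 : (r : ℤ) ∣ (k : ℤ) - k' := h7.dvd_of_dvd_mul_left h9
    exact (Nat.modEq_iff_dvd).mpr h10

theorem WWB_card {K L r k : ℕ} (hr : 1 ≤ r) (hL : K ≤ L * r) (hk : k ∈ Ioc K (2 * K)) :
    ((Ioc K (2 * K)).filter (fun k' => k' ≠ k ∧ k' ≡ k [MOD r])).card ≤ 2 * L := by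
  have hc : ((Icc (-(L : ℤ)) L).erase 0).card = 2 * L := by
    rw [Finset.card_erase_of_mem (by rw [Finset.mem_Icc]; omega), Int.card_Icc]
    omega
  rw [← hc]
  rw [Finset.mem_Ioc] at hk
  refine Finset.card_le_card_of_injOn (fun k' : ℕ => ((k' : ℤ) - k) / r) ?_ ?_
  · intro k' hk'
    rw [Finset.mem_coe, Finset.mem_filter, Finset.mem_Ioc] at hk'
    obtain ⟨⟨h1, h2⟩, h3, h4⟩ := hk'
    have h5 : (r : ℤ) ∣ (k' : ℤ) - k := (Nat.modEq_iff_dvd).mp h4.symm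
    obtain ⟨l, hl⟩ := h5
    have hr' : (0 : ℤ) < r := by exact_mod_cast hr
    show ((k' : ℤ) - k) / r ∈ ((Icc (-(L : ℤ)) L).erase 0 : Finset ℤ)
    rw [hl, Int.mul_ediv_cancel_left _ hr'.ne', Finset.mem_erase, Finset.mem_Icc]
    have hLz : (K : ℤ) ≤ L * r := by exact_mod_cast hL
    refine ⟨?_, ?_, ?_⟩
    · rintro rfl
      rw [mul_zero] at hl
      omega
    · by_contra hcon
      push Not at hcon
      have h6 : (r : ℤ) * l < r * (-(L : ℤ)) := mul_lt_mul_of_pos_left hcon hr'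
      have h7 : (r : ℤ) * (-(L : ℤ)) = -((L : ℤ) * r) := by ring
      omega
    · by_contra hcon
      push Not at hcon
      have h6 : (r : ℤ) * L < r * l := mul_lt_mul_of_pos_left hcon hr'
      have h7 : (r : ℤ) * (L : ℤ) = (L : ℤ) * r := by ring
      omega
  · intro a ha b hb hab
    rw [Finset.mem_coe, Finset.mem_filter, Finset.mem_Ioc] at ha hb
    have h5 : (r : ℤ) ∣ (a : ℤ) - k := (Nat.modEq_iff_dvd).mp ha.2.2.symm
    have h6 : (r : ℤ) ∣ (b : ℤ) - k := (Nat.modEq_iff_dvd).mp hb.2.2.symm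
    have h7 := Int.ediv_left_inj h5 h6 |>.mp hab
    omega

theorem WWB_comm {α ι : Type*} [AddCommMonoid α] (S : Finset ℕ) (T : ℕ → Finset ℕ)
    (U : ℕ → ℕ → Finset ℕ) (V : Finset ι) (f : ℕ → ℕ → ℕ → ι → α) :
    ∑ r ∈ S, ∑ k ∈ T r, ∑ k' ∈ U r k, ∑ J ∈ V, f r k k' J =
      ∑ J ∈ V, ∑ r ∈ S, ∑ k ∈ T r, ∑ k' ∈ U r k, f r k k' J := by
  calc ∑ r ∈ S, ∑ k ∈ T r, ∑ k' ∈ U r k, ∑ J ∈ V, f r k k' J =
      ∑ r ∈ S, ∑ k ∈ T r, ∑ J ∈ V, ∑ k' ∈ U r k, f r k k' J :=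
        Finset.sum_congr rfl fun r _ => Finset.sum_congr rfl fun k _ => Finset.sum_comm
    _ = ∑ r ∈ S, ∑ J ∈ V, ∑ k ∈ T r, ∑ k' ∈ U r k, f r k k' J :=
        Finset.sum_congr rfl fun r _ => Finset.sum_comm
    _ = ∑ J ∈ V, ∑ r ∈ S, ∑ k ∈ T r, ∑ k' ∈ U r k, f r k k' J := Finset.sum_comm

/-- the off-diagonal part for given `(I1, I2)` -/
noncomputable def WWB_T (P : ℕ → Finset ℕ) (I I1 I2 : Finset ℕ) (t : ℤ) (K M : ℕ) (b : ℕ → ℂ) :
    ℂ :=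
  ∑ r ∈ SI P I, ∑ k ∈ Ioc K (2 * K), ∑ k' ∈ (Ioc K (2 * K)).erase k,
    b k * (starRingEnd ℂ) (b k') *
      ((∑ q ∈ SI P I1, ∑ q' ∈ SI P I2, NN2 M t (r * q) (r * q') k k' : ℝ) : ℂ)

theorem WWB_off {P : ℕ → Finset ℕ} {z : ℕ} (hS : Sy P z) {I B : Finset ℕ} (hIB : Disjoint I B)
    (t : ℤ) (K M : ℕ) (b : ℕ → ℂ) :
    ∑ r ∈ SI P I, ∑ m ∈ range (4 * M), (psi M m : ℂ) *
      ∑ k ∈ Ioc K (2 * K), ∑ k' ∈ (Ioc K (2 * K)).erase k,
        WWB_a P B t r m b k * (starRingEnd ℂ) (WWB_a P B t r m b k') =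
    ∑ I1 ∈ B.powerset, ∑ I2 ∈ B.powerset, (WWB_c P B I1 I2 : ℂ) * WWB_T P I I1 I2 t K M b := by
  have h1 : ∀ r ∈ SI P I, ∑ m ∈ range (4 * M), (psi M m : ℂ) *
      ∑ k ∈ Ioc K (2 * K), ∑ k' ∈ (Ioc K (2 * K)).erase k,
        WWB_a P B t r m b k * (starRingEnd ℂ) (WWB_a P B t r m b k') =
      ∑ k ∈ Ioc K (2 * K), ∑ k' ∈ (Ioc K (2 * K)).erase k, ∑ I1 ∈ B.powerset, ∑ I2 ∈ B.powerset,
        (WWB_c P B I1 I2 : ℂ) * (b k * (starRingEnd ℂ) (b k') *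
          ((∑ q ∈ SI P I1, ∑ q' ∈ SI P I2, NN2 M t (r * q) (r * q') k k' : ℝ) : ℂ)) := by
    intro r hr
    simp_rw [Finset.mul_sum]
    rw [Finset.sum_comm]
    refine Finset.sum_congr rfl fun k _ => ?_
    rw [Finset.sum_comm]
    refine Finset.sum_congr rfl fun k' _ => ?_
    have h2 := congrArg (fun x : ℝ => (x : ℂ)) (WWB_expand hS hIB t M hr k k')
    simp only [Complex.ofReal_sum, Complex.ofReal_mul] at h2
    have h3 : ∀ m ∈ range (4 * M), (psi M m : ℂ) *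
        (WWB_a P B t r m b k * (starRingEnd ℂ) (WWB_a P B t r m b k')) =
        b k * (starRingEnd ℂ) (b k') * ((psi M m : ℂ) *
        (((if (r : ℤ) ∣ (m : ℤ) * k - t ∧ (r : ℤ) ∣ (m : ℤ) * k' - t
        then gI P B ((m : ℤ) * k - t) * gI P B ((m : ℤ) * k' - t) else 0 : ℝ)) : ℂ)) := by
      intro m _
      rw [WWB_prod]
      ring
    rw [Finset.sum_congr rfl h3, ← Finset.mul_sum, h2, Finset.mul_sum]
    refine Finset.sum_congr rfl fun I1 _ => ?_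
    rw [Finset.mul_sum]
    refine Finset.sum_congr rfl fun I2 _ => ?_
    simp only [Complex.ofReal_sum]
    ring
  rw [Finset.sum_congr rfl h1, WWB_comm (SI P I) (fun _ => Ioc K (2 * K))
    (fun _ k => (Ioc K (2 * K)).erase k)]
  refine Finset.sum_congr rfl fun I1 _ => ?_
  rw [WWB_comm (SI P I) (fun _ => Ioc K (2 * K)) (fun _ k => (Ioc K (2 * K)).erase k)]
  refine Finset.sum_congr rfl fun I2 _ => ?_
  unfold WWB_T
  simp_rw [Finset.mul_sum]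

theorem WWB_restrict (K r : ℕ) (F : ℕ → ℕ → ℂ)
    (hF : ∀ k k', ¬ (Nat.Coprime r k ∧ k' ≡ k [MOD r]) → F k k' = 0) :
    ∑ k ∈ Ioc K (2 * K), ∑ k' ∈ (Ioc K (2 * K)).erase k, F k k' =
      ∑ k ∈ (Ioc K (2 * K)).filter (fun k => Nat.Coprime r k),
        ∑ k' ∈ (Ioc K (2 * K)).filter (fun k' => k' ≠ k ∧ k' ≡ k [MOD r]), F k k' := by
  rw [Finset.sum_filter]
  refine Finset.sum_congr rfl fun k _ => ?_
  by_cases hc : Nat.Coprime r k
  · rw [if_pos hc]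
    symm
    refine Finset.sum_subset ?_ ?_
    · intro k' hk'
      rw [Finset.mem_filter] at hk'
      exact Finset.mem_erase.mpr ⟨hk'.2.1, hk'.1⟩
    · intro k' hk' hn
      rw [Finset.mem_erase] at hk'
      rw [Finset.mem_filter] at hn
      exact hF k k' fun h => hn ⟨hk'.2, hk'.1, h.2⟩
  · rw [if_neg hc]
    exact Finset.sum_eq_zero fun k' _ => hF k k' fun h => hc h.1

/-- the main terms for given `(I1, I2)` -/
noncomputable def WWB_M (P : ℕ → Finset ℕ) (I I1 I2 : Finset ℕ) (K M : ℕ) (b : ℕ → ℂ) : ℂ :=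
  ∑ r ∈ SI P I, ∑ k ∈ (Ioc K (2 * K)).filter (fun k => Nat.Coprime r k),
    ∑ k' ∈ (Ioc K (2 * K)).filter (fun k' => k' ≠ k ∧ k' ≡ k [MOD r]),
      b k * (starRingEnd ℂ) (b k') * (4 * M / (r : ℂ)) *
        ((∑ q ∈ SI P I1, ∑ q' ∈ (SI P I2).filter (fun q' => good q q' k k'),
          (1 / ((q : ℝ) * q')) : ℝ) : ℂ)

/-- the bad part for given `(I1, I2)` -/
noncomputable def WWB_Bd (P : ℕ → Finset ℕ) (I I1 I2 : Finset ℕ) (t : ℤ) (K M : ℕ) (b : ℕ → ℂ) :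
    ℂ :=
  ∑ r ∈ SI P I, ∑ k ∈ Ioc K (2 * K), ∑ k' ∈ (Ioc K (2 * K)).erase k,
    b k * (starRingEnd ℂ) (b k') *
      ((∑ q ∈ SI P I1, ∑ q' ∈ (SI P I2).filter (fun q' => ¬ good q q' k k'),
        NN2 M t (r * q) (r * q') k k' : ℝ) : ℂ)

theorem WWB_split {P : ℕ → Finset ℕ} {z : ℕ} (hS : Sy P z) {I I1 I2 : Finset ℕ} {t : ℤ}
    (ht : t ≠ 0) (htz : |t| ≤ z) (K M : ℕ) (b : ℕ → ℂ) :
    WWB_T P I I1 I2 t K M b =
      EE P I I1 I2 t K M b + WWB_M P I I1 I2 K M b + WWB_Bd P I I1 I2 t K M b := by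
  unfold WWB_T EE WWB_M WWB_Bd
  rw [← Finset.sum_add_distrib, ← Finset.sum_add_distrib]
  refine Finset.sum_congr rfl fun r hr => ?_
  have h1 : ∑ k ∈ Ioc K (2 * K), ∑ k' ∈ (Ioc K (2 * K)).erase k,
      b k * (starRingEnd ℂ) (b k') *
      ((∑ q ∈ SI P I1, ∑ q' ∈ SI P I2, NN2 M t (r * q) (r * q') k k' : ℝ) : ℂ) =
      (∑ k ∈ Ioc K (2 * K), ∑ k' ∈ (Ioc K (2 * K)).erase k,
      b k * (starRingEnd ℂ) (b k') *
      ((∑ q ∈ SI P I1, ∑ q' ∈ (SI P I2).filter (fun q' => good q q' k k'),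
        NN2 M t (r * q) (r * q') k k' : ℝ) : ℂ)) +
      ∑ k ∈ Ioc K (2 * K), ∑ k' ∈ (Ioc K (2 * K)).erase k,
      b k * (starRingEnd ℂ) (b k') *
      ((∑ q ∈ SI P I1, ∑ q' ∈ (SI P I2).filter (fun q' => ¬ good q q' k k'),
        NN2 M t (r * q) (r * q') k k' : ℝ) : ℂ) := by
    rw [← Finset.sum_add_distrib]
    refine Finset.sum_congr rfl fun k _ => ?_
    rw [← Finset.sum_add_distrib]
    refine Finset.sum_congr rfl fun k' _ => ?_
    rw [← mul_add, ← Complex.ofReal_add, ← Finset.sum_add_distrib]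
    congr 2
    refine Finset.sum_congr rfl fun q _ => ?_
    exact (Finset.sum_filter_add_sum_filter_not _ _ _).symm
  rw [h1]
  congr 1
  rw [WWB_restrict K r (fun k k' => b k * (starRingEnd ℂ) (b k') *
      ((∑ q ∈ SI P I1, ∑ q' ∈ (SI P I2).filter (fun q' => good q q' k k'),
        NN2 M t (r * q) (r * q') k k' : ℝ) : ℂ)) ?_, ← Finset.sum_add_distrib]
  · refine Finset.sum_congr rfl fun k _ => ?_
    rw [← Finset.sum_add_distrib]
    refine Finset.sum_congr rfl fun k' _ => ?_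
    rw [mul_assoc (b k * (starRingEnd ℂ) (b k')), ← mul_add]
    congr 1
    simp only [Complex.ofReal_sum, Finset.mul_sum]
    rw [← Finset.sum_add_distrib]
    refine Finset.sum_congr rfl fun q _ => ?_
    rw [← Finset.sum_add_distrib]
    refine Finset.sum_congr rfl fun q' _ => ?_
    push_cast
    have e : (4 * (M : ℂ) / ((r : ℂ) * q * q')) = 4 * M / (r : ℂ) * (1 / ((q : ℂ) * q')) := by
      rw [div_mul_div_comm, mul_one, mul_assoc]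
    rw [e]
    ring
  · intro k k' h
    have : (∑ q ∈ SI P I1, ∑ q' ∈ (SI P I2).filter (fun q' => good q q' k k'),
        NN2 M t (r * q) (r * q') k k' : ℝ) = 0 :=
      Finset.sum_eq_zero fun q _ => Finset.sum_eq_zero fun q' _ =>
        WWB_zero hS ht htz M hr q q' k k' h
    simp only [this, Complex.ofReal_zero, mul_zero]

theorem WWB_NN2 (M : ℕ) (t : ℤ) (a b k k' : ℕ) : 0 ≤ NN2 M t a b k k' :=
  Finset.sum_nonneg fun m _ => (WWB_psi m).1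

theorem WWB_bad {P : ℕ → Finset ℕ} {z N Cd : ℕ} (hS : Sy P z) (hB : SyB P N Cd) (hz : 1 ≤ z)
    {I I1 I2 : Finset ℕ} (hI : I ⊆ range 9) (hI1 : I1 ⊆ range 9) (hI2 : I2 ⊆ range 9)
    (h1 : Disjoint I I1) (h2 : Disjoint I I2)
    {t : ℤ} (ht : t ≠ 0) (htz : |t| ≤ z) {K M : ℕ} (hM : 1 ≤ M) (hK : z < K)
    (hN : 8 * M * K + z ≤ N) {R : ℝ} (hR : 0 < R) (hRr : ∀ r ∈ SI P I, R ≤ r)
    {b : ℕ → ℂ} (hb : ∀ k, ‖b k‖ ≤ 1) :
    ‖WWB_Bd P I I1 I2 t K M b‖ ≤ 200 * (Cd : ℝ) ^ 4 * M * K * (K / (R * z) + 1) := by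
  refine le_trans ?_ (bad hS hB hz hI hI1 hI2 h1 h2 ht htz hM hK hN hR hRr)
  unfold WWB_Bd
  refine (norm_sum_le _ _).trans (Finset.sum_le_sum fun r _ => ?_)
  refine (norm_sum_le _ _).trans (Finset.sum_le_sum fun k _ => ?_)
  have h3 : ∀ k', 0 ≤ ∑ q ∈ SI P I1, ∑ q' ∈ (SI P I2).filter (fun q' => ¬ good q q' k k'),
      NN2 M t (r * q) (r * q') k k' := fun k' =>
    Finset.sum_nonneg fun q _ => Finset.sum_nonneg fun q' _ => WWB_NN2 _ _ _ _ _ _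
  refine (norm_sum_le _ _).trans ((Finset.sum_le_sum fun k' _ => ?_).trans
    (Finset.sum_le_sum_of_subset_of_nonneg (Finset.erase_subset _ _) fun k' _ _ => h3 k'))
  rw [norm_mul, Complex.norm_real, Real.norm_of_nonneg (h3 k'), norm_mul, RCLike.norm_conj]
  have h4 : ‖b k‖ * ‖b k'‖ ≤ 1 := mul_le_one₀ (hb k) (norm_nonneg _) (hb k')
  exact mul_le_of_le_one_left (h3 k') h4

theorem WWB_main {P : ℕ → Finset ℕ} {z N Cd : ℕ} (hS : Sy P z) (hB : SyB P N Cd) (hz : 1 ≤ z)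
    {I B : Finset ℕ} (hB9 : B ⊆ range 9) (hB0 : B.Nonempty)
    {K M L : ℕ} (hM : 1 ≤ M) (hK : z < K) (hN : 8 * M * K + z ≤ N)
    {R : ℝ} (hR : 0 < R) (hRr : ∀ r ∈ SI P I, R ≤ r) (hL : ∀ r ∈ SI P I, K ≤ L * r)
    {b : ℕ → ℂ} (hb : ∀ k, ‖b k‖ ≤ 1) :
    ‖∑ I1 ∈ B.powerset, ∑ I2 ∈ B.powerset, (WWB_c P B I1 I2 : ℂ) * WWB_M P I I1 I2 K M b‖ ≤
      (SI P I).card * K * (2 * L) * (4 * M / R) * (10 ^ 8 * (Cd : ℝ) ^ 40 / z) := by
  have e1 : ∑ I1 ∈ B.powerset, ∑ I2 ∈ B.powerset, (WWB_c P B I1 I2 : ℂ) *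
      WWB_M P I I1 I2 K M b =
      ∑ r ∈ SI P I, ∑ k ∈ (Ioc K (2 * K)).filter (fun k => Nat.Coprime r k),
      ∑ k' ∈ (Ioc K (2 * K)).filter (fun k' => k' ≠ k ∧ k' ≡ k [MOD r]),
      b k * (starRingEnd ℂ) (b k') * (4 * M / (r : ℂ)) *
        ((∑ I1 ∈ B.powerset, ∑ I2 ∈ B.powerset, WWB_c P B I1 I2 *
          ∑ q ∈ SI P I1, ∑ q' ∈ (SI P I2).filter (fun q' => good q q' k k'),
          (1 / ((q : ℝ) * q')) : ℝ) : ℂ) := by
    have e2 : ∀ r ∈ SI P I, ∀ k ∈ (Ioc K (2 * K)).filter (fun k => Nat.Coprime r k),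
        ∀ k' ∈ (Ioc K (2 * K)).filter (fun k' => k' ≠ k ∧ k' ≡ k [MOD r]),
        b k * (starRingEnd ℂ) (b k') * (4 * M / (r : ℂ)) *
        ((∑ I1 ∈ B.powerset, ∑ I2 ∈ B.powerset, WWB_c P B I1 I2 *
          ∑ q ∈ SI P I1, ∑ q' ∈ (SI P I2).filter (fun q' => good q q' k k'),
          (1 / ((q : ℝ) * q')) : ℝ) : ℂ) =
        ∑ I1 ∈ B.powerset, ∑ I2 ∈ B.powerset, (WWB_c P B I1 I2 : ℂ) *
        (b k * (starRingEnd ℂ) (b k') * (4 * M / (r : ℂ)) *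
        ((∑ q ∈ SI P I1, ∑ q' ∈ (SI P I2).filter (fun q' => good q q' k k'),
          (1 / ((q : ℝ) * q')) : ℝ) : ℂ)) := by
      intro r _ k _ k' _
      rw [Complex.ofReal_sum, Finset.mul_sum]
      refine Finset.sum_congr rfl fun I1 _ => ?_
      rw [Complex.ofReal_sum, Finset.mul_sum]
      refine Finset.sum_congr rfl fun I2 _ => ?_
      rw [Complex.ofReal_mul]
      ring
    rw [Finset.sum_congr rfl fun r hr => Finset.sum_congr rfl fun k hk =>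
      Finset.sum_congr rfl fun k' hk' => e2 r hr k hk k' hk']
    rw [WWB_comm (SI P I) (fun r => (Ioc K (2 * K)).filter (fun k => Nat.Coprime r k))
      (fun r k => (Ioc K (2 * K)).filter (fun k' => k' ≠ k ∧ k' ≡ k [MOD r]))]
    refine Finset.sum_congr rfl fun I1 _ => ?_
    rw [WWB_comm (SI P I) (fun r => (Ioc K (2 * K)).filter (fun k => Nat.Coprime r k))
      (fun r k => (Ioc K (2 * K)).filter (fun k' => k' ≠ k ∧ k' ≡ k [MOD r]))]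
    refine Finset.sum_congr rfl fun I2 _ => ?_
    unfold WWB_M
    simp_rw [Finset.mul_sum]
  rw [e1]
  set E : ℝ := 10 ^ 8 * (Cd : ℝ) ^ 40 / z with hE
  have hE0 : 0 ≤ E := by positivity
  have hC0 : 0 ≤ 4 * M / R * E := by positivity
  have key : ∀ r ∈ SI P I, ∀ k ∈ (Ioc K (2 * K)).filter (fun k => Nat.Coprime r k),
      ∀ k' ∈ (Ioc K (2 * K)).filter (fun k' => k' ≠ k ∧ k' ≡ k [MOD r]),
      ‖b k * (starRingEnd ℂ) (b k') * (4 * M / (r : ℂ)) *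
        ((∑ I1 ∈ B.powerset, ∑ I2 ∈ B.powerset, WWB_c P B I1 I2 *
          ∑ q ∈ SI P I1, ∑ q' ∈ (SI P I2).filter (fun q' => good q q' k k'),
          (1 / ((q : ℝ) * q')) : ℝ) : ℂ)‖ ≤ 4 * M / R * E := by
    intro r hr k hk k' hk'
    rw [Finset.mem_filter, Finset.mem_Ioc] at hk hk'
    have hKN : 2 * K ≤ N := by
      have : 8 * 1 * K ≤ 8 * M * K := by gcongr
      omega
    have h1 := mai hS hB hz hB9 hB0 (k := k) (k' := k') (by omega) (by omega) (by omega)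
      (by omega)
    rw [norm_mul, norm_mul, norm_mul, RCLike.norm_conj, Complex.norm_real, Real.norm_eq_abs]
    have h2 : ‖b k‖ * ‖b k'‖ ≤ 1 := mul_le_one₀ (hb k) (norm_nonneg _) (hb k')
    have h3 : ‖(4 * M / (r : ℂ))‖ ≤ 4 * M / R := by
      rw [norm_div, norm_mul, Complex.norm_natCast, Complex.norm_natCast, Complex.norm_ofNat]
      exact div_le_div_of_nonneg_left (by positivity) hR (hRr r hr)
    have h4 : ‖b k‖ * ‖b k'‖ * ‖(4 * M / (r : ℂ))‖ ≤ 4 * M / R := by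
      calc ‖b k‖ * ‖b k'‖ * ‖(4 * M / (r : ℂ))‖ ≤ 1 * (4 * M / R) :=
            mul_le_mul h2 h3 (norm_nonneg _) zero_le_one
        _ = 4 * M / R := one_mul _
    exact mul_le_mul h4 h1 (abs_nonneg _) (by positivity)
  have hr1 : ∀ r ∈ SI P I, 1 ≤ r := by
    intro r hr
    exact Nat.one_le_iff_ne_zero.mpr (SI_squarefree hS hr).ne_zero
  have h5 : ∀ r ∈ SI P I, ‖∑ k ∈ (Ioc K (2 * K)).filter (fun k => Nat.Coprime r k),
      ∑ k' ∈ (Ioc K (2 * K)).filter (fun k' => k' ≠ k ∧ k' ≡ k [MOD r]),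
      b k * (starRingEnd ℂ) (b k') * (4 * M / (r : ℂ)) *
        ((∑ I1 ∈ B.powerset, ∑ I2 ∈ B.powerset, WWB_c P B I1 I2 *
          ∑ q ∈ SI P I1, ∑ q' ∈ (SI P I2).filter (fun q' => good q q' k k'),
          (1 / ((q : ℝ) * q')) : ℝ) : ℂ)‖ ≤ K * (2 * L * (4 * M / R * E)) := by
    intro r hr
    have h6 : ∀ k ∈ (Ioc K (2 * K)).filter (fun k => Nat.Coprime r k),
        ‖∑ k' ∈ (Ioc K (2 * K)).filter (fun k' => k' ≠ k ∧ k' ≡ k [MOD r]),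
        b k * (starRingEnd ℂ) (b k') * (4 * M / (r : ℂ)) *
        ((∑ I1 ∈ B.powerset, ∑ I2 ∈ B.powerset, WWB_c P B I1 I2 *
          ∑ q ∈ SI P I1, ∑ q' ∈ (SI P I2).filter (fun q' => good q q' k k'),
          (1 / ((q : ℝ) * q')) : ℝ) : ℂ)‖ ≤ 2 * L * (4 * M / R * E) := by
      intro k hk
      refine (norm_sum_le _ _).trans ((Finset.sum_le_sum (key r hr k hk)).trans ?_)
      rw [Finset.sum_const, nsmul_eq_mul]
      refine mul_le_mul_of_nonneg_right ?_ hC0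
      have := WWB_card (hr1 r hr) (hL r hr) (Finset.mem_filter.mp hk).1
      exact_mod_cast this
    refine (norm_sum_le _ _).trans ((Finset.sum_le_sum h6).trans ?_)
    rw [Finset.sum_const, nsmul_eq_mul]
    refine mul_le_mul_of_nonneg_right ?_ (by positivity)
    have h7 : ((Ioc K (2 * K)).filter (fun k => Nat.Coprime r k)).card ≤ K := by
      refine (Finset.card_filter_le _ _).trans ?_
      rw [Nat.card_Ioc]
      omega
    exact_mod_cast h7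
  refine (norm_sum_le _ _).trans ((Finset.sum_le_sum h5).trans ?_)
  rw [Finset.sum_const, nsmul_eq_mul]
  exact le_of_eq (by ring)

theorem wwb {P : ℕ → Finset ℕ} {z N Cd : ℕ} (hS : Sy P z) (hB : SyB P N Cd) (hz : 1 ≤ z) {I B : Finset ℕ}
    (hI : I ⊆ range 9) (hB9 : B ⊆ range 9) (hB0 : B.Nonempty) (hIB : Disjoint I B)
    {t : ℤ} (ht : t ≠ 0) (htz : |t| ≤ z) {K M L : ℕ} (hM : 1 ≤ M) (hK : z < K) (hN : 8 * M * K + z ≤ N)
    {R : ℝ} (hR : 0 < R) (hRr : ∀ r ∈ SI P I, R ≤ r) (hL : ∀ r ∈ SI P I, K ≤ L * r)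
    {b : ℕ → ℂ} (hb : ∀ k, ‖b k‖ ≤ 1) :
    WW P B I t K M b ≤ 8 * M * K * (Cd : ℝ) ^ 19 +
      (∑ I1 ∈ B.powerset, ∑ I2 ∈ B.powerset, (Cd : ℝ) ^ 18 * ‖EE P I I1 I2 t K M b‖) +
      (SI P I).card * K * (2 * L) * (4 * M / R) * (10 ^ 8 * (Cd : ℝ) ^ 40 / z) +
      4 ^ 9 * (Cd : ℝ) ^ 18 * (200 * (Cd : ℝ) ^ 4 * M * K * (K / (R * z) + 1)) := by
  have e1 : ((WW P B I t K M b : ℝ) : ℂ) =
      (∑ r ∈ SI P I, ∑ m ∈ range (4 * M), (psi M m : ℂ) *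
        ∑ k ∈ Ioc K (2 * K), WWB_a P B t r m b k * (starRingEnd ℂ) (WWB_a P B t r m b k)) +
      ((∑ I1 ∈ B.powerset, ∑ I2 ∈ B.powerset, (WWB_c P B I1 I2 : ℂ) * EE P I I1 I2 t K M b) +
      (∑ I1 ∈ B.powerset, ∑ I2 ∈ B.powerset, (WWB_c P B I1 I2 : ℂ) * WWB_M P I I1 I2 K M b) +
      ∑ I1 ∈ B.powerset, ∑ I2 ∈ B.powerset, (WWB_c P B I1 I2 : ℂ) *
        WWB_Bd P I I1 I2 t K M b) := by
    have e2 : (∑ I1 ∈ B.powerset, ∑ I2 ∈ B.powerset, (WWB_c P B I1 I2 : ℂ) *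
        EE P I I1 I2 t K M b) +
      (∑ I1 ∈ B.powerset, ∑ I2 ∈ B.powerset, (WWB_c P B I1 I2 : ℂ) * WWB_M P I I1 I2 K M b) +
      ∑ I1 ∈ B.powerset, ∑ I2 ∈ B.powerset, (WWB_c P B I1 I2 : ℂ) *
        WWB_Bd P I I1 I2 t K M b = ∑ I1 ∈ B.powerset, ∑ I2 ∈ B.powerset,
        (WWB_c P B I1 I2 : ℂ) * WWB_T P I I1 I2 t K M b := by
      rw [← Finset.sum_add_distrib, ← Finset.sum_add_distrib]
      refine Finset.sum_congr rfl fun I1 _ => ?_
      rw [← Finset.sum_add_distrib, ← Finset.sum_add_distrib]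
      refine Finset.sum_congr rfl fun I2 _ => ?_
      rw [WWB_split hS ht htz K M b]
      ring
    rw [e2, ← WWB_off hS hIB t K M b, ← Finset.sum_add_distrib]
    unfold WW
    rw [Complex.ofReal_sum]
    refine Finset.sum_congr rfl fun r _ => ?_
    rw [Complex.ofReal_sum, ← Finset.sum_add_distrib]
    refine Finset.sum_congr rfl fun m _ => ?_
    rw [Complex.ofReal_mul, WWB_sq, mul_add]
  have n1 := WWB_diag hS hB hI hB9 htz hM hK hN hb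
  have n2 : ‖∑ I1 ∈ B.powerset, ∑ I2 ∈ B.powerset, (WWB_c P B I1 I2 : ℂ) *
      EE P I I1 I2 t K M b‖ ≤
      ∑ I1 ∈ B.powerset, ∑ I2 ∈ B.powerset, (Cd : ℝ) ^ 18 * ‖EE P I I1 I2 t K M b‖ := by
    refine (norm_sum_le _ _).trans (Finset.sum_le_sum fun I1 _ => ?_)
    refine (norm_sum_le _ _).trans (Finset.sum_le_sum fun I2 _ => ?_)
    rw [norm_mul, Complex.norm_real, Real.norm_eq_abs]
    exact mul_le_mul_of_nonneg_right (WWB_c_le hB hB9 I1 I2) (norm_nonneg _)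
  have n3 := WWB_main hS hB hz hB9 hB0 hM hK hN hR hRr hL hb
  have n4 : ‖∑ I1 ∈ B.powerset, ∑ I2 ∈ B.powerset, (WWB_c P B I1 I2 : ℂ) *
      WWB_Bd P I I1 I2 t K M b‖ ≤
      4 ^ 9 * (Cd : ℝ) ^ 18 * (200 * (Cd : ℝ) ^ 4 * M * K * (K / (R * z) + 1)) := by
    have hb1 : ∀ I1 ∈ B.powerset, ‖∑ I2 ∈ B.powerset, (WWB_c P B I1 I2 : ℂ) *
        WWB_Bd P I I1 I2 t K M b‖ ≤
        2 ^ 9 * ((Cd : ℝ) ^ 18 * (200 * (Cd : ℝ) ^ 4 * M * K * (K / (R * z) + 1))) := by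
      intro I1 hI1
      rw [Finset.mem_powerset] at hI1
      have hb2 : ∀ I2 ∈ B.powerset, ‖(WWB_c P B I1 I2 : ℂ) * WWB_Bd P I I1 I2 t K M b‖ ≤
          (Cd : ℝ) ^ 18 * (200 * (Cd : ℝ) ^ 4 * M * K * (K / (R * z) + 1)) := by
        intro I2 hI2
        rw [Finset.mem_powerset] at hI2
        rw [norm_mul, Complex.norm_real, Real.norm_eq_abs]
        exact mul_le_mul (WWB_c_le hB hB9 I1 I2)
          (WWB_bad hS hB hz hI (hI1.trans hB9) (hI2.trans hB9) (hIB.mono_right hI1)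
            (hIB.mono_right hI2) ht htz hM hK hN hR hRr hb) (norm_nonneg _) (by positivity)
      refine (norm_sum_le _ _).trans ((Finset.sum_le_sum hb2).trans ?_)
      rw [Finset.sum_const, nsmul_eq_mul, Finset.card_powerset]
      refine mul_le_mul_of_nonneg_right ?_ (by positivity)
      have : 2 ^ B.card ≤ 2 ^ 9 := Nat.pow_le_pow_right (by norm_num) (by
        have := Finset.card_le_card hB9
        rwa [Finset.card_range] at this)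
      exact_mod_cast this
    refine (norm_sum_le _ _).trans ((Finset.sum_le_sum hb1).trans ?_)
    rw [Finset.sum_const, nsmul_eq_mul, Finset.card_powerset]
    have h8 : ((2 ^ B.card : ℕ) : ℝ) ≤ 2 ^ 9 := by
      have : 2 ^ B.card ≤ 2 ^ 9 := Nat.pow_le_pow_right (by norm_num) (by
        have := Finset.card_le_card hB9
        rwa [Finset.card_range] at this)
      exact_mod_cast this
    calc ((2 ^ B.card : ℕ) : ℝ) *
        (2 ^ 9 * ((Cd : ℝ) ^ 18 * (200 * (Cd : ℝ) ^ 4 * M * K * (K / (R * z) + 1)))) ≤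
        2 ^ 9 * (2 ^ 9 * ((Cd : ℝ) ^ 18 * (200 * (Cd : ℝ) ^ 4 * M * K * (K / (R * z) + 1)))) :=
          mul_le_mul_of_nonneg_right h8 (by positivity)
      _ = 4 ^ 9 * (Cd : ℝ) ^ 18 * (200 * (Cd : ℝ) ^ 4 * M * K * (K / (R * z) + 1)) := by ring
  have n5 : WW P B I t K M b ≤ ‖((WW P B I t K M b : ℝ) : ℂ)‖ := by
    rw [Complex.norm_real]
    exact le_abs_self _
  rw [e1] at n5
  have n6 := norm_add_le (∑ r ∈ SI P I, ∑ m ∈ range (4 * M), (psi M m : ℂ) *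
        ∑ k ∈ Ioc K (2 * K), WWB_a P B t r m b k * (starRingEnd ℂ) (WWB_a P B t r m b k))
      ((∑ I1 ∈ B.powerset, ∑ I2 ∈ B.powerset, (WWB_c P B I1 I2 : ℂ) * EE P I I1 I2 t K M b) +
      (∑ I1 ∈ B.powerset, ∑ I2 ∈ B.powerset, (WWB_c P B I1 I2 : ℂ) * WWB_M P I I1 I2 K M b) +
      ∑ I1 ∈ B.powerset, ∑ I2 ∈ B.powerset, (WWB_c P B I1 I2 : ℂ) *
        WWB_Bd P I I1 I2 t K M b)
  have n7 := norm_add₃_le (a := ∑ I1 ∈ B.powerset, ∑ I2 ∈ B.powerset, (WWB_c P B I1 I2 : ℂ) *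
        EE P I I1 I2 t K M b)
      (b := ∑ I1 ∈ B.powerset, ∑ I2 ∈ B.powerset, (WWB_c P B I1 I2 : ℂ) * WWB_M P I I1 I2 K M b)
      (c := ∑ I1 ∈ B.powerset, ∑ I2 ∈ B.powerset, (WWB_c P B I1 I2 : ℂ) *
        WWB_Bd P I I1 I2 t K M b)
  linarith

end H69BG
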